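import Pool.Agent.Lib.MP_f7db8a.AnDefs

set_option autoImplicit false

/-!
# The component of the translation vector is determined by the extents
-/

namespace Pool.Agent.Lib.MP_f7db8a.An

open Module Set Filter Topology
open scoped RealInnerProductSpace

theorem ON.neg_right {z d : V} (h : ON z d) : ON z (-d) :=
  ⟨h.1, by rw [norm_neg]; exact h.2.1, by rw [inner_neg_right, h.2.2, neg_zero]⟩

theorem ON.neg_left {z d : V} (h : ON z d) : ON (-z) d :=
  ⟨by rw [norm_neg]; exact h.1, h.2.1, by rw [inner_neg_left, h.2.2, neg_zero]⟩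

theorem ON.norm_comb {z d : V} (h : ON z d) (θ : ℝ) :
    ‖Real.cos θ • z + Real.sin θ • d‖ = 1 := by
  have h1 : ‖Real.cos θ • z + Real.sin θ • d‖ ^ 2 = 1 := by
    rw [@norm_add_sq_real, norm_smul, norm_smul, h.1, h.2.1, inner_smul_left, inner_smul_right,
      h.2.2]
    simp only [mul_one, mul_zero, add_zero, Real.norm_eq_abs, sq_abs]
    exact Real.cos_sq_add_sin_sq θ
  have h2 : 0 ≤ ‖Real.cos θ • z + Real.sin θ • d‖ := norm_nonneg _
  nlinarith [h1, h2]

theorem ON.comb_ne {z d : V} (h : ON z d) (θ : ℝ) : Real.cos θ • z + Real.sin θ • d ≠ 0 := by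
  intro h0
  have := h.norm_comb θ
  rw [h0, norm_zero] at this
  exact zero_ne_one this

theorem cont_f {K : Set V} (hK : SB K) {z d : V} (h : ON z d) :
    Continuous (fun θ : ℝ => Real.sin θ * rad K (Real.cos θ • z + Real.sin θ • d)) := by
  rw [continuous_iff_continuousAt]
  intro θ
  refine Real.continuous_sin.continuousAt.mul ?_
  exact ContinuousAt.comp (f := fun θ : ℝ => Real.cos θ • z + Real.sin θ • d) (g := rad K)
    (hK.continuousAt_rad (h.comb_ne θ)) (by fun_prop)

theorem ext_isGreatest {K : Set V} (hK : SB K) {z d : V} (h : ON z d) :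
    0 < ext K z d ∧ (∃ α : ℝ, α • z + (ext K z d) • d ∈ K) ∧
      ∀ α β : ℝ, α • z + β • d ∈ K → β ≤ ext K z d := by
  set f : ℝ → ℝ := fun θ : ℝ => Real.sin θ * rad K (Real.cos θ • z + Real.sin θ • d) with hf
  have hcomp : IsCompact (Icc (0 : ℝ) (2 * Real.pi)) := isCompact_Icc
  have hne : (Icc (0 : ℝ) (2 * Real.pi)).Nonempty := ⟨0, by
    constructor
    · exact le_rfl
    · have := Real.pi_pos; linarith⟩
  obtain ⟨θ, hθ, hmax⟩ := hcomp.exists_sSup_image_eq hne (cont_f hK h).continuousOn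
  have hbdd : BddAbove (f '' Icc 0 (2 * Real.pi)) := (hcomp.image (cont_f hK h)).bddAbove
  have hle : ∀ t ∈ Icc (0 : ℝ) (2 * Real.pi), f t ≤ ext K z d := fun t ht =>
    le_csSup hbdd ⟨t, ht, rfl⟩
  have hpos : 0 < ext K z d := by
    have h1 := hle (Real.pi / 2) ⟨by positivity, by have := Real.pi_pos; linarith⟩
    have h2 : 0 < f (Real.pi / 2) :=
      mul_pos (by rw [Real.sin_pi_div_two]; exact one_pos) (hK.rad_pos (h.comb_ne _))
    linarith
  refine ⟨hpos, ?_, ?_⟩
  · have hm := hK.rad_smul_mem (h.comb_ne θ)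
    refine ⟨rad K (Real.cos θ • z + Real.sin θ • d) * Real.cos θ, ?_⟩
    have he : ext K z d = Real.sin θ * rad K (Real.cos θ • z + Real.sin θ • d) := hmax
    rw [he]
    rw [smul_add, smul_smul, smul_smul] at hm
    rw [mul_comm (Real.sin θ)]
    exact hm
  · intro α β hm
    by_cases hβ : β ≤ 0
    · linarith
    push Not at hβ
    set r := Real.sqrt (α ^ 2 + β ^ 2) with hr
    have hsq : 0 < α ^ 2 + β ^ 2 := by positivity
    have hrpos : 0 < r := Real.sqrt_pos.2 hsq
    have hr2 : r ^ 2 = α ^ 2 + β ^ 2 := Real.sq_sqrt hsq.le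
    set t := Real.arccos (α / r) with ht
    have hαr : |α| ≤ r := by
      apply Real.abs_le_sqrt
      nlinarith [sq_nonneg β]
    have h1 : -1 ≤ α / r := by
      rw [le_div_iff₀ hrpos]; linarith [neg_abs_le α]
    have h2 : α / r ≤ 1 := by
      rw [div_le_one hrpos]; linarith [le_abs_self α]
    have hcos : Real.cos t = α / r := Real.cos_arccos h1 h2
    have hsin : Real.sin t = β / r := by
      rw [ht, Real.sin_arccos]
      have : 1 - (α / r) ^ 2 = (β / r) ^ 2 := by
        field_simp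
        linarith
      rw [this, Real.sqrt_sq (by positivity)]
    have htI : t ∈ Icc (0 : ℝ) (2 * Real.pi) :=
      ⟨Real.arccos_nonneg _, by have := Real.arccos_le_pi (α / r); have := Real.pi_pos; linarith⟩
    have hvec : α • z + β • d = r • (Real.cos t • z + Real.sin t • d) := by
      rw [hcos, hsin, smul_add, smul_smul, smul_smul, mul_div_cancel₀ _ hrpos.ne',
        mul_div_cancel₀ _ hrpos.ne']
    rw [hvec, hK.smul_mem_iff (h.comb_ne t) hrpos.le] at hm
    have h3 : 0 ≤ Real.sin t := by rw [hsin]; positivity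
    calc β = Real.sin t * r := by rw [hsin]; field_simp
      _ ≤ Real.sin t * rad K (Real.cos t • z + Real.sin t • d) :=
          mul_le_mul_of_nonneg_left hm h3
      _ ≤ ext K z d := hle t htI

theorem Hm.neg_right {K L : Set V} {z d : V} {c a b : ℝ} (h : Hm K L z d c a b) :
    Hm K L z (-d) c a (-b) := by
  refine ⟨h.1, fun α β => ?_⟩
  have := h.2 α (-β)
  rw [show α • z + β • -d = α • z + (-β) • d by rw [smul_neg, neg_smul],
    show (c * α + a) • z + (c * β + -b) • -d = (c * α + a) • z + (c * (-β) + b) • d by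
      rw [smul_neg, ← neg_smul]; congr 2; ring]
  exact this

theorem Hm.neg_left {K L : Set V} {z d : V} {c a b : ℝ} (h : Hm K L z d c a b) :
    Hm K L (-z) d c (-a) b := by
  refine ⟨h.1, fun α β => ?_⟩
  have := h.2 (-α) β
  rw [show α • -z + β • d = (-α) • z + β • d by rw [smul_neg, neg_smul],
    show (c * α + -a) • -z + (c * β + b) • d = (c * (-α) + a) • z + (c * β + b) • d by
      rw [smul_neg, ← neg_smul]; congr 2; ring]
  exact this

theorem ext_Hm {K L : Set V} (hK : SB K) (hL : SB L) {z d : V} (hzd : ON z d) {c a b : ℝ}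
    (h : Hm K L z d c a b) : ext L z d = c * ext K z d + b := by
  obtain ⟨-, ⟨α, hα⟩, h1⟩ := ext_isGreatest hK hzd
  obtain ⟨-, ⟨α', hα'⟩, h2⟩ := ext_isGreatest hL hzd
  apply le_antisymm
  · have h3 := (h.2 ((α' - a) / c) ((ext L z d - b) / c)).2 (by
      rw [mul_div_cancel₀ _ h.1.ne', mul_div_cancel₀ _ h.1.ne', sub_add_cancel, sub_add_cancel]
      exact hα')
    have h4 := h1 _ _ h3
    rw [div_le_iff₀ h.1] at h4
    linarith
  · exact h2 _ _ ((h.2 _ _).1 hα)

theorem B_eq {K L : Set V} (hK : SB K) (hL : SB L) {z d : V} (hzd : ON z d) {c a b : ℝ}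
    (h : Hm K L z d c a b) : b = B K L z d := by
  have e1 := ext_Hm hK hL hzd h
  have e2 := ext_Hm hK hL hzd.neg_right h.neg_right
  have p1 := (ext_isGreatest hK hzd).1
  have p2 := (ext_isGreatest hK hzd.neg_right).1
  unfold B
  rw [e1, e2, eq_div_iff (by positivity)]
  ring

theorem contOn_ext {K : Set V} (hK : SB K) :
    ContinuousOn (fun p : V × V => ext K p.1 p.2) {p | ON p.1 p.2} := by
  rw [continuousOn_iff_continuous_domRestrict]
  have hcont : Continuous (fun q : {p : V × V | ON p.1 p.2} × ℝ =>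
      Real.sin q.2 * rad K (Real.cos q.2 • q.1.1.1 + Real.sin q.2 • q.1.1.2)) := by
    rw [continuous_iff_continuousAt]
    intro q
    refine (Real.continuous_sin.comp continuous_snd).continuousAt.mul ?_
    exact ContinuousAt.comp
      (f := fun q : {p : V × V | ON p.1 p.2} × ℝ =>
        Real.cos q.2 • q.1.1.1 + Real.sin q.2 • q.1.1.2) (g := rad K)
      (hK.continuousAt_rad (q.1.2.comb_ne q.2)) (by fun_prop)
  exact IsCompact.continuous_sSup (K := Icc (0 : ℝ) (2 * Real.pi))
    (f := fun (q : {p : V × V | ON p.1 p.2}) (θ : ℝ) =>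
      Real.sin θ * rad K (Real.cos θ • q.1.1 + Real.sin θ • q.1.2)) isCompact_Icc hcont

theorem contOn_ext_neg {K : Set V} (hK : SB K) :
    ContinuousOn (fun p : V × V => ext K p.1 (-p.2)) {p | ON p.1 p.2} := by
  have hneg : Continuous (fun p : V × V => ((p.1, -p.2) : V × V)) :=
    continuous_fst.prodMk continuous_snd.neg
  have hmaps : MapsTo (fun p : V × V => ((p.1, -p.2) : V × V)) {p | ON p.1 p.2}
      {p | ON p.1 p.2} := fun p hp => ON.neg_right hp
  have h := contOn_ext hK
  generalize hg : (fun p : V × V => ext K p.1 p.2) = g at h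
  have h2 : (fun p : V × V => ext K p.1 (-p.2)) =
      g ∘ (fun p : V × V => ((p.1, -p.2) : V × V)) := by
    subst hg; rfl
  rw [h2]
  exact h.comp hneg.continuousOn hmaps

theorem contOn_B {K L : Set V} (hK : SB K) (hL : SB L) :
    ContinuousOn (fun p : V × V => B K L p.1 p.2) {p | ON p.1 p.2} := by
  have k1 := contOn_ext hK
  have k2 := contOn_ext hL
  have k3 := contOn_ext_neg hK
  have k4 := contOn_ext_neg hL
  have k5 : ContinuousOn (fun p : V × V => ext L p.1 p.2 * ext K p.1 (-p.2)) {p | ON p.1 p.2} :=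
    ContinuousOn.mul k2 k3
  have k6 : ContinuousOn (fun p : V × V => ext K p.1 p.2 * ext L p.1 (-p.2)) {p | ON p.1 p.2} :=
    ContinuousOn.mul k1 k4
  have k7 : ContinuousOn (fun p : V × V => ext L p.1 p.2 * ext K p.1 (-p.2) -
      ext K p.1 p.2 * ext L p.1 (-p.2)) {p | ON p.1 p.2} := ContinuousOn.sub k5 k6
  have k8 : ContinuousOn (fun p : V × V => ext K p.1 p.2 + ext K p.1 (-p.2)) {p | ON p.1 p.2} :=
    ContinuousOn.add k1 k3
  have k9 : ∀ p ∈ {p : V × V | ON p.1 p.2}, ext K p.1 p.2 + ext K p.1 (-p.2) ≠ 0 := by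
    intro p hp
    have p1 := (ext_isGreatest hK hp).1
    have p2 := (ext_isGreatest hK (ON.neg_right hp)).1
    exact (add_pos p1 p2).ne'
  exact ContinuousOn.div k7 k8 k9

theorem B_neg_right (K L : Set V) (z d : V) : B K L z (-d) = -B K L z d := by
  unfold B
  rw [neg_neg, add_comm (ext K z (-d)) (ext K z d), ← neg_div]
  congr 1
  ring

theorem fld {K L : Set V} (hK : SB K) (hL : SB L)
    (H : ∀ z d, ON z d → ∃ c a b, Hm K L z d c a b) : Fld (B K L) := by
  refine ⟨contOn_B hK hL, fun z d _ => B_neg_right K L z d, ?_⟩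
  intro z d hzd
  obtain ⟨c, a, b, h⟩ := H z d hzd
  rw [← B_eq hK hL hzd h, ← B_eq hK hL hzd.neg_left h.neg_left]

end Pool.Agent.Lib.MP_f7db8a.An
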