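import Mathlib

set_option autoImplicit false

/-!
# A winding number argument on the hemisphere
-/

namespace Pool.Agent.Lib.MP_f7db8a.An

open Set Filter Topology
open scoped ComplexConjugate

theorem exists_log (W : C(ℝ × ℝ, ℂ)) (h : ∀ p, W p ≠ 0) :
    ∃ g : ℝ × ℝ → ℂ, Continuous g ∧ ∀ p, Complex.exp (g p) = W p := by
  obtain ⟨F, ⟨-, hF⟩, -⟩ := Complex.isCoveringMapOn_exp.existsUnique_continuousMap_lifts W
    (a₀ := ((0 : ℝ), (0 : ℝ))) (e₀ := Complex.log (W (0, 0))) (Complex.exp_log (h _))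
    (fun a => h a)
  exact ⟨F, F.continuous, fun p => congrFun hF p⟩

theorem const_of_exp {X : Type*} [TopologicalSpace X] [PreconnectedSpace X] {f : X → ℂ}
    (hf : Continuous f) (h : ∀ x, Complex.exp (f x) = 1) (x y : X) : f x = f y := by
  choose n hn using fun x => Complex.exp_eq_one_iff.1 (h x)
  have h1 : ∀ x, (n x : ℝ) = (f x).im / (2 * Real.pi) := by
    intro x
    rw [hn x]
    have := Real.pi_pos
    simp
  have h2 : Continuous n := by
    rw [Int.isClosedEmbedding_coe_real.isInducing.continuous_iff]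
    have h3 : ((fun z : ℤ => (z : ℝ)) ∘ n) = fun x => (f x).im / (2 * Real.pi) := funext h1
    rw [h3]
    fun_prop
  have h3 : n x = n y := PreconnectedSpace.constant inferInstance h2
  rw [hn x, hn y, h3]

theorem exists_zero_of_boundary (w : ℝ → ℝ → ℂ) (hc : Continuous (fun p : ℝ × ℝ => w p.1 p.2))
    (hper : ∀ r φ, w r (φ + 2 * Real.pi) = w r φ)
    (h0 : ∀ φ : ℝ, w 0 φ = w 0 0 * Complex.exp (φ * Complex.I))
    (h1 : ∀ φ : ℝ, w (Real.pi / 2) (φ + Real.pi) = -conj (w (Real.pi / 2) φ)) :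
    ∃ r φ : ℝ, w r φ = 0 := by
  by_contra hne
  have hne' : ∀ r φ : ℝ, w r φ ≠ 0 := fun r φ h => hne ⟨r, φ, h⟩
  obtain ⟨g, hg, hgw⟩ := exists_log ⟨fun p => w p.1 p.2, hc⟩ (fun p => hne' p.1 p.2)
  have hgw' : ∀ r φ : ℝ, Complex.exp (g (r, φ)) = w r φ := fun r φ => hgw (r, φ)
  have hD := const_of_exp (X := ℝ × ℝ) (f := fun p => g (p.1, p.2 + 2 * Real.pi) - g (p.1, p.2))
    (by fun_prop) (by
      intro p
      rw [Complex.exp_sub, hgw', hgw', hper, div_self (hne' _ _)]) (0, 0) (Real.pi / 2, 0)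
  have hZ := const_of_exp (X := ℝ) (f := fun φ => g (0, φ) - φ * Complex.I - g (0, 0))
    (by fun_prop) (by
      intro φ
      rw [Complex.exp_sub, Complex.exp_sub, hgw', hgw', h0 φ,
        mul_div_assoc, div_self (Complex.exp_ne_zero _), mul_one, div_self (hne' _ _)])
      0 (2 * Real.pi)
  have hP := const_of_exp (X := ℝ)
    (f := fun φ => g (Real.pi / 2, φ + Real.pi) - conj (g (Real.pi / 2, φ)) -
      Real.pi * Complex.I)
    (by fun_prop) (by
      intro φ
      have h2 : conj (w (Real.pi / 2) φ) ≠ 0 := by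
        rw [Ne, map_eq_zero]
        exact hne' _ _
      rw [Complex.exp_sub, Complex.exp_sub, hgw', h1, Complex.exp_conj, hgw',
        Complex.exp_pi_mul_I]
      field_simp) 0 Real.pi
  simp only [zero_add] at hD hP
  have e1 := congrArg Complex.im hD
  have e2 := congrArg Complex.im hZ
  have e3 := congrArg Complex.im hP
  have e4 : Real.pi + Real.pi = 2 * Real.pi := by ring
  rw [e4] at e3
  simp at e1 e2 e3
  have := Real.pi_pos
  linarith

end Pool.Agent.Lib.MP_f7db8a.An
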