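import Pool.Agent.Lib.MP_f7db8a.AnDefs
import Pool.Agent.Lib.MP_f7db8a.AnB

set_option autoImplicit false

/-!
# An even field of directions on the sphere: some point is good or bad
-/

namespace Pool.Agent.Lib.MP_f7db8a.An

open Module Set Filter Topology
open scoped RealInnerProductSpace ComplexConjugate

/-- the point with polar angle `r` and azimuth `φ` -/
noncomputable def C_z (r φ : ℝ) : V :=
  !₂[Real.sin r * Real.cos φ, Real.sin r * Real.sin φ, Real.cos r]

/-- first tangent vector -/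
noncomputable def C_u (φ : ℝ) : V := !₂[-Real.sin φ, Real.cos φ, 0]

/-- second tangent vector -/
noncomputable def C_v (r φ : ℝ) : V :=
  !₂[Real.cos r * Real.cos φ, Real.cos r * Real.sin φ, -Real.sin r]

/-- the unit tangent vector of angle `ψ` -/
noncomputable def C_d (r φ ψ : ℝ) : V :=
  !₂[-(Real.cos ψ * Real.sin φ) + Real.sin ψ * Real.cos r * Real.cos φ,
    Real.cos ψ * Real.cos φ + Real.sin ψ * Real.cos r * Real.sin φ, -(Real.sin ψ * Real.sin r)]

theorem C_cont {X : Type*} [TopologicalSpace X] {f g h : X → ℝ} (hf : Continuous f)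
    (hg : Continuous g) (hh : Continuous h) : Continuous (fun x => (!₂[f x, g x, h x] : V)) := by
  refine (PiLp.continuous_toLp 2 _).comp (continuous_pi ?_)
  intro i
  fin_cases i
  · exact hf
  · exact hg
  · exact hh

theorem C_norm {a b c : ℝ} (h : a ^ 2 + b ^ 2 + c ^ 2 = 1) : ‖(!₂[a, b, c] : V)‖ = 1 := by
  rw [EuclideanSpace.norm_eq, Fin.sum_univ_three]
  simp only [Real.norm_eq_abs, sq_abs]
  have : (!₂[a, b, c] : V) 0 ^ 2 + (!₂[a, b, c] : V) 1 ^ 2 + (!₂[a, b, c] : V) 2 ^ 2 = 1 := by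
    simpa using h
  rw [this, Real.sqrt_one]

theorem C_inner (x y : V) : ⟪x, y⟫ = x 0 * y 0 + x 1 * y 1 + x 2 * y 2 := by
  simp only [PiLp.inner_apply, Fin.sum_univ_three, RCLike.inner_apply, conj_trivial]
  ring

theorem C_d_eq (r φ ψ : ℝ) : C_d r φ ψ = Real.cos ψ • C_u φ + Real.sin ψ • C_v r φ := by
  ext i
  fin_cases i
  · simp [C_d, C_u, C_v]; ring
  · simp [C_d, C_u, C_v]; ring
  · simp [C_d, C_u, C_v]

theorem C_z_norm (r φ : ℝ) : ‖C_z r φ‖ = 1 := by
  refine C_norm ?_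
  have h1 := Real.sin_sq_add_cos_sq r
  have h2 := Real.sin_sq_add_cos_sq φ
  linear_combination Real.sin r ^ 2 * h2 + h1

theorem C_on (r φ ψ : ℝ) : ON (C_z r φ) (C_d r φ ψ) := by
  have h1 := Real.sin_sq_add_cos_sq r
  have h2 := Real.sin_sq_add_cos_sq φ
  have h3 := Real.sin_sq_add_cos_sq ψ
  refine ⟨C_z_norm r φ, C_norm ?_, ?_⟩
  · linear_combination (Real.cos ψ ^ 2 + Real.sin ψ ^ 2 * Real.cos r ^ 2) * h2 +
      Real.sin ψ ^ 2 * h1 + h3
  · rw [C_inner]
    simp only [C_z, C_d]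
    simp
    linear_combination Real.sin r * Real.sin ψ * Real.cos r * h2

theorem C_rep (r φ : ℝ) {y : V} (h : ⟪C_z r φ, y⟫ = 0) :
    y = ⟪y, C_u φ⟫ • C_u φ + ⟪y, C_v r φ⟫ • C_v r φ := by
  have h1 := Real.sin_sq_add_cos_sq r
  have h2 := Real.sin_sq_add_cos_sq φ
  rw [C_inner] at h
  simp only [C_z] at h
  simp at h
  rw [C_inner, C_inner]
  ext i
  fin_cases i
  · simp [C_u, C_v]
    linear_combination (Real.sin r * Real.cos φ) * h - y 0 * h2 -
      (Real.cos φ ^ 2 * y 0 + Real.cos φ * Real.sin φ * y 1) * h1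
  · simp [C_u, C_v]
    linear_combination (Real.sin r * Real.sin φ) * h - y 1 * h2 -
      (Real.cos φ * Real.sin φ * y 0 + Real.sin φ ^ 2 * y 1) * h1
  · simp [C_u, C_v]
    linear_combination Real.cos r * h - y 2 * h1

theorem C_exists (r φ : ℝ) {d : V} (h : ON (C_z r φ) d) :
    ∃ ψ ∈ Icc (-Real.pi) Real.pi, d = C_d r φ ψ := by
  have hrep := C_rep r φ h.2.2
  set α := ⟪d, C_u φ⟫ with hα
  set β := ⟪d, C_v r φ⟫ with hβ
  have hn : α ^ 2 + β ^ 2 = 1 := by
    have h4 : ⟪d, d⟫ = 1 := by rw [real_inner_self_eq_norm_sq, h.2.1]; norm_num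
    have h5 : ⟪d, α • C_u φ + β • C_v r φ⟫ = α * α + β * β := by
      rw [inner_add_right, inner_smul_right, inner_smul_right]
    rw [← hrep, h4] at h5
    linarith [h5]
  set x : ℂ := ⟨α, β⟩ with hx
  have hx1 : ‖x‖ = 1 := by
    rw [Complex.norm_def, Complex.normSq_mk]
    rw [show α * α + β * β = 1 by linarith, Real.sqrt_one]
  have hx0 : x ≠ 0 := by
    intro h0
    rw [h0, norm_zero] at hx1
    exact zero_ne_one hx1
  refine ⟨Complex.arg x, ⟨(Complex.neg_pi_lt_arg x).le, Complex.arg_le_pi x⟩, ?_⟩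
  rw [C_d_eq, Complex.cos_arg hx0, Complex.sin_arg, hx1, div_one, div_one]
  exact hrep

theorem C_z_cont : Continuous (fun p : ℝ × ℝ => C_z p.1 p.2) := by
  unfold C_z
  exact C_cont (by fun_prop) (by fun_prop) (by fun_prop)

theorem C_d_cont : Continuous (fun p : (ℝ × ℝ) × ℝ => C_d p.1.1 p.1.2 p.2) := by
  unfold C_d
  exact C_cont (by fun_prop) (by fun_prop) (by fun_prop)

/-- `b` along the parametrisation -/
noncomputable def C_b (b : V → V → ℝ) (r φ ψ : ℝ) : ℝ := b (C_z r φ) (C_d r φ ψ)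

theorem C_b_cont {b : V → V → ℝ} (h : Fld b) :
    Continuous (fun p : (ℝ × ℝ) × ℝ => C_b b p.1.1 p.1.2 p.2) := by
  have h1 : Continuous (fun p : (ℝ × ℝ) × ℝ => (C_z p.1.1 p.1.2, C_d p.1.1 p.1.2 p.2)) :=
    (C_z_cont.comp continuous_fst).prodMk C_d_cont
  exact h.cont.comp_continuous h1 fun p => C_on _ _ _

/-- the averaged field -/
noncomputable def C_w (b : V → V → ℝ) (r φ : ℝ) : ℂ :=
  ∫ ψ in (-Real.pi)..(-Real.pi + 2 * Real.pi), (C_b b r φ ψ : ℂ) * Complex.exp (ψ * Complex.I)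

theorem C_w_cont {b : V → V → ℝ} (h : Fld b) :
    Continuous (fun p : ℝ × ℝ => C_w b p.1 p.2) := by
  unfold C_w
  refine intervalIntegral.continuous_parametric_intervalIntegral_of_continuous' ?_ _ _
  have h1 := C_b_cont h
  have h2 : Continuous (fun p : (ℝ × ℝ) × ℝ => Complex.exp ((p.2 : ℂ) * Complex.I)) := by
    fun_prop
  exact (Complex.continuous_ofReal.comp h1).mul h2

theorem C_w_per (b : V → V → ℝ) (r φ : ℝ) : C_w b r (φ + 2 * Real.pi) = C_w b r φ := by
  unfold C_w C_b C_z C_d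
  simp only [Real.sin_add_two_pi, Real.cos_add_two_pi]

theorem C_periodic (b : V → V → ℝ) (r φ : ℝ) :
    Function.Periodic (fun ψ : ℝ => (C_b b r φ ψ : ℂ) * Complex.exp (ψ * Complex.I))
      (2 * Real.pi) := by
  intro ψ
  have h1 : C_b b r φ (ψ + 2 * Real.pi) = C_b b r φ ψ := by
    unfold C_b C_d
    simp only [Real.sin_add_two_pi, Real.cos_add_two_pi]
  have h2 : Complex.exp (((ψ + 2 * Real.pi : ℝ) : ℂ) * Complex.I) =
      Complex.exp ((ψ : ℂ) * Complex.I) := by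
    push_cast
    rw [add_mul, Complex.exp_add, Complex.exp_two_pi_mul_I, mul_one]
  simp only [h1, h2]

theorem C_w_zero (b : V → V → ℝ) (φ : ℝ) :
    C_w b 0 φ = C_w b 0 0 * Complex.exp (φ * Complex.I) := by
  have hb : ∀ ψ, C_b b 0 φ (ψ + φ) = C_b b 0 0 ψ := by
    intro ψ
    unfold C_b
    congr 1
    · unfold C_z
      simp
    · unfold C_d
      have h2 := Real.sin_sq_add_cos_sq φ
      rw [Real.sin_add, Real.cos_add]
      ext i
      fin_cases i
      · simp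
        linear_combination Real.sin ψ * h2
      · simp
        linear_combination Real.cos ψ * h2
      · simp
  have h1 : C_w b 0 φ = ∫ ψ in (-Real.pi)..(-Real.pi + 2 * Real.pi),
      (C_b b 0 φ (ψ + φ) : ℂ) * Complex.exp (((ψ + φ : ℝ) : ℂ) * Complex.I) := by
    rw [intervalIntegral.integral_comp_add_right
      (fun ψ : ℝ => (C_b b 0 φ ψ : ℂ) * Complex.exp (ψ * Complex.I))]
    rw [show -Real.pi + 2 * Real.pi + φ = -Real.pi + φ + 2 * Real.pi by ring]
    exact (C_periodic b 0 φ).intervalIntegral_add_eq _ _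
  rw [h1]
  unfold C_w
  rw [← intervalIntegral.integral_mul_const]
  refine intervalIntegral.integral_congr fun ψ _ => ?_
  simp only [hb]
  push_cast
  rw [add_mul, Complex.exp_add]
  ring

theorem C_w_half {b : V → V → ℝ} (h : Fld b) (φ : ℝ) :
    C_w b (Real.pi / 2) (φ + Real.pi) = -conj (C_w b (Real.pi / 2) φ) := by
  have hb : ∀ ψ, C_b b (Real.pi / 2) (φ + Real.pi) ψ = C_b b (Real.pi / 2) φ (Real.pi - ψ) := by
    intro ψ
    have h1 := h.even _ _ (C_on (Real.pi / 2) φ (Real.pi - ψ))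
    unfold C_b
    rw [← h1]
    congr 1
    · unfold C_z
      ext i
      fin_cases i
      · simp
      · simp
      · simp
    · unfold C_d
      ext i
      fin_cases i
      · simp
      · simp
      · simp
  have hconj : conj (C_w b (Real.pi / 2) φ) = ∫ ψ in (-Real.pi)..(-Real.pi + 2 * Real.pi),
      conj ((C_b b (Real.pi / 2) φ ψ : ℂ) * Complex.exp (ψ * Complex.I)) := by
    unfold C_w
    rw [intervalIntegral, intervalIntegral, map_sub, ← integral_conj, ← integral_conj]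
  have hshift : C_w b (Real.pi / 2) φ = ∫ ψ in (-Real.pi)..(-Real.pi + 2 * Real.pi),
      (C_b b (Real.pi / 2) φ (Real.pi - ψ) : ℂ) *
        Complex.exp (((Real.pi - ψ : ℝ) : ℂ) * Complex.I) := by
    rw [intervalIntegral.integral_comp_sub_left
      (fun ψ : ℝ => (C_b b (Real.pi / 2) φ ψ : ℂ) * Complex.exp (ψ * Complex.I))]
    rw [show Real.pi - -Real.pi = Real.pi - (-Real.pi + 2 * Real.pi) + 2 * Real.pi by ring]
    exact (C_periodic b (Real.pi / 2) φ).intervalIntegral_add_eq _ _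
  have hconj2 : conj (C_w b (Real.pi / 2) φ) = ∫ ψ in (-Real.pi)..(-Real.pi + 2 * Real.pi),
      conj ((C_b b (Real.pi / 2) φ (Real.pi - ψ) : ℂ) *
        Complex.exp (((Real.pi - ψ : ℝ) : ℂ) * Complex.I)) := by
    rw [hshift, intervalIntegral, intervalIntegral, map_sub, ← integral_conj, ← integral_conj]
  rw [hconj2, ← intervalIntegral.integral_neg]
  unfold C_w
  refine intervalIntegral.integral_congr fun ψ _ => ?_
  simp only [hb, map_mul, Complex.conj_ofReal]
  rw [← Complex.exp_conj]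
  simp only [map_mul, Complex.conj_ofReal, Complex.conj_I]
  push_cast
  rw [show ((Real.pi : ℂ) - (ψ : ℂ)) * -Complex.I = (ψ : ℂ) * Complex.I - Real.pi * Complex.I by
    ring, Complex.exp_sub, Complex.exp_pi_mul_I]
  ring

theorem C_b_cont' {b : V → V → ℝ} (h : Fld b) (r φ : ℝ) : Continuous (C_b b r φ) := by
  have h1 : Continuous (fun ψ : ℝ => (((r, φ) : ℝ × ℝ), ψ)) := by fun_prop
  have h2 : Continuous ((fun p : (ℝ × ℝ) × ℝ => C_b b p.1.1 p.1.2 p.2) ∘
      (fun ψ : ℝ => (((r, φ) : ℝ × ℝ), ψ))) := Continuous.comp (C_b_cont h) h1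
  have h3 : ((fun p : (ℝ × ℝ) × ℝ => C_b b p.1.1 p.1.2 p.2) ∘
      (fun ψ : ℝ => (((r, φ) : ℝ × ℝ), ψ))) = C_b b r φ := by
    funext ψ
    rfl
  rwa [h3] at h2

theorem C_in (r φ : ℝ) (m : V) (ψ : ℝ) :
    ⟪C_d r φ ψ, m⟫ = Real.cos ψ * ⟪C_u φ, m⟫ + Real.sin ψ * ⟪C_v r φ, m⟫ := by
  rw [C_d_eq, inner_add_left, real_inner_smul_left, real_inner_smul_left]

/-- the real and imaginary parts of the integral vanish -/
theorem C_parts {f : ℝ → ℝ} (hf : Continuous f) {s t : ℝ}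
    (h : ∫ ψ in s..t, (f ψ : ℂ) * Complex.exp (ψ * Complex.I) = 0) :
    (∫ ψ in s..t, f ψ * Real.cos ψ = 0) ∧ (∫ ψ in s..t, f ψ * Real.sin ψ = 0) := by
  have e : ∀ ψ : ℝ, (f ψ : ℂ) * Complex.exp (ψ * Complex.I) =
      ((f ψ * Real.cos ψ : ℝ) : ℂ) + ((f ψ * Real.sin ψ : ℝ) : ℂ) * Complex.I := by
    intro ψ
    rw [Complex.exp_mul_I]
    push_cast
    ring
  have h1 : ∫ ψ in s..t, (f ψ : ℂ) * Complex.exp (ψ * Complex.I) =
      ((∫ ψ in s..t, f ψ * Real.cos ψ : ℝ) : ℂ) +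
        ((∫ ψ in s..t, f ψ * Real.sin ψ : ℝ) : ℂ) * Complex.I := by
    rw [← intervalIntegral.integral_ofReal, ← intervalIntegral.integral_ofReal,
      ← intervalIntegral.integral_mul_const, ← intervalIntegral.integral_add]
    · exact intervalIntegral.integral_congr fun ψ _ => e ψ
    · apply Continuous.intervalIntegrable
      exact Complex.continuous_ofReal.comp (hf.mul Real.continuous_cos)
    · apply Continuous.intervalIntegrable
      exact (Complex.continuous_ofReal.comp (hf.mul Real.continuous_sin)).mul continuous_const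
  rw [h1] at h
  have hre := congrArg Complex.re h
  have him := congrArg Complex.im h
  simp only [Complex.add_re, Complex.ofReal_re, Complex.mul_re, Complex.ofReal_im, Complex.I_re,
    Complex.I_im, mul_zero, zero_mul, add_zero, Complex.zero_re, sub_self] at hre
  simp only [Complex.add_im, Complex.ofReal_im, Complex.mul_im, Complex.ofReal_re, Complex.I_re,
    Complex.I_im, mul_zero, mul_one, zero_add, add_zero, Complex.zero_im] at him
  exact ⟨hre, him⟩

/-- **Part C.** -/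
theorem good_or_bad {b : V → V → ℝ} (h : Fld b) :
    ∃ z : V, ‖z‖ = 1 ∧ (Good b z ∨ Bad b z) := by
  by_contra hcon
  push Not at hcon
  obtain ⟨r, φ, hw⟩ := exists_zero_of_boundary (C_w b) (C_w_cont h) (C_w_per b) (C_w_zero b)
    (C_w_half h)
  obtain ⟨hg, hbad⟩ := hcon (C_z r φ) (C_z_norm r φ)
  unfold Bad at hbad
  push Not at hbad
  obtain ⟨m, hm0, hzm, hm⟩ := hbad
  unfold Good at hg
  push Not at hg
  obtain ⟨d, hd, hbd⟩ := hg
  obtain ⟨ψ₀, _, rfl⟩ := C_exists r φ hd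
  have hbc := C_b_cont' h r φ
  have hin := C_in r φ m
  have hpc : Continuous (fun ψ => C_b b r φ ψ * ⟪C_d r φ ψ, m⟫) := by
    simp only [hin]
    exact hbc.mul ((Real.continuous_cos.mul continuous_const).add
      (Real.continuous_sin.mul continuous_const))
  have hp0 : ∀ ψ, 0 ≤ C_b b r φ ψ * ⟪C_d r φ ψ, m⟫ := fun ψ => hm _ (C_on r φ ψ)
  obtain ⟨hcos, hsin⟩ := C_parts hbc hw
  have hint : ∫ ψ in (-Real.pi)..(-Real.pi + 2 * Real.pi), C_b b r φ ψ * ⟪C_d r φ ψ, m⟫ = 0 := by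
    have e : ∀ ψ, C_b b r φ ψ * ⟪C_d r φ ψ, m⟫ = (C_b b r φ ψ * Real.cos ψ) * ⟪C_u φ, m⟫ +
        (C_b b r φ ψ * Real.sin ψ) * ⟪C_v r φ, m⟫ := by
      intro ψ
      rw [hin]
      ring
    simp only [e]
    rw [intervalIntegral.integral_add, intervalIntegral.integral_mul_const,
      intervalIntegral.integral_mul_const, hcos, hsin]
    · ring
    · exact ((hbc.mul Real.continuous_cos).mul continuous_const).intervalIntegrable _ _
    · exact ((hbc.mul Real.continuous_sin).mul continuous_const).intervalIntegrable _ _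
  have hzero : ∀ ψ ∈ Icc (-Real.pi) (-Real.pi + 2 * Real.pi),
      C_b b r φ ψ * ⟪C_d r φ ψ, m⟫ = 0 := by
    intro ψ hψ
    by_contra hne
    have hpos : 0 < C_b b r φ ψ * ⟪C_d r φ ψ, m⟫ := lt_of_le_of_ne (hp0 ψ) (Ne.symm hne)
    have := intervalIntegral.integral_pos (by linarith [Real.pi_pos]) hpc.continuousOn
      (fun x _ => hp0 x) ⟨ψ, hψ, hpos⟩
    rw [hint] at this
    exact lt_irrefl _ this
  have hzero' : ∀ ψ, C_b b r φ ψ * ⟪C_d r φ ψ, m⟫ = 0 := by
    intro ψ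
    obtain ⟨ψ', hψ', he⟩ := C_exists r φ (C_on r φ ψ)
    have h1 := hzero ψ' ⟨hψ'.1, by linarith [hψ'.2]⟩
    unfold C_b at h1 ⊢
    rw [he]
    exact h1
  -- near `ψ₀` the field does not vanish
  have hne0 : C_b b r φ ψ₀ ≠ 0 := hbd
  have hev : ∀ᶠ ψ in 𝓝 ψ₀, C_b b r φ ψ ≠ 0 := hbc.continuousAt.eventually_ne hne0
  obtain ⟨ε, hε, hball⟩ := Metric.eventually_nhds_iff.mp hev
  set δ := min (ε / 2) 1 with hδ
  have hδ0 : 0 < δ := lt_min (by linarith) one_pos
  have hδε : δ < ε := lt_of_le_of_lt (min_le_left _ _) (by linarith)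
  have hδ1 : δ ≤ 1 := min_le_right _ _
  have q0 : ⟪C_d r φ ψ₀, m⟫ = 0 := (mul_eq_zero.mp (hzero' ψ₀)).resolve_left hne0
  have q1 : ⟪C_d r φ (ψ₀ + δ), m⟫ = 0 := by
    refine (mul_eq_zero.mp (hzero' (ψ₀ + δ))).resolve_left (hball ?_)
    rw [Real.dist_eq, add_sub_cancel_left, abs_of_pos hδ0]
    exact hδε
  rw [hin] at q0 q1
  have hsδ : Real.sin δ ≠ 0 :=
    (Real.sin_pos_of_pos_of_lt_pi hδ0 (by linarith [Real.pi_gt_three])).ne'
  have hpy := Real.sin_sq_add_cos_sq ψ₀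
  rw [Real.sin_add, Real.cos_add] at q1
  set S := ⟪C_u φ, m⟫ with hS
  set T := ⟪C_v r φ, m⟫ with hT
  -- `cos ψ₀ S + sin ψ₀ T = 0` and `sin δ (cos ψ₀ T - sin ψ₀ S) = 0`
  have q2 : Real.sin δ * (Real.cos ψ₀ * T - Real.sin ψ₀ * S) = 0 := by
    linear_combination q1 - Real.cos δ * q0
  have q3 : Real.cos ψ₀ * T - Real.sin ψ₀ * S = 0 := (mul_eq_zero.mp q2).resolve_left hsδ
  have hS0 : S = 0 := by
    linear_combination Real.cos ψ₀ * q0 - Real.sin ψ₀ * q3 - S * hpy
  have hT0 : T = 0 := by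
    linear_combination Real.sin ψ₀ * q0 + Real.cos ψ₀ * q3 - T * hpy
  apply hm0
  rw [C_rep r φ hzm, real_inner_comm (C_u φ) m, real_inner_comm (C_v r φ) m, ← hS, ← hT, hS0, hT0]
  simp

end Pool.Agent.Lib.MP_f7db8a.An
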