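import Pool.Agent.Lib.MP_f7db8a.AnDefs

set_option autoImplicit false

/-!
# Bad directions: two zeros, openness
-/

namespace Pool.Agent.Lib.MP_f7db8a.An

open Module Set Filter Topology
open scoped RealInnerProductSpace

theorem D_frame {z e : V} (h : ON z e) :
    ∃ f : V, ON z f ∧ ⟪e, f⟫ = 0 ∧ ∀ d, ON z d → d = ⟪e, d⟫ • e + ⟪f, d⟫ • f := by
  have hcard : finrank ℝ V = Fintype.card (Fin 3) := by simp
  have hv : Orthonormal ℝ (Set.domRestrict ({0, 1} : Set (Fin 3)) ![z, e, 0]) := by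
    rw [orthonormal_iff_ite]
    rintro ⟨i, hi⟩ ⟨j, hj⟩
    have h1 : ⟪e, z⟫ = 0 := by rw [real_inner_comm]; exact h.2.2
    rcases hi with hi | hi <;> rcases hj with hj | hj <;> subst hi <;> subst hj
    · simp [h.1]
    · rw [if_neg (fun hh => absurd (congrArg Subtype.val hh) (by decide))]
      simpa using h.2.2
    · rw [if_neg (fun hh => absurd (congrArg Subtype.val hh) (by decide))]
      simpa using h1
    · simp [h.2.1]
  obtain ⟨b, hb⟩ := hv.exists_orthonormalBasis_extension_of_card_eq hcard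
  have b0 : b 0 = z := by rw [hb 0 (by simp)]; rfl
  have b1 : b 1 = e := by rw [hb 1 (by simp)]; rfl
  refine ⟨b 2, ⟨h.1, b.orthonormal.1 2, ?_⟩, ?_, ?_⟩
  · rw [← b0]
    exact b.orthonormal.2 (by decide)
  · rw [← b1]
    exact b.orthonormal.2 (by decide)
  · intro d hd
    have h1 := b.sum_repr' d
    rw [Fin.sum_univ_three, b0, b1, hd.2.2, zero_smul, zero_add] at h1
    exact h1.symm

/-- the circle of the unit vectors orthogonal to `z` -/
noncomputable def D_cir (e f : V) (θ : ℝ) : V := Real.cos θ • e + Real.sin θ • f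

theorem D_cir_on {z e f : V} (he : ON z e) (hf : ON z f) (hef : ⟪e, f⟫ = 0) (θ : ℝ) :
    ON z (D_cir e f θ) := by
  refine ⟨he.1, ?_, ?_⟩
  · have h : ‖D_cir e f θ‖ ^ 2 = 1 := by
      rw [D_cir, ← real_inner_self_eq_norm_sq, inner_add_left, inner_add_right, inner_add_right,
        real_inner_smul_left, real_inner_smul_left, real_inner_smul_left, real_inner_smul_left,
        real_inner_smul_right, real_inner_smul_right, real_inner_smul_right,
        real_inner_smul_right, real_inner_comm e f, hef, real_inner_self_eq_norm_sq,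
        real_inner_self_eq_norm_sq, he.2.1, hf.2.1]
      have := Real.cos_sq_add_sin_sq θ
      nlinarith
    have h2 : 0 ≤ ‖D_cir e f θ‖ := norm_nonneg _
    nlinarith
  · rw [D_cir, inner_add_right, real_inner_smul_right, real_inner_smul_right, he.2.2, hf.2.2]
    simp

theorem D_cont {b : V → V → ℝ} (h : Fld b) {z e f : V} (he : ON z e) (hf : ON z f)
    (hef : ⟪e, f⟫ = 0) : Continuous (fun θ : ℝ => b z (D_cir e f θ)) := by
  have h1 : Continuous (fun θ : ℝ => ((z, D_cir e f θ) : V × V)) := by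
    unfold D_cir
    fun_prop
  exact h.cont.comp_continuous h1 fun θ => D_cir_on he hf hef θ

theorem D_zero {b : V → V → ℝ} (h : Fld b) {z e : V} (he : ON z e) :
    ∃ d, ON z d ∧ b z d = 0 := by
  obtain ⟨f, hf, hef, -⟩ := D_frame he
  have hc := D_cont h he hf hef
  have h0 : D_cir e f 0 = e := by simp [D_cir]
  have hp : D_cir e f Real.pi = -e := by simp [D_cir]
  have h1 := h.odd z e he
  have key : (0 : ℝ) ∈ (fun θ : ℝ => b z (D_cir e f θ)) '' Set.uIcc 0 Real.pi := by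
    apply intermediate_value_uIcc hc.continuousOn
    simp only [h0, hp, h1]
    rw [Set.mem_uIcc]
    rcases le_total 0 (b z e) with h2 | h2
    · right
      constructor <;> linarith
    · left
      constructor <;> linarith
  obtain ⟨θ, -, hθ⟩ := key
  exact ⟨_, D_cir_on he hf hef θ, hθ⟩

theorem two_zeros {b : V → V → ℝ} (h : Fld b) {z : V} (hz : ‖z‖ = 1) (hb : Bad b z) :
    ∃ d d' : V, ON z d ∧ ON z d' ∧ d' ≠ d ∧ d' ≠ -d ∧ b z d = 0 ∧ b z d' = 0 := by
  obtain ⟨e0, he0⟩ : ∃ e0, ON z e0 := by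
    by_contra hno
    apply hb
    obtain ⟨m, hm, hzm⟩ : ∃ m : V, m ≠ 0 ∧ ⟪z, m⟫ = 0 := by
      have h1 : (ℝ ∙ z)ᗮ ≠ ⊥ := by
        intro h2
        have h3 := Submodule.finrank_add_finrank_orthogonal (ℝ ∙ z)
        rw [h2, finrank_bot, finrank_span_singleton (by
          intro h0
          rw [h0, norm_zero] at hz
          exact zero_ne_one hz)] at h3
        simp at h3
      obtain ⟨m, hm, hm0⟩ := Submodule.exists_mem_ne_zero_of_ne_bot h1
      exact ⟨m, hm0, Submodule.mem_orthogonal_singleton_iff_inner_right.1 hm⟩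
    exact ⟨m, hm, hzm, fun d hd => absurd ⟨d, hd⟩ hno⟩
  obtain ⟨e, he, hbe⟩ := D_zero h he0
  obtain ⟨f, hf, hef, hfr⟩ := D_frame he
  by_contra hno
  -- no zero in the open half circle
  have hnz : ∀ θ ∈ Ioo 0 Real.pi, b z (D_cir e f θ) ≠ 0 := by
    intro θ hθ h0
    have hs := Real.sin_pos_of_mem_Ioo hθ
    have hin : ⟪f, D_cir e f θ⟫ = Real.sin θ := by
      rw [D_cir, inner_add_right, real_inner_smul_right, real_inner_smul_right,
        real_inner_comm e f, hef, real_inner_self_eq_norm_sq, hf.2.1]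
      simp
    refine hno ⟨e, D_cir e f θ, he, D_cir_on he hf hef θ, ?_, ?_, hbe, h0⟩
    · intro h1
      rw [h1, real_inner_comm, hef] at hin
      exact hs.ne hin
    · intro h1
      rw [h1, inner_neg_right, real_inner_comm, hef] at hin
      simp at hin
      exact hs.ne hin
  have hc := D_cont h he hf hef
  have hsign : (∀ θ ∈ Ioo 0 Real.pi, 0 ≤ b z (D_cir e f θ)) ∨
      (∀ θ ∈ Ioo 0 Real.pi, b z (D_cir e f θ) ≤ 0) := by
    by_contra hs
    rw [not_or] at hs
    obtain ⟨h1, h2⟩ := hs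
    push Not at h1 h2
    obtain ⟨θ1, ht1, hv1⟩ := h1
    obtain ⟨θ2, ht2, hv2⟩ := h2
    have key : (0 : ℝ) ∈ (fun θ : ℝ => b z (D_cir e f θ)) '' Set.uIcc θ1 θ2 := by
      apply intermediate_value_uIcc hc.continuousOn
      rw [Set.mem_uIcc]
      left
      exact ⟨hv1.le, hv2.le⟩
    obtain ⟨θ, hθ, h0⟩ := key
    exact hnz θ ((Set.ordConnected_Ioo.uIcc_subset ht1 ht2) hθ) h0
  -- upper half circle
  have hup : ∀ d, ON z d → 0 < ⟪f, d⟫ → ∃ θ ∈ Ioo 0 Real.pi, d = D_cir e f θ := by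
    intro d hd hpos
    have h1 := hfr d hd
    have h2 : ⟪e, d⟫ ^ 2 + ⟪f, d⟫ ^ 2 = 1 := by
      have h3 : ⟪d, d⟫ = 1 := by
        rw [real_inner_self_eq_norm_sq, hd.2.1]; norm_num
      have h4 : ⟪d, d⟫ = ⟪e, d⟫ * ⟪e, d⟫ + ⟪f, d⟫ * ⟪f, d⟫ := by
        conv_lhs => rw [h1]
        rw [inner_add_left, real_inner_smul_left, real_inner_smul_left, ← h1]
      nlinarith
    have hlt : -1 < ⟪e, d⟫ ∧ ⟪e, d⟫ < 1 := by
      have : ⟪e, d⟫ ^ 2 < 1 := by nlinarith
      exact abs_lt.1 (by rwa [sq_lt_one_iff_abs_lt_one] at this)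
    refine ⟨Real.arccos ⟪e, d⟫, ⟨Real.arccos_pos.2 hlt.2, ?_⟩, ?_⟩
    · have h3 := Real.arccos_le_pi ⟪e, d⟫
      refine lt_of_le_of_ne h3 ?_
      intro h4
      rw [Real.arccos_eq_pi] at h4
      linarith [hlt.1]
    · rw [D_cir, Real.cos_arccos hlt.1.le hlt.2.le, Real.sin_arccos]
      have h5 : √(1 - ⟪e, d⟫ ^ 2) = ⟪f, d⟫ := by
        rw [show 1 - ⟪e, d⟫ ^ 2 = ⟪f, d⟫ ^ 2 by linarith]
        exact Real.sqrt_sq hpos.le
      rw [h5]
      exact h1
  have hall : ∀ s : ℝ, (∀ θ ∈ Ioo 0 Real.pi, 0 ≤ s * b z (D_cir e f θ)) →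
      ∀ d, ON z d → 0 ≤ s * (b z d * ⟪f, d⟫) := by
    intro s hs d hd
    rcases lt_trichotomy ⟪f, d⟫ 0 with h1 | h1 | h1
    · have hd' : ON z (-d) := ⟨hd.1, by rw [norm_neg]; exact hd.2.1,
        by rw [inner_neg_right, hd.2.2, neg_zero]⟩
      obtain ⟨θ, hθ, h2⟩ := hup (-d) hd' (by rw [inner_neg_right]; linarith)
      have h3 := hs θ hθ
      rw [← h2, h.odd z d hd] at h3
      nlinarith
    · rw [h1]; simp
    · obtain ⟨θ, hθ, h2⟩ := hup d hd h1
      have h3 := hs θ hθ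
      rw [← h2] at h3
      nlinarith
  have hf0 : f ≠ 0 := by
    intro h0
    have := hf.2.1
    rw [h0, norm_zero] at this
    exact zero_ne_one this
  rcases hsign with hs | hs
  · refine hb ⟨f, hf0, hf.2.2, fun d hd => ?_⟩
    have := hall 1 (fun θ hθ => by simpa using hs θ hθ) d hd
    rw [real_inner_comm]
    simpa using this
  · refine hb ⟨-f, neg_ne_zero.2 hf0, by rw [inner_neg_right, hf.2.2, neg_zero], fun d hd => ?_⟩
    have := hall (-1) (fun θ hθ => by have := hs θ hθ; linarith) d hd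
    rw [inner_neg_right, real_inner_comm]
    linarith

theorem bad_open {b : V → V → ℝ} (h : Fld b) {z : V} (_hz : ‖z‖ = 1) (hb : Bad b z) :
    ∃ ε : ℝ, 0 < ε ∧ ∀ y : V, ‖y‖ = 1 → ‖y - z‖ < ε → Bad b y := by
  by_contra hno
  push Not at hno
  have hex : ∀ n : ℕ, ∃ y m : V, ‖y‖ = 1 ∧ ‖y - z‖ < 1 / ((n : ℝ) + 1) ∧ ‖m‖ = 1 ∧
      ⟪y, m⟫ = 0 ∧ ∀ d, ON y d → 0 ≤ b y d * ⟪d, m⟫ := by
    intro n
    obtain ⟨y, hy1, hy2, hy3⟩ := hno (1 / ((n : ℝ) + 1)) (by positivity)
    rw [Bad, not_not] at hy3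
    obtain ⟨m, hm, hym, hmd⟩ := hy3
    have hm' : 0 < ‖m‖ := norm_pos_iff.2 hm
    refine ⟨y, ‖m‖⁻¹ • m, hy1, hy2, ?_, ?_, ?_⟩
    · rw [norm_smul, norm_inv, norm_norm, inv_mul_cancel₀ hm'.ne']
    · rw [real_inner_smul_right, hym, mul_zero]
    · intro d hd
      rw [real_inner_smul_right]
      have h1 := hmd d hd
      have h2 : 0 ≤ ‖m‖⁻¹ := by positivity
      have h3 := mul_nonneg h2 h1
      linarith
  choose y m hy1 hy2 hm hym hmd using hex
  have hyz : Tendsto y atTop (𝓝 z) := by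
    rw [tendsto_iff_norm_sub_tendsto_zero]
    exact squeeze_zero (fun n => norm_nonneg _) (fun n => (hy2 n).le)
      tendsto_one_div_add_atTop_nhds_zero_nat
  obtain ⟨m0, hm0, φ, hφ, hlim⟩ := (isCompact_sphere (0 : V) 1).tendsto_subseq
    (x := m) (fun n => by rw [mem_sphere_zero_iff_norm]; exact hm n)
  rw [mem_sphere_zero_iff_norm] at hm0
  have hyφ : Tendsto (fun n => y (φ n)) atTop (𝓝 z) := hyz.comp hφ.tendsto_atTop
  have hmφ : Tendsto (fun n => m (φ n)) atTop (𝓝 m0) := hlim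
  refine hb ⟨m0, ?_, ?_, ?_⟩
  · intro h0
    rw [h0, norm_zero] at hm0
    exact zero_ne_one hm0
  · have h1 : Tendsto (fun n => ⟪y (φ n), m (φ n)⟫) atTop (𝓝 ⟪z, m0⟫) := hyφ.inner hmφ
    have h2 : (fun n => ⟪y (φ n), m (φ n)⟫) = fun _ => (0 : ℝ) := by
      funext n
      exact hym _
    rw [h2] at h1
    exact (tendsto_nhds_unique h1 tendsto_const_nhds)
  · intro d hd
    set q : V → V := fun x => d - ⟪x, d⟫ • x with hq
    have hqc : Continuous q := by
      rw [hq]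
      fun_prop
    have hqz : q z = d := by simp [hq, hd.2.2]
    have hqφ : Tendsto (fun n => q (y (φ n))) atTop (𝓝 d) := by
      have := (hqc.tendsto z).comp hyφ
      rwa [hqz] at this
    have hnφ : Tendsto (fun n => ‖q (y (φ n))‖) atTop (𝓝 1) := by
      have := hqφ.norm
      rwa [hd.2.1] at this
    have hne : ∀ᶠ n in atTop, ‖q (y (φ n))‖ ≠ 0 := by
      have := hnφ.eventually_ne (one_ne_zero)
      exact this
    have hdd : Tendsto (fun n => (‖q (y (φ n))‖)⁻¹ • q (y (φ n))) atTop (𝓝 d) := by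
      have := (hnφ.inv₀ one_ne_zero).smul hqφ
      simpa using this
    have hon : ∀ᶠ n in atTop, ON (y (φ n)) ((‖q (y (φ n))‖)⁻¹ • q (y (φ n))) := by
      filter_upwards [hne] with n hn
      refine ⟨hy1 _, ?_, ?_⟩
      · rw [norm_smul, norm_inv, norm_norm, inv_mul_cancel₀ hn]
      · rw [real_inner_smul_right, hq]
        simp only
        rw [inner_sub_right, real_inner_smul_right, real_inner_self_eq_norm_sq, hy1]
        ring
    have hpair : Tendsto (fun n => ((y (φ n), (‖q (y (φ n))‖)⁻¹ • q (y (φ n))) : V × V)) atTop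
        (𝓝[{p | ON p.1 p.2}] (z, d)) := by
      rw [tendsto_nhdsWithin_iff]
      exact ⟨hyφ.prodMk_nhds hdd, hon⟩
    have hbt := (h.cont (z, d) hd).tendsto.comp hpair
    have hfin := hbt.mul (hdd.inner hmφ)
    refine ge_of_tendsto hfin ?_
    filter_upwards [hon] with n hn
    exact hmd _ _ hn

end Pool.Agent.Lib.MP_f7db8a.An
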