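import Mathlib

set_option autoImplicit false

/-!
# Definitions for problem `MP_f7db8a_gt` (homothetic sections of star bodies), question Q2
-/

namespace Pool.Agent.Lib.MP_f7db8a

open Module

/-- Star bodies in `ℝⁿ`, exactly as in the problem file (and in the frozen statement `S14259`):
`K` is compact, star-shaped with respect to the origin, and its radial function
`ρ_K(u) = sup {t ≥ 0 : t u ∈ K}` is positive and continuous on the unit sphere. -/
def IsStarBody {n : ℕ} (K : Set (EuclideanSpace ℝ (Fin n))) : Prop :=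
  IsCompact K ∧ StarConvex ℝ (0 : EuclideanSpace ℝ (Fin n)) K ∧
    (∀ u ∈ Metric.sphere (0 : EuclideanSpace ℝ (Fin n)) 1,
      0 < sSup {t : ℝ | 0 ≤ t ∧ t • u ∈ K}) ∧
    ContinuousOn (fun u : EuclideanSpace ℝ (Fin n) => sSup {t : ℝ | 0 ≤ t ∧ t • u ∈ K})
      (Metric.sphere (0 : EuclideanSpace ℝ (Fin n)) 1)

/-- `B` is a translate of `A`. -/
def IsTranslate {n : ℕ} (A B : Set (EuclideanSpace ℝ (Fin n))) : Prop :=
  ∃ x : EuclideanSpace ℝ (Fin n), B = (fun y => y + x) '' A

/-- `A` is centrally symmetric (about some point `c`): `p ∈ A` implies `2c - p ∈ A`. -/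
def IsCentrallySymmetric {n : ℕ} (A : Set (EuclideanSpace ℝ (Fin n))) : Prop :=
  ∃ c : EuclideanSpace ℝ (Fin n), ∀ p ∈ A, (2 : ℝ) • c - p ∈ A

/-- For every `k`-dimensional linear subspace `S`, the `k`-sections `K ∩ S` and `L ∩ S` are
translates of each other (the translation vector may depend on `S`). -/
def TranslateSections {n : ℕ} (k : ℕ) (K L : Set (EuclideanSpace ℝ (Fin n))) : Prop :=
  ∀ S : Submodule ℝ (EuclideanSpace ℝ (Fin n)), finrank ℝ S = k →
    IsTranslate (K ∩ (S : Set (EuclideanSpace ℝ (Fin n)))) (L ∩ (S : Set (EuclideanSpace ℝ (Fin n))))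

/-- Every `k`-section `K ∩ S` by a linear subspace is centrally symmetric (about a point that may
depend on `S`). -/
def SymmetricSections {n : ℕ} (k : ℕ) (K : Set (EuclideanSpace ℝ (Fin n))) : Prop :=
  ∀ S : Submodule ℝ (EuclideanSpace ℝ (Fin n)), finrank ℝ S = k →
    IsCentrallySymmetric (K ∩ (S : Set (EuclideanSpace ℝ (Fin n))))

/-- Question Q2 of the problem, for fixed `n` and `k`. -/
def Q2 (n k : ℕ) : Prop :=
  ∀ K L : Set (EuclideanSpace ℝ (Fin n)), IsStarBody K → IsStarBody L →
    TranslateSections k K L → IsTranslate K L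

/-- The false centre property for `k`-sections of star bodies in `ℝⁿ`: if all `k`-sections of `K`
by linear subspaces are centrally symmetric, then `K` is centrally symmetric. -/
def FalseCentre (n k : ℕ) : Prop :=
  ∀ K : Set (EuclideanSpace ℝ (Fin n)), IsStarBody K → SymmetricSections k K →
    IsCentrallySymmetric K

end Pool.Agent.Lib.MP_f7db8a
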