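import Pool.Agent.Lib.MP_f7db8a.Star
import Pool.Agent.Lib.MP_f7db8a.Defs

set_option autoImplicit false

/-!
# Two star bodies with homothetic plane sections: definitions
-/

namespace Pool.Agent.Lib.MP_f7db8a.An

open Module Set
open scoped RealInnerProductSpace

/-- The space `ℝ³`. -/
abbrev V := EuclideanSpace ℝ (Fin 3)

/-- orthonormal pairs -/
def ON (z d : V) : Prop := ‖z‖ = 1 ∧ ‖d‖ = 1 ∧ ⟪z, d⟫ = 0

/-- `y ↦ c y + a z + b d` maps the section of `K` by the plane of `z, d` onto the one of `L`. -/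
def Hm (K L : Set V) (z d : V) (c a b : ℝ) : Prop :=
  0 < c ∧ ∀ α β : ℝ, (α • z + β • d ∈ K ↔ (c * α + a) • z + (c * β + b) • d ∈ L)

/-- extent of the section of `K` by the plane of `z, d` in the direction of `d` -/
noncomputable def ext (K : Set V) (z d : V) : ℝ :=
  sSup ((fun θ : ℝ => Real.sin θ * rad K (Real.cos θ • z + Real.sin θ • d)) ''
    Icc 0 (2 * Real.pi))

/-- the `d`-component of the translation vector -/
noncomputable def B (K L : Set V) (z d : V) : ℝ :=
  (ext L z d * ext K z (-d) - ext K z d * ext L z (-d)) / (ext K z d + ext K z (-d))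

/-- abstract properties of `B` -/
structure Fld (b : V → V → ℝ) : Prop where
  cont : ContinuousOn (fun p : V × V => b p.1 p.2) {p | ON p.1 p.2}
  odd : ∀ z d, ON z d → b z (-d) = -b z d
  even : ∀ z d, ON z d → b (-z) d = b z d

/-- all components vanish at `z` -/
def Good (b : V → V → ℝ) (z : V) : Prop := ∀ d, ON z d → b z d = 0

/-- the positive directions are not contained in a half-plane -/
def Bad (b : V → V → ℝ) (z : V) : Prop :=
  ¬ ∃ m : V, m ≠ 0 ∧ ⟪z, m⟫ = 0 ∧ ∀ d, ON z d → 0 ≤ b z d * ⟪d, m⟫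

end Pool.Agent.Lib.MP_f7db8a.An
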