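import Pool.Agent.Lib.MP_f7db8a.AnDefs

set_option autoImplicit false

/-!
# The derivative of the ratio of the radial functions
-/

namespace Pool.Agent.Lib.MP_f7db8a.An

open Module Set Filter Topology
open scoped RealInnerProductSpace

theorem E_ne {z d : V} (hzd : ON z d) (t : ℝ) : z + t • d ≠ 0 := by
  intro h
  have h1 := congrArg (fun v => ⟪z, v⟫) h
  simp only [inner_add_right, real_inner_smul_right, hzd.2.2, inner_zero_right,
    real_inner_self_eq_norm_sq, hzd.1] at h1
  norm_num at h1

/-- points with `rad K y = 1` -/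
theorem E_rad_smul_self {K : Set V} (hK : SB K) {x : V} (hx : x ≠ 0) :
    rad K (rad K x • x) = 1 := by
  rw [hK.rad_smul hx (hK.rad_pos hx)]
  have := (hK.rad_pos hx).ne'
  field_simp

theorem E_rad_line {K L : Set V} (hK : SB K) (hL : SB L) {z : V} (hz : z ≠ 0) {c a : ℝ}
    (hc : 0 < c) (h : ∀ α : ℝ, α • z ∈ K ↔ (c * α + a) • z ∈ L) :
    rad L z = c * rad K z + a := by
  apply le_antisymm
  · have h1 : ((rad L z - a) / c) • z ∈ K := by
      rw [h]
      have : c * ((rad L z - a) / c) + a = rad L z := by field_simp; ring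
      rw [this]; exact hL.rad_smul_mem hz
    have h2 := ((hK.line_mem_iff hz _).1 h1).2
    rw [div_le_iff₀ hc] at h2
    linarith
  · have h1 := (h _).1 (hK.rad_smul_mem hz)
    exact ((hL.line_mem_iff hz _).1 h1).2

/-- boundary points go to boundary points -/
theorem E_boundary {K L : Set V} (hK : SB K) (hL : SB L) {z d : V} (hzd : ON z d) {c a b : ℝ}
    (h : Hm K L z d c a b) (t : ℝ)
    (hw0 : (c * rad K (z + t • d) + a) • z + (c * (rad K (z + t • d) * t) + b) • d ≠ 0) :
    rad L ((c * rad K (z + t • d) + a) • z + (c * (rad K (z + t • d) * t) + b) • d) = 1 := by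
  have hzt := E_ne hzd t
  set ρ := rad K (z + t • d) with hρ
  have hρpos : 0 < ρ := hK.rad_pos hzt
  have hpK : ρ • z + (ρ * t) • d ∈ K := by
    have := hK.rad_smul_mem hzt
    rw [← hρ, smul_add, smul_smul] at this
    exact this
  have hwL := (h.2 _ _).1 hpK
  set w := (c * ρ + a) • z + (c * (ρ * t) + b) • d with hw
  have h1 : 1 ≤ rad L w := by
    have : (1 : ℝ) • w ∈ L := by rw [one_smul]; exact hwL
    exact (hL.smul_mem_iff hw0 zero_le_one).1 this
  refine le_antisymm ?_ h1
  by_contra hcon
  push Not at hcon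
  have hint : w ∈ interior L := by
    have h2 := hL.inter _ (hL.rad_smul_mem hw0) (rad L w)⁻¹ (by positivity)
      (inv_lt_one_of_one_lt₀ hcon)
    rwa [smul_smul, inv_mul_cancel₀ (by positivity), one_smul] at h2
  have hev : ∀ᶠ ε : ℝ in 𝓝 0,
      (c * ((1 + ε) * ρ) + a) • z + (c * ((1 + ε) * (ρ * t)) + b) • d ∈ L := by
    have hcont : ContinuousAt (fun ε : ℝ =>
        (c * ((1 + ε) * ρ) + a) • z + (c * ((1 + ε) * (ρ * t)) + b) • d) 0 := by fun_prop
    have h3 : (fun ε : ℝ =>
        (c * ((1 + ε) * ρ) + a) • z + (c * ((1 + ε) * (ρ * t)) + b) • d) 0 ∈ interior L := by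
      simp only [add_zero, one_mul]
      exact hint
    have h4 := hcont.preimage_mem_nhds (isOpen_interior.mem_nhds h3)
    filter_upwards [h4] with ε hε
    exact interior_subset hε
  have hev2 : ∀ᶠ ε : ℝ in 𝓝[>] 0,
      (c * ((1 + ε) * ρ) + a) • z + (c * ((1 + ε) * (ρ * t)) + b) • d ∈ L :=
    hev.filter_mono nhdsWithin_le_nhds
  obtain ⟨ε, hε, hεpos⟩ := (hev2.and self_mem_nhdsWithin).exists
  have hεpos' : 0 < ε := hεpos
  have h5 := (h.2 _ _).2 hε
  have h6 : ((1 + ε) * ρ) • (z + t • d) ∈ K := by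
    have e : ((1 + ε) * ρ) • (z + t • d) = ((1 + ε) * ρ) • z + ((1 + ε) * (ρ * t)) • d := by module
    rw [e]; exact h5
  have h7 := (hK.smul_mem_iff hzt (by positivity)).1 h6
  rw [← hρ] at h7
  nlinarith

theorem ratio_fderiv_apply {K L : Set V} (hK : SB K) (hL : SB L) {z d : V} (hzd : ON z d)
    {c a : ℝ} (h : Hm K L z d c a 0) (h1 : DifferentiableAt ℝ (rad K) z)
    (h2 : DifferentiableAt ℝ (rad L) z) :
    fderiv ℝ (fun y => rad L y / rad K y) z d = 0 := by
  have hz : z ≠ 0 := by simpa using E_ne hzd 0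
  have hK0 := hK.rad_pos hz
  have hL0 := hL.rad_pos hz
  have hdiff : DifferentiableAt ℝ (fun y => rad L y / rad K y) z := by
    simp only [div_eq_mul_inv]
    exact h2.mul (h1.inv hK0.ne')
  have hline : HasDerivAt (fun t : ℝ => z + t • d) d 0 := by
    simpa using ((hasDerivAt_id (0 : ℝ)).smul_const d).const_add z
  have hm0 : rad L z = c * rad K z + a := E_rad_line hK hL hz h.1 fun α => by
    have := h.2 α 0
    simpa using this
  set fK := fderiv ℝ (rad K) z d with hfK
  set fL := fderiv ℝ (rad L) z d with hfL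
  have dK : HasDerivAt (fun t : ℝ => rad K (z + t • d)) fK 0 := by
    have hf : HasFDerivAt (rad K) (fderiv ℝ (rad K) z) ((fun t : ℝ => z + t • d) 0) := by
      simpa using h1.hasFDerivAt
    exact hf.comp_hasDerivAt (0 : ℝ) hline
  have dL : HasDerivAt (fun t : ℝ => rad L (z + t • d)) fL 0 := by
    have hf : HasFDerivAt (rad L) (fderiv ℝ (rad L) z) ((fun t : ℝ => z + t • d) 0) := by
      simpa using h2.hasFDerivAt
    exact hf.comp_hasDerivAt (0 : ℝ) hline
  have dR : HasDerivAt (fun t : ℝ => rad L (z + t • d) / rad K (z + t • d))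
      (fderiv ℝ (fun y => rad L y / rad K y) z d) 0 := by
    have hf : HasFDerivAt (fun y => rad L y / rad K y)
        (fderiv ℝ (fun y => rad L y / rad K y) z) ((fun t : ℝ => z + t • d) 0) := by
      simpa using hdiff.hasFDerivAt
    exact hf.comp_hasDerivAt (0 : ℝ) hline
  have eK0 : rad K (z + (0 : ℝ) • d) = rad K z := by rw [zero_smul, add_zero]
  have eL0 : rad L (z + (0 : ℝ) • d) = rad L z := by rw [zero_smul, add_zero]
  -- the multiplier and the slope of the image
  have dm : HasDerivAt (fun t : ℝ => c * rad K (z + t • d) + a) (c * fK) 0 :=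
    (dK.const_mul c).add_const a
  have hm0' : c * rad K (z + (0 : ℝ) • d) + a = rad L z := by rw [eK0, hm0]
  have ds : HasDerivAt (fun t : ℝ => c * rad K (z + t • d) * t / (c * rad K (z + t • d) + a))
      (c * rad K z / rad L z) 0 := by
    have h3 := ((dK.const_mul c).mul (hasDerivAt_id (0 : ℝ))).div dm
      (by rw [hm0']; exact hL0.ne')
    refine h3.congr_deriv ?_
    simp only [id_eq, mul_zero, zero_mul, mul_one, zero_add, sub_zero, Pi.mul_apply]
    rw [hm0', eK0]
    field_simp
  have hs0 : c * rad K (z + (0 : ℝ) • d) * 0 / (c * rad K (z + (0 : ℝ) • d) + a) = 0 := by simp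
  have dLs : HasDerivAt (fun t : ℝ =>
      rad L (z + (c * rad K (z + t • d) * t / (c * rad K (z + t • d) + a)) • d))
      (fL * (c * rad K z / rad L z)) 0 := by
    have dL' : HasDerivAt (fun t : ℝ => rad L (z + t • d)) fL
        (c * rad K (z + (0 : ℝ) • d) * 0 / (c * rad K (z + (0 : ℝ) • d) + a)) := by
      rw [hs0]; exact dL
    exact HasDerivAt.comp (0 : ℝ) dL' ds
  have hev : (fun t : ℝ => c * rad K (z + t • d) + a) =ᶠ[𝓝 0] (fun t : ℝ =>
      rad L (z + (c * rad K (z + t • d) * t / (c * rad K (z + t • d) + a)) • d)) := by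
    have hpos : ∀ᶠ t : ℝ in 𝓝 0, 0 < c * rad K (z + t • d) + a := by
      have hc0 := dm.continuousAt
      have h4 : 0 < (fun t : ℝ => c * rad K (z + t • d) + a) 0 := by
        show 0 < c * rad K (z + (0 : ℝ) • d) + a
        rw [hm0']; exact hL0
      exact hc0.eventually (lt_mem_nhds h4)
    filter_upwards [hpos] with t ht
    set m := c * rad K (z + t • d) + a with hm
    have e : m • (z + (c * rad K (z + t • d) * t / m) • d) =
        m • z + (c * (rad K (z + t • d) * t) + 0) • d := by
      rw [smul_add, smul_smul, mul_div_cancel₀ _ ht.ne', add_zero, mul_assoc]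
    have hne := E_ne hzd (c * rad K (z + t • d) * t / m)
    have hw0 : m • z + (c * (rad K (z + t • d) * t) + 0) • d ≠ 0 := by
      rw [← e]; exact smul_ne_zero ht.ne' hne
    have h5 := E_boundary hK hL hzd h t hw0
    rw [← hm, ← e, hL.rad_smul hne ht, div_eq_one_iff_eq ht.ne'] at h5
    exact h5.symm
  have key : c * fK = fL * (c * rad K z / rad L z) := by
    have h6 : HasDerivAt (fun t : ℝ => c * rad K (z + t • d) + a)
        (fL * (c * rad K z / rad L z)) 0 := dLs.congr_of_eventuallyEq hev
    exact dm.unique h6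
  have dR2 : HasDerivAt (fun t : ℝ => rad L (z + t • d) / rad K (z + t • d))
      ((fL * rad K (z + (0 : ℝ) • d) - rad L (z + (0 : ℝ) • d) * fK) /
        rad K (z + (0 : ℝ) • d) ^ 2) 0 := dL.div dK (by rw [eK0]; exact hK0.ne')
  rw [dR.unique dR2, eK0, eL0]
  have hc := h.1
  have h7 : fL * rad K z = rad L z * fK := by
    have h8 : c * (fL * rad K z - rad L z * fK) = 0 := by
      have h9 : c * fK * rad L z = fL * (c * rad K z) := by
        rw [key]; field_simp
      linarith
    have h10 := (mul_eq_zero.1 h8).resolve_left hc.ne'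
    linarith
  rw [h7, sub_self, zero_div]

theorem ratio_fderiv_self {K L : Set V} (hK : SB K) (hL : SB L) {z : V} (hz : z ≠ 0)
    (h1 : DifferentiableAt ℝ (rad K) z) (h2 : DifferentiableAt ℝ (rad L) z) :
    fderiv ℝ (fun y => rad L y / rad K y) z z = 0 := by
  have hK0 := hK.rad_pos hz
  have hdiff : DifferentiableAt ℝ (fun y => rad L y / rad K y) z := by
    simp only [div_eq_mul_inv]
    exact h2.mul (h1.inv hK0.ne')
  have hline : HasDerivAt (fun t : ℝ => z + t • z) z 0 := by
    simpa using ((hasDerivAt_id (0 : ℝ)).smul_const z).const_add z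
  have hf : HasFDerivAt (fun y => rad L y / rad K y) (fderiv ℝ (fun y => rad L y / rad K y) z)
      ((fun t : ℝ => z + t • z) 0) := by
    simpa using hdiff.hasFDerivAt
  have hcomp := hf.comp_hasDerivAt (0 : ℝ) hline
  have hconst : (fun _ : ℝ => rad L z / rad K z) =ᶠ[𝓝 0]
      ((fun y => rad L y / rad K y) ∘ fun t : ℝ => z + t • z) := by
    have : ∀ᶠ t : ℝ in 𝓝 0, -1 < t := lt_mem_nhds (by norm_num)
    filter_upwards [this] with t ht
    have e : z + t • z = (1 + t) • z := by module
    have hp : (0 : ℝ) < 1 + t := by linarith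
    simp only [Function.comp_apply]
    rw [e, hL.rad_smul hz hp, hK.rad_smul hz hp]
    field_simp
  have h3 : HasDerivAt (fun _ : ℝ => rad L z / rad K z)
      (fderiv ℝ (fun y => rad L y / rad K y) z z) 0 := hcomp.congr_of_eventuallyEq hconst
  exact h3.unique (hasDerivAt_const (0 : ℝ) _)

theorem fderiv_eq_zero {T : V →L[ℝ] ℝ} {z d d' : V} (h1 : ON z d) (h2 : ON z d') (hne : d' ≠ d)
    (hne' : d' ≠ -d) (e0 : T z = 0) (e1 : T d = 0) (e2 : T d' = 0) : T = 0 := by
  have hli : LinearIndependent ℝ ![z, d, d'] := by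
    rw [Fintype.linearIndependent_iff]
    intro g hg
    rw [Fin.sum_univ_three] at hg
    simp only [Matrix.cons_val_zero, Matrix.cons_val_one, Matrix.cons_val] at hg
    have g0 : g 0 = 0 := by
      have := congrArg (fun v => ⟪z, v⟫) hg
      simp only [inner_add_right, real_inner_smul_right, h1.2.2, h2.2.2, inner_zero_right,
        real_inner_self_eq_norm_sq, h1.1] at this
      linarith
    have hg' : g 1 • d + g 2 • d' = 0 := by
      rw [g0, zero_smul, zero_add] at hg; exact hg
    have g2 : g 2 = 0 := by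
      by_contra hg2
      have hd' : d' = (-(g 1 / g 2)) • d := by
        have h3 : g 2 • d' = -(g 1 • d) := eq_neg_of_add_eq_zero_right hg'
        have h4 : (g 2)⁻¹ • (g 2 • d') = (g 2)⁻¹ • (-(g 1 • d)) := by rw [h3]
        rw [smul_smul, inv_mul_cancel₀ hg2, one_smul] at h4
        rw [h4]
        module
      have hn : |(-(g 1 / g 2))| = 1 := by
        have h5 := congrArg norm hd'
        rw [norm_smul, h1.2.1, h2.2.1, Real.norm_eq_abs, mul_one] at h5
        exact h5.symm
      rcases eq_or_eq_neg_of_abs_eq hn with h6 | h6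
      · rw [h6, one_smul] at hd'; exact hne hd'
      · rw [h6, neg_smul, one_smul] at hd'; exact hne' hd'
    have g1 : g 1 = 0 := by
      rw [g2, zero_smul, add_zero] at hg'
      have hd0 : d ≠ 0 := by
        intro h0
        have := h1.2.1
        rw [h0, norm_zero] at this
        exact zero_ne_one this
      exact (smul_eq_zero.1 hg').resolve_right hd0
    intro i
    fin_cases i
    · exact g0
    · exact g1
    · exact g2
  have htop : Submodule.span ℝ (Set.range ![z, d, d']) = ⊤ :=
    hli.span_eq_top_of_card_eq_finrank (by simp)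
  have hker : Submodule.span ℝ (Set.range ![z, d, d']) ≤ LinearMap.ker (T : V →ₗ[ℝ] ℝ) := by
    rw [Submodule.span_le]
    rintro _ ⟨i, rfl⟩
    fin_cases i
    · exact e0
    · exact e1
    · exact e2
  ext v
  have hv : v ∈ LinearMap.ker (T : V →ₗ[ℝ] ℝ) := by
    apply hker; rw [htop]; exact Submodule.mem_top
  exact hv

end Pool.Agent.Lib.MP_f7db8a.An
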