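import Pool.Agent.Lib.MP_f7db8a.AnDefs

set_option autoImplicit false

/-!
# The ratio of the radial functions: from a vanishing derivative on a cap to a constant
-/

namespace Pool.Agent.Lib.MP_f7db8a.An

open Module Set Filter Topology
open scoped RealInnerProductSpace

/-- the ratio is homogeneous of degree zero -/
theorem ratio_smul {K L : Set V} (hK : SB K) (hL : SB L) {x : V} (hx : x ≠ 0) {t : ℝ}
    (ht : 0 < t) : rad L (t • x) / rad K (t • x) = rad L x / rad K x := by
  rw [hK.rad_smul hx ht, hL.rad_smul hx ht]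
  have := (hK.rad_pos hx).ne'
  field_simp

theorem smul_of_fderiv {K L : Set V} (hK : SB K) (hL : SB L)
    (aK : AnalyticOnNhd ℝ (rad K) {0}ᶜ) (aL : AnalyticOnNhd ℝ (rad L) {0}ᶜ) {z : V}
    (hz : ‖z‖ = 1) {ε : ℝ} (hε : 0 < ε)
    (h : ∀ y : V, ‖y‖ = 1 → ‖y - z‖ < ε → fderiv ℝ (fun x => rad L x / rad K x) y = 0) :
    ∃ c : ℝ, 0 < c ∧ L = (fun y => c • y + 0) '' K := by
  set f : V → ℝ := fun x => rad L x / rad K x with hf
  have hz0 : z ≠ 0 := by
    intro h0; rw [h0, norm_zero] at hz; exact zero_ne_one hz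
  have af : AnalyticOnNhd ℝ f {0}ᶜ := by
    intro x hx
    exact (aL x hx).div (aK x hx) (hK.rad_pos hx).ne'
  -- a ball around `z`
  have hcont : ContinuousAt (fun x : V => ‖x‖⁻¹ • x) z := by
    have h1 : ContinuousAt (fun x : V => ‖x‖⁻¹) z :=
      ContinuousAt.inv₀ (by fun_prop) (by rw [hz]; norm_num)
    exact h1.smul continuousAt_id
  have ev : ∀ᶠ x in 𝓝 z, x ≠ 0 ∧ ‖‖x‖⁻¹ • x - z‖ < ε := by
    have e1 : ∀ᶠ x in 𝓝 z, x ≠ 0 := isOpen_ne.mem_nhds hz0
    refine e1.and ?_
    have h1 : ContinuousAt (fun x : V => ‖‖x‖⁻¹ • x - z‖) z :=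
      (hcont.sub continuousAt_const).norm
    apply h1.eventually_lt continuousAt_const
    rw [hz]
    simpa using hε
  obtain ⟨δ, hδ, hball⟩ := Metric.eventually_nhds_iff_ball.1 ev
  have hder : ∀ x ∈ Metric.ball z δ, fderiv ℝ f x = 0 := by
    intro x hx
    obtain ⟨hx0, hxε⟩ := hball x hx
    have hn : 0 < ‖x‖ := norm_pos_iff.2 hx0
    set u := ‖x‖⁻¹ • x with hu
    have hu1 : ‖u‖ = 1 := by
      rw [hu, norm_smul, norm_inv, norm_norm, inv_mul_cancel₀ hn.ne']
    have hu0 : u ≠ 0 := by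
      intro h0; rw [h0, norm_zero] at hu1; exact zero_ne_one hu1
    have hd : HasFDerivAt f (0 : V →L[ℝ] ℝ) u := by
      have h1 := (af u hu0).differentiableAt.hasFDerivAt
      rw [h u hu1 hxε] at h1
      exact h1
    have hs : HasFDerivAt (fun v : V => ‖x‖⁻¹ • v) (‖x‖⁻¹ • ContinuousLinearMap.id ℝ V) x :=
      (hasFDerivAt_id x).const_smul ‖x‖⁻¹
    have hcomp : HasFDerivAt (fun v : V => f (‖x‖⁻¹ • v))
        ((0 : V →L[ℝ] ℝ).comp (‖x‖⁻¹ • ContinuousLinearMap.id ℝ V)) x :=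
      HasFDerivAt.comp (g := f) (f := fun v : V => ‖x‖⁻¹ • v) x hd hs
    have heq : f =ᶠ[𝓝 x] fun v : V => f (‖x‖⁻¹ • v) := by
      filter_upwards [isOpen_ne.mem_nhds hx0] with v hv
      exact (ratio_smul hK hL hv (inv_pos.2 hn)).symm
    rw [(hcomp.congr_of_eventuallyEq heq).fderiv]
    simp
  have hconst : ∀ x ∈ Metric.ball z δ, f x = f z := by
    intro x hx
    refine Metric.isOpen_ball.is_const_of_fderiv_eq_zero (𝕜 := ℝ) (f := f)
      (convex_ball z δ).isPreconnected ?_ ?_ hx (Metric.mem_ball_self hδ)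
    · intro y hy
      exact (af y (hball y hy).1).differentiableAt.differentiableWithinAt
    · intro y hy
      exact hder y hy
  have hpre : IsPreconnected ({0}ᶜ : Set V) := by
    apply (isConnected_compl_singleton_of_one_lt_rank _ 0).isPreconnected
    rw [← Module.finrank_eq_rank]
    simp
  have hall : EqOn f (fun _ => f z) {0}ᶜ := by
    apply af.eqOn_of_preconnected_of_eventuallyEq (fun x _ => analyticAt_const) hpre hz0
    filter_upwards [Metric.ball_mem_nhds z hδ] with x hx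
    exact hconst x hx
  have hc : 0 < f z := div_pos (hL.rad_pos hz0) (hK.rad_pos hz0)
  have hrad : ∀ x : V, x ≠ 0 → rad L x = f z * rad K x := by
    intro x hx
    have h1 : rad L x / rad K x = f z := hall hx
    rw [div_eq_iff (hK.rad_pos hx).ne'] at h1
    exact h1
  refine ⟨f z, hc, ?_⟩
  ext w
  constructor
  · intro hw
    refine ⟨(f z)⁻¹ • w, ?_, ?_⟩
    · rcases eq_or_ne w 0 with rfl | hw0
      · rw [smul_zero]; exact hK.zero_mem
      · rw [hK.smul_mem_iff hw0 (inv_pos.2 hc).le]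
        have h1 : (1 : ℝ) ≤ rad L w := by
          rw [← hL.smul_mem_iff hw0 zero_le_one, one_smul]; exact hw
        rw [hrad w hw0] at h1
        rw [inv_le_iff_one_le_mul₀ hc, mul_comm]
        exact h1
    · simp only
      rw [smul_smul, mul_inv_cancel₀ hc.ne', one_smul, add_zero]
  · rintro ⟨y, hy, rfl⟩
    simp only [add_zero]
    rcases eq_or_ne y 0 with rfl | hy0
    · rw [smul_zero]; exact hL.zero_mem
    · rw [hL.smul_mem_iff hy0 hc.le, hrad y hy0]
      have h1 : (1 : ℝ) ≤ rad K y := by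
        rw [← hK.smul_mem_iff hy0 zero_le_one, one_smul]; exact hy
      nlinarith

end Pool.Agent.Lib.MP_f7db8a.An
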