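import Pool.Agent.Lib.MP_f7db8a.AnDefs

set_option autoImplicit false

/-!
# Homothetic plane sections in coordinates, and the axis lemma
-/

namespace Pool.Agent.Lib.MP_f7db8a.An

open Module Set Filter Topology
open scoped RealInnerProductSpace

theorem hm_of_sections {K L : Set V} (hK : SB K)
    (h : ∀ S : Submodule ℝ V, finrank ℝ S = 2 → ∃ c : ℝ, 0 < c ∧ ∃ x : V,
      L ∩ (S : Set V) = (fun y => c • y + x) '' (K ∩ (S : Set V))) :
    ∀ z d, ON z d → ∃ c a b, Hm K L z d c a b := by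
  intro z d hzd
  have hli : LinearIndependent ℝ ![z, d] := by
    rw [LinearIndependent.pair_iff]
    intro s t hst
    have h1 : ⟪z, s • z + t • d⟫ = 0 := by rw [hst, inner_zero_right]
    have h2 : ⟪d, s • z + t • d⟫ = 0 := by rw [hst, inner_zero_right]
    rw [inner_add_right, real_inner_smul_right, real_inner_smul_right, hzd.2.2,
      real_inner_self_eq_norm_sq, hzd.1] at h1
    rw [inner_add_right, real_inner_smul_right, real_inner_smul_right, real_inner_comm, hzd.2.2,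
      real_inner_self_eq_norm_sq, hzd.2.1] at h2
    constructor <;> linarith
  have hfin : finrank ℝ (Submodule.span ℝ ({z, d} : Set V)) = 2 := by
    have h1 := finrank_span_eq_card hli
    have h2 : Set.range ![z, d] = {z, d} := by
      ext v; simp [Matrix.range_cons, or_comm]
    rw [h2] at h1
    simpa using h1
  obtain ⟨c, hc, x, hx⟩ := h _ hfin
  have hxS : x ∈ Submodule.span ℝ ({z, d} : Set V) := by
    have h1 : c • (0 : V) + x ∈ L ∩ (Submodule.span ℝ ({z, d} : Set V) : Set V) := by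
      rw [hx]
      exact ⟨0, ⟨hK.zero_mem, Submodule.zero_mem _⟩, rfl⟩
    rw [smul_zero, zero_add] at h1
    exact h1.2
  obtain ⟨a, b, hab⟩ := Submodule.mem_span_pair.1 hxS
  refine ⟨c, a, b, hc, ?_⟩
  intro α β
  have e : (c * α + a) • z + (c * β + b) • d = c • (α • z + β • d) + x := by
    rw [← hab]; module
  rw [e]
  constructor
  · intro hm
    have h1 : c • (α • z + β • d) + x ∈ L ∩ (Submodule.span ℝ ({z, d} : Set V) : Set V) := by
      rw [hx]
      exact ⟨_, ⟨hm, Submodule.mem_span_pair.2 ⟨α, β, rfl⟩⟩, rfl⟩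
    exact h1.1
  · intro hm
    have h1 : c • (α • z + β • d) + x ∈ L ∩ (Submodule.span ℝ ({z, d} : Set V) : Set V) :=
      ⟨hm, Submodule.add_mem _ (Submodule.smul_mem _ _ (Submodule.mem_span_pair.2 ⟨α, β, rfl⟩)) hxS⟩
    rw [hx] at h1
    obtain ⟨w, hw, hwe⟩ := h1
    have e2 : c • w = c • (α • z + β • d) := add_right_cancel hwe
    have e3 : w = α • z + β • d := smul_right_injective _ hc.ne' e2
    rw [← e3]
    exact hw.1

/-- the two chords on the line of `z` determine `c` and `a` -/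
theorem Hm.chord {K L : Set V} (hK : SB K) (hL : SB L) {z d : V} (hz : z ≠ 0) {c a : ℝ}
    (h : Hm K L z d c a 0) :
    rad L z = c * rad K z + a ∧ rad L (-z) = c * rad K (-z) - a := by
  have hr := h.1
  have k3 : ∀ t : ℝ, (-rad K (-z) ≤ t ∧ t ≤ rad K z) ↔
      (-rad L (-z) ≤ c * t + a ∧ c * t + a ≤ rad L z) := by
    intro t
    rw [← hK.line_mem_iff hz, ← hL.line_mem_iff hz]
    have h1 := h.2 t 0
    simp only [zero_smul, add_zero, mul_zero] at h1
    exact h1
  have p1 := hK.rad_pos hz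
  have p2 := hK.rad_pos (neg_ne_zero.2 hz)
  have p3 := hL.rad_pos hz
  have p4 := hL.rad_pos (neg_ne_zero.2 hz)
  have a1 := (k3 (rad K z)).1 ⟨by linarith, le_rfl⟩
  have a2 := (k3 (-rad K (-z))).1 ⟨le_rfl, by linarith⟩
  have a3 := (k3 ((rad L z - a) / c)).2 (by
    rw [mul_div_cancel₀ _ hr.ne']
    constructor <;> linarith)
  have a4 := (k3 ((-rad L (-z) - a) / c)).2 (by
    rw [mul_div_cancel₀ _ hr.ne']
    constructor <;> linarith)
  have b3 := (div_le_iff₀ hr).1 a3.2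
  have b4 := (le_div_iff₀ hr).1 a4.1
  constructor
  · linarith [a1.2, mul_comm (rad K z) c]
  · linarith [a2.1, mul_comm (rad K (-z)) c]

theorem exists_unit_orth (z : V) : ∃ d : V, ‖d‖ = 1 ∧ ⟪z, d⟫ = 0 := by
  let f : V →ₗ[ℝ] ℝ := innerₛₗ ℝ z
  have hker : LinearMap.ker f ≠ ⊥ := by
    apply LinearMap.ker_ne_bot_of_finrank_lt
    simp
  obtain ⟨x, hx, hx0⟩ := Submodule.exists_mem_ne_zero_of_ne_bot hker
  have hx' : ⟪z, x⟫ = 0 := hx
  have hn : ‖x‖ ≠ 0 := norm_ne_zero_iff.2 hx0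
  refine ⟨‖x‖⁻¹ • x, ?_, ?_⟩
  · rw [norm_smul, norm_inv, norm_norm, inv_mul_cancel₀ hn]
  · rw [real_inner_smul_right, hx', mul_zero]

theorem exists_coord {z : V} (hz : ‖z‖ = 1) (w : V) :
    ∃ d : V, ∃ α β : ℝ, ON z d ∧ w = α • z + β • d := by
  by_cases hv : w - ⟪z, w⟫ • z = 0
  · obtain ⟨d, hd, hd'⟩ := exists_unit_orth z
    refine ⟨d, ⟪z, w⟫, 0, ⟨hz, hd, hd'⟩, ?_⟩
    rw [zero_smul, add_zero]
    exact sub_eq_zero.1 hv
  · have hn : ‖w - ⟪z, w⟫ • z‖ ≠ 0 := norm_ne_zero_iff.2 hv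
    refine ⟨‖w - ⟪z, w⟫ • z‖⁻¹ • (w - ⟪z, w⟫ • z), ⟪z, w⟫, ‖w - ⟪z, w⟫ • z‖, ⟨hz, ?_, ?_⟩, ?_⟩
    · rw [norm_smul, norm_inv, norm_norm, inv_mul_cancel₀ hn]
    · rw [real_inner_smul_right, inner_sub_right, real_inner_smul_right,
        real_inner_self_eq_norm_sq, hz]
      ring
    · rw [smul_smul, mul_inv_cancel₀ hn, one_smul]
      abel

theorem homothetic_of_good {K L : Set V} (hK : SB K) (hL : SB L)
    (H : ∀ z d, ON z d → ∃ c a b, Hm K L z d c a b) {z : V} (hz : ‖z‖ = 1)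
    (hg : ∀ d c a b, ON z d → Hm K L z d c a b → b = 0) :
    ∃ c : ℝ, 0 < c ∧ ∃ x : V, L = (fun y => c • y + x) '' K := by
  have hz0 : z ≠ 0 := by
    intro h0; rw [h0, norm_zero] at hz; exact zero_ne_one hz
  obtain ⟨d₀, _, _, hd₀, _⟩ := exists_coord hz 0
  obtain ⟨c, a, b, h0⟩ := H z d₀ hd₀
  obtain rfl := hg d₀ c a b hd₀ h0
  have hall : ∀ d, ON z d → Hm K L z d c a 0 := by
    intro d hd
    obtain ⟨c', a', b', h1⟩ := H z d hd
    obtain rfl := hg d c' a' b' hd h1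
    have k1 := h0.chord hK hL hz0
    have k2 := h1.chord hK hL hz0
    have p1 := hK.rad_pos hz0
    have p2 := hK.rad_pos (neg_ne_zero.2 hz0)
    have e : c' = c := by
      have : c' * (rad K z + rad K (-z)) = c * (rad K z + rad K (-z)) := by
        linarith [k1.1, k1.2, k2.1, k2.2]
      exact mul_right_cancel₀ (by positivity) this
    have e2 : a' = a := by
      rw [e] at k2
      linarith [k1.1, k2.1]
    rw [e, e2] at h1
    exact h1
  have hc := h0.1
  refine ⟨c, hc, a • z, ?_⟩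
  ext w
  constructor
  · intro hw
    obtain ⟨d, α, β, hd, rfl⟩ := exists_coord hz w
    refine ⟨((α - a) / c) • z + (β / c) • d, ?_, ?_⟩
    · rw [(hall d hd).2]
      rw [mul_div_cancel₀ _ hc.ne', mul_div_cancel₀ _ hc.ne', sub_add_cancel, add_zero]
      exact hw
    · simp only
      rw [smul_add, smul_smul, smul_smul, mul_div_cancel₀ _ hc.ne', mul_div_cancel₀ _ hc.ne']
      module
  · rintro ⟨y, hy, rfl⟩
    obtain ⟨d, α, β, hd, rfl⟩ := exists_coord hz y
    have h1 := ((hall d hd).2 α β).1 hy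
    simp only
    convert h1 using 1
    module

end Pool.Agent.Lib.MP_f7db8a.An
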