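import Pool.Agent.Lib.MP_f7db8a.AnA
import Pool.Agent.Lib.MP_f7db8a.AnC
import Pool.Agent.Lib.MP_f7db8a.AnD
import Pool.Agent.Lib.MP_f7db8a.AnE
import Pool.Agent.Lib.MP_f7db8a.AnF
import Pool.Agent.Lib.MP_f7db8a.AnG

set_option autoImplicit false

/-!
# Analytic star bodies in the space of dimension three
-/

namespace Pool.Agent.Lib.MP_f7db8a.An

open Module Set Filter Topology
open scoped RealInnerProductSpace

theorem analytic_three {K L : Set V} (hK : SB K) (hL : SB L)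
    (aK : AnalyticOnNhd ℝ (rad K) {0}ᶜ) (aL : AnalyticOnNhd ℝ (rad L) {0}ᶜ)
    (h : ∀ S : Submodule ℝ V, finrank ℝ S = 2 → ∃ c : ℝ, 0 < c ∧ ∃ x : V,
      L ∩ (S : Set V) = (fun y => c • y + x) '' (K ∩ (S : Set V))) :
    ∃ c : ℝ, 0 < c ∧ ∃ x : V, L = (fun y => c • y + x) '' K := by
  have H := hm_of_sections hK h
  have hf := fld hK hL H
  obtain ⟨z, hz, hg | hb⟩ := good_or_bad hf
  · exact homothetic_of_good hK hL H hz fun d c a b hd hh => by
      rw [B_eq hK hL hd hh]; exact hg d hd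
  · obtain ⟨ε, hε, hW⟩ := bad_open hf hz hb
    obtain ⟨c, hc, hL'⟩ := smul_of_fderiv hK hL aK aL hz hε fun y hy hyz => by
      obtain ⟨d, d', hd, hd', hne, hne', e1, e2⟩ := two_zeros hf hy (hW y hy hyz)
      have hy0 : y ≠ 0 := by
        intro h0; rw [h0, norm_zero] at hy; exact zero_ne_one hy
      have dK := (aK y hy0).differentiableAt
      have dL := (aL y hy0).differentiableAt
      obtain ⟨c1, a1, b1, k1⟩ := H y d hd
      obtain ⟨c2, a2, b2, k2⟩ := H y d' hd'
      have hb1 : b1 = 0 := by rw [B_eq hK hL hd k1]; exact e1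
      have hb2 : b2 = 0 := by rw [B_eq hK hL hd' k2]; exact e2
      subst hb1 hb2
      exact fderiv_eq_zero hd hd' hne hne' (ratio_fderiv_self hK hL hy0 dK dL)
        (ratio_fderiv_apply hK hL hd k1 dK dL) (ratio_fderiv_apply hK hL hd' k2 dK dL)
    exact ⟨c, hc, 0, hL'⟩

end Pool.Agent.Lib.MP_f7db8a.An
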