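import Mathlib

set_option autoImplicit false
set_option linter.unusedSectionVars false

/-!
# Two analytic lemmas in the plane
-/

namespace Pool.Agent.Lib.MP_f7db8a

open Set Filter Topology MeasureTheory Metric
open scoped NNReal

theorem mem_ball_prod {x y ε : ℝ} : ((x, y) : ℝ × ℝ) ∈ ball (0 : ℝ × ℝ) ε ↔ |x| < ε ∧ |y| < ε := by
  rw [mem_ball_zero_iff, Prod.norm_def]
  simp only [Real.norm_eq_abs]
  exact sup_lt_iff

theorem vert_const {f : ℝ × ℝ → ℝ} {C : ℝ≥0} {ε : ℝ} (hL : LipschitzOnWith C f (ball 0 ε))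
    (hae : ∀ᵐ z : ℝ × ℝ, z ∈ ball (0 : ℝ × ℝ) ε → HasFDerivAt f (0 : ℝ × ℝ →L[ℝ] ℝ) z)
    {x y1 y2 : ℝ} (h1 : ((x, y1) : ℝ × ℝ) ∈ ball (0 : ℝ × ℝ) ε)
    (h2 : ((x, y2) : ℝ × ℝ) ∈ ball (0 : ℝ × ℝ) ε) : f (x, y1) = f (x, y2) := by
  rw [Measure.volume_eq_prod] at hae
  have hae2 := Measure.ae_ae_of_ae_prod hae
  have hd := Measure.dense_of_ae hae2
  by_contra hne
  have hx : |x| < ε := (mem_ball_prod.1 h1).1
  have hy1 : |y1| < ε := (mem_ball_prod.1 h1).2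
  have hy2 : |y2| < ε := (mem_ball_prod.1 h2).2
  have hcont : ∀ y : ℝ, |y| < ε → ContinuousOn (fun x' : ℝ => f (x', y)) (ball 0 ε) := by
    intro y hy
    apply hL.continuousOn.comp (by fun_prop)
    intro x' hx'
    exact mem_ball_prod.2 ⟨by simpa using hx', hy⟩
  have hopen : IsOpen ((fun x' : ℝ => f (x', y1) - f (x', y2)) ⁻¹' {0}ᶜ ∩ ball (0 : ℝ) ε) := by
    rw [inter_comm]
    exact ((hcont y1 hy1).sub (hcont y2 hy2)).isOpen_inter_preimage isOpen_ball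
      isOpen_compl_singleton
  obtain ⟨x', hx'3, hx'1, hx'2⟩ := hd.exists_mem_open hopen
    ⟨x, by simpa [sub_eq_zero] using hne, by simpa using hx⟩
  have hx'ε : |x'| < ε := by simpa using hx'2
  have hsub : ∀ y ∈ uIcc y1 y2, ((x', y) : ℝ × ℝ) ∈ ball (0 : ℝ × ℝ) ε := by
    intro y hy
    refine mem_ball_prod.2 ⟨hx'ε, ?_⟩
    rw [abs_lt] at hy1 hy2 ⊢
    rcases mem_uIcc.1 hy with h | h
    · constructor <;> linarith [h.1, h.2, hy1.1, hy1.2, hy2.1, hy2.2]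
    · constructor <;> linarith [h.1, h.2, hy1.1, hy1.2, hy2.1, hy2.2]
  have hLip : LipschitzOnWith C (fun y : ℝ => f (x', y)) (uIcc y1 y2) := by
    intro y hy y' hy'
    refine (hL (hsub y hy) (hsub y' hy')).trans ?_
    gcongr
    rw [Prod.edist_eq]
    simp
  obtain ⟨c, hc⟩ := (hLip.absolutelyContinuousOnInterval).const_of_ae_hasDerivAt_zero (by
    filter_upwards [hx'3] with y hy hyI
    have h3 := hy (hsub y hyI)
    have h4 : HasDerivAt (fun y : ℝ => ((x', y) : ℝ × ℝ)) (0, 1) y :=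
      (hasDerivAt_const y x').prodMk (hasDerivAt_id y)
    have h5 := h3.comp_hasDerivAt y h4
    exact h5)
  apply hx'1
  rw [mem_singleton_iff, sub_eq_zero, hc y1 left_mem_uIcc, hc y2 right_mem_uIcc]

/-- A Lipschitz function on a ball of the plane with a.e. vanishing derivative is constant. -/
theorem const_of_ae {f : ℝ × ℝ → ℝ} {C : ℝ≥0} {ε : ℝ} (hL : LipschitzOnWith C f (ball 0 ε))
    (hae : ∀ᵐ z : ℝ × ℝ, z ∈ ball (0 : ℝ × ℝ) ε → HasFDerivAt f (0 : ℝ × ℝ →L[ℝ] ℝ) z)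
    {z : ℝ × ℝ} (hz : z ∈ ball (0 : ℝ × ℝ) ε) : f z = f 0 := by
  obtain ⟨x, y⟩ := z
  have hx : |x| < ε := (mem_ball_prod.1 hz).1
  have hε : 0 < ε := (abs_nonneg x).trans_lt hx
  have h1 : f (x, y) = f (x, 0) :=
    vert_const hL hae hz (mem_ball_prod.2 ⟨hx, by simpa using hε⟩)
  have hL' : LipschitzOnWith C (f ∘ Prod.swap) (ball 0 ε) := by
    intro p hp q hq
    obtain ⟨p1, p2⟩ := p
    obtain ⟨q1, q2⟩ := q
    have hp' := mem_ball_prod.1 hp
    have hq' := mem_ball_prod.1 hq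
    refine (hL (mem_ball_prod.2 ⟨hp'.2, hp'.1⟩) (mem_ball_prod.2 ⟨hq'.2, hq'.1⟩)).trans ?_
    rw [Prod.edist_eq, Prod.edist_eq]
    simp only [max_comm]
    exact le_rfl
  have hae' : ∀ᵐ z : ℝ × ℝ, z ∈ ball (0 : ℝ × ℝ) ε →
      HasFDerivAt (f ∘ Prod.swap) (0 : ℝ × ℝ →L[ℝ] ℝ) z := by
    have hq : Measure.QuasiMeasurePreserving (Prod.swap : ℝ × ℝ → ℝ × ℝ) volume volume := by
      have := (Measure.measurePreserving_swap (μ := (volume : Measure ℝ))
        (ν := (volume : Measure ℝ))).quasiMeasurePreserving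
      rw [← Measure.volume_eq_prod] at this
      exact this
    filter_upwards [hq.ae hae] with p hp hpball
    obtain ⟨p1, p2⟩ := p
    have hp' := mem_ball_prod.1 hpball
    have h3 := hp (mem_ball_prod.2 ⟨hp'.2, hp'.1⟩)
    have h4 : HasFDerivAt (Prod.swap : ℝ × ℝ → ℝ × ℝ)
        (ContinuousLinearEquiv.prodComm ℝ ℝ ℝ : ℝ × ℝ →L[ℝ] ℝ × ℝ) (p1, p2) :=
      (ContinuousLinearEquiv.prodComm ℝ ℝ ℝ).toContinuousLinearMap.hasFDerivAt
    have h5 := HasFDerivAt.comp (p1, p2) (g := f) h3 h4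
    simpa using h5
  have h2 := vert_const hL' hae' (x := 0) (y1 := x) (y2 := 0)
    (mem_ball_prod.2 ⟨by simpa using hε, hx⟩) (mem_ball_prod.2 ⟨by simpa using hε, by simpa using hε⟩)
  rw [h1]
  exact h2

/-- One-sided bounds along three positively spanning directions give a Lipschitz bound. -/
theorem lip_of_dirs {f : ℝ × ℝ → ℝ} {ε t₀ M : ℝ} (hε : 0 < ε) (ht₀ : 0 < t₀) (hM : 0 ≤ M)
    (h1 : ∀ z ∈ ball (0 : ℝ × ℝ) ε, ∀ t : ℝ, 0 ≤ t → t ≤ t₀ → f (z + t • (-1, 0)) ≤ f z + M * t)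
    (h2 : ∀ z ∈ ball (0 : ℝ × ℝ) ε, ∀ t : ℝ, 0 ≤ t → t ≤ t₀ → f (z + t • (0, -1)) ≤ f z + M * t)
    (h3 : ∀ z ∈ ball (0 : ℝ × ℝ) ε, ∀ t : ℝ, 0 ≤ t → t ≤ t₀ → f (z + t • (1, 1)) ≤ f z + M * t) :
    ∃ r : ℝ, 0 < r ∧ ∃ C : ℝ≥0, LipschitzOnWith C f (ball 0 r) := by
  set r := min (ε / 8) (t₀ / 8) with hr
  have hrpos : 0 < r := by rw [hr]; positivity
  have hr1 : r ≤ ε / 8 := min_le_left _ _
  have hr2 : r ≤ t₀ / 8 := min_le_right _ _
  refine ⟨r, hrpos, Real.toNNReal (5 * M), ?_⟩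
  have key : ∀ z ∈ ball (0 : ℝ × ℝ) r, ∀ w ∈ ball (0 : ℝ × ℝ) r,
      f w ≤ f z + 5 * M * dist w z := by
    rintro ⟨z1, z2⟩ hz ⟨w1, w2⟩ hw
    obtain ⟨hz1, hz2⟩ := mem_ball_prod.1 hz
    obtain ⟨hw1, hw2⟩ := mem_ball_prod.1 hw
    rw [abs_lt] at hz1 hz2 hw1 hw2
    set x := w1 - z1 with hx
    set y := w2 - z2 with hy
    set m := max 0 (max x y) with hm
    have hm0 : 0 ≤ m := le_max_left _ _
    have hmx : x ≤ m := (le_max_left _ _).trans (le_max_right _ _)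
    have hmy : y ≤ m := (le_max_right _ _).trans (le_max_right _ _)
    have hD : dist ((w1, w2) : ℝ × ℝ) (z1, z2) = max |x| |y| := by
      rw [Prod.dist_eq, Real.dist_eq, Real.dist_eq]
    set D := max |x| |y| with hDdef
    have hxD : |x| ≤ D := le_max_left _ _
    have hyD : |y| ≤ D := le_max_right _ _
    have hmD : m ≤ D := by
      rw [hm]
      apply max_le
      · exact (abs_nonneg x).trans hxD
      · exact max_le ((le_abs_self x).trans hxD) ((le_abs_self y).trans hyD)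
    have hm2r : m ≤ 2 * r := by
      rw [hm]
      apply max_le (by positivity)
      apply max_le <;> linarith
    have hxm2 : m - x ≤ 4 * r := by linarith
    have hym2 : m - y ≤ 4 * r := by linarith
    have s1 := h3 (z1, z2) (mem_ball_prod.2 ⟨by rw [abs_lt]; constructor <;> linarith,
      by rw [abs_lt]; constructor <;> linarith⟩) m hm0 (by linarith)
    have e1 : ((z1, z2) : ℝ × ℝ) + m • (1, 1) = (z1 + m, z2 + m) := by
      simp [Prod.smul_mk]
    rw [e1] at s1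
    have s2 := h1 (z1 + m, z2 + m) (mem_ball_prod.2 ⟨by rw [abs_lt]; constructor <;> linarith,
      by rw [abs_lt]; constructor <;> linarith⟩) (m - x) (by linarith) (by linarith)
    have e2 : ((z1 + m, z2 + m) : ℝ × ℝ) + (m - x) • (-1, 0) = (w1, z2 + m) := by
      simp only [Prod.smul_mk, Prod.mk_add_mk, smul_eq_mul, mul_zero, add_zero]
      congr 1
      rw [hx]; ring
    rw [e2] at s2
    have s3 := h2 (w1, z2 + m) (mem_ball_prod.2 ⟨by rw [abs_lt]; constructor <;> linarith,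
      by rw [abs_lt]; constructor <;> linarith⟩) (m - y) (by linarith) (by linarith)
    have e3 : ((w1, z2 + m) : ℝ × ℝ) + (m - y) • (0, -1) = (w1, w2) := by
      simp only [Prod.smul_mk, Prod.mk_add_mk, smul_eq_mul, mul_zero, add_zero]
      congr 1
      rw [hy]; ring
    rw [e3] at s3
    rw [hD]
    have hx' : -x ≤ D := (neg_le_abs x).trans hxD
    have hy' : -y ≤ D := (neg_le_abs y).trans hyD
    have : M * m + M * (m - x) + M * (m - y) ≤ 5 * M * D := by nlinarith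
    linarith
  rw [lipschitzOnWith_iff_dist_le_mul]
  intro z hz w hw
  rw [Real.dist_eq, abs_le]
  have k1 := key z hz w hw
  have k2 := key w hw z hz
  rw [dist_comm w z] at k1
  have hC : ((Real.toNNReal (5 * M) : ℝ≥0) : ℝ) = 5 * M := Real.coe_toNNReal _ (by positivity)
  rw [hC]
  constructor <;> linarith

/-- Rademacher on a ball -/
theorem ae_diff {f : ℝ × ℝ → ℝ} {C : ℝ≥0} {ε : ℝ} (hL : LipschitzOnWith C f (ball 0 ε)) :
    ∀ᵐ z : ℝ × ℝ, z ∈ ball (0 : ℝ × ℝ) ε → DifferentiableAt ℝ f z := by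
  filter_upwards [hL.ae_differentiableWithinAt_of_mem (μ := volume)] with z hz hzb
  exact (hz hzb).differentiableAt (isOpen_ball.mem_nhds hzb)

end Pool.Agent.Lib.MP_f7db8a
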