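import Pool.Agent.Lib.MP_f7db8a.Star

set_option autoImplicit false
set_option linter.unusedSectionVars false

/-!
# Centres of two-dimensional sections
-/

namespace Pool.Agent.Lib.MP_f7db8a

open Module Set Filter Topology

section cen

variable {E : Type*} [NormedAddCommGroup E] [NormedSpace ℝ E]

/-- `a • X + b • Y` is a centre of symmetry of the section of `K` by the span of `X` and `Y`. -/
def Cen (K : Set E) (X Y : E) (a b : ℝ) : Prop :=
  ∀ α β : ℝ, α • X + β • Y ∈ K → (2 * a - α) • X + (2 * b - β) • Y ∈ K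

/-- every section by the span of two vectors has a centre of symmetry -/
def HC (K : Set E) : Prop := ∀ X Y : E, ∃ a b : ℝ, Cen K X Y a b

/-- linear independence of two vectors -/
def Ind (X Y : E) : Prop := ∀ s t : ℝ, s • X + t • Y = 0 → s = 0 ∧ t = 0

theorem Cen.iff {K : Set E} {X Y : E} {a b : ℝ} (h : Cen K X Y a b) (α β : ℝ) :
    α • X + β • Y ∈ K ↔ (2 * a - α) • X + (2 * b - β) • Y ∈ K := by
  refine ⟨h α β, fun h1 => ?_⟩
  have := h _ _ h1
  rwa [show 2 * a - (2 * a - α) = α by ring, show 2 * b - (2 * b - β) = β by ring] at this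

theorem Cen.unique {K : Set E} (hK : SB K) {X Y : E} (hXY : Ind X Y) {a b a' b' : ℝ}
    (h : Cen K X Y a b) (h' : Cen K X Y a' b') : a = a' ∧ b = b' := by
  have key : ∀ n : ℕ, ((n : ℝ) * (2 * (a - a'))) • X + ((n : ℝ) * (2 * (b - b'))) • Y ∈ K := by
    intro n
    induction n with
    | zero => simpa using hK.zero_mem
    | succ n ih =>
      have h1 := h _ _ (h' _ _ ih)
      have e1 : 2 * a - (2 * a' - (n : ℝ) * (2 * (a - a'))) = ((n + 1 : ℕ) : ℝ) * (2 * (a - a')) := by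
        push_cast; ring
      have e2 : 2 * b - (2 * b' - (n : ℝ) * (2 * (b - b'))) = ((n + 1 : ℕ) : ℝ) * (2 * (b - b')) := by
        push_cast; ring
      rwa [e1, e2] at h1
  set v : E := (2 * (a - a')) • X + (2 * (b - b')) • Y with hv
  have key2 : ∀ n : ℕ, (n : ℝ) • v ∈ K := by
    intro n
    have := key n
    rwa [hv, smul_add, smul_smul, smul_smul]
  have hv0 : v = 0 := by
    by_contra hne
    obtain ⟨R, hR⟩ := hK.compact.isBounded.exists_norm_le
    have hpos : 0 < ‖v‖ := norm_pos_iff.2 hne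
    obtain ⟨n, hn⟩ := exists_nat_gt (R / ‖v‖)
    have h1 := hR _ (key2 n)
    rw [norm_smul, Real.norm_of_nonneg (Nat.cast_nonneg n)] at h1
    rw [div_lt_iff₀ hpos] at hn
    linarith
  obtain ⟨h1, h2⟩ := hXY _ _ hv0
  constructor <;> linarith

theorem Cen.swap {K : Set E} {X Y : E} {a b : ℝ} (h : Cen K X Y a b) : Cen K Y X b a := by
  intro α β h1
  rw [add_comm] at h1 ⊢
  exact h _ _ h1

theorem Cen.smul_right {K : Set E} {X Y : E} {a b : ℝ} (h : Cen K X Y a b) {s : ℝ} (hs : s ≠ 0) :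
    Cen K X (s • Y) a (b / s) := by
  intro α β h1
  rw [smul_smul] at h1 ⊢
  have := h _ _ h1
  rwa [show 2 * b - β * s = (2 * (b / s) - β) * s by field_simp] at this

theorem Cen.smul_left {K : Set E} {X Y : E} {a b : ℝ} (h : Cen K X Y a b) {s : ℝ} (hs : s ≠ 0) :
    Cen K (s • X) Y (a / s) b := (h.swap.smul_right hs).swap

theorem Cen.neg_right {K : Set E} {X Y : E} {a b : ℝ} (h : Cen K X Y a b) :
    Cen K X (-Y) a (-b) := by
  have := h.smul_right (s := -1) (by norm_num)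
  rwa [neg_smul, one_smul, div_neg, div_one] at this

theorem Cen.add_right {K : Set E} {X Y : E} {a b : ℝ} (h : Cen K X Y a b) (τ : ℝ) :
    Cen K X (Y + τ • X) (a - b * τ) b := by
  intro α β h1
  have e : α • X + β • (Y + τ • X) = (α + β * τ) • X + β • Y := by module
  rw [e] at h1
  have h2 := h _ _ h1
  convert h2 using 1
  module

theorem Cen.add_left {K : Set E} {X Y : E} {a b : ℝ} (h : Cen K X Y a b) (τ : ℝ) :
    Cen K (X + τ • Y) Y a (b - a * τ) := (h.swap.add_right τ).swap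

/-- The triangle lemma. -/
theorem Cen.tri {K : Set E} (hK : SB K) {X Y : E} {a b : ℝ} (h : Cen K X Y a b) {α β : ℝ}
    (hP : α • X + β • Y ∈ K) {s r : ℝ} (hs : 0 ≤ s) (hr : 0 ≤ r) (hsr : s + r ≤ 1) :
    (s * α + 2 * r * a) • X + (s * β + 2 * r * b) • Y ∈ K := by
  rcases hr.eq_or_lt with hr0 | hr0
  · subst hr0
    have h1 := hK.smul_mem hP hs (by linarith)
    convert h1 using 1
    module
  rcases eq_or_lt_of_le (show r ≤ 1 by linarith) with hr1 | hr1
  · subst hr1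
    have hs0 : s = 0 := by linarith
    subst hs0
    have h1 := h 0 0 (by simpa using hK.zero_mem)
    convert h1 using 2 <;> ring_nf
  · have hpos : 0 < 1 - r := by linarith
    have h1 : (s / (1 - r)) • (α • X + β • Y) ∈ K :=
      hK.smul_mem hP (by positivity) (by rw [div_le_one hpos]; linarith)
    have h2 : (s / (1 - r) * α) • X + (s / (1 - r) * β) • Y ∈ K := by
      convert h1 using 1; module
    have h3 := h _ _ h2
    have h4 := hK.smul_mem h3 hpos.le (by linarith)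
    have h5 : ((1 - r) * (2 * a - s / (1 - r) * α)) • X +
        ((1 - r) * (2 * b - s / (1 - r) * β)) • Y ∈ K := by
      convert h4 using 1; module
    have h6 := h _ _ h5
    convert h6 using 2
    · congr 1; field_simp; ring
    · congr 1; field_simp; ring

/-- Centres are stable under limits. -/
theorem Cen.limit {K : Set E} (hK : SB K) {ι : Type*} {l : Filter ι} [l.NeBot]
    {X Y : ι → E} {a b : ι → ℝ} {X₀ Y₀ : E} {a₀ b₀ : ℝ}
    (hX : Tendsto X l (𝓝 X₀)) (hY : Tendsto Y l (𝓝 Y₀)) (ha : Tendsto a l (𝓝 a₀))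
    (hb : Tendsto b l (𝓝 b₀)) (h : ∀ᶠ i in l, Cen K (X i) (Y i) (a i) (b i)) :
    Cen K X₀ Y₀ a₀ b₀ := by
  intro α β hP
  have hcl := hK.compact.isClosed
  have step : ∀ t : ℝ, 0 ≤ t → t < 1 →
      (2 * a₀ - t * α) • X₀ + (2 * b₀ - t * β) • Y₀ ∈ K := by
    intro t h0 h1
    have hint := hK.inter _ hP t h0 h1
    have hint' : (t * α) • X₀ + (t * β) • Y₀ ∈ interior K := by
      convert hint using 1; module
    have hlim : Tendsto (fun i => (t * α) • X i + (t * β) • Y i) l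
        (𝓝 ((t * α) • X₀ + (t * β) • Y₀)) := (hX.const_smul _).add (hY.const_smul _)
    have hev := hlim (isOpen_interior.mem_nhds hint')
    have hlim2 : Tendsto (fun i => (2 * a i - t * α) • X i + (2 * b i - t * β) • Y i) l
        (𝓝 ((2 * a₀ - t * α) • X₀ + (2 * b₀ - t * β) • Y₀)) :=
      (((ha.const_mul 2).sub_const _).smul hX).add (((hb.const_mul 2).sub_const _).smul hY)
    refine hcl.mem_of_tendsto hlim2 ?_
    filter_upwards [hev, h] with i h1 h2
    exact h2 _ _ (interior_subset h1)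
  have hlim : Tendsto (fun t : ℝ => (2 * a₀ - t * α) • X₀ + (2 * b₀ - t * β) • Y₀)
      (𝓝[<] 1) (𝓝 ((2 * a₀ - 1 * α) • X₀ + (2 * b₀ - 1 * β) • Y₀)) := by
    apply Tendsto.mono_left _ nhdsWithin_le_nhds
    apply Continuous.tendsto
    fun_prop
  rw [one_mul, one_mul] at hlim
  refine hcl.mem_of_tendsto hlim ?_
  have h1 : ∀ᶠ t : ℝ in 𝓝[<] 1, t ∈ Iio (1 : ℝ) := self_mem_nhdsWithin
  have h2 : ∀ᶠ t : ℝ in 𝓝[<] 1, 0 ≤ t := by
    apply Filter.Eventually.filter_mono nhdsWithin_le_nhds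
    filter_upwards [lt_mem_nhds (show (0 : ℝ) < 1 by norm_num)] with t ht using ht.le
  filter_upwards [h1, h2] with t h3 h4
  exact step t h4 h3

theorem Ind.ne_left {X Y : E} (h : Ind X Y) : X ≠ 0 := by
  rintro rfl
  have := (h 1 0 (by simp)).1
  norm_num at this

theorem Ind.swap {X Y : E} (h : Ind X Y) : Ind Y X := by
  intro s t hst
  rw [add_comm] at hst
  exact (h _ _ hst).symm

theorem Ind.ne_right {X Y : E} (h : Ind X Y) : Y ≠ 0 := h.swap.ne_left

/-- coordinates are bounded below, locally uniformly -/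
theorem Ind.bound {X Y : E} (h : Ind X Y) : ∃ δ : ℝ, 0 < δ ∧
    ∀ᶠ p : E × E in 𝓝 (X, Y), ∀ a b : ℝ, δ * ‖(a, b)‖ ≤ ‖a • p.1 + b • p.2‖ := by
  have hcs : IsCompact (Metric.sphere (0 : ℝ × ℝ) 1) := isCompact_sphere _ _
  have hne : (Metric.sphere (0 : ℝ × ℝ) 1).Nonempty := ⟨(1, 0), by simp [Prod.norm_def]⟩
  have hcont : Continuous (fun q : ℝ × ℝ => ‖q.1 • X + q.2 • Y‖) := by fun_prop
  obtain ⟨q₀, hq₀, hmin⟩ := hcs.exists_isMinOn hne hcont.continuousOn
  set m := ‖q₀.1 • X + q₀.2 • Y‖ with hm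
  have hmpos : 0 < m := by
    rw [hm, norm_pos_iff]
    intro h0
    obtain ⟨h1, h2⟩ := h _ _ h0
    have : q₀ = 0 := Prod.ext h1 h2
    rw [this] at hq₀
    simp at hq₀
  have hlow : ∀ a b : ℝ, m * ‖(a, b)‖ ≤ ‖a • X + b • Y‖ := by
    intro a b
    rcases eq_or_ne (a, b) (0 : ℝ × ℝ) with h0 | h0
    · rw [h0, norm_zero, mul_zero]; exact norm_nonneg _
    · have hpos : 0 < ‖(a, b)‖ := norm_pos_iff.2 h0
      have hmem : ((‖(a, b)‖⁻¹ * a, ‖(a, b)‖⁻¹ * b) : ℝ × ℝ) ∈ Metric.sphere (0 : ℝ × ℝ) 1 := by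
        rw [mem_sphere_zero_iff_norm]
        have : ((‖(a, b)‖⁻¹ * a, ‖(a, b)‖⁻¹ * b) : ℝ × ℝ) = ‖(a, b)‖⁻¹ • (a, b) := rfl
        rw [this, norm_smul, norm_inv, norm_norm, inv_mul_cancel₀ hpos.ne']
      have h1 := hmin hmem
      have h2 : m ≤ ‖(‖(a, b)‖⁻¹ * a) • X + (‖(a, b)‖⁻¹ * b) • Y‖ := h1
      have h3 : (‖(a, b)‖⁻¹ * a) • X + (‖(a, b)‖⁻¹ * b) • Y = ‖(a, b)‖⁻¹ • (a • X + b • Y) := by
        module
      rw [h3, norm_smul, norm_inv, norm_norm, inv_mul_eq_div, le_div_iff₀ hpos] at h2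
      exact h2
  refine ⟨m / 2, by positivity, ?_⟩
  have hev : ∀ᶠ p : E × E in 𝓝 (X, Y), ‖p.1 - X‖ < m / 4 ∧ ‖p.2 - Y‖ < m / 4 := by
    have h1 : ContinuousAt (fun p : E × E => ‖p.1 - X‖) (X, Y) := by fun_prop
    have h2 : ContinuousAt (fun p : E × E => ‖p.2 - Y‖) (X, Y) := by fun_prop
    have h1' : ∀ᶠ p : E × E in 𝓝 (X, Y), ‖p.1 - X‖ < m / 4 :=
      h1.eventually_lt continuousAt_const (by simp; positivity)
    have h2' : ∀ᶠ p : E × E in 𝓝 (X, Y), ‖p.2 - Y‖ < m / 4 :=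
      h2.eventually_lt continuousAt_const (by simp; positivity)
    exact h1'.and h2'
  filter_upwards [hev] with p hp
  intro a b
  have h1 := hlow a b
  have ha : |a| ≤ ‖(a, b)‖ := norm_fst_le (a, b)
  have hb : |b| ≤ ‖(a, b)‖ := norm_snd_le (a, b)
  have h2 : ‖a • X + b • Y‖ ≤ ‖a • p.1 + b • p.2‖ + (|a| * ‖p.1 - X‖ + |b| * ‖p.2 - Y‖) := by
    have e : a • X + b • Y = (a • p.1 + b • p.2) - (a • (p.1 - X) + b • (p.2 - Y)) := by module
    rw [e]
    refine (norm_sub_le _ _).trans ?_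
    gcongr
    refine (norm_add_le _ _).trans ?_
    rw [norm_smul, norm_smul, Real.norm_eq_abs, Real.norm_eq_abs]
  have h3 : |a| * ‖p.1 - X‖ ≤ ‖(a, b)‖ * (m / 4) := by
    apply mul_le_mul ha hp.1.le (norm_nonneg _) (norm_nonneg _)
  have h4 : |b| * ‖p.2 - Y‖ ≤ ‖(a, b)‖ * (m / 4) := by
    apply mul_le_mul hb hp.2.le (norm_nonneg _) (norm_nonneg _)
  linarith

/-- Independence is an open condition. -/
theorem Ind.eventually {X Y : E} (h : Ind X Y) : ∀ᶠ p : E × E in 𝓝 (X, Y), Ind p.1 p.2 := by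
  obtain ⟨δ, hδ, hev⟩ := h.bound
  filter_upwards [hev] with p hp
  intro s t hst
  have h1 := hp s t
  rw [hst, norm_zero] at h1
  have h2 : ‖(s, t)‖ = 0 := by
    have := norm_nonneg (s, t)
    nlinarith
  have h3 : (s, t) = (0 : ℝ × ℝ) := norm_eq_zero.1 h2
  exact ⟨congrArg Prod.fst h3, congrArg Prod.snd h3⟩

/-- Continuity of the centre coordinates at independent pairs. -/
theorem Cen.continuousAt {K : Set E} (hK : SB K) {A B : E × E → ℝ}
    (hAB : ∀ p : E × E, Cen K p.1 p.2 (A p) (B p)) {X Y : E} (hXY : Ind X Y) :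
    ContinuousAt (fun p => (A p, B p)) (X, Y) := by
  obtain ⟨δ, hδ, hev⟩ := hXY.bound
  obtain ⟨R, hR⟩ := hK.compact.isBounded.exists_norm_le
  have hbdd : ∀ᶠ p : E × E in 𝓝 (X, Y), (A p, B p) ∈ Metric.closedBall (0 : ℝ × ℝ) (R / (2 * δ)) := by
    filter_upwards [hev] with p hp
    rw [mem_closedBall_zero_iff]
    have h1 := hAB p 0 0 (by simpa using hK.zero_mem)
    have h2 := hR _ h1
    have h3 := hp (2 * A p - 0) (2 * B p - 0)
    have h4 : ‖(2 * A p - 0, 2 * B p - 0)‖ = 2 * ‖(A p, B p)‖ := by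
      have : ((2 * A p - 0, 2 * B p - 0) : ℝ × ℝ) = (2 : ℝ) • (A p, B p) := by
        ext <;> simp
      rw [this, norm_smul]; simp
    rw [h4] at h3
    rw [le_div_iff₀ (by positivity)]
    linarith
  apply IsCompact.tendsto_nhds_of_unique_mapClusterPt (isCompact_closedBall _ _) hbdd
  rintro ⟨a, b⟩ _ hcl
  rw [mapClusterPt_iff_ultrafilter] at hcl
  obtain ⟨U, hU, hlim⟩ := hcl
  have hfst : Tendsto (fun p : E × E => p.1) U (𝓝 X) :=
    (continuous_fst.tendsto (X, Y)).mono_left hU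
  have hsnd : Tendsto (fun p : E × E => p.2) U (𝓝 Y) :=
    (continuous_snd.tendsto (X, Y)).mono_left hU
  have ha : Tendsto A U (𝓝 a) := (continuous_fst.tendsto (a, b)).comp hlim
  have hb : Tendsto B U (𝓝 b) := (continuous_snd.tendsto (a, b)).comp hlim
  have hcen : Cen K X Y a b :=
    Cen.limit hK hfst hsnd ha hb (Filter.Eventually.of_forall hAB)
  obtain ⟨h1, h2⟩ := hcen.unique hK hXY (hAB (X, Y))
  rw [h1, h2]

/-- Transport by an injective linear map. -/
theorem Cen.image {E' : Type*} [NormedAddCommGroup E'] [NormedSpace ℝ E'] {K : Set E}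
    (T : E →ₗ[ℝ] E') (hT : Function.Injective T) {X Y : E} {a b : ℝ} :
    Cen (T '' K) (T X) (T Y) a b ↔ Cen K X Y a b := by
  have hmem : ∀ α β : ℝ, α • T X + β • T Y ∈ T '' K ↔ α • X + β • Y ∈ K := by
    intro α β
    rw [← map_smul, ← map_smul, ← map_add, hT.mem_set_image]
  unfold Cen
  simp only [hmem]

theorem HC.image {E' : Type*} [NormedAddCommGroup E'] [NormedSpace ℝ E'] {K : Set E} (h : HC K)
    (T : E →ₗ[ℝ] E') (hT : Function.Bijective T) : HC (T '' K) := by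
  intro X' Y'
  obtain ⟨X, rfl⟩ := hT.2 X'
  obtain ⟨Y, rfl⟩ := hT.2 Y'
  obtain ⟨a, b, hab⟩ := h X Y
  exact ⟨a, b, (Cen.image T hT.1).2 hab⟩

theorem Ind.map {E' : Type*} [NormedAddCommGroup E'] [NormedSpace ℝ E'] {X Y : E} (h : Ind X Y)
    (T : E →ₗ[ℝ] E') (hT : Function.Injective T) : Ind (T X) (T Y) := by
  intro s t hst
  rw [← map_smul, ← map_smul, ← map_add] at hst
  exact h _ _ (hT (by rw [hst, map_zero]))

/-- boundary points are reflected to boundary points -/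
theorem Cen.not_interior {K : Set E} {X Y : E} {a b : ℝ} (h : Cen K X Y a b)
    {α β : ℝ} (hout : ∀ η : ℝ, 0 < η → (1 + η) • (α • X + β • Y) ∉ K) :
    (2 * a - α) • X + (2 * b - β) • Y ∉ interior K := by
  intro hint
  have hc : ContinuousAt (fun η : ℝ => (2 * a - α) • X + (2 * b - β) • Y -
      η • (α • X + β • Y)) 0 := by fun_prop
  have hev : ∀ᶠ η : ℝ in 𝓝 0, (2 * a - α) • X + (2 * b - β) • Y -
      η • (α • X + β • Y) ∈ interior K := by
    apply hc
    simpa using isOpen_interior.mem_nhds hint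
  obtain ⟨ε, hε, hball⟩ := Metric.eventually_nhds_iff.1 hev
  have h1 := hball (y := ε / 2) (by rw [Real.dist_eq, sub_zero, abs_of_pos (by positivity)]; linarith)
  have h2 : (2 * a - α - ε / 2 * α) • X + (2 * b - β - ε / 2 * β) • Y ∈ K := by
    convert interior_subset h1 using 1
    module
  have h3 := h _ _ h2
  apply hout (ε / 2) (by positivity)
  convert h3 using 1
  module

end cen

end Pool.Agent.Lib.MP_f7db8a
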