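import Pool.Agent.Lib.MP_f7db8a.Cen
import Pool.Agent.Lib.MP_f7db8a.Anal

set_option autoImplicit false
set_option linter.unusedSectionVars false

/-!
# The reciprocal radial function in a chart
-/

namespace Pool.Agent.Lib.MP_f7db8a

open Module Set Filter Topology MeasureTheory Metric
open scoped NNReal

section neg

variable {E : Type*} [NormedAddCommGroup E] [NormedSpace ℝ E]

theorem interior_neg' (K : Set E) : interior (-K) = -interior K :=
  ((Homeomorph.neg E).preimage_interior K).symm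

theorem SB.neg {K : Set E} (hK : SB K) : SB (-K) where
  compact := hK.compact.neg
  nonempty := hK.nonempty.neg
  inter := by
    intro x hx t h0 h1
    have h2 := hK.inter (-x) hx t h0 h1
    rw [interior_neg', Set.mem_neg]
    rwa [smul_neg] at h2

theorem rad_neg (K : Set E) (x : E) : rad (-K) x = rad K (-x) := by
  unfold rad
  simp only [Set.mem_neg, smul_neg]

theorem Cen.neg {K : Set E} {X Y : E} {a b : ℝ} (h : Cen K X Y a b) :
    Cen (-K) X Y (-a) (-b) := by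
  intro α β hm
  rw [Set.mem_neg] at hm ⊢
  have h1 := h (-α) (-β) (by convert hm using 1; module)
  convert h1 using 1
  module

end neg

/-- reciprocal radial function in the chart -/
noncomputable def qf (K : Set ((ℝ × ℝ) × ℝ)) (z : ℝ × ℝ) : ℝ := (rad K (z, 1))⁻¹

theorem chart_ne (z : ℝ × ℝ) : ((z, 1) : (ℝ × ℝ) × ℝ) ≠ 0 := by
  intro h
  have := congrArg Prod.snd h
  simp at this

variable {K : Set ((ℝ × ℝ) × ℝ)}

theorem qf_pos (hK : SB K) (z : ℝ × ℝ) : 0 < qf K z := inv_pos.2 (hK.rad_pos (chart_ne z))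

theorem qf_continuous (hK : SB K) : Continuous (qf K) := by
  rw [continuous_iff_continuousAt]
  intro z
  unfold qf
  apply ContinuousAt.inv₀
  · exact ContinuousAt.comp (f := fun z : ℝ × ℝ => ((z, 1) : (ℝ × ℝ) × ℝ)) (g := rad K)
      (hK.continuousAt_rad (chart_ne z)) (by fun_prop)
  · exact (hK.rad_pos (chart_ne z)).ne'

theorem mem_chart (hK : SB K) (z : ℝ × ℝ) {h : ℝ} (hh : 0 ≤ h) :
    h • ((z, 1) : (ℝ × ℝ) × ℝ) ∈ K ↔ h * qf K z ≤ 1 := by
  rw [hK.smul_mem_iff (chart_ne z) hh]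
  unfold qf
  rw [← div_eq_mul_inv, div_le_one (hK.rad_pos (chart_ne z))]

theorem interior_chart (hK : SB K) (z : ℝ × ℝ) {h : ℝ} (hh : 0 ≤ h) (hlt : h * qf K z < 1) :
    h • ((z, 1) : (ℝ × ℝ) × ℝ) ∈ interior K := by
  have hpos := hK.rad_pos (chart_ne z)
  unfold qf at hlt
  rw [← div_eq_mul_inv] at hlt
  have h1 := hK.inter _ (hK.rad_smul_mem (chart_ne z)) (h / rad K (z, 1)) (by positivity) hlt
  rwa [smul_smul, div_mul_cancel₀ _ hpos.ne'] at h1

theorem out_chart (hK : SB K) (z : ℝ × ℝ) (η : ℝ) (hη : 0 < η) :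
    (1 + η) • ((qf K z)⁻¹ • ((z, 1) : (ℝ × ℝ) × ℝ)) ∉ K := by
  have hq := qf_pos hK z
  rw [smul_smul, mem_chart hK z (by positivity), mul_assoc, inv_mul_cancel₀ hq.ne', mul_one]
  linarith

theorem chart_ind (z : ℝ × ℝ) {d : ℝ × ℝ} (hd : d ≠ 0) :
    Ind ((z, 1) : (ℝ × ℝ) × ℝ) ((d, 0) : (ℝ × ℝ) × ℝ) := by
  intro s t hst
  have h1 := congrArg Prod.snd hst
  simp at h1
  subst h1
  have h2 := congrArg Prod.fst hst
  simp at h2
  refine ⟨rfl, ?_⟩
  rcases h2 with h2 | h2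
  · exact h2
  · exact absurd h2 hd

/-- centre coordinate functions -/
structure Ctr (K : Set ((ℝ × ℝ) × ℝ)) (A B : ℝ × ℝ → ℝ × ℝ → ℝ) : Prop where
  cen : ∀ z d : ℝ × ℝ, Cen K (z, 1) (d, 0) (A z d) (B z d)

theorem Ctr.neg {A B : ℝ × ℝ → ℝ × ℝ → ℝ} (h : Ctr K A B) :
    Ctr (-K) (fun z d => -A z d) (fun z d => -B z d) := ⟨fun z d => (h.cen z d).neg⟩

theorem Ctr.cont {A B : ℝ × ℝ → ℝ × ℝ → ℝ} (hK : SB K) (h : Ctr K A B) {z d : ℝ × ℝ}
    (hd : d ≠ 0) : ContinuousAt (fun p : (ℝ × ℝ) × (ℝ × ℝ) => (A p.1 p.2, B p.1 p.2)) (z, d) := by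
  -- choose a global centre function
  classical
  have hcs : IsCompact (Metric.sphere (0 : ℝ) 1) := isCompact_sphere _ _
  obtain ⟨δ, hδ, hev⟩ := (chart_ind z hd).bound
  obtain ⟨R, hR⟩ := hK.compact.isBounded.exists_norm_le
  have hcurve : Tendsto (fun p : (ℝ × ℝ) × (ℝ × ℝ) =>
      (((p.1, 1), (p.2, 0)) : ((ℝ × ℝ) × ℝ) × ((ℝ × ℝ) × ℝ))) (𝓝 (z, d)) (𝓝 ((z, 1), (d, 0))) := by
    apply Continuous.tendsto'
    · fun_prop
    · rfl
  have hbdd : ∀ᶠ p : (ℝ × ℝ) × (ℝ × ℝ) in 𝓝 (z, d), (A p.1 p.2, B p.1 p.2) ∈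
      Metric.closedBall (0 : ℝ × ℝ) (R / (2 * δ)) := by
    filter_upwards [hcurve.eventually hev] with p hp
    rw [mem_closedBall_zero_iff]
    have h1 := h.cen p.1 p.2 0 0 (by simpa using hK.zero_mem)
    have h2 := hR _ h1
    have h3 := hp (2 * A p.1 p.2 - 0) (2 * B p.1 p.2 - 0)
    have h4 : ‖(2 * A p.1 p.2 - 0, 2 * B p.1 p.2 - 0)‖ = 2 * ‖(A p.1 p.2, B p.1 p.2)‖ := by
      have : ((2 * A p.1 p.2 - 0, 2 * B p.1 p.2 - 0) : ℝ × ℝ) =
          (2 : ℝ) • (A p.1 p.2, B p.1 p.2) := by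
        ext <;> simp
      rw [this, norm_smul]; simp
    rw [h4] at h3
    rw [le_div_iff₀ (by positivity)]
    linarith
  apply IsCompact.tendsto_nhds_of_unique_mapClusterPt (isCompact_closedBall _ _) hbdd
  rintro ⟨a, b⟩ _ hcl
  rw [mapClusterPt_iff_ultrafilter] at hcl
  obtain ⟨U, hU, hlim⟩ := hcl
  have hpair := hcurve.mono_left hU
  have hfst := (continuous_fst.tendsto _).comp hpair
  have hsnd := (continuous_snd.tendsto _).comp hpair
  have ha := (continuous_fst.tendsto (a, b)).comp hlim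
  have hb := (continuous_snd.tendsto (a, b)).comp hlim
  have hcen : Cen K (z, 1) (d, 0) a b :=
    Cen.limit hK hfst hsnd ha hb (Filter.Eventually.of_forall fun p => h.cen p.1 p.2)
  obtain ⟨h1, h2⟩ := hcen.unique hK (chart_ind z hd) (h.cen z d)
  rw [h1, h2]

theorem Ctr.contA {A B : ℝ × ℝ → ℝ × ℝ → ℝ} (hK : SB K) (h : Ctr K A B) {z d : ℝ × ℝ}
    (hd : d ≠ 0) : ContinuousAt (fun p : (ℝ × ℝ) × (ℝ × ℝ) => A p.1 p.2) (z, d) :=
  continuous_fst.continuousAt.comp (h.cont hK hd)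

theorem Ctr.contB {A B : ℝ × ℝ → ℝ × ℝ → ℝ} (hK : SB K) (h : Ctr K A B) {z d : ℝ × ℝ}
    (hd : d ≠ 0) : ContinuousAt (fun p : (ℝ × ℝ) × (ℝ × ℝ) => B p.1 p.2) (z, d) :=
  continuous_snd.continuousAt.comp (h.cont hK hd)

theorem Ctr.eq {A B : ℝ × ℝ → ℝ × ℝ → ℝ} (hK : SB K) (h : Ctr K A B) {z d : ℝ × ℝ}
    (hd : d ≠ 0) {a b : ℝ} (hc : Cen K (z, 1) (d, 0) a b) : A z d = a ∧ B z d = b :=
  (h.cen z d).unique hK (chart_ind z hd) hc

theorem Ctr.smul {A B : ℝ × ℝ → ℝ × ℝ → ℝ} (hK : SB K) (h : Ctr K A B) {z d : ℝ × ℝ}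
    (hd : d ≠ 0) {s : ℝ} (hs : s ≠ 0) : A z (s • d) = A z d ∧ B z (s • d) = B z d / s := by
  apply h.eq hK (smul_ne_zero hs hd)
  have := (h.cen z d).smul_right hs
  rwa [Prod.smul_mk, smul_zero] at this

theorem Ctr.negd {A B : ℝ × ℝ → ℝ × ℝ → ℝ} (hK : SB K) (h : Ctr K A B) {z d : ℝ × ℝ}
    (hd : d ≠ 0) : A z (-d) = A z d ∧ B z (-d) = -B z d := by
  have := h.smul hK hd (s := -1) (z := z) (by norm_num)
  rwa [neg_smul, one_smul, div_neg, div_one] at this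

/-- the basic one-sided estimate -/
theorem qf_le (hK : SB K) {z d : ℝ × ℝ} {a b : ℝ} (h : Cen K (z, 1) (d, 0) a b) (hb : 0 < b)
    {t G : ℝ} (ht : 0 ≤ t) (hG : 0 < G) (hGe : G = qf K z + t * (1 - 2 * a * qf K z) / (2 * b))
    (htG : t ≤ 2 * b * G) : qf K (z + t • d) ≤ G := by
  have hq := qf_pos hK z
  set r := t / (2 * b * G) with hr
  have hr0 : 0 ≤ r := by positivity
  have hr1 : r ≤ 1 := by rw [hr, div_le_one (by positivity)]; exact htG
  have hP : (qf K z)⁻¹ • ((z, 1) : (ℝ × ℝ) × ℝ) + (0 : ℝ) • ((d, 0) : (ℝ × ℝ) × ℝ) ∈ K := by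
    rw [zero_smul, add_zero, mem_chart hK z (by positivity), inv_mul_cancel₀ hq.ne']
  have h1 := h.tri hK hP (s := 1 - r) (r := r) (by linarith) hr0 (by linarith)
  have e1 : (1 - r) * (qf K z)⁻¹ + 2 * r * a = G⁻¹ := by
    have e2 : G * qf K z * (2 * b) = qf K z * (qf K z * (2 * b) + t * (1 - 2 * a * qf K z)) := by
      rw [hGe]; field_simp
    rw [hr]
    field_simp
    have e3 : 2 * b * G = 2 * b * qf K z + t * (1 - 2 * a * qf K z) := by
      rw [hGe]; field_simp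
    linear_combination e3
  have e2 : (1 - r) * 0 + 2 * r * b = G⁻¹ * t := by
    rw [hr]; field_simp; ring
  rw [e1, e2] at h1
  have e3 : G⁻¹ • ((z, 1) : (ℝ × ℝ) × ℝ) + (G⁻¹ * t) • ((d, 0) : (ℝ × ℝ) × ℝ) =
      G⁻¹ • ((z + t • d, 1) : (ℝ × ℝ) × ℝ) := by
    simp only [Prod.smul_mk, Prod.mk_add_mk, smul_eq_mul, mul_zero, add_zero, smul_add, smul_smul]
  rw [e3, mem_chart hK _ (by positivity), inv_mul_le_iff₀ hG, mul_one] at h1
  exact h1

/-- locally uniform version -/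
theorem dirBound {A B : ℝ × ℝ → ℝ × ℝ → ℝ} (hK : SB K) (h : Ctr K A B) {D : ℝ × ℝ} (hD : D ≠ 0)
    (hB : 0 < B 0 D) : ∃ ε : ℝ, 0 < ε ∧ ∃ t₀ : ℝ, 0 < t₀ ∧ ∃ M : ℝ, 0 ≤ M ∧
      ∀ z ∈ ball (0 : ℝ × ℝ) ε, ∀ t : ℝ, 0 ≤ t → t ≤ t₀ → qf K (z + t • D) ≤ qf K z + M * t := by
  have hcurve : ContinuousAt (fun z : ℝ × ℝ => ((z, D) : (ℝ × ℝ) × (ℝ × ℝ))) 0 := by fun_prop
  have cA : ContinuousAt (fun z => A z D) 0 :=
    ContinuousAt.comp (f := fun z : ℝ × ℝ => ((z, D) : (ℝ × ℝ) × (ℝ × ℝ))) (x := 0)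
      (g := fun p : (ℝ × ℝ) × (ℝ × ℝ) => A p.1 p.2) (h.contA hK hD) hcurve
  have cB : ContinuousAt (fun z => B z D) 0 :=
    ContinuousAt.comp (f := fun z : ℝ × ℝ => ((z, D) : (ℝ × ℝ) × (ℝ × ℝ))) (x := 0)
      (g := fun p : (ℝ × ℝ) × (ℝ × ℝ) => B p.1 p.2) (h.contB hK hD) hcurve
  have cQ : ContinuousAt (qf K) 0 := (qf_continuous hK).continuousAt
  have hq0 := qf_pos hK 0
  set b₀ := B 0 D / 2 with hb₀
  set a₀ := |A 0 D| + 1 with ha₀
  set q₀ := qf K 0 / 2 with hq₀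
  set q₁ := qf K 0 + 1 with hq₁
  have hb₀pos : 0 < b₀ := by positivity
  have ha₀pos : 0 < a₀ := by positivity
  have hq₀pos : 0 < q₀ := by positivity
  have hq₁pos : 0 < q₁ := by positivity
  have e1 : ∀ᶠ z in 𝓝 (0 : ℝ × ℝ), b₀ < B z D :=
    continuousAt_const.eventually_lt cB (by rw [hb₀]; linarith)
  have e2 : ∀ᶠ z in 𝓝 (0 : ℝ × ℝ), |A z D| < a₀ :=
    cA.abs.eventually_lt continuousAt_const (by rw [ha₀]; linarith)
  have e3 : ∀ᶠ z in 𝓝 (0 : ℝ × ℝ), q₀ < qf K z :=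
    continuousAt_const.eventually_lt cQ (by rw [hq₀]; linarith)
  have e4 : ∀ᶠ z in 𝓝 (0 : ℝ × ℝ), qf K z < q₁ :=
    cQ.eventually_lt continuousAt_const (by rw [hq₁]; linarith)
  obtain ⟨ε, hε, hball⟩ := Metric.eventually_nhds_iff_ball.1 (e1.and (e2.and (e3.and e4)))
  set M := (1 + 2 * a₀ * q₁) / (2 * b₀) with hM
  have hMpos : 0 < M := by positivity
  refine ⟨ε, hε, min (q₀ / (2 * M)) (b₀ * q₀), by positivity, M, hMpos.le, ?_⟩
  intro z hz t ht ht₀
  obtain ⟨h1, h2, h3, h4⟩ := hball z hz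
  have ht1 : t ≤ q₀ / (2 * M) := ht₀.trans (min_le_left _ _)
  have ht2 : t ≤ b₀ * q₀ := ht₀.trans (min_le_right _ _)
  have hBpos : 0 < B z D := hb₀pos.trans h1
  have hQpos := qf_pos hK z
  have hbound : |(1 - 2 * A z D * qf K z) / (2 * B z D)| ≤ M := by
    rw [abs_div, abs_of_pos (show 0 < 2 * B z D by positivity), hM]
    apply div_le_div₀ (by positivity) _ (by positivity) (by linarith)
    have : |1 - 2 * A z D * qf K z| ≤ 1 + 2 * |A z D| * qf K z := by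
      have h5 : |2 * A z D * qf K z| = 2 * |A z D| * qf K z := by
        rw [abs_mul, abs_mul, abs_of_pos hQpos]; norm_num
      calc |1 - 2 * A z D * qf K z| ≤ |(1 : ℝ)| + |2 * A z D * qf K z| := abs_sub _ _
        _ = _ := by rw [h5, abs_one]
    refine this.trans ?_
    have : |A z D| * qf K z ≤ a₀ * q₁ := by
      apply mul_le_mul h2.le h4.le hQpos.le ha₀pos.le
    linarith
  set G := qf K z + t * (1 - 2 * A z D * qf K z) / (2 * B z D) with hG
  have hGe : G = qf K z + t * ((1 - 2 * A z D * qf K z) / (2 * B z D)) := by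
    rw [hG, mul_div_assoc]
  have habs := abs_le.1 hbound
  have htM : t * M ≤ q₀ / 2 := by
    have := mul_le_mul_of_nonneg_right ht1 hMpos.le
    calc t * M ≤ q₀ / (2 * M) * M := this
      _ = q₀ / 2 := by field_simp
  have hG1 : G ≤ qf K z + M * t := by
    rw [hGe]
    have := mul_le_mul_of_nonneg_left habs.2 ht
    linarith
  have hG2 : q₀ / 2 ≤ G := by
    rw [hGe]
    have := mul_le_mul_of_nonneg_left habs.1 ht
    linarith
  have hGpos : 0 < G := by linarith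
  refine (qf_le hK (h.cen z D) hBpos ht hGpos hG ?_).trans hG1
  have h6 : b₀ * q₀ ≤ B z D * (2 * G) := by
    apply mul_le_mul h1.le (by linarith) hq₀pos.le hBpos.le
  linarith

theorem d1_ne : ((-1, 0) : ℝ × ℝ) ≠ 0 := by
  intro h; have := congrArg Prod.fst h; simp at this
theorem d2_ne : ((0, -1) : ℝ × ℝ) ≠ 0 := by
  intro h; have := congrArg Prod.snd h; simp at this
theorem d3_ne : ((1, 1) : ℝ × ℝ) ≠ 0 := by
  intro h; have := congrArg Prod.fst h; simp at this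

theorem exists_lip {A B : ℝ × ℝ → ℝ × ℝ → ℝ} (hK : SB K) (h : Ctr K A B)
    (h1 : 0 < B 0 (-1, 0)) (h2 : 0 < B 0 (0, -1)) (h3 : 0 < B 0 (1, 1)) :
    ∃ r : ℝ, 0 < r ∧ ∃ C : ℝ≥0, LipschitzOnWith C (qf K) (ball 0 r) := by
  obtain ⟨ε1, hε1, t1, ht1, M1, hM1, b1⟩ := dirBound hK h d1_ne h1
  obtain ⟨ε2, hε2, t2, ht2, M2, hM2, b2⟩ := dirBound hK h d2_ne h2
  obtain ⟨ε3, hε3, t3, ht3, M3, hM3, b3⟩ := dirBound hK h d3_ne h3
  apply lip_of_dirs (ε := min ε1 (min ε2 ε3)) (t₀ := min t1 (min t2 t3)) (M := max M1 (max M2 M3))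
    (by positivity) (by positivity) (le_max_of_le_left hM1)
  · intro z hz t ht0 ht
    refine (b1 z (ball_subset_ball (min_le_left _ _) hz) t ht0 (ht.trans (min_le_left _ _))).trans ?_
    gcongr
    exact le_max_left _ _
  · intro z hz t ht0 ht
    refine (b2 z (ball_subset_ball ((min_le_right _ _).trans (min_le_left _ _)) hz) t ht0
      (ht.trans ((min_le_right _ _).trans (min_le_left _ _)))).trans ?_
    gcongr
    exact (le_max_left _ _).trans (le_max_right _ _)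
  · intro z hz t ht0 ht
    refine (b3 z (ball_subset_ball ((min_le_right _ _).trans (min_le_right _ _)) hz) t ht0
      (ht.trans ((min_le_right _ _).trans (min_le_right _ _)))).trans ?_
    gcongr
    exact (le_max_right _ _).trans (le_max_right _ _)

theorem exists_lip_neg {A B : ℝ × ℝ → ℝ × ℝ → ℝ} (hK : SB K) (h : Ctr K A B)
    (h1 : 0 < B 0 (-1, 0)) (h2 : 0 < B 0 (0, -1)) (h3 : 0 < B 0 (1, 1)) :
    ∃ r : ℝ, 0 < r ∧ ∃ C : ℝ≥0, LipschitzOnWith C (qf (-K)) (ball 0 r) := by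
  have hneg : ∀ {d : ℝ × ℝ}, d ≠ 0 → 0 < B 0 d → 0 < -B 0 (-d) := by
    intro d hd hB
    rw [(h.negd hK hd).2, neg_neg]; exact hB
  obtain ⟨ε1, hε1, t1, ht1, M1, hM1, b1⟩ :=
    dirBound hK.neg h.neg (D := -(-1, 0)) (neg_ne_zero.2 d1_ne) (hneg d1_ne h1)
  obtain ⟨ε2, hε2, t2, ht2, M2, hM2, b2⟩ :=
    dirBound hK.neg h.neg (D := -(0, -1)) (neg_ne_zero.2 d2_ne) (hneg d2_ne h2)
  obtain ⟨ε3, hε3, t3, ht3, M3, hM3, b3⟩ :=
    dirBound hK.neg h.neg (D := -(1, 1)) (neg_ne_zero.2 d3_ne) (hneg d3_ne h3)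
  have hL : ∃ r : ℝ, 0 < r ∧ ∃ C : ℝ≥0, LipschitzOnWith C (fun z => qf (-K) (-z)) (ball 0 r) := by
    apply lip_of_dirs (ε := min ε1 (min ε2 ε3)) (t₀ := min t1 (min t2 t3))
      (M := max M1 (max M2 M3)) (by positivity) (by positivity) (le_max_of_le_left hM1)
    · intro z hz t ht0 ht
      have hz' : -z ∈ ball (0 : ℝ × ℝ) (min ε1 (min ε2 ε3)) := by
        rw [mem_ball_zero_iff] at hz ⊢; rwa [norm_neg]
      have := b1 (-z) (ball_subset_ball (min_le_left _ _) hz') t ht0 (ht.trans (min_le_left _ _))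
      rw [show -z + t • -((-1, 0) : ℝ × ℝ) = -(z + t • (-1, 0)) by module] at this
      refine this.trans ?_
      gcongr
      exact le_max_left _ _
    · intro z hz t ht0 ht
      have hz' : -z ∈ ball (0 : ℝ × ℝ) (min ε1 (min ε2 ε3)) := by
        rw [mem_ball_zero_iff] at hz ⊢; rwa [norm_neg]
      have := b2 (-z) (ball_subset_ball ((min_le_right _ _).trans (min_le_left _ _)) hz') t ht0
        (ht.trans ((min_le_right _ _).trans (min_le_left _ _)))
      rw [show -z + t • -((0, -1) : ℝ × ℝ) = -(z + t • (0, -1)) by module] at this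
      refine this.trans ?_
      gcongr
      exact (le_max_left _ _).trans (le_max_right _ _)
    · intro z hz t ht0 ht
      have hz' : -z ∈ ball (0 : ℝ × ℝ) (min ε1 (min ε2 ε3)) := by
        rw [mem_ball_zero_iff] at hz ⊢; rwa [norm_neg]
      have := b3 (-z) (ball_subset_ball ((min_le_right _ _).trans (min_le_right _ _)) hz') t ht0
        (ht.trans ((min_le_right _ _).trans (min_le_right _ _)))
      rw [show -z + t • -((1, 1) : ℝ × ℝ) = -(z + t • (1, 1)) by module] at this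
      refine this.trans ?_
      gcongr
      exact (le_max_right _ _).trans (le_max_right _ _)
  obtain ⟨r, hr, C, hC⟩ := hL
  refine ⟨r, hr, C, ?_⟩
  intro x hx y hy
  have hx' : -x ∈ ball (0 : ℝ × ℝ) r := by rw [mem_ball_zero_iff] at hx ⊢; rwa [norm_neg]
  have hy' : -y ∈ ball (0 : ℝ × ℝ) r := by rw [mem_ball_zero_iff] at hy ⊢; rwa [norm_neg]
  have := hC hx' hy'
  simp only [neg_neg] at this
  rwa [edist_neg_neg] at this

/-- relation between the two radial functions on a line whose plane has its centre on the axis -/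
theorem qf_reflect (hK : SB K) {z d : ℝ × ℝ} {a : ℝ} (h : Cen K (z, 1) (d, 0) a 0) (t : ℝ)
    (hpos : 0 < 1 - 2 * a * qf K (z + t • d)) :
    qf (-K) (z + (t / (1 - 2 * a * qf K (z + t • d))) • d) =
      qf K (z + t • d) / (1 - 2 * a * qf K (z + t • d)) := by
  set Q := qf K (z + t • d) with hQ
  have hQpos : 0 < Q := qf_pos hK _
  set h₀ := (1 - 2 * a * Q) / Q with hh₀
  have hh₀pos : 0 < h₀ := by positivity
  set t' := t / (1 - 2 * a * Q) with ht'
  have eX : Q⁻¹ • ((z + t • d, 1) : (ℝ × ℝ) × ℝ) =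
      Q⁻¹ • ((z, 1) : (ℝ × ℝ) × ℝ) + (Q⁻¹ * t) • ((d, 0) : (ℝ × ℝ) × ℝ) := by
    simp only [Prod.smul_mk, Prod.mk_add_mk, smul_eq_mul, mul_zero, add_zero, smul_add, smul_smul]
  have eP : (2 * a - Q⁻¹) • ((z, 1) : (ℝ × ℝ) × ℝ) + (2 * 0 - Q⁻¹ * t) • ((d, 0) : (ℝ × ℝ) × ℝ) =
      -(h₀ • ((z + t' • d, 1) : (ℝ × ℝ) × ℝ)) := by
    have e1 : 2 * a - Q⁻¹ = -h₀ := by rw [hh₀]; field_simp; ring
    have e2 : 2 * 0 - Q⁻¹ * t = -(h₀ * t') := by
      have hne := hpos.ne'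
      have e3 : (1 - 2 * a * Q) / Q * (t / (1 - 2 * a * Q)) = Q⁻¹ * t := by
        rw [div_mul_div_comm, mul_comm Q, mul_div_mul_left _ _ hne, inv_mul_eq_div]
      rw [hh₀, ht', e3]; ring
    rw [e1, e2]
    simp only [Prod.smul_mk, Prod.mk_add_mk, smul_eq_mul, mul_zero, add_zero, smul_add, smul_smul,
      Prod.neg_mk, neg_smul, mul_one, neg_add, neg_zero]
  have hX : Q⁻¹ • ((z, 1) : (ℝ × ℝ) × ℝ) + (Q⁻¹ * t) • ((d, 0) : (ℝ × ℝ) × ℝ) ∈ K := by
    rw [← eX, mem_chart hK _ (by positivity), inv_mul_cancel₀ hQpos.ne']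
  have h1 := h _ _ hX
  rw [eP, ← Set.mem_neg, mem_chart hK.neg _ hh₀pos.le] at h1
  have h2 := h.not_interior (α := Q⁻¹) (β := Q⁻¹ * t) (by
    intro η hη
    rw [← eX]
    exact out_chart hK (z + t • d) η hη)
  rw [eP] at h2
  have h3 : ¬ (h₀ * qf (-K) (z + t' • d) < 1) := by
    intro hlt
    apply h2
    have := interior_chart hK.neg (z + t' • d) hh₀pos.le hlt
    rw [interior_neg', Set.mem_neg] at this
    exact this
  have h4 : h₀ * qf (-K) (z + t' • d) = 1 := le_antisymm h1 (not_lt.1 h3)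
  have h5 : qf (-K) (z + t' • d) = h₀⁻¹ := by
    exact eq_inv_of_mul_eq_one_right h4
  rw [h5, hh₀, inv_div]

/-- the height of a centre on the axis -/
theorem axis_height (hK : SB K) {z d : ℝ × ℝ} {a : ℝ} (h : Cen K (z, 1) (d, 0) a 0) :
    1 - 2 * a * qf K z = qf K z / qf (-K) z := by
  have hx := chart_ne z
  have hQ := qf_pos hK z
  have hQ' := qf_pos hK.neg z
  have r1 : rad K (z, 1) = (qf K z)⁻¹ := by unfold qf; rw [inv_inv]
  have r2 : rad K (-(z, 1)) = (qf (-K) z)⁻¹ := by unfold qf; rw [inv_inv, rad_neg]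
  have h1 := h (rad K (z, 1)) 0 (by rw [zero_smul, add_zero]; exact hK.rad_smul_mem hx)
  have h2 := h (-rad K (-(z, 1))) 0 (by
    rw [zero_smul, add_zero]
    have := hK.rad_smul_mem (neg_ne_zero.2 hx)
    rwa [smul_neg, ← neg_smul] at this)
  rw [mul_zero, sub_zero, zero_smul, add_zero, hK.line_mem_iff hx] at h1 h2
  rw [r1, r2] at h1 h2
  have h3 : 2 * a = (qf K z)⁻¹ - (qf (-K) z)⁻¹ := by linarith [h1.1, h2.2]
  rw [h3]
  field_simp
  ring

/-- The ratio of the radial functions has zero derivative in axis directions. -/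
theorem ratio_deriv (hK : SB K) {z d : ℝ × ℝ} {a : ℝ} (h : Cen K (z, 1) (d, 0) a 0)
    (h1 : DifferentiableAt ℝ (qf K) z) (h2 : DifferentiableAt ℝ (qf (-K)) z) :
    fderiv ℝ (fun w => qf (-K) w / qf K w) z d = 0 := by
  have hQ := qf_pos hK z
  have hQ' := qf_pos hK.neg z
  have hline : HasDerivAt (fun t : ℝ => z + t • d) d 0 := by
    have := ((hasDerivAt_id (0 : ℝ)).smul_const d).const_add z
    simpa using this
  have z0 : z + (0 : ℝ) • d = z := by rw [zero_smul, add_zero]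
  set q := fderiv ℝ (qf K) z d with hq
  set q' := fderiv ℝ (qf (-K)) z d with hq'
  have hφ : HasDerivAt (fun t : ℝ => qf K (z + t • d)) q 0 := by
    have h3 : HasFDerivAt (qf K) (fderiv ℝ (qf K) z) (z + (0 : ℝ) • d) := by
      rw [z0]; exact h1.hasFDerivAt
    exact h3.comp_hasDerivAt 0 hline
  have hψ : HasDerivAt (fun t : ℝ => qf (-K) (z + t • d)) q' 0 := by
    have h3 : HasFDerivAt (qf (-K)) (fderiv ℝ (qf (-K)) z) (z + (0 : ℝ) • d) := by
      rw [z0]; exact h2.hasFDerivAt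
    exact h3.comp_hasDerivAt 0 hline
  have hax := axis_height hK h
  have hpos : 0 < 1 - 2 * a * qf K z := by rw [hax]; positivity
  set m := 1 - 2 * a * qf K z with hm
  -- denominators
  have hden : HasDerivAt (fun t : ℝ => 1 - 2 * a * qf K (z + t • d)) (-(2 * a * q)) 0 := by
    have := (hφ.const_mul (2 * a)).const_sub 1
    exact this
  have hτ : HasDerivAt (fun t : ℝ => t / (1 - 2 * a * qf K (z + t • d))) (1 / m) 0 := by
    have h3 := (hasDerivAt_id (0 : ℝ)).fun_div hden (by simp only [z0]; exact hpos.ne')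
    simp only [id_eq, z0, ← hm] at h3
    have e : (1 * m - 0 * -(2 * a * q)) / m ^ 2 = 1 / m := by field_simp; ring
    rw [e] at h3
    exact h3
  have hrhs : HasDerivAt (fun t : ℝ => qf K (z + t • d) / (1 - 2 * a * qf K (z + t • d)))
      (q / m ^ 2) 0 := by
    have h3 := hφ.fun_div hden (by simp only [z0]; exact hpos.ne')
    simp only [z0, ← hm] at h3
    have e : (q * m - qf K z * -(2 * a * q)) = q := by rw [hm]; ring
    rw [e] at h3
    exact h3
  have hlhs : HasDerivAt (fun t : ℝ => qf (-K) (z + (t / (1 - 2 * a * qf K (z + t • d))) • d))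
      (q' * (1 / m)) 0 := by
    have h3 : HasDerivAt (fun t : ℝ => qf (-K) (z + t • d)) q'
        ((0 : ℝ) / (1 - 2 * a * qf K (z + (0 : ℝ) • d))) := by
      rw [zero_div]; exact hψ
    exact HasDerivAt.comp (0 : ℝ) (h₂ := fun t : ℝ => qf (-K) (z + t • d)) h3 hτ
  have hev : (fun t : ℝ => qf (-K) (z + (t / (1 - 2 * a * qf K (z + t • d))) • d)) =ᶠ[𝓝 0]
      (fun t : ℝ => qf K (z + t • d) / (1 - 2 * a * qf K (z + t • d))) := by
    have h4 : ∀ᶠ t : ℝ in 𝓝 0, 0 < 1 - 2 * a * qf K (z + t • d) :=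
      continuousAt_const.eventually_lt hden.continuousAt (by simp only [z0]; exact hpos)
    filter_upwards [h4] with t ht
    exact qf_reflect hK h t ht
  have heq : q' * (1 / m) = q / m ^ 2 := (hlhs.congr_of_eventuallyEq hev.symm).unique hrhs
  have heq2 : q' * qf K z = q * qf (-K) z := by
    have h5 : q' * m = q := by
      field_simp at heq
      exact heq
    rw [← h5, hax]
    field_simp
  have hdiff : DifferentiableAt ℝ (fun w => qf (-K) w / qf K w) z := by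
    simp only [div_eq_mul_inv]
    exact h2.mul (h1.inv hQ.ne')
  have hΛ : HasDerivAt (fun t : ℝ => qf (-K) (z + t • d) / qf K (z + t • d))
      (fderiv ℝ (fun w => qf (-K) w / qf K w) z d) 0 := by
    have h3 : HasFDerivAt (fun w => qf (-K) w / qf K w)
        (fderiv ℝ (fun w => qf (-K) w / qf K w) z) (z + (0 : ℝ) • d) := by
      rw [z0]; exact hdiff.hasFDerivAt
    exact h3.comp_hasDerivAt 0 hline
  have hΛ2 := hψ.fun_div hφ (by simp only [z0]; exact hQ.ne')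
  rw [hΛ.unique hΛ2]
  simp only [z0]
  rw [heq2]
  ring

end Pool.Agent.Lib.MP_f7db8a
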