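import Pool.Agent.Lib.MP_f7db8a.Star

set_option autoImplicit false
set_option linter.unusedSectionVars false

namespace Pool.Agent.Lib.MP_f7db8a

open Module Set

theorem pair_eq_of_pow {k : ℕ} (hk : 2 ≤ k) {a b c d : ℝ} (ha : 0 ≤ a) (hb : 0 ≤ b) (hc : 0 ≤ c)
    (hd : 0 ≤ d) (h1 : a + b = c + d) (h2 : a ^ k + b ^ k = c ^ k + d ^ k) :
    (c = a ∧ d = b) ∨ (c = b ∧ d = a) := by
  -- strict convexity: if one pair is strictly inside the other, power sums differ
  have hconv : StrictConvexOn ℝ (Ici (0 : ℝ)) fun x : ℝ => x ^ k := strictConvexOn_pow hk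
  have key : ∀ p q r s : ℝ, 0 ≤ s → s ≤ r → s < q → q ≤ p → p < r → p + q = r + s →
      p ^ k + q ^ k < r ^ k + s ^ k := by
    intro p q r s hs hsr hsq hqp hpr hsum
    have hrs : 0 < r - s := by linarith
    set t : ℝ := (p - s) / (r - s) with ht
    have ht0 : 0 < t := by apply div_pos <;> linarith
    have ht1 : t < 1 := by rw [ht, div_lt_one hrs]; linarith
    have hp : p = t * r + (1 - t) * s := by rw [ht]; field_simp; ring
    have hq : q = (1 - t) * r + t * s := by
      have : q = r + s - p := by linarith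
      rw [this, hp]; ring
    have hr0 : (0 : ℝ) ≤ r := hs.trans hsr
    have hne : r ≠ s := by intro h; linarith
    have e1 := hconv.2 (show r ∈ Ici (0 : ℝ) from hr0) (show s ∈ Ici (0 : ℝ) from hs) hne ht0
      (show 0 < 1 - t by linarith) (by ring)
    have e2 := hconv.2 (show r ∈ Ici (0 : ℝ) from hr0) (show s ∈ Ici (0 : ℝ) from hs) hne
      (show 0 < 1 - t by linarith) ht0 (by ring)
    simp only [smul_eq_mul] at e1 e2
    rw [← hp] at e1
    rw [← hq] at e2
    nlinarith
  rcases le_total b a with hab | hab <;> rcases le_total d c with hcd | hcd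
  · rcases lt_trichotomy a c with h | h | h
    · exact absurd (key a b c d hd hcd (by linarith) hab h h1) (by rw [h2]; exact lt_irrefl _)
    · exact Or.inl ⟨h.symm, by linarith⟩
    · exact absurd (key c d a b hb hab (by linarith) hcd h h1.symm) (by rw [h2]; exact lt_irrefl _)
  · rcases lt_trichotomy a d with h | h | h
    · exact absurd (key a b d c hc hcd (by linarith) hab h (by linarith))
        (by rw [h2, add_comm]; exact lt_irrefl _)
    · exact Or.inr ⟨by linarith, h.symm⟩
    · exact absurd (key d c a b hb hab (by linarith) hcd h (by linarith))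
        (by rw [h2, add_comm]; exact lt_irrefl _)
  · rcases lt_trichotomy b c with h | h | h
    · exact absurd (key b a c d hd hcd (by linarith) hab h (by linarith))
        (by rw [← h2, add_comm]; exact lt_irrefl _)
    · exact Or.inr ⟨h.symm, by linarith⟩
    · exact absurd (key c d b a ha hab (by linarith) hcd h (by linarith))
        (by rw [← h2, add_comm]; exact lt_irrefl _)
  · rcases lt_trichotomy b d with h | h | h
    · exact absurd (key b a d c hc hcd (by linarith) hab h (by linarith))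
        (by rw [add_comm, h2, add_comm]; exact lt_irrefl _)
    · exact Or.inl ⟨by linarith, h.symm⟩
    · exact absurd (key d c b a ha hab (by linarith) hcd h (by linarith))
        (by rw [add_comm, ← h2, add_comm]; exact lt_irrefl _)

section dicho

universe u

variable {E : Type u} [NormedAddCommGroup E] [InnerProductSpace ℝ E] [FiniteDimensional ℝ E]

/-- pointwise swap property of the pairs `{±p}` -/
theorem swap_of_rad {K L : Set E} (hK : SB K) (hL : SB L)
    (h : ∀ x : E, x ≠ 0 → (rad L x = rad K x ∧ rad L (-x) = rad K (-x)) ∨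
      (rad L x = rad K (-x) ∧ rad L (-x) = rad K x)) (p : E) :
    ((p ∈ L ↔ p ∈ K) ∧ (-p ∈ L ↔ -p ∈ K)) ∨ ((p ∈ L ↔ -p ∈ K) ∧ (-p ∈ L ↔ p ∈ K)) := by
  rcases eq_or_ne p 0 with rfl | hp
  · left
    simp [hK.zero_mem, hL.zero_mem]
  · have hp' : -p ≠ 0 := neg_ne_zero.2 hp
    have e1 : p ∈ L ↔ 1 ≤ rad L p := by
      have := hL.smul_mem_iff hp zero_le_one; rwa [one_smul] at this
    have e2 : -p ∈ L ↔ 1 ≤ rad L (-p) := by
      have := hL.smul_mem_iff hp' zero_le_one; rwa [one_smul] at this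
    have e3 : p ∈ K ↔ 1 ≤ rad K p := by
      have := hK.smul_mem_iff hp zero_le_one; rwa [one_smul] at this
    have e4 : -p ∈ K ↔ 1 ≤ rad K (-p) := by
      have := hK.smul_mem_iff hp' zero_le_one; rwa [one_smul] at this
    rw [e1, e2, e3, e4]
    rcases h p hp with ⟨a, b⟩ | ⟨a, b⟩
    · left; rw [a, b]; exact ⟨Iff.rfl, Iff.rfl⟩
    · right; rw [a, b]; exact ⟨Iff.rfl, Iff.rfl⟩

open Classical in
/-- **Step 3.** In each section: `L = K` or `L = -K`. -/
theorem section_dicho {K L : Set E} (hK : SB K) (S : Submodule ℝ E)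
    (hsw : ∀ p : E, ((p ∈ L ↔ p ∈ K) ∧ (-p ∈ L ↔ -p ∈ K)) ∨
      ((p ∈ L ↔ -p ∈ K) ∧ (-p ∈ L ↔ p ∈ K)))
    {y : E} (hy : y ∈ S) (h : ∀ p ∈ S, (p ∈ L ↔ p - y ∈ K)) :
    (∀ p ∈ S, (p ∈ L ↔ p ∈ K)) ∨ (∀ p ∈ S, (p ∈ L ↔ -p ∈ K)) := by
  rcases eq_or_ne y 0 with hy0 | hy0
  · left
    intro p hp
    rw [h p hp, hy0, sub_zero]
  · right
    let χ : E → ℤ := fun p => if p ∈ K then 1 else 0
    let φ : E → ℤ := fun p => χ p - χ (-p - y)
    have hstep : ∀ p ∈ S, φ (p - y) = φ p := by
      intro p hp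
      have h1 := h p hp
      have h2 := h (-p) (S.neg_mem hp)
      have h3 : -(p - y) - y = -p := by abel
      change χ (p - y) - χ (-(p - y) - y) = χ p - χ (-p - y)
      rw [h3]
      simp only [χ]
      rcases hsw p with ⟨a, b⟩ | ⟨a, b⟩
      · have e1 : (p - y ∈ K ↔ p ∈ K) := h1.symm.trans a
        have e2 : (-p - y ∈ K ↔ -p ∈ K) := h2.symm.trans b
        simp only [e1, e2]
      · have e1 : (p - y ∈ K ↔ -p ∈ K) := h1.symm.trans a
        have e2 : (-p - y ∈ K ↔ p ∈ K) := h2.symm.trans b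
        simp only [e1, e2]; ring
    have hiter : ∀ (n : ℕ) (p : E), p ∈ S → φ (p - (n : ℝ) • y) = φ p := by
      intro n
      induction n with
      | zero => intro p _; simp
      | succ n ih =>
        intro p hp
        have e : p - ((n + 1 : ℕ) : ℝ) • y = (p - y) - (n : ℝ) • y := by
          push_cast; rw [add_smul, one_smul]; abel
        rw [e, ih (p - y) (S.sub_mem hp hy), hstep p hp]
    have hzero : ∀ p ∈ S, φ p = 0 := by
      intro p hp
      obtain ⟨R, hR⟩ := hK.compact.isBounded.exists_norm_le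
      have hypos : 0 < ‖y‖ := norm_pos_iff.2 hy0
      obtain ⟨n, hn⟩ := exists_nat_gt ((R + ‖p‖) / ‖y‖ + 1)
      have hn' : R + ‖p‖ + ‖y‖ < n * ‖y‖ := by
        have : (R + ‖p‖) / ‖y‖ < n - 1 := by linarith
        rw [div_lt_iff₀ hypos] at this
        linarith
      rw [← hiter n p hp]
      have a1 : p - (n : ℝ) • y ∉ K := by
        intro hmem
        have := hR _ hmem
        have h2 : ‖(n : ℝ) • y‖ ≤ ‖p - (n : ℝ) • y‖ + ‖p‖ := by
          calc ‖(n : ℝ) • y‖ = ‖p - (p - (n : ℝ) • y)‖ := by congr 1; abel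
            _ ≤ ‖p‖ + ‖p - (n : ℝ) • y‖ := norm_sub_le _ _
            _ = _ := by ring
        rw [norm_smul, Real.norm_natCast] at h2
        linarith
      have a2 : -(p - (n : ℝ) • y) - y ∉ K := by
        intro hmem
        have := hR _ hmem
        have h2 : ‖(n : ℝ) • y‖ ≤ ‖-(p - (n : ℝ) • y) - y‖ + ‖p‖ + ‖y‖ := by
          calc ‖(n : ℝ) • y‖ = ‖(-(p - (n : ℝ) • y) - y) + (p + y)‖ := by congr 1; abel
            _ ≤ ‖-(p - (n : ℝ) • y) - y‖ + ‖p + y‖ := norm_add_le _ _
            _ ≤ _ := by have := norm_add_le p y; linarith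
        rw [norm_smul, Real.norm_natCast] at h2
        linarith
      change χ _ - χ _ = 0
      simp only [χ, a1, a2, if_false, sub_self]
    have hsym : ∀ p ∈ S, (p ∈ K ↔ -p - y ∈ K) := by
      intro p hp
      have := hzero p hp
      simp only [φ, χ] at this
      by_cases c1 : p ∈ K <;> by_cases c2 : -p - y ∈ K
      · exact ⟨fun _ => c2, fun _ => c1⟩
      · simp [c1, c2] at this
      · simp [c1, c2] at this
      · exact ⟨fun h => absurd h c1, fun h => absurd h c2⟩
    intro p hp
    rw [h p hp, hsym (p - y) (S.sub_mem hp hy)]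
    have h3 : -(p - y) - y = -p := by abel
    rw [h3]

theorem finrank_comap_general {V W : Type*} [AddCommGroup V] [Module ℝ V] [FiniteDimensional ℝ V]
    [AddCommGroup W] [Module ℝ W] (f : V →ₗ[ℝ] W) (hf : Function.Surjective f)
    (T' : Submodule ℝ W) :
    finrank ℝ (T'.comap f) = finrank ℝ T' + finrank ℝ (LinearMap.ker f) := by
  have h1 := (f.domRestrict (T'.comap f)).finrank_range_add_finrank_ker
  have h2 : LinearMap.range (f.domRestrict (T'.comap f)) = T' := by
    rw [LinearMap.range_domRestrict, Submodule.map_comap_eq, LinearMap.range_eq_top.2 hf,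
      top_inf_eq]
  have h3 : finrank ℝ (LinearMap.ker (f.domRestrict (T'.comap f))) =
      finrank ℝ (LinearMap.ker f) := by
    rw [LinearMap.ker_domRestrict]
    have hle : LinearMap.ker f ≤ T'.comap f := by
      intro x hx
      rw [Submodule.mem_comap, LinearMap.mem_ker.1 hx]
      exact T'.zero_mem
    exact LinearEquiv.finrank_eq (Submodule.comapSubtypeEquivOfLe hle)
  rw [h2, h3] at h1
  exact h1.symm

/-- Every subspace of dimension `≤ k` is contained in one of dimension `k`. -/
theorem exists_finrank_eq {V : Type*} [AddCommGroup V] [Module ℝ V] [FiniteDimensional ℝ V]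
    (N : Submodule ℝ V) {k : ℕ} (h1 : finrank ℝ N ≤ k) (h2 : k ≤ finrank ℝ V) :
    ∃ S : Submodule ℝ V, N ≤ S ∧ finrank ℝ S = k := by
  have hq : finrank ℝ (V ⧸ N) + finrank ℝ N = finrank ℝ V := N.finrank_quotient_add_finrank
  obtain ⟨v, hv⟩ := exists_linearIndependent_of_le_finrank (R := ℝ) (M := V ⧸ N)
    (n := k - finrank ℝ N) (by omega)
  refine ⟨(Submodule.span ℝ (Set.range v)).comap N.mkQ, ?_, ?_⟩
  · intro x hx
    rw [Submodule.mem_comap]
    have : N.mkQ x = 0 := by simpa using hx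
    rw [this]
    exact Submodule.zero_mem _
  · rw [finrank_comap_general N.mkQ (Submodule.mkQ_surjective N), finrank_span_eq_card hv,
      Submodule.ker_mkQ]
    simp only [Fintype.card_fin]
    omega

/-- **Step 4.** -/
theorem global_dicho {k : ℕ} (hk : 2 ≤ k) (hkn : k ≤ finrank ℝ E) {K L : Set E}
    (h : ∀ S : Submodule ℝ E, finrank ℝ S = k →
      (∀ p ∈ S, (p ∈ L ↔ p ∈ K)) ∨ (∀ p ∈ S, (p ∈ L ↔ -p ∈ K))) :
    (∀ p : E, (p ∈ L ↔ p ∈ K)) ∨ (∀ p : E, (p ∈ L ↔ -p ∈ K)) := by
  by_contra hcon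
  push Not at hcon
  obtain ⟨⟨p, hp⟩, ⟨q, hq⟩⟩ := hcon
  have hN : finrank ℝ (Submodule.span ℝ ({p, q} : Set E)) ≤ k := by
    classical
    have h1 := finrank_span_finset_le_card (R := ℝ) ({p, q} : Finset E)
    have h2 : (({p, q} : Finset E) : Set E) = {p, q} := by push_cast; rfl
    rw [h2] at h1
    exact h1.trans ((Finset.card_le_two).trans hk)
  obtain ⟨S, hNS, hS⟩ := exists_finrank_eq _ hN hkn
  have hpS : p ∈ S := hNS (Submodule.subset_span (by simp))
  have hqS : q ∈ S := hNS (Submodule.subset_span (by simp))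
  rcases h S hS with h' | h'
  · have := h' p hpS; tauto
  · have := h' q hqS; tauto

end dicho

end Pool.Agent.Lib.MP_f7db8a
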