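import Pool.Agent.Lib.MP_f7db8a.Main

set_option autoImplicit false
set_option linter.unusedSectionVars false

/-!
# Reduction of the false centre property to `ℝ³`
-/

namespace Pool.Agent.Lib.MP_f7db8a

open Module Set
open scoped RealInnerProductSpace

universe u

section sym

variable {E : Type u} [NormedAddCommGroup E] [InnerProductSpace ℝ E] [FiniteDimensional ℝ E]

/-- symmetric about `c` -/
def SymAt (A : Set E) (c : E) : Prop := ∀ p ∈ A, (2 : ℝ) • c - p ∈ A

/-- all `k`-sections are centrally symmetric -/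
def SymSec (k : ℕ) (K : Set E) : Prop :=
  ∀ S : Submodule ℝ E, finrank ℝ S = k → ∃ c ∈ S, SymAt (K ∩ (S : Set E)) c

/-- midpoint of the range of a linear functional on `A` -/
noncomputable def eta (A : Set E) (ξ : E) : ℝ :=
  (sSup ((fun p => ⟪ξ, p⟫) '' A) + sInf ((fun p => ⟪ξ, p⟫) '' A)) / 2

theorem eta_of_symAt {A : Set E} (hA : IsCompact A) (hne : A.Nonempty) {c : E} (h : SymAt A c)
    (ξ : E) : eta A ξ = ⟪ξ, c⟫ := by
  set I : Set ℝ := (fun p => ⟪ξ, p⟫) '' A with hI
  have hIc : IsCompact I := hA.image (by fun_prop)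
  have hIne : I.Nonempty := hne.image _
  have hsym : ∀ s ∈ I, 2 * ⟪ξ, c⟫ - s ∈ I := by
    rintro _ ⟨p, hp, rfl⟩
    refine ⟨(2 : ℝ) • c - p, h p hp, ?_⟩
    simp only [inner_sub_right, real_inner_smul_right]
  have h1 := hsym _ (hIc.sSup_mem hIne)
  have h2 := hsym _ (hIc.sInf_mem hIne)
  have h3 := csInf_le hIc.bddBelow h1
  have h4 := le_csSup hIc.bddAbove h2
  unfold eta
  rw [← hI]
  linarith

theorem center_unique {A : Set E} (hA : IsCompact A) (hne : A.Nonempty) {c d : E}
    (hc : SymAt A c) (hd : SymAt A d) : c = d := by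
  apply ext_inner_left ℝ
  intro ξ
  rw [← eta_of_symAt hA hne hc ξ, ← eta_of_symAt hA hne hd ξ]

theorem symSec_of_center {K : Set E} (hK : SB K) {S : Submodule ℝ E} {c : E}
    (h : SymAt (K ∩ (S : Set E)) c) : c ∈ S := by
  have h1 := (h 0 ⟨hK.zero_mem, S.zero_mem⟩).2
  rw [sub_zero] at h1
  have h2 := S.smul_mem (1 / 2 : ℝ) h1
  rw [smul_smul] at h2
  norm_num at h2
  exact h2

/-- orthogonal projection along `x` -/
noncomputable def prj (x : E) : E →L[ℝ] ↥((Submodule.span ℝ ({x} : Set E))ᗮ) :=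
  ((Submodule.span ℝ ({x} : Set E))ᗮ).orthogonalProjectionOnto

theorem prj_surjective (x : E) : Function.Surjective (prj x) := by
  intro q
  exact ⟨(q : E), Submodule.orthogonalProjectionOnto_mem_subspace_eq_self q⟩

/-- `prj x` as a linear map -/
noncomputable def prjL (x : E) : E →ₗ[ℝ] ↥((Submodule.span ℝ ({x} : Set E))ᗮ) := prj x

theorem ker_prj (x : E) : LinearMap.ker (prjL x) = Submodule.span ℝ ({x} : Set E) := by
  have h1 : LinearMap.ker (prjL x) = ((Submodule.span ℝ ({x} : Set E))ᗮ)ᗮ :=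
    Submodule.ker_orthogonalProjectionOnto
  rw [h1, Submodule.orthogonal_orthogonal]

theorem prj_eq_zero {x p : E} : prj x p = 0 ↔ p ∈ Submodule.span ℝ ({x} : Set E) := by
  exact (LinearMap.mem_ker (f := prjL x)).symm.trans (SetLike.ext_iff.1 (ker_prj x) p)

theorem finrank_prj {x : E} (hx : x ≠ 0) :
    finrank ℝ ↥((Submodule.span ℝ ({x} : Set E))ᗮ) + 1 = finrank ℝ E := by
  have := Submodule.finrank_add_finrank_orthogonal (Submodule.span ℝ ({x} : Set E))
  rw [finrank_span_singleton hx] at this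
  omega

theorem inner_prj (x : E) (ξ : ↥((Submodule.span ℝ ({x} : Set E))ᗮ)) (p : E) :
    ⟪ξ, prj x p⟫ = ⟪(ξ : E), p⟫ := by
  unfold prj
  rw [Submodule.coe_inner]
  exact Submodule.inner_orthogonalProjectionOnto_eq_of_mem_left ξ p

theorem finrank_comap_prj {x : E} (hx : x ≠ 0)
    (T' : Submodule ℝ ↥((Submodule.span ℝ ({x} : Set E))ᗮ)) :
    finrank ℝ (T'.comap (prjL x)) = finrank ℝ T' + 1 := by
  rw [finrank_comap_general (prjL x) (prj_surjective x), ker_prj, finrank_span_singleton hx]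

/-- sections of the projection are symmetric -/
theorem symSec_prj {k : ℕ} {K : Set E} (h : SymSec (k + 1) K) {x : E} (hx : x ≠ 0) :
    SymSec k (prj x '' K) := by
  intro T' hT'
  obtain ⟨c, hc, hsym⟩ := h (T'.comap (prjL x)) (by rw [finrank_comap_prj hx, hT'])
  refine ⟨prj x c, hc, ?_⟩
  rintro _ ⟨⟨p, hp, rfl⟩, hpT⟩
  obtain ⟨h1, h2⟩ := hsym p ⟨hp, hpT⟩
  have e : (2 : ℝ) • prj x c - prj x p = prj x ((2 : ℝ) • c - p) := by
    rw [map_sub, map_smul]
  rw [e]
  exact ⟨⟨_, h1, rfl⟩, h2⟩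

/-- **Gluing.** -/
theorem glue {k : ℕ} (hk : 2 ≤ k) (hkn : k ≤ finrank ℝ E) (h3 : 3 ≤ finrank ℝ E) {K : Set E}
    (hK : SB K) (hsec : SymSec k K)
    (hprj : ∀ x : E, x ≠ 0 → ∃ c, SymAt (prj x '' K) c) : ∃ c, SymAt K c := by
  classical
  choose! cc hcc using hprj
  have hcompP : ∀ x : E, IsCompact (prj x '' K) := fun x => hK.compact.image (prj x).continuous
  have hneP : ∀ x : E, (prj x '' K).Nonempty := fun x => hK.nonempty.image _
  -- `eta K` on `x^⊥`
  have heta : ∀ x : E, x ≠ 0 → ∀ ξ : ↥((Submodule.span ℝ ({x} : Set E))ᗮ),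
      eta K (ξ : E) = ⟪(ξ : E), (cc x : E)⟫ := by
    intro x hx ξ
    have h1 := eta_of_symAt (hcompP x) (hneP x) (hcc x hx) ξ
    have h2 : eta (prj x '' K) ξ = eta K (ξ : E) := by
      unfold eta
      have : (fun p => ⟪ξ, p⟫) '' (prj x '' K) = (fun p => ⟪(ξ : E), p⟫) '' K := by
        rw [image_image]
        apply image_congr
        intro p _
        exact inner_prj x ξ p
      rw [this]
    rw [← h2, h1]
    rfl
  -- for two vectors there is a common orthogonal direction
  have hperp : ∀ a b : E, ∃ x : E, x ≠ 0 ∧ a ∈ (Submodule.span ℝ ({x} : Set E))ᗮ ∧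
      b ∈ (Submodule.span ℝ ({x} : Set E))ᗮ := by
    intro a b
    have hN : finrank ℝ (Submodule.span ℝ ({a, b} : Set E)) ≤ 2 := by
      have h1 := finrank_span_finset_le_card (R := ℝ) ({a, b} : Finset E)
      have h2 : (({a, b} : Finset E) : Set E) = {a, b} := by push_cast; rfl
      rw [h2] at h1
      exact h1.trans Finset.card_le_two
    have hO := Submodule.finrank_add_finrank_orthogonal (Submodule.span ℝ ({a, b} : Set E))
    have hpos : 0 < finrank ℝ (Submodule.span ℝ ({a, b} : Set E))ᗮ := by omega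
    obtain ⟨x, hx⟩ := Module.finrank_pos_iff_exists_ne_zero.1 hpos
    refine ⟨(x : E), ?_, ?_, ?_⟩
    · intro h0; exact hx (Subtype.ext h0)
    · rw [Submodule.mem_orthogonal_singleton_iff_inner_right]
      have := Submodule.inner_left_of_mem_orthogonal (Submodule.subset_span
        (show a ∈ ({a, b} : Set E) by simp)) x.2
      exact this
    · rw [Submodule.mem_orthogonal_singleton_iff_inner_right]
      have := Submodule.inner_left_of_mem_orthogonal (Submodule.subset_span
        (show b ∈ ({a, b} : Set E) by simp)) x.2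
      exact this
  let ℓ : E →ₗ[ℝ] ℝ :=
    { toFun := eta K
      map_add' := by
        intro a b
        obtain ⟨x, hx, ha, hb⟩ := hperp a b
        have h1 := heta x hx ⟨a, ha⟩
        have h2 := heta x hx ⟨b, hb⟩
        have h3 := heta x hx ⟨a + b, Submodule.add_mem _ ha hb⟩
        simp only at h1 h2 h3
        rw [h1, h2, h3, inner_add_left]
      map_smul' := by
        intro r a
        obtain ⟨x, hx, ha, _⟩ := hperp a a
        have h1 := heta x hx ⟨a, ha⟩
        have h3 := heta x hx ⟨r • a, Submodule.smul_mem _ r ha⟩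
        simp only at h1 h3
        rw [h1, h3, real_inner_smul_left]
        rfl }
  let ℓc : E →L[ℝ] ℝ := LinearMap.toContinuousLinearMap ℓ
  set c₀ : E := (InnerProductSpace.toDual ℝ E).symm ℓc with hc₀
  have hc₀' : ∀ ξ : E, ⟪ξ, c₀⟫ = eta K ξ := by
    intro ξ
    rw [real_inner_comm, hc₀, InnerProductSpace.toDual_symm_apply]
    rfl
  have hccx : ∀ x : E, x ≠ 0 → cc x = prj x c₀ := by
    intro x hx
    apply ext_inner_left ℝ
    intro ξ
    rw [inner_prj, hc₀', heta x hx ξ]
    rfl
  refine ⟨c₀, ?_⟩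
  intro p hp
  -- a section containing `p` and `c₀`
  have hN : finrank ℝ (Submodule.span ℝ ({p, c₀} : Set E)) ≤ k := by
    have h1 := finrank_span_finset_le_card (R := ℝ) ({p, c₀} : Finset E)
    have h2 : (({p, c₀} : Finset E) : Set E) = {p, c₀} := by push_cast; rfl
    rw [h2] at h1
    exact h1.trans (Finset.card_le_two.trans hk)
  obtain ⟨S, hNS, hS⟩ := exists_finrank_eq _ hN hkn
  have hpS : p ∈ S := hNS (Submodule.subset_span (by simp))
  have hcS : c₀ ∈ S := hNS (Submodule.subset_span (by simp))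
  obtain ⟨cS, hcSS, hsym⟩ := hsec S hS
  have hclosed : IsCompact (K ∩ (S : Set E)) :=
    hK.compact.inter_right (Submodule.closed_of_finiteDimensional S)
  have hline : ∀ x ∈ S, x ≠ 0 → cS - c₀ ∈ Submodule.span ℝ ({x} : Set E) := by
    intro x hxS hx
    rw [← prj_eq_zero, map_sub, sub_eq_zero]
    have hxle : Submodule.span ℝ ({x} : Set E) ≤ S := by
      rw [Submodule.span_singleton_le_iff_mem]; exact hxS
    refine center_unique (A := prj x '' (K ∩ (S : Set E))) (hclosed.image (prj x).continuous)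
      (Set.Nonempty.image _ ⟨p, hp, hpS⟩) ?_ ?_
    · rintro _ ⟨q, hq, rfl⟩
      exact ⟨(2 : ℝ) • cS - q, hsym q hq, by rw [map_sub, map_smul]⟩
    · rintro _ ⟨q, hq, rfl⟩
      have h1 := hcc x hx (prj x q) ⟨q, hq.1, rfl⟩
      rw [hccx x hx] at h1
      obtain ⟨q', hq', he⟩ := h1
      refine ⟨q', ⟨hq', ?_⟩, he⟩
      have h2 : prj x (q' - ((2 : ℝ) • c₀ - q)) = 0 := by
        rw [map_sub, he, map_sub, map_smul, sub_self]
      have h3 : q' - ((2 : ℝ) • c₀ - q) ∈ S := hxle (prj_eq_zero.1 h2)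
      have h4 : (2 : ℝ) • c₀ - q ∈ S := S.sub_mem (S.smul_mem _ hcS) hq.2
      have := S.add_mem h3 h4
      simpa using this
  have hd : cS - c₀ = 0 := by
    by_contra hd
    have hdS : cS - c₀ ∈ S := S.sub_mem hcSS hcS
    have hle : S ≤ Submodule.span ℝ ({cS - c₀} : Set E) := by
      intro x hxS
      rcases eq_or_ne x 0 with rfl | hx
      · exact Submodule.zero_mem _
      · obtain ⟨r, hr⟩ := Submodule.mem_span_singleton.1 (hline x hxS hx)
        have hr0 : r ≠ 0 := by
          rintro rfl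
          rw [zero_smul] at hr
          exact hd hr.symm
        rw [Submodule.mem_span_singleton]
        exact ⟨r⁻¹, by rw [← hr, smul_smul, inv_mul_cancel₀ hr0, one_smul]⟩
    have := Submodule.finrank_mono hle
    rw [hS, finrank_span_singleton hd] at this
    omega
  have hcSeq : cS = c₀ := sub_eq_zero.1 hd
  have := (hsym p ⟨hp, hpS⟩).1
  rw [hcSeq] at this
  exact this

/-- transport of central symmetry of sections to a subspace -/
theorem sb_restrict {K : Set E} (hK : SB K) (F : Submodule ℝ E) :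
    SB ((fun p : F => (p : E)) ⁻¹' K) where
  compact := by
    have hcl : Topology.IsClosedEmbedding (fun p : F => (p : E)) :=
      (Submodule.closed_of_finiteDimensional F).isClosedEmbedding_subtypeVal
    exact hcl.isCompact_preimage hK.compact
  nonempty := ⟨0, hK.zero_mem⟩
  inter := by
    intro p hp t h0 h1
    have h2 : (fun p : F => (p : E)) ⁻¹' (interior K) ⊆ interior ((fun p : F => (p : E)) ⁻¹' K) :=
      preimage_interior_subset_interior_preimage continuous_subtype_val
    exact h2 (hK.inter (p : E) hp t h0 h1)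

theorem symSec_restrict {k : ℕ} {K : Set E} (h : SymSec k K) (F : Submodule ℝ E) :
    SymSec k ((fun p : F => (p : E)) ⁻¹' K) := by
  intro T hT
  obtain ⟨c, hc, hsym⟩ := h (T.map F.subtype) (by
    rw [LinearEquiv.finrank_eq (F.equivSubtypeMap T).symm]; exact hT)
  obtain ⟨c', hc', rfl⟩ := hc
  refine ⟨c', hc', ?_⟩
  rintro p ⟨hp, hpT⟩
  obtain ⟨h1, h2⟩ := hsym (p : E) ⟨hp, ⟨p, hpT, rfl⟩⟩
  refine ⟨h1, ?_⟩
  exact T.sub_mem (T.smul_mem _ hc') hpT

theorem symSec_image {k : ℕ} {E' : Type*} [NormedAddCommGroup E'] [InnerProductSpace ℝ E']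
    [FiniteDimensional ℝ E'] {K : Set E} (h : SymSec k K) (e : E ≃ₗᵢ[ℝ] E') :
    SymSec k (e '' K) := by
  intro T hT
  obtain ⟨c, hc, hsym⟩ := h (T.comap (e.toLinearEquiv : E →ₗ[ℝ] E')) (by
    rw [finrank_comap_general _ e.surjective, LinearEquiv.ker, finrank_bot, hT, add_zero])
  refine ⟨e c, hc, ?_⟩
  rintro _ ⟨⟨p, hp, rfl⟩, hpT⟩
  obtain ⟨h1, h2⟩ := hsym p ⟨hp, hpT⟩
  have he : (2 : ℝ) • e c - e p = e ((2 : ℝ) • c - p) := by
    rw [map_sub, map_smul]
  rw [he]
  exact ⟨⟨_, h1, rfl⟩, h2⟩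

end sym

/-- The false centre property in abstract inner product spaces of dimension `n`. -/
def FCa (n k : ℕ) : Prop :=
  ∀ (E : Type) [NormedAddCommGroup E] [InnerProductSpace ℝ E] [FiniteDimensional ℝ E] (K : Set E),
    finrank ℝ E = n → SB K → SymSec k K → ∃ c, SymAt K c

theorem symSec_of_symmetricSections {n k : ℕ} {K : Set (EuclideanSpace ℝ (Fin n))} (hK : SB K)
    (h : SymmetricSections k K) : SymSec k K := by
  intro S hS
  obtain ⟨c, hc⟩ := h S hS
  exact ⟨c, symSec_of_center hK hc, hc⟩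

theorem symmetricSections_of_symSec {n k : ℕ} {K : Set (EuclideanSpace ℝ (Fin n))}
    (h : SymSec k K) : SymmetricSections k K := by
  intro S hS
  obtain ⟨c, _, hc⟩ := h S hS
  exact ⟨c, hc⟩

theorem FCa.falseCentre {n k : ℕ} (hn : 0 < n) (h : FCa n k) : FalseCentre n k := by
  intro K hK hsec
  exact h _ K (by simp) (hK.sb hn) (symSec_of_symmetricSections (hK.sb hn) hsec)

theorem FCa_of_falseCentre {n k : ℕ} (h : FalseCentre n k) : FCa n k := by
  intro E _ _ _ K hE hK hsec
  let e : E ≃ₗᵢ[ℝ] EuclideanSpace ℝ (Fin n) :=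
    ((stdOrthonormalBasis ℝ E).reindex (finCongr hE)).repr
  let f : E →L[ℝ] EuclideanSpace ℝ (Fin n) := e.toContinuousLinearEquiv.toContinuousLinearMap
  have hK' : SB (e '' K) := by
    have h1 : SB (f '' K) := hK.image f e.surjective
    exact h1
  obtain ⟨c, hc⟩ := h (e '' K) hK'.isStarBody
    (symmetricSections_of_symSec (symSec_image hsec e))
  refine ⟨e.symm c, ?_⟩
  intro p hp
  obtain ⟨q, hq, he⟩ := hc (e p) ⟨p, hp, rfl⟩
  have : q = (2 : ℝ) • e.symm c - p := by
    apply e.injective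
    rw [he, map_sub, map_smul, e.apply_symm_apply]
  rw [← this]
  exact hq

/-- one step: from `(n-1, k-1)` to `(n, k)`, `k ≥ 3` -/
theorem FCa_succ {n k : ℕ} (hn : 3 ≤ n + 1) (hk : 2 ≤ k) (hkn : k < n) (h : FCa n k) :
    FCa (n + 1) (k + 1) := by
  intro E _ _ _ K hE hK hsec
  apply glue (k := k + 1) (by omega) (by omega) (by omega) hK hsec
  intro x hx
  refine h _ (prj x '' K) ?_ (hK.image (prj x) (prj_surjective x)) (symSec_prj hsec hx)
  have := finrank_prj hx
  omega

/-- `2`-sections: from dimension three to three-dimensional sections -/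
theorem FCa_two {n : ℕ} (h32 : FCa 3 2) (hn : FCa n 3) : FCa n 2 := by
  intro E _ _ _ K hE hK hsec
  apply hn E K hE hK
  intro F hF
  obtain ⟨c, hc⟩ := h32 F ((fun p : F => (p : E)) ⁻¹' K) hF (sb_restrict hK F)
    (symSec_restrict hsec F)
  refine ⟨(c : E), c.2, ?_⟩
  rintro p ⟨hpK, hpF⟩
  have := hc ⟨p, hpF⟩ hpK
  exact ⟨this, F.sub_mem (F.smul_mem _ c.2) hpF⟩

/-- **Reduction to `ℝ³`.** -/
theorem FCa_all (h32 : FCa 3 2) : ∀ n : ℕ, 3 ≤ n → ∀ k : ℕ, 2 ≤ k → k < n → FCa n k := by
  intro n hn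
  induction n, hn using Nat.le_induction with
  | base =>
    intro k h1 h2
    have : k = 2 := by omega
    subst this
    exact h32
  | succ n hn ih =>
    have hbig : ∀ k : ℕ, 3 ≤ k → k < n + 1 → FCa (n + 1) k := by
      intro k h1 h2
      obtain ⟨j, rfl⟩ : ∃ j, k = j + 1 := ⟨k - 1, by omega⟩
      exact FCa_succ (by omega) (by omega) (by omega) (ih j (by omega) (by omega))
    intro k h1 h2
    rcases Nat.lt_or_ge 2 k with h3 | h3
    · exact hbig k h3 h2
    · have : k = 2 := by omega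
      subst this
      exact FCa_two h32 (hbig 3 le_rfl (by omega))

theorem falseCentre_all (h : FalseCentre 3 2) {n k : ℕ} (hk : 2 ≤ k) (hkn : k < n) :
    FalseCentre n k :=
  (FCa_all (FCa_of_falseCentre h) n (by omega) k hk hkn).falseCentre (by omega)

/-- `Q2` and the false centre property are equivalent for each `n, k`. -/
theorem q2_iff_falseCentre {n k : ℕ} (hk : 2 ≤ k) (hkn : k < n) : Q2 n k ↔ FalseCentre n k := by
  have hn : 0 < n := by omega
  constructor
  · intro h K hK hsec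
    have hSB := hK.sb hn
    have hneg : SB (-K) := by
      have e : -K = (-(ContinuousLinearMap.id ℝ (EuclideanSpace ℝ (Fin n)))) '' K := by
        ext p
        constructor
        · intro hp
          exact ⟨-p, hp, by simp⟩
        · rintro ⟨q, hq, rfl⟩
          simpa using hq
      rw [e]
      apply hSB.image
      intro q
      exact ⟨-q, by simp⟩
    obtain ⟨x, hx⟩ := h K (-K) hK hneg.isStarBody (by
      intro S hS
      obtain ⟨c, hc⟩ := hsec S hS
      refine ⟨-((2 : ℝ) • c), ?_⟩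
      ext p
      constructor
      · rintro ⟨hp, hpS⟩
        have h1 := hc (-p) ⟨hp, S.neg_mem hpS⟩
        refine ⟨(2 : ℝ) • c - -p, h1, ?_⟩
        simp
      · rintro ⟨q, hq, rfl⟩
        have h1 := hc q hq
        constructor
        · change -(q + -((2 : ℝ) • c)) ∈ K
          have e : -(q + -((2 : ℝ) • c)) = (2 : ℝ) • c - q := by abel
          rw [e]; exact h1.1
        · have e : q + -((2 : ℝ) • c) = -((2 : ℝ) • c - q) := by abel
          change q + -((2 : ℝ) • c) ∈ (S : Set _)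
          rw [e]
          exact S.neg_mem h1.2)
    refine ⟨-((1 / 2 : ℝ) • x), ?_⟩
    intro p hp
    have h1 : -p ∈ -K := by simpa using hp
    rw [hx] at h1
    obtain ⟨q, hq, he⟩ := h1
    have e : (2 : ℝ) • (-((1 / 2 : ℝ) • x)) - p = q := by
      have he' : q + x = -p := he
      rw [smul_neg, smul_smul]
      norm_num
      rw [sub_eq_add_neg, ← he']
      abel
    rw [e]
    exact hq
  · intro h K L hK hL hsec
    rcases dichotomy hk hkn hK hL hsec with h1 | ⟨h1, h2⟩
    · rw [h1]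
      exact ⟨0, by simp⟩
    · obtain ⟨c, hc⟩ := h K hK h2
      refine ⟨-((2 : ℝ) • c), ?_⟩
      rw [h1]
      ext p
      constructor
      · intro hp
        have h3 := hc (-p) hp
        exact ⟨(2 : ℝ) • c - -p, h3, by simp⟩
      · rintro ⟨q, hq, rfl⟩
        have h3 := hc q hq
        change -(q + -((2 : ℝ) • c)) ∈ K
        have e : -(q + -((2 : ℝ) • c)) = (2 : ℝ) • c - q := by abel
        rw [e]; exact h3

/-- Everything reduces to the false centre problem in `ℝ³`. -/
theorem q2_all_iff : (∀ n k : ℕ, 2 ≤ k → k < n → Q2 n k) ↔ FalseCentre 3 2 := by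
  constructor
  · intro h
    exact (q2_iff_falseCentre le_rfl (by norm_num)).1 (h 3 2 le_rfl (by norm_num))
  · intro h n k hk hkn
    exact (q2_iff_falseCentre hk hkn).2 (falseCentre_all h hk hkn)

end Pool.Agent.Lib.MP_f7db8a
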