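import Pool.Agent.Lib.MP_f7db8a.Vol
import Pool.Agent.Lib.MP_f7db8a.Reduce

set_option autoImplicit false
set_option linter.unusedSectionVars false

/-!
# Either the body is symmetric or there is a bad configuration
-/

namespace Pool.Agent.Lib.MP_f7db8a

open Module Set Filter Topology MeasureTheory
open scoped ENNReal RealInnerProductSpace

section frames

variable {E : Type*} [NormedAddCommGroup E] [InnerProductSpace ℝ E] [FiniteDimensional ℝ E]

/-- a basis adapted to two functionals -/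
structure Frame (x0 xA xB ξ η : E) : Prop where
  h0 : x0 ≠ 0
  ξA : ⟪ξ, xA⟫ = 1
  ξB : ⟪ξ, xB⟫ = 0
  ξ0 : ⟪ξ, x0⟫ = 0
  ηA : ⟪η, xA⟫ = 0
  ηB : ⟪η, xB⟫ = 1
  η0 : ⟪η, x0⟫ = 0

theorem Frame.reverse {x0 xA xB ξ η : E} (h : Frame x0 xA xB ξ η) :
    Frame x0 (-xB) (-xA) (-η) (-ξ) where
  h0 := h.h0
  ξA := by rw [inner_neg_neg]; exact h.ηB
  ξB := by rw [inner_neg_neg]; exact h.ηA
  ξ0 := by rw [inner_neg_left, h.η0, neg_zero]
  ηA := by rw [inner_neg_neg]; exact h.ξB
  ηB := by rw [inner_neg_neg]; exact h.ξA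
  η0 := by rw [inner_neg_left, h.ξ0, neg_zero]

/-- coordinates -/
noncomputable def frameMap (x0 xA xB : E) : ((ℝ × ℝ) × ℝ) →ₗ[ℝ] E where
  toFun p := p.1.1 • xA + p.1.2 • xB + p.2 • x0
  map_add' p q := by simp only [Prod.fst_add, Prod.snd_add]; module
  map_smul' r p := by
    simp only [Prod.smul_fst, Prod.smul_snd, smul_eq_mul, RingHom.id_apply]; module

theorem frameMap_apply (x0 xA xB : E) (A B x : ℝ) :
    frameMap x0 xA xB ((A, B), x) = A • xA + B • xB + x • x0 := rfl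

theorem Frame.inner_ξ {x0 xA xB ξ η : E} (h : Frame x0 xA xB ξ η) (p : (ℝ × ℝ) × ℝ) :
    ⟪ξ, frameMap x0 xA xB p⟫ = p.1.1 := by
  obtain ⟨⟨A, B⟩, x⟩ := p
  rw [frameMap_apply, inner_add_right, inner_add_right, real_inner_smul_right,
    real_inner_smul_right, real_inner_smul_right, h.ξA, h.ξB, h.ξ0]
  ring

theorem Frame.inner_η {x0 xA xB ξ η : E} (h : Frame x0 xA xB ξ η) (p : (ℝ × ℝ) × ℝ) :
    ⟪η, frameMap x0 xA xB p⟫ = p.1.2 := by
  obtain ⟨⟨A, B⟩, x⟩ := p
  rw [frameMap_apply, inner_add_right, inner_add_right, real_inner_smul_right,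
    real_inner_smul_right, real_inner_smul_right, h.ηA, h.ηB, h.η0]
  ring

theorem Frame.injective {x0 xA xB ξ η : E} (h : Frame x0 xA xB ξ η) :
    Function.Injective (frameMap x0 xA xB) := by
  rw [injective_iff_map_eq_zero]
  intro p hp
  have h1 := h.inner_ξ p
  have h2 := h.inner_η p
  rw [hp, inner_zero_right] at h1 h2
  obtain ⟨⟨A, B⟩, x⟩ := p
  simp only at h1 h2
  subst h1 h2
  rw [frameMap_apply, zero_smul, zero_smul, zero_add, zero_add] at hp
  have : x = 0 := (smul_eq_zero.1 hp).resolve_right h.h0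
  rw [this]
  rfl

theorem Frame.bijective {x0 xA xB ξ η : E} (h : Frame x0 xA xB ξ η) (hE : finrank ℝ E = 3) :
    Function.Bijective (frameMap x0 xA xB) := by
  refine ⟨h.injective, ?_⟩
  have hfin : finrank ℝ ((ℝ × ℝ) × ℝ) = finrank ℝ E := by
    rw [hE]; simp
  exact (LinearMap.injective_iff_surjective_of_finrank_eq_finrank hfin).1 h.injective

/-- coordinates as a continuous linear equivalence -/
noncomputable def Frame.equiv {x0 xA xB ξ η : E} (h : Frame x0 xA xB ξ η) (hE : finrank ℝ E = 3) :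
    ((ℝ × ℝ) × ℝ) ≃L[ℝ] E :=
  (LinearEquiv.ofBijective _ (h.bijective hE)).toContinuousLinearEquiv

theorem Frame.equiv_apply {x0 xA xB ξ η : E} (h : Frame x0 xA xB ξ η) (hE : finrank ℝ E = 3)
    (p : (ℝ × ℝ) × ℝ) : h.equiv hE p = frameMap x0 xA xB p := rfl

variable [MeasurableSpace E] [BorelSpace E]

/-- volume of the part of `K` in an open half-space -/
noncomputable def hv (μ : Measure E) (K : Set E) (ξ : E) : ℝ≥0∞ := μ (K ∩ {x | 0 < ⟪ξ, x⟫})

variable (μ : Measure E) [μ.IsAddHaarMeasure]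

theorem hv_frame {x0 xA xB ξ η : E} (h : Frame x0 xA xB ξ η) (hE : finrank ℝ E = 3) :
    ∃ c : ℝ≥0∞, c ≠ 0 ∧ c ≠ ∞ ∧ ∀ K : Set E,
      hv μ K ξ = c * volume ((h.equiv hE ⁻¹' K) ∩ {p | 0 < p.1.1}) ∧
      hv μ K η = c * volume ((h.equiv hE ⁻¹' K) ∩ {p | 0 < p.1.2}) := by
  set e := h.equiv hE with he
  set ν : Measure E := (volume : Measure ((ℝ × ℝ) × ℝ)).map e with hν
  have hνH : ν.IsAddHaarMeasure := by
    rw [hν]; infer_instance
  have hμ := Measure.isAddLeftInvariant_eq_smul μ ν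
  have hpos := Measure.addHaarScalarFactor_pos_of_isAddHaarMeasure μ ν
  have hme : MeasurableEmbedding e := e.toHomeomorph.toMeasurableEquiv.measurableEmbedding
  refine ⟨(Measure.addHaarScalarFactor μ ν : ℝ≥0∞), by exact_mod_cast hpos.ne',
    ENNReal.coe_ne_top, ?_⟩
  intro K
  have key : ∀ S : Set E, μ S = (Measure.addHaarScalarFactor μ ν : ℝ≥0∞) * volume (e ⁻¹' S) := by
    intro S
    have hνS : ν S = volume (e ⁻¹' S) := by rw [hν, hme.map_apply]
    rw [← hνS]
    conv_lhs => rw [hμ]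
    rw [Measure.smul_apply]
    rfl
  constructor
  · unfold hv
    rw [key]
    congr 2
    ext p
    simp only [mem_preimage, mem_inter_iff, mem_ofPred_eq]
    rw [he, h.equiv_apply, h.inner_ξ]
  · unfold hv
    rw [key]
    congr 2
    ext p
    simp only [mem_preimage, mem_inter_iff, mem_ofPred_eq]
    rw [he, h.equiv_apply, h.inner_η]

theorem Frame.cen {x0 xA xB ξ η : E} (h : Frame x0 xA xB ξ η) (hE : finrank ℝ E = 3) {K : Set E}
    {s a b : ℝ} (hc : Cen K x0 (xA - s • xB) a b) :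
    Cen (h.equiv hE ⁻¹' K) ((0, 0), 1) ((1, -s), 0) a b := by
  have e1 : h.equiv hE ((0, 0), 1) = x0 := by
    rw [h.equiv_apply, frameMap_apply]; simp
  have e2 : h.equiv hE ((1, -s), 0) = xA - s • xB := by
    rw [h.equiv_apply, frameMap_apply]; simp; abel
  intro α β hm
  rw [mem_preimage, map_add, map_smul, map_smul, e1, e2] at hm ⊢
  exact hc _ _ hm

theorem hv_le {x0 xA xB ξ η : E} (h : Frame x0 xA xB ξ η) (hE : finrank ℝ E = 3) {K : Set E}
    (hK : IsCompact K)
    (hc : ∀ s : ℝ, 0 < s → ∃ a b : ℝ, b ≤ 0 ∧ Cen K x0 (xA - s • xB) a b) :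
    hv μ K ξ ≤ hv μ K η := by
  obtain ⟨c, _, _, h3⟩ := hv_frame μ h hE
  rw [(h3 K).1, (h3 K).2]
  apply mul_le_mul' le_rfl
  apply half_le
  · exact (h.equiv hE).toHomeomorph.isCompact_preimage.2 hK
  · intro s hs
    obtain ⟨a, b, hb, hcen⟩ := hc s hs
    exact ⟨a, b, hb, h.cen hE hcen⟩

theorem hv_lt {x0 xA xB ξ η : E} (h : Frame x0 xA xB ξ η) (hE : finrank ℝ E = 3) {K : Set E}
    (hK : SB K)
    (hc : ∀ s : ℝ, 0 < s → ∃ a b : ℝ, b < 0 ∧ Cen K x0 (xA - s • xB) a b) :
    hv μ K ξ < hv μ K η := by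
  obtain ⟨c, h1, h2, h3⟩ := hv_frame μ h hE
  rw [(h3 K).1, (h3 K).2]
  apply (ENNReal.mul_lt_mul_iff_right h1 h2).2
  apply half_lt
  · exact (h.equiv hE).toHomeomorph.isCompact_preimage.2 hK.compact
  · have hsub := preimage_interior_subset_interior_preimage (t := K) (h.equiv hE).continuous
    apply hsub
    rw [mem_preimage, map_zero]
    exact hK.zero_mem_interior
  · intro s hs
    obtain ⟨a, b, hb, hcen⟩ := hc s hs
    exact ⟨a, b, hb, h.cen hE hcen⟩

/-- the reversed frame satisfies the same sign conditions -/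
theorem reverse_cond {x0 xA xB : E} {K : Set E} {P : ℝ → Prop}
    (hP : ∀ b s : ℝ, 0 < s → P b → P (b / s))
    (hc : ∀ s : ℝ, 0 < s → ∃ a b : ℝ, P b ∧ Cen K x0 (xA - s • xB) a b) :
    ∀ s : ℝ, 0 < s → ∃ a b : ℝ, P b ∧ Cen K x0 (-xB - s • -xA) a b := by
  intro s hs
  obtain ⟨a, b, hb, hcen⟩ := hc s⁻¹ (inv_pos.2 hs)
  refine ⟨a, b / s, hP b s hs hb, ?_⟩
  have := hcen.smul_right hs.ne'
  have e : s • (xA - s⁻¹ • xB) = -xB - s • -xA := by
    rw [smul_sub, smul_smul, mul_inv_cancel₀ hs.ne']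
    module
  rwa [e] at this

theorem hv_le' {x0 xA xB ξ η : E} (h : Frame x0 xA xB ξ η) (hE : finrank ℝ E = 3) {K : Set E}
    (hK : IsCompact K)
    (hc : ∀ s : ℝ, 0 < s → ∃ a b : ℝ, b ≤ 0 ∧ Cen K x0 (xA - s • xB) a b) :
    hv μ K (-η) ≤ hv μ K (-ξ) :=
  hv_le μ h.reverse hE hK
    (reverse_cond (P := fun b => b ≤ 0) (fun _ _ hs hb => div_nonpos_of_nonpos_of_nonneg hb hs.le) hc)

theorem hv_lt' {x0 xA xB ξ η : E} (h : Frame x0 xA xB ξ η) (hE : finrank ℝ E = 3) {K : Set E}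
    (hK : SB K)
    (hc : ∀ s : ℝ, 0 < s → ∃ a b : ℝ, b < 0 ∧ Cen K x0 (xA - s • xB) a b) :
    hv μ K (-η) < hv μ K (-ξ) :=
  hv_lt μ h.reverse hE hK
    (reverse_cond (P := fun b => b < 0) (fun _ _ hs hb => div_neg_of_neg_of_pos hb hs) hc)

theorem hv_smul (K : Set E) {r : ℝ} (hr : 0 < r) (ξ : E) : hv μ K (r • ξ) = hv μ K ξ := by
  unfold hv
  congr 2
  ext x
  simp only [mem_ofPred_eq]
  rw [real_inner_smul_left]
  exact mul_pos_iff_of_pos_left hr

theorem hv_zero (K : Set E) : hv μ K 0 = 0 := by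
  unfold hv
  simp

theorem hv_continuousAt {K : Set E} (hK : IsCompact K) {ξ : E} (hξ : ξ ≠ 0) :
    ContinuousAt (hv μ K) ξ := by
  unfold ContinuousAt hv
  have hm : ∀ ζ : E, MeasurableSet {x : E | 0 < ⟪ζ, x⟫} := fun ζ =>
    (isOpen_lt continuous_const (by fun_prop)).measurableSet
  apply tendsto_measure_of_ae_tendsto_indicator (𝓝 ξ) (hK.measurableSet.inter (hm ξ))
    (fun ζ => hK.measurableSet.inter (hm ζ)) hK.measurableSet hK.measure_lt_top.ne
  · exact Filter.Eventually.of_forall fun ζ => inter_subset_left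
  · have hnull : μ {x : E | ⟪ξ, x⟫ = 0} = 0 := by
      have h1 : {x : E | ⟪ξ, x⟫ = 0} = (LinearMap.ker (innerₛₗ ℝ ξ) : Set E) := by
        ext x; rfl
      rw [h1]
      apply Measure.addHaar_submodule
      intro htop
      have h2 : ξ ∈ LinearMap.ker (innerₛₗ ℝ ξ) := by rw [htop]; trivial
      have h3 : ⟪ξ, ξ⟫ = 0 := h2
      exact hξ (inner_self_eq_zero.1 h3)
    rw [← compl_mem_ae_iff] at hnull
    filter_upwards [hnull] with x hx
    have hx' : ⟪ξ, x⟫ ≠ 0 := hx
    have hc : ContinuousAt (fun ζ : E => ⟪ζ, x⟫) ξ := by fun_prop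
    rcases lt_or_gt_of_ne hx' with h | h
    · filter_upwards [hc.eventually_lt continuousAt_const h] with ζ hζ
      simp only [mem_inter_iff, mem_ofPred_eq]
      constructor
      · rintro ⟨_, h2⟩; exact absurd h2 (not_lt.2 hζ.le)
      · rintro ⟨_, h2⟩; exact absurd h2 (not_lt.2 h.le)
    · filter_upwards [continuousAt_const.eventually_lt hc h] with ζ hζ
      simp only [mem_inter_iff, mem_ofPred_eq]
      exact ⟨fun h2 => ⟨h2.1, h⟩, fun h2 => ⟨h2.1, hζ⟩⟩

/-- Frames exist for independent vectors. -/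
theorem exists_frame (hE : finrank ℝ E = 3) {ξ η : E} (h : Ind ξ η) :
    ∃ x0 xA xB : E, Frame x0 xA xB ξ η := by
  -- a common orthogonal vector
  obtain ⟨x0, hx0, h1, h2⟩ : ∃ x0 : E, x0 ≠ 0 ∧ ⟪ξ, x0⟫ = 0 ∧ ⟪η, x0⟫ = 0 := by
    let f : E →ₗ[ℝ] ℝ × ℝ := (innerₛₗ ℝ ξ).prod (innerₛₗ ℝ η)
    have hker : LinearMap.ker f ≠ ⊥ := by
      apply LinearMap.ker_ne_bot_of_finrank_lt
      rw [hE]; simp
    obtain ⟨x, hx, hx0⟩ := Submodule.exists_mem_ne_zero_of_ne_bot hker
    have hfx : f x = 0 := hx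
    refine ⟨x, hx0, ?_, ?_⟩
    · exact congrArg Prod.fst hfx
    · exact congrArg Prod.snd hfx
  have hξ := h.ne_left
  have hξpos : 0 < ⟪ξ, ξ⟫ := real_inner_self_pos.2 hξ
  set η' : E := η - (⟪η, ξ⟫ / ⟪ξ, ξ⟫) • ξ with hη'
  have hη'ξ : ⟪ξ, η'⟫ = 0 := by
    rw [hη', inner_sub_right, real_inner_smul_right, div_mul_cancel₀ _ hξpos.ne', real_inner_comm,
      sub_self]
  have hη'0 : η' ≠ 0 := by
    intro h0
    have := (h (-(⟪η, ξ⟫ / ⟪ξ, ξ⟫)) 1 (by
      rw [hη', sub_eq_zero] at h0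
      rw [one_smul, neg_smul, ← h0]; abel)).2
    exact one_ne_zero this
  have hη'pos : 0 < ⟪η', η'⟫ := real_inner_self_pos.2 hη'0
  have hηη' : ⟪η, η'⟫ = ⟪η', η'⟫ := by
    have : η = η' + (⟪η, ξ⟫ / ⟪ξ, ξ⟫) • ξ := by rw [hη']; abel
    conv_lhs => rw [this]
    rw [inner_add_left, real_inner_smul_left, hη'ξ, mul_zero, add_zero]
  set xB : E := ⟪η', η'⟫⁻¹ • η' with hxB
  have hξB : ⟪ξ, xB⟫ = 0 := by rw [hxB, real_inner_smul_right, hη'ξ, mul_zero]
  have hηB : ⟪η, xB⟫ = 1 := by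
    rw [hxB, real_inner_smul_right, hηη', inv_mul_cancel₀ hη'pos.ne']
  refine ⟨x0, ⟪ξ, ξ⟫⁻¹ • ξ - (⟪η, ⟪ξ, ξ⟫⁻¹ • ξ⟫) • xB, xB, hx0, ?_, hξB, h1, ?_, hηB, h2⟩
  · rw [inner_sub_right, real_inner_smul_right, real_inner_smul_right, hξB, mul_zero, sub_zero,
      inv_mul_cancel₀ hξpos.ne']
  · rw [inner_sub_right, real_inner_smul_right (x := η) (y := xB), hηB, mul_one, sub_self]

/-- A bad configuration: three coplanar directions summing to zero, with centres having positive
coefficients. -/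
def Bad (K : Set E) : Prop :=
  ∃ x0 w1 w2 : E, (∀ a b c : ℝ, a • x0 + b • w1 + c • w2 = 0 → a = 0 ∧ b = 0 ∧ c = 0) ∧
    (∃ a b : ℝ, 0 < b ∧ Cen K x0 w1 a b) ∧ (∃ a b : ℝ, 0 < b ∧ Cen K x0 w2 a b) ∧
    (∃ a b : ℝ, 0 < b ∧ Cen K x0 (-(w1 + w2)) a b)

/-- if `hv` is larger at `ξ` and at `η` than at the opposite vectors there is a plane with a
positive coefficient -/
theorem exists_pos {x0 xA xB ξ η : E} (h : Frame x0 xA xB ξ (-η)) (hE : finrank ℝ E = 3)
    {K : Set E} (hK : SB K) (hc : HC K) (h1 : hv μ K (-ξ) < hv μ K ξ)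
    (h2 : hv μ K (-η) ≤ hv μ K η) :
    ∃ s : ℝ, 0 < s ∧ ∃ a b : ℝ, 0 < b ∧ Cen K x0 (xA - s • xB) a b := by
  by_contra hcon
  push Not at hcon
  have h3 : ∀ s : ℝ, 0 < s → ∃ a b : ℝ, b ≤ 0 ∧ Cen K x0 (xA - s • xB) a b := by
    intro s hs
    obtain ⟨a, b, hab⟩ := hc x0 (xA - s • xB)
    refine ⟨a, b, ?_, hab⟩
    by_contra hb
    exact hcon s hs a b (not_le.1 hb) hab
  have h4 := hv_le μ h hE hK.compact h3
  have h5 := hv_le' μ h hE hK.compact h3
  rw [neg_neg] at h5
  exact absurd (h4.trans (h2.trans h5)) (not_le.2 h1)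

theorem bad_of_three (hE : finrank ℝ E = 3) {K : Set E} (hK : SB K) (hc : HC K) {ξ η : E}
    (h1 : hv μ K (-ξ) < hv μ K ξ) (h2 : hv μ K (-η) < hv μ K η)
    (h3 : hv μ K (ξ + η) ≤ hv μ K (-(ξ + η))) : Bad K := by
  have hξ0 : ξ ≠ 0 := by
    rintro rfl
    rw [neg_zero] at h1
    exact lt_irrefl _ h1
  have hη0 : η ≠ 0 := by
    rintro rfl
    rw [neg_zero] at h2
    exact lt_irrefl _ h2
  have hind : Ind ξ η := by
    have hprop : ∀ r : ℝ, η ≠ r • ξ := by
      intro r hr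
      rcases lt_trichotomy r 0 with hr0 | hr0 | hr0
      · have e1 : η = (-r) • (-ξ) := by rw [hr]; module
        have e2 : -η = (-r) • ξ := by rw [hr]; module
        rw [e2, e1, hv_smul μ K (by linarith), hv_smul μ K (by linarith)] at h2
        exact lt_asymm h1 h2
      · rw [hr, hr0, zero_smul] at hη0
        exact hη0 rfl
      · have e1 : ξ + η = (1 + r) • ξ := by rw [hr]; module
        have e2 : -(ξ + η) = (1 + r) • (-ξ) := by rw [hr]; module
        rw [e2, e1, hv_smul μ K (by linarith), hv_smul μ K (by linarith)] at h3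
        exact absurd h3 (not_le.2 h1)
    intro s t hst
    have ht : t = 0 := by
      by_contra ht
      apply hprop (-(s / t))
      have : t • η = -(s • ξ) := by rw [eq_neg_iff_add_eq_zero, add_comm]; exact hst
      calc η = t⁻¹ • (t • η) := by rw [smul_smul, inv_mul_cancel₀ ht, one_smul]
        _ = _ := by rw [this, ← neg_smul, smul_smul]; congr 1; field_simp
    rw [ht, zero_smul, add_zero] at hst
    exact ⟨(smul_eq_zero.1 hst).resolve_right hξ0, ht⟩
  obtain ⟨x0, yA, yB, hF⟩ := exists_frame hE hind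
  have F1 : Frame x0 yA (-yB) ξ (-η) := by
    constructor
    · exact hF.h0
    · exact hF.ξA
    · rw [inner_neg_right, hF.ξB, neg_zero]
    · exact hF.ξ0
    · rw [inner_neg_left, hF.ηA, neg_zero]
    · rw [inner_neg_neg, hF.ηB]
    · rw [inner_neg_left, hF.η0, neg_zero]
  have F2 : Frame x0 (yB - yA) yA η (-(-(ξ + η))) := by
    rw [neg_neg]
    constructor
    · exact hF.h0
    · rw [inner_sub_right, hF.ηB, hF.ηA, sub_zero]
    · exact hF.ηA
    · exact hF.η0
    · rw [inner_add_left, inner_sub_right, inner_sub_right, hF.ξB, hF.ξA, hF.ηB, hF.ηA]; norm_num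
    · rw [inner_add_left, hF.ξA, hF.ηA, add_zero]
    · rw [inner_add_left, hF.ξ0, hF.η0, add_zero]
  have F3 : Frame x0 (yA - yB) yB ξ (-(-(ξ + η))) := by
    rw [neg_neg]
    constructor
    · exact hF.h0
    · rw [inner_sub_right, hF.ξB, hF.ξA, sub_zero]
    · exact hF.ξB
    · exact hF.ξ0
    · rw [inner_add_left, inner_sub_right, inner_sub_right, hF.ξB, hF.ξA, hF.ηB, hF.ηA]; norm_num
    · rw [inner_add_left, hF.ξB, hF.ηB, zero_add]
    · rw [inner_add_left, hF.ξ0, hF.η0, add_zero]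
  have h3' : hv μ K (-(-(ξ + η))) ≤ hv μ K (-(ξ + η)) := by rw [neg_neg]; exact h3
  obtain ⟨s1, hs1, a1, b1, hb1, hc1⟩ := exists_pos μ F1 hE hK hc h1 h2.le
  obtain ⟨s2, hs2, a2, b2, hb2, hc2⟩ := exists_pos μ F2 hE hK hc h2 h3'
  obtain ⟨s3, hs3, a3, b3, hb3, hc3⟩ := exists_pos μ F3 hE hK hc h1 h3'
  -- the three directions
  have m1 : 0 < (1 + s2) * (1 + s3) - 1 := by nlinarith [mul_pos hs2 hs3]
  have m2 : 0 < s1 + 1 + s3 := by positivity
  have m3 : 0 < 1 + s1 * (1 + s2) := by positivity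
  set M1 := (1 + s2) * (1 + s3) - 1 with hM1
  set M2 := s1 + 1 + s3 with hM2
  set M3 := 1 + s1 * (1 + s2) with hM3
  have e3 : M3 • (yA - yB - s3 • yB) =
      -(M1 • (yA - s1 • -yB) + M2 • (yB - yA - s2 • yA)) := by
    rw [hM1, hM2, hM3]
    module
  refine ⟨x0, M1 • (yA - s1 • -yB), M2 • (yB - yA - s2 • yA), ?_, ?_, ?_, ?_⟩
  · intro a b c habc
    have hin := hF.injective
    have e : frameMap x0 yA yB ((b * M1 - c * M2 * (1 + s2), b * M1 * s1 + c * M2), a) = 0 := by
      rw [frameMap_apply]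
      rw [← habc]
      module
    have h0 := hin (e.trans (map_zero _).symm)
    have ha : a = 0 := congrArg Prod.snd h0
    have hA : b * M1 - c * M2 * (1 + s2) = 0 := congrArg (fun q => q.1.1) h0
    have hB : b * M1 * s1 + c * M2 = 0 := congrArg (fun q => q.1.2) h0
    have hcM : c * M2 * M3 = 0 := by rw [hM3]; linear_combination hB - s1 * hA
    have hc0 : c = 0 := by
      rcases mul_eq_zero.1 hcM with h | h
      · exact (mul_eq_zero.1 h).resolve_right m2.ne'
      · exact absurd h m3.ne'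
    have hb0 : b = 0 := by
      rw [hc0] at hA
      have : b * M1 = 0 := by linarith
      exact (mul_eq_zero.1 this).resolve_right m1.ne'
    exact ⟨ha, hb0, hc0⟩
  · exact ⟨a1, b1 / M1, by positivity, hc1.smul_right m1.ne'⟩
  · exact ⟨a2, b2 / M2, by positivity, hc2.smul_right m2.ne'⟩
  · rw [← e3]
    exact ⟨a3, b3 / M3, by positivity, hc3.smul_right m3.ne'⟩

/-- If all planes through `w` have their centre on `ℝ w`, then `K` is symmetric. -/
theorem symAt_of_axis {K : Set E} (hK : SB K) (hc : HC K) {w : E}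
    (hw : w ≠ 0) (h : ∀ Y : E, Ind w Y → ∀ a b : ℝ, Cen K w Y a b → b = 0) :
    ∃ c : E, SymAt K c := by
  set m := (rad K w - rad K (-w)) / 2 with hm
  have key : ∀ Y : E, Ind w Y → Cen K w Y m 0 := by
    intro Y hY
    obtain ⟨a, b, hab⟩ := hc w Y
    have hb := h Y hY a b hab
    subst hb
    have h1 := hab (rad K w) 0 (by
      rw [zero_smul, add_zero]; exact hK.rad_smul_mem hw)
    have h2 := hab (-rad K (-w)) 0 (by
      rw [zero_smul, add_zero]
      have := hK.rad_smul_mem (neg_ne_zero.2 hw)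
      rwa [smul_neg, ← neg_smul] at this)
    rw [mul_zero, sub_zero, zero_smul, add_zero, hK.line_mem_iff hw] at h1 h2
    have : a = m := by rw [hm]; linarith [h1.1, h2.2]
    rwa [this] at hab
  refine ⟨m • w, ?_⟩
  intro p hp
  by_cases hind : Ind w p
  · have h1 := key p hind 0 1 (by simpa using hp)
    convert h1 using 1
    module
  · -- `p` is a multiple of `w`
    obtain ⟨t, rfl⟩ : ∃ t : ℝ, p = t • w := by
      unfold Ind at hind
      push Not at hind
      obtain ⟨s, t, hst, hne⟩ := hind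
      have ht : t ≠ 0 := by
        intro ht
        rw [ht, zero_smul, add_zero] at hst
        have hs := (smul_eq_zero.1 hst).resolve_right hw
        exact hne hs ht
      refine ⟨-(s / t), ?_⟩
      have : t • p = -(s • w) := by rw [eq_neg_iff_add_eq_zero, add_comm]; exact hst
      calc p = t⁻¹ • (t • p) := by rw [smul_smul, inv_mul_cancel₀ ht, one_smul]
        _ = _ := by rw [this, ← neg_smul, smul_smul]; congr 1; field_simp
    have e : (2 : ℝ) • m • w - t • w = (2 * m - t) • w := by module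
    rw [e, hK.line_mem_iff hw]
    rw [hK.line_mem_iff hw] at hp
    constructor
    · rw [hm]; linarith [hp.2]
    · rw [hm]; linarith [hp.1]

/-- if the volume function vanishes on `w^⊥`, the centres of planes through `w` are on `ℝ w` -/
theorem axis_of_vanish (hE : finrank ℝ E = 3) {K : Set E} (hK : SB K) (hc : HC K) {w : E}
    (hw : w ≠ 0) (hV : ∀ ξ : E, ⟪w, ξ⟫ = 0 → hv μ K (-ξ) = hv μ K ξ) :
    ∀ Y : E, Ind w Y → ∀ a b : ℝ, Cen K w Y a b → b = 0 := by
  -- reduce to `b ≤ 0` and `Y ⊥ w`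
  have key : ∀ Y : E, Ind w Y → ⟪w, Y⟫ = 0 → ∀ a b : ℝ, Cen K w Y a b → ¬ 0 < b := by
    intro Y hY hwY a b hab hb
    have hY0 := hY.ne_right
    obtain ⟨ζ, yA, yB, hF⟩ := exists_frame hE hY
    have hζ0 := hF.h0
    have hζw := hF.ξ0
    have hζY := hF.η0
    choose A B hAB using hc
    have hcont := Cen.continuousAt hK (A := fun p => A p.1 p.2) (B := fun p => B p.1 p.2)
      (fun p => hAB p.1 p.2) hY
    have hBcont : ContinuousAt (fun p : E × E => B p.1 p.2) (w, Y) :=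
      continuous_snd.continuousAt.comp hcont
    have hBpos : 0 < B w Y := by
      rw [((hAB w Y).unique hK hY hab).2]; exact hb
    have hcurve : ContinuousAt (fun τ : ℝ => ((w, Y - τ • ζ) : E × E)) 0 := by fun_prop
    have hcomp : ContinuousAt (fun τ : ℝ => B w (Y - τ • ζ)) 0 := by
      have := ContinuousAt.comp (f := fun τ : ℝ => ((w, Y - τ • ζ) : E × E)) (x := (0 : ℝ))
        (g := fun p : E × E => B p.1 p.2) (by simpa using hBcont) hcurve
      exact this
    have hev : ∀ᶠ τ : ℝ in 𝓝 0, 0 < B w (Y - τ • ζ) :=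
      continuousAt_const.eventually_lt hcomp (by simpa using hBpos)
    obtain ⟨δ, hδ, hball⟩ := Metric.eventually_nhds_iff.1 hev
    have hYpos : 0 < ⟪Y, Y⟫ := real_inner_self_pos.2 hY0
    have hζpos : 0 < ⟪ζ, ζ⟫ := real_inner_self_pos.2 hζ0
    set ε := δ * ⟪ζ, ζ⟫ / (2 * ⟪Y, Y⟫) with hε
    have hεpos : 0 < ε := by positivity
    have hYζ : ⟪ζ, Y⟫ = 0 := by rw [real_inner_comm]; exact hζY
    set xA := (1 / (2 * ⟪ζ, ζ⟫)) • ζ - (1 / (2 * ε * ⟪Y, Y⟫)) • Y with hxA
    set xB := (1 / (2 * ⟪ζ, ζ⟫)) • ζ + (1 / (2 * ε * ⟪Y, Y⟫)) • Y with hxB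
    have FF : Frame w xA xB (ζ - ε • Y) (ζ + ε • Y) := by
      constructor
      · exact hw
      · rw [hxA, inner_sub_left, inner_sub_right, inner_sub_right]
        simp only [real_inner_smul_left, real_inner_smul_right, hYζ, hζY]
        field_simp
        ring
      · rw [hxB, inner_sub_left, inner_add_right, inner_add_right]
        simp only [real_inner_smul_left, real_inner_smul_right, hYζ, hζY]
        field_simp
        ring
      · rw [inner_sub_left, real_inner_smul_left, real_inner_comm, hζw, real_inner_comm, hwY]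
        ring
      · rw [hxA, inner_add_left, inner_sub_right, inner_sub_right]
        simp only [real_inner_smul_left, real_inner_smul_right, hYζ, hζY]
        field_simp
        ring
      · rw [hxB, inner_add_left, inner_add_right, inner_add_right]
        simp only [real_inner_smul_left, real_inner_smul_right, hYζ, hζY]
        field_simp
        ring
      · rw [inner_add_left, real_inner_smul_left, real_inner_comm, hζw, real_inner_comm, hwY]
        ring
    have hcond : ∀ s : ℝ, 0 < s → ∃ a b : ℝ, b < 0 ∧ Cen K w (xA - s • xB) a b := by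
      intro s hs
      set τ := (1 - s) / (1 + s) * (δ / 2) with hτ
      have hτabs : |τ| < δ := by
        rw [hτ, abs_mul, abs_of_pos (show 0 < δ / 2 by positivity), abs_div,
          abs_of_pos (show 0 < 1 + s by positivity)]
        have : |1 - s| / (1 + s) ≤ 1 := by
          rw [div_le_one (by positivity), abs_le]
          constructor <;> linarith
        nlinarith
      have hBτ := hball (y := τ) (by rw [Real.dist_eq, sub_zero]; exact hτabs)
      have hr : -((1 + s) / (2 * ε * ⟪Y, Y⟫)) < 0 := by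
        rw [neg_lt_zero]; positivity
      have hcen := (hAB w (Y - τ • ζ)).smul_right hr.ne
      refine ⟨A w (Y - τ • ζ), B w (Y - τ • ζ) / -((1 + s) / (2 * ε * ⟪Y, Y⟫)), ?_, ?_⟩
      · exact div_neg_of_pos_of_neg hBτ hr
      · have e : xA - s • xB = -((1 + s) / (2 * ε * ⟪Y, Y⟫)) • (Y - τ • ζ) := by
          rw [hxA, hxB]
          have e1 : (1 + s) / (2 * ε * ⟪Y, Y⟫) * τ = (1 - s) / (2 * ⟪ζ, ζ⟫) := by
            rw [hτ, hε]; field_simp
          have e2 : -((1 + s) / (2 * ε * ⟪Y, Y⟫)) • (Y - τ • ζ) =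
              (-((1 + s) / (2 * ε * ⟪Y, Y⟫))) • Y + ((1 + s) / (2 * ε * ⟪Y, Y⟫) * τ) • ζ := by
            module
          rw [e2, e1]
          have e3 : (1 - s) / (2 * ⟪ζ, ζ⟫) = 1 / (2 * ⟪ζ, ζ⟫) - s * (1 / (2 * ⟪ζ, ζ⟫)) := by ring
          have e4 : (1 + s) / (2 * ε * ⟪Y, Y⟫) =
              1 / (2 * ε * ⟪Y, Y⟫) + s * (1 / (2 * ε * ⟪Y, Y⟫)) := by ring
          rw [e3, e4]
          module
        rw [e]
        exact hcen
    have l1 := hv_lt μ FF hE hK hcond
    have l2 := hv_lt' μ FF hE hK hcond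
    have z1 := hV (ζ - ε • Y) (by
      rw [inner_sub_right, real_inner_smul_right, hwY, hζw]; ring)
    have z2 := hV (ζ + ε • Y) (by
      rw [inner_add_right, real_inner_smul_right, hwY, hζw]; ring)
    rw [z1, z2] at l2
    exact lt_asymm l1 l2
  intro Y hY a b hab
  have hwpos : 0 < ⟪w, w⟫ := real_inner_self_pos.2 hw
  set τ := -(⟪w, Y⟫ / ⟪w, w⟫) with hτ
  have hperp : ⟪w, Y + τ • w⟫ = 0 := by
    rw [inner_add_right, real_inner_smul_right, hτ]; field_simp; ring
  have hind : Ind w (Y + τ • w) := by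
    intro s t hst
    have e : s • w + t • (Y + τ • w) = (s + t * τ) • w + t • Y := by module
    rw [e] at hst
    obtain ⟨h1, h2⟩ := hY _ _ hst
    rw [h2] at h1
    exact ⟨by linarith, h2⟩
  have hcen := hab.add_right τ
  have hcen' := hcen.neg_right
  have hind' : Ind w (-(Y + τ • w)) := by
    intro s t hst
    have e : s • w + t • -(Y + τ • w) = s • w + (-t) • (Y + τ • w) := by module
    rw [e] at hst
    obtain ⟨h1, h2⟩ := hind _ _ hst
    exact ⟨h1, by linarith⟩
  have k1 := key _ hind hperp _ _ hcen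
  have k2 := key _ hind' (by rw [inner_neg_right, hperp, neg_zero]) _ _ hcen'
  linarith

include μ in
theorem step1_aux (hE : finrank ℝ E = 3) {K : Set E} (hK : SB K) (hc : HC K) :
    (∃ c : E, SymAt K c) ∨ Bad K := by
  set P : Set E := {ξ | hv μ K (-ξ) < hv μ K ξ} with hP
  by_cases hadd : ∀ ξ ∈ P, ∀ η ∈ P, ξ + η ∈ P
  · left
    have h0 : (0 : E) ∉ P := by
      intro h
      have : hv μ K (-0) < hv μ K 0 := h
      rw [neg_zero] at this
      exact lt_irrefl _ this
    have hopen : IsOpen P := by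
      rw [isOpen_iff_mem_nhds]
      intro ξ hξ
      have hξ0 : ξ ≠ 0 := by rintro rfl; exact h0 hξ
      have c1 := hv_continuousAt μ hK.compact hξ0
      have c2 : ContinuousAt (fun ζ => hv μ K (-ζ)) ξ := by
        apply ContinuousAt.comp (f := fun ζ : E => -ζ) (g := hv μ K)
        · exact hv_continuousAt μ hK.compact (neg_ne_zero.2 hξ0)
        · fun_prop
      exact c2.eventually_lt c1 hξ
    have hcone : ∀ ξ ∈ P, ∀ r : ℝ, 0 < r → r • ξ ∈ P := by
      intro ξ hξ r hr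
      change hv μ K (-(r • ξ)) < hv μ K (r • ξ)
      rw [← smul_neg, hv_smul μ K hr, hv_smul μ K hr]
      exact hξ
    have hconv : Convex ℝ P := by
      intro ξ hξ η hη a b ha hb hab
      rcases ha.eq_or_lt with ha0 | ha0
      · rw [← ha0, zero_smul, zero_add, show b = 1 by linarith, one_smul]; exact hη
      rcases hb.eq_or_lt with hb0 | hb0
      · rw [← hb0, zero_smul, add_zero, show a = 1 by linarith, one_smul]; exact hξ
      exact hadd _ (hcone ξ hξ a ha0) _ (hcone η hη b hb0)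
    obtain ⟨w, hw, hV⟩ : ∃ w : E, w ≠ 0 ∧ ∀ ξ : E, ⟪w, ξ⟫ = 0 → ξ ∉ P := by
      rcases P.eq_empty_or_nonempty with he | ⟨ξ₀, hξ₀⟩
      · have : Nontrivial E := by
          apply Module.nontrivial_of_finrank_pos (R := ℝ); omega
        obtain ⟨w, hw⟩ := exists_ne (0 : E)
        exact ⟨w, hw, fun ξ _ h => by rw [he] at h; exact h⟩
      · obtain ⟨f, hf⟩ := geometric_hahn_banach_open_point hconv hopen h0
        rw [map_zero] at hf
        set w : E := (InnerProductSpace.toDual ℝ E).symm f with hw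
        have hwf : ∀ ξ : E, ⟪w, ξ⟫ = f ξ := by
          intro ξ
          rw [hw, InnerProductSpace.toDual_symm_apply]
        refine ⟨w, ?_, ?_⟩
        · intro h
          have h1 := hf ξ₀ hξ₀
          rw [← hwf, h, inner_zero_left] at h1
          exact lt_irrefl _ h1
        · intro ξ hξ hmem
          have h1 := hf ξ hmem
          rw [← hwf, hξ] at h1
          exact lt_irrefl _ h1
    apply symAt_of_axis hK hc hw
    apply axis_of_vanish μ hE hK hc hw
    intro ξ hξ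
    have h1 := hV ξ hξ
    have h2 := hV (-ξ) (by rw [inner_neg_right, hξ, neg_zero])
    have h1' : ¬ (hv μ K (-ξ) < hv μ K ξ) := h1
    have h2' : ¬ (hv μ K (- -ξ) < hv μ K (-ξ)) := h2
    rw [neg_neg] at h2'
    exact le_antisymm (not_lt.1 h2') (not_lt.1 h1')
  · right
    push Not at hadd
    obtain ⟨ξ, hξ, η, hη, hsum⟩ := hadd
    exact bad_of_three μ hE hK hc hξ hη (not_lt.1 hsum)

end frames

section final

variable {E : Type*} [NormedAddCommGroup E] [InnerProductSpace ℝ E] [FiniteDimensional ℝ E]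

/-- **Step 1.** -/
theorem step1 (hE : finrank ℝ E = 3) {K : Set E} (hK : SB K) (hc : HC K) :
    (∃ c : E, SymAt K c) ∨ Bad K := by
  let _ : MeasurableSpace E := borel E
  have : BorelSpace E := ⟨rfl⟩
  exact step1_aux (μ := volume) hE hK hc

end final

end Pool.Agent.Lib.MP_f7db8a
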