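import Pool.Agent.Lib.MP_f7db8a.Flat2
import Pool.Agent.Lib.MP_f7db8a.Step1

set_option autoImplicit false
set_option linter.unusedSectionVars false

/-!
# The false centre theorem for star bodies in `ℝ³`, and question Q2
-/

namespace Pool.Agent.Lib.MP_f7db8a

open Module Set Filter Topology Metric
open scoped RealInnerProductSpace

variable {K : Set ((ℝ × ℝ) × ℝ)}

/-- heights of centres near an axis plane of a flat body -/
theorem height_const {A B : ℝ × ℝ → ℝ × ℝ → ℝ} (hK : SB K) (h : Ctr K A B) {r lam : ℝ}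
    (hr : 0 < r) (hlam : 0 < lam)
    (hflat : ∀ z ∈ ball (0 : ℝ × ℝ) r, qf K z = 1 ∧ qf (-K) z = lam) {d : ℝ × ℝ} (hd : d ≠ 0)
    (hB : B 0 d = 0) :
    ∀ᶠ p : (ℝ × ℝ) × (ℝ × ℝ) in 𝓝 (0, d), A p.1 p.2 = (1 - 1 / lam) / 2 := by
  have h0 := hflat 0 (mem_ball_self hr)
  have hcen : Cen K (0, 1) (d, 0) (A 0 d) 0 := by
    have := h.cen 0 d; rwa [hB] at this
  have hax := axis_height hK hcen
  rw [h0.1, h0.2] at hax
  have hA : 2 * A 0 d = 1 - 1 / lam := by linarith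
  have cA := h.contA hK (z := 0) hd
  have cB := h.contB hK (z := 0) hd
  have cfst : ContinuousAt (fun p : (ℝ × ℝ) × (ℝ × ℝ) => p.1) (0, d) := continuousAt_fst
  have csnd : ContinuousAt (fun p : (ℝ × ℝ) × (ℝ × ℝ) => p.2) (0, d) := continuousAt_snd
  have c1 : ContinuousAt (fun p : (ℝ × ℝ) × (ℝ × ℝ) => 2 * A p.1 p.2 + 1 / lam) (0, d) :=
    (cA.const_mul 2).add continuousAt_const
  have c2 : ContinuousAt (fun p : (ℝ × ℝ) × (ℝ × ℝ) => 1 - 2 * A p.1 p.2) (0, d) :=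
    continuousAt_const.sub (cA.const_mul 2)
  have v1 : 2 * A 0 d + 1 / lam = 1 := by linarith
  have v2 : 1 - 2 * A 0 d = 1 / lam := by linarith
  have hlam' : 0 < 1 / lam := by positivity
  have w1 : ContinuousAt (fun p : (ℝ × ℝ) × (ℝ × ℝ) =>
      p.1 + (2 * B p.1 p.2 / (2 * A p.1 p.2 + 1 / lam)) • p.2) (0, d) :=
    cfst.add (((cB.const_mul 2).div c1 (by simp only [v1]; norm_num)).smul csnd)
  have w2 : ContinuousAt (fun p : (ℝ × ℝ) × (ℝ × ℝ) =>
      p.1 + (-(2 * B p.1 p.2) / (1 - 2 * A p.1 p.2)) • p.2) (0, d) :=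
    cfst.add (((cB.const_mul 2).neg.div c2 (by simp only [v2]; exact hlam'.ne')).smul csnd)
  have e0 : ∀ᶠ p : (ℝ × ℝ) × (ℝ × ℝ) in 𝓝 (0, d), p.1 ∈ ball (0 : ℝ × ℝ) r :=
    cfst (ball_mem_nhds 0 hr)
  have e1 : ∀ᶠ p : (ℝ × ℝ) × (ℝ × ℝ) in 𝓝 (0, d), 0 < 2 * A p.1 p.2 + 1 / lam :=
    continuousAt_const.eventually_lt c1 (by simp only [v1]; norm_num)
  have e2 : ∀ᶠ p : (ℝ × ℝ) × (ℝ × ℝ) in 𝓝 (0, d), 0 < 1 - 2 * A p.1 p.2 :=
    continuousAt_const.eventually_lt c2 (by simp only [v2]; exact hlam')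
  have e3 : ∀ᶠ p : (ℝ × ℝ) × (ℝ × ℝ) in 𝓝 (0, d),
      p.1 + (2 * B p.1 p.2 / (2 * A p.1 p.2 + 1 / lam)) • p.2 ∈ ball (0 : ℝ × ℝ) r := by
    apply w1
    simp only [hB, mul_zero, zero_div, zero_smul, add_zero]
    exact ball_mem_nhds 0 hr
  have e4 : ∀ᶠ p : (ℝ × ℝ) × (ℝ × ℝ) in 𝓝 (0, d),
      p.1 + (-(2 * B p.1 p.2) / (1 - 2 * A p.1 p.2)) • p.2 ∈ ball (0 : ℝ × ℝ) r := by
    apply w2
    simp only [hB, mul_zero, neg_zero, zero_div, zero_smul, add_zero]
    exact ball_mem_nhds 0 hr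
  filter_upwards [e0, e1, e2, e3, e4] with p f0 f1 f2 f3 f4
  set a := A p.1 p.2 with ha
  set b := B p.1 p.2 with hb
  have hc := h.cen p.1 p.2
  rw [← ha, ← hb] at hc
  -- bottom point
  have m1 : (-(1 / lam)) • ((p.1, 1) : (ℝ × ℝ) × ℝ) + (0 : ℝ) • ((p.2, 0) : (ℝ × ℝ) × ℝ) ∈ K := by
    rw [zero_smul, add_zero, neg_smul, ← Set.mem_neg, mem_chart hK.neg p.1 hlam'.le,
      (hflat _ f0).2]
    rw [one_div, inv_mul_cancel₀ hlam.ne']
  have r1 := hc _ _ m1
  have q1 : (2 * a - -(1 / lam)) • ((p.1, 1) : (ℝ × ℝ) × ℝ) +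
      (2 * b - 0) • ((p.2, 0) : (ℝ × ℝ) × ℝ) =
      (2 * a + 1 / lam) • ((p.1 + (2 * b / (2 * a + 1 / lam)) • p.2, 1) : (ℝ × ℝ) × ℝ) := by
    simp only [Prod.smul_mk, Prod.mk_add_mk, smul_eq_mul, mul_zero, add_zero, smul_add, smul_smul,
      sub_zero, sub_neg_eq_add]
    rw [mul_div_cancel₀ _ f1.ne']
  rw [q1, mem_chart hK _ f1.le, (hflat _ f3).1, mul_one] at r1
  -- top point
  have m2 : (1 : ℝ) • ((p.1, 1) : (ℝ × ℝ) × ℝ) + (0 : ℝ) • ((p.2, 0) : (ℝ × ℝ) × ℝ) ∈ K := by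
    rw [zero_smul, add_zero, mem_chart hK p.1 zero_le_one, (hflat _ f0).1, mul_one]
  have r2 := hc _ _ m2
  have q2 : (2 * a - 1) • ((p.1, 1) : (ℝ × ℝ) × ℝ) + (2 * b - 0) • ((p.2, 0) : (ℝ × ℝ) × ℝ) =
      -((1 - 2 * a) • ((p.1 + (-(2 * b) / (1 - 2 * a)) • p.2, 1) : (ℝ × ℝ) × ℝ)) := by
    simp only [Prod.smul_mk, Prod.mk_add_mk, smul_eq_mul, mul_zero, add_zero, smul_add, smul_smul,
      sub_zero, mul_one, Prod.neg_mk, neg_add]
    rw [mul_div_cancel₀ _ f2.ne']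
    ext
    · simp; ring
    · simp; ring
    · simp
  rw [q2, ← Set.mem_neg, mem_chart hK.neg _ f2.le, (hflat _ f4).2] at r2
  have r3 : 1 - 2 * a ≤ 1 / lam := by rw [le_div_iff₀ hlam]; exact r2
  linarith

/-- the zero set is locally open in the direction `(1,0)` -/
theorem local_zero_std {A B : ℝ × ℝ → ℝ × ℝ → ℝ} (hK : SB K) (h : Ctr K A B) {r lam : ℝ}
    (hr : 0 < r) (hlam : 0 < lam)
    (hflat : ∀ z ∈ ball (0 : ℝ × ℝ) r, qf K z = 1 ∧ qf (-K) z = lam)
    (hB : B 0 (1, 0) = 0) : ∃ ε' : ℝ, 0 < ε' ∧ ∀ a : ℝ, |a| < ε' → B 0 (1, a) = 0 := by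
  have hd : ((1, 0) : ℝ × ℝ) ≠ 0 := by
    intro h; have := congrArg Prod.fst h; simp at this
  obtain ⟨ε, hε, hball⟩ := Metric.eventually_nhds_iff.1 (height_const hK h hr hlam hflat hd hB)
  set κ := (1 - 1 / lam) / 2 with hκ
  have hA : ∀ a b : ℝ, |a| < ε → |b| < ε → A (0, b) (1, a) = κ := by
    intro a b ha hb
    apply hball (y := ((0, b), (1, a)))
    rw [Prod.dist_eq, Prod.dist_eq, Prod.dist_eq]
    simp only [Real.dist_eq, Prod.fst_zero, Prod.snd_zero, sub_zero, sub_self, abs_zero]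
    rw [max_lt_iff, max_lt_iff, max_lt_iff]
    exact ⟨⟨hε, hb⟩, ⟨hε, ha⟩⟩
  have hrefl : ∀ a b : ℝ, |a| < ε → |b| < ε → ∀ x k : ℝ, Mem K x (k * b + x * a) k →
      Mem K (2 * B (0, b) (1, a) - x) ((2 * κ - k) * b + (2 * B (0, b) (1, a) - x) * a)
        (2 * κ - k) := by
    intro a b ha hb x k hm
    have hc := h.cen (0, b) (1, a)
    rw [hA a b ha hb] at hc
    have e : ∀ s t : ℝ, s • (((0, b), 1) : (ℝ × ℝ) × ℝ) + t • (((1, a), 0) : (ℝ × ℝ) × ℝ) =
        ((t, s * b + t * a), s) := by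
      intro s t
      simp [Prod.smul_mk]
    have := hc k x (by rw [e]; exact hm)
    rw [e] at this
    exact this
  have hne : ∀ a : ℝ, ((1, a) : ℝ × ℝ) ≠ 0 := by
    intro a h; have := congrArg Prod.fst h; simp at this
  have hcont : ∀ a b : ℝ, ContinuousAt (fun p : ℝ × ℝ => B (0, p.2) (1, p.1)) (a, b) := by
    intro a b
    exact ContinuousAt.comp (f := fun p : ℝ × ℝ => (((0, p.2), (1, p.1)) : (ℝ × ℝ) × (ℝ × ℝ)))
      (x := ((a, b) : ℝ × ℝ)) (g := fun p : (ℝ × ℝ) × (ℝ × ℝ) => B p.1 p.2)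
      (h.contB hK (hne a)) (by fun_prop)
  have hz : ((0, 0) : ℝ × ℝ) = 0 := rfl
  rcases eq_or_ne κ 0 with hκ0 | hκ0
  · obtain ⟨ε', hε', hv⟩ := height_zero hK hε (f := fun a b => B (0, b) (1, a)) (by
      intro a b ha hb x k hm
      have := hrefl a b ha hb x k hm
      rw [hκ0, mul_zero, zero_sub] at this
      exact this) (by simp only [hz]; exact hB)
    refine ⟨ε', hε', fun a ha => ?_⟩
    have := hv a ha
    simp only [hz] at this
    exact this
  · -- rescale the height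
    let T : ((ℝ × ℝ) × ℝ) →ₗ[ℝ] ((ℝ × ℝ) × ℝ) :=
      { toFun := fun v => (v.1, κ⁻¹ * v.2)
        map_add' := by intro v w; ext <;> simp; ring
        map_smul' := by intro c v; ext <;> simp; ring }
    have hT : ∀ (v : ℝ × ℝ) (k : ℝ), T (v, k) = (v, κ⁻¹ * k) := fun _ _ => rfl
    have hTb : Function.Bijective T := by
      constructor
      · rintro ⟨v, k⟩ ⟨v', k'⟩ heq
        rw [hT, hT] at heq
        have h1 : v = v' := congrArg Prod.fst heq
        have h2 : κ⁻¹ * k = κ⁻¹ * k' := congrArg Prod.snd heq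
        have h3 : k = k' := mul_left_cancel₀ (inv_ne_zero hκ0) h2
        rw [h1, h3]
      · rintro ⟨v, k⟩
        exact ⟨(v, κ * k), by rw [hT, inv_mul_cancel_left₀ hκ0]⟩
    have hmemT : ∀ x y k : ℝ, Mem (T '' K) x y k ↔ Mem K x y (κ * k) := by
      intro x y k
      have e : (((x, y), k) : (ℝ × ℝ) × ℝ) = T ((x, y), κ * k) := by
        rw [hT, inv_mul_cancel_left₀ hκ0]
      unfold Mem
      rw [e, hTb.1.mem_set_image]
    have hκabs : 0 < |κ| := abs_pos.2 hκ0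
    have hRF : RF (T '' K) (min ε (ε * |κ|)) (fun a b => B (0, b / κ) (1, a)) := by
      constructor
      · exact hK.image_lin T hTb.2
      · positivity
      · intro a b ha hb x k hm
        rw [hmemT] at hm ⊢
        have ha' : |a| < ε := ha.trans_le (min_le_left _ _)
        have hb' : |b / κ| < ε := by
          rw [abs_div, div_lt_iff₀ hκabs]
          exact hb.trans_le (min_le_right _ _)
        have := hrefl a (b / κ) ha' hb' x (κ * k) (by
          have e : κ * k * (b / κ) + x * a = k * b + x * a := by field_simp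
          rw [e]; exact hm)
        have e1 : (2 * κ - κ * k) * (b / κ) = (2 - k) * b := by field_simp
        have e2 : 2 * κ - κ * k = κ * (2 - k) := by ring
        rw [e1, e2] at this
        exact this
      · intro a b _ _
        exact ContinuousAt.comp (f := fun p : ℝ × ℝ => ((p.1, p.2 / κ) : ℝ × ℝ))
          (x := ((a, b) : ℝ × ℝ)) (g := fun p : ℝ × ℝ => B (0, p.2) (1, p.1))
          (hcont a (b / κ)) (by fun_prop)
      · simp only [zero_div, hz]; exact hB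
    obtain ⟨ε', hε', hv⟩ := hRF.vanish
    refine ⟨ε', hε', fun a ha => ?_⟩
    have := hv a ha
    simp only [zero_div, hz] at this
    exact this

/-- complex multiplication by the conjugate of `d` on the chart -/
def rot (d : ℝ × ℝ) : ((ℝ × ℝ) × ℝ) →ₗ[ℝ] ((ℝ × ℝ) × ℝ) where
  toFun v := ((v.1.1 * d.1 + v.1.2 * d.2, v.1.2 * d.1 - v.1.1 * d.2), v.2)
  map_add' v w := by ext <;> simp <;> ring
  map_smul' c v := by ext <;> simp <;> ring

theorem rot_apply (d : ℝ × ℝ) (u v k : ℝ) :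
    rot d ((u, v), k) = ((u * d.1 + v * d.2, v * d.1 - u * d.2), k) := rfl

theorem nsq_pos {d : ℝ × ℝ} (hd : d ≠ 0) : 0 < d.1 ^ 2 + d.2 ^ 2 := by
  by_contra hcon
  rw [not_lt] at hcon
  have h1 : d.1 = 0 := by nlinarith [sq_nonneg d.1, sq_nonneg d.2]
  have h2 : d.2 = 0 := by nlinarith [sq_nonneg d.1, sq_nonneg d.2]
  exact hd (Prod.ext h1 h2)

theorem rot_pre {d : ℝ × ℝ} (hd : d ≠ 0) (x y k : ℝ) :
    rot d (((x * d.1 - y * d.2) / (d.1 ^ 2 + d.2 ^ 2), (x * d.2 + y * d.1) / (d.1 ^ 2 + d.2 ^ 2)), k)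
      = ((x, y), k) := by
  have hn := (nsq_pos hd).ne'
  rw [rot_apply]
  ext
  · simp only; field_simp; ring
  · simp only; field_simp; ring
  · rfl

theorem rot_bij {d : ℝ × ℝ} (hd : d ≠ 0) : Function.Bijective (rot d) := by
  have hs : Function.Surjective (rot d) := by
    rintro ⟨⟨x, y⟩, k⟩
    exact ⟨_, rot_pre hd x y k⟩
  exact ⟨LinearMap.injective_iff_surjective.2 hs, hs⟩

theorem local_zero {A B : ℝ × ℝ → ℝ × ℝ → ℝ} (hK : SB K) (hc : HC K) (h : Ctr K A B) {r lam : ℝ}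
    (hr : 0 < r) (hlam : 0 < lam)
    (hflat : ∀ z ∈ ball (0 : ℝ × ℝ) r, qf K z = 1 ∧ qf (-K) z = lam) {d : ℝ × ℝ} (hd : d ≠ 0)
    (hB : B 0 d = 0) : ∀ᶠ d' in 𝓝 d, B 0 d' = 0 := by
  have hTb := rot_bij hd
  set T := rot d with hT
  have hK' : SB (T '' K) := hK.image_lin T hTb.2
  have hc' : HC (T '' K) := hc.image T hTb
  choose A' B' hAB' using fun z d : ℝ × ℝ => hc' (z, 1) (d, 0)
  have hctr' : Ctr (T '' K) A' B' := ⟨hAB'⟩
  have hn := nsq_pos hd
  have hdne : ∀ u v : ℝ, ((u, v) : ℝ × ℝ) ≠ 0 →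
      ((u * d.1 + v * d.2, v * d.1 - u * d.2) : ℝ × ℝ) ≠ 0 := by
    intro u v huv h0
    have h1 : T ((u, v), 0) = 0 := by rw [hT, rot_apply, h0]; rfl
    have h2 : (((u, v), 0) : (ℝ × ℝ) × ℝ) = 0 := hTb.1 (h1.trans (map_zero T).symm)
    exact huv (congrArg Prod.fst h2)
  have hrel : ∀ u v : ℝ, ((u, v) : ℝ × ℝ) ≠ 0 →
      B' 0 (u * d.1 + v * d.2, v * d.1 - u * d.2) = B 0 (u, v) := by
    intro u v huv
    have h1 := (Cen.image T hTb.1).2 (h.cen 0 (u, v))
    have e1 : T (0, 1) = (0, 1) := by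
      have : T ((0, 0), 1) = ((0, 0), 1) := by rw [hT, rot_apply]; simp
      exact this
    have e2 : T ((u, v), 0) = ((u * d.1 + v * d.2, v * d.1 - u * d.2), 0) := rfl
    rw [e1, e2] at h1
    exact (hctr'.eq hK' (hdne u v huv) h1).2
  -- flatness of the rotated body
  have hflat' : ∃ r' : ℝ, 0 < r' ∧ ∀ z ∈ ball (0 : ℝ × ℝ) r', qf (T '' K) z = 1 ∧
      qf (-(T '' K)) z = lam := by
    let S : ℝ × ℝ → ℝ × ℝ := fun z =>
      ((z.1 * d.1 - z.2 * d.2) / (d.1 ^ 2 + d.2 ^ 2), (z.1 * d.2 + z.2 * d.1) / (d.1 ^ 2 + d.2 ^ 2))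
    have hSc : Continuous S := by
      change Continuous (fun z : ℝ × ℝ => ((z.1 * d.1 - z.2 * d.2) / (d.1 ^ 2 + d.2 ^ 2),
        (z.1 * d.2 + z.2 * d.1) / (d.1 ^ 2 + d.2 ^ 2)))
      fun_prop
    have hS0 : S 0 = 0 := by
      simp [S]
    have hev : ∀ᶠ z in 𝓝 (0 : ℝ × ℝ), S z ∈ ball (0 : ℝ × ℝ) r := by
      apply hSc.continuousAt
      rw [hS0]
      exact ball_mem_nhds 0 hr
    obtain ⟨r', hr', hb⟩ := Metric.eventually_nhds_iff_ball.1 hev
    refine ⟨r', hr', ?_⟩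
    rintro ⟨x, y⟩ hz
    have h1 := hflat _ (hb _ hz)
    have e : (((x, y), 1) : (ℝ × ℝ) × ℝ) = T (S (x, y), 1) := (rot_pre hd x y 1).symm
    have hneg : -(T '' K) = T '' (-K) := by
      ext v
      constructor
      · rintro ⟨u, hu, hv⟩
        exact ⟨-u, by simpa using hu, by rw [map_neg, hv, neg_neg]⟩
      · rintro ⟨u, hu, rfl⟩
        exact ⟨-u, hu, by rw [map_neg]⟩
    constructor
    · unfold qf
      rw [e, rad_image T hTb.1]
      exact h1.1
    · rw [hneg]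
      unfold qf
      rw [e, rad_image T hTb.1]
      exact h1.2
  obtain ⟨r', hr', hfl⟩ := hflat'
  have hB1 : B' 0 (1, 0) = 0 := by
    have h1 := hrel d.1 d.2 hd
    have e : ((d.1 * d.1 + d.2 * d.2, d.2 * d.1 - d.1 * d.2) : ℝ × ℝ) =
        (d.1 ^ 2 + d.2 ^ 2) • ((1, 0) : ℝ × ℝ) := by
      rw [Prod.smul_mk, smul_eq_mul, smul_eq_mul]
      ext
      · simp only; ring
      · simp only; ring
    rw [e, (hctr'.smul hK' (by
      intro h; have := congrArg Prod.fst h; simp at this) hn.ne').2, hB] at h1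
    rcases div_eq_zero_iff.1 h1 with h2 | h2
    · exact h2
    · exact absurd h2 hn.ne'
  obtain ⟨ε', hε', hv⟩ := local_zero_std hK' hctr' hr' hlam hfl hB1
  -- translate back
  have c1 : ContinuousAt (fun w : ℝ × ℝ => w.1 * d.1 + w.2 * d.2) d := by fun_prop
  have c2 : ContinuousAt (fun w : ℝ × ℝ => w.2 * d.1 - w.1 * d.2) d := by fun_prop
  have p1 : 0 < d.1 * d.1 + d.2 * d.2 := by
    have : d.1 * d.1 + d.2 * d.2 = d.1 ^ 2 + d.2 ^ 2 := by ring
    rw [this]; exact hn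
  have e1 : ∀ᶠ w : ℝ × ℝ in 𝓝 d, 0 < w.1 * d.1 + w.2 * d.2 :=
    continuousAt_const.eventually_lt c1 p1
  have e2 : ∀ᶠ w : ℝ × ℝ in 𝓝 d, |(w.2 * d.1 - w.1 * d.2) / (w.1 * d.1 + w.2 * d.2)| < ε' := by
    apply ContinuousAt.eventually_lt ((c2.div c1 p1.ne').abs) continuousAt_const
    have h0 : d.2 * d.1 - d.1 * d.2 = 0 := by ring
    change |(d.2 * d.1 - d.1 * d.2) / (d.1 * d.1 + d.2 * d.2)| < ε'
    rw [h0, zero_div, abs_zero]
    exact hε'
  have e3 : ∀ᶠ w : ℝ × ℝ in 𝓝 d, w ≠ 0 := isOpen_ne.mem_nhds hd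
  filter_upwards [e1, e2, e3] with w g1 g2 g3
  obtain ⟨u, v⟩ := w
  simp only at g1 g2
  rw [← hrel u v g3]
  have e : ((u * d.1 + v * d.2, v * d.1 - u * d.2) : ℝ × ℝ) = (u * d.1 + v * d.2) •
      ((1, (v * d.1 - u * d.2) / (u * d.1 + v * d.2)) : ℝ × ℝ) := by
    rw [Prod.smul_mk, smul_eq_mul, smul_eq_mul, mul_one, mul_div_cancel₀ _ g1.ne']
  rw [e, (hctr'.smul hK' (by
    intro h; have := congrArg Prod.fst h; simp at this) g1.ne').2, hv _ g2, zero_div]

/-- **Flat bodies have no bad direction.** -/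
theorem flat_contra (hK : SB K) (hc : HC K) {r lam : ℝ} (hr : 0 < r) (hlam : 0 < lam)
    (hflat : ∀ z ∈ ball (0 : ℝ × ℝ) r, qf K z = 1 ∧ qf (-K) z = lam) {a b : ℝ} (hb : 0 < b)
    (hcen : Cen K (0, 1) ((-1, 0), 0) a b) : False := by
  choose A B hAB using fun z d : ℝ × ℝ => hc (z, 1) (d, 0)
  have hctr : Ctr K A B := ⟨hAB⟩
  have hBm : B 0 (-1, 0) = b := (hctr.eq hK d1_ne hcen).2
  have hBp : B 0 (1, 0) = -b := by
    have := (hctr.negd hK (z := 0) (d := (-1, 0)) d1_ne).2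
    rw [show -((-1, 0) : ℝ × ℝ) = (1, 0) by simp] at this
    rw [this, hBm]
  let γ : ℝ → ℝ × ℝ := fun s => (1 - 2 * s, s * (1 - s))
  have hγ : Continuous γ := by
    change Continuous (fun s : ℝ => (1 - 2 * s, s * (1 - s)))
    fun_prop
  have hγ0 : ∀ s, γ s ≠ 0 := by
    intro s h0
    have h1 : 1 - 2 * s = 0 := congrArg Prod.fst h0
    have h2 : s * (1 - s) = 0 := congrArg Prod.snd h0
    have h3 : s = 1 / 2 := by linarith
    rw [h3] at h2
    norm_num at h2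
  have g0 : γ 0 = (1, 0) := by simp [γ]
  have g1 : γ 1 = (-1, 0) := by simp [γ]; norm_num
  have hcont := hctr.contB_line hK hγ hγ0 0
  have s0 : B 0 (γ 0) < 0 := by rw [g0, hBp]; linarith
  have s1 : 0 < B 0 (γ 1) := by rw [g1, hBm]; exact hb
  have hne : (Icc (0 : ℝ) 1 ∩ (fun s => B 0 (γ s)) ⁻¹' {0}).Nonempty := by
    obtain ⟨s, hs, hsB⟩ := exists_zero hK hctr hγ hγ0 s0 s1
    exact ⟨s, hs, hsB⟩
  have hcomp : IsCompact (Icc (0 : ℝ) 1 ∩ (fun s => B 0 (γ s)) ⁻¹' {0}) :=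
    isCompact_Icc.inter_right (isClosed_singleton.preimage hcont)
  set s := sInf (Icc (0 : ℝ) 1 ∩ (fun s => B 0 (γ s)) ⁻¹' {0}) with hs
  have hsmem := hcomp.sInf_mem hne
  rw [← hs] at hsmem
  have hsB : B 0 (γ s) = 0 := hsmem.2
  have hspos : 0 < s := by
    rcases hsmem.1.1.eq_or_lt with h0 | h0
    · rw [← h0] at hsB
      exact absurd hsB s0.ne
    · exact h0
  have hloc := local_zero hK hc hctr hr hlam hflat (hγ0 s) hsB
  have hev : ∀ᶠ t in 𝓝 s, B 0 (γ t) = 0 := hγ.continuousAt.eventually hloc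
  obtain ⟨ε, hε, hball⟩ := Metric.eventually_nhds_iff.1 hev
  set t := s - min (ε / 2) s / 2 with ht
  have hmin : 0 < min (ε / 2) s := lt_min (by positivity) hspos
  have hminle1 : min (ε / 2) s ≤ ε / 2 := min_le_left _ _
  have hminle2 : min (ε / 2) s ≤ s := min_le_right _ _
  have htB := hball (y := t) (by
    rw [Real.dist_eq, abs_lt]
    constructor <;> linarith)
  have htlt : t < s := by linarith
  have htI : t ∈ Icc (0 : ℝ) 1 := ⟨by linarith, by linarith [hsmem.1.2]⟩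
  have := csInf_le hcomp.bddBelow (show t ∈ _ from ⟨htI, htB⟩)
  rw [← hs] at this
  linarith

/-- No bad configuration, in coordinates, first case. -/
theorem noBad_le (hK : SB K) (hc : HC K) {A B : ℝ × ℝ → ℝ × ℝ → ℝ} (h : Ctr K A B)
    (hs : Sgn B 0) (hle : qf (-K) 0 ≤ qf K 0) : False := by
  obtain ⟨K₁, hK₁, hc₁, ⟨r, lam, hr, hlam, hflat⟩, a, b, hb, hcen⟩ := exists_flat hK hc h hs hle
  exact flat_contra hK₁ hc₁ hr hlam hflat hb hcen

/-- reflection in the height -/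
def flip : ((ℝ × ℝ) × ℝ) →ₗ[ℝ] ((ℝ × ℝ) × ℝ) where
  toFun v := (v.1, -v.2)
  map_add' v w := by ext <;> simp; ring
  map_smul' c v := by ext <;> simp

theorem flip_apply (v : ℝ × ℝ) (k : ℝ) : flip (v, k) = (v, -k) := rfl

theorem flip_bij : Function.Bijective flip := by
  have hs : Function.Surjective flip := by
    rintro ⟨v, k⟩
    exact ⟨(v, -k), by rw [flip_apply, neg_neg]⟩
  exact ⟨LinearMap.injective_iff_surjective.2 hs, hs⟩

theorem noBad_coord (hK : SB K) (hc : HC K) {A B : ℝ × ℝ → ℝ × ℝ → ℝ} (h : Ctr K A B)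
    (hs : Sgn B 0) : False := by
  rcases le_total (qf (-K) 0) (qf K 0) with hle | hle
  · exact noBad_le hK hc h hs hle
  · have hK' : SB (flip '' K) := hK.image_lin flip flip_bij.2
    have hc' : HC (flip '' K) := hc.image flip flip_bij
    choose A' B' hAB' using fun z d : ℝ × ℝ => hc' (z, 1) (d, 0)
    have hctr' : Ctr (flip '' K) A' B' := ⟨hAB'⟩
    have hrel : ∀ D : ℝ × ℝ, D ≠ 0 → B' 0 D = B 0 D := by
      intro D hD
      have h1 := (Cen.image flip flip_bij.1).2 (h.cen 0 D)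
      rw [flip_apply, flip_apply, neg_zero] at h1
      have h2 := h1.smul_left (s := -1) (by norm_num)
      have e : (-1 : ℝ) • ((0, -1) : (ℝ × ℝ) × ℝ) = (0, 1) := by
        rw [Prod.smul_mk, smul_zero, smul_eq_mul]; norm_num
      rw [e] at h2
      exact (hctr'.eq hK' hD h2).2
    have hs' : Sgn B' 0 := by
      refine ⟨?_, ?_, ?_⟩
      · rw [hrel _ d1_ne]; exact hs.1
      · rw [hrel _ d2_ne]; exact hs.2.1
      · rw [hrel _ d3_ne]; exact hs.2.2
    apply noBad_le hK' hc' hctr' hs'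
    have e1 : qf (flip '' K) 0 = qf (-K) 0 := by
      unfold qf
      have : ((0, 1) : (ℝ × ℝ) × ℝ) = flip (0, -1) := by rw [flip_apply, neg_neg]
      conv_lhs => rw [this]
      rw [rad_image flip flip_bij.1, rad_neg, Prod.neg_mk, neg_zero]
    have e2 : qf (-(flip '' K)) 0 = qf K 0 := by
      unfold qf
      rw [rad_neg, Prod.neg_mk, neg_zero]
      have : ((0, -1) : (ℝ × ℝ) × ℝ) = flip (0, 1) := by rw [flip_apply]
      rw [this, rad_image flip flip_bij.1]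
    rw [e1, e2]
    exact hle

section abstractE

variable {E : Type*} [NormedAddCommGroup E] [InnerProductSpace ℝ E] [FiniteDimensional ℝ E]

/-- **No bad configuration.** -/
theorem noBad (hE : finrank ℝ E = 3) {K : Set E} (hK : SB K) (hc : HC K) (hbad : Bad K) :
    False := by
  obtain ⟨x0, w1, w2, hind, ⟨a1, b1, hb1, c1⟩, ⟨a2, b2, hb2, c2⟩, ⟨a3, b3, hb3, c3⟩⟩ := hbad
  let L : ((ℝ × ℝ) × ℝ) →ₗ[ℝ] E :=
    { toFun := fun p => p.2 • x0 + (-p.1.1) • w1 + (-p.1.2) • w2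
      map_add' := by intro p q; simp only [Prod.fst_add, Prod.snd_add]; module
      map_smul' := by
        intro r p; simp only [Prod.smul_fst, Prod.smul_snd, smul_eq_mul, RingHom.id_apply]; module }
  have hL : ∀ x y k : ℝ, L ((x, y), k) = k • x0 + (-x) • w1 + (-y) • w2 := fun _ _ _ => rfl
  have hLinj : Function.Injective L := by
    rw [injective_iff_map_eq_zero]
    rintro ⟨⟨x, y⟩, k⟩ hp
    rw [hL] at hp
    obtain ⟨h1, h2, h3⟩ := hind _ _ _ hp
    have hx : x = 0 := by linarith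
    have hy : y = 0 := by linarith
    rw [h1, hx, hy]
    rfl
  have hLbij : Function.Bijective L := by
    refine ⟨hLinj, ?_⟩
    have hfin : finrank ℝ ((ℝ × ℝ) × ℝ) = finrank ℝ E := by
      rw [hE]; simp
    exact (LinearMap.injective_iff_surjective_of_finrank_eq_finrank hfin).1 hLinj
  let e : ((ℝ × ℝ) × ℝ) ≃ₗ[ℝ] E := LinearEquiv.ofBijective L hLbij
  let T : E →ₗ[ℝ] ((ℝ × ℝ) × ℝ) := e.symm
  have hTb : Function.Bijective T := e.symm.bijective
  have hTL : ∀ p, T (L p) = p := fun p => e.symm_apply_apply p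
  have t0 : T x0 = (0, 1) := by
    have h1 := hTL ((0, 0), 1)
    rw [hL] at h1
    have h2 : T x0 = ((0, 0), 1) := by simpa using h1
    exact h2
  have t1 : T w1 = ((-1, 0), 0) := by
    have := hTL ((-1, 0), 0)
    rw [hL] at this
    simpa using this
  have t2 : T w2 = ((0, -1), 0) := by
    have := hTL ((0, -1), 0)
    rw [hL] at this
    simpa using this
  have t3 : T (-(w1 + w2)) = ((1, 1), 0) := by
    rw [map_neg, map_add, t1, t2]
    simp
  have hK' : SB (T '' K) := hK.image_lin T hTb.2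
  have hc' : HC (T '' K) := hc.image T hTb
  choose A' B' hAB' using fun z d : ℝ × ℝ => hc' (z, 1) (d, 0)
  have hctr' : Ctr (T '' K) A' B' := ⟨hAB'⟩
  apply noBad_coord hK' hc' hctr'
  have i1 := (Cen.image T hTb.1).2 c1
  have i2 := (Cen.image T hTb.1).2 c2
  have i3 := (Cen.image T hTb.1).2 c3
  rw [t0, t1] at i1
  rw [t0, t2] at i2
  rw [t0, t3] at i3
  refine ⟨?_, ?_, ?_⟩
  · rw [(hctr'.eq hK' d1_ne i1).2]; exact hb1
  · rw [(hctr'.eq hK' d2_ne i2).2]; exact hb2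
  · rw [(hctr'.eq hK' d3_ne i3).2]; exact hb3

theorem HC_of_symSec {K : Set E} (hK : SB K) (h : SymSec 2 K) : HC K := by
  -- lines
  have hline : ∀ X : E, X ≠ 0 → ∃ m : ℝ, ∀ s : ℝ, s • X ∈ K → (2 * m - s) • X ∈ K := by
    intro X hX
    refine ⟨(rad K X - rad K (-X)) / 2, ?_⟩
    intro s hs
    rw [hK.line_mem_iff hX] at hs ⊢
    constructor <;> linarith [hs.1, hs.2]
  intro X Y
  by_cases hXY : Ind X Y
  · have hli : LinearIndependent ℝ ![X, Y] := LinearIndependent.pair_iff.2 hXY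
    have hfin : finrank ℝ (Submodule.span ℝ (Set.range ![X, Y])) = 2 := by
      rw [finrank_span_eq_card hli]; simp
    obtain ⟨c, hcS, hsym⟩ := h _ hfin
    have hrange : Set.range ![X, Y] = {X, Y} := by
      ext v; simp [Matrix.range_cons, or_comm]
    rw [hrange] at hcS hsym
    obtain ⟨a, b, hab⟩ := Submodule.mem_span_pair.1 hcS
    refine ⟨a, b, ?_⟩
    intro α β hm
    have h1 := (hsym _ ⟨hm, Submodule.mem_span_pair.2 ⟨α, β, rfl⟩⟩).1
    rw [← hab] at h1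
    convert h1 using 1
    module
  · -- dependent vectors
    unfold Ind at hXY
    push Not at hXY
    obtain ⟨s, t, hst, hne⟩ := hXY
    by_cases hX : X = 0
    · subst hX
      by_cases hY : Y = 0
      · subst hY
        refine ⟨0, 0, ?_⟩
        intro α β _
        simp only [smul_zero, add_zero]
        exact hK.zero_mem
      · obtain ⟨m, hm⟩ := hline Y hY
        refine ⟨0, m, ?_⟩
        intro α β h1
        rw [smul_zero, zero_add] at h1 ⊢
        exact hm β h1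
    · obtain ⟨m, hm⟩ := hline X hX
      have ht : t ≠ 0 := by
        intro ht
        rw [ht, zero_smul, add_zero] at hst
        exact hne ((smul_eq_zero.1 hst).resolve_right hX) ht
      have hY : Y = (-(s / t)) • X := by
        have h1 : t • Y = -(s • X) := by rw [eq_neg_iff_add_eq_zero, add_comm]; exact hst
        calc Y = t⁻¹ • (t • Y) := by rw [smul_smul, inv_mul_cancel₀ ht, one_smul]
          _ = _ := by rw [h1, ← neg_smul, smul_smul]; congr 1; field_simp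
      refine ⟨m, 0, ?_⟩
      intro α β h1
      rw [hY, smul_smul, ← add_smul] at h1 ⊢
      have h2 := hm _ h1
      convert h2 using 2
      ring

end abstractE

/-- **The false centre theorem for star bodies in `ℝ³`.** -/
theorem FCa_three_two : FCa 3 2 := by
  intro E _ _ _ K hE hK hsec
  have hc := HC_of_symSec hK hsec
  rcases step1 hE hK hc with h | h
  · exact h
  · exact (noBad hE hK hc h).elim

theorem falseCentre_three_two : FalseCentre 3 2 := FCa_three_two.falseCentre (by norm_num)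

/-- **Question Q2.** -/
theorem q2_holds : ∀ n k : ℕ, 2 ≤ k → k < n → Q2 n k := q2_all_iff.2 falseCentre_three_two

end Pool.Agent.Lib.MP_f7db8a
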