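import Pool.Agent.Lib.MP_f7db8a.Cen
import Pool.Agent.Lib.MP_f7db8a.Anal

set_option autoImplicit false
set_option linter.unusedSectionVars false

/-!
# Flat bodies: planes near a fixed plane
-/

namespace Pool.Agent.Lib.MP_f7db8a

open Module Set Filter Topology Metric

/-- membership in coordinates -/
abbrev Mem (K : Set ((ℝ × ℝ) × ℝ)) (x y h : ℝ) : Prop := ((x, y), h) ∈ K

theorem mem_000 {K : Set ((ℝ × ℝ) × ℝ)} (hK : SB K) : Mem K 0 0 0 := hK.zero_mem

theorem exists_bound {K : Set ((ℝ × ℝ) × ℝ)} (hK : SB K) : ∃ M : ℝ, 0 < M ∧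
    ∀ x y h : ℝ, Mem K x y h → |x| ≤ M ∧ |y| ≤ M := by
  obtain ⟨R, hR⟩ := hK.compact.isBounded.exists_norm_le
  refine ⟨max R 1, by positivity, ?_⟩
  intro x y h hm
  have h1 := hR _ hm
  have h2 : ‖((x, y) : ℝ × ℝ)‖ ≤ R := (norm_fst_le (((x, y), h) : (ℝ × ℝ) × ℝ)).trans h1
  have h3 : ‖x‖ ≤ R := (norm_fst_le ((x, y) : ℝ × ℝ)).trans h2
  have h4 : ‖y‖ ≤ R := (norm_snd_le ((x, y) : ℝ × ℝ)).trans h2
  exact ⟨h3.trans (le_max_left _ _), h4.trans (le_max_left _ _)⟩

/-! ### Centres of height zero -/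

/-- **Case of centres of height zero.** -/
theorem height_zero {K : Set ((ℝ × ℝ) × ℝ)} (hK : SB K) {ε : ℝ} (hε : 0 < ε) {f : ℝ → ℝ → ℝ}
    (hf : ∀ a b : ℝ, |a| < ε → |b| < ε → ∀ x h : ℝ, Mem K x (h * b + x * a) h →
      Mem K (2 * f a b - x) (-h * b + (2 * f a b - x) * a) (-h)) (h00 : f 0 0 = 0) :
    ∃ ε' : ℝ, 0 < ε' ∧ ∀ a : ℝ, |a| < ε' → f a 0 = 0 := by
  obtain ⟨M, hM, hMb⟩ := exists_bound hK
  -- `f 0 b = 0`
  have h0b : ∀ b : ℝ, |b| < ε → f 0 b = 0 := by
    intro b hb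
    have key : ∀ n : ℕ, Mem K ((n : ℝ) * (2 * f 0 b)) 0 0 := by
      intro n
      induction n with
      | zero =>
        have := mem_000 hK
        simpa using this
      | succ n ih =>
        have h1 := hf 0 0 (by simpa using hε) (by simpa using hε) ((n : ℝ) * (2 * f 0 b)) 0
          (by simpa using ih)
        rw [h00] at h1
        have h2 := hf 0 b (by simpa using hε) hb (-((n : ℝ) * (2 * f 0 b))) 0 (by
          simpa using h1)
        have e1 : 2 * f 0 b - -((n : ℝ) * (2 * f 0 b)) = ((n + 1 : ℕ) : ℝ) * (2 * f 0 b) := by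
          push_cast; ring
        rw [e1] at h2
        simpa using h2
    by_contra hne
    have hpos : 0 < |2 * f 0 b| := abs_pos.2 (mul_ne_zero two_ne_zero hne)
    obtain ⟨n, hn⟩ := exists_nat_gt (M / |2 * f 0 b|)
    have h1 := (hMb _ _ _ (key n)).1
    rw [abs_mul, abs_of_nonneg (Nat.cast_nonneg n)] at h1
    rw [div_lt_iff₀ hpos] at hn
    linarith
  -- small point on the axis
  obtain ⟨h₀, hh₀, hmem⟩ : ∃ h₀ : ℝ, 0 < h₀ ∧ Mem K 0 0 h₀ := by
    have h1 : ((((0 : ℝ), (0 : ℝ)), (1 : ℝ)) : (ℝ × ℝ) × ℝ) ≠ 0 := by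
      intro h; have := congrArg Prod.snd h; simp at this
    refine ⟨rad K ((0, 0), 1), hK.rad_pos h1, ?_⟩
    have := hK.rad_smul_mem h1
    simpa [Mem, Prod.smul_mk] using this
  refine ⟨min ε (ε * h₀ / (3 * M)), by positivity, ?_⟩
  intro a ha
  have ha1 : |a| < ε := ha.trans_le (min_le_left _ _)
  have ha2 : |a| < ε * h₀ / (3 * M) := ha.trans_le (min_le_right _ _)
  by_contra hg
  set g := f a 0 with hgdef
  -- orbit
  have key : ∀ n : ℕ, |2 * ((n : ℝ) * (a * g))| < ε * h₀ → Mem K (-(2 * ((n : ℝ) * g)))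
      (-(2 * ((n : ℝ) * (a * g)))) h₀ := by
    intro n
    induction n with
    | zero => intro _; simpa using hmem
    | succ n ih =>
      intro hn
      push_cast at hn ⊢
      have hn' : |2 * ((n : ℝ) * (a * g))| < ε * h₀ := by
        have e : ∀ c : ℝ, 0 ≤ c → |2 * (c * (a * g))| = 2 * (c * |a * g|) := by
          intro c hc
          rw [abs_mul, abs_mul, abs_of_pos (two_pos : (0 : ℝ) < 2), abs_of_nonneg hc]
        rw [e _ (by positivity)] at hn ⊢
        refine lt_of_le_of_lt ?_ hn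
        gcongr
        linarith
      have h1 := ih hn'
      have h2 := hf a 0 ha1 (by simpa using hε) (-(2 * ((n : ℝ) * g))) h₀ (by
        have e : h₀ * 0 + -(2 * ((n : ℝ) * g)) * a = -(2 * ((n : ℝ) * (a * g))) := by ring
        rw [e]; exact h1)
      rw [← hgdef] at h2
      set b := -(2 * (((n : ℝ) + 1) * (a * g))) / h₀ with hb
      have hbabs : |b| < ε := by
        rw [hb, abs_div, abs_neg, abs_of_pos hh₀, div_lt_iff₀ hh₀]
        exact hn
      have h3 := hf 0 b (by simpa using hε) hbabs (2 * (((n : ℝ) + 1) * g)) (-h₀) (by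
        have e1 : -h₀ * b + 2 * (((n : ℝ) + 1) * g) * 0 = 2 * (((n : ℝ) + 1) * (a * g)) := by
          rw [hb]; field_simp; ring
        rw [e1]
        have e2 : 2 * g - -(2 * ((n : ℝ) * g)) = 2 * (((n : ℝ) + 1) * g) := by ring
        have e3 : -h₀ * 0 + (2 * g - -(2 * ((n : ℝ) * g))) * a =
            2 * (((n : ℝ) + 1) * (a * g)) := by ring
        rw [e3, e2] at h2
        exact h2)
      rw [h0b b hbabs] at h3
      have e2 : - -h₀ * b + (2 * 0 - 2 * (((n : ℝ) + 1) * g)) * 0 =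
          -(2 * (((n : ℝ) + 1) * (a * g))) := by
        rw [hb]; field_simp; ring
      rw [e2, neg_neg] at h3
      have e3 : 2 * 0 - 2 * (((n : ℝ) + 1) * g) = -(2 * (((n : ℝ) + 1) * g)) := by ring
      rw [e3] at h3
      exact h3
  have hgpos : 0 < |g| := abs_pos.2 hg
  -- `|g| ≤ M`
  have hgM : |2 * g| ≤ M ∨ True := Or.inr trivial
  obtain ⟨n, hn⟩ := exists_nat_gt (M / (2 * |g|))
  -- minimal such n
  classical
  set N := Nat.find (⟨n, hn⟩ : ∃ n : ℕ, M / (2 * |g|) < n) with hN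
  have hN1 : M / (2 * |g|) < N := Nat.find_spec (⟨n, hn⟩ : ∃ n : ℕ, M / (2 * |g|) < n)
  have hNpos : 0 < N := by
    rcases Nat.eq_zero_or_pos N with h0 | h0
    · rw [h0] at hN1
      have : 0 < M / (2 * |g|) := by positivity
      simp at hN1
      linarith
    · exact h0
  have hN2 : (N : ℝ) - 1 ≤ M / (2 * |g|) := by
    have h1 := Nat.find_min (⟨n, hn⟩ : ∃ n : ℕ, M / (2 * |g|) < n) (m := N - 1) (by omega)
    rw [not_lt] at h1
    have h2 : ((N - 1 : ℕ) : ℝ) = (N : ℝ) - 1 := by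
      rw [Nat.cast_sub (by omega)]; simp
    rw [h2] at h1
    exact h1
  rw [div_lt_iff₀ (by positivity)] at hN1
  rw [le_div_iff₀ (by positivity)] at hN2
  -- `2 |g| ≤ M`: from the first step
  have hg2 : 2 * |g| ≤ 2 * M := by
    have h1 := hf a 0 ha1 (by simpa using hε) 0 0 (by simpa using mem_000 hK)
    have h2 := (hMb _ _ _ h1).1
    rw [← hgdef, sub_zero, abs_mul, abs_of_pos (two_pos : (0 : ℝ) < 2)] at h2
    linarith
  have hsmall : |2 * ((N : ℝ) * (a * g))| < ε * h₀ := by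
    rw [abs_mul, abs_mul, abs_mul, abs_of_pos (two_pos : (0 : ℝ) < 2),
      abs_of_nonneg (Nat.cast_nonneg N)]
    have h1 : 2 * ((N : ℝ) * (|a| * |g|)) = |a| * ((N : ℝ) * (2 * |g|)) := by ring
    rw [h1]
    have h2 : (N : ℝ) * (2 * |g|) ≤ 3 * M := by linarith
    rw [lt_div_iff₀ (by positivity)] at ha2
    calc |a| * ((N : ℝ) * (2 * |g|)) ≤ |a| * (3 * M) := by gcongr
      _ < ε * h₀ := ha2
  have h1 := (hMb _ _ _ (key N hsmall)).1
  rw [abs_neg, abs_mul, abs_mul, abs_of_pos (two_pos : (0 : ℝ) < 2),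
    abs_of_nonneg (Nat.cast_nonneg N)] at h1
  linarith

/-! ### Centres of height one -/

/-- A locally additive continuous function is linear. -/
theorem local_linear {F : ℝ → ℝ} {η : ℝ} (hη : 0 < η) (hF : ContinuousOn F (Icc (-η) η))
    (hadd : ∀ y v : ℝ, |y| ≤ η → |v| ≤ η → F (y + v) = F y + F v) {y : ℝ} (hy : |y| ≤ η) :
    F y = F η / η * y := by
  have h0 : F 0 = 0 := by
    have := hadd 0 0 (by simpa using hη.le) (by simpa using hη.le)
    rw [add_zero] at this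
    linarith
  have hpos : ∀ y : ℝ, 0 ≤ y → y ≤ η → F y = F η / η * y := by
    intro y hy0 hyη
    have hmul : ∀ w : ℝ, 0 ≤ w → ∀ k : ℕ, (k : ℝ) * w ≤ η → F ((k : ℝ) * w) = k * F w := by
      intro w hw k
      induction k with
      | zero => intro _; simp [h0]
      | succ k ih =>
        intro hk
        push_cast at hk ⊢
        have hk1 : (k : ℝ) * w ≤ η := by linarith
        have hkw : 0 ≤ (k : ℝ) * w := by positivity
        have hw1 : w ≤ η := by linarith
        rw [show ((k : ℝ) + 1) * w = (k : ℝ) * w + w by ring,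
          hadd _ _ (by rw [abs_of_nonneg hkw]; exact hk1) (by rw [abs_of_nonneg hw]; exact hw1),
          ih hk1]
        ring
    have hfl : Tendsto (fun n : ℕ => (⌊y / η * (n : ℝ)⌋₊ : ℝ) / (n : ℝ)) atTop (𝓝 (y / η)) :=
      (tendsto_nat_floor_mul_div_atTop (R := ℝ) (by positivity)).comp tendsto_natCast_atTop_atTop
    have hle : ∀ n : ℕ, 0 < n → (⌊y / η * (n : ℝ)⌋₊ : ℝ) / (n : ℝ) * η ∈ Icc (-η) η := by
      intro n hn
      have hn' : (0 : ℝ) < n := by exact_mod_cast hn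
      have h1 : (⌊y / η * (n : ℝ)⌋₊ : ℝ) ≤ y / η * n := Nat.floor_le (by positivity)
      have h2 : (⌊y / η * (n : ℝ)⌋₊ : ℝ) / (n : ℝ) ≤ y / η := by
        rw [div_le_iff₀ hn']; exact h1
      have h3 : y / η ≤ 1 := by rw [div_le_one hη]; exact hyη
      have h4 : (0 : ℝ) ≤ (⌊y / η * (n : ℝ)⌋₊ : ℝ) / (n : ℝ) := by positivity
      constructor
      · have : 0 ≤ (⌊y / η * (n : ℝ)⌋₊ : ℝ) / (n : ℝ) * η := by positivity
        linarith
      · nlinarith
    have hval : ∀ n : ℕ, 0 < n → F ((⌊y / η * (n : ℝ)⌋₊ : ℝ) / (n : ℝ) * η) =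
        (⌊y / η * (n : ℝ)⌋₊ : ℝ) / (n : ℝ) * F η := by
      intro n hn
      have hn' : (0 : ℝ) < n := by exact_mod_cast hn
      have e1 : (⌊y / η * (n : ℝ)⌋₊ : ℝ) / (n : ℝ) * η = (⌊y / η * (n : ℝ)⌋₊ : ℝ) * (η / n) := by
        field_simp
      have e2 : F η = n * F (η / n) := by
        have := hmul (η / n) (by positivity) n (by field_simp; exact le_rfl)
        rwa [mul_div_cancel₀ _ hn'.ne'] at this
      rw [e1, hmul (η / n) (by positivity) _ (by rw [← e1]; exact (hle n hn).2), e2]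
      field_simp
    have l1 : Tendsto (fun n : ℕ => (⌊y / η * (n : ℝ)⌋₊ : ℝ) / (n : ℝ) * η) atTop
        (𝓝[Icc (-η) η] y) := by
      rw [tendsto_nhdsWithin_iff]
      constructor
      · have := hfl.mul_const η
        rwa [div_mul_cancel₀ _ hη.ne'] at this
      · filter_upwards [eventually_gt_atTop 0] with n hn using hle n hn
    have l2 : Tendsto (fun n : ℕ => F ((⌊y / η * (n : ℝ)⌋₊ : ℝ) / (n : ℝ) * η)) atTop (𝓝 (F y)) :=
      (hF y ⟨by linarith, hyη⟩).tendsto.comp l1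
    have l3 : Tendsto (fun n : ℕ => (⌊y / η * (n : ℝ)⌋₊ : ℝ) / (n : ℝ) * F η) atTop
        (𝓝 (y / η * F η)) := hfl.mul_const _
    have l4 : Tendsto (fun n : ℕ => F ((⌊y / η * (n : ℝ)⌋₊ : ℝ) / (n : ℝ) * η)) atTop
        (𝓝 (y / η * F η)) := by
      refine l3.congr' ?_
      filter_upwards [eventually_gt_atTop 0] with n hn using (hval n hn).symm
    rw [tendsto_nhds_unique l2 l4]
    ring
  rcases le_total 0 y with h | h
  · exact hpos y h (by rwa [abs_of_nonneg h] at hy)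
  · have h1 := hpos (-y) (by linarith) (by rwa [abs_of_nonpos h] at hy)
    have h2 := hadd y (-y) hy (by rwa [abs_neg])
    rw [add_neg_cancel, h0] at h2
    linarith

/-- Planes near `{y = 0}` with centres of height one. -/
structure RF (K : Set ((ℝ × ℝ) × ℝ)) (ε : ℝ) (f : ℝ → ℝ → ℝ) : Prop where
  hK : SB K
  hε : 0 < ε
  refl : ∀ a b : ℝ, |a| < ε → |b| < ε → ∀ x h : ℝ, Mem K x (h * b + x * a) h →
    Mem K (2 * f a b - x) ((2 - h) * b + (2 * f a b - x) * a) (2 - h)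
  cont : ∀ a b : ℝ, |a| < ε → |b| < ε → ContinuousAt (fun p : ℝ × ℝ => f p.1 p.2) (a, b)
  f00 : f 0 0 = 0

namespace RF

variable {K : Set ((ℝ × ℝ) × ℝ)} {ε : ℝ} {f : ℝ → ℝ → ℝ}

theorem mono (h : RF K ε f) {ε' : ℝ} (h0 : 0 < ε') (hle : ε' ≤ ε) : RF K ε' f :=
  ⟨h.hK, h0, fun a b ha hb => h.refl a b (ha.trans_le hle) (hb.trans_le hle),
    fun a b ha hb => h.cont a b (ha.trans_le hle) (hb.trans_le hle), h.f00⟩

theorem iff (h : RF K ε f) {a b : ℝ} (ha : |a| < ε) (hb : |b| < ε) (x k : ℝ) :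
    Mem K x (k * b + x * a) k ↔
      Mem K (2 * f a b - x) ((2 - k) * b + (2 * f a b - x) * a) (2 - k) := by
  refine ⟨h.refl a b ha hb x k, fun h1 => ?_⟩
  have h2 := h.refl a b ha hb _ _ h1
  rwa [show 2 * f a b - (2 * f a b - x) = x by ring, show 2 - (2 - k) = k by ring] at h2

/-- extents of the horizontal section at height zero -/
noncomputable def Rp (K : Set ((ℝ × ℝ) × ℝ)) (a : ℝ) : ℝ := rad K ((1, a), 0)
noncomputable def Rm (K : Set ((ℝ × ℝ) × ℝ)) (a : ℝ) : ℝ := rad K (-((1, a), 0))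

theorem vec_ne (a : ℝ) : (((1, a), 0) : (ℝ × ℝ) × ℝ) ≠ 0 := by
  intro h
  have h1 := congrArg (fun p : (ℝ × ℝ) × ℝ => p.1.1) h
  simp at h1

theorem Rp_pos (hK : SB K) (a : ℝ) : 0 < Rp K a := hK.rad_pos (vec_ne a)
theorem Rm_pos (hK : SB K) (a : ℝ) : 0 < Rm K a := hK.rad_pos (neg_ne_zero.2 (vec_ne a))

theorem Rp_cont (hK : SB K) : Continuous (Rp K) := by
  rw [continuous_iff_continuousAt]
  intro a
  exact ContinuousAt.comp (f := fun a : ℝ => (((1, a), 0) : (ℝ × ℝ) × ℝ)) (g := rad K)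
    (hK.continuousAt_rad (vec_ne a)) (by fun_prop)

theorem Rm_cont (hK : SB K) : Continuous (Rm K) := by
  rw [continuous_iff_continuousAt]
  intro a
  exact ContinuousAt.comp (f := fun a : ℝ => -(((1, a), 0) : (ℝ × ℝ) × ℝ)) (g := rad K)
    (hK.continuousAt_rad (neg_ne_zero.2 (vec_ne a))) (by fun_prop)

theorem mem_zero (hK : SB K) (a x : ℝ) : Mem K x (x * a) 0 ↔ -Rm K a ≤ x ∧ x ≤ Rp K a := by
  have := hK.line_mem_iff (vec_ne a) x
  rw [Prod.smul_mk, Prod.smul_mk, smul_zero, smul_eq_mul, smul_eq_mul, mul_one] at this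
  exact this

/-- the section at height two -/
theorem mem_two (h : RF K ε f) {a b : ℝ} (ha : |a| < ε) (hb : |b| < ε) (x : ℝ) :
    Mem K x (2 * b + x * a) 2 ↔ 2 * f a b - Rp K a ≤ x ∧ x ≤ 2 * f a b + Rm K a := by
  have h1 := h.iff ha hb (2 * f a b - x) 0
  rw [zero_mul, zero_add, mem_zero h.hK] at h1
  rw [show 2 * f a b - (2 * f a b - x) = x by ring, show (2 : ℝ) - 0 = 2 by ring] at h1
  rw [← h1]
  constructor <;> rintro ⟨h2, h3⟩ <;> constructor <;> linarith

theorem mem_two' (h : RF K ε f) {y : ℝ} (hy : |y| < 2 * ε) (x : ℝ) :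
    Mem K x y 2 ↔ 2 * f 0 (y / 2) - Rp K 0 ≤ x ∧ x ≤ 2 * f 0 (y / 2) + Rm K 0 := by
  have h1 := h.mem_two (a := 0) (b := y / 2) (by simpa using h.hε) (by
    rw [abs_div, abs_of_pos (two_pos : (0 : ℝ) < 2)]; linarith) x
  rwa [mul_zero, add_zero, mul_div_cancel₀ y (two_ne_zero)] at h1

theorem cont0 (h : RF K ε f) {b : ℝ} (hb : |b| < ε) : ContinuousAt (fun b => f 0 b) b := by
  have h1 := h.cont 0 b (by simpa using h.hε) hb
  exact ContinuousAt.comp (f := fun b : ℝ => ((0, b) : ℝ × ℝ)) (x := b)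
    (g := fun p : ℝ × ℝ => f p.1 p.2) h1 (by fun_prop)

theorem conta (h : RF K ε f) {a b : ℝ} (ha : |a| < ε) (hb : |b| < ε) :
    ContinuousAt (fun b => f a b) b := by
  have h1 := h.cont a b ha hb
  exact ContinuousAt.comp (f := fun b : ℝ => ((a, b) : ℝ × ℝ)) (x := b)
    (g := fun p : ℝ × ℝ => f p.1 p.2) h1 (by fun_prop)

theorem contf0 (h : RF K ε f) {a : ℝ} (ha : |a| < ε) : ContinuousAt (fun a => f a 0) a := by
  have h1 := h.cont a 0 ha (by simpa using h.hε)
  exact ContinuousAt.comp (f := fun a : ℝ => ((a, 0) : ℝ × ℝ)) (x := a)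
    (g := fun p : ℝ × ℝ => f p.1 p.2) h1 (by fun_prop)

/-- right endpoint -/
theorem right_end (h : RF K ε f) {M : ℝ} (hM : ∀ x y k : ℝ, Mem K x y k → |x| ≤ M ∧ |y| ≤ M)
    {a b : ℝ} (ha : |a| < ε) (haM : |a| * (M + 1) ≤ ε) (hb : |b| < ε / 2) :
    2 * f a b + Rm K a = 2 * f 0 ((2 * b + (2 * f a b + Rm K a) * a) / 2) + Rm K 0 := by
  have hε := h.hε
  have hbε : |b| < ε := by linarith
  set xr := 2 * f a b + Rm K a with hxr
  have hmem : Mem K xr (2 * b + xr * a) 2 := (h.mem_two ha hbε xr).2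
    ⟨by rw [hxr]; linarith [Rm_pos h.hK a, Rp_pos h.hK a], le_rfl⟩
  have hxrM := (hM _ _ _ hmem).1
  have hM0 : 0 ≤ M := (abs_nonneg _).trans hxrM
  have hdom : ∀ x : ℝ, |x| ≤ M + 1 → |2 * b + x * a| < 2 * ε := by
    intro x hx
    calc |2 * b + x * a| ≤ |2 * b| + |x * a| := abs_add_le _ _
      _ = 2 * |b| + |a| * |x| := by
          rw [abs_mul, abs_mul, abs_of_pos (two_pos : (0 : ℝ) < 2), mul_comm |x|]
      _ ≤ 2 * |b| + |a| * (M + 1) := by gcongr
      _ < 2 * ε := by linarith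
  have h1 := (h.mem_two' (hdom xr (by linarith)) xr).1 hmem
  apply le_antisymm h1.2
  by_contra hlt
  rw [not_le] at hlt
  -- the function `G`
  set G : ℝ → ℝ := fun x => x - 2 * f 0 ((2 * b + x * a) / 2) with hG
  have hGc : ContinuousOn G (Icc xr (M + 1)) := by
    intro x hx
    have hxabs : |x| ≤ M + 1 := by
      rw [abs_le]
      have := (abs_le.1 hxrM).1
      exact ⟨by linarith [hx.1], hx.2⟩
    apply ContinuousAt.continuousWithinAt
    have hc : ContinuousAt (fun b => f 0 b) ((2 * b + x * a) / 2) := by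
      apply h.cont0
      rw [abs_div, abs_of_pos (two_pos : (0 : ℝ) < 2)]
      linarith [hdom x hxabs]
    have hc2 : ContinuousAt (fun x : ℝ => f 0 ((2 * b + x * a) / 2)) x :=
      ContinuousAt.comp (f := fun x : ℝ => (2 * b + x * a) / 2) (x := x)
        (g := fun b => f 0 b) hc (by fun_prop)
    exact continuousAt_id.sub (hc2.const_mul 2)
  have hxrM1 : xr ≤ M + 1 := by linarith [(abs_le.1 hxrM).2]
  have hGM : Rm K 0 ≤ G (M + 1) := by
    have hd := hdom (M + 1) (by rw [abs_of_nonneg (by linarith)])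
    have h2 := (h.mem_two' hd (2 * f 0 ((2 * b + (M + 1) * a) / 2) + Rm K 0)).2
      ⟨by linarith [Rm_pos h.hK 0, Rp_pos h.hK 0], le_rfl⟩
    have h3 := (abs_le.1 (hM _ _ _ h2).1).2
    simp only [hG]
    linarith
  have hGr : G xr ≤ Rm K 0 := by simp only [hG]; linarith
  obtain ⟨x, hx, hGx⟩ := intermediate_value_Icc hxrM1 hGc (show Rm K 0 ∈ Icc (G xr) (G (M + 1)) from
    ⟨hGr, hGM⟩)
  have hxne : x ≠ xr := by
    rintro rfl
    simp only [hG] at hGx
    linarith
  have hxgt : xr < x := lt_of_le_of_ne hx.1 (Ne.symm hxne)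
  have hxabs : |x| ≤ M + 1 := by
    rw [abs_le]
    have := (abs_le.1 hxrM).1
    exact ⟨by linarith [hx.1], hx.2⟩
  have h2 := (h.mem_two' (hdom x hxabs) x).2 (by
    simp only [hG] at hGx
    constructor
    · linarith [Rm_pos h.hK 0, Rp_pos h.hK 0]
    · linarith)
  have h3 := ((h.mem_two ha hbε x).1 h2).2
  linarith

/-- left endpoint -/
theorem left_end (h : RF K ε f) {M : ℝ} (hM : ∀ x y k : ℝ, Mem K x y k → |x| ≤ M ∧ |y| ≤ M)
    {a b : ℝ} (ha : |a| < ε) (haM : |a| * (M + 1) ≤ ε) (hb : |b| < ε / 2) :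
    2 * f a b - Rp K a = 2 * f 0 ((2 * b + (2 * f a b - Rp K a) * a) / 2) - Rp K 0 := by
  have hε := h.hε
  have hbε : |b| < ε := by linarith
  set xl := 2 * f a b - Rp K a with hxl
  have hmem : Mem K xl (2 * b + xl * a) 2 := (h.mem_two ha hbε xl).2
    ⟨le_rfl, by rw [hxl]; linarith [Rm_pos h.hK a, Rp_pos h.hK a]⟩
  have hxlM := (hM _ _ _ hmem).1
  have hM0 : 0 ≤ M := (abs_nonneg _).trans hxlM
  have hdom : ∀ x : ℝ, |x| ≤ M + 1 → |2 * b + x * a| < 2 * ε := by
    intro x hx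
    calc |2 * b + x * a| ≤ |2 * b| + |x * a| := abs_add_le _ _
      _ = 2 * |b| + |a| * |x| := by
          rw [abs_mul, abs_mul, abs_of_pos (two_pos : (0 : ℝ) < 2), mul_comm |x|]
      _ ≤ 2 * |b| + |a| * (M + 1) := by gcongr
      _ < 2 * ε := by linarith
  have h1 := (h.mem_two' (hdom xl (by linarith)) xl).1 hmem
  apply le_antisymm _ h1.1
  by_contra hlt
  rw [not_le] at hlt
  set G : ℝ → ℝ := fun x => x - 2 * f 0 ((2 * b + x * a) / 2) with hG
  have hGc : ContinuousOn G (Icc (-(M + 1)) xl) := by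
    intro x hx
    have hxabs : |x| ≤ M + 1 := by
      rw [abs_le]
      have := (abs_le.1 hxlM).2
      exact ⟨hx.1, by linarith [hx.2]⟩
    apply ContinuousAt.continuousWithinAt
    have hc : ContinuousAt (fun b => f 0 b) ((2 * b + x * a) / 2) := by
      apply h.cont0
      rw [abs_div, abs_of_pos (two_pos : (0 : ℝ) < 2)]
      linarith [hdom x hxabs]
    have hc2 : ContinuousAt (fun x : ℝ => f 0 ((2 * b + x * a) / 2)) x :=
      ContinuousAt.comp (f := fun x : ℝ => (2 * b + x * a) / 2) (x := x)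
        (g := fun b => f 0 b) hc (by fun_prop)
    exact continuousAt_id.sub (hc2.const_mul 2)
  have hxlM1 : -(M + 1) ≤ xl := by linarith [(abs_le.1 hxlM).1]
  have hGM : G (-(M + 1)) ≤ -Rp K 0 := by
    have hd := hdom (-(M + 1)) (by rw [abs_neg, abs_of_nonneg (by linarith)])
    have h2 := (h.mem_two' hd (2 * f 0 ((2 * b + -(M + 1) * a) / 2) - Rp K 0)).2
      ⟨le_rfl, by linarith [Rm_pos h.hK 0, Rp_pos h.hK 0]⟩
    have h3 := (abs_le.1 (hM _ _ _ h2).1).1
    simp only [hG]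
    linarith
  have hGr : -Rp K 0 ≤ G xl := by simp only [hG]; linarith
  obtain ⟨x, hx, hGx⟩ := intermediate_value_Icc hxlM1 hGc
    (show -Rp K 0 ∈ Icc (G (-(M + 1))) (G xl) from ⟨hGM, hGr⟩)
  have hxne : x ≠ xl := by
    rintro rfl
    simp only [hG] at hGx
    linarith
  have hxgt : x < xl := lt_of_le_of_ne hx.2 hxne
  have hxabs : |x| ≤ M + 1 := by
    rw [abs_le]
    have := (abs_le.1 hxlM).2
    exact ⟨hx.1, by linarith [hx.2]⟩
  have h2 := (h.mem_two' (hdom x hxabs) x).2 (by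
    simp only [hG] at hGx
    constructor
    · linarith
    · linarith [Rm_pos h.hK 0, Rp_pos h.hK 0])
  have h3 := ((h.mem_two ha hbε x).1 h2).1
  linarith

/-- `f 0 ·` is linear near `0` -/
theorem linear0 (h : RF K ε f) : ∃ μ η : ℝ, 0 < η ∧ η ≤ ε ∧ ∀ b : ℝ, |b| < η → f 0 b = μ * b := by
  obtain ⟨M, hM0, hM⟩ := exists_bound h.hK
  have hε := h.hε
  set W : ℝ → ℝ := fun a => Rp K a + Rm K a with hW
  have hWpos : ∀ a, 0 < W a := fun a => add_pos (Rp_pos h.hK a) (Rm_pos h.hK a)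
  have hWc : Continuous W := (Rp_cont h.hK).add (Rm_cont h.hK)
  set ε1 := min (ε / 2) (ε / (4 * (M + 1))) with hε1
  have hε1pos : 0 < ε1 := by positivity
  have hε1a : ε1 ≤ ε / 2 := min_le_left _ _
  have hε1b : ε1 * (M + 1) ≤ ε / 4 := by
    have : ε1 ≤ ε / (4 * (M + 1)) := min_le_right _ _
    calc ε1 * (M + 1) ≤ ε / (4 * (M + 1)) * (M + 1) := by gcongr
      _ = ε / 4 := by field_simp
  set F : ℝ → ℝ := fun y => 2 * f 0 (y / 2) with hF
  -- the difference relation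
  have hdiff : ∀ a : ℝ, |a| ≤ ε1 → ∀ y : ℝ, |y| ≤ ε / 2 → F (y + a * W a) = F y + (W a - W 0) := by
    intro a ha y hy
    have haε : |a| < ε := by linarith
    have haM : |a| * (M + 1) ≤ ε / 4 := by
      calc |a| * (M + 1) ≤ ε1 * (M + 1) := by gcongr
        _ ≤ ε / 4 := hε1b
    -- find `b`
    set Yl : ℝ → ℝ := fun b => 2 * b + (2 * f a b - Rp K a) * a with hYl
    have hYc : ContinuousOn Yl (Icc (-(3 * ε / 8)) (3 * ε / 8)) := by
      intro b hb
      apply ContinuousAt.continuousWithinAt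
      have hbε : |b| < ε := by rw [abs_lt]; constructor <;> linarith [hb.1, hb.2]
      have hc := h.conta haε hbε
      exact (continuousAt_id.const_mul 2).add
        (((hc.const_mul 2).sub continuousAt_const).mul continuousAt_const)
    have hbound : ∀ b : ℝ, |b| < ε → |(2 * f a b - Rp K a) * a| ≤ ε / 4 := by
      intro b hb
      have hmem := (h.mem_two haε hb (2 * f a b - Rp K a)).2
        ⟨le_rfl, by linarith [Rm_pos h.hK a, Rp_pos h.hK a]⟩
      have h1 := (hM _ _ _ hmem).1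
      rw [abs_mul]
      calc |2 * f a b - Rp K a| * |a| ≤ (M + 1) * |a| := by gcongr; linarith
        _ ≤ ε / 4 := by linarith
    have hy' := abs_le.1 hy
    have hl : Yl (-(3 * ε / 8)) ≤ y := by
      have := (abs_le.1 (hbound (-(3 * ε / 8)) (by rw [abs_neg, abs_of_pos (by positivity)]; linarith))).2
      simp only [hYl]; linarith
    have hr : y ≤ Yl (3 * ε / 8) := by
      have := (abs_le.1 (hbound (3 * ε / 8) (by rw [abs_of_pos (by positivity)]; linarith))).1
      simp only [hYl]; linarith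
    obtain ⟨b, hb, hbY⟩ := intermediate_value_Icc (by linarith) hYc (show y ∈ Icc _ _ from ⟨hl, hr⟩)
    have hbabs : |b| < ε / 2 := by rw [abs_lt]; constructor <;> linarith [hb.1, hb.2]
    have k1 := h.left_end hM haε (by linarith) hbabs
    have k2 := h.right_end hM haε (by linarith) hbabs
    simp only [hYl] at hbY
    rw [hbY] at k1
    have e : 2 * b + (2 * f a b + Rm K a) * a = y + a * W a := by
      simp only [hW]; linear_combination hbY
    rw [e] at k2
    simp only [hF, hW] at k1 k2 ⊢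
    linarith
  have hF0 : F 0 = 0 := by simp only [hF]; rw [zero_div, h.f00, mul_zero]
  -- covering of small steps
  set v1 := min (ε1 * W ε1) (ε1 * W (-ε1)) with hv1
  have hv1pos : 0 < v1 := lt_min (mul_pos hε1pos (hWpos _)) (mul_pos hε1pos (hWpos _))
  have hcover : ∀ v : ℝ, |v| ≤ v1 → ∃ a : ℝ, |a| ≤ ε1 ∧ a * W a = v := by
    intro v hv
    have hv' := abs_le.1 hv
    have hc : ContinuousOn (fun a => a * W a) (Icc (-ε1) ε1) :=
      (continuous_id.mul hWc).continuousOn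
    have h1 : -ε1 * W (-ε1) ≤ v := by
      have : v1 ≤ ε1 * W (-ε1) := min_le_right _ _
      linarith
    have h2 : v ≤ ε1 * W ε1 := hv'.2.trans (min_le_left _ _)
    obtain ⟨a, ha, hav⟩ := intermediate_value_Icc (by linarith) hc (show v ∈ Icc _ _ from ⟨h1, h2⟩)
    exact ⟨a, abs_le.2 ha, hav⟩
  set η := min v1 (ε / 2) with hη
  have hηpos : 0 < η := by positivity
  have hη1 : η ≤ v1 := min_le_left _ _
  have hη2 : η ≤ ε / 2 := min_le_right _ _
  have hadd : ∀ y v : ℝ, |y| ≤ η → |v| ≤ η → F (y + v) = F y + F v := by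
    intro y v hy hv
    obtain ⟨a, ha, hav⟩ := hcover v (hv.trans hη1)
    have h1 := hdiff a ha y (hy.trans hη2)
    have h2 := hdiff a ha 0 (by simp; positivity)
    rw [hav] at h1 h2
    rw [zero_add, hF0, zero_add] at h2
    rw [h1, h2]
  have hFc : ContinuousOn F (Icc (-η) η) := by
    intro y hy
    apply ContinuousAt.continuousWithinAt
    have hy2 : |y / 2| < ε := by
      rw [abs_div, abs_of_pos (two_pos : (0 : ℝ) < 2)]
      have := abs_le.2 hy
      linarith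
    have hc := h.cont0 hy2
    have hc2 : ContinuousAt (fun y : ℝ => f 0 (y / 2)) y :=
      ContinuousAt.comp (f := fun y : ℝ => y / 2) (x := y) (g := fun b => f 0 b) hc (by fun_prop)
    exact hc2.const_mul 2
  refine ⟨F η / η, η / 2, by positivity, by linarith, ?_⟩
  intro b hb
  have := local_linear hηpos hFc hadd (y := 2 * b) (by
    rw [abs_mul, abs_of_pos (two_pos : (0 : ℝ) < 2)]; linarith)
  simp only [hF] at this ⊢
  rw [mul_div_cancel_left₀ b (two_ne_zero)] at this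
  linarith

end RF

end Pool.Agent.Lib.MP_f7db8a
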