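import Pool.Agent.Lib.MP_f7db8a.Lines

set_option autoImplicit false
set_option linter.unusedSectionVars false

/-!
# Local affinity and reduction to a flat body
-/

namespace Pool.Agent.Lib.MP_f7db8a

open Module Set Filter Topology MeasureTheory Metric
open scoped NNReal

variable {K : Set ((ℝ × ℝ) × ℝ)}

/-- affine lines in each class, both cases together -/
theorem lines {A B : ℝ × ℝ → ℝ × ℝ → ℝ} (hK : SB K) (h : Ctr K A B) {r lam : ℝ} {C : ℝ≥0}
    (hr : 0 < r) (hlam : 0 < lam) (hlam1 : lam ≤ 1) (hL : LipschitzOnWith C (qf K) (ball 0 r))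
    (hratio : ∀ z ∈ ball (0 : ℝ × ℝ) r, qf (-K) z = lam * qf K z)
    {γ : ℝ → ℝ × ℝ} (hγ : Continuous γ) (hγ0 : ∀ s, γ s ≠ 0)
    (hsgn : ∀ z ∈ ball (0 : ℝ × ℝ) r, B z (γ 0) < 0 ∧ 0 < B z (γ 1)) :
    ∃ t₀ : ℝ, 0 < t₀ ∧ ∀ z ∈ ball (0 : ℝ × ℝ) (r / 2), ∃ s ∈ Icc (0 : ℝ) 1, B z (γ s) = 0 ∧
      ∃ m : ℝ, ∀ t : ℝ, |t| ≤ t₀ → qf K (z + t • γ s) = qf K z + t * m := by
  rcases hlam1.lt_or_eq with h1 | h1
  · exact lineA hK h hr hlam h1 hL hratio hγ hγ0 hsgn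
  · subst h1
    exact lineB hK h hr hL (fun z hz => by rw [hratio z hz, one_mul]) hγ hγ0 hsgn

/-- uniform gap for the zero directions of the third class -/
theorem gap3 {A B : ℝ × ℝ → ℝ × ℝ → ℝ} (hK : SB K) (h : Ctr K A B) (hs : Sgn B 0) :
    ∃ δ : ℝ, 0 < δ ∧ ∀ z ∈ ball (0 : ℝ × ℝ) δ, ∀ s ∈ Icc (0 : ℝ) 1, B z (γ3 s) = 0 →
      δ ≤ s ∧ s ≤ 1 - δ := by
  have hc : ∀ s₀ : ℝ, ContinuousAt (fun p : (ℝ × ℝ) × ℝ => B p.1 (γ3 p.2)) (0, s₀) := by
    intro s₀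
    have h1 : ContinuousAt (fun p : (ℝ × ℝ) × ℝ => ((p.1, γ3 p.2) : (ℝ × ℝ) × (ℝ × ℝ))) (0, s₀) := by
      apply Continuous.continuousAt
      exact continuous_fst.prodMk (γ3_cont.comp continuous_snd)
    exact ContinuousAt.comp (f := fun p : (ℝ × ℝ) × ℝ => ((p.1, γ3 p.2) : (ℝ × ℝ) × (ℝ × ℝ)))
      (x := ((0, s₀) : (ℝ × ℝ) × ℝ))
      (g := fun p : (ℝ × ℝ) × (ℝ × ℝ) => B p.1 p.2) (h.contB hK (γ3_ne s₀)) h1
  have e0 : ∀ᶠ p : (ℝ × ℝ) × ℝ in 𝓝 (0, 0), B p.1 (γ3 p.2) < 0 :=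
    (hc 0).eventually_lt continuousAt_const (hs.γ3_0 hK h).1
  have e1 : ∀ᶠ p : (ℝ × ℝ) × ℝ in 𝓝 (0, 1), 0 < B p.1 (γ3 p.2) :=
    continuousAt_const.eventually_lt (hc 1) (hs.γ3_0 hK h).2
  obtain ⟨δ0, hδ0, h0⟩ := Metric.eventually_nhds_iff.1 e0
  obtain ⟨δ1, hδ1, h1⟩ := Metric.eventually_nhds_iff.1 e1
  refine ⟨min δ0 δ1, by positivity, ?_⟩
  intro z hz s hsI hB
  rw [mem_ball] at hz
  constructor
  · by_contra hcon
    rw [not_le] at hcon
    have := h0 (y := (z, s)) (by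
      rw [Prod.dist_eq]
      apply max_lt (hz.trans_le (min_le_left _ _))
      change dist s 0 < δ0
      rw [Real.dist_eq, sub_zero, abs_of_nonneg hsI.1]
      exact hcon.trans_le (min_le_left _ _))
    exact this.ne hB
  · by_contra hcon
    rw [not_le] at hcon
    have hlt : 1 - s < δ1 := by
      have := min_le_right δ0 δ1
      linarith
    have := h1 (y := (z, s)) (by
      rw [Prod.dist_eq]
      apply max_lt (hz.trans_le (min_le_right _ _))
      change dist s 1 < δ1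
      rw [Real.dist_eq, abs_lt]
      constructor <;> linarith [hsI.2])
    exact this.ne' hB

/-- **Local affinity.** -/
theorem exists_affine {A B : ℝ × ℝ → ℝ × ℝ → ℝ} (hK : SB K) (h : Ctr K A B) (hs : Sgn B 0)
    (hle : qf (-K) 0 ≤ qf K 0) :
    ∃ z₀ : ℝ × ℝ, ∃ ρ : ℝ, 0 < ρ ∧ ∃ p q lam : ℝ, 0 < lam ∧ Sgn B z₀ ∧
      ∀ z ∈ ball z₀ ρ, qf K z = qf K z₀ + (p * (z.1 - z₀.1) + q * (z.2 - z₀.2)) ∧
        qf (-K) z = lam * qf K z := by
  obtain ⟨r, hr, ⟨C, hL⟩, hrat⟩ := ratio_const hK h hs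
  set lam := qf (-K) 0 / qf K 0 with hlam
  have hlampos : 0 < lam := div_pos (qf_pos hK.neg 0) (qf_pos hK 0)
  have hlam1 : lam ≤ 1 := by rw [hlam, div_le_one (qf_pos hK 0)]; exact hle
  have hratio : ∀ z ∈ ball (0 : ℝ × ℝ) r, qf (-K) z = lam * qf K z := fun z hz => (hrat z hz).2
  obtain ⟨t1, ht1, l1⟩ := lines hK h hr hlampos hlam1 hL hratio γ1_cont γ1_ne
    (fun z hz => (hrat z hz).1.γ1_0 hK h)
  obtain ⟨t2, ht2, l2⟩ := lines hK h hr hlampos hlam1 hL hratio γ2_cont γ2_ne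
    (fun z hz => (hrat z hz).1.γ2_0 hK h)
  obtain ⟨t3, ht3, l3⟩ := lines hK h hr hlampos hlam1 hL hratio γ3_cont γ3_ne
    (fun z hz => (hrat z hz).1.γ3_0 hK h)
  obtain ⟨δ, hδ, hgap⟩ := gap3 hK h hs
  obtain ⟨s1, hs1, hB1, m1, hm1⟩ := l1 0 (mem_ball_self (by positivity))
  obtain ⟨s2, hs2, hB2, m2, hm2⟩ := l2 0 (mem_ball_self (by positivity))
  have hs1lt : s1 < 1 := by
    rcases hs1.2.lt_or_eq with h' | h'
    · exact h'
    · subst h'
      exact absurd hB1 (hs.γ1_0 hK h).2.ne'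
  have hs2lt : s2 < 1 := by
    rcases hs2.2.lt_or_eq with h' | h'
    · exact h'
    · subst h'
      exact absurd hB2 (hs.γ2_0 hK h).2.ne'
  have hD : 0 < 1 - s1 * s2 := by
    have := mul_le_mul_of_nonneg_left hs2lt.le hs1.1
    linarith
  set D := 1 - s1 * s2 with hDdef
  set p := (m1 - s1 * m2) / D with hp
  set q := (m2 - s2 * m1) / D with hq
  have hpq1 : p + q * s1 = m1 := by rw [hp, hq]; field_simp; rw [hDdef]; ring
  have hpq2 : p * s2 + q = m2 := by rw [hp, hq]; field_simp; rw [hDdef]; ring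
  set t₀ := min t1 (min t2 t3) with ht₀
  have ht₀pos : 0 < t₀ := by positivity
  have ht₀1 : t₀ ≤ t1 := min_le_left _ _
  have ht₀2 : t₀ ≤ t2 := (min_le_right _ _).trans (min_le_left _ _)
  have ht₀3 : t₀ ≤ t3 := (min_le_right _ _).trans (min_le_right _ _)
  set ε := min (δ * t₀ / 8) (min (r / 8) (δ / 4)) with hε
  have hεpos : 0 < ε := by positivity
  have hε1 : ε ≤ δ * t₀ / 8 := min_le_left _ _
  have hε2 : ε ≤ r / 8 := (min_le_right _ _).trans (min_le_left _ _)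
  have hε3 : ε ≤ δ / 4 := (min_le_right _ _).trans (min_le_right _ _)
  set ρ := ε * min (1 - s1) (1 - s2) / 4 with hρ
  have hmin : 0 < min (1 - s1) (1 - s2) := by
    apply lt_min <;> linarith
  have hρpos : 0 < ρ := by positivity
  have hρ1 : ρ ≤ ε * (1 - s1) / 4 := by
    rw [hρ]; gcongr; exact min_le_left _ _
  have hρ2 : ρ ≤ ε * (1 - s2) / 4 := by
    rw [hρ]; gcongr; exact min_le_right _ _
  have hρε : ρ ≤ ε := by
    have := mul_nonneg hεpos.le hs1.1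
    linarith
  -- points near `(ε, ε)`
  have hcoord : ∀ z ∈ ball ((ε, ε) : ℝ × ℝ) ρ, |z.1 - ε| < ρ ∧ |z.2 - ε| < ρ := by
    rintro ⟨x, y⟩ hz
    rw [mem_ball, Prod.dist_eq, max_lt_iff, Real.dist_eq, Real.dist_eq] at hz
    exact hz
  have hnear : ∀ z ∈ ball ((ε, ε) : ℝ × ℝ) ρ, z ∈ ball (0 : ℝ × ℝ) (r / 2) ∧
      z ∈ ball (0 : ℝ × ℝ) δ := by
    rintro ⟨x, y⟩ hz
    obtain ⟨h1, h2⟩ := hcoord _ hz
    simp only at h1 h2
    rw [abs_lt] at h1 h2
    constructor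
    · rw [mem_ball_prod, abs_lt, abs_lt]
      refine ⟨⟨?_, ?_⟩, ⟨?_, ?_⟩⟩ <;> linarith
    · rw [mem_ball_prod, abs_lt, abs_lt]
      refine ⟨⟨?_, ?_⟩, ⟨?_, ?_⟩⟩ <;> linarith
  have key : ∀ z ∈ ball ((ε, ε) : ℝ × ℝ) ρ, qf K z = qf K 0 + (p * z.1 + q * z.2) := by
    rintro ⟨x, y⟩ hz
    obtain ⟨h1, h2⟩ := hcoord _ hz
    obtain ⟨n1, n2⟩ := hnear _ hz
    simp only at h1 h2 ⊢
    rw [abs_lt] at h1 h2
    obtain ⟨s, hsI, hBs, m, hm⟩ := l3 (x, y) n1
    obtain ⟨g1, g2⟩ := hgap _ n2 s hsI hBs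
    have hx0 : 0 ≤ x := by linarith
    have hy0 : 0 ≤ y := by linarith
    have d1 : δ ≤ 1 - s + s1 * s := by
      have := mul_nonneg hs1.1 hsI.1
      linarith
    have d2 : δ ≤ s + s2 * (1 - s) := by
      have := mul_nonneg hs2.1 (sub_nonneg.2 hsI.2)
      linarith
    have d1pos : 0 < 1 - s + s1 * s := by linarith
    have d2pos : 0 < s + s2 * (1 - s) := by linarith
    set T1 := (s1 * x - y) / (1 - s + s1 * s) with hT1
    set T2 := (x - s2 * y) / (s + s2 * (1 - s)) with hT2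
    have hxy : x + y ≤ δ * t₀ / 2 := by linarith
    have n1neg : s1 * x - y < 0 := by
      have c1 := mul_le_mul_of_nonneg_left (show x ≤ ε + ρ by linarith) hs1.1
      have c2 := mul_le_mul_of_nonneg_right hs1lt.le hρpos.le
      have c3 := mul_pos hεpos (sub_pos.2 hs1lt)
      linarith
    have n2pos : 0 < x - s2 * y := by
      have c1 := mul_le_mul_of_nonneg_left (show y ≤ ε + ρ by linarith) hs2.1
      have c2 := mul_le_mul_of_nonneg_right hs2lt.le hρpos.le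
      have c3 := mul_pos hεpos (sub_pos.2 hs2lt)
      linarith
    have T1neg : T1 < 0 := div_neg_of_neg_of_pos n1neg d1pos
    have T2pos : 0 < T2 := div_pos n2pos d2pos
    have T1abs : -T1 ≤ (x + y) / δ := by
      rw [hT1, ← neg_div]
      apply div_le_div₀ (by positivity) _ hδ d1
      have := mul_nonneg hs1.1 hx0
      linarith
    have T2abs : T2 ≤ (x + y) / δ := by
      rw [hT2]
      apply div_le_div₀ (by positivity) _ hδ d2
      have := mul_nonneg hs2.1 hy0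
      linarith
    have hxyδ : (x + y) / δ ≤ t₀ / 2 := by
      rw [div_le_iff₀ hδ]; linarith
    have hxyt : x + y ≤ t₀ / 2 := by
      have hδ1 : δ ≤ 1 := by linarith
      have := mul_le_mul_of_nonneg_right hδ1 ht₀pos.le
      linarith
    have sle : s ≤ 1 := hsI.2
    have s0 : 0 ≤ s := hsI.1
    -- the two intersection points
    have a1 := hm T1 (by rw [abs_le]; constructor <;> linarith)
    have a2 := hm T2 (by rw [abs_le]; constructor <;> linarith)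
    have E1 : y + T1 * (1 - s) = s1 * (x - T1 * s) := by
      have : T1 * (1 - s + s1 * s) = s1 * x - y := div_mul_cancel₀ _ d1pos.ne'
      linarith
    have E2 : x - T2 * s = s2 * (y + T2 * (1 - s)) := by
      have : T2 * (s + s2 * (1 - s)) = x - s2 * y := div_mul_cancel₀ _ d2pos.ne'
      linarith
    have P1 : ((x, y) : ℝ × ℝ) + T1 • γ3 s = 0 + (x - T1 * s) • γ1 s1 := by
      simp only [γ3, γ1, Prod.smul_mk, Prod.mk_add_mk, smul_eq_mul, zero_add, mul_one]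
      ext
      · simp only; ring
      · simp only; linarith
    have P2 : ((x, y) : ℝ × ℝ) + T2 • γ3 s = 0 + (y + T2 * (1 - s)) • γ2 s2 := by
      simp only [γ3, γ2, Prod.smul_mk, Prod.mk_add_mk, smul_eq_mul, zero_add, mul_one]
      ext
      · simp only; linarith
      · simp only
    have X1 : |x - T1 * s| ≤ t1 := by
      have : 0 ≤ -T1 * s := mul_nonneg (by linarith) s0
      have : -T1 * s ≤ -T1 := mul_le_of_le_one_right (by linarith) sle
      rw [abs_le]; constructor <;> linarith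
    have X2 : |y + T2 * (1 - s)| ≤ t2 := by
      have : 0 ≤ T2 * (1 - s) := mul_nonneg T2pos.le (by linarith)
      have : T2 * (1 - s) ≤ T2 := mul_le_of_le_one_right T2pos.le (by linarith)
      rw [abs_le]; constructor <;> linarith
    rw [P1, hm1 _ X1] at a1
    rw [P2, hm2 _ X2] at a2
    -- conclude
    have u1 : qf K (x, y) - (qf K 0 + (p * x + q * y)) = T1 * (-(p * s) + q * (1 - s) - m) := by
      have e1 : (x - T1 * s) * m1 = p * (x - T1 * s) + q * (y + T1 * (1 - s)) := by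
        rw [E1, ← hpq1]; ring
      linear_combination (-1 : ℝ) * a1 + e1
    have u2 : qf K (x, y) - (qf K 0 + (p * x + q * y)) = T2 * (-(p * s) + q * (1 - s) - m) := by
      have e2 : (y + T2 * (1 - s)) * m2 = p * (x - T2 * s) + q * (y + T2 * (1 - s)) := by
        rw [E2, ← hpq2]; ring
      linear_combination (-1 : ℝ) * a2 + e2
    have hv : (T1 - T2) * (-(p * s) + q * (1 - s) - m) = 0 := by
      linear_combination u2 - u1
    have hv0 : -(p * s) + q * (1 - s) - m = 0 := by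
      rcases mul_eq_zero.1 hv with h' | h'
      · linarith
      · exact h'
    rw [hv0, mul_zero] at u1
    linarith
  have hz₀ : ((ε, ε) : ℝ × ℝ) ∈ ball ((ε, ε) : ℝ × ℝ) ρ := mem_ball_self hρpos
  have hsub : ball (0 : ℝ × ℝ) (r / 2) ⊆ ball 0 r := ball_subset_ball (by linarith)
  refine ⟨(ε, ε), ρ, hρpos, p, q, lam, hlampos, (hrat _ (hsub (hnear _ hz₀).1)).1, ?_⟩
  intro z hz
  refine ⟨?_, hratio z (hsub (hnear z hz).1)⟩
  rw [key z hz, key _ hz₀]
  ring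

/-! ### Transformation to a flat body -/

/-- the normalising linear map -/
def nrm (z₀ : ℝ × ℝ) (q₀ p q : ℝ) : ((ℝ × ℝ) × ℝ) →ₗ[ℝ] ((ℝ × ℝ) × ℝ) where
  toFun v := (v.1 - v.2 • z₀, q₀ * v.2 + (p * (v.1.1 - v.2 * z₀.1) + q * (v.1.2 - v.2 * z₀.2)))
  map_add' v w := by
    ext
    · simp; ring
    · simp; ring
    · simp; ring
  map_smul' c v := by
    ext
    · simp; ring
    · simp; ring
    · simp; ring

theorem nrm_apply (z₀ : ℝ × ℝ) (q₀ p q : ℝ) (v : ℝ × ℝ) (k : ℝ) :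
    nrm z₀ q₀ p q (v, k) = (v - k • z₀, q₀ * k + (p * (v.1 - k * z₀.1) + q * (v.2 - k * z₀.2))) :=
  rfl

/-- explicit preimage -/
theorem nrm_pre (z₀ : ℝ × ℝ) {q₀ : ℝ} (hq₀ : q₀ ≠ 0) (p q : ℝ) (w : ℝ × ℝ) (k : ℝ) :
    nrm z₀ q₀ p q (w + ((k - (p * w.1 + q * w.2)) / q₀) • z₀, (k - (p * w.1 + q * w.2)) / q₀) =
      (w, k) := by
  rw [nrm_apply]
  ext
  · simp
  · simp
  · simp only [Prod.fst_add, Prod.snd_add, Prod.smul_fst, Prod.smul_snd, smul_eq_mul]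
    field_simp
    ring

theorem nrm_inj (z₀ : ℝ × ℝ) {q₀ : ℝ} (hq₀ : q₀ ≠ 0) (p q : ℝ) :
    Function.Injective (nrm z₀ q₀ p q) := by
  rw [injective_iff_map_eq_zero]
  rintro ⟨v, k⟩ hv
  rw [nrm_apply] at hv
  have h1 : v - k • z₀ = 0 := congrArg Prod.fst hv
  have h2 : q₀ * k + (p * (v.1 - k * z₀.1) + q * (v.2 - k * z₀.2)) = 0 := congrArg Prod.snd hv
  have h3 : v.1 - k * z₀.1 = 0 := congrArg Prod.fst h1
  have h4 : v.2 - k * z₀.2 = 0 := congrArg Prod.snd h1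
  rw [h3, h4, mul_zero, mul_zero, add_zero, add_zero] at h2
  have hk : k = 0 := (mul_eq_zero.1 h2).resolve_left hq₀
  subst hk
  rw [zero_smul, sub_zero] at h1
  rw [h1]
  rfl

theorem nrm_bij (z₀ : ℝ × ℝ) {q₀ : ℝ} (hq₀ : q₀ ≠ 0) (p q : ℝ) :
    Function.Bijective (nrm z₀ q₀ p q) :=
  ⟨nrm_inj z₀ hq₀ p q, fun ⟨w, k⟩ => ⟨_, nrm_pre z₀ hq₀ p q w k⟩⟩

theorem rad_image {E E' : Type*} [NormedAddCommGroup E] [NormedSpace ℝ E]
    [NormedAddCommGroup E'] [NormedSpace ℝ E'] {K : Set E} (T : E →ₗ[ℝ] E')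
    (hT : Function.Injective T) (x : E) : rad (T '' K) (T x) = rad K x := by
  unfold rad
  congr 1
  ext t
  simp only [mem_ofPred_eq]
  rw [← map_smul, hT.mem_set_image]

theorem SB.image_lin {E E' : Type*} [NormedAddCommGroup E] [NormedSpace ℝ E]
    [NormedAddCommGroup E'] [NormedSpace ℝ E'] [FiniteDimensional ℝ E] [FiniteDimensional ℝ E']
    {K : Set E} (hK : SB K) (T : E →ₗ[ℝ] E') (hT : Function.Surjective T) : SB (T '' K) := by
  have : CompleteSpace E := FiniteDimensional.complete ℝ E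
  have : CompleteSpace E' := FiniteDimensional.complete ℝ E'
  exact hK.image (LinearMap.toContinuousLinearMap T) hT

/-- **Reduction to a flat body.** -/
theorem exists_flat (hK : SB K) (hc : HC K) {A B : ℝ × ℝ → ℝ × ℝ → ℝ} (h : Ctr K A B)
    (hs : Sgn B 0) (hle : qf (-K) 0 ≤ qf K 0) :
    ∃ K₁ : Set ((ℝ × ℝ) × ℝ), SB K₁ ∧ HC K₁ ∧
      (∃ r lam : ℝ, 0 < r ∧ 0 < lam ∧ ∀ z ∈ ball (0 : ℝ × ℝ) r, qf K₁ z = 1 ∧ qf (-K₁) z = lam) ∧
      ∃ a b : ℝ, 0 < b ∧ Cen K₁ (0, 1) ((-1, 0), 0) a b := by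
  obtain ⟨z₀, ρ, hρ, p, q, lam, hlam, hsgn, haff⟩ := exists_affine hK h hs hle
  set q₀ := qf K z₀ with hq₀
  have hq₀pos : 0 < q₀ := qf_pos hK z₀
  set T := nrm z₀ q₀ p q with hT
  have hTb : Function.Bijective T := nrm_bij z₀ hq₀pos.ne' p q
  refine ⟨T '' K, hK.image_lin T hTb.2, hc.image T hTb, ?_, ?_⟩
  · -- flatness
    let H : ℝ × ℝ → ℝ := fun w => (1 - (p * w.1 + q * w.2)) / q₀
    have hHc : Continuous H := by
      change Continuous (fun w : ℝ × ℝ => (1 - (p * w.1 + q * w.2)) / q₀)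
      fun_prop
    have hH0 : 0 < H 0 := by
      change 0 < (1 - (p * (0 : ℝ × ℝ).1 + q * (0 : ℝ × ℝ).2)) / q₀
      simp; positivity
    have ev1 : ∀ᶠ w in 𝓝 (0 : ℝ × ℝ), 0 < H w :=
      continuousAt_const.eventually_lt hHc.continuousAt hH0
    have hcurve : ContinuousAt (fun w : ℝ × ℝ => z₀ + (H w)⁻¹ • w) 0 := by
      apply ContinuousAt.add continuousAt_const
      exact (hHc.continuousAt.inv₀ hH0.ne').smul continuousAt_id
    have ev2 : ∀ᶠ w in 𝓝 (0 : ℝ × ℝ), z₀ + (H w)⁻¹ • w ∈ ball z₀ ρ := by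
      apply hcurve
      simpa only [smul_zero, add_zero] using ball_mem_nhds z₀ hρ
    obtain ⟨r, hr, hball⟩ := Metric.eventually_nhds_iff_ball.1 (ev1.and ev2)
    refine ⟨r, lam, hr, hlam, ?_⟩
    intro w hw
    obtain ⟨k1, k2⟩ := hball w hw
    obtain ⟨f1, f2⟩ := haff _ k2
    have e1 : T (w + H w • z₀, H w) = (w, 1) := nrm_pre z₀ hq₀pos.ne' p q w 1
    have e2 : ((w + H w • z₀, H w) : (ℝ × ℝ) × ℝ) = H w • ((z₀ + (H w)⁻¹ • w, 1) : (ℝ × ℝ) × ℝ) := by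
      simp only [Prod.smul_mk, smul_eq_mul, mul_one, smul_add, smul_smul]
      rw [mul_inv_cancel₀ k1.ne', one_smul, add_comm]
    have e3 : H w * qf K (z₀ + (H w)⁻¹ • w) = 1 := by
      rw [f1]
      simp only [Prod.fst_add, Prod.snd_add, Prod.smul_fst, Prod.smul_snd, smul_eq_mul,
        add_sub_cancel_left]
      have hH : H w * q₀ = 1 - (p * w.1 + q * w.2) := div_mul_cancel₀ _ hq₀pos.ne'
      field_simp
      linear_combination hH
    constructor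
    · unfold qf
      rw [← e1, rad_image T hTb.1, e2, hK.rad_smul (chart_ne _) k1]
      have : rad K (z₀ + (H w)⁻¹ • w, 1) = (qf K (z₀ + (H w)⁻¹ • w))⁻¹ := by
        unfold qf; rw [inv_inv]
      rw [this, inv_div, div_inv_eq_mul]
      exact e3
    · have hneg : -(T '' K) = T '' (-K) := by
        ext v
        constructor
        · rintro ⟨u, hu, hv⟩
          exact ⟨-u, by simpa using hu, by rw [map_neg, hv, neg_neg]⟩
        · rintro ⟨u, hu, rfl⟩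
          exact ⟨-u, hu, by rw [map_neg]⟩
      rw [hneg]
      unfold qf
      rw [← e1, rad_image T hTb.1, e2, hK.neg.rad_smul (chart_ne _) k1]
      have : rad (-K) (z₀ + (H w)⁻¹ • w, 1) = (qf (-K) (z₀ + (H w)⁻¹ • w))⁻¹ := by
        unfold qf; rw [inv_inv]
      rw [this, inv_div, div_inv_eq_mul, f2]
      linear_combination lam * e3
  · have hcen := h.cen z₀ (-1, 0)
    have h1 := (Cen.image T hTb.1).2 hcen
    have e1 : T (z₀, 1) = (0, q₀) := by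
      rw [hT, nrm_apply]; simp
    have e2 : T ((-1, 0), 0) = ((-1, 0), -p) := by
      rw [hT, nrm_apply]; simp
    rw [e1, e2] at h1
    have h2 := (h1.smul_left (s := q₀⁻¹) (by positivity)).add_right p
    have e3 : q₀⁻¹ • ((0, q₀) : (ℝ × ℝ) × ℝ) = (0, 1) := by
      rw [Prod.smul_mk, smul_zero, smul_eq_mul, inv_mul_cancel₀ hq₀pos.ne']
    have e4 : (((-1, 0), -p) : (ℝ × ℝ) × ℝ) + p • ((0, 1) : (ℝ × ℝ) × ℝ) = ((-1, 0), 0) := by
      simp
    rw [e3, e4] at h2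
    exact ⟨_, _, hsgn.1, h2⟩

end Pool.Agent.Lib.MP_f7db8a
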