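import Pool.Agent.Lib.MP_f7db8a.Flat1
import Pool.Agent.Lib.MP_f7db8a.Plane

set_option autoImplicit false
set_option linter.unusedSectionVars false

/-!
# Flat bodies: vanishing of the horizontal centre coordinate
-/

namespace Pool.Agent.Lib.MP_f7db8a

open Module Set Filter Topology Metric

/-- Invariance under arbitrarily small translations. -/
theorem vert_inv {N : ℝ → Prop} (hcl : IsClosed {y | N y}) {η : ℝ}
    (hV : ∀ e : ℝ, 0 < e → ∃ δ : ℝ, 0 < δ ∧ δ < e ∧ ∀ y : ℝ, |y| ≤ η → (N y ↔ N (y + δ)))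
    {y y' : ℝ} (hy : |y| ≤ η) (hy' : |y'| ≤ η) (h : N y) : N y' := by
  have hy1 := abs_le.1 hy
  have hy1' := abs_le.1 hy'
  have hmem : y' ∈ closure {y | N y} := by
    rw [Metric.mem_closure_iff]
    intro e he
    obtain ⟨δ, hδ, hδe, hδN⟩ := hV e he
    rcases le_total y y' with hle | hle
    · set k := ⌊(y' - y) / δ⌋₊ with hk
      have h1 : (k : ℝ) * δ ≤ y' - y := by
        have := Nat.floor_le (show 0 ≤ (y' - y) / δ by
          apply div_nonneg _ hδ.le; linarith)
        rwa [le_div_iff₀ hδ] at this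
      have h2 : y' - y < ((k : ℝ) + 1) * δ := by
        have := Nat.lt_floor_add_one ((y' - y) / δ)
        rwa [div_lt_iff₀ hδ] at this
      have hall : ∀ j : ℕ, j ≤ k → N (y + j * δ) := by
        intro j
        induction j with
        | zero => intro _; simpa using h
        | succ j ih =>
          intro hj
          have hj' := ih (by omega)
          have hjk : (j : ℝ) * δ ≤ k * δ := by
            gcongr; omega
          have hj0 : 0 ≤ (j : ℝ) * δ := by positivity
          have := (hδN (y + j * δ) (by rw [abs_le]; constructor <;> linarith)).1 hj'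
          push_cast
          rwa [show y + ((j : ℝ) + 1) * δ = y + j * δ + δ by ring]
      refine ⟨y + k * δ, hall k le_rfl, ?_⟩
      rw [Real.dist_eq, abs_lt]
      constructor <;> linarith
    · set k := ⌊(y - y') / δ⌋₊ with hk
      have h1 : (k : ℝ) * δ ≤ y - y' := by
        have := Nat.floor_le (show 0 ≤ (y - y') / δ by
          apply div_nonneg _ hδ.le; linarith)
        rwa [le_div_iff₀ hδ] at this
      have h2 : y - y' < ((k : ℝ) + 1) * δ := by
        have := Nat.lt_floor_add_one ((y - y') / δ)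
        rwa [div_lt_iff₀ hδ] at this
      have hall : ∀ j : ℕ, j ≤ k → N (y - j * δ) := by
        intro j
        induction j with
        | zero => intro _; simpa using h
        | succ j ih =>
          intro hj
          have hj' := ih (by omega)
          have hjk : ((j : ℝ) + 1) * δ ≤ k * δ := by
            gcongr; exact_mod_cast hj
          have hj0 : 0 ≤ (j : ℝ) * δ := by positivity
          push_cast
          apply (hδN (y - ((j : ℝ) + 1) * δ) (by rw [abs_le]; constructor <;> linarith)).2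
          rwa [show y - ((j : ℝ) + 1) * δ + δ = y - j * δ by ring]
      refine ⟨y - k * δ, hall k le_rfl, ?_⟩
      rw [Real.dist_eq, abs_lt]
      constructor <;> linarith
  rwa [hcl.closure_eq] at hmem

namespace RF

variable {K : Set ((ℝ × ℝ) × ℝ)} {ε : ℝ} {f : ℝ → ℝ → ℝ}

/-- the reduced centre function -/
noncomputable def gg (K : Set ((ℝ × ℝ) × ℝ)) (a : ℝ) : ℝ := (Rm K 0 - Rm K a) / 2

theorem gg_zero : gg K 0 = 0 := by unfold gg; ring

theorem Rm_le (hK : SB K) {M : ℝ} (hM : ∀ x y k : ℝ, Mem K x y k → |x| ≤ M ∧ |y| ≤ M) (a : ℝ) :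
    Rm K a ≤ M := by
  have h1 := (mem_zero hK a (-Rm K a)).2 ⟨le_rfl, by linarith [Rm_pos hK a, Rp_pos hK a]⟩
  have h2 := (hM _ _ _ h1).1
  rw [abs_neg, abs_of_pos (Rm_pos hK a)] at h2
  exact h2

theorem gg_abs (hK : SB K) {M : ℝ} (hM : ∀ x y k : ℝ, Mem K x y k → |x| ≤ M ∧ |y| ≤ M) (a : ℝ) :
    |gg K a| ≤ M := by
  have h1 := Rm_le hK hM a
  have h2 := Rm_le hK hM 0
  have h3 := Rm_pos hK a
  have h4 := Rm_pos hK 0
  unfold gg
  rw [abs_le]
  constructor <;> linarith

theorem f_eq (h : RF K ε f) (h0 : ∀ b : ℝ, |b| < ε → f 0 b = 0) {M : ℝ}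
    (hM : ∀ x y k : ℝ, Mem K x y k → |x| ≤ M ∧ |y| ≤ M)
    {a b : ℝ} (ha : |a| < ε) (haM : |a| * (M + 1) ≤ ε) (hb : |b| < ε / 2) : f a b = gg K a := by
  have h1 := h.right_end hM ha haM hb
  have hbε : |b| < ε := by linarith [h.hε]
  have hmem := (h.mem_two ha hbε (2 * f a b + Rm K a)).2
    ⟨by linarith [Rm_pos h.hK a, Rp_pos h.hK a], le_rfl⟩
  have hx := (hM _ _ _ hmem).1
  rw [h0 _ (by
    rw [abs_div, abs_of_pos (two_pos : (0 : ℝ) < 2), div_lt_iff₀ two_pos]
    calc |2 * b + (2 * f a b + Rm K a) * a| ≤ |2 * b| + |(2 * f a b + Rm K a) * a| :=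
          abs_add_le _ _
      _ = 2 * |b| + |2 * f a b + Rm K a| * |a| := by
          rw [abs_mul, abs_mul, abs_of_pos (two_pos : (0 : ℝ) < 2)]
      _ ≤ 2 * |b| + (M + 1) * |a| := by gcongr; linarith
      _ < ε * 2 := by linarith)] at h1
  unfold gg
  linarith

/-- the map on the slice at height one half -/
theorem slice (h : RF K ε f) (h0 : ∀ b : ℝ, |b| < ε → f 0 b = 0) {M M2 : ℝ} (hM0 : 0 < M)
    (hM : ∀ x y k : ℝ, Mem K x y k → |x| ≤ M ∧ |y| ≤ M) (hM2 : 0 ≤ M2)
    {η₀ : ℝ} (hη₀ : η₀ = ε / (8 * (1 + M2 + M))) {a x y : ℝ} (ha : |a| ≤ η₀) (hx : |x| ≤ M2)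
    (hy : |y| ≤ η₀) :
    Mem K x y (1 / 2) ↔ Mem K (x - 2 * gg K a) (y + (2 * a * gg K a - 4 * a * x) / 3) (1 / 2) := by
  have hε := h.hε
  have hη₀pos : 0 < η₀ := by rw [hη₀]; positivity
  have hη₀e : η₀ * (1 + M2 + M) = ε / 8 := by rw [hη₀]; field_simp
  have e1 : η₀ ≤ ε / 8 := by nlinarith [mul_nonneg hη₀pos.le hM2, mul_nonneg hη₀pos.le hM0.le]
  have e2 : η₀ * M ≤ ε / 8 := by nlinarith [mul_nonneg hη₀pos.le hM2]
  have e3 : η₀ * M2 ≤ ε / 8 := by nlinarith [mul_nonneg hη₀pos.le hM0.le]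
  have e4 : η₀ + η₀ * M2 + η₀ * M = ε / 8 := by linarith
  have haε : |a| < ε := by linarith
  have haM : |a| * (M + 1) ≤ ε := by
    calc |a| * (M + 1) ≤ η₀ * (M + 1) := by gcongr
      _ ≤ ε := by linarith
  have hax : |x * a| ≤ η₀ * M2 := by
    rw [abs_mul, mul_comm]
    exact mul_le_mul ha hx (abs_nonneg _) hη₀pos.le
  have hgM := gg_abs h.hK hM a
  have hag : |a * gg K a| ≤ η₀ * M := by
    rw [abs_mul]
    exact mul_le_mul ha hgM (abs_nonneg _) hη₀pos.le
  have hb : |2 * (y - x * a)| < ε / 2 := by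
    rw [abs_mul, abs_of_pos (two_pos : (0 : ℝ) < 2)]
    have := abs_sub y (x * a)
    have hη₀M := mul_nonneg hη₀pos.le hM0.le
    linarith
  have hbε : |2 * (y - x * a)| < ε := by linarith
  have h1 := h.iff haε hbε x (1 / 2)
  rw [h.f_eq h0 hM haε haM hb] at h1
  have k1 : 1 / 2 * (2 * (y - x * a)) + x * a = y := by ring
  have k2 : (2 - 1 / 2) * (2 * (y - x * a)) + (2 * gg K a - x) * a =
      3 * y - 4 * (x * a) + 2 * (a * gg K a) := by ring
  rw [k1, k2] at h1
  rw [h1]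
  set y' := 3 * y - 4 * (x * a) + 2 * (a * gg K a) with hy'
  have hy'abs : |2 / 3 * y'| < ε := by
    rw [abs_mul, abs_of_pos (show (0 : ℝ) < 2 / 3 by norm_num)]
    have : |y'| ≤ 3 * |y| + 4 * |x * a| + 2 * |a * gg K a| := by
      rw [hy']
      calc |3 * y - 4 * (x * a) + 2 * (a * gg K a)|
          ≤ |3 * y - 4 * (x * a)| + |2 * (a * gg K a)| := abs_add_le _ _
        _ ≤ |3 * y| + |4 * (x * a)| + |2 * (a * gg K a)| := by gcongr; exact abs_sub _ _
        _ = _ := by
          rw [abs_mul 3, abs_mul 4, abs_mul 2, abs_of_pos (show (0 : ℝ) < 3 by norm_num),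
            abs_of_pos (show (0 : ℝ) < 4 by norm_num), abs_of_pos (two_pos : (0 : ℝ) < 2)]
    linarith
  have h2 := h.iff (a := 0) (b := 2 / 3 * y') (by simpa using hε) hy'abs (2 * gg K a - x)
    (2 - 1 / 2)
  rw [h0 _ hy'abs] at h2
  have k3 : (2 - 1 / 2) * (2 / 3 * y') + (2 * gg K a - x) * 0 = y' := by ring
  have k4 : (2 - (2 - 1 / 2)) * (2 / 3 * y') + (2 * 0 - (2 * gg K a - x)) * 0 = y' / 3 := by ring
  have k5 : (2 : ℝ) * 0 - (2 * gg K a - x) = x - 2 * gg K a := by ring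
  have k6 : (2 : ℝ) - (2 - 1 / 2) = 1 / 2 := by ring
  rw [k3, k4, k5, k6] at h2
  rw [h2]
  have k7 : y' / 3 = y + (2 * a * gg K a - 4 * a * x) / 3 := by rw [hy']; ring
  rw [k7]

theorem isClosed_slice (hK : SB K) (x : ℝ) : IsClosed {y | Mem K x y (1 / 2)} := by
  have : {y | Mem K x y (1 / 2)} = (fun y : ℝ => (((x, y), 1 / 2) : (ℝ × ℝ) × ℝ)) ⁻¹' K := rfl
  rw [this]
  exact hK.compact.isClosed.preimage (by fun_prop)

theorem mem_half (h : RF K ε f) : Mem K 0 0 (1 / 2) := by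
  have h1 := h.refl 0 0 (by simpa using h.hε) (by simpa using h.hε) 0 0 (by
    simpa using mem_000 h.hK)
  rw [h.f00] at h1
  have h2 : Mem K 0 0 2 := by simpa using h1
  have h3 := h.hK.smul_mem h2 (t := 1 / 4) (by norm_num) (by norm_num)
  have e : (1 / 4 : ℝ) • (((0, 0), 2) : (ℝ × ℝ) × ℝ) = ((0, 0), 1 / 2) := by
    simp only [Prod.smul_mk, smul_eq_mul, mul_zero]
    norm_num
  rw [e] at h3
  exact h3

/-- the main step, with `f 0 b = 0` -/
theorem vanish0 (h : RF K ε f) (h0 : ∀ b : ℝ, |b| < ε → f 0 b = 0) :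
    ∃ ε' : ℝ, 0 < ε' ∧ ∀ a : ℝ, |a| < ε' → f a 0 = 0 := by
  obtain ⟨M, hM0, hM⟩ := exists_bound h.hK
  have hε := h.hε
  set M2 := 5 * M with hM2
  have hM2pos : 0 ≤ M2 := by positivity
  set η₀ := ε / (8 * (1 + M2 + M)) with hη₀
  have hη₀pos : 0 < η₀ := by positivity
  have hη₀e : η₀ * (1 + M2 + M) = ε / 8 := by rw [hη₀]; field_simp
  have hη₀ε : η₀ ≤ ε / 8 := by nlinarith [mul_nonneg hη₀pos.le hM2pos, mul_nonneg hη₀pos.le hM0.le]
  have hη₀M : η₀ * (M + 1) ≤ ε := by
    have := mul_nonneg hη₀pos.le hM2pos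
    linarith
  have hsl : ∀ a x y : ℝ, |a| ≤ η₀ → |x| ≤ M2 → |y| ≤ η₀ → (Mem K x y (1 / 2) ↔
      Mem K (x - 2 * gg K a) (y + (2 * a * gg K a - 4 * a * x) / 3) (1 / 2)) :=
    fun a x y ha hx hy => h.slice h0 hM0 hM hM2pos hη₀ ha hx hy
  have hg : ∀ a, |gg K a| ≤ M := gg_abs h.hK hM
  -- shift bound
  set η₁ := min η₀ (η₀ / (4 * (8 * M))) with hη₁
  have hη₁pos : 0 < η₁ := by positivity
  have hη₁0 : η₁ ≤ η₀ := min_le_left _ _
  have hη₁M : η₁ * (8 * M) ≤ η₀ / 4 := by
    have : η₁ ≤ η₀ / (4 * (8 * M)) := min_le_right _ _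
    calc η₁ * (8 * M) ≤ η₀ / (4 * (8 * M)) * (8 * M) := by gcongr
      _ = η₀ / 4 := by field_simp
  have hshift : ∀ a x : ℝ, |a| ≤ η₁ → |x| ≤ 5 * M →
      |(2 * a * gg K a - 4 * a * x) / 3| ≤ η₀ / 4 := by
    intro a x ha hx
    have e : (2 * a * gg K a - 4 * a * x) / 3 = a * ((2 * gg K a - 4 * x) / 3) := by ring
    rw [e, abs_mul]
    have h1 : |(2 * gg K a - 4 * x) / 3| ≤ 8 * M := by
      rw [abs_le]
      have h2 := abs_le.1 (hg a)
      have h3 := abs_le.1 hx
      constructor <;> linarith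
    calc |a| * |(2 * gg K a - 4 * x) / 3| ≤ η₁ * (8 * M) :=
          mul_le_mul ha h1 (abs_nonneg _) hη₁pos.le
      _ ≤ η₀ / 4 := hη₁M
  -- conclusion from vertical invariance
  have final : (∀ e : ℝ, 0 < e → ∃ δ : ℝ, 0 < δ ∧ δ < e ∧ ∀ x y : ℝ, |x| ≤ M → |y| ≤ η₀ / 4 →
      (Mem K x y (1 / 2) ↔ Mem K x (y + δ) (1 / 2))) → ∀ a : ℝ, |a| < η₁ → f a 0 = 0 := by
    intro hV a ha
    have haη₀ : |a| ≤ η₀ := ha.le.trans hη₁0
    have hfa : f a 0 = gg K a := by
      apply h.f_eq h0 hM (by linarith) _ (by simpa using hε)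
      calc |a| * (M + 1) ≤ η₀ * (M + 1) := by gcongr
        _ ≤ ε := hη₀M
    rw [hfa]
    have key : ∀ n : ℕ, Mem K ((n : ℝ) * (-2 * gg K a)) 0 (1 / 2) := by
      intro n
      induction n with
      | zero => simpa using h.mem_half
      | succ n ih =>
        have hx := (hM _ _ _ ih).1
        have hx5 : |(n : ℝ) * (-2 * gg K a)| ≤ 5 * M := by linarith
        have h1 := (hsl a _ 0 haη₀ hx5 (by simpa using hη₀pos.le)).1 ih
        have h2 := hshift a _ ha.le hx5
        rw [zero_add] at h1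
        have hx' := (hM _ _ _ h1).1
        have h3 := vert_inv (N := fun y => Mem K ((n : ℝ) * (-2 * gg K a) - 2 * gg K a) y (1 / 2))
          (isClosed_slice h.hK _) (η := η₀ / 4) (by
            intro e he
            obtain ⟨δ, hδ, hδe, hδN⟩ := hV e he
            exact ⟨δ, hδ, hδe, fun y hy => hδN _ y hx' hy⟩) h2 (y' := 0)
            (by simpa using (by positivity : (0 : ℝ) ≤ η₀ / 4)) h1
        have e : ((n + 1 : ℕ) : ℝ) * (-2 * gg K a) = (n : ℝ) * (-2 * gg K a) - 2 * gg K a := by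
          push_cast; ring
        rw [e]
        exact h3
    by_contra hne
    have hpos : 0 < |-2 * gg K a| := abs_pos.2 (mul_ne_zero (by norm_num) hne)
    obtain ⟨n, hn⟩ := exists_nat_gt (M / |-2 * gg K a|)
    have h1 := (hM _ _ _ (key n)).1
    rw [abs_mul, abs_of_nonneg (Nat.cast_nonneg n)] at h1
    rw [div_lt_iff₀ hpos] at hn
    linarith
  -- commutators
  have hcomm : ∀ a b x y : ℝ, |a| ≤ η₁ → |b| ≤ η₁ → |x| ≤ M → |y| ≤ η₀ / 4 →
      (Mem K x y (1 / 2) ↔ Mem K x (y + 8 * (b * gg K a - a * gg K b) / 3) (1 / 2)) := by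
    intro a b x y ha hb hx hy
    have hgA := abs_le.1 (hg a)
    have hgB := abs_le.1 (hg b)
    have hx' := abs_le.1 hx
    have hδ : |8 * (b * gg K a - a * gg K b) / 3| ≤ η₀ / 4 := by
      have h1 : |b * gg K a - a * gg K b| ≤ η₁ * M + η₁ * M := by
        refine (abs_sub _ _).trans ?_
        rw [abs_mul, abs_mul]
        exact add_le_add (mul_le_mul hb (hg a) (abs_nonneg _) hη₁pos.le)
          (mul_le_mul ha (hg b) (abs_nonneg _) hη₁pos.le)
      rw [abs_div, abs_mul, abs_of_pos (show (0 : ℝ) < 8 by norm_num),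
        abs_of_pos (show (0 : ℝ) < 3 by norm_num)]
      have : 0 ≤ η₁ * M := by positivity
      linarith
    have sA := hshift a x ha (by linarith)
    have sB := hshift b x hb (by linarith)
    have p1 := hsl a x y (ha.trans hη₁0) (by linarith) (by linarith)
    have x1abs : |x - 2 * gg K a| ≤ 5 * M := by rw [abs_le]; constructor <;> linarith
    have y1abs : |y + (2 * a * gg K a - 4 * a * x) / 3| ≤ η₀ := by
      have := abs_add_le y ((2 * a * gg K a - 4 * a * x) / 3)
      linarith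
    have p2 := hsl b (x - 2 * gg K a) (y + (2 * a * gg K a - 4 * a * x) / 3) (hb.trans hη₁0)
      x1abs y1abs
    have yδ : |y + 8 * (b * gg K a - a * gg K b) / 3| ≤ η₀ / 2 := by
      have := abs_add_le y (8 * (b * gg K a - a * gg K b) / 3)
      linarith
    have p3 := hsl b x (y + 8 * (b * gg K a - a * gg K b) / 3) (hb.trans hη₁0) (by linarith)
      (by linarith)
    have x3abs : |x - 2 * gg K b| ≤ 5 * M := by rw [abs_le]; constructor <;> linarith
    have y3abs : |y + 8 * (b * gg K a - a * gg K b) / 3 +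
        (2 * b * gg K b - 4 * b * x) / 3| ≤ η₀ := by
      have := abs_add_le (y + 8 * (b * gg K a - a * gg K b) / 3) ((2 * b * gg K b - 4 * b * x) / 3)
      linarith
    have p4 := hsl a (x - 2 * gg K b) (y + 8 * (b * gg K a - a * gg K b) / 3 +
        (2 * b * gg K b - 4 * b * x) / 3) (ha.trans hη₁0) x3abs y3abs
    rw [p1, p2, p3, p4]
    have ex : x - 2 * gg K a - 2 * gg K b = x - 2 * gg K b - 2 * gg K a := by ring
    have ey : y + (2 * a * gg K a - 4 * a * x) / 3 +
        (2 * b * gg K b - 4 * b * (x - 2 * gg K a)) / 3 =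
        y + 8 * (b * gg K a - a * gg K b) / 3 + (2 * b * gg K b - 4 * b * x) / 3 +
        (2 * a * gg K a - 4 * a * (x - 2 * gg K b)) / 3 := by ring
    rw [ex, ey]
  by_cases hcase : ∀ e : ℝ, 0 < e → ∃ a b : ℝ, |a| < e ∧ |b| < e ∧ b * gg K a - a * gg K b ≠ 0
  · refine ⟨η₁, hη₁pos, final ?_⟩
    intro e he
    obtain ⟨a, b, ha, hb, hne⟩ := hcase (min η₁ (e / (16 * M))) (by positivity)
    have ha1 : |a| ≤ η₁ := (ha.trans_le (min_le_left _ _)).le
    have hb1 : |b| ≤ η₁ := (hb.trans_le (min_le_left _ _)).le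
    have ha2 : |a| ≤ e / (16 * M) := (ha.trans_le (min_le_right _ _)).le
    have hb2 : |b| ≤ e / (16 * M) := (hb.trans_le (min_le_right _ _)).le
    have hsize : |8 * (b * gg K a - a * gg K b) / 3| < e := by
      have h1 : |b * gg K a - a * gg K b| ≤ e / (16 * M) * M + e / (16 * M) * M := by
        refine (abs_sub _ _).trans ?_
        rw [abs_mul, abs_mul]
        exact add_le_add (mul_le_mul hb2 (hg a) (abs_nonneg _) (by positivity))
          (mul_le_mul ha2 (hg b) (abs_nonneg _) (by positivity))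
      have h2 : e / (16 * M) * M = e / 16 := by field_simp
      rw [abs_div, abs_mul, abs_of_pos (show (0 : ℝ) < 8 by norm_num),
        abs_of_pos (show (0 : ℝ) < 3 by norm_num)]
      linarith
    rcases lt_or_gt_of_ne hne with hlt | hgt
    · refine ⟨8 * (a * gg K b - b * gg K a) / 3, by linarith, ?_, ?_⟩
      · have := (abs_lt.1 hsize).1
        linarith
      · intro x y hx hy
        exact hcomm b a x y hb1 ha1 hx hy
    · refine ⟨8 * (b * gg K a - a * gg K b) / 3, by linarith, (abs_lt.1 hsize).2, ?_⟩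
      intro x y hx hy
      exact hcomm a b x y ha1 hb1 hx hy
  · -- `gg` is linear near `0`
    push Not at hcase
    obtain ⟨e₀, he₀, hlin⟩ := hcase
    set b₀ := e₀ / 2 with hb₀
    have hb₀pos : 0 < b₀ := by positivity
    have hb₀abs : |b₀| < e₀ := by rw [abs_of_pos hb₀pos]; linarith
    set μ := gg K b₀ / b₀ with hμ
    have hgl : ∀ a : ℝ, |a| < e₀ → gg K a = μ * a := by
      intro a ha
      have := hlin a b₀ ha hb₀abs
      rw [hμ]
      field_simp
      linarith
    rcases eq_or_ne μ 0 with hμ0 | hμ0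
    · refine ⟨min e₀ η₁, by positivity, ?_⟩
      intro a ha
      have ha1 : |a| < e₀ := ha.trans_le (min_le_left _ _)
      have ha2 : |a| ≤ η₀ := (ha.trans_le (min_le_right _ _)).le.trans hη₁0
      rw [h.f_eq h0 hM (by linarith) (by
        calc |a| * (M + 1) ≤ η₀ * (M + 1) := by gcongr
          _ ≤ ε := hη₀M) (by simpa using hε), hgl a ha1, hμ0, zero_mul]
    · refine ⟨η₁, hη₁pos, final ?_⟩
      -- `Φ_{-a} Φ_a` is a vertical translation
      have hv : ∀ a x y : ℝ, |a| ≤ η₁ → |a| < e₀ → |x| ≤ M → |y| ≤ η₀ / 2 →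
          (Mem K x y (1 / 2) ↔ Mem K x (y - 4 / 3 * μ * a ^ 2) (1 / 2)) := by
        intro a x y ha ha0 hx hy
        have hgA := abs_le.1 (hg a)
        have hx' := abs_le.1 hx
        have sA := hshift a x ha (by linarith)
        have p1 := hsl a x y (ha.trans hη₁0) (by linarith) (by linarith)
        have x1abs : |x - 2 * gg K a| ≤ 5 * M := by rw [abs_le]; constructor <;> linarith
        have y1abs : |y + (2 * a * gg K a - 4 * a * x) / 3| ≤ η₀ := by
          have := abs_add_le y ((2 * a * gg K a - 4 * a * x) / 3)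
          linarith
        have p2 := hsl (-a) (x - 2 * gg K a) (y + (2 * a * gg K a - 4 * a * x) / 3)
          (by rw [abs_neg]; exact ha.trans hη₁0) x1abs y1abs
        rw [p1, p2, hgl a ha0, hgl (-a) (by rwa [abs_neg])]
        have ex : x - 2 * (μ * a) - 2 * (μ * -a) = x := by ring
        have ey : y + (2 * a * (μ * a) - 4 * a * x) / 3 +
            (2 * -a * (μ * -a) - 4 * -a * (x - 2 * (μ * a))) / 3 = y - 4 / 3 * μ * a ^ 2 := by ring
        rw [ex, ey]
      intro e he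
      set a := min (min η₁ (e₀ / 2)) (min 1 (min (e / (4 * |μ|)) (η₀ / (8 * |μ|)))) with ha
      have hμpos : 0 < |μ| := abs_pos.2 hμ0
      have hapos : 0 < a := by positivity
      have ha1 : a ≤ η₁ := (min_le_left _ _).trans (min_le_left _ _)
      have ha2 : a < e₀ := by
        have : a ≤ e₀ / 2 := (min_le_left _ _).trans (min_le_right _ _)
        linarith
      have ha3 : a ≤ 1 := (min_le_right _ _).trans (min_le_left _ _)
      have ha4 : a ≤ e / (4 * |μ|) :=
        (min_le_right _ _).trans ((min_le_right _ _).trans (min_le_left _ _))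
      have ha5 : a ≤ η₀ / (8 * |μ|) :=
        (min_le_right _ _).trans ((min_le_right _ _).trans (min_le_right _ _))
      have habs : |a| = a := abs_of_pos hapos
      rw [le_div_iff₀ (by positivity)] at ha4 ha5
      have hsq : a ^ 2 ≤ a := by nlinarith
      have hsq0 : 0 < a ^ 2 := by positivity
      set δ := 4 / 3 * |μ| * a ^ 2 with hδ
      have hδpos : 0 < δ := by positivity
      have hδ1 : δ ≤ 4 / 3 * (a * |μ|) := by
        rw [hδ]
        have : |μ| * a ^ 2 ≤ |μ| * a := by gcongr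
        linarith
      have hδe : δ < e := by linarith
      have hδη : δ ≤ η₀ / 4 := by linarith
      refine ⟨δ, hδpos, hδe, ?_⟩
      intro x y hx hy
      rcases lt_or_gt_of_ne hμ0 with hneg | hpos
      · have h1 := hv a x y (by rw [habs]; exact ha1) (by rw [habs]; exact ha2) hx (by linarith)
        rw [h1]
        have e1 : y - 4 / 3 * μ * a ^ 2 = y + δ := by
          rw [hδ, abs_of_neg hneg]; ring
        rw [e1]
      · have h1 := hv a x (y + δ) (by rw [habs]; exact ha1) (by rw [habs]; exact ha2) hx (by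
          have := abs_add_le y δ
          rw [abs_of_pos hδpos] at this
          linarith)
        rw [h1]
        have e1 : y + δ - 4 / 3 * μ * a ^ 2 = y := by
          rw [hδ, abs_of_pos hpos]; ring
        rw [e1]

/-! ### Shear -/

/-- the shear -/
def shear (μ : ℝ) : ((ℝ × ℝ) × ℝ) →ₗ[ℝ] ((ℝ × ℝ) × ℝ) where
  toFun v := ((v.1.1 - μ * v.1.2, v.1.2), v.2)
  map_add' v w := by
    ext <;> simp; ring
  map_smul' c v := by
    ext <;> simp; ring

theorem shear_bij (μ : ℝ) : Function.Bijective (shear μ) := by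
  constructor
  · rintro ⟨⟨x, y⟩, h⟩ ⟨⟨x', y'⟩, h'⟩ heq
    have h1 : x - μ * y = x' - μ * y' := congrArg (fun v : (ℝ × ℝ) × ℝ => v.1.1) heq
    have h2 : y = y' := congrArg (fun v : (ℝ × ℝ) × ℝ => v.1.2) heq
    have h3 : h = h' := congrArg (fun v : (ℝ × ℝ) × ℝ => v.2) heq
    subst h2 h3
    have : x = x' := by linarith
    rw [this]
  · rintro ⟨⟨x, y⟩, h⟩
    refine ⟨((x + μ * y, y), h), ?_⟩
    change ((x + μ * y - μ * y, y), h) = ((x, y), h)
    rw [add_sub_cancel_right]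

theorem mem_shear (μ x y h : ℝ) : Mem (shear μ '' K) x y h ↔ Mem K (x + μ * y) y h := by
  have e : (((x, y), h) : (ℝ × ℝ) × ℝ) = shear μ ((x + μ * y, y), h) := by
    change ((x, y), h) = ((x + μ * y - μ * y, y), h)
    rw [add_sub_cancel_right]
  unfold Mem
  rw [e, (shear_bij μ).1.mem_set_image]

theorem exists_shear (h : RF K ε f) {μ η : ℝ} (hη : 0 < η) (hηε : η ≤ ε) :
    ∃ ε' : ℝ, 0 < ε' ∧ ε' * |μ| ≤ 1 / 2 ∧ 2 * ε' ≤ η ∧ RF (shear μ '' K) ε'
      (fun a b => f (a / (1 + μ * a)) (b / (1 + μ * a)) * (1 - μ * (a / (1 + μ * a))) -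
        μ * (b / (1 + μ * a))) := by
  set ε' := min (η / 2) (1 / (2 * (|μ| + 1))) with hε'
  have hε'pos : 0 < ε' := by positivity
  have h1 : ε' ≤ η / 2 := min_le_left _ _
  have h2 : ε' * |μ| ≤ 1 / 2 := by
    have : ε' ≤ 1 / (2 * (|μ| + 1)) := min_le_right _ _
    calc ε' * |μ| ≤ 1 / (2 * (|μ| + 1)) * (|μ| + 1) := by gcongr; linarith
      _ = 1 / 2 := by field_simp
  have hden : ∀ a : ℝ, |a| < ε' → 1 / 2 ≤ 1 + μ * a := by
    intro a ha
    have h3 : |μ * a| ≤ 1 / 2 := by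
      rw [abs_mul]
      calc |μ| * |a| ≤ |μ| * ε' := by gcongr
        _ ≤ 1 / 2 := by linarith
    linarith [(abs_le.1 h3).1]
  have hsmall : ∀ a c : ℝ, |a| < ε' → |c| < ε' → |c / (1 + μ * a)| < ε := by
    intro a c ha hc
    have h3 := hden a ha
    rw [abs_div, abs_of_pos (show 0 < 1 + μ * a by linarith), div_lt_iff₀ (by linarith)]
    have : ε * (1 / 2) ≤ ε * (1 + μ * a) := by
      apply mul_le_mul_of_nonneg_left h3 h.hε.le
    linarith
  refine ⟨ε', hε'pos, h2, by linarith, ?_⟩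
  constructor
  · exact h.hK.image_lin _ (shear_bij μ).2
  · exact hε'pos
  · intro a b ha hb x k hm
    rw [mem_shear] at hm ⊢
    have hd := hden a ha
    have hdne : 1 + μ * a ≠ 0 := by linarith
    have r := h.refl (a / (1 + μ * a)) (b / (1 + μ * a)) (hsmall a a ha ha) (hsmall a b ha hb)
      (x + μ * (k * b + x * a)) k (by
        have e : k * (b / (1 + μ * a)) + (x + μ * (k * b + x * a)) * (a / (1 + μ * a)) =
            k * b + x * a := by field_simp; ring
        rw [e]; exact hm)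
    set F := f (a / (1 + μ * a)) (b / (1 + μ * a)) with hF
    have ex : 2 * F - (x + μ * (k * b + x * a)) =
        (2 * (F * (1 - μ * (a / (1 + μ * a))) - μ * (b / (1 + μ * a))) - x) + μ *
        ((2 - k) * b + (2 * (F * (1 - μ * (a / (1 + μ * a))) - μ * (b / (1 + μ * a))) - x) * a) := by
      field_simp
      ring
    have ey : (2 - k) * (b / (1 + μ * a)) + (2 * F - (x + μ * (k * b + x * a))) * (a / (1 + μ * a)) =
        (2 - k) * b + (2 * (F * (1 - μ * (a / (1 + μ * a))) - μ * (b / (1 + μ * a))) - x) * a := by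
      field_simp
      ring
    rw [ey, ex] at r
    exact r
  · intro a b ha hb
    have hd := hden a ha
    have hdne : 1 + μ * a ≠ 0 := by linarith
    have c1 : ContinuousAt (fun p : ℝ × ℝ => p.1 / (1 + μ * p.1)) (a, b) :=
      ContinuousAt.div (f := fun p : ℝ × ℝ => p.1) (g := fun p : ℝ × ℝ => 1 + μ * p.1)
        (by fun_prop) (by fun_prop) hdne
    have c2 : ContinuousAt (fun p : ℝ × ℝ => p.2 / (1 + μ * p.1)) (a, b) :=
      ContinuousAt.div (f := fun p : ℝ × ℝ => p.2) (g := fun p : ℝ × ℝ => 1 + μ * p.1)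
        (by fun_prop) (by fun_prop) hdne
    have c3 : ContinuousAt (fun p : ℝ × ℝ => f (p.1 / (1 + μ * p.1)) (p.2 / (1 + μ * p.1))) (a, b) :=
      ContinuousAt.comp (f := fun p : ℝ × ℝ => ((p.1 / (1 + μ * p.1), p.2 / (1 + μ * p.1)) : ℝ × ℝ))
        (x := ((a, b) : ℝ × ℝ)) (g := fun p : ℝ × ℝ => f p.1 p.2)
        (h.cont _ _ (hsmall a a ha ha) (hsmall a b ha hb)) (c1.prodMk c2)
    exact (c3.mul (continuousAt_const.sub (continuousAt_const.mul c1))).sub
      (continuousAt_const.mul c2)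
  · simp [h.f00]

/-- **Case of centres of height one.** -/
theorem vanish (h : RF K ε f) : ∃ ε' : ℝ, 0 < ε' ∧ ∀ a : ℝ, |a| < ε' → f a 0 = 0 := by
  obtain ⟨μ, η, hη, hηε, hlin⟩ := h.linear0
  obtain ⟨ε', hε', hεμ, hε'η, hRF⟩ := h.exists_shear (μ := μ) hη hηε
  obtain ⟨ε'', hε'', hv⟩ := hRF.vanish0 (by
    intro b hb
    have : f 0 b = μ * b := hlin b (by linarith)
    simp [this])
  refine ⟨min (ε'' / 2) (1 / (2 * (|μ| + 1))), by positivity, ?_⟩
  intro a ha
  have ha1 : |a| < ε'' / 2 := ha.trans_le (min_le_left _ _)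
  have ha2 : |a| < 1 / (2 * (|μ| + 1)) := ha.trans_le (min_le_right _ _)
  have hμa : |μ * a| ≤ 1 / 2 := by
    rw [abs_mul]
    calc |μ| * |a| ≤ (|μ| + 1) * (1 / (2 * (|μ| + 1))) := by gcongr; linarith
      _ = 1 / 2 := by field_simp
  have hden : 1 / 2 ≤ 1 - μ * a := by linarith [(abs_le.1 hμa).2]
  have hdne : 1 - μ * a ≠ 0 := by linarith
  have h1 := hv (a / (1 - μ * a)) (by
    rw [abs_div, abs_of_pos (show 0 < 1 - μ * a by linarith), div_lt_iff₀ (by linarith)]
    have : ε'' * (1 / 2) ≤ ε'' * (1 - μ * a) := mul_le_mul_of_nonneg_left hden hε''.le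
    linarith)
  have e1 : 1 + μ * (a / (1 - μ * a)) = 1 / (1 - μ * a) := by field_simp; ring
  have e2 : a / (1 - μ * a) / (1 / (1 - μ * a)) = a := by
    rw [div_div_div_cancel_right₀ hdne, div_one]
  simp only [e1, e2, zero_div, mul_zero, sub_zero] at h1
  exact (mul_eq_zero.1 h1).resolve_right hdne

end RF

end Pool.Agent.Lib.MP_f7db8a
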