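import Mathlib

set_option autoImplicit false
set_option linter.unusedSectionVars false

/-!
# Gaussian facts: law of linear combinations of i.i.d. standard Gaussian vectors, and the density of
the standard Gaussian measure.
-/

namespace Pool.Agent.Lib.MP_f7db8a

open Module Set MeasureTheory ProbabilityTheory Complex
open scoped RealInnerProductSpace ENNReal

section gauss

variable {E : Type*} [NormedAddCommGroup E] [InnerProductSpace ℝ E] [FiniteDimensional ℝ E]
  [MeasurableSpace E] [BorelSpace E]

/-- `∑ yᵢ gᵢ` has the law of `‖y‖ z`. -/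
theorem law_sum {k : ℕ} (y : EuclideanSpace ℝ (Fin k)) :
    (Measure.pi (fun _ : Fin k => stdGaussian E)).map (fun g : Fin k → E => ∑ i, y i • g i) =
      (stdGaussian E).map (fun z => ‖y‖ • z) := by
  have hm1 : Measurable (fun g : Fin k → E => ∑ i, y i • g i) := by fun_prop
  have hm2 : Measurable (fun z : E => ‖y‖ • z) := by fun_prop
  have : IsProbabilityMeasure ((Measure.pi (fun _ : Fin k => stdGaussian E)).map
      (fun g : Fin k → E => ∑ i, y i • g i)) := Measure.isProbabilityMeasure_map hm1.aemeasurable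
  have : IsProbabilityMeasure ((stdGaussian E).map (fun z => ‖y‖ • z)) :=
    Measure.isProbabilityMeasure_map hm2.aemeasurable
  apply Measure.ext_of_charFun
  ext t
  rw [charFun_map_smul, charFun_stdGaussian, charFun_apply, integral_map hm1.aemeasurable
    (Measurable.aestronglyMeasurable (by fun_prop))]
  simp_rw [sum_inner, ofReal_sum, Finset.sum_mul, Complex.exp_sum]
  rw [integral_fintype_prod_eq_prod (f := fun (i : Fin k) (x : E) => cexp (⟪y i • x, t⟫ * I))]
  have : ∀ i : Fin k, ∫ x : E, cexp (⟪y i • x, t⟫ * I) ∂(stdGaussian E) =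
      cexp (-‖(y i) • t‖ ^ 2 / 2) := by
    intro i
    rw [← charFun_stdGaussian, charFun_apply]
    congr 1
    ext x
    rw [real_inner_smul_left, real_inner_smul_right]
  simp_rw [this]
  rw [← Complex.exp_sum]
  congr 1
  simp_rw [norm_smul]
  rw [EuclideanSpace.norm_eq]
  rw [← Finset.sum_div, Finset.sum_neg_distrib]
  congr 2
  norm_cast
  rw [Real.norm_of_nonneg (Real.sqrt_nonneg _), mul_pow, Real.sq_sqrt
    (Finset.sum_nonneg fun i _ => by positivity), Finset.sum_mul]
  exact Finset.sum_congr rfl fun i _ => mul_pow _ _ _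

/-- The (unnormalised) Gaussian weight. -/
noncomputable def gw (x : E) : ℝ := Real.exp (-(1 / 2) * ‖x‖ ^ 2)

theorem gw_pos (x : E) : 0 < gw x := Real.exp_pos _

theorem continuous_gw : Continuous (gw (E := E)) := by
  unfold gw; fun_prop

theorem integrable_gw : Integrable (gw (E := E)) := by
  have h := GaussianFourier.integrable_cexp_neg_mul_sq_norm_add (V := E) (b := (1 / 2 : ℂ))
    (by norm_num) 0 0
  have h2 := h.re
  refine h2.congr (Filter.Eventually.of_forall fun x => ?_)
  simp only [gw, zero_mul, add_zero]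
  have : (-(1 / 2 : ℂ) * (‖x‖ : ℂ) ^ 2) = ((-(1 / 2) * ‖x‖ ^ 2 : ℝ) : ℂ) := by push_cast; ring
  rw [this]
  exact Complex.exp_ofReal_re _

/-- total mass of the Gaussian weight -/
noncomputable def gC (E : Type*) [NormedAddCommGroup E] [InnerProductSpace ℝ E]
    [FiniteDimensional ℝ E] [MeasurableSpace E] [BorelSpace E] : ℝ := ∫ x : E, gw x

theorem gC_eq : gC E = (Real.pi / (1 / 2)) ^ (finrank ℝ E / 2 : ℝ) := by
  unfold gC gw
  exact GaussianFourier.integral_rexp_neg_mul_sq_norm (V := E) (b := 1 / 2) (by norm_num)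

theorem gC_pos : 0 < gC E := by
  rw [gC_eq]
  apply Real.rpow_pos_of_pos
  positivity

/-- The standard Gaussian measure has density `gw / gC` with respect to Lebesgue measure. -/
theorem stdGaussian_eq_withDensity :
    stdGaussian E = volume.withDensity fun x : E => ENNReal.ofReal ((gC E)⁻¹ * gw x) := by
  have hint : Integrable (fun x : E => (gC E)⁻¹ * gw x) := integrable_gw.const_mul _
  have hnn : ∀ x : E, 0 ≤ (gC E)⁻¹ * gw x := fun x =>
    mul_nonneg (inv_nonneg.2 gC_pos.le) (gw_pos x).le
  have : IsFiniteMeasure (volume.withDensity fun x : E => ENNReal.ofReal ((gC E)⁻¹ * gw x)) :=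
    isFiniteMeasure_withDensity_ofReal hint.2
  apply Measure.ext_of_charFun
  ext t
  rw [charFun_stdGaussian, charFun_apply]
  rw [integral_withDensity_eq_integral_toReal_smul]
  rotate_left
  · exact (ENNReal.measurable_ofReal.comp (continuous_const.mul continuous_gw).measurable)
  · exact Filter.Eventually.of_forall fun x => ENNReal.ofReal_lt_top
  simp_rw [ENNReal.toReal_ofReal (hnn _)]
  have h1 : ∀ x : E, ((gC E)⁻¹ * gw x) • cexp (⟪x, t⟫ * I) =
      ((gC E)⁻¹ : ℂ) * cexp (-(1 / 2 : ℂ) * ‖x‖ ^ 2 + I * ⟪t, x⟫) := by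
    intro x
    rw [Complex.real_smul, gw]
    push_cast
    rw [mul_assoc, ← Complex.exp_add, real_inner_comm x t]
    congr 2
    ring
  simp_rw [h1]
  rw [integral_const_mul, GaussianFourier.integral_cexp_neg_mul_sq_norm_add (by norm_num)]
  have h2 : ((gC E : ℝ) : ℂ) = (Real.pi / (1 / 2) : ℂ) ^ (finrank ℝ E / 2 : ℂ) := by
    rw [gC_eq, Complex.ofReal_cpow (by positivity)]
    push_cast
    rfl
  rw [← h2, ← mul_assoc, inv_mul_cancel₀ (by exact_mod_cast gC_pos.ne'), one_mul]
  congr 1
  rw [Complex.I_sq]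
  ring

end gauss

end Pool.Agent.Lib.MP_f7db8a
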