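import Pool.Agent.Lib.MP_f7db8a.Dicho
import Pool.Agent.Lib.MP_f7db8a.Gauss

set_option autoImplicit false
set_option linter.unusedSectionVars false

/-!
# Step 2 (a): Gaussian averages of the volumes of sections
-/

namespace Pool.Agent.Lib.MP_f7db8a

open Module Set MeasureTheory ProbabilityTheory
open scoped RealInnerProductSpace ENNReal

universe u

variable {E : Type u} [NormedAddCommGroup E] [InnerProductSpace ℝ E] [FiniteDimensional ℝ E]
  [MeasurableSpace E] [BorelSpace E]

/-- preimages of neighbourhoods of `0` under non-injective linear maps have infinite volume -/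
theorem vol_top {k : ℕ} {K : Set E} (h0 : (0 : E) ∈ interior K)
    (A : EuclideanSpace ℝ (Fin k) →ₗ[ℝ] E) (hA : ¬ Function.Injective A) :
    volume (A ⁻¹' K) = ⊤ := by
  have hker : ∃ w : EuclideanSpace ℝ (Fin k), w ≠ 0 ∧ A w = 0 := by
    by_contra hcon
    push Not at hcon
    apply hA
    rw [← LinearMap.ker_eq_bot, Submodule.eq_bot_iff]
    intro w hw
    by_contra hw0
    exact hcon w hw0 (LinearMap.mem_ker.1 hw)
  obtain ⟨w, hw0, hAw⟩ := hker
  have hwpos : 0 < ‖w‖ := norm_pos_iff.2 hw0
  have hAcont : Continuous A := A.continuous_of_finiteDimensional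
  have hopen : IsOpen (A ⁻¹' interior K) := isOpen_interior.preimage hAcont
  obtain ⟨δ, hδ, hball⟩ := Metric.isOpen_iff.1 hopen 0 (by simpa using h0)
  let c : ℕ → EuclideanSpace ℝ (Fin k) := fun j => (2 * δ * j / ‖w‖) • w
  have hAc : ∀ j, A (c j) = 0 := fun j => by simp [c, hAw]
  have hsub : (⋃ j, Metric.ball (c j) δ) ⊆ A ⁻¹' K := by
    intro x hx
    obtain ⟨j, hj⟩ := mem_iUnion.1 hx
    have h1 : x - c j ∈ Metric.ball (0 : EuclideanSpace ℝ (Fin k)) δ := by
      rw [mem_ball_zero_iff, ← dist_eq_norm]; exact hj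
    have h2 := interior_subset (hball h1)
    rw [map_sub, hAc, sub_zero] at h2
    exact h2
  have hdisj : Pairwise (Function.onFun Disjoint fun j => Metric.ball (c j) δ) := by
    intro i j hij
    apply Metric.ball_disjoint_ball
    have hd : dist (c i) (c j) = 2 * δ * |(i : ℝ) - j| := by
      rw [dist_eq_norm, ← sub_smul, norm_smul, Real.norm_eq_abs]
      have : 2 * δ * (i : ℝ) / ‖w‖ - 2 * δ * j / ‖w‖ = (2 * δ / ‖w‖) * (i - j) := by ring
      rw [this, abs_mul, abs_of_pos (by positivity)]
      field_simp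
    rw [hd]
    have h1 : (1 : ℝ) ≤ |(i : ℝ) - j| := by
      have h2 : (i : ℤ) - j ≠ 0 := by
        intro h; apply hij; omega
      have h3 := Int.one_le_abs h2
      have : ((1 : ℤ) : ℝ) ≤ ((|(i : ℤ) - j| : ℤ) : ℝ) := by exact_mod_cast h3
      push_cast at this
      exact this
    nlinarith
  have hvol : volume (⋃ j, Metric.ball (c j) δ) = ⊤ := by
    rw [measure_iUnion hdisj (fun j => measurableSet_ball)]
    have : ∀ j, volume (Metric.ball (c j) δ) =
        volume (Metric.ball (0 : EuclideanSpace ℝ (Fin k)) δ) := fun j =>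
      Measure.addHaar_ball_center volume (c j) δ
    simp_rw [this]
    exact ENNReal.tsum_const_eq_top_of_ne_zero (Metric.measure_ball_pos volume _ hδ).ne'
  exact top_le_iff.1 (hvol ▸ measure_mono hsub)

theorem vol_preimage_eq {k : ℕ} {K L : Set E} (hK : SB K) (hL : SB L) (h : Tr k K L)
    (A : EuclideanSpace ℝ (Fin k) →ₗ[ℝ] E) : volume (A ⁻¹' L) = volume (A ⁻¹' K) := by
  by_cases hA : Function.Injective A
  · have hfin : finrank ℝ (LinearMap.range A) = k := by
      rw [LinearMap.finrank_range_of_inj hA, finrank_euclideanSpace, Fintype.card_fin]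
    obtain ⟨y, hy, hyL⟩ := h _ hfin
    obtain ⟨y0, rfl⟩ := hy
    have : A ⁻¹' L = (fun w => w + (-y0)) ⁻¹' (A ⁻¹' K) := by
      ext w
      simp only [mem_preimage]
      rw [hyL (A w) ⟨w, rfl⟩, ← sub_eq_add_neg, map_sub]
    rw [this, measure_preimage_add_right]
  · rw [vol_top hK.zero_mem_interior A hA, vol_top hL.zero_mem_interior A hA]

/-- Tonelli + rotation invariance. -/
theorem swap_avg {k : ℕ} {K : Set E} (hK : MeasurableSet K) (T : E →L[ℝ] E) :
    ∫⁻ G, volume {w : EuclideanSpace ℝ (Fin k) | T (∑ i, w i • G i) ∈ K}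
        ∂(Measure.pi fun _ : Fin k => stdGaussian E) =
      ∫⁻ z, volume {w : EuclideanSpace ℝ (Fin k) | T (‖w‖ • z) ∈ K} ∂(stdGaussian E) := by
  let f : E → ℝ≥0∞ := (T ⁻¹' K).indicator 1
  have hTK : MeasurableSet (T ⁻¹' K) := T.continuous.measurable hK
  have hf : Measurable f := measurable_one.indicator hTK
  have e1 : ∀ G : Fin k → E, volume {w : EuclideanSpace ℝ (Fin k) | T (∑ i, w i • G i) ∈ K} =
      ∫⁻ w : EuclideanSpace ℝ (Fin k), f (∑ i, w i • G i) := by
    intro G
    have hm : Measurable (fun w : EuclideanSpace ℝ (Fin k) => ∑ i, w i • G i) := by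
      apply Continuous.measurable; fun_prop
    have hset : volume {w : EuclideanSpace ℝ (Fin k) | T (∑ i, w i • G i) ∈ K} =
        volume ((fun w : EuclideanSpace ℝ (Fin k) => ∑ i, w i • G i) ⁻¹' (T ⁻¹' K)) := rfl
    rw [hset, ← lintegral_indicator_one (hm hTK)]
    rfl
  have e2 : ∀ z : E, volume {w : EuclideanSpace ℝ (Fin k) | T (‖w‖ • z) ∈ K} =
      ∫⁻ w : EuclideanSpace ℝ (Fin k), f (‖w‖ • z) := by
    intro z
    have hm : Measurable (fun w : EuclideanSpace ℝ (Fin k) => ‖w‖ • z) := by
      apply Continuous.measurable; fun_prop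
    have hset : volume {w : EuclideanSpace ℝ (Fin k) | T (‖w‖ • z) ∈ K} =
        volume ((fun w : EuclideanSpace ℝ (Fin k) => ‖w‖ • z) ⁻¹' (T ⁻¹' K)) := rfl
    rw [hset, ← lintegral_indicator_one (hm hTK)]
    rfl
  simp_rw [e1, e2]
  have m1 : Measurable (Function.uncurry fun (G : Fin k → E) (w : EuclideanSpace ℝ (Fin k)) =>
      f (∑ i, w i • G i)) := by
    apply hf.comp
    apply Continuous.measurable
    fun_prop
  have m2 : Measurable (Function.uncurry fun (z : E) (w : EuclideanSpace ℝ (Fin k)) =>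
      f (‖w‖ • z)) := by
    apply hf.comp
    apply Continuous.measurable
    fun_prop
  rw [lintegral_lintegral_swap (f := fun (G : Fin k → E) (w : EuclideanSpace ℝ (Fin k)) =>
      f (∑ i, w i • G i)) m1.aemeasurable,
    lintegral_lintegral_swap (f := fun (z : E) (w : EuclideanSpace ℝ (Fin k)) =>
      f (‖w‖ • z)) m2.aemeasurable]
  apply lintegral_congr
  intro w
  have hm1 : Measurable (fun g : Fin k → E => ∑ i, w i • g i) := by fun_prop
  have hm2 : Measurable (fun z : E => ‖w‖ • z) := by fun_prop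
  rw [← lintegral_map hf hm1, ← lintegral_map hf hm2, law_sum]

theorem SB.vol_radial {k : ℕ} {K : Set E} (hK : SB K) {x : E} (hx : x ≠ 0) :
    volume {w : EuclideanSpace ℝ (Fin k) | ‖w‖ • x ∈ K} =
      ENNReal.ofReal (rad K x ^ k) * volume (Metric.ball (0 : EuclideanSpace ℝ (Fin k)) 1) := by
  have : {w : EuclideanSpace ℝ (Fin k) | ‖w‖ • x ∈ K} = Metric.closedBall 0 (rad K x) := by
    ext w
    rw [mem_closedBall_zero_iff]
    exact hK.smul_mem_iff hx (norm_nonneg w)
  rw [this, Measure.addHaar_closedBall _ _ (rad_nonneg K x), finrank_euclideanSpace,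
    Fintype.card_fin]

theorem ae_ne_zero [Nontrivial E] : ∀ᵐ z ∂(stdGaussian E), z ≠ (0 : E) := by
  rw [stdGaussian_eq_withDensity]
  apply (withDensity_absolutelyContinuous _ _).ae_le
  have : (volume : Measure E) {(0 : E)} = 0 := measure_singleton 0
  change (volume : Measure E) {z : E | z ≠ 0}ᶜ = 0
  convert this using 2
  ext z
  simp

/-- Gaussian averages of `ρ^k` over all linear images agree. -/
theorem gauss_avg_eq [Nontrivial E] {k : ℕ} {K L : Set E} (hK : SB K) (hL : SB L)
    (h : Tr k K L) (T : E →L[ℝ] E) (hT : Function.Injective T) :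
    ∫⁻ z, ENNReal.ofReal (rad L (T z) ^ k) ∂(stdGaussian E) =
      ∫⁻ z, ENNReal.ofReal (rad K (T z) ^ k) ∂(stdGaussian E) := by
  have hmain : ∫⁻ z, volume {w : EuclideanSpace ℝ (Fin k) | T (‖w‖ • z) ∈ L} ∂(stdGaussian E) =
      ∫⁻ z, volume {w : EuclideanSpace ℝ (Fin k) | T (‖w‖ • z) ∈ K} ∂(stdGaussian E) := by
    rw [← swap_avg hL.compact.isClosed.measurableSet T,
      ← swap_avg hK.compact.isClosed.measurableSet T]
    congr 1
    ext G
    let A : EuclideanSpace ℝ (Fin k) →ₗ[ℝ] E :=
      { toFun := fun w => T (∑ i, w i • G i)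
        map_add' := by
          intro a b
          rw [← map_add, ← Finset.sum_add_distrib]
          congr 1
          apply Finset.sum_congr rfl
          intro i _
          rw [← add_smul]; rfl
        map_smul' := by
          intro c a
          rw [RingHom.id_apply, ← map_smul, Finset.smul_sum]
          congr 1
          apply Finset.sum_congr rfl
          intro i _
          rw [smul_smul]; rfl }
    exact vol_preimage_eq hK hL h A
  have hc0 : volume (Metric.ball (0 : EuclideanSpace ℝ (Fin k)) 1) ≠ 0 :=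
    (Metric.measure_ball_pos volume _ one_pos).ne'
  have hct : volume (Metric.ball (0 : EuclideanSpace ℝ (Fin k)) 1) ≠ ⊤ := measure_ball_lt_top.ne
  have hexp : ∀ {M : Set E}, SB M →
      ∫⁻ z, volume {w : EuclideanSpace ℝ (Fin k) | T (‖w‖ • z) ∈ M} ∂(stdGaussian E) =
      (∫⁻ z, ENNReal.ofReal (rad M (T z) ^ k) ∂(stdGaussian E)) *
        volume (Metric.ball (0 : EuclideanSpace ℝ (Fin k)) 1) := by
    intro M hM
    rw [← lintegral_mul_const' _ _ hct]
    apply lintegral_congr_ae
    filter_upwards [ae_ne_zero (E := E)] with z hz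
    have hTz : T z ≠ 0 := fun h0 => hz (hT (by rw [h0, map_zero]))
    rw [← hM.vol_radial hTz]
    simp only [map_smul]
  rw [hexp hL, hexp hK] at hmain
  exact (ENNReal.mul_left_inj hc0 hct).1 hmain

end Pool.Agent.Lib.MP_f7db8a
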