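import Pool.Agent.Lib.MP_f7db8a.Funk1

set_option autoImplicit false
set_option linter.unusedSectionVars false

/-!
# Step 2 (b): Lebesgue form of the averaged identities
-/

namespace Pool.Agent.Lib.MP_f7db8a

open Module Set MeasureTheory ProbabilityTheory
open scoped RealInnerProductSpace ENNReal

universe u

variable {E : Type u} [NormedAddCommGroup E] [InnerProductSpace ℝ E] [FiniteDimensional ℝ E]
  [MeasurableSpace E] [BorelSpace E]

theorem SB.measurable_rad {K : Set E} (hK : SB K) : Measurable (rad K) := by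
  apply measurable_of_continuousOn_compl_singleton 0
  intro x hx
  exact (hK.continuousAt_rad hx).continuousWithinAt

/-- change of variables -/
theorem lintegral_comp_linear {T : E →ₗ[ℝ] E} (hT : LinearMap.det T ≠ 0) {Ψ : E → ℝ≥0∞}
    (hΨ : Measurable Ψ) :
    ∫⁻ z, Ψ (T z) = ENNReal.ofReal |(LinearMap.det T)⁻¹| * ∫⁻ x, Ψ x := by
  have hTm : Measurable T := T.continuous_of_finiteDimensional.measurable
  rw [← lintegral_map hΨ hTm, Measure.map_linearMap_addHaar_eq_smul_addHaar volume hT,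
    lintegral_smul_measure, smul_eq_mul]

/-- The identity in Lebesgue form, for an arbitrary invertible linear `M`. -/
theorem leb_avg_eq [Nontrivial E] {k : ℕ} {K L : Set E} (hK : SB K) (hL : SB L)
    (h : Tr k K L) (M : E →ₗ[ℝ] E) (hM : Function.Injective M) :
    ∫⁻ x, ENNReal.ofReal (rad L x ^ k) * ENNReal.ofReal (gw (M x)) =
      ∫⁻ x, ENNReal.ofReal (rad K x ^ k) * ENNReal.ofReal (gw (M x)) := by
  let e : E ≃ₗ[ℝ] E := LinearEquiv.ofInjectiveEndo M hM
  let T : E →ₗ[ℝ] E := e.symm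
  let Tc : E →L[ℝ] E := LinearMap.toContinuousLinearMap T
  have hTinj : Function.Injective Tc := e.symm.injective
  have hMT : ∀ z, M (T z) = z := fun z => e.apply_symm_apply z
  have hdet : LinearMap.det T ≠ 0 := by
    have := LinearEquiv.isUnit_det' e.symm
    exact this.ne_zero
  have key : ∀ {A : Set E}, SB A →
      ∫⁻ z, ENNReal.ofReal (rad A (Tc z) ^ k) ∂(stdGaussian E) =
      ENNReal.ofReal |(LinearMap.det T)⁻¹| * (ENNReal.ofReal (gC E)⁻¹ *
        ∫⁻ x, ENNReal.ofReal (rad A x ^ k) * ENNReal.ofReal (gw (M x))) := by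
    intro A hA
    have hmA : Measurable fun x => ENNReal.ofReal (rad A x ^ k) :=
      ENNReal.measurable_ofReal.comp (hA.measurable_rad.pow_const k)
    have hmg : Measurable fun x : E => ENNReal.ofReal ((gC E)⁻¹ * gw x) :=
      ENNReal.measurable_ofReal.comp (continuous_const.mul continuous_gw).measurable
    have hmM : Measurable M := M.continuous_of_finiteDimensional.measurable
    have hmT : Measurable Tc := Tc.continuous.measurable
    have hmgw : Measurable fun x : E => ENNReal.ofReal (gw (M x)) :=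
      ENNReal.measurable_ofReal.comp (continuous_gw.measurable.comp hmM)
    rw [stdGaussian_eq_withDensity]
    refine (lintegral_withDensity_eq_lintegral_mul volume hmg (hmA.comp hmT)).trans ?_
    have e1 : ∀ z : E, ((fun x : E => ENNReal.ofReal ((gC E)⁻¹ * gw x)) *
        ((fun x => ENNReal.ofReal (rad A x ^ k)) ∘ Tc)) z =
        (fun x : E => ENNReal.ofReal (gC E)⁻¹ * (ENNReal.ofReal (rad A x ^ k) *
          ENNReal.ofReal (gw (M x)))) (T z) := by
      intro z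
      simp only [Pi.mul_apply, Function.comp_apply]
      rw [hMT, ENNReal.ofReal_mul (inv_nonneg.2 gC_pos.le)]
      change _ * ENNReal.ofReal (rad A (T z) ^ k) = _
      ring
    have e2 : ∫⁻ z : E, ((fun x : E => ENNReal.ofReal ((gC E)⁻¹ * gw x)) *
        ((fun x => ENNReal.ofReal (rad A x ^ k)) ∘ Tc)) z =
        ∫⁻ z, (fun x : E => ENNReal.ofReal (gC E)⁻¹ * (ENNReal.ofReal (rad A x ^ k) *
          ENNReal.ofReal (gw (M x)))) (T z) := lintegral_congr e1
    refine e2.trans ?_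
    refine (lintegral_comp_linear hdet (Ψ := fun x : E => ENNReal.ofReal (gC E)⁻¹ *
      (ENNReal.ofReal (rad A x ^ k) * ENNReal.ofReal (gw (M x))))
      ((hmA.mul hmgw).const_mul _)).trans ?_
    rw [lintegral_const_mul' _ _ ENNReal.ofReal_ne_top]
  have hmain := gauss_avg_eq hK hL h Tc hTinj
  rw [key hL, key hK] at hmain
  have c1 : ENNReal.ofReal |(LinearMap.det T)⁻¹| ≠ 0 := by
    rw [Ne, ENNReal.ofReal_eq_zero, not_le]
    exact abs_pos.2 (inv_ne_zero hdet)
  have c2 : ENNReal.ofReal (gC E)⁻¹ ≠ 0 := by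
    rw [Ne, ENNReal.ofReal_eq_zero, not_le]
    exact inv_pos.2 gC_pos
  have h1 := (ENNReal.mul_right_inj c1 ENNReal.ofReal_ne_top).1 hmain
  exact (ENNReal.mul_right_inj c2 ENNReal.ofReal_ne_top).1 h1

/-- The linear map `x ↦ a (x + κ ⟪v, x⟫ v)`. -/
noncomputable def Mmap (a κ : ℝ) (v : E) : E →ₗ[ℝ] E :=
  a • (LinearMap.id + κ • (innerₗ E v).smulRight v)

theorem Mmap_apply (a κ : ℝ) (v x : E) : Mmap a κ v x = a • (x + (κ * ⟪v, x⟫) • v) := by
  simp [Mmap, smul_smul, mul_assoc]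

theorem norm_Mmap_sq (a κ : ℝ) {v : E} (hv : ‖v‖ = 1) (x : E) :
    ‖Mmap a κ v x‖ ^ 2 = a ^ 2 * (‖x‖ ^ 2 + (2 * κ + κ ^ 2) * ⟪v, x⟫ ^ 2) := by
  rw [Mmap_apply, norm_smul, mul_pow, Real.norm_eq_abs, sq_abs, norm_add_sq_real, norm_smul,
    real_inner_smul_right, hv, mul_one, Real.norm_eq_abs, sq_abs, real_inner_comm x v]
  ring

theorem Mmap_injective {a κ : ℝ} (ha : 0 < a) (hκ : 0 ≤ κ) {v : E} (hv : ‖v‖ = 1) :
    Function.Injective (Mmap a κ v) := by
  rw [← LinearMap.ker_eq_bot, Submodule.eq_bot_iff]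
  intro x hx
  have h0 : Mmap a κ v x = 0 := LinearMap.mem_ker.1 hx
  have h1 := norm_Mmap_sq a κ hv x
  rw [h0, norm_zero] at h1
  have h2 : 0 ≤ (2 * κ + κ ^ 2) * ⟪v, x⟫ ^ 2 := by positivity
  have h3 : ‖x‖ ^ 2 = 0 := by
    have h4 : a ^ 2 * (‖x‖ ^ 2 + (2 * κ + κ ^ 2) * ⟪v, x⟫ ^ 2) = 0 := by
      rw [← h1]; ring
    have h5 := (mul_eq_zero.1 h4).resolve_left (by positivity)
    nlinarith [sq_nonneg ‖x‖]
  have h6 : ‖x‖ = 0 := by simpa using h3
  exact norm_eq_zero.1 h6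

/-- moments: for naturals `a, b`,
`∫ ρ^k exp(-‖x‖²/2) (exp(-‖x‖²/2))^a (exp(-⟪v,x⟫²/2))^b` agree. -/
theorem moment_eq [Nontrivial E] {k : ℕ} {K L : Set E} (hK : SB K) (hL : SB L)
    (h : Tr k K L) {v : E} (hv : ‖v‖ = 1) (a b : ℕ) :
    ∫⁻ x, ENNReal.ofReal (rad L x ^ k * gw x) *
        ENNReal.ofReal (gw x ^ a * Real.exp (-(1 / 2) * ⟪v, x⟫ ^ 2) ^ b) =
      ∫⁻ x, ENNReal.ofReal (rad K x ^ k * gw x) *
        ENNReal.ofReal (gw x ^ a * Real.exp (-(1 / 2) * ⟪v, x⟫ ^ 2) ^ b) := by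
  set s : ℝ := Real.sqrt (a + 1) with hs
  have hspos : 0 < s := Real.sqrt_pos.2 (by positivity)
  have hs2 : s ^ 2 = a + 1 := Real.sq_sqrt (by positivity)
  set κ : ℝ := Real.sqrt (1 + b / (a + 1)) - 1 with hκ
  have hq : (1 : ℝ) ≤ Real.sqrt (1 + b / (a + 1)) := by
    rw [← Real.sqrt_one]
    apply Real.sqrt_le_sqrt
    rw [Real.sqrt_one]
    have : (0 : ℝ) ≤ b / (a + 1) := by positivity
    linarith
  have hκ0 : 0 ≤ κ := by rw [hκ]; linarith
  have hκ2 : 2 * κ + κ ^ 2 = b / (a + 1) := by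
    have h1 : (κ + 1) ^ 2 = 1 + b / (a + 1) := by
      rw [hκ, sub_add_cancel, Real.sq_sqrt (by positivity)]
    nlinarith
  have hmain := leb_avg_eq hK hL h (Mmap s κ v) (Mmap_injective hspos hκ0 hv)
  have hw : ∀ x : E, gw (Mmap s κ v x) =
      gw x * (gw x ^ a * Real.exp (-(1 / 2) * ⟪v, x⟫ ^ 2) ^ b) := by
    intro x
    unfold gw
    rw [norm_Mmap_sq s κ hv x, hκ2, hs2, ← Real.exp_nat_mul, ← Real.exp_nat_mul, ← Real.exp_add,
      ← Real.exp_add]
    congr 1
    field_simp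
    ring
  have conv : ∀ {A : Set E}, ∀ x : E, ENNReal.ofReal (rad A x ^ k * gw x) *
        ENNReal.ofReal (gw x ^ a * Real.exp (-(1 / 2) * ⟪v, x⟫ ^ 2) ^ b) =
      ENNReal.ofReal (rad A x ^ k) * ENNReal.ofReal (gw (Mmap s κ v x)) := by
    intro A x
    rw [hw, ENNReal.ofReal_mul (pow_nonneg (rad_nonneg A x) k), ENNReal.ofReal_mul (gw_pos x).le]
    ring
  simp_rw [conv]
  exact hmain

theorem SB.lintegral_lt_top [Nontrivial E] {k : ℕ} (hk : k < finrank ℝ E) {K : Set E} (hK : SB K) :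
    ∫⁻ x, ENNReal.ofReal (rad K x ^ k * gw x) < ⊤ := by
  obtain ⟨R, hRpos, hR⟩ : ∃ R : ℝ, 0 < R ∧ ∀ x ∈ K, ‖x‖ ≤ R := by
    obtain ⟨R, hR⟩ := hK.compact.isBounded.exists_norm_le
    exact ⟨max R 1, by positivity, fun x hx => (hR x hx).trans (le_max_left _ _)⟩
  have hrad : ∀ x : E, rad K x ≤ R * ‖x‖⁻¹ := by
    intro x
    rcases eq_or_ne x 0 with rfl | hx
    · have : rad K (0 : E) = 0 := by
        unfold rad
        apply Real.sSup_of_not_bddAbove
        intro ⟨B, hB⟩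
        have := hB (show max B 0 + 1 ∈ {t : ℝ | 0 ≤ t ∧ t • (0 : E) ∈ K} from
          ⟨by positivity, by simpa using hK.zero_mem⟩)
        linarith [le_max_left B 0]
      rw [this]; positivity
    · have h1 := hR _ (hK.rad_smul_mem hx)
      rw [norm_smul, Real.norm_of_nonneg (rad_nonneg K x)] at h1
      have hpos : 0 < ‖x‖ := norm_pos_iff.2 hx
      rw [← div_eq_mul_inv, le_div_iff₀ hpos]
      exact h1
  let f : ℝ → ℝ := fun y => (R * y⁻¹) ^ k * Real.exp (-(1 / 2) * y ^ 2)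
  have hint : Integrable (fun x : E => f ‖x‖) := by
    rw [integrable_fun_norm_addHaar volume]
    have h1 : IntegrableOn (fun y : ℝ => y ^ ((finrank ℝ E - 1 - k : ℕ) : ℝ) *
        Real.exp (-(1 / 2) * y ^ 2)) (Ioi 0) :=
      integrableOn_rpow_mul_exp_neg_mul_sq (by norm_num)
        (lt_of_lt_of_le (by norm_num) (Nat.cast_nonneg _))
    have h2 := h1.const_mul (R ^ k)
    refine IntegrableOn.congr_fun h2 ?_ measurableSet_Ioi
    intro y hy
    have hy0 : (0 : ℝ) < y := hy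
    simp only [f, smul_eq_mul]
    rw [Real.rpow_natCast]
    have h3 : y ^ (finrank ℝ E - 1) = y ^ (finrank ℝ E - 1 - k) * y ^ k := by
      rw [← pow_add]; congr 1; omega
    rw [h3, mul_pow, inv_pow]
    field_simp
  refine lt_of_le_of_lt (lintegral_mono fun x => ?_) (hint.lintegral_lt_top)
  apply ENNReal.ofReal_le_ofReal
  exact mul_le_mul_of_nonneg_right (pow_le_pow_left₀ (rad_nonneg K x) (hrad x) k) (gw_pos x).le

end Pool.Agent.Lib.MP_f7db8a
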