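import Pool.Agent.Lib.MP_f7db8a.Funk2

set_option autoImplicit false
set_option linter.unusedSectionVars false

/-!
# Step 2 (c): Stone-Weierstrass and conclusion: `ρ(v)^k + ρ(-v)^k` agree
-/

namespace Pool.Agent.Lib.MP_f7db8a

open Module Set MeasureTheory ProbabilityTheory
open scoped RealInnerProductSpace ENNReal

universe u

/-- the unit square -/
abbrev Sq : Type := Set.Icc (0 : ℝ) 1 × Set.Icc (0 : ℝ) 1

/-- first coordinate -/
def c1 : C(Sq, ℝ) := ⟨fun z => (z.1 : ℝ), by fun_prop⟩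

/-- second coordinate -/
def c2 : C(Sq, ℝ) := ⟨fun z => (z.2 : ℝ), by fun_prop⟩

/-- Finite measures on the square with equal moments are equal. -/
theorem measure_ext_of_moments {μ ν : Measure Sq} [IsFiniteMeasure μ] [IsFiniteMeasure ν]
    (h : ∀ a b : ℕ, ∫ z, (c1 ^ a * c2 ^ b : C(Sq, ℝ)) z ∂μ = ∫ z, (c1 ^ a * c2 ^ b : C(Sq, ℝ)) z ∂ν) :
    μ = ν := by
  let A : Subalgebra ℝ C(Sq, ℝ) := Algebra.adjoin ℝ {c1, c2}
  have hsep : A.SeparatesPoints := by
    intro x y hxy
    by_cases h1 : x.1 = y.1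
    · have h2 : x.2 ≠ y.2 := fun h2 => hxy (Prod.ext h1 h2)
      refine ⟨c2, ⟨c2, Algebra.subset_adjoin (by simp), rfl⟩, ?_⟩
      intro h3; exact h2 (Subtype.ext h3)
    · refine ⟨c1, ⟨c1, Algebra.subset_adjoin (by simp), rfl⟩, ?_⟩
      intro h3; exact h1 (Subtype.ext h3)
  have htop : A.topologicalClosure = ⊤ :=
    ContinuousMap.subalgebra_topologicalClosure_eq_top_of_separatesPoints A hsep
  have hint : ∀ (f : C(Sq, ℝ)) (m : Measure Sq) [IsFiniteMeasure m], Integrable (fun z => f z) m := by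
    intro f m _
    exact (BoundedContinuousFunction.mkOfCompact f).integrable m
  have hA : ∀ f ∈ A, ∫ z, f z ∂μ = ∫ z, f z ∂ν := by
    intro f hf
    have hf' : f ∈ Submodule.span ℝ (Submonoid.closure {c1, c2} : Set C(Sq, ℝ)) := by
      rw [← Algebra.adjoin_eq_span]; exact hf
    induction hf' using Submodule.span_induction with
    | mem x hx =>
      obtain ⟨a, b, rfl⟩ := (Submonoid.mem_closure_pair _ _ _).1 hx
      exact h a b
    | zero => simp
    | add x y hx hy h1 h2 =>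
      have hx' : x ∈ A := by
        change x ∈ Subalgebra.toSubmodule (Algebra.adjoin ℝ {c1, c2})
        rw [Algebra.adjoin_eq_span]; exact hx
      have hy' : y ∈ A := by
        change y ∈ Subalgebra.toSubmodule (Algebra.adjoin ℝ {c1, c2})
        rw [Algebra.adjoin_eq_span]; exact hy
      have e1 := h1 hx'
      have e2 := h2 hy'
      simp only [ContinuousMap.add_apply]
      rw [integral_add (hint x μ) (hint y μ), integral_add (hint x ν) (hint y ν), e1, e2]
    | smul r x hx h1 =>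
      have hx' : x ∈ A := by
        change x ∈ Subalgebra.toSubmodule (Algebra.adjoin ℝ {c1, c2})
        rw [Algebra.adjoin_eq_span]; exact hx
      have e1 := h1 hx'
      simp only [ContinuousMap.smul_apply]
      rw [integral_smul, integral_smul, e1]
  apply ext_of_forall_integral_eq_of_IsFiniteMeasure
  intro f
  let g : C(Sq, ℝ) := f.toContinuousMap
  change ∫ z, g z ∂μ = ∫ z, g z ∂ν
  have hg : g ∈ A.topologicalClosure := by rw [htop]; trivial
  have hbound : ∀ (p : C(Sq, ℝ)) (m : Measure Sq) [IsFiniteMeasure m],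
      |∫ z, g z ∂m - ∫ z, p z ∂m| ≤ ‖g - p‖ * m.real univ := by
    intro p m _
    rw [← integral_sub (hint g m) (hint p m), ← Real.norm_eq_abs]
    apply norm_integral_le_of_norm_le_const
    exact Filter.Eventually.of_forall fun z => (g - p).norm_coe_le_norm z
  by_contra hne
  set D := |∫ z, g z ∂μ - ∫ z, g z ∂ν| with hD
  have hDpos : 0 < D := abs_pos.2 (sub_ne_zero.2 hne)
  set M := μ.real univ + ν.real univ + 1 with hM
  have hM1 : 0 ≤ μ.real univ := measureReal_nonneg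
  have hM2 : 0 ≤ ν.real univ := measureReal_nonneg
  have hMpos : 0 < M := by positivity
  have hg' : g ∈ closure (A : Set C(Sq, ℝ)) := hg
  obtain ⟨p, hp, hpd⟩ := Metric.mem_closure_iff.1 hg' (D / M) (by positivity)
  rw [dist_eq_norm] at hpd
  have h1 := hbound p μ
  have h2 := hbound p ν
  have h3 := hA p hp
  rw [h3] at h1
  have h4 : D ≤ ‖g - p‖ * μ.real univ + ‖g - p‖ * ν.real univ := by
    rw [hD]
    calc |∫ z, g z ∂μ - ∫ z, g z ∂ν| =
        |(∫ z, g z ∂μ - ∫ z, p z ∂ν) - (∫ z, g z ∂ν - ∫ z, p z ∂ν)| := by congr 1; ring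
      _ ≤ |∫ z, g z ∂μ - ∫ z, p z ∂ν| + |∫ z, g z ∂ν - ∫ z, p z ∂ν| := abs_sub _ _
      _ ≤ _ := add_le_add h1 h2
  have h5 : ‖g - p‖ * M < D := by
    rw [lt_div_iff₀ hMpos] at hpd; exact hpd
  have h6 : 0 ≤ ‖g - p‖ := norm_nonneg _
  nlinarith

variable {E : Type u} [NormedAddCommGroup E] [InnerProductSpace ℝ E] [FiniteDimensional ℝ E]
  [MeasurableSpace E] [BorelSpace E]

theorem gw_mem (x : E) : gw x ∈ Icc (0 : ℝ) 1 := by
  refine ⟨(gw_pos x).le, ?_⟩
  unfold gw
  rw [Real.exp_le_one_iff]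
  nlinarith [sq_nonneg ‖x‖]

theorem ew_mem (v x : E) : Real.exp (-(1 / 2) * ⟪v, x⟫ ^ 2) ∈ Icc (0 : ℝ) 1 := by
  refine ⟨(Real.exp_pos _).le, ?_⟩
  rw [Real.exp_le_one_iff]
  nlinarith [sq_nonneg ⟪v, x⟫]

/-- The map to the square. -/
noncomputable def Pm (v x : E) : Sq :=
  (⟨gw x, gw_mem x⟩, ⟨Real.exp (-(1 / 2) * ⟪v, x⟫ ^ 2), ew_mem v x⟩)

theorem measurable_Pm (v : E) : Measurable (Pm v) := by
  unfold Pm
  apply Measurable.prodMk
  · exact (continuous_gw.measurable).subtype_mk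
  · apply Measurable.subtype_mk
    apply Continuous.measurable
    fun_prop

/-- weight measure -/
noncomputable def wm (k : ℕ) (K : Set E) : Measure E :=
  volume.withDensity fun x => ENNReal.ofReal (rad K x ^ k * gw x)

theorem SB.measurable_w {K : Set E} (hK : SB K) (k : ℕ) :
    Measurable fun x : E => ENNReal.ofReal (rad K x ^ k * gw x) :=
  ENNReal.measurable_ofReal.comp ((hK.measurable_rad.pow_const k).mul continuous_gw.measurable)

theorem map_wm_eq [Nontrivial E] {k : ℕ} (hk : k < finrank ℝ E) {K L : Set E} (hK : SB K)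
    (hL : SB L) (h : Tr k K L) {v : E} (hv : ‖v‖ = 1) :
    (wm k L).map (Pm v) = (wm k K).map (Pm v) := by
  have hfin : ∀ {A : Set E}, SB A → IsFiniteMeasure (wm k A) := by
    intro A hA
    constructor
    unfold wm
    rw [withDensity_apply _ MeasurableSet.univ, Measure.restrict_univ]
    exact hA.lintegral_lt_top hk
  have := hfin hK
  have := hfin hL
  have : IsFiniteMeasure ((wm k K).map (Pm v)) := by infer_instance
  have : IsFiniteMeasure ((wm k L).map (Pm v)) := by infer_instance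
  apply measure_ext_of_moments
  intro a b
  have key : ∀ {A : Set E}, SB A → ∫ z, (c1 ^ a * c2 ^ b : C(Sq, ℝ)) z ∂((wm k A).map (Pm v)) =
      (∫⁻ x, ENNReal.ofReal (rad A x ^ k * gw x) *
        ENNReal.ofReal (gw x ^ a * Real.exp (-(1 / 2) * ⟪v, x⟫ ^ 2) ^ b)).toReal := by
    intro A hA
    rw [integral_eq_lintegral_of_nonneg_ae]
    · congr 1
      rw [lintegral_map _ (measurable_Pm v)]
      · unfold wm
        have hm : Measurable fun x : E => ENNReal.ofReal
            ((c1 ^ a * c2 ^ b : C(Sq, ℝ)) (Pm v x)) := by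
          apply ENNReal.measurable_ofReal.comp
          exact ((c1 ^ a * c2 ^ b : C(Sq, ℝ)).continuous.measurable).comp (measurable_Pm v)
        exact lintegral_withDensity_eq_lintegral_mul volume (hA.measurable_w k) hm
      · exact ENNReal.measurable_ofReal.comp (c1 ^ a * c2 ^ b : C(Sq, ℝ)).continuous.measurable
    · apply Filter.Eventually.of_forall
      intro z
      change (0 : ℝ) ≤ (z.1 : ℝ) ^ a * (z.2 : ℝ) ^ b
      exact mul_nonneg (pow_nonneg z.1.2.1 a) (pow_nonneg z.2.2.1 b)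
    · exact (c1 ^ a * c2 ^ b : C(Sq, ℝ)).continuous.aestronglyMeasurable
  rw [key hL, key hK, moment_eq hK hL h hv a b]

/-- The symmetric neighbourhoods of `±v`. -/
def Vd (δ : ℝ) (v : E) : Set E := {x | ‖x‖ ^ 2 < 1 + δ ∧ 1 - δ < ⟪v, x⟫ ^ 2}

theorem isOpen_Vd (δ : ℝ) (v : E) : IsOpen (Vd δ v) := by
  have h1 : IsOpen {x : E | ‖x‖ ^ 2 < 1 + δ} := isOpen_lt (by fun_prop) continuous_const
  have h2 : IsOpen {x : E | 1 - δ < ⟪v, x⟫ ^ 2} := isOpen_lt continuous_const (by fun_prop)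
  exact h1.inter h2

theorem mem_Vd {δ : ℝ} (hδ : 0 < δ) {v : E} (hv : ‖v‖ = 1) : v ∈ Vd δ v := by
  constructor
  · rw [hv]; linarith
  · rw [real_inner_self_eq_norm_sq, hv]; linarith

theorem neg_mem_Vd {δ : ℝ} {v x : E} : -x ∈ Vd δ v ↔ x ∈ Vd δ v := by
  unfold Vd
  simp [inner_neg_right]

theorem Vd_dist {δ : ℝ} (hδ0 : 0 ≤ δ) (hδ1 : δ ≤ 1) {v x : E} (hv : ‖v‖ = 1) (hx : x ∈ Vd δ v) :
    ‖x - v‖ ^ 2 < 3 * δ ∨ ‖-x - v‖ ^ 2 < 3 * δ := by
  obtain ⟨h1, h2⟩ := hx
  have hs : 1 - δ ≤ |⟪v, x⟫| := by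
    by_contra hcon
    push Not at hcon
    have h0 : 0 ≤ |⟪v, x⟫| := abs_nonneg _
    have h3 : ⟪v, x⟫ ^ 2 = |⟪v, x⟫| ^ 2 := (sq_abs _).symm
    have h4 : |⟪v, x⟫| ^ 2 ≤ (1 - δ) ^ 2 := pow_le_pow_left₀ h0 hcon.le 2
    nlinarith
  rcases le_total 0 ⟪v, x⟫ with h0 | h0
  · left
    rw [abs_of_nonneg h0] at hs
    rw [norm_sub_sq_real, hv, real_inner_comm]
    nlinarith
  · right
    rw [abs_of_nonpos h0] at hs
    rw [norm_sub_sq_real, hv, norm_neg, inner_neg_left, real_inner_comm]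
    nlinarith

theorem setLIntegral_Vd_eq [Nontrivial E] {k : ℕ} (hk : k < finrank ℝ E) {K L : Set E}
    (hK : SB K) (hL : SB L) (h : Tr k K L) {v : E} (hv : ‖v‖ = 1) (δ : ℝ) :
    ∫⁻ x in Vd δ v, ENNReal.ofReal (rad L x ^ k * gw x) =
      ∫⁻ x in Vd δ v, ENNReal.ofReal (rad K x ^ k * gw x) := by
  have hmap := map_wm_eq hk hK hL h hv
  let U : Set Sq := {z | Real.exp (-(1 / 2) * (1 + δ)) < (z.1 : ℝ) ∧
    (z.2 : ℝ) < Real.exp (-(1 / 2) * (1 - δ))}
  have hU : MeasurableSet U := by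
    have h1 : IsOpen {z : Sq | Real.exp (-(1 / 2) * (1 + δ)) < (z.1 : ℝ)} :=
      isOpen_lt continuous_const (by fun_prop)
    have h2 : IsOpen {z : Sq | (z.2 : ℝ) < Real.exp (-(1 / 2) * (1 - δ))} :=
      isOpen_lt (by fun_prop) continuous_const
    exact (h1.inter h2).measurableSet
  have hpre : Pm v ⁻¹' U = Vd δ v := by
    ext x
    change (Real.exp (-(1 / 2) * (1 + δ)) < gw x ∧
      Real.exp (-(1 / 2) * ⟪v, x⟫ ^ 2) < Real.exp (-(1 / 2) * (1 - δ))) ↔ _
    unfold gw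
    rw [Real.exp_lt_exp, Real.exp_lt_exp]
    unfold Vd
    constructor
    · rintro ⟨a, b⟩
      exact ⟨by linarith, by linarith⟩
    · rintro ⟨a, b⟩
      exact ⟨by linarith, by linarith⟩
  have e : ∀ {A : Set E}, SB A → (wm k A).map (Pm v) U =
      ∫⁻ x in Vd δ v, ENNReal.ofReal (rad A x ^ k * gw x) := by
    intro A hA
    rw [Measure.map_apply (measurable_Pm v) hU, hpre]
    unfold wm
    rw [withDensity_apply _ (isOpen_Vd δ v).measurableSet]
  rw [← e hL, ← e hK, hmap]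

theorem double_Vd {k : ℕ} {A : Set E} (hA : SB A) (v : E) (δ : ℝ) :
    2 * ∫⁻ x in Vd δ v, ENNReal.ofReal (rad A x ^ k * gw x) =
      ∫⁻ x in Vd δ v, ENNReal.ofReal ((rad A x ^ k + rad A (-x) ^ k) * gw x) := by
  have hgneg : ∀ x : E, gw (-x) = gw x := fun x => by unfold gw; rw [norm_neg]
  have h1 : ∫⁻ x in Vd δ v, ENNReal.ofReal (rad A x ^ k * gw x) =
      ∫⁻ x in Vd δ v, ENNReal.ofReal (rad A (-x) ^ k * gw x) := by
    rw [← lintegral_indicator (isOpen_Vd δ v).measurableSet,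
      ← lintegral_indicator (isOpen_Vd δ v).measurableSet]
    have h2 := (Measure.measurePreserving_neg (volume : Measure E)).lintegral_comp
      ((hA.measurable_w k).indicator (isOpen_Vd δ v).measurableSet)
    rw [← h2]
    apply lintegral_congr
    intro x
    by_cases hx : x ∈ Vd δ v
    · rw [indicator_of_mem hx, indicator_of_mem (neg_mem_Vd.2 hx), hgneg]
    · rw [indicator_of_notMem hx, indicator_of_notMem (fun hh => hx (neg_mem_Vd.1 hh))]
  rw [two_mul]
  nth_rewrite 2 [h1]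
  rw [← lintegral_add_left (hA.measurable_w k)]
  apply lintegral_congr
  intro x
  rw [add_mul, ENNReal.ofReal_add]
  · exact mul_nonneg (pow_nonneg (rad_nonneg A x) k) (gw_pos x).le
  · exact mul_nonneg (pow_nonneg (rad_nonneg A (-x)) k) (gw_pos x).le

theorem no_strict [Nontrivial E] {k : ℕ} (hk : k < finrank ℝ E) {K L : Set E}
    (hK : SB K) (hL : SB L) {v : E} (hv : ‖v‖ = 1)
    (hV : ∀ δ : ℝ, ∫⁻ x in Vd δ v, ENNReal.ofReal (rad L x ^ k * gw x) =
      ∫⁻ x in Vd δ v, ENNReal.ofReal (rad K x ^ k * gw x)) :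
    ¬ (rad K v ^ k + rad K (-v) ^ k < rad L v ^ k + rad L (-v) ^ k) := by
  intro hlt
  have hv0 : v ≠ 0 := by rintro rfl; simp at hv
  have hv0' : -v ≠ 0 := neg_ne_zero.2 hv0
  have hcont : ∀ {A : Set E}, SB A → ContinuousAt (fun x => rad A x ^ k + rad A (-x) ^ k) v := by
    intro A hA
    refine ((hA.continuousAt_rad hv0).pow k).add (ContinuousAt.pow ?_ k)
    exact ContinuousAt.comp (f := fun x : E => -x) (g := rad A) (hA.continuousAt_rad hv0')
      continuous_neg.continuousAt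
  have hev : ∀ᶠ x in nhds v, rad K x ^ k + rad K (-x) ^ k < rad L x ^ k + rad L (-x) ^ k :=
    (hcont hK).eventually_lt (hcont hL) hlt
  obtain ⟨r, hr, hball⟩ := Metric.eventually_nhds_iff.1 hev
  set δ : ℝ := min 1 (r ^ 2 / 3) with hδ
  have hδpos : 0 < δ := by positivity
  have hδ1 : δ ≤ 1 := min_le_left _ _
  have hδ2 : 3 * δ ≤ r ^ 2 := by
    have := min_le_right 1 (r ^ 2 / 3)
    rw [← hδ] at this
    linarith
  have hin : ∀ x ∈ Vd δ v, rad K x ^ k + rad K (-x) ^ k < rad L x ^ k + rad L (-x) ^ k := by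
    intro x hx
    rcases Vd_dist hδpos.le hδ1 hv hx with h1 | h1
    · apply hball
      rw [dist_eq_norm]
      nlinarith [norm_nonneg (x - v)]
    · have h2 : dist (-x) v < r := by
        rw [dist_eq_norm]
        nlinarith [norm_nonneg (-x - v)]
      have h3 := hball h2
      rw [neg_neg] at h3
      linarith
  have hVne : volume (Vd δ v) ≠ 0 :=
    ((isOpen_Vd δ v).measure_pos volume ⟨v, mem_Vd hδpos hv⟩).ne'
  have hfin : ∫⁻ x in Vd δ v, ENNReal.ofReal ((rad K x ^ k + rad K (-x) ^ k) * gw x) ≠ ⊤ := by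
    rw [← double_Vd hK]
    apply ENNReal.mul_ne_top (by norm_num)
    exact (lt_of_le_of_lt (setLIntegral_le_lintegral _ _) (hK.lintegral_lt_top hk)).ne
  have hmeas : Measurable fun x : E => ENNReal.ofReal ((rad L x ^ k + rad L (-x) ^ k) * gw x) := by
    apply ENNReal.measurable_ofReal.comp
    exact ((hL.measurable_rad.pow_const k).add
      ((hL.measurable_rad.comp measurable_neg).pow_const k)).mul continuous_gw.measurable
  have hstrict := setLIntegral_strict_mono (isOpen_Vd δ v).measurableSet hVne hmeas hfin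
    (Filter.Eventually.of_forall fun x hx => by
      rw [ENNReal.ofReal_lt_ofReal_iff]
      · exact mul_lt_mul_of_pos_right (hin x hx) (gw_pos x)
      · apply mul_pos _ (gw_pos x)
        refine lt_of_le_of_lt ?_ (hin x hx)
        exact add_nonneg (pow_nonneg (rad_nonneg K x) k) (pow_nonneg (rad_nonneg K (-x)) k))
  rw [← double_Vd hL, ← double_Vd hK, hV δ] at hstrict
  exact lt_irrefl _ hstrict

/-- **Step 2.** `ρ_L(x)^k + ρ_L(-x)^k = ρ_K(x)^k + ρ_K(-x)^k`. -/
theorem pow_sum_eq {k : ℕ} (hk : k < finrank ℝ E) {K L : Set E}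
    (hK : SB K) (hL : SB L) (h : Tr k K L) {x : E} (hx : x ≠ 0) :
    rad L x ^ k + rad L (-x) ^ k = rad K x ^ k + rad K (-x) ^ k := by
  have hnt : Nontrivial E := ⟨⟨x, 0, hx⟩⟩
  have hpos : 0 < ‖x‖ := norm_pos_iff.2 hx
  set v : E := ‖x‖⁻¹ • x with hvdef
  have hv : ‖v‖ = 1 := by
    rw [hvdef, norm_smul, norm_inv, norm_norm, inv_mul_cancel₀ hpos.ne']
  have hv0 : v ≠ 0 := by
    intro h0; rw [h0] at hv; simp at hv
  have hV := setLIntegral_Vd_eq hk hK hL h hv
  have hveq : rad L v ^ k + rad L (-v) ^ k = rad K v ^ k + rad K (-v) ^ k := by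
    apply le_antisymm
    · exact not_lt.1 (no_strict hk hK hL hv hV)
    · exact not_lt.1 (no_strict hk hL hK hv fun δ => (hV δ).symm)
  have hxv : x = ‖x‖ • v := by
    rw [hvdef, smul_smul, mul_inv_cancel₀ hpos.ne', one_smul]
  have e : ∀ {A : Set E}, SB A → rad A x ^ k + rad A (-x) ^ k =
      (rad A v ^ k + rad A (-v) ^ k) / ‖x‖ ^ k := by
    intro A hA
    have h1 : rad A x = rad A v / ‖x‖ := by
      conv_lhs => rw [hxv]
      exact hA.rad_smul hv0 hpos
    have h2 : rad A (-x) = rad A (-v) / ‖x‖ := by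
      conv_lhs => rw [hxv, ← smul_neg]
      exact hA.rad_smul (neg_ne_zero.2 hv0) hpos
    rw [h1, h2, div_pow, div_pow, add_div]
  rw [e hL, e hK, hveq]

end Pool.Agent.Lib.MP_f7db8a
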