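import Mathlib
import Pool.Agent.Lib.MP_f7db8a.Defs

set_option autoImplicit false

/-!
# Star bodies with homothetic sections: definitions, `k ≥ 3`, reduction of `k = 2` to `n = 3`

Library copy of the proofs of the hand-in HomotheticKGeThree, with analytic radial functions in the
reduction.
-/

namespace Pool.Agent.Lib.MP_f7db8a.Hom

open Module
open Pool.Agent.Lib.MP_f7db8a (IsStarBody)

/-- `B` is homothetic to `A`: `B = c A + x` for some `c > 0` and some vector `x`. -/
def IsHomothetic {n : ℕ} (A B : Set (EuclideanSpace ℝ (Fin n))) : Prop :=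
  ∃ c : ℝ, 0 < c ∧ ∃ x : EuclideanSpace ℝ (Fin n), B = (fun y => c • y + x) '' A

/-- For every `k`-dimensional linear subspace `S`, the sections `K ∩ S` and `L ∩ S` are homothetic
(the ratio and the translation vector may depend on `S`). -/
def HomotheticSections {n : ℕ} (k : ℕ) (K L : Set (EuclideanSpace ℝ (Fin n))) : Prop :=
  ∀ S : Submodule ℝ (EuclideanSpace ℝ (Fin n)), finrank ℝ S = k →
    IsHomothetic (K ∩ (S : Set (EuclideanSpace ℝ (Fin n))))
      (L ∩ (S : Set (EuclideanSpace ℝ (Fin n))))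

/-- The radial function `ρ_K(u) = sup {t ≥ 0 : t u ∈ K}`, taken at all nonzero vectors `u`
(so homogeneous of degree `-1`), is real-analytic. -/
def HasAnalyticRadial {n : ℕ} (K : Set (EuclideanSpace ℝ (Fin n))) : Prop :=
  AnalyticOnNhd ℝ (fun u : EuclideanSpace ℝ (Fin n) => sSup {t : ℝ | 0 ≤ t ∧ t • u ∈ K}) {0}ᶜ

/-- `p` is the lexicographic maximum of `K`. -/
def LexMax {n : ℕ} (K : Set (EuclideanSpace ℝ (Fin n))) (p : EuclideanSpace ℝ (Fin n)) : Prop :=
  p ∈ K ∧ ∀ y ∈ K, y = p ∨ ∃ i : Fin n, (∀ j < i, y j = p j) ∧ y i < p i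

theorem exists_lexMax {n : ℕ} {K : Set (EuclideanSpace ℝ (Fin n))} (hK : IsCompact K)
    (hne : K.Nonempty) : ∃ p, LexMax K p := by
  have key : ∀ m : ℕ, m ≤ n → ∃ p ∈ K, ∀ y ∈ K, (∀ j : Fin n, j.val < m → y j = p j) ∨
      ∃ i : Fin n, i.val < m ∧ (∀ j < i, y j = p j) ∧ y i < p i := by
    intro m
    induction m with
    | zero =>
      intro _
      obtain ⟨p, hp⟩ := hne
      exact ⟨p, hp, fun y _ => Or.inl fun j hj => absurd hj (Nat.not_lt_zero _)⟩
    | succ m ih =>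
      intro hm
      obtain ⟨p, hp, h⟩ := ih (by omega)
      have hcl : IsClosed {y : EuclideanSpace ℝ (Fin n) | ∀ j : Fin n, j.val < m → y j = p j} := by
        simp only [Set.ofPred_forall]
        refine isClosed_iInter fun j => isClosed_iInter fun _ => ?_
        exact isClosed_eq (by fun_prop) continuous_const
      have hK' : IsCompact (K ∩ {y : EuclideanSpace ℝ (Fin n) | ∀ j : Fin n, j.val < m → y j = p j}) :=
        hK.inter_right hcl
      obtain ⟨q, hq, hmax⟩ := hK'.exists_isMaxOn ⟨p, hp, fun _ _ => rfl⟩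
        (f := fun y : EuclideanSpace ℝ (Fin n) => y ⟨m, by omega⟩) (by fun_prop)
      refine ⟨q, hq.1, fun y hy => ?_⟩
      rcases h y hy with h1 | ⟨i, hi, h2, h3⟩
      · have hle : y ⟨m, by omega⟩ ≤ q ⟨m, by omega⟩ := hmax ⟨hy, h1⟩
        rcases hle.lt_or_eq with hlt | heq
        · right
          refine ⟨⟨m, by omega⟩, by simp, fun j hj => ?_, hlt⟩
          have hjm : j.val < m := hj
          rw [h1 j hjm, hq.2 j hjm]
        · left
          intro j hj
          rcases Nat.lt_succ_iff_lt_or_eq.mp hj with hj | hj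
          · rw [h1 j hj, hq.2 j hj]
          · have : j = ⟨m, by omega⟩ := Fin.ext hj
            rw [this]; exact heq
      · right
        refine ⟨i, by omega, fun j hj => ?_, ?_⟩
        · rw [h2 j hj, hq.2 j (lt_trans hj hi)]
        · rw [hq.2 i hi]; exact h3
  obtain ⟨p, hp, h⟩ := key n le_rfl
  refine ⟨p, hp, fun y hy => ?_⟩
  rcases h y hy with h1 | ⟨i, _, h2, h3⟩
  · left
    ext j
    exact h1 j j.isLt
  · exact Or.inr ⟨i, h2, h3⟩

/-- A homothety of sections containing the lexicographic maxima maps one to the other. -/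
theorem lexMax_map {n : ℕ} {K L : Set (EuclideanSpace ℝ (Fin n))}
    {p q x : EuclideanSpace ℝ (Fin n)} {c : ℝ} (hc : 0 < c) (hp : LexMax K p) (hq : LexMax L q)
    {S : Submodule ℝ (EuclideanSpace ℝ (Fin n))} (hpS : p ∈ S) (hqS : q ∈ S)
    (h : L ∩ (S : Set (EuclideanSpace ℝ (Fin n))) =
      (fun y => c • y + x) '' (K ∩ (S : Set (EuclideanSpace ℝ (Fin n))))) :
    q = c • p + x := by
  have h1 : c • p + x ∈ L ∩ (S : Set (EuclideanSpace ℝ (Fin n))) := by
    rw [h]; exact ⟨p, ⟨hp.1, hpS⟩, rfl⟩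
  have h2 : q ∈ (fun y => c • y + x) '' (K ∩ (S : Set (EuclideanSpace ℝ (Fin n)))) := by
    rw [← h]; exact ⟨hq.1, hqS⟩
  obtain ⟨y, hy, hyq⟩ := h2
  have hyq' : c • y + x = q := hyq
  rcases hp.2 y hy.1 with h3 | ⟨i, h3, h4⟩
  · rw [← h3]; exact hyq'.symm
  rcases hq.2 _ h1.1 with h5 | ⟨i', h5, h6⟩
  · exact h5.symm
  exfalso
  have e : ∀ j, q j = c * y j + x j := fun j => by rw [← hyq']; simp
  have e' : ∀ j, (c • p + x) j = c * p j + x j := fun j => by simp
  rcases lt_trichotomy i i' with hlt | heq | hgt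
  · have := h5 i hlt
    rw [e, e'] at this
    have := mul_lt_mul_of_pos_left h4 hc
    linarith
  · subst heq
    rw [e, e'] at h6
    have := mul_lt_mul_of_pos_left h4 hc
    linarith
  · rw [e, e', h3 i' hgt] at h6
    exact lt_irrefl _ h6

/-- The lexicographic maximum of a star body is not `0`. -/
theorem lexMax_ne_zero {n : ℕ} (hn : 0 < n) {K : Set (EuclideanSpace ℝ (Fin n))}
    (hK : IsStarBody K) {p : EuclideanSpace ℝ (Fin n)} (hp : LexMax K p) : p ≠ 0 := by
  intro hp0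
  have he : EuclideanSpace.single (⟨0, hn⟩ : Fin n) (1 : ℝ) ∈
      Metric.sphere (0 : EuclideanSpace ℝ (Fin n)) 1 := by simp
  have hpos := hK.2.2.1 _ he
  obtain ⟨t, ht, htK⟩ : ∃ t : ℝ, 0 < t ∧
      t • EuclideanSpace.single (⟨0, hn⟩ : Fin n) (1 : ℝ) ∈ K := by
    by_contra hcon
    push Not at hcon
    have : sSup {t : ℝ | 0 ≤ t ∧ t • EuclideanSpace.single (⟨0, hn⟩ : Fin n) (1 : ℝ) ∈ K} ≤ 0 := by
      refine Real.sSup_nonpos fun t ht => ?_
      by_contra h
      exact hcon t (not_le.mp h) ht.2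
    linarith
  rcases hp.2 _ htK with h | ⟨i, _, h⟩
  · rw [hp0] at h
    have := congrArg (fun v : EuclideanSpace ℝ (Fin n) => v ⟨0, hn⟩) h
    simp at this
    exact ht.ne' this
  · rw [hp0] at h
    have h2 : (t • EuclideanSpace.single (⟨0, hn⟩ : Fin n) (1 : ℝ)) i =
        t * (if i = ⟨0, hn⟩ then 1 else 0) := by
      simp
    rw [h2] at h
    have h3 : (0 : ℝ) ≤ t * (if i = ⟨0, hn⟩ then 1 else 0) := by
      split_ifs <;> simp [ht.le]
    simp only [PiLp.zero_apply] at h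
    linarith

theorem finrank_comap_general {V W : Type*} [AddCommGroup V] [Module ℝ V] [FiniteDimensional ℝ V]
    [AddCommGroup W] [Module ℝ W] (f : V →ₗ[ℝ] W) (hf : Function.Surjective f)
    (T' : Submodule ℝ W) :
    finrank ℝ (T'.comap f) = finrank ℝ T' + finrank ℝ (LinearMap.ker f) := by
  have h1 := (f.domRestrict (T'.comap f)).finrank_range_add_finrank_ker
  have h2 : LinearMap.range (f.domRestrict (T'.comap f)) = T' := by
    rw [LinearMap.range_domRestrict, Submodule.map_comap_eq, LinearMap.range_eq_top.2 hf,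
      top_inf_eq]
  have h3 : finrank ℝ (LinearMap.ker (f.domRestrict (T'.comap f))) =
      finrank ℝ (LinearMap.ker f) := by
    rw [LinearMap.ker_domRestrict]
    have hle : LinearMap.ker f ≤ T'.comap f := by
      intro x hx
      rw [Submodule.mem_comap, LinearMap.mem_ker.1 hx]
      exact T'.zero_mem
    exact LinearEquiv.finrank_eq (Submodule.comapSubtypeEquivOfLe hle)
  rw [h2, h3] at h1
  exact h1.symm

/-- Every subspace of dimension `≤ k` is contained in one of dimension `k`. -/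
theorem exists_finrank_eq {V : Type*} [AddCommGroup V] [Module ℝ V] [FiniteDimensional ℝ V]
    (N : Submodule ℝ V) {k : ℕ} (h1 : finrank ℝ N ≤ k) (h2 : k ≤ finrank ℝ V) :
    ∃ S : Submodule ℝ V, N ≤ S ∧ finrank ℝ S = k := by
  have hq : finrank ℝ (V ⧸ N) + finrank ℝ N = finrank ℝ V := N.finrank_quotient_add_finrank
  obtain ⟨v, hv⟩ := exists_linearIndependent_of_le_finrank (R := ℝ) (M := V ⧸ N)
    (n := k - finrank ℝ N) (by omega)
  refine ⟨(Submodule.span ℝ (Set.range v)).comap N.mkQ, ?_, ?_⟩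
  · intro x hx
    rw [Submodule.mem_comap]
    have : N.mkQ x = 0 := by simpa using hx
    rw [this]
    exact Submodule.zero_mem _
  · rw [finrank_comap_general N.mkQ (Submodule.mkQ_surjective N), finrank_span_eq_card hv,
      Submodule.ker_mkQ]
    simp only [Fintype.card_fin]
    omega

open scoped Pointwise in
theorem main {n k : ℕ} (hk : 3 ≤ k) (hkn : k < n)
    {K L : Set (EuclideanSpace ℝ (Fin n))} (hK : IsStarBody K) (hL : IsStarBody L)
    (h : ∀ S : Submodule ℝ (EuclideanSpace ℝ (Fin n)), finrank ℝ S = k →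
      IsHomothetic (K ∩ (S : Set (EuclideanSpace ℝ (Fin n))))
        (L ∩ (S : Set (EuclideanSpace ℝ (Fin n))))) :
    IsHomothetic K L := by
  have hn : 0 < n := by omega
  have hne : ∀ {M : Set (EuclideanSpace ℝ (Fin n))}, IsStarBody M → M.Nonempty := by
    intro M hM
    by_contra hcon
    rw [Set.not_nonempty_iff_eq_empty] at hcon
    have he : EuclideanSpace.single (⟨0, hn⟩ : Fin n) (1 : ℝ) ∈
      Metric.sphere (0 : EuclideanSpace ℝ (Fin n)) 1 := by simp
    have hpos := hM.2.2.1 _ he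
    rw [hcon] at hpos
    simp at hpos
  obtain ⟨p, hp⟩ := exists_lexMax hK.1 (hne hK)
  obtain ⟨q, hq⟩ := exists_lexMax hL.1 (hne hL)
  have hp0 : p ≠ 0 := lexMax_ne_zero hn hK hp
  have h0K : (0 : EuclideanSpace ℝ (Fin n)) ∈ K := hK.2.1.mem (hne hK)
  have hdim : finrank ℝ (EuclideanSpace ℝ (Fin n)) = n := by simp
  set P : Submodule ℝ (EuclideanSpace ℝ (Fin n)) := Submodule.span ℝ {p, q} with hP
  have hpP : p ∈ P := Submodule.subset_span (by simp)
  have hqP : q ∈ P := Submodule.subset_span (by simp)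
  -- the homothety is the same for all sections containing `p` and `q`
  have key : ∀ S : Submodule ℝ (EuclideanSpace ℝ (Fin n)), P ≤ S → ∀ c : ℝ, 0 < c →
      ∀ x : EuclideanSpace ℝ (Fin n),
      L ∩ (S : Set (EuclideanSpace ℝ (Fin n))) =
        (fun y => c • y + x) '' (K ∩ (S : Set (EuclideanSpace ℝ (Fin n)))) →
      c * Metric.diam (K ∩ (P : Set (EuclideanSpace ℝ (Fin n)))) =
        Metric.diam (L ∩ (P : Set (EuclideanSpace ℝ (Fin n)))) ∧ x = q - c • p := by
    intro S hPS c hc x hS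
    have hx : q = c • p + x := lexMax_map hc hp hq (hPS hpP) (hPS hqP) hS
    have hx' : x = q - c • p := by rw [hx]; abel
    have hxP : x ∈ P := by rw [hx']; exact P.sub_mem hqP (P.smul_mem c hpP)
    refine ⟨?_, hx'⟩
    have hLP : L ∩ (P : Set (EuclideanSpace ℝ (Fin n))) =
        (fun y => c • y + x) '' (K ∩ (P : Set (EuclideanSpace ℝ (Fin n)))) := by
      ext z
      constructor
      · rintro ⟨hzL, hzP⟩
        have hz : z ∈ L ∩ (S : Set (EuclideanSpace ℝ (Fin n))) := ⟨hzL, hPS hzP⟩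
        rw [hS] at hz
        obtain ⟨y, hy, hyz⟩ := hz
        have hyz' : c • y + x = z := hyz
        refine ⟨y, ⟨hy.1, ?_⟩, hyz⟩
        have hy2 : c • y ∈ P := by
          have : c • y = z - x := by rw [← hyz']; abel
          rw [this]; exact P.sub_mem hzP hxP
        have := P.smul_mem c⁻¹ hy2
        rwa [smul_smul, inv_mul_cancel₀ hc.ne', one_smul] at this
      · rintro ⟨y, hy, rfl⟩
        have hz : (fun y => c • y + x) y ∈ L ∩ (S : Set (EuclideanSpace ℝ (Fin n))) := by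
          rw [hS]; exact ⟨y, ⟨hy.1, hPS hy.2⟩, rfl⟩
        exact ⟨hz.1, P.add_mem (P.smul_mem c hy.2) hxP⟩
    rw [hLP]
    have e1 : (fun y : EuclideanSpace ℝ (Fin n) => c • y + x) ''
        (K ∩ (P : Set (EuclideanSpace ℝ (Fin n)))) =
        (fun y => y + x) '' (c • (K ∩ (P : Set (EuclideanSpace ℝ (Fin n))))) := by
      rw [← Set.image_smul, Set.image_image]
    have e2 : Metric.diam ((fun y : EuclideanSpace ℝ (Fin n) => y + x) ''
        (c • (K ∩ (P : Set (EuclideanSpace ℝ (Fin n)))))) =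
        Metric.diam (c • (K ∩ (P : Set (EuclideanSpace ℝ (Fin n))))) :=
      (isometry_add_right x).diam_image _
    rw [e1, e2, diam_smul₀, Real.norm_eq_abs, abs_of_pos hc]
  have hdpos : 0 < Metric.diam (K ∩ (P : Set (EuclideanSpace ℝ (Fin n)))) := by
    have hb : Bornology.IsBounded (K ∩ (P : Set (EuclideanSpace ℝ (Fin n)))) :=
      hK.1.isBounded.subset Set.inter_subset_left
    have := Metric.dist_le_diam_of_mem hb (x := p) (y := 0) ⟨hp.1, hpP⟩ ⟨h0K, P.zero_mem⟩
    have h2 : 0 < dist p 0 := dist_pos.mpr hp0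
    linarith
  have hspan : ∀ y : EuclideanSpace ℝ (Fin n), ∃ S : Submodule ℝ (EuclideanSpace ℝ (Fin n)),
      P ≤ S ∧ y ∈ S ∧ finrank ℝ S = k := by
    intro y
    have h3 : finrank ℝ (Submodule.span ℝ ({p, q, y} : Set (EuclideanSpace ℝ (Fin n)))) ≤ k := by
      have h4 := finrank_span_finset_le_card (R := ℝ) ({p, q, y} : Finset (EuclideanSpace ℝ (Fin n)))
      have h5 : ({p, q, y} : Finset (EuclideanSpace ℝ (Fin n))).card ≤ 3 := Finset.card_le_three
      simp only [Finset.coe_insert, Finset.coe_singleton] at h4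
      exact h4.trans (h5.trans hk)
    obtain ⟨S, hS, hSk⟩ := exists_finrank_eq _ h3 (by rw [hdim]; omega)
    refine ⟨S, ?_, hS (Submodule.subset_span (by simp)), hSk⟩
    refine le_trans (Submodule.span_mono ?_) hS
    intro z hz
    simp only [Set.mem_insert_iff, Set.mem_singleton_iff] at hz ⊢
    tauto
  obtain ⟨S₀, hPS₀, _, hS₀k⟩ := hspan 0
  obtain ⟨c, hc, x, hcx⟩ := h S₀ hS₀k
  obtain ⟨k1, k2⟩ := key S₀ hPS₀ c hc x hcx
  refine ⟨c, hc, x, ?_⟩
  have hsame : ∀ S : Submodule ℝ (EuclideanSpace ℝ (Fin n)), P ≤ S → finrank ℝ S = k →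
      L ∩ (S : Set (EuclideanSpace ℝ (Fin n))) =
        (fun y => c • y + x) '' (K ∩ (S : Set (EuclideanSpace ℝ (Fin n)))) := by
    intro S hPS hSk
    obtain ⟨c', hc', x', h'⟩ := h S hSk
    obtain ⟨k1', k2'⟩ := key S hPS c' hc' x' h'
    have hcc : c' = c := by
      have : c' * Metric.diam (K ∩ (P : Set (EuclideanSpace ℝ (Fin n)))) =
          c * Metric.diam (K ∩ (P : Set (EuclideanSpace ℝ (Fin n)))) := by rw [k1, k1']
      exact mul_right_cancel₀ hdpos.ne' this
    have hxx : x' = x := by rw [k2, k2', hcc]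
    rw [h', hcc, hxx]
  ext z
  constructor
  · intro hz
    obtain ⟨S, hPS, hzS, hSk⟩ := hspan z
    have : z ∈ L ∩ (S : Set (EuclideanSpace ℝ (Fin n))) := ⟨hz, hzS⟩
    rw [hsame S hPS hSk] at this
    obtain ⟨y, hy, hyz⟩ := this
    exact ⟨y, hy.1, hyz⟩
  · rintro ⟨y, hy, rfl⟩
    obtain ⟨S, hPS, hyS, hSk⟩ := hspan y
    have : (fun y => c • y + x) y ∈ L ∩ (S : Set (EuclideanSpace ℝ (Fin n))) := by
      rw [hsame S hPS hSk]; exact ⟨y, ⟨hy, hyS⟩, rfl⟩
    exact this.1

/-- Preimages of star bodies under linear isometries are star bodies. -/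
theorem IsStarBody.preimage {m n : ℕ} {K : Set (EuclideanSpace ℝ (Fin n))} (hK : IsStarBody K)
    (ψ : EuclideanSpace ℝ (Fin m) →ₗᵢ[ℝ] EuclideanSpace ℝ (Fin n)) : IsStarBody (ψ ⁻¹' K) := by
  have hset : ∀ u : EuclideanSpace ℝ (Fin m),
      {t : ℝ | 0 ≤ t ∧ t • u ∈ ψ ⁻¹' K} = {t : ℝ | 0 ≤ t ∧ t • ψ u ∈ K} := by
    intro u
    ext t
    simp only [Set.mem_ofPred_eq, Set.mem_preimage, map_smul]
  have hsph : ∀ u ∈ Metric.sphere (0 : EuclideanSpace ℝ (Fin m)) 1,
      ψ u ∈ Metric.sphere (0 : EuclideanSpace ℝ (Fin n)) 1 := by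
    intro u hu
    rw [mem_sphere_zero_iff_norm] at hu ⊢
    rw [ψ.norm_map, hu]
  refine ⟨ψ.isometry.isClosedEmbedding.isCompact_preimage hK.1, ?_, ?_, ?_⟩
  · intro y hy a b ha hb hab
    have := hK.2.1 hy ha hb hab
    simpa using this
  · intro u hu
    rw [hset]
    exact hK.2.2.1 _ (hsph u hu)
  · have h1 : (fun u : EuclideanSpace ℝ (Fin m) => sSup {t : ℝ | 0 ≤ t ∧ t • u ∈ ψ ⁻¹' K}) =
        (fun v : EuclideanSpace ℝ (Fin n) => sSup {t : ℝ | 0 ≤ t ∧ t • v ∈ K}) ∘ ψ := by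
      funext u
      simp only [Function.comp_apply, hset]
    rw [h1]
    exact hK.2.2.2.comp ψ.continuous.continuousOn hsph

/-- A star body in positive dimension contains `0`. -/
theorem zero_mem {n : ℕ} (hn : 0 < n) {K : Set (EuclideanSpace ℝ (Fin n))}
    (hK : IsStarBody K) : (0 : EuclideanSpace ℝ (Fin n)) ∈ K := by
  refine hK.2.1.mem ?_
  by_contra hcon
  rw [Set.not_nonempty_iff_eq_empty] at hcon
  have he : EuclideanSpace.single (⟨0, hn⟩ : Fin n) (1 : ℝ) ∈
    Metric.sphere (0 : EuclideanSpace ℝ (Fin n)) 1 := by simp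
  have hpos := hK.2.2.1 _ he
  rw [hcon] at hpos
  simp at hpos

theorem HasAnalyticRadial.preimage {m n : ℕ} {K : Set (EuclideanSpace ℝ (Fin n))}
    (hK : HasAnalyticRadial K)
    (ψ : EuclideanSpace ℝ (Fin m) →ₗᵢ[ℝ] EuclideanSpace ℝ (Fin n)) :
    HasAnalyticRadial (ψ ⁻¹' K) := by
  have h1 : (fun u : EuclideanSpace ℝ (Fin m) => sSup {t : ℝ | 0 ≤ t ∧ t • u ∈ ψ ⁻¹' K}) =
      (fun v : EuclideanSpace ℝ (Fin n) => sSup {t : ℝ | 0 ≤ t ∧ t • v ∈ K}) ∘
        ψ.toContinuousLinearMap := by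
    funext u
    simp only [Function.comp_apply]
    congr 1
    ext t
    simp only [Set.mem_ofPred_eq, Set.mem_preimage, map_smul]
    rfl
  unfold HasAnalyticRadial
  rw [h1]
  refine AnalyticOnNhd.comp hK (ψ.toContinuousLinearMap.analyticOnNhd _) ?_
  intro u hu hψ
  exact hu (ψ.injective (by rw [map_zero]; exact hψ))

/-- Homothetic `2`-sections and the case of dimension three give homothetic `3`-sections
(analytic radial functions). -/
theorem three_of_two (hQ : ∀ K L : Set (EuclideanSpace ℝ (Fin 3)), IsStarBody K → IsStarBody L →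
      HasAnalyticRadial K → HasAnalyticRadial L → HomotheticSections 2 K L → IsHomothetic K L)
    {n : ℕ} (hn : 0 < n) {K L : Set (EuclideanSpace ℝ (Fin n))}
    (hK : IsStarBody K) (hL : IsStarBody L) (aK : HasAnalyticRadial K) (aL : HasAnalyticRadial L)
    (h : HomotheticSections 2 K L) :
    HomotheticSections 3 K L := by
  intro T hT
  let b := (stdOrthonormalBasis ℝ T).reindex (finCongr hT)
  let ψ : EuclideanSpace ℝ (Fin 3) →ₗᵢ[ℝ] EuclideanSpace ℝ (Fin n) :=
    T.subtypeₗᵢ.comp b.repr.symm.toLinearIsometry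
  have hψinj : Function.Injective ψ := ψ.injective
  have hψT : ∀ z : EuclideanSpace ℝ (Fin 3), ψ z ∈ T := fun z => (b.repr.symm z).2
  have hψsurj : ∀ z ∈ T, ∃ w, ψ w = z := by
    intro z hz
    refine ⟨b.repr ⟨z, hz⟩, ?_⟩
    show ((b.repr.symm (b.repr ⟨z, hz⟩) : T) : EuclideanSpace ℝ (Fin n)) = z
    rw [LinearIsometryEquiv.symm_apply_apply]
  have h0K := zero_mem hn hK
  have hsec : HomotheticSections 2 (ψ ⁻¹' K) (ψ ⁻¹' L) := by
    intro S' hS'
    have hfr : finrank ℝ (S'.map ψ.toLinearMap) = 2 := by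
      rw [← hS']
      exact (Submodule.equivMapOfInjective ψ.toLinearMap hψinj S').finrank_eq.symm
    obtain ⟨c, hc, x, hx⟩ := h _ hfr
    have hmem : ∀ z, ψ z ∈ S'.map ψ.toLinearMap ↔ z ∈ S' := by
      intro z
      constructor
      · rintro ⟨w, hw, hwz⟩
        have : w = z := hψinj hwz
        rwa [← this]
      · intro hz
        exact ⟨z, hz, rfl⟩
    have hxS : x ∈ L ∩ ((S'.map ψ.toLinearMap : Submodule ℝ (EuclideanSpace ℝ (Fin n))) :
        Set (EuclideanSpace ℝ (Fin n))) := by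
      rw [hx]
      exact ⟨0, ⟨h0K, Submodule.zero_mem _⟩, by simp⟩
    obtain ⟨x', hx', hxx⟩ := hxS.2
    have hxx' : ψ x' = x := hxx
    refine ⟨c, hc, x', ?_⟩
    ext z
    constructor
    · rintro ⟨hzL, hzS⟩
      have h1 : ψ z ∈ L ∩ ((S'.map ψ.toLinearMap : Submodule ℝ (EuclideanSpace ℝ (Fin n))) :
        Set (EuclideanSpace ℝ (Fin n))) := ⟨hzL, (hmem z).mpr hzS⟩
      rw [hx] at h1
      obtain ⟨y, ⟨hyK, y', hy', hyy⟩, hyz⟩ := h1
      have hyy' : ψ y' = y := hyy
      have hyz' : c • y + x = ψ z := hyz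
      refine ⟨y', ⟨?_, hy'⟩, ?_⟩
      · show ψ y' ∈ K
        rw [hyy']; exact hyK
      · apply hψinj
        show ψ (c • y' + x') = ψ z
        rw [map_add, map_smul, hyy', hxx', hyz']
    · rintro ⟨y, ⟨hyK, hyS⟩, rfl⟩
      have h1 : c • ψ y + x ∈ L ∩ ((S'.map ψ.toLinearMap :
          Submodule ℝ (EuclideanSpace ℝ (Fin n))) : Set (EuclideanSpace ℝ (Fin n))) := by
        rw [hx]
        exact ⟨ψ y, ⟨hyK, (hmem y).mpr hyS⟩, rfl⟩
      refine ⟨?_, S'.add_mem (S'.smul_mem c hyS) hx'⟩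
      show ψ (c • y + x') ∈ L
      rw [map_add, map_smul, hxx']
      exact h1.1
  obtain ⟨c, hc, x, hx⟩ := hQ _ _ (IsStarBody.preimage hK ψ) (IsStarBody.preimage hL ψ)
    (aK.preimage ψ) (aL.preimage ψ) hsec
  refine ⟨c, hc, ψ x, ?_⟩
  ext z
  constructor
  · rintro ⟨hzL, hzT⟩
    obtain ⟨w, rfl⟩ := hψsurj z hzT
    have h1 : w ∈ ψ ⁻¹' L := hzL
    rw [hx] at h1
    obtain ⟨y, hy, hyw⟩ := h1
    have hyw' : c • y + x = w := hyw
    refine ⟨ψ y, ⟨hy, hψT y⟩, ?_⟩
    show c • ψ y + ψ x = ψ w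
    rw [← hyw', map_add, map_smul]
  · rintro ⟨y, ⟨hyK, hyT⟩, rfl⟩
    obtain ⟨w, rfl⟩ := hψsurj y hyT
    have h1 : c • w + x ∈ ψ ⁻¹' L := by
      rw [hx]; exact ⟨w, hyK, rfl⟩
    have h2 : ψ (c • w + x) ∈ L := h1
    rw [map_add, map_smul] at h2
    exact ⟨h2, T.add_mem (T.smul_mem c hyT) (hψT x)⟩

/-- All cases `2 ≤ k < n` from the case `n = 3`, `k = 2` (analytic radial functions). -/
theorem all_of_three_two (hQ : ∀ K L : Set (EuclideanSpace ℝ (Fin 3)), IsStarBody K →
      IsStarBody L → HasAnalyticRadial K → HasAnalyticRadial L → HomotheticSections 2 K L →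
      IsHomothetic K L) (n k : ℕ) (hk : 2 ≤ k) (hkn : k < n)
    (K L : Set (EuclideanSpace ℝ (Fin n))) (hK : IsStarBody K) (hL : IsStarBody L)
    (aK : HasAnalyticRadial K) (aL : HasAnalyticRadial L) (h : HomotheticSections k K L) :
    IsHomothetic K L := by
  rcases hk.lt_or_eq with hk3 | rfl
  · exact main hk3 hkn hK hL h
  · rcases (show 3 ≤ n by omega).lt_or_eq with hlt | rfl
    · exact main le_rfl hlt hK hL (three_of_two hQ (by omega) hK hL aK aL h)
    · exact hQ K L hK hL aK aL h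

end Pool.Agent.Lib.MP_f7db8a.Hom
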