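import Pool.Agent.Lib.MP_f7db8a.HomThree

set_option autoImplicit false

/-!
# Star bodies with homothetic sections: reduction of all cases to `n = 3`, `k = 2`
-/

namespace Pool.Agent.Lib.MP_f7db8a.Hom

open Module
open Pool.Agent.Lib.MP_f7db8a (IsStarBody)

/-- Homothetic `2`-sections and the case of dimension three give homothetic `3`-sections. -/
theorem three_of_two_gen (hQ : ∀ K L : Set (EuclideanSpace ℝ (Fin 3)), IsStarBody K →
      IsStarBody L → HomotheticSections 2 K L → IsHomothetic K L)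
    {n : ℕ} (hn : 0 < n) {K L : Set (EuclideanSpace ℝ (Fin n))}
    (hK : IsStarBody K) (hL : IsStarBody L)
    (h : HomotheticSections 2 K L) :
    HomotheticSections 3 K L := by
  intro T hT
  let b := (stdOrthonormalBasis ℝ T).reindex (finCongr hT)
  let ψ : EuclideanSpace ℝ (Fin 3) →ₗᵢ[ℝ] EuclideanSpace ℝ (Fin n) :=
    T.subtypeₗᵢ.comp b.repr.symm.toLinearIsometry
  have hψinj : Function.Injective ψ := ψ.injective
  have hψT : ∀ z : EuclideanSpace ℝ (Fin 3), ψ z ∈ T := fun z => (b.repr.symm z).2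
  have hψsurj : ∀ z ∈ T, ∃ w, ψ w = z := by
    intro z hz
    refine ⟨b.repr ⟨z, hz⟩, ?_⟩
    show ((b.repr.symm (b.repr ⟨z, hz⟩) : T) : EuclideanSpace ℝ (Fin n)) = z
    rw [LinearIsometryEquiv.symm_apply_apply]
  have h0K := zero_mem hn hK
  have hsec : HomotheticSections 2 (ψ ⁻¹' K) (ψ ⁻¹' L) := by
    intro S' hS'
    have hfr : finrank ℝ (S'.map ψ.toLinearMap) = 2 := by
      rw [← hS']
      exact (Submodule.equivMapOfInjective ψ.toLinearMap hψinj S').finrank_eq.symm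
    obtain ⟨c, hc, x, hx⟩ := h _ hfr
    have hmem : ∀ z, ψ z ∈ S'.map ψ.toLinearMap ↔ z ∈ S' := by
      intro z
      constructor
      · rintro ⟨w, hw, hwz⟩
        have : w = z := hψinj hwz
        rwa [← this]
      · intro hz
        exact ⟨z, hz, rfl⟩
    have hxS : x ∈ L ∩ ((S'.map ψ.toLinearMap : Submodule ℝ (EuclideanSpace ℝ (Fin n))) :
        Set (EuclideanSpace ℝ (Fin n))) := by
      rw [hx]
      exact ⟨0, ⟨h0K, Submodule.zero_mem _⟩, by simp⟩
    obtain ⟨x', hx', hxx⟩ := hxS.2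
    have hxx' : ψ x' = x := hxx
    refine ⟨c, hc, x', ?_⟩
    ext z
    constructor
    · rintro ⟨hzL, hzS⟩
      have h1 : ψ z ∈ L ∩ ((S'.map ψ.toLinearMap : Submodule ℝ (EuclideanSpace ℝ (Fin n))) :
        Set (EuclideanSpace ℝ (Fin n))) := ⟨hzL, (hmem z).mpr hzS⟩
      rw [hx] at h1
      obtain ⟨y, ⟨hyK, y', hy', hyy⟩, hyz⟩ := h1
      have hyy' : ψ y' = y := hyy
      have hyz' : c • y + x = ψ z := hyz
      refine ⟨y', ⟨?_, hy'⟩, ?_⟩
      · show ψ y' ∈ K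
        rw [hyy']; exact hyK
      · apply hψinj
        show ψ (c • y' + x') = ψ z
        rw [map_add, map_smul, hyy', hxx', hyz']
    · rintro ⟨y, ⟨hyK, hyS⟩, rfl⟩
      have h1 : c • ψ y + x ∈ L ∩ ((S'.map ψ.toLinearMap :
          Submodule ℝ (EuclideanSpace ℝ (Fin n))) : Set (EuclideanSpace ℝ (Fin n))) := by
        rw [hx]
        exact ⟨ψ y, ⟨hyK, (hmem y).mpr hyS⟩, rfl⟩
      refine ⟨?_, S'.add_mem (S'.smul_mem c hyS) hx'⟩
      show ψ (c • y + x') ∈ L
      rw [map_add, map_smul, hxx']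
      exact h1.1
  obtain ⟨c, hc, x, hx⟩ := hQ _ _ (IsStarBody.preimage hK ψ) (IsStarBody.preimage hL ψ)
    hsec
  refine ⟨c, hc, ψ x, ?_⟩
  ext z
  constructor
  · rintro ⟨hzL, hzT⟩
    obtain ⟨w, rfl⟩ := hψsurj z hzT
    have h1 : w ∈ ψ ⁻¹' L := hzL
    rw [hx] at h1
    obtain ⟨y, hy, hyw⟩ := h1
    have hyw' : c • y + x = w := hyw
    refine ⟨ψ y, ⟨hy, hψT y⟩, ?_⟩
    show c • ψ y + ψ x = ψ w
    rw [← hyw', map_add, map_smul]
  · rintro ⟨y, ⟨hyK, hyT⟩, rfl⟩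
    obtain ⟨w, rfl⟩ := hψsurj y hyT
    have h1 : c • w + x ∈ ψ ⁻¹' L := by
      rw [hx]; exact ⟨w, hyK, rfl⟩
    have h2 : ψ (c • w + x) ∈ L := h1
    rw [map_add, map_smul] at h2
    exact ⟨h2, T.add_mem (T.smul_mem c hyT) (hψT x)⟩

/-- All cases `2 ≤ k < n` from the case `n = 3`, `k = 2`. -/
theorem all_of_three_two_gen (hQ : ∀ K L : Set (EuclideanSpace ℝ (Fin 3)), IsStarBody K →
      IsStarBody L → HomotheticSections 2 K L → IsHomothetic K L) (n k : ℕ) (hk : 2 ≤ k)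
    (hkn : k < n) (K L : Set (EuclideanSpace ℝ (Fin n))) (hK : IsStarBody K) (hL : IsStarBody L)
    (h : HomotheticSections k K L) : IsHomothetic K L := by
  rcases hk.lt_or_eq with hk3 | rfl
  · exact main hk3 hkn hK hL h
  · rcases (show 3 ≤ n by omega).lt_or_eq with hlt | rfl
    · exact main le_rfl hlt hK hL (three_of_two_gen hQ (by omega) hK hL h)
    · exact hQ K L hK hL h

end Pool.Agent.Lib.MP_f7db8a.Hom
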