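import Pool.Agent.Lib.MP_f7db8a.Chart

set_option autoImplicit false
set_option linter.unusedSectionVars false

/-!
# The ratio of the radial functions is locally constant in a bad configuration
-/

namespace Pool.Agent.Lib.MP_f7db8a

open Module Set Filter Topology MeasureTheory Metric
open scoped NNReal

theorem lip_div {f g : ℝ × ℝ → ℝ} {s : Set (ℝ × ℝ)} {C1 C2 : ℝ≥0} {q₀ M : ℝ} (hq₀ : 0 < q₀)
    (hf : LipschitzOnWith C1 f s) (hg : LipschitzOnWith C2 g s) (hgq : ∀ x ∈ s, q₀ ≤ g x)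
    (hfM : ∀ x ∈ s, |f x| ≤ M) :
    ∃ C : ℝ≥0, LipschitzOnWith C (fun w => f w / g w) s := by
  rcases s.eq_empty_or_nonempty with rfl | ⟨x0, hx0⟩
  · exact ⟨0, by simp⟩
  have hM : 0 ≤ M := (abs_nonneg _).trans (hfM x0 hx0)
  refine ⟨Real.toNNReal (C1 / q₀ + M * C2 / q₀ ^ 2), ?_⟩
  rw [lipschitzOnWith_iff_dist_le_mul] at hf hg ⊢
  intro x hx y hy
  rw [Real.coe_toNNReal _ (by positivity), Real.dist_eq]
  have h1 := hf x hx y hy
  have h2 := hg x hx y hy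
  rw [Real.dist_eq] at h1 h2
  have gx := hgq x hx
  have gy := hgq y hy
  have gx0 : 0 < g x := hq₀.trans_le gx
  have gy0 : 0 < g y := hq₀.trans_le gy
  have e : f x / g x - f y / g y = (f x - f y) / g x - f y * (g x - g y) / (g x * g y) := by
    field_simp; ring
  rw [e]
  have hD : 0 ≤ dist x y := dist_nonneg
  have a1 : |(f x - f y) / g x| ≤ C1 / q₀ * dist x y := by
    rw [abs_div, abs_of_pos gx0, div_mul_eq_mul_div]
    exact div_le_div₀ (by positivity) h1 hq₀ gx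
  have a2 : |f y * (g x - g y) / (g x * g y)| ≤ M * C2 / q₀ ^ 2 * dist x y := by
    rw [abs_div, abs_mul, abs_of_pos (mul_pos gx0 gy0), div_mul_eq_mul_div]
    apply div_le_div₀ (by positivity) _ (by positivity) _
    · calc |f y| * |g x - g y| ≤ M * (C2 * dist x y) := by
            apply mul_le_mul (hfM y hy) h2 (abs_nonneg _) hM
        _ = _ := by ring
    · rw [pow_two]; exact mul_le_mul gx gy hq₀.le gx0.le
  calc |(f x - f y) / g x - f y * (g x - g y) / (g x * g y)| ≤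
      |(f x - f y) / g x| + |f y * (g x - g y) / (g x * g y)| := abs_sub _ _
    _ ≤ _ := by rw [add_mul]; exact add_le_add a1 a2

variable {K : Set ((ℝ × ℝ) × ℝ)}

theorem Ctr.contB_line {A B : ℝ × ℝ → ℝ × ℝ → ℝ} (hK : SB K) (h : Ctr K A B) {γ : ℝ → ℝ × ℝ}
    (hγ : Continuous γ) (hγ0 : ∀ s, γ s ≠ 0) (z : ℝ × ℝ) : Continuous (fun s => B z (γ s)) := by
  rw [continuous_iff_continuousAt]
  intro s
  exact ContinuousAt.comp (f := fun s : ℝ => ((z, γ s) : (ℝ × ℝ) × (ℝ × ℝ))) (x := s)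
    (g := fun p : (ℝ × ℝ) × (ℝ × ℝ) => B p.1 p.2) (h.contB hK (hγ0 s))
    (Continuous.continuousAt (by fun_prop))

/-- existence of zero directions -/
theorem exists_zero {A B : ℝ × ℝ → ℝ × ℝ → ℝ} (hK : SB K) (h : Ctr K A B) {γ : ℝ → ℝ × ℝ}
    (hγ : Continuous γ) (hγ0 : ∀ s, γ s ≠ 0) {z : ℝ × ℝ} (h0 : B z (γ 0) < 0)
    (h1 : 0 < B z (γ 1)) : ∃ s ∈ Icc (0 : ℝ) 1, B z (γ s) = 0 := by
  have hc := (h.contB_line hK hγ hγ0 z).continuousOn (s := Icc (0 : ℝ) 1)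
  have := intermediate_value_Icc (zero_le_one) hc
  obtain ⟨s, hs, hs2⟩ := this (show (0 : ℝ) ∈ Icc (B z (γ 0)) (B z (γ 1)) from ⟨h0.le, h1.le⟩)
  exact ⟨s, hs, hs2⟩

/-- the three classes -/
def γ1 (s : ℝ) : ℝ × ℝ := (1, s)
def γ2 (s : ℝ) : ℝ × ℝ := (s, 1)
def γ3 (s : ℝ) : ℝ × ℝ := (-s, 1 - s)

theorem γ1_cont : Continuous γ1 := by unfold γ1; fun_prop
theorem γ2_cont : Continuous γ2 := by unfold γ2; fun_prop
theorem γ3_cont : Continuous γ3 := by unfold γ3; fun_prop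

theorem γ1_ne (s : ℝ) : γ1 s ≠ 0 := by
  intro h; have := congrArg Prod.fst h; simp [γ1] at this
theorem γ2_ne (s : ℝ) : γ2 s ≠ 0 := by
  intro h; have := congrArg Prod.snd h; simp [γ2] at this
theorem γ3_ne (s : ℝ) : γ3 s ≠ 0 := by
  intro h
  have h1 : -s = 0 := congrArg Prod.fst h
  have h2 : 1 - s = 0 := congrArg Prod.snd h
  linarith

/-- sign conditions at `z` -/
def Sgn (B : ℝ × ℝ → ℝ × ℝ → ℝ) (z : ℝ × ℝ) : Prop :=
  0 < B z (-1, 0) ∧ 0 < B z (0, -1) ∧ 0 < B z (1, 1)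

theorem Sgn.eventually {A B : ℝ × ℝ → ℝ × ℝ → ℝ} (hK : SB K) (h : Ctr K A B)
    {z₀ : ℝ × ℝ} (hs : Sgn B z₀) : ∀ᶠ z in 𝓝 z₀, Sgn B z := by
  have key : ∀ D : ℝ × ℝ, D ≠ 0 → 0 < B z₀ D → ∀ᶠ z in 𝓝 z₀, 0 < B z D := by
    intro D hD hB
    have hc : ContinuousAt (fun z => B z D) z₀ :=
      ContinuousAt.comp (f := fun z : ℝ × ℝ => ((z, D) : (ℝ × ℝ) × (ℝ × ℝ))) (x := z₀)
        (g := fun p : (ℝ × ℝ) × (ℝ × ℝ) => B p.1 p.2) (h.contB hK hD) (by fun_prop)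
    exact continuousAt_const.eventually_lt hc hB
  exact (key _ d1_ne hs.1).and ((key _ d2_ne hs.2.1).and (key _ d3_ne hs.2.2))

theorem Sgn.neg1 {A B : ℝ × ℝ → ℝ × ℝ → ℝ} (hK : SB K) (h : Ctr K A B)
    {z : ℝ × ℝ} (hs : Sgn B z) : B z (1, 0) < 0 := by
  have := (h.negd hK (z := z) (d := (-1, 0)) d1_ne).2
  rw [show -((-1, 0) : ℝ × ℝ) = (1, 0) by simp] at this
  rw [this]; linarith [hs.1]

theorem Sgn.neg2 {A B : ℝ × ℝ → ℝ × ℝ → ℝ} (hK : SB K) (h : Ctr K A B)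
    {z : ℝ × ℝ} (hs : Sgn B z) : B z (0, 1) < 0 := by
  have := (h.negd hK (z := z) (d := (0, -1)) d2_ne).2
  rw [show -((0, -1) : ℝ × ℝ) = (0, 1) by simp] at this
  rw [this]; linarith [hs.2.1]

theorem Sgn.γ1_0 {A B : ℝ × ℝ → ℝ × ℝ → ℝ} (hK : SB K) (h : Ctr K A B)
    {z : ℝ × ℝ} (hs : Sgn B z) : B z (γ1 0) < 0 ∧ 0 < B z (γ1 1) :=
  ⟨hs.neg1 hK h, hs.2.2⟩

theorem Sgn.γ2_0 {A B : ℝ × ℝ → ℝ × ℝ → ℝ} (hK : SB K) (h : Ctr K A B)
    {z : ℝ × ℝ} (hs : Sgn B z) : B z (γ2 0) < 0 ∧ 0 < B z (γ2 1) :=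
  ⟨hs.neg2 hK h, hs.2.2⟩

theorem Sgn.γ3_0 {A B : ℝ × ℝ → ℝ × ℝ → ℝ} (hK : SB K) (h : Ctr K A B)
    {z : ℝ × ℝ} (hs : Sgn B z) : B z (γ3 0) < 0 ∧ 0 < B z (γ3 1) := by
  have e0 : γ3 0 = (0, 1) := by simp [γ3]
  have e1 : γ3 1 = (-1, 0) := by simp [γ3]
  rw [e0, e1]
  exact ⟨hs.neg2 hK h, hs.1⟩

/-- the derivative of the ratio vanishes at points of differentiability -/
theorem ratio_fderiv {A B : ℝ × ℝ → ℝ × ℝ → ℝ} (hK : SB K) (h : Ctr K A B)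
    {z : ℝ × ℝ} (hs : Sgn B z) (h1 : DifferentiableAt ℝ (qf K) z)
    (h2 : DifferentiableAt ℝ (qf (-K)) z) :
    HasFDerivAt (fun w => qf (-K) w / qf K w) (0 : ℝ × ℝ →L[ℝ] ℝ) z := by
  have hdiff : DifferentiableAt ℝ (fun w => qf (-K) w / qf K w) z := by
    simp only [div_eq_mul_inv]
    exact h2.mul (h1.inv (qf_pos hK z).ne')
  obtain ⟨s, hs1, hs2⟩ := exists_zero hK h γ1_cont γ1_ne (hs.γ1_0 hK h).1 (hs.γ1_0 hK h).2
  obtain ⟨s', hs'1, hs'2⟩ := exists_zero hK h γ2_cont γ2_ne (hs.γ2_0 hK h).1 (hs.γ2_0 hK h).2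
  have c1 : Cen K (z, 1) (γ1 s, 0) (A z (γ1 s)) 0 := by
    have := h.cen z (γ1 s); rwa [hs2] at this
  have c2 : Cen K (z, 1) (γ2 s', 0) (A z (γ2 s')) 0 := by
    have := h.cen z (γ2 s'); rwa [hs'2] at this
  have k1 := ratio_deriv hK c1 h1 h2
  have k2 := ratio_deriv hK c2 h1 h2
  set L := fderiv ℝ (fun w => qf (-K) w / qf K w) z with hL
  have hne : s * s' < 1 := by
    have hs1' : s ≠ 1 := by
      rintro rfl
      exact (hs.γ1_0 hK h).2.ne' hs2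
    have hlt : s < 1 := lt_of_le_of_ne hs1.2 hs1'
    have := hs'1.2
    have := hs'1.1
    have := hs1.1
    nlinarith
  have e1 : L (γ1 s) = L (1, 0) + s * L (0, 1) := by
    have : γ1 s = (1, 0) + s • ((0, 1) : ℝ × ℝ) := by simp [γ1]
    rw [this, map_add, map_smul, smul_eq_mul]
  have e2 : L (γ2 s') = s' * L (1, 0) + L (0, 1) := by
    have : γ2 s' = s' • ((1, 0) : ℝ × ℝ) + (0, 1) := by simp [γ2]
    rw [this, map_add, map_smul, smul_eq_mul]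
  rw [e1] at k1
  rw [e2] at k2
  have hb : L (0, 1) = 0 := by
    have : (1 - s * s') * L (0, 1) = 0 := by linear_combination k2 - s' * k1
    rcases mul_eq_zero.1 this with h | h
    · linarith
    · exact h
  have ha : L (1, 0) = 0 := by rw [hb] at k1; linarith
  have hL0 : L = 0 := by
    ext
    · exact ha
    · exact hb
  rw [← hL0]
  exact hdiff.hasFDerivAt

/-- **The ratio is locally constant.** -/
theorem ratio_const {A B : ℝ × ℝ → ℝ × ℝ → ℝ} (hK : SB K) (h : Ctr K A B) (hs : Sgn B 0) :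
    ∃ r : ℝ, 0 < r ∧ (∃ C : ℝ≥0, LipschitzOnWith C (qf K) (ball 0 r)) ∧
      ∀ z ∈ ball (0 : ℝ × ℝ) r, Sgn B z ∧ qf (-K) z = qf (-K) 0 / qf K 0 * qf K z := by
  obtain ⟨r1, hr1, C1, hC1⟩ := exists_lip hK h hs.1 hs.2.1 hs.2.2
  obtain ⟨r2, hr2, C2, hC2⟩ := exists_lip_neg hK h hs.1 hs.2.1 hs.2.2
  obtain ⟨r3, hr3, hC3⟩ := Metric.eventually_nhds_iff_ball.1 (hs.eventually hK h)
  have cQ : ContinuousAt (qf K) 0 := (qf_continuous hK).continuousAt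
  have cQ' : ContinuousAt (qf (-K)) 0 := (qf_continuous hK.neg).continuousAt
  have hQ0 := qf_pos hK 0
  have hQ'0 := qf_pos hK.neg 0
  have e1 : ∀ᶠ z in 𝓝 (0 : ℝ × ℝ), qf K 0 / 2 < qf K z :=
    continuousAt_const.eventually_lt cQ (by linarith)
  have e2 : ∀ᶠ z in 𝓝 (0 : ℝ × ℝ), qf (-K) z < qf (-K) 0 + 1 :=
    cQ'.eventually_lt continuousAt_const (by linarith)
  obtain ⟨r4, hr4, hC4⟩ := Metric.eventually_nhds_iff_ball.1 (e1.and e2)
  set r := min (min r1 r2) (min r3 r4) with hr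
  have hrpos : 0 < r := by rw [hr]; positivity
  have l1 : r ≤ r1 := (min_le_left _ _).trans (min_le_left _ _)
  have l2 : r ≤ r2 := (min_le_left _ _).trans (min_le_right _ _)
  have l3 : r ≤ r3 := (min_le_right _ _).trans (min_le_left _ _)
  have l4 : r ≤ r4 := (min_le_right _ _).trans (min_le_right _ _)
  have L1 := hC1.mono (ball_subset_ball l1)
  have L2 := hC2.mono (ball_subset_ball l2)
  obtain ⟨C, hC⟩ := lip_div (q₀ := qf K 0 / 2) (M := qf (-K) 0 + 1) (by positivity) L2 L1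
    (fun x hx => (hC4 x (ball_subset_ball l4 hx)).1.le)
    (fun x hx => by
      rw [abs_of_pos (qf_pos hK.neg x)]
      exact (hC4 x (ball_subset_ball l4 hx)).2.le)
  refine ⟨r, hrpos, ⟨C1, L1⟩, ?_⟩
  intro z hz
  refine ⟨hC3 z (ball_subset_ball l3 hz), ?_⟩
  have hae : ∀ᵐ z : ℝ × ℝ, z ∈ ball (0 : ℝ × ℝ) r →
      HasFDerivAt (fun w => qf (-K) w / qf K w) (0 : ℝ × ℝ →L[ℝ] ℝ) z := by
    filter_upwards [ae_diff L1, ae_diff L2] with w hw1 hw2 hwb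
    exact ratio_fderiv hK h (hC3 w (ball_subset_ball l3 hwb)) (hw1 hwb) (hw2 hwb)
  have := const_of_ae hC hae hz
  rw [← this, div_mul_cancel₀ _ (qf_pos hK z).ne']

end Pool.Agent.Lib.MP_f7db8a
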