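import Pool.Agent.Lib.MP_f7db8a.Lambda

set_option autoImplicit false
set_option linter.unusedSectionVars false

/-!
# Lines on which the reciprocal radial function is affine
-/

namespace Pool.Agent.Lib.MP_f7db8a

open Module Set Filter Topology MeasureTheory Metric
open scoped NNReal

variable {K : Set ((ℝ × ℝ) × ℝ)}

theorem norm_bound {γ : ℝ → ℝ × ℝ} (hγ : Continuous γ) : ∃ G : ℝ, 0 < G ∧
    ∀ s ∈ Icc (0 : ℝ) 1, ‖γ s‖ ≤ G := by
  obtain ⟨C, hC⟩ := isCompact_Icc.exists_bound_of_continuousOn hγ.continuousOn (s := Icc (0 : ℝ) 1)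
  refine ⟨max C 1, by positivity, fun s hs => (hC s hs).trans (le_max_left _ _)⟩

theorem mem_ball_add {r G t : ℝ} {z d : ℝ × ℝ} (hG : 0 < G) (hz : z ∈ ball (0 : ℝ × ℝ) (r / 2))
    (hd : ‖d‖ ≤ G) (ht : |t| ≤ r / (2 * G)) : z + t • d ∈ ball (0 : ℝ × ℝ) r := by
  rw [mem_ball_zero_iff] at hz ⊢
  have h1 : ‖t • d‖ ≤ r / 2 := by
    rw [norm_smul, Real.norm_eq_abs]
    calc |t| * ‖d‖ ≤ r / (2 * G) * G :=
          mul_le_mul ht hd (norm_nonneg _) ((abs_nonneg t).trans ht)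
      _ = r / 2 := by field_simp
  calc ‖z + t • d‖ ≤ ‖z‖ + ‖t • d‖ := norm_add_le _ _
    _ < r := by linarith

/-! ### Contraction case -/

theorem slope_const {φ : ℝ → ℝ} {t₀ a m : ℝ} (ha : a < 0) (ht₀ : 0 < t₀)
    (hφc : Continuous φ) (hφpos : ∀ t, 0 < φ t) (hderiv : HasDerivAt φ m 0)
    (hrel : ∀ t, |t| ≤ t₀ → φ (t / (1 - 2 * a * φ t)) - φ 0 = (φ t - φ 0) / (1 - 2 * a * φ t))
    {t : ℝ} (ht : |t| ≤ t₀) : φ t = φ 0 + t * m := by
  rcases eq_or_ne t 0 with rfl | htne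
  · simp
  obtain ⟨x₀, _, hmin⟩ := isCompact_Icc.exists_isMinOn (s := Icc (-t₀) t₀)
    ⟨0, by constructor <;> linarith⟩ hφc.continuousOn
  set q := φ x₀ with hq
  have hqpos : 0 < q := hφpos x₀
  have hmin' : ∀ u, |u| ≤ t₀ → q ≤ φ u := fun u hu => hmin (abs_le.1 hu)
  set θ := 1 / (1 - 2 * a * q) with hθ
  have hden0 : 1 < 1 - 2 * a * q := by nlinarith
  have hθ0 : 0 < θ := by rw [hθ]; positivity
  have hθ1 : θ < 1 := by rw [hθ, div_lt_one (by linarith)]; exact hden0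
  let τ : ℝ → ℝ := fun u => u / (1 - 2 * a * φ u)
  have hden : ∀ u, 0 < 1 - 2 * a * φ u := fun u => by have := hφpos u; nlinarith
  have hτ : ∀ u, |u| ≤ t₀ → |τ u| ≤ θ * |u| := by
    intro u hu
    change |u / (1 - 2 * a * φ u)| ≤ θ * |u|
    rw [abs_div, abs_of_pos (hden u), hθ, div_mul_eq_mul_div, one_mul]
    apply div_le_div_of_nonneg_left (abs_nonneg u) (by linarith)
    have := hmin' u hu
    nlinarith
  have hiter : ∀ n : ℕ, τ^[n] t ≠ 0 ∧ |τ^[n] t| ≤ θ ^ n * |t| ∧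
      (φ (τ^[n] t) - φ 0) * t = (φ t - φ 0) * τ^[n] t := by
    intro n
    induction n with
    | zero => simp [htne]
    | succ n ih =>
      obtain ⟨i1, i2, i3⟩ := ih
      rw [Function.iterate_succ_apply']
      set u := τ^[n] t with hu
      have hu0 : |u| ≤ t₀ := by
        have : θ ^ n ≤ 1 := pow_le_one₀ hθ0.le hθ1.le
        calc |u| ≤ θ ^ n * |t| := i2
          _ ≤ 1 * t₀ := by gcongr
          _ = t₀ := one_mul _
      refine ⟨?_, ?_, ?_⟩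
      · exact div_ne_zero i1 (hden u).ne'
      · calc |τ u| ≤ θ * |u| := hτ u hu0
          _ ≤ θ * (θ ^ n * |t|) := by gcongr
          _ = θ ^ (n + 1) * |t| := by ring
      · have h1 := hrel u hu0
        change (φ (u / (1 - 2 * a * φ u)) - φ 0) * t = (φ t - φ 0) * (u / (1 - 2 * a * φ u))
        rw [h1, div_mul_eq_mul_div, i3, mul_div_assoc]
  have hlim : Tendsto (fun n : ℕ => τ^[n] t) atTop (𝓝[≠] 0) := by
    rw [tendsto_nhdsWithin_iff]
    constructor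
    · apply squeeze_zero_norm (a := fun n => θ ^ n * |t|)
      · intro n
        rw [Real.norm_eq_abs]
        exact (hiter n).2.1
      · have := (tendsto_pow_atTop_nhds_zero_of_lt_one hθ0.le hθ1).mul_const |t|
        rwa [zero_mul] at this
    · exact Filter.Eventually.of_forall fun n => (hiter n).1
  have h1 := (hasDerivAt_iff_tendsto_slope_zero.1 hderiv).comp hlim
  have h2 : (fun n : ℕ => (τ^[n] t)⁻¹ • (φ (0 + τ^[n] t) - φ 0)) = fun _ => (φ t - φ 0) / t := by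
    funext n
    obtain ⟨i1, _, i3⟩ := hiter n
    rw [zero_add, smul_eq_mul]
    field_simp
    linear_combination i3
  have h3 : Tendsto (fun _ : ℕ => (φ t - φ 0) / t) atTop (𝓝 m) := by
    rw [← h2]; exact h1
  have h4 : (φ t - φ 0) / t = m := tendsto_nhds_unique tendsto_const_nhds h3
  rw [← h4]
  field_simp
  ring

theorem lineA_diff {A B : ℝ × ℝ → ℝ × ℝ → ℝ} (hK : SB K) (h : Ctr K A B) {r G lam : ℝ}
    (hG : 0 < G) (hr : 0 < r) (hlam : 0 < lam) (hlam1 : lam < 1)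
    (hratio : ∀ z ∈ ball (0 : ℝ × ℝ) r, qf (-K) z = lam * qf K z) {z d : ℝ × ℝ}
    (hz : z ∈ ball (0 : ℝ × ℝ) (r / 2)) (hd : ‖d‖ ≤ G) (hB : B z d = 0)
    (hdiff : DifferentiableAt ℝ (qf K) z) {t : ℝ} (ht : |t| ≤ r / (2 * G)) :
    qf K (z + t • d) = qf K z + t * fderiv ℝ (qf K) z d := by
  set a := A z d with ha
  have hcen : Cen K (z, 1) (d, 0) a 0 := by
    have := h.cen z d; rwa [hB] at this
  have hzr : z ∈ ball (0 : ℝ × ℝ) r := ball_subset_ball (by linarith) hz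
  have hQ := qf_pos hK z
  have hax := axis_height hK hcen
  rw [hratio z hzr] at hax
  have hax2 : 1 - 2 * a * qf K z = 1 / lam := by
    rw [hax]; field_simp
  have ha0 : a < 0 := by
    by_contra hcon
    have h1 : 1 < 1 / lam := by rw [lt_div_iff₀ hlam]; linarith
    have h2 : 0 ≤ a * qf K z := mul_nonneg (not_lt.1 hcon) hQ.le
    nlinarith
  have z0 : z + (0 : ℝ) • d = z := by rw [zero_smul, add_zero]
  have hline : HasDerivAt (fun t : ℝ => z + t • d) d 0 := by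
    have := ((hasDerivAt_id (0 : ℝ)).smul_const d).const_add z
    simpa using this
  have hφ : HasDerivAt (fun t : ℝ => qf K (z + t • d)) (fderiv ℝ (qf K) z d) 0 := by
    have h3 : HasFDerivAt (qf K) (fderiv ℝ (qf K) z) (z + (0 : ℝ) • d) := by
      rw [z0]; exact hdiff.hasFDerivAt
    exact h3.comp_hasDerivAt 0 hline
  have hcont : Continuous (fun t : ℝ => qf K (z + t • d)) :=
    (qf_continuous hK).comp (by fun_prop)
  have key := slope_const (φ := fun t : ℝ => qf K (z + t • d)) (t₀ := r / (2 * G)) ha0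
    (by positivity) hcont (fun t => qf_pos hK _) hφ ?_ ht
  · simpa only [z0] using key
  intro u hu
  simp only [z0]
  set Qu := qf K (z + u • d) with hQu
  have hQupos : 0 < Qu := qf_pos hK _
  have hden : 1 < 1 - 2 * a * Qu := by nlinarith
  have hu' : |u / (1 - 2 * a * Qu)| ≤ r / (2 * G) := by
    rw [abs_div, abs_of_pos (show 0 < 1 - 2 * a * Qu by linarith)]
    exact (div_le_self (abs_nonneg u) hden.le).trans hu
  have h1 := qf_reflect hK hcen u (by linarith)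
  rw [← hQu, hratio _ (mem_ball_add hG hz hd hu')] at h1
  have h2 : qf K (z + (u / (1 - 2 * a * Qu)) • d) =
      (1 - 2 * a * qf K z) * (Qu / (1 - 2 * a * Qu)) := by
    rw [hax2, ← h1]; field_simp
  rw [h2]
  have hne : 1 - 2 * a * Qu ≠ 0 := by linarith
  field_simp
  ring

/-- existence of affine lines, contraction case -/
theorem lineA {A B : ℝ × ℝ → ℝ × ℝ → ℝ} (hK : SB K) (h : Ctr K A B) {r lam : ℝ} {C : ℝ≥0}
    (hr : 0 < r) (hlam : 0 < lam) (hlam1 : lam < 1) (hL : LipschitzOnWith C (qf K) (ball 0 r))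
    (hratio : ∀ z ∈ ball (0 : ℝ × ℝ) r, qf (-K) z = lam * qf K z)
    {γ : ℝ → ℝ × ℝ} (hγ : Continuous γ) (hγ0 : ∀ s, γ s ≠ 0)
    (hsgn : ∀ z ∈ ball (0 : ℝ × ℝ) r, B z (γ 0) < 0 ∧ 0 < B z (γ 1)) :
    ∃ t₀ : ℝ, 0 < t₀ ∧ ∀ z ∈ ball (0 : ℝ × ℝ) (r / 2), ∃ s ∈ Icc (0 : ℝ) 1, B z (γ s) = 0 ∧
      ∃ m : ℝ, ∀ t : ℝ, |t| ≤ t₀ → qf K (z + t • γ s) = qf K z + t * m := by
  obtain ⟨G, hG, hGb⟩ := norm_bound hγ
  set t₀ := r / (2 * G) with ht₀
  have ht₀pos : 0 < t₀ := by positivity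
  refine ⟨t₀, ht₀pos, ?_⟩
  intro z hz
  -- dense set of differentiability points
  have hdense : Dense {w : ℝ × ℝ | w ∈ ball (0 : ℝ × ℝ) r → DifferentiableAt ℝ (qf K) w} :=
    Measure.dense_of_ae (ae_diff hL)
  have hcl : z ∈ closure (ball (0 : ℝ × ℝ) (r / 2) ∩
      {w : ℝ × ℝ | w ∈ ball (0 : ℝ × ℝ) r → DifferentiableAt ℝ (qf K) w}) :=
    hdense.open_subset_closure_inter isOpen_ball hz
  obtain ⟨w, hw, hwz⟩ := mem_closure_iff_seq_limit.1 hcl
  have hsub : ball (0 : ℝ × ℝ) (r / 2) ⊆ ball 0 r := ball_subset_ball (by linarith)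
  have hex : ∀ n, ∃ s ∈ Icc (0 : ℝ) 1, B (w n) (γ s) = 0 := fun n =>
    exists_zero hK h hγ hγ0 (hsgn _ (hsub (hw n).1)).1 (hsgn _ (hsub (hw n).1)).2
  choose s hs hsB using hex
  have haff : ∀ n, ∀ t : ℝ, |t| ≤ t₀ →
      t₀ * (qf K (w n + t • γ (s n)) - qf K (w n)) =
        t * (qf K (w n + t₀ • γ (s n)) - qf K (w n)) := by
    intro n t ht
    have e1 := lineA_diff hK h hG hr hlam hlam1 hratio (hw n).1 (hGb _ (hs n)) (hsB n)
      ((hw n).2 (hsub (hw n).1)) ht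
    have e2 := lineA_diff hK h hG hr hlam hlam1 hratio (hw n).1 (hGb _ (hs n)) (hsB n)
      ((hw n).2 (hsub (hw n).1)) (t := t₀) (by rw [abs_of_pos ht₀pos])
    rw [e1, e2]; ring
  obtain ⟨sl, hsl, φ, hφ, hlim⟩ := isCompact_Icc.tendsto_subseq hs
  have hwφ : Tendsto (fun n => w (φ n)) atTop (𝓝 z) := hwz.comp hφ.tendsto_atTop
  have hγlim : Tendsto (fun n => γ (s (φ n))) atTop (𝓝 (γ sl)) := (hγ.tendsto sl).comp hlim
  refine ⟨sl, hsl, ?_, (qf K (z + t₀ • γ sl) - qf K z) / t₀, ?_⟩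
  · have h1 : Tendsto (fun n => B (w (φ n)) (γ (s (φ n)))) atTop (𝓝 (B z (γ sl))) := by
      have h2 := (h.contB hK (z := z) (hγ0 sl))
      exact Tendsto.comp (g := fun p : (ℝ × ℝ) × (ℝ × ℝ) => B p.1 p.2) h2
        (hwφ.prodMk_nhds hγlim)
    have h3 : (fun n => B (w (φ n)) (γ (s (φ n)))) = fun _ => 0 := by
      funext n; exact hsB _
    rw [h3] at h1
    exact (tendsto_nhds_unique tendsto_const_nhds h1).symm
  · intro t ht
    have hQc := qf_continuous hK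
    have l1 : Tendsto (fun n => t₀ * (qf K (w (φ n) + t • γ (s (φ n))) - qf K (w (φ n)))) atTop
        (𝓝 (t₀ * (qf K (z + t • γ sl) - qf K z))) :=
      (((hQc.tendsto _).comp (hwφ.add (hγlim.const_smul t))).sub
        ((hQc.tendsto _).comp hwφ)).const_mul t₀
    have l2 : Tendsto (fun n => t * (qf K (w (φ n) + t₀ • γ (s (φ n))) - qf K (w (φ n)))) atTop
        (𝓝 (t * (qf K (z + t₀ • γ sl) - qf K z))) :=
      (((hQc.tendsto _).comp (hwφ.add (hγlim.const_smul t₀))).sub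
        ((hQc.tendsto _).comp hwφ)).const_mul t
    have l3 : (fun n => t₀ * (qf K (w (φ n) + t • γ (s (φ n))) - qf K (w (φ n)))) =
        fun n => t * (qf K (w (φ n) + t₀ • γ (s (φ n))) - qf K (w (φ n))) := by
      funext n; exact haff _ t ht
    rw [l3] at l1
    have := tendsto_nhds_unique l1 l2
    field_simp
    linear_combination this

/-! ### Translation case -/

theorem shift_nat {P : ℝ → ℝ → Prop} {a b t₁ : ℝ}
    (hstep : ∀ α β : ℝ, 0 < α → |β| ≤ t₁ * α → (P α β ↔ P (α + 2 * a) (β + 2 * b))) (n : ℕ) :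
    ∀ α β : ℝ, 0 < α → |β| ≤ t₁ * α → 0 < α + 2 * (n * a) →
      |β + 2 * (n * b)| ≤ t₁ * (α + 2 * (n * a)) →
      (P α β ↔ P (α + 2 * (n * a)) (β + 2 * (n * b))) := by
  induction n with
  | zero => intro α β _ _ _ _; simp
  | succ n ih =>
    intro α β h1 h2 h3 h4
    push_cast at h3 h4 ⊢
    have hn : (0 : ℝ) < n + 1 := by positivity
    have hn0 : (0 : ℝ) ≤ n := Nat.cast_nonneg n
    -- intermediate point in the cone
    have e1 : (n + 1 : ℝ) * (α + 2 * (n * a)) = 1 * α + n * (α + 2 * ((n + 1) * a)) := by ring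
    have e2 : (n + 1 : ℝ) * (β + 2 * (n * b)) = 1 * β + n * (β + 2 * ((n + 1) * b)) := by ring
    have c1 : 0 < α + 2 * (n * a) := by
      have : 0 < (n + 1 : ℝ) * (α + 2 * (n * a)) := by rw [e1]; positivity
      exact (mul_pos_iff_of_pos_left hn).1 this
    have c2 : |β + 2 * (n * b)| ≤ t₁ * (α + 2 * (n * a)) := by
      have : (n + 1 : ℝ) * |β + 2 * (n * b)| ≤ (n + 1 : ℝ) * (t₁ * (α + 2 * (n * a))) := by
        calc (n + 1 : ℝ) * |β + 2 * (n * b)| = |(n + 1 : ℝ) * (β + 2 * (n * b))| := by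
              rw [abs_mul, abs_of_pos hn]
          _ = |1 * β + n * (β + 2 * ((n + 1) * b))| := by rw [e2]
          _ ≤ |1 * β| + |n * (β + 2 * ((n + 1) * b))| := abs_add_le _ _
          _ = |β| + n * |β + 2 * ((n + 1) * b)| := by
              rw [one_mul, abs_mul, abs_of_nonneg hn0]
          _ ≤ t₁ * α + n * (t₁ * (α + 2 * ((n + 1) * a))) := by gcongr
          _ = _ := by ring
      exact le_of_mul_le_mul_left this hn
    rw [ih α β h1 h2 c1 c2, hstep _ _ c1 c2]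
    rw [show α + 2 * (n * a) + 2 * a = α + 2 * ((n + 1) * a) by ring,
      show β + 2 * (n * b) + 2 * b = β + 2 * ((n + 1) * b) by ring]

theorem shift_int {P : ℝ → ℝ → Prop} {a b t₁ : ℝ}
    (hstep : ∀ α β : ℝ, 0 < α → |β| ≤ t₁ * α → (P α β ↔ P (α + 2 * a) (β + 2 * b))) (m : ℤ)
    {α β : ℝ} (h1 : 0 < α) (h2 : |β| ≤ t₁ * α) (h3 : 0 < α + 2 * (m * a))
    (h4 : |β + 2 * (m * b)| ≤ t₁ * (α + 2 * (m * a))) :
    (P α β ↔ P (α + 2 * (m * a)) (β + 2 * (m * b))) := by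
  obtain ⟨n, rfl | rfl⟩ := m.eq_nat_or_neg
  · push_cast at h3 h4 ⊢
    exact shift_nat hstep n α β h1 h2 h3 h4
  · push_cast at h3 h4 ⊢
    have e1 : α + 2 * (-n * a) + 2 * (n * a) = α := by ring
    have e2 : β + 2 * (-n * b) + 2 * (n * b) = β := by ring
    have := shift_nat hstep n (α + 2 * (-n * a)) (β + 2 * (-n * b)) h3 h4
      (by rw [e1]; exact h1) (by rw [e1, e2]; exact h2)
    rw [e1, e2] at this
    exact this.symm

/-- the boundary relation in the cone -/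
theorem boundary_eq (hK : SB K) {z d : ℝ × ℝ} {α β : ℝ} (hα : 0 < α)
    (h1 : α • ((z, 1) : (ℝ × ℝ) × ℝ) + β • ((d, 0) : (ℝ × ℝ) × ℝ) ∈ K)
    (h2 : ∀ η : ℝ, 0 < η → (α + η) • ((z, 1) : (ℝ × ℝ) × ℝ) + β • ((d, 0) : (ℝ × ℝ) × ℝ) ∉
      interior K) : α * qf K (z + (β / α) • d) = 1 := by
  have e : α • ((z, 1) : (ℝ × ℝ) × ℝ) + β • ((d, 0) : (ℝ × ℝ) × ℝ) =
      α • ((z + (β / α) • d, 1) : (ℝ × ℝ) × ℝ) := by
    simp only [Prod.smul_mk, Prod.mk_add_mk, smul_eq_mul, mul_zero, add_zero, smul_add, smul_smul]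
    rw [mul_div_cancel₀ _ hα.ne']
  rw [e] at h1
  apply le_antisymm ((mem_chart hK _ hα.le).1 h1)
  by_contra hlt
  have h3 := interior_chart hK (z + (β / α) • d) hα.le (not_le.1 hlt)
  rw [← e] at h3
  have hc : ContinuousAt (fun η : ℝ => (α + η) • ((z, 1) : (ℝ × ℝ) × ℝ) +
      β • ((d, 0) : (ℝ × ℝ) × ℝ)) 0 := by fun_prop
  have hev : ∀ᶠ η : ℝ in 𝓝 0, (α + η) • ((z, 1) : (ℝ × ℝ) × ℝ) +
      β • ((d, 0) : (ℝ × ℝ) × ℝ) ∈ interior K := by
    apply hc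
    simpa only [add_zero] using isOpen_interior.mem_nhds h3
  obtain ⟨ε, hε, hball⟩ := Metric.eventually_nhds_iff.1 hev
  exact h2 (ε / 2) (by positivity) (hball (by
    rw [Real.dist_eq, sub_zero, abs_of_pos (by positivity)]; linarith))

theorem lineB {A B : ℝ × ℝ → ℝ × ℝ → ℝ} (hK : SB K) (h : Ctr K A B) {r : ℝ} {C : ℝ≥0}
    (hr : 0 < r) (hL : LipschitzOnWith C (qf K) (ball 0 r))
    (hratio : ∀ z ∈ ball (0 : ℝ × ℝ) r, qf (-K) z = qf K z)
    {γ : ℝ → ℝ × ℝ} (hγ : Continuous γ) (hγ0 : ∀ s, γ s ≠ 0)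
    (hsgn : ∀ z ∈ ball (0 : ℝ × ℝ) r, B z (γ 0) < 0 ∧ 0 < B z (γ 1)) :
    ∃ t₀ : ℝ, 0 < t₀ ∧ ∀ z ∈ ball (0 : ℝ × ℝ) (r / 2), ∃ s ∈ Icc (0 : ℝ) 1, B z (γ s) = 0 ∧
      ∃ m : ℝ, ∀ t : ℝ, |t| ≤ t₀ → qf K (z + t • γ s) = qf K z + t * m := by
  obtain ⟨G, hG, hGb⟩ := norm_bound hγ
  set t₁ := r / (2 * G) with ht₁
  have ht₁pos : 0 < t₁ := by positivity
  -- bounds for `qf`
  have hQc := qf_continuous hK
  obtain ⟨x₀, _, hmin⟩ := (isCompact_closedBall (0 : ℝ × ℝ) r).exists_isMinOn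
    ⟨0, mem_closedBall_self hr.le⟩ hQc.continuousOn
  obtain ⟨x₁, _, hmax⟩ := (isCompact_closedBall (0 : ℝ × ℝ) r).exists_isMaxOn
    ⟨0, mem_closedBall_self hr.le⟩ hQc.continuousOn
  set q₀ := qf K x₀ with hq₀
  set q₁ := qf K x₁ with hq₁
  have hq₀pos : 0 < q₀ := qf_pos hK _
  have hq₁pos : 0 < q₁ := qf_pos hK _
  have hQ0 : ∀ z ∈ ball (0 : ℝ × ℝ) r, q₀ ≤ qf K z := fun z hz => hmin (ball_subset_closedBall hz)
  have hQ1 : ∀ z ∈ ball (0 : ℝ × ℝ) r, qf K z ≤ q₁ := fun z hz => hmax (ball_subset_closedBall hz)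
  set C' := C * G / q₀ with hC'
  have hC'0 : 0 ≤ C' := by positivity
  set τ₀ := min (1 / (4 * q₁ * (C' + 1))) (t₁ / (4 * q₁)) with hτ₀
  have hτ₀pos : 0 < τ₀ := by positivity
  have hτ₀a : 2 * C' * τ₀ ≤ 1 / (2 * q₁) := by
    have h1 : τ₀ ≤ 1 / (4 * q₁ * (C' + 1)) := min_le_left _ _
    calc 2 * C' * τ₀ ≤ 2 * C' * (1 / (4 * q₁ * (C' + 1))) := by gcongr
      _ = (C' / (C' + 1)) * (1 / (2 * q₁)) := by field_simp; ring
      _ ≤ 1 * (1 / (2 * q₁)) := by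
          gcongr
          rw [div_le_one (by positivity)]; linarith
      _ = _ := one_mul _
  have hτ₀b : 2 * τ₀ ≤ t₁ * (1 / (2 * q₁)) := by
    have h1 : τ₀ ≤ t₁ / (4 * q₁) := min_le_right _ _
    calc 2 * τ₀ ≤ 2 * (t₁ / (4 * q₁)) := by gcongr
      _ = _ := by field_simp; ring
  set t₀ := min (1 / (2 * (C' + 1))) (q₀ * τ₀ / 2) with ht₀
  have ht₀pos : 0 < t₀ := by positivity
  refine ⟨t₀, ht₀pos, ?_⟩
  intro z hz
  have hsub : ball (0 : ℝ × ℝ) (r / 2) ⊆ ball 0 r := ball_subset_ball (by linarith)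
  have hzr := hsub hz
  set Q0 := qf K z with hQ0def
  have hQ0pos : 0 < Q0 := qf_pos hK z
  -- first zero
  obtain ⟨s₁, hs₁, hs₁B, hfirst⟩ : ∃ s₁ ∈ Icc (0 : ℝ) 1, B z (γ s₁) = 0 ∧
      ∀ s ∈ Ico (0 : ℝ) s₁, B z (γ s) ≠ 0 := by
    have hcont := h.contB_line hK hγ hγ0 z
    have hne : (Icc (0 : ℝ) 1 ∩ (fun s => B z (γ s)) ⁻¹' {0}).Nonempty := by
      obtain ⟨s, hs, hsB⟩ := exists_zero hK h hγ hγ0 (hsgn z hzr).1 (hsgn z hzr).2
      exact ⟨s, hs, hsB⟩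
    have hcomp : IsCompact (Icc (0 : ℝ) 1 ∩ (fun s => B z (γ s)) ⁻¹' {0}) :=
      isCompact_Icc.inter_right (isClosed_singleton.preimage hcont)
    refine ⟨_, (hcomp.sInf_mem hne).1, (hcomp.sInf_mem hne).2, ?_⟩
    intro s hs hsB
    have := csInf_le hcomp.bddBelow (show s ∈ _ from ⟨⟨hs.1, hs.2.le.trans
      (hcomp.sInf_mem hne).1.2⟩, hsB⟩)
    exact absurd hs.2 (not_lt.2 this)
  have hs₁0 : 0 < s₁ := by
    rcases hs₁.1.eq_or_lt with h0 | h0
    · rw [← h0] at hs₁B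
      exact absurd hs₁B (hsgn z hzr).1.ne
    · exact h0
  -- approximating parameters
  obtain ⟨s, hsmono, hslt, hslim⟩ := exists_seq_strictMono_tendsto' (show (0 : ℝ) < s₁ from hs₁0)
  have hsIcc : ∀ n, s n ∈ Icc (0 : ℝ) 1 := fun n => ⟨(hslt n).1.le, (hslt n).2.le.trans hs₁.2⟩
  set a : ℕ → ℝ := fun n => A z (γ (s n)) with ha
  set b : ℕ → ℝ := fun n => B z (γ (s n)) with hb
  have hb0 : ∀ n, b n ≠ 0 := fun n => hfirst _ ⟨(hslt n).1.le, (hslt n).2⟩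
  have hγlim : Tendsto (fun n => γ (s n)) atTop (𝓝 (γ s₁)) := (hγ.tendsto s₁).comp hslim
  have hpair : Tendsto (fun n => ((z, γ (s n)) : (ℝ × ℝ) × (ℝ × ℝ))) atTop (𝓝 (z, γ s₁)) :=
    tendsto_const_nhds.prodMk_nhds hγlim
  have halim : Tendsto a atTop (𝓝 (A z (γ s₁))) :=
    Tendsto.comp (g := fun p : (ℝ × ℝ) × (ℝ × ℝ) => A p.1 p.2) (h.contA hK (hγ0 s₁)) hpair
  have hblim : Tendsto b atTop (𝓝 0) := by
    have := Tendsto.comp (g := fun p : (ℝ × ℝ) × (ℝ × ℝ) => B p.1 p.2) (h.contB hK (hγ0 s₁)) hpair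
    simp only [hs₁B] at this
    exact this
  have hA0 : A z (γ s₁) = 0 := by
    have hcen : Cen K (z, 1) (γ s₁, 0) (A z (γ s₁)) 0 := by
      have := h.cen z (γ s₁); rwa [hs₁B] at this
    have hax := axis_height hK hcen
    rw [hratio z hzr, div_self hQ0pos.ne'] at hax
    have h1 : A z (γ s₁) * qf K z = 0 := by linarith
    exact (mul_eq_zero.1 h1).resolve_right hQ0pos.ne'
  rw [hA0] at halim
  -- membership predicate
  let P : ℕ → ℝ → ℝ → Prop := fun n α β =>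
    α • ((z, 1) : (ℝ × ℝ) × ℝ) + β • ((γ (s n), 0) : (ℝ × ℝ) × ℝ) ∈ K
  have hstep : ∀ n, ∀ α β : ℝ, 0 < α → |β| ≤ t₁ * α → (P n α β ↔ P n (α + 2 * a n) (β + 2 * b n)) := by
    intro n α β hα hβ
    have hcen := h.cen z (γ (s n))
    have e : ∀ σ : ℝ, (σ * α) • ((z, 1) : (ℝ × ℝ) × ℝ) + (σ * β) • ((γ (s n), 0) : (ℝ × ℝ) × ℝ) =
        σ • (α • ((z + (β / α) • γ (s n), 1) : (ℝ × ℝ) × ℝ)) := by
      intro σ
      simp only [Prod.smul_mk, Prod.mk_add_mk, smul_eq_mul, mul_zero, add_zero, smul_add, smul_smul]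
      rw [mul_assoc, mul_div_cancel₀ _ hα.ne', mul_one]
    have hw : z + (β / α) • γ (s n) ∈ ball (0 : ℝ × ℝ) r := by
      apply mem_ball_add hG hz (hGb _ (hsIcc n))
      rw [abs_div, abs_of_pos hα, div_le_iff₀ hα]
      exact hβ
    have e1 := e 1
    have e2 := e (-1)
    rw [one_mul, one_mul, one_smul] at e1
    have m1 : P n α β ↔ α * qf K (z + (β / α) • γ (s n)) ≤ 1 := by
      change α • ((z, 1) : (ℝ × ℝ) × ℝ) + β • ((γ (s n), 0) : (ℝ × ℝ) × ℝ) ∈ K ↔ _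
      rw [e1, mem_chart hK _ hα.le]
    have m2 : P n (-1 * α) (-1 * β) ↔ α * qf (-K) (z + (β / α) • γ (s n)) ≤ 1 := by
      change (-1 * α) • ((z, 1) : (ℝ × ℝ) × ℝ) + (-1 * β) • ((γ (s n), 0) : (ℝ × ℝ) × ℝ) ∈ K ↔ _
      rw [e2, ← mem_chart hK.neg _ hα.le, Set.mem_neg, neg_smul, one_smul]
    rw [m1, ← hratio _ hw, ← m2]
    have m3 := hcen.iff (-1 * α) (-1 * β)
    change ((-1 * α) • ((z, 1) : (ℝ × ℝ) × ℝ) + (-1 * β) • ((γ (s n), 0) : (ℝ × ℝ) × ℝ) ∈ K ↔ _)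
    rw [m3]
    have e3 : 2 * A z (γ (s n)) - -1 * α = α + 2 * a n := by simp only [ha]; ring
    have e4 : 2 * B z (γ (s n)) - -1 * β = β + 2 * b n := by simp only [hb]; ring
    rw [e3, e4]
  have hX : ∀ n, P n Q0⁻¹ 0 := by
    intro n
    change Q0⁻¹ • ((z, 1) : (ℝ × ℝ) × ℝ) + (0 : ℝ) • ((γ (s n), 0) : (ℝ × ℝ) × ℝ) ∈ K
    rw [zero_smul, add_zero, mem_chart hK z (by positivity), inv_mul_cancel₀ hQ0pos.ne']
  have hX' : ∀ n, ∀ η : ℝ, 0 < η → ¬ P n (Q0⁻¹ + η) 0 := by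
    intro n η hη
    change ¬ ((Q0⁻¹ + η) • ((z, 1) : (ℝ × ℝ) × ℝ) + (0 : ℝ) • ((γ (s n), 0) : (ℝ × ℝ) × ℝ) ∈ K)
    rw [zero_smul, add_zero, mem_chart hK z (by positivity), add_mul, inv_mul_cancel₀ hQ0pos.ne']
    have : 0 < η * qf K z := by positivity
    linarith
  -- points after integer translations
  have hshift : ∀ n : ℕ, ∀ m : ℤ, 0 < Q0⁻¹ + 2 * (m * a n) →
      |2 * (m * b n)| ≤ t₁ * (Q0⁻¹ + 2 * (m * a n)) →
      P n (Q0⁻¹ + 2 * (m * a n)) (2 * (m * b n)) ∧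
        ∀ η : ℝ, 0 < η → ¬ P n (Q0⁻¹ + 2 * (m * a n) + η) (2 * (m * b n)) := by
    intro n m h1 h2
    have hQi : 0 < Q0⁻¹ := by positivity
    constructor
    · have := (shift_int (hstep n) m (α := Q0⁻¹) (β := 0) hQi (by simp; positivity) h1
        (by rw [zero_add]; exact h2)).1 (hX n)
      rwa [zero_add] at this
    · intro η hη hcon
      apply hX' n η hη
      have := (shift_int (hstep n) m (α := Q0⁻¹ + η) (β := 0) (by positivity)
        (by simp; positivity) (by linarith) (by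
          rw [zero_add]
          refine h2.trans ?_
          apply mul_le_mul_of_nonneg_left _ ht₁pos.le
          linarith)).2 (by
          rw [zero_add, show Q0⁻¹ + η + 2 * (m * a n) = Q0⁻¹ + 2 * (m * a n) + η by ring]
          exact hcon)
      exact this
  -- ratio bound
  have hev0 : ∀ᶠ n in atTop, 0 < Q0⁻¹ + 2 * a n ∧ |2 * b n| ≤ t₁ * (Q0⁻¹ + 2 * a n) := by
    have l1 : Tendsto (fun n => Q0⁻¹ + 2 * a n) atTop (𝓝 (Q0⁻¹ + 2 * 0)) :=
      (halim.const_mul 2).const_add _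
    have l2 : Tendsto (fun n => |2 * b n|) atTop (𝓝 |2 * 0|) := (hblim.const_mul 2).abs
    have l3 : Tendsto (fun n => t₁ * (Q0⁻¹ + 2 * a n)) atTop (𝓝 (t₁ * (Q0⁻¹ + 2 * 0))) :=
      l1.const_mul t₁
    have hQi : 0 < Q0⁻¹ := by positivity
    have f1 := l1.eventually (lt_mem_nhds (show (0 : ℝ) < Q0⁻¹ + 2 * 0 by linarith))
    have f2 := l2.eventually_lt l3 (by simp; positivity)
    filter_upwards [f1, f2] with n g1 g2 using ⟨g1, g2.le⟩
  have hratioab : ∀ᶠ n in atTop, |a n / b n| ≤ C' := by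
    filter_upwards [hev0] with n hn
    obtain ⟨g1, g2⟩ := hn
    have h1 := hshift n 1 (by simpa using g1) (by simpa using g2)
    simp only [Int.cast_one, one_mul] at h1
    have h2 := boundary_eq hK g1 h1.1 (fun η hη hcon => h1.2 η hη (interior_subset hcon))
    set hh := Q0⁻¹ + 2 * a n with hhh
    have hw : z + (2 * b n / hh) • γ (s n) ∈ ball (0 : ℝ × ℝ) r := by
      apply mem_ball_add hG hz (hGb _ (hsIcc n))
      rw [abs_div, abs_of_pos g1, div_le_iff₀ g1]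
      exact g2
    have h3 := (lipschitzOnWith_iff_dist_le_mul.1 hL) _ hw _ hzr
    rw [Real.dist_eq, dist_eq_norm, add_sub_cancel_left, norm_smul, Real.norm_eq_abs] at h3
    have h4 : qf K (z + (2 * b n / hh) • γ (s n)) = hh⁻¹ := by
      rw [eq_comm, inv_eq_of_mul_eq_one_right h2]
    rw [h4] at h3
    have h5 : hh⁻¹ - qf K z = -(2 * a n * Q0) / hh := by
      rw [eq_div_iff g1.ne', sub_mul, inv_mul_cancel₀ g1.ne', ← hQ0def, hhh, mul_add,
        mul_inv_cancel₀ hQ0pos.ne']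
      ring
    rw [h5, abs_div, abs_neg, abs_mul, abs_mul, abs_of_pos hQ0pos, abs_of_pos g1, abs_div,
      abs_of_pos g1, abs_mul] at h3
    have h6 : |(2 : ℝ)| = 2 := abs_of_pos two_pos
    rw [h6] at h3
    have h7 : 2 * |a n| * Q0 ≤ C * (2 * |b n| * G) := by
      have h8 : C * (2 * |b n| / hh * ‖γ (s n)‖) ≤ C * (2 * |b n| / hh * G) := by
        gcongr
        exact hGb _ (hsIcc n)
      have h9 := h3.trans h8
      rw [div_le_iff₀ g1] at h9
      have h10 : C * (2 * |b n| / hh * G) * hh = C * (2 * |b n| * G) := by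
        field_simp
      rwa [h10] at h9
    have hbpos : 0 < |b n| := abs_pos.2 (hb0 n)
    rw [abs_div, div_le_iff₀ hbpos, hC']
    have h8 : |a n| * q₀ ≤ C * G * |b n| := by
      have : |a n| * q₀ ≤ |a n| * Q0 := by
        gcongr
        exact hQ0 z hzr
      linarith
    rw [div_mul_eq_mul_div, le_div_iff₀ hq₀pos]
    exact h8
  -- limit ratio
  obtain ⟨N, hN⟩ := Filter.eventually_atTop.1 hratioab
  obtain ⟨κ, hκ, φ, hφ, hκlim⟩ := (isCompact_Icc (a := -C') (b := C')).tendsto_subseq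
    (x := fun n => a (n + N) / b (n + N)) (fun n => abs_le.1 (hN _ (by omega)))
  have hκabs : |κ| ≤ C' := abs_le.2 hκ
  -- indices
  set ψ : ℕ → ℕ := fun n => φ n + N with hψ
  have hψlim : Tendsto ψ atTop atTop := (tendsto_add_atTop_nat N).comp hφ.tendsto_atTop
  have hbψ : Tendsto (fun n => b (ψ n)) atTop (𝓝 0) := hblim.comp hψlim
  have hγψ : Tendsto (fun n => γ (s (ψ n))) atTop (𝓝 (γ s₁)) := hγlim.comp hψlim
  have hκψ : Tendsto (fun n => a (ψ n) / b (ψ n)) atTop (𝓝 κ) := hκlim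
  -- the limit points
  have hmain : ∀ τ : ℝ, |τ| ≤ τ₀ → 0 < Q0⁻¹ + κ * τ ∧
      (Q0⁻¹ + κ * τ) * qf K (z + (τ / (Q0⁻¹ + κ * τ)) • γ s₁) = 1 := by
    intro τ hτ
    set m : ℕ → ℤ := fun n => ⌊τ / (2 * b (ψ n))⌋ with hm
    have hmb : ∀ n, |2 * (m n * b (ψ n)) - τ| ≤ 2 * |b (ψ n)| := by
      intro n
      have hbn := hb0 (ψ n)
      have h1 : |(m n : ℝ) - τ / (2 * b (ψ n))| ≤ 1 := by
        rw [abs_le]
        have := Int.floor_le (τ / (2 * b (ψ n)))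
        have := Int.lt_floor_add_one (τ / (2 * b (ψ n)))
        constructor <;> simp only [hm] <;> linarith
      have h2 : 2 * (m n * b (ψ n)) - τ = 2 * b (ψ n) * ((m n : ℝ) - τ / (2 * b (ψ n))) := by
        field_simp
      rw [h2, abs_mul, abs_mul, abs_of_pos (two_pos : (0 : ℝ) < 2)]
      calc 2 * |b (ψ n)| * |(m n : ℝ) - τ / (2 * b (ψ n))| ≤ 2 * |b (ψ n)| * 1 := by gcongr
        _ = _ := mul_one _
    have l1 : Tendsto (fun n => 2 * (m n * b (ψ n))) atTop (𝓝 τ) := by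
      rw [tendsto_iff_dist_tendsto_zero]
      apply squeeze_zero (fun n => dist_nonneg) (g := fun n => 2 * |b (ψ n)|)
      · intro n; rw [Real.dist_eq]; exact hmb n
      · have := (hbψ.abs).const_mul 2
        simpa using this
    have l2 : Tendsto (fun n => 2 * (m n * a (ψ n))) atTop (𝓝 (κ * τ)) := by
      have h1 := hκψ.mul l1
      refine h1.congr ?_
      intro n
      have := hb0 (ψ n)
      field_simp
    have hsmall : ∀ᶠ n in atTop, 2 * |b (ψ n)| ≤ τ₀ := by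
      have h1 : Tendsto (fun n => 2 * |b (ψ n)|) atTop (𝓝 0) := by
        have := (hbψ.abs).const_mul 2
        simpa using this
      filter_upwards [h1.eventually (gt_mem_nhds hτ₀pos)] with n hn using hn.le
    have hcone : ∀ᶠ n in atTop, 0 < Q0⁻¹ + 2 * (m n * a (ψ n)) ∧
        |2 * (m n * b (ψ n))| ≤ t₁ * (Q0⁻¹ + 2 * (m n * a (ψ n))) := by
      filter_upwards [hsmall] with n hn
      have h1 : |2 * (m n * b (ψ n))| ≤ 2 * τ₀ := by
        calc |2 * (m n * b (ψ n))| = |(2 * (m n * b (ψ n)) - τ) + τ| := by congr 1; ring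
          _ ≤ |2 * (m n * b (ψ n)) - τ| + |τ| := abs_add_le _ _
          _ ≤ 2 * τ₀ := by linarith [hmb n]
      have h2 : |2 * (m n * a (ψ n))| ≤ C' * (2 * τ₀) := by
        have e : 2 * (m n * a (ψ n)) = a (ψ n) / b (ψ n) * (2 * (m n * b (ψ n))) := by
          have := hb0 (ψ n); field_simp
        rw [e, abs_mul]
        apply mul_le_mul (hN _ _) h1 (abs_nonneg _) hC'0
        simp only [hψ]; omega
      have h3 : 1 / q₁ ≤ Q0⁻¹ := by
        rw [inv_eq_one_div]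
        exact one_div_le_one_div_of_le hQ0pos (hQ1 z hzr)
      have h4 : 1 / (2 * q₁) ≤ Q0⁻¹ + 2 * (m n * a (ψ n)) := by
        have := (abs_le.1 h2).1
        have e : 1 / q₁ = 1 / (2 * q₁) + 1 / (2 * q₁) := by field_simp; norm_num
        linarith
      refine ⟨lt_of_lt_of_le (by positivity) h4, h1.trans (hτ₀b.trans ?_)⟩
      gcongr
    have hlimcone : 1 / (2 * q₁) ≤ Q0⁻¹ + κ * τ := by
      have h2 : |κ * τ| ≤ C' * τ₀ := by
        rw [abs_mul]; exact mul_le_mul hκabs hτ (abs_nonneg _) hC'0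
      have h3 : 1 / q₁ ≤ Q0⁻¹ := by
        rw [inv_eq_one_div]
        exact one_div_le_one_div_of_le hQ0pos (hQ1 z hzr)
      have := (abs_le.1 h2).1
      have e : 1 / q₁ = 1 / (2 * q₁) + 1 / (2 * q₁) := by field_simp; norm_num
      have h5 : C' * τ₀ ≤ 2 * C' * τ₀ := by nlinarith [mul_nonneg hC'0 hτ₀pos.le]
      linarith
    have hpos : 0 < Q0⁻¹ + κ * τ := lt_of_lt_of_le (by positivity) hlimcone
    refine ⟨hpos, ?_⟩
    have hlimpt : ∀ η : ℝ, Tendsto (fun n => (Q0⁻¹ + 2 * (m n * a (ψ n)) + η) •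
        ((z, 1) : (ℝ × ℝ) × ℝ) + (2 * (m n * b (ψ n))) • ((γ (s (ψ n)), 0) : (ℝ × ℝ) × ℝ)) atTop
        (𝓝 ((Q0⁻¹ + κ * τ + η) • ((z, 1) : (ℝ × ℝ) × ℝ) +
          τ • ((γ s₁, 0) : (ℝ × ℝ) × ℝ))) := by
      intro η
      apply Tendsto.add
      · exact ((l2.const_add _).add_const η).smul_const _
      · exact l1.smul (hγψ.prodMk_nhds tendsto_const_nhds)
    apply boundary_eq hK hpos
    · have h1 := hlimpt 0
      simp only [add_zero] at h1
      refine hK.compact.isClosed.mem_of_tendsto h1 ?_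
      filter_upwards [hcone] with n hn
      exact (hshift (ψ n) (m n) hn.1 hn.2).1
    · intro η hη hcon
      have h1 := (hlimpt η).eventually (isOpen_interior.mem_nhds hcon)
      obtain ⟨n, hn1, hn2⟩ := (h1.and hcone).exists
      exact (hshift (ψ n) (m n) hn2.1 hn2.2).2 η hη (interior_subset hn1)
  refine ⟨s₁, hs₁, hs₁B, -(κ * Q0), ?_⟩
  intro t ht
  have ht1 : |t| ≤ 1 / (2 * (C' + 1)) := ht.trans (min_le_left _ _)
  have ht2 : |t| ≤ q₀ * τ₀ / 2 := ht.trans (min_le_right _ _)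
  have hκt : |κ * t| ≤ 1 / 2 := by
    rw [abs_mul]
    calc |κ| * |t| ≤ C' * (1 / (2 * (C' + 1))) := by gcongr
      _ = (C' / (C' + 1)) * (1 / 2) := by field_simp
      _ ≤ 1 * (1 / 2) := by
          gcongr
          rw [div_le_one (by positivity)]; linarith
      _ = _ := one_mul _
  have h1κ : 1 / 2 ≤ 1 - κ * t := by linarith [(abs_le.1 hκt).2]
  have h1κpos : 0 < 1 - κ * t := by linarith
  set τ := t / (Q0 * (1 - κ * t)) with hτdef
  have hτ : |τ| ≤ τ₀ := by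
    rw [hτdef, abs_div, abs_of_pos (show 0 < Q0 * (1 - κ * t) by positivity),
      div_le_iff₀ (by positivity)]
    have h3 : q₀ * (1 / 2) ≤ Q0 * (1 - κ * t) :=
      mul_le_mul (hQ0 z hzr) h1κ (by norm_num) hQ0pos.le
    calc |t| ≤ q₀ * τ₀ / 2 := ht2
      _ = τ₀ * (q₀ * (1 / 2)) := by ring
      _ ≤ τ₀ * (Q0 * (1 - κ * t)) := by gcongr
  obtain ⟨hp, hmain'⟩ := hmain τ hτ
  have e1 : Q0⁻¹ + κ * τ = (Q0 * (1 - κ * t))⁻¹ := by
    rw [hτdef]
    field_simp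
    ring
  have e2 : τ / (Q0⁻¹ + κ * τ) = t := by
    rw [e1, hτdef, div_inv_eq_mul, div_mul_cancel₀ _ (by positivity)]
  rw [e2, e1, inv_mul_eq_one₀ (by positivity)] at hmain'
  rw [← hmain']
  ring

end Pool.Agent.Lib.MP_f7db8a
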