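import Pool.Agent.Lib.MP_f7db8a.Defs
import Pool.Agent.Lib.MP_f7db8a.Funk3

set_option autoImplicit false
set_option linter.unusedSectionVars false

/-!
# The dichotomy `L = K` or `L = -K`
-/

namespace Pool.Agent.Lib.MP_f7db8a

open Module Set MeasureTheory
open scoped RealInnerProductSpace ENNReal

universe u

section abstractE

variable {E : Type u} [NormedAddCommGroup E] [InnerProductSpace ℝ E] [FiniteDimensional ℝ E]

/-- abstract dichotomy -/
theorem tr_dicho {k : ℕ} (hk : 2 ≤ k) (hkn : k < finrank ℝ E) {K L : Set E} (hK : SB K)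
    (hL : SB L) (h : Tr k K L) : (∀ p : E, (p ∈ L ↔ p ∈ K)) ∨ (∀ p : E, (p ∈ L ↔ -p ∈ K)) := by
  let _ : MeasurableSpace E := borel E
  have : BorelSpace E := ⟨rfl⟩
  have hrad : ∀ x : E, x ≠ 0 → (rad L x = rad K x ∧ rad L (-x) = rad K (-x)) ∨
      (rad L x = rad K (-x) ∧ rad L (-x) = rad K x) := by
    intro x hx
    exact pair_eq_of_pow hk (rad_nonneg K x) (rad_nonneg K (-x)) (rad_nonneg L x)
      (rad_nonneg L (-x)) (sum_rad_eq hK hL (by omega) hkn h hx).symm
      (pow_sum_eq hkn hK hL h hx).symm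
  apply global_dicho hk hkn.le
  intro S hS
  obtain ⟨y, hy, hyL⟩ := h S hS
  exact section_dicho hK S (swap_of_rad hK hL hrad) hy hyL

end abstractE

section euclid

variable {n : ℕ}

theorem IsStarBody.sb (hn : 0 < n) {K : Set (EuclideanSpace ℝ (Fin n))} (hK : IsStarBody K) :
    SB K := by
  obtain ⟨hcomp, hstar, hpos, hcont⟩ := hK
  have : Nonempty (Fin n) := ⟨⟨0, hn⟩⟩
  have hnt : Nontrivial (EuclideanSpace ℝ (Fin n)) := inferInstance
  -- membership criterion
  have hmem : ∀ y : EuclideanSpace ℝ (Fin n), y ≠ 0 →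
      ‖y‖ < sSup {t : ℝ | 0 ≤ t ∧ t • (‖y‖⁻¹ • y) ∈ K} → y ∈ K := by
    intro y hy hlt
    have hypos : 0 < ‖y‖ := norm_pos_iff.2 hy
    have hne : {t : ℝ | 0 ≤ t ∧ t • (‖y‖⁻¹ • y) ∈ K}.Nonempty := by
      by_contra hcon
      rw [not_nonempty_iff_eq_empty] at hcon
      rw [hcon, Real.sSup_empty] at hlt
      linarith
    obtain ⟨t, ⟨ht0, htK⟩, htlt⟩ := exists_lt_of_lt_csSup hne hlt
    have htpos : 0 < t := hypos.trans htlt
    have h1 := hstar htK (show (0 : ℝ) ≤ 1 - ‖y‖ / t by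
      rw [sub_nonneg, div_le_one htpos]; exact htlt.le) (show 0 ≤ ‖y‖ / t by positivity) (by ring)
    rw [smul_zero, zero_add, smul_smul, div_mul_cancel₀ _ htpos.ne', smul_smul,
      mul_inv_cancel₀ hypos.ne', one_smul] at h1
    exact h1
  have hsph : ∀ y : EuclideanSpace ℝ (Fin n), y ≠ 0 → ‖y‖⁻¹ • y ∈
      Metric.sphere (0 : EuclideanSpace ℝ (Fin n)) 1 := by
    intro y hy
    rw [mem_sphere_zero_iff_norm, norm_smul, norm_inv, norm_norm,
      inv_mul_cancel₀ (norm_ne_zero_iff.2 hy)]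
  -- `K` is nonempty
  obtain ⟨w, hw⟩ := exists_ne (0 : EuclideanSpace ℝ (Fin n))
  have hKne : K.Nonempty := by
    have h1 := hpos _ (hsph w hw)
    have hne : {t : ℝ | 0 ≤ t ∧ t • (‖w‖⁻¹ • w) ∈ K}.Nonempty := by
      by_contra hcon
      rw [not_nonempty_iff_eq_empty] at hcon
      rw [hcon, Real.sSup_empty] at h1
      exact lt_irrefl _ h1
    obtain ⟨t, _, ht⟩ := hne
    exact ⟨_, ht⟩
  have h0K : (0 : EuclideanSpace ℝ (Fin n)) ∈ K := by
    obtain ⟨x, hx⟩ := hKne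
    have := hstar hx (show (0 : ℝ) ≤ 1 by norm_num) (show (0 : ℝ) ≤ 0 from le_rfl) (by norm_num)
    simpa using this
  -- `0` is an interior point
  have h0int : (0 : EuclideanSpace ℝ (Fin n)) ∈ interior K := by
    have hcs : IsCompact (Metric.sphere (0 : EuclideanSpace ℝ (Fin n)) 1) := isCompact_sphere _ _
    obtain ⟨u₀, hu₀, hmin⟩ := hcs.exists_isMinOn ⟨_, hsph w hw⟩ hcont
    rw [mem_interior_iff_mem_nhds, Metric.mem_nhds_iff]
    refine ⟨_, hpos u₀ hu₀, ?_⟩
    intro y hy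
    rw [mem_ball_zero_iff] at hy
    rcases eq_or_ne y 0 with rfl | hy0
    · exact h0K
    · exact hmem y hy0 (lt_of_lt_of_le hy (hmin (hsph y hy0)))
  refine ⟨hcomp, hKne, ?_⟩
  intro x hx t ht0 ht1
  rcases eq_or_ne x 0 with rfl | hx0
  · rw [smul_zero]; exact h0int
  · rcases ht0.eq_or_lt with h | htpos
    · rw [← h, zero_smul]; exact h0int
    have hxpos : 0 < ‖x‖ := norm_pos_iff.2 hx0
    have htx0 : t • x ≠ 0 := smul_ne_zero htpos.ne' hx0
    -- the radial function at the direction of `x` is at least `‖x‖`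
    have hbdd : BddAbove {s : ℝ | 0 ≤ s ∧ s • (‖x‖⁻¹ • x) ∈ K} := by
      obtain ⟨R, hR⟩ := hcomp.isBounded.exists_norm_le
      refine ⟨R, ?_⟩
      rintro s ⟨hs0, hs⟩
      have := hR _ hs
      rw [norm_smul, mem_sphere_zero_iff_norm.1 (hsph x hx0), mul_one,
        Real.norm_of_nonneg hs0] at this
      exact this
    have hge : ‖x‖ ≤ sSup {s : ℝ | 0 ≤ s ∧ s • (‖x‖⁻¹ • x) ∈ K} := by
      apply le_csSup hbdd
      refine ⟨norm_nonneg x, ?_⟩
      rw [smul_smul, mul_inv_cancel₀ hxpos.ne', one_smul]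
      exact hx
    -- continuity at `t • x`
    have hdir : ‖t • x‖⁻¹ • (t • x) = ‖x‖⁻¹ • x := by
      rw [norm_smul, Real.norm_of_nonneg ht0, smul_smul]
      congr 1
      field_simp
    have hlt : ‖t • x‖ < sSup {s : ℝ | 0 ≤ s ∧ s • (‖t • x‖⁻¹ • (t • x)) ∈ K} := by
      rw [hdir, norm_smul, Real.norm_of_nonneg ht0]
      nlinarith
    have hcontAt : ContinuousAt (fun y : EuclideanSpace ℝ (Fin n) =>
        sSup {s : ℝ | 0 ≤ s ∧ s • (‖y‖⁻¹ • y) ∈ K}) (t • x) := by
      have h1 : ContinuousOn (fun y : EuclideanSpace ℝ (Fin n) => ‖y‖⁻¹ • y) {0}ᶜ := by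
        intro y hy
        apply ContinuousAt.continuousWithinAt
        exact ((continuous_norm.continuousAt).inv₀ (norm_ne_zero_iff.2 hy)).smul continuousAt_id
      have h2 := hcont.comp h1 (fun y hy => hsph y hy)
      exact (h2.continuousAt (isOpen_compl_singleton.mem_nhds htx0))
    have hev : ∀ᶠ y in nhds (t • x), ‖y‖ < sSup {s : ℝ | 0 ≤ s ∧ s • (‖y‖⁻¹ • y) ∈ K} :=
      (continuous_norm.continuousAt).eventually_lt hcontAt hlt
    rw [mem_interior_iff_mem_nhds]
    filter_upwards [hev, isOpen_ne.mem_nhds htx0] with y hy hy0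
    exact hmem y hy0 hy

theorem SB.isStarBody {K : Set (EuclideanSpace ℝ (Fin n))} (hK : SB K) : IsStarBody K := by
  refine ⟨hK.compact, ?_, ?_, ?_⟩
  · rw [starConvex_zero_iff]
    intro x hx a ha0 ha1
    exact hK.smul_mem hx ha0 ha1
  · intro u hu
    have hu0 : u ≠ 0 := by
      rintro rfl
      rw [mem_sphere_zero_iff_norm, norm_zero] at hu
      exact one_ne_zero hu.symm
    exact hK.rad_pos hu0
  · intro u hu
    have hu0 : u ≠ 0 := by
      rintro rfl
      rw [mem_sphere_zero_iff_norm, norm_zero] at hu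
      exact one_ne_zero hu.symm
    exact (hK.continuousAt_rad hu0).continuousWithinAt

theorem tr_of_translateSections {k : ℕ} {K L : Set (EuclideanSpace ℝ (Fin n))} (hK : SB K)
    (h : TranslateSections k K L) : Tr k K L := by
  intro T hT
  obtain ⟨x, hx⟩ := h T hT
  have hxT : x ∈ L ∩ (T : Set (EuclideanSpace ℝ (Fin n))) := by
    rw [hx]
    exact ⟨0, ⟨hK.zero_mem, T.zero_mem⟩, zero_add x⟩
  refine ⟨x, hxT.2, ?_⟩
  intro p hp
  constructor
  · intro hpL
    have : p ∈ L ∩ (T : Set (EuclideanSpace ℝ (Fin n))) := ⟨hpL, hp⟩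
    rw [hx] at this
    obtain ⟨q, ⟨hqK, _⟩, hq⟩ := this
    have : p - x = q := by rw [← hq]; simp
    rw [this]; exact hqK
  · intro hpK
    have : p ∈ (fun y => y + x) '' (K ∩ (T : Set (EuclideanSpace ℝ (Fin n)))) :=
      ⟨p - x, ⟨hpK, T.sub_mem hp hxT.2⟩, sub_add_cancel p x⟩
    rw [← hx] at this
    exact this.1

/-- **The dichotomy.** -/
theorem dichotomy {k : ℕ} (hk : 2 ≤ k) (hkn : k < n) {K L : Set (EuclideanSpace ℝ (Fin n))}
    (hK : IsStarBody K) (hL : IsStarBody L) (h : TranslateSections k K L) :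
    L = K ∨ (L = -K ∧ SymmetricSections k K) := by
  have hn : 0 < n := by omega
  have hfin : finrank ℝ (EuclideanSpace ℝ (Fin n)) = n := by simp
  rcases tr_dicho hk (by rw [hfin]; exact hkn) (hK.sb hn) (hL.sb hn)
    (tr_of_translateSections (hK.sb hn) h) with h1 | h1
  · left
    ext p
    exact h1 p
  · right
    refine ⟨?_, ?_⟩
    · ext p
      rw [h1 p, Set.mem_neg]
    · intro S hS
      obtain ⟨y, hy, hyL⟩ := tr_of_translateSections (hK.sb hn) h S hS
      refine ⟨-((1 / 2 : ℝ) • y), ?_⟩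
      rintro p ⟨hpK, hpS⟩
      have e : (2 : ℝ) • (-((1 / 2 : ℝ) • y)) - p = -p - y := by
        rw [smul_neg, smul_smul]; norm_num; abel
      rw [e]
      refine ⟨?_, S.sub_mem (S.neg_mem hpS) hy⟩
      rw [← hyL (-p) (S.neg_mem hpS), h1 (-p), neg_neg]
      exact hpK

end euclid

end Pool.Agent.Lib.MP_f7db8a
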