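import Pool.Agent.Lib.MP_f7db8a.QDefs

set_option autoImplicit false

/-!
# The homothety of a plane section is determined by extents, and depends continuously on it
-/

namespace Pool.Agent.Lib.MP_f7db8a.Q

open Module Set Filter Topology Metric
open scoped NNReal

section q1

variable {E : Type*} [NormedAddCommGroup E] [NormedSpace ℝ E]

theorem comb_ne {X Y : E} (h : Ind X Y) (θ : ℝ) : Real.cos θ • X + Real.sin θ • Y ≠ 0 := by
  intro h0
  obtain ⟨h1, h2⟩ := h _ _ h0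
  have := Real.cos_sq_add_sin_sq θ
  rw [h1, h2] at this
  norm_num at this

theorem Ind_neg_right {X Y : E} (h : Ind X Y) : Ind X (-Y) := by
  intro s t hst
  have h1 : s • X + (-t) • Y = 0 := by rw [neg_smul, ← smul_neg]; exact hst
  obtain ⟨e1, e2⟩ := h _ _ h1
  exact ⟨e1, neg_eq_zero.1 e2⟩

theorem Ind_swap {X Y : E} (h : Ind X Y) : Ind Y X := by
  intro s t hst
  obtain ⟨e1, e2⟩ := h t s (by rw [add_comm]; exact hst)
  exact ⟨e2, e1⟩

theorem cont_f {K : Set E} (hK : SB K) {X Y : E} (h : Ind X Y) :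
    Continuous (fun θ : ℝ => Real.sin θ * rad K (Real.cos θ • X + Real.sin θ • Y)) := by
  rw [continuous_iff_continuousAt]
  intro θ
  refine Real.continuous_sin.continuousAt.mul ?_
  exact ContinuousAt.comp (f := fun θ : ℝ => Real.cos θ • X + Real.sin θ • Y) (g := rad K)
    (hK.continuousAt_rad (comb_ne h θ)) (by fun_prop)

theorem ext2_isGreatest {K : Set E} (hK : SB K) {X Y : E} (h : Ind X Y) :
    0 < ext2 K X Y ∧ (∃ α : ℝ, α • X + (ext2 K X Y) • Y ∈ K) ∧
      ∀ α β : ℝ, α • X + β • Y ∈ K → β ≤ ext2 K X Y := by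
  set f : ℝ → ℝ := fun θ : ℝ => Real.sin θ * rad K (Real.cos θ • X + Real.sin θ • Y) with hf
  have hcomp : IsCompact (Icc (0 : ℝ) (2 * Real.pi)) := isCompact_Icc
  have hne : (Icc (0 : ℝ) (2 * Real.pi)).Nonempty := ⟨0, by
    constructor
    · exact le_rfl
    · have := Real.pi_pos; linarith⟩
  obtain ⟨θ, hθ, hmax⟩ := hcomp.exists_sSup_image_eq hne (cont_f hK h).continuousOn
  have hbdd : BddAbove (f '' Icc 0 (2 * Real.pi)) := (hcomp.image (cont_f hK h)).bddAbove
  have hle : ∀ t ∈ Icc (0 : ℝ) (2 * Real.pi), f t ≤ ext2 K X Y := fun t ht =>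
    le_csSup hbdd ⟨t, ht, rfl⟩
  have hpos : 0 < ext2 K X Y := by
    have h1 := hle (Real.pi / 2) ⟨by positivity, by have := Real.pi_pos; linarith⟩
    have h2 : 0 < f (Real.pi / 2) :=
      mul_pos (by rw [Real.sin_pi_div_two]; exact one_pos) (hK.rad_pos (comb_ne h _))
    linarith
  refine ⟨hpos, ?_, ?_⟩
  · have hm := hK.rad_smul_mem (comb_ne h θ)
    refine ⟨rad K (Real.cos θ • X + Real.sin θ • Y) * Real.cos θ, ?_⟩
    have he : ext2 K X Y = Real.sin θ * rad K (Real.cos θ • X + Real.sin θ • Y) := hmax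
    rw [he]
    rw [smul_add, smul_smul, smul_smul] at hm
    rw [mul_comm (Real.sin θ)]
    exact hm
  · intro α β hm
    by_cases hβ : β ≤ 0
    · linarith
    push Not at hβ
    set r := Real.sqrt (α ^ 2 + β ^ 2) with hr
    have hsq : 0 < α ^ 2 + β ^ 2 := by positivity
    have hrpos : 0 < r := Real.sqrt_pos.2 hsq
    have hr2 : r ^ 2 = α ^ 2 + β ^ 2 := Real.sq_sqrt hsq.le
    set t := Real.arccos (α / r) with ht
    have hαr : |α| ≤ r := by
      apply Real.abs_le_sqrt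
      nlinarith [sq_nonneg β]
    have h1 : -1 ≤ α / r := by
      rw [le_div_iff₀ hrpos]; linarith [neg_abs_le α]
    have h2 : α / r ≤ 1 := by
      rw [div_le_one hrpos]; linarith [le_abs_self α]
    have hcos : Real.cos t = α / r := Real.cos_arccos h1 h2
    have hsin : Real.sin t = β / r := by
      rw [ht, Real.sin_arccos]
      have : 1 - (α / r) ^ 2 = (β / r) ^ 2 := by
        field_simp
        linarith
      rw [this, Real.sqrt_sq (by positivity)]
    have htI : t ∈ Icc (0 : ℝ) (2 * Real.pi) :=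
      ⟨Real.arccos_nonneg _, by have := Real.arccos_le_pi (α / r); have := Real.pi_pos; linarith⟩
    have hvec : α • X + β • Y = r • (Real.cos t • X + Real.sin t • Y) := by
      rw [hcos, hsin, smul_add, smul_smul, smul_smul, mul_div_cancel₀ _ hrpos.ne',
        mul_div_cancel₀ _ hrpos.ne']
    rw [hvec, hK.smul_mem_iff (comb_ne h t) hrpos.le] at hm
    have h3 : 0 ≤ Real.sin t := by rw [hsin]; positivity
    calc β = Real.sin t * r := by rw [hsin]; field_simp
      _ ≤ Real.sin t * rad K (Real.cos t • X + Real.sin t • Y) :=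
          mul_le_mul_of_nonneg_left hm h3
      _ ≤ ext2 K X Y := hle t htI

theorem H2_neg_right {K L : Set E} {X Y : E} {c a b : ℝ} (h : H2 K L X Y c a b) :
    H2 K L X (-Y) c a (-b) := by
  refine ⟨h.1, fun α β => ?_⟩
  have := h.2 α (-β)
  rw [show α • X + β • -Y = α • X + (-β) • Y by rw [smul_neg, neg_smul],
    show (c * α + a) • X + (c * β + -b) • -Y = (c * α + a) • X + (c * (-β) + b) • Y by
      rw [smul_neg, ← neg_smul]; congr 2; ring]
  exact this

theorem H2_swap {K L : Set E} {X Y : E} {c a b : ℝ} (h : H2 K L X Y c a b) :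
    H2 K L Y X c b a := by
  refine ⟨h.1, fun α β => ?_⟩
  rw [add_comm (α • Y), add_comm ((c * α + b) • Y)]
  exact h.2 β α

theorem ext2_H2 {K L : Set E} (hK : SB K) (hL : SB L) {X Y : E} (hXY : Ind X Y) {c a b : ℝ}
    (h : H2 K L X Y c a b) : ext2 L X Y = c * ext2 K X Y + b := by
  obtain ⟨-, ⟨α, hα⟩, h1⟩ := ext2_isGreatest hK hXY
  obtain ⟨-, ⟨α', hα'⟩, h2⟩ := ext2_isGreatest hL hXY
  apply le_antisymm
  · have h3 := (h.2 ((α' - a) / c) ((ext2 L X Y - b) / c)).2 (by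
      rw [mul_div_cancel₀ _ h.1.ne', mul_div_cancel₀ _ h.1.ne', sub_add_cancel, sub_add_cancel]
      exact hα')
    have h4 := h1 _ _ h3
    rw [div_le_iff₀ h.1] at h4
    linarith
  · exact h2 _ _ ((h.2 _ _).1 hα)

theorem H2.vals_cb {K L : Set E} (hK : SB K) (hL : SB L) {X Y : E} (hXY : Ind X Y) {c a b : ℝ}
    (h : H2 K L X Y c a b) : c = cc K L X Y ∧ b = bb K L X Y := by
  have e1 := ext2_H2 hK hL hXY h
  have e2 := ext2_H2 hK hL (Ind_neg_right hXY) (H2_neg_right h)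
  have p1 := (ext2_isGreatest hK hXY).1
  have p2 := (ext2_isGreatest hK (Ind_neg_right hXY)).1
  unfold cc bb
  rw [e1, e2, eq_div_iff (by positivity), eq_div_iff (by positivity)]
  constructor <;> ring

theorem H2.vals {K L : Set E} (hK : SB K) (hL : SB L) {X Y : E} (hXY : Ind X Y) {c a b : ℝ}
    (h : H2 K L X Y c a b) : c = cc K L X Y ∧ a = aa K L X Y ∧ b = bb K L X Y :=
  ⟨(H2.vals_cb hK hL hXY h).1, (H2.vals_cb hK hL (Ind_swap hXY) (H2_swap h)).2,
    (H2.vals_cb hK hL hXY h).2⟩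

theorem contOn_ext2 {K : Set E} (hK : SB K) :
    ContinuousOn (fun p : E × E => ext2 K p.1 p.2) {p | Ind p.1 p.2} := by
  rw [continuousOn_iff_continuous_domRestrict]
  have hcont : Continuous (fun q : {p : E × E | Ind p.1 p.2} × ℝ =>
      Real.sin q.2 * rad K (Real.cos q.2 • q.1.1.1 + Real.sin q.2 • q.1.1.2)) := by
    rw [continuous_iff_continuousAt]
    intro q
    refine (Real.continuous_sin.comp continuous_snd).continuousAt.mul ?_
    exact ContinuousAt.comp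
      (f := fun q : {p : E × E | Ind p.1 p.2} × ℝ =>
        Real.cos q.2 • q.1.1.1 + Real.sin q.2 • q.1.1.2) (g := rad K)
      (hK.continuousAt_rad (comb_ne q.1.2 q.2)) (by fun_prop)
  exact IsCompact.continuous_sSup (K := Icc (0 : ℝ) (2 * Real.pi))
    (f := fun (q : {p : E × E | Ind p.1 p.2}) (θ : ℝ) =>
      Real.sin θ * rad K (Real.cos θ • q.1.1 + Real.sin θ • q.1.2)) isCompact_Icc hcont

theorem Ind_nhds {X Y : E} (hXY : Ind X Y) : {p : E × E | Ind p.1 p.2} ∈ 𝓝 (X, Y) :=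
  hXY.eventually

theorem contAt_ext2 {K : Set E} (hK : SB K) {X Y : E} (hXY : Ind X Y) :
    ContinuousAt (fun p : E × E => ext2 K p.1 p.2) (X, Y) :=
  (contOn_ext2 hK).continuousAt (Ind_nhds hXY)

theorem contAt_ext2_neg {K : Set E} (hK : SB K) {X Y : E} (hXY : Ind X Y) :
    ContinuousAt (fun p : E × E => ext2 K p.1 (-p.2)) (X, Y) := by
  have h := contAt_ext2 hK (Ind_neg_right hXY)
  generalize hg : (fun p : E × E => ext2 K p.1 p.2) = g at h
  have h2 : (fun p : E × E => ext2 K p.1 (-p.2)) =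
      g ∘ (fun p : E × E => ((p.1, -p.2) : E × E)) := by
    subst hg; rfl
  rw [h2]
  exact ContinuousAt.comp (f := fun p : E × E => ((p.1, -p.2) : E × E)) (x := (X, Y)) h
    (Continuous.continuousAt (continuous_fst.prodMk continuous_snd.neg))

theorem cont_cc {K L : Set E} (hK : SB K) (hL : SB L) {X Y : E} (hXY : Ind X Y) :
    ContinuousAt (fun p : E × E => cc K L p.1 p.2) (X, Y) := by
  have k5 := ContinuousAt.add (contAt_ext2 hL hXY) (contAt_ext2_neg hL hXY)
  have k8 := ContinuousAt.add (contAt_ext2 hK hXY) (contAt_ext2_neg hK hXY)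
  have p1 := (ext2_isGreatest hK hXY).1
  have p2 := (ext2_isGreatest hK (Ind_neg_right hXY)).1
  exact ContinuousAt.div k5 k8 (add_pos p1 p2).ne'

theorem cont_bb {K L : Set E} (hK : SB K) (hL : SB L) {X Y : E} (hXY : Ind X Y) :
    ContinuousAt (fun p : E × E => bb K L p.1 p.2) (X, Y) := by
  have k5 := ContinuousAt.mul (contAt_ext2 hL hXY) (contAt_ext2_neg hK hXY)
  have k6 := ContinuousAt.mul (contAt_ext2 hK hXY) (contAt_ext2_neg hL hXY)
  have k7 := ContinuousAt.sub k5 k6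
  have k8 := ContinuousAt.add (contAt_ext2 hK hXY) (contAt_ext2_neg hK hXY)
  have p1 := (ext2_isGreatest hK hXY).1
  have p2 := (ext2_isGreatest hK (Ind_neg_right hXY)).1
  exact ContinuousAt.div k7 k8 (add_pos p1 p2).ne'

theorem cont_aa {K L : Set E} (hK : SB K) (hL : SB L) {X Y : E} (hXY : Ind X Y) :
    ContinuousAt (fun p : E × E => aa K L p.1 p.2) (X, Y) := by
  have h := cont_bb hK hL (Ind_swap hXY)
  exact ContinuousAt.comp (f := fun p : E × E => ((p.2, p.1) : E × E)) (x := (X, Y))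
    (g := fun p : E × E => bb K L p.1 p.2) h
    (Continuous.continuousAt (continuous_snd.prodMk continuous_fst))

end q1

variable {K L : Set W3} {C A B : ℝ × ℝ → ℝ × ℝ → ℝ}

/-- the chart data agree with the canonical ones -/
theorem Ctr2.eqs (hK : SB K) (hL : SB L) (h : Ctr2 K L C A B) {z d : ℝ × ℝ} (hd : d ≠ 0) :
    C z d = cc K L (z, 1) (d, 0) ∧ A z d = aa K L (z, 1) (d, 0) ∧
      B z d = bb K L (z, 1) (d, 0) :=
  (h.hom z d hd).vals hK hL (chart_ind z hd)

theorem chart_map_cont : Continuous (fun p : (ℝ × ℝ) × (ℝ × ℝ) =>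
    (((p.1, 1), (p.2, 0)) : W3 × W3)) := by fun_prop

theorem cont_chart {F : W3 × W3 → ℝ} {G : ℝ × ℝ → ℝ × ℝ → ℝ} {z d : ℝ × ℝ} (hd : d ≠ 0)
    (hF : ContinuousAt F ((z, 1), (d, 0)))
    (hG : ∀ z d : ℝ × ℝ, d ≠ 0 → G z d = F ((z, 1), (d, 0))) :
    ContinuousAt (fun p : (ℝ × ℝ) × (ℝ × ℝ) => G p.1 p.2) (z, d) := by
  have h1 : ContinuousAt (fun p : (ℝ × ℝ) × (ℝ × ℝ) => F ((p.1, 1), (p.2, 0))) (z, d) :=
    ContinuousAt.comp (f := fun p : (ℝ × ℝ) × (ℝ × ℝ) => (((p.1, 1), (p.2, 0)) : W3 × W3))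
      (x := (z, d)) (g := F) hF chart_map_cont.continuousAt
  apply h1.congr
  have h2 : ∀ᶠ p : (ℝ × ℝ) × (ℝ × ℝ) in 𝓝 (z, d), p.2 ≠ 0 :=
    ((isOpen_ne (x := (0 : ℝ × ℝ))).preimage
      (continuous_snd (X := ℝ × ℝ) (Y := ℝ × ℝ))).mem_nhds hd
  filter_upwards [h2] with p hp
  exact (hG p.1 p.2 hp).symm

theorem Ctr2.contC (hK : SB K) (hL : SB L) (h : Ctr2 K L C A B) {z d : ℝ × ℝ} (hd : d ≠ 0) :
    ContinuousAt (fun p : (ℝ × ℝ) × (ℝ × ℝ) => C p.1 p.2) (z, d) :=
  cont_chart hd (cont_cc hK hL (chart_ind z hd)) fun _ _ hd => (h.eqs hK hL hd).1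

theorem Ctr2.contA (hK : SB K) (hL : SB L) (h : Ctr2 K L C A B) {z d : ℝ × ℝ} (hd : d ≠ 0) :
    ContinuousAt (fun p : (ℝ × ℝ) × (ℝ × ℝ) => A p.1 p.2) (z, d) :=
  cont_chart hd (cont_aa hK hL (chart_ind z hd)) fun _ _ hd => (h.eqs hK hL hd).2.1

theorem Ctr2.contB (hK : SB K) (hL : SB L) (h : Ctr2 K L C A B) {z d : ℝ × ℝ} (hd : d ≠ 0) :
    ContinuousAt (fun p : (ℝ × ℝ) × (ℝ × ℝ) => B p.1 p.2) (z, d) :=
  cont_chart hd (cont_bb hK hL (chart_ind z hd)) fun _ _ hd => (h.eqs hK hL hd).2.2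

end Pool.Agent.Lib.MP_f7db8a.Q
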