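import Pool.Agent.Lib.MP_f7db8a.QDefs

set_option autoImplicit false

/-!
# Two star bodies with homothetic plane sections, general case: formal rules
-/

namespace Pool.Agent.Lib.MP_f7db8a.Q

open Module Set Filter Topology Metric
open scoped NNReal RealInnerProductSpace

section q1

variable {E : Type*} [NormedAddCommGroup E] [NormedSpace ℝ E]

theorem H2.inv {K L : Set E} {X Y : E} {c a b : ℝ} (h : H2 K L X Y c a b) :
    H2 L K X Y (1 / c) (-a / c) (-b / c) := by
  have hc := h.1
  refine ⟨one_div_pos.2 hc, fun α β => ?_⟩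
  have h1 := h.2 (1 / c * α + -a / c) (1 / c * β + -b / c)
  have e1 : c * (1 / c * α + -a / c) + a = α := by field_simp; ring
  have e2 : c * (1 / c * β + -b / c) + b = β := by field_simp; ring
  rw [e1, e2] at h1
  exact h1.symm

theorem H2.neg {K L : Set E} {X Y : E} {c a b : ℝ} (h : H2 K L X Y c a b) :
    H2 (-K) (-L) X Y c (-a) (-b) := by
  refine ⟨h.1, fun α β => ?_⟩
  rw [Set.mem_neg, Set.mem_neg]
  have h1 := h.2 (-α) (-β)
  have e1 : -(α • X + β • Y) = (-α) • X + (-β) • Y := by module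
  have e2 : -((c * α + -a) • X + (c * β + -b) • Y) =
      (c * (-α) + a) • X + (c * (-β) + b) • Y := by module
  rw [e1, e2]
  exact h1

theorem H2.neg_right {K L : Set E} {X Y : E} {c a b : ℝ} (h : H2 K L X Y c a b) :
    H2 K L X (-Y) c a (-b) := by
  refine ⟨h.1, fun α β => ?_⟩
  have h1 := h.2 α (-β)
  have e1 : α • X + β • (-Y) = α • X + (-β) • Y := by module
  have e2 : (c * α + a) • X + (c * β + -b) • (-Y) =
      (c * α + a) • X + (c * (-β) + b) • Y := by module
  rw [e1, e2]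
  exact h1

theorem H2.smul_right {K L : Set E} {X Y : E} {c a b s : ℝ} (h : H2 K L X Y c a b)
    (hs : s ≠ 0) : H2 K L X (s • Y) c a (b / s) := by
  refine ⟨h.1, fun α β => ?_⟩
  have h1 := h.2 α (β * s)
  have e1 : α • X + β • (s • Y) = α • X + (β * s) • Y := by rw [smul_smul]
  have e2 : (c * α + a) • X + (c * β + b / s) • (s • Y) =
      (c * α + a) • X + (c * (β * s) + b) • Y := by
    rw [smul_smul]
    congr 2
    field_simp
  rw [e1, e2]
  exact h1

theorem HH.symm {K L : Set E} (h : HH K L) : HH L K := by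
  intro X Y hXY
  obtain ⟨c, a, b, hh⟩ := h X Y hXY
  exact ⟨_, _, _, hh.inv⟩

/-- the boundary in terms of the plane -/
theorem rad_eq_one_iff97 {K : Set E} (hK : SB K) (X Y : E) (α β : ℝ) :
    rad K (α • X + β • Y) = 1 ↔ α • X + β • Y ∈ K ∧
      (α, β) ∉ interior {p : ℝ × ℝ | p.1 • X + p.2 • Y ∈ K} := by
  have hcont : Continuous (fun p : ℝ × ℝ => p.1 • X + p.2 • Y) := by fun_prop
  have hint : ∀ p : ℝ × ℝ, p.1 • X + p.2 • Y ∈ interior K →
      p ∈ interior {p : ℝ × ℝ | p.1 • X + p.2 • Y ∈ K} := by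
    intro p hp
    exact preimage_interior_subset_interior_preimage hcont hp
  constructor
  · intro h
    have hx : α • X + β • Y ≠ 0 := by
      intro h0
      rw [h0] at h
      have h2 : rad K (0 : E) = 0 := by
        unfold rad
        have : {t : ℝ | 0 ≤ t ∧ t • (0 : E) ∈ K} = Ici 0 := by
          ext t
          simp [hK.zero_mem]
        rw [this]
        apply Real.sSup_of_not_bddAbove
        exact not_bddAbove_Ici 0
      rw [h2] at h
      exact zero_ne_one h
    have h1 := hK.rad_smul_mem hx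
    rw [h, one_smul] at h1
    refine ⟨h1, fun hin => ?_⟩
    have hc : ContinuousAt (fun t : ℝ => ((t * α, t * β) : ℝ × ℝ)) 1 := by fun_prop
    have h2 : ∀ᶠ t : ℝ in 𝓝 1, ((t * α, t * β) : ℝ × ℝ) ∈
        interior {p : ℝ × ℝ | p.1 • X + p.2 • Y ∈ K} := by
      apply hc
      simpa using isOpen_interior.mem_nhds hin
    obtain ⟨ε, hε, h3⟩ := Metric.eventually_nhds_iff.1 h2
    have h4 := interior_subset (h3 (y := 1 + ε / 2) (by
      rw [Real.dist_eq, add_sub_cancel_left, abs_of_pos (by positivity)]; linarith))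
    have h5 : (1 + ε / 2) • (α • X + β • Y) ∈ K := by
      have e : (1 + ε / 2) • (α • X + β • Y) = ((1 + ε / 2) * α) • X + ((1 + ε / 2) * β) • Y := by
        module
      rw [e]
      exact h4
    have h6 := (hK.smul_mem_iff hx (by positivity)).1 h5
    rw [h] at h6
    linarith
  · rintro ⟨h1, h2⟩
    have hx : α • X + β • Y ≠ 0 := by
      intro h0
      exact h2 (hint (α, β) (by
        change α • X + β • Y ∈ interior K
        rw [h0]; exact hK.zero_mem_interior))
    have h3 : 1 ≤ rad K (α • X + β • Y) :=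
      (hK.smul_mem_iff hx zero_le_one).1 (by rwa [one_smul])
    refine le_antisymm ?_ h3
    by_contra hlt
    push Not at hlt
    have hpos : 0 < rad K (α • X + β • Y) := by linarith
    have h4 := hK.inter _ (hK.rad_smul_mem hx) (1 / rad K (α • X + β • Y)) (by positivity)
      ((div_lt_one hpos).2 hlt)
    rw [smul_smul, one_div_mul_cancel hpos.ne', one_smul] at h4
    exact h2 (hint (α, β) h4)

theorem H2.int97 {K L : Set E} {X Y : E} {c a b : ℝ}
    (h : H2 K L X Y c a b) (α β : ℝ)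
    (hp : ((c * α + a, c * β + b) : ℝ × ℝ) ∈ interior {p : ℝ × ℝ | p.1 • X + p.2 • Y ∈ L}) :
    ((α, β) : ℝ × ℝ) ∈ interior {p : ℝ × ℝ | p.1 • X + p.2 • Y ∈ K} := by
  have hcont : Continuous (fun p : ℝ × ℝ => ((c * p.1 + a, c * p.2 + b) : ℝ × ℝ)) := by fun_prop
  have h0 : ((α, β) : ℝ × ℝ) ∈ (fun p : ℝ × ℝ => ((c * p.1 + a, c * p.2 + b) : ℝ × ℝ)) ⁻¹'
      interior {p : ℝ × ℝ | p.1 • X + p.2 • Y ∈ L} := hp
  have h1 := preimage_interior_subset_interior_preimage hcont h0
  have e : (fun p : ℝ × ℝ => ((c * p.1 + a, c * p.2 + b) : ℝ × ℝ)) ⁻¹'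
      {p : ℝ × ℝ | p.1 • X + p.2 • Y ∈ L} = {p : ℝ × ℝ | p.1 • X + p.2 • Y ∈ K} := by
    ext p
    exact (h.2 p.1 p.2).symm
  rwa [e] at h1

/-- homotheties map relative boundaries to relative boundaries -/
theorem H2.bd {K L : Set E} (hK : SB K) (hL : SB L) {X Y : E} (hXY : Ind X Y) {c a b : ℝ}
    (h : H2 K L X Y c a b) (α β : ℝ) :
    rad K (α • X + β • Y) = 1 ↔ rad L ((c * α + a) • X + (c * β + b) • Y) = 1 := by
  rw [rad_eq_one_iff97 hK, rad_eq_one_iff97 hL]
  refine and_congr (h.2 α β) (not_congr ⟨fun h1 => ?_, fun h1 => h.int97 α β h1⟩)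
  apply h.inv.int97
  have hc := h.1
  have e1 : 1 / c * (c * α + a) + -a / c = α := by field_simp; ring
  have e2 : 1 / c * (c * β + b) + -b / c = β := by field_simp; ring
  rw [e1, e2]
  exact h1

/-- uniqueness of the data of the homothety in the second coordinate -/
theorem H2.unique97 {K L : Set E} (hK : SB K) {X Y : E} (hXY : Ind X Y) {c a b c' a' b' : ℝ}
    (h : H2 K L X Y c a b) (h' : H2 K L X Y c' a' b') : c = c' ∧ b = b' := by
  set S : Set ℝ := {β | ∃ α : ℝ, α • X + β • Y ∈ K} with hS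
  set S' : Set ℝ := {β | ∃ α : ℝ, α • X + β • Y ∈ L} with hS'
  have hSne : S.Nonempty := ⟨0, 0, by simpa using hK.zero_mem⟩
  obtain ⟨δ, hδ, hev⟩ := hXY.bound
  have hbd := hev.self_of_nhds
  obtain ⟨R, hR⟩ := hK.compact.isBounded.exists_norm_le
  have habs : ∀ β ∈ S, |β| ≤ R / δ := by
    rintro β ⟨α, hα⟩
    have h1 := hbd α β
    have h2 := hR _ hα
    have h3 : |β| ≤ ‖(α, β)‖ := norm_snd_le (α, β)
    rw [le_div_iff₀ hδ]
    have h4 : δ * |β| ≤ δ * ‖(α, β)‖ := mul_le_mul_of_nonneg_left h3 hδ.le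
    calc |β| * δ = δ * |β| := mul_comm _ _
      _ ≤ δ * ‖(α, β)‖ := h4
      _ ≤ ‖α • X + β • Y‖ := h1
      _ ≤ R := h2
  have hba : BddAbove S := ⟨R / δ, fun β hβ => (le_abs_self β).trans (habs β hβ)⟩
  have hbb : BddBelow S := ⟨-(R / δ), fun β hβ => neg_le_of_abs_le (habs β hβ)⟩
  obtain ⟨M, hM⟩ := hba
  have hM' := isLUB_csSup hSne ⟨M, hM⟩
  have hm' := isGLB_csInf hSne hbb
  have key : ∀ {c a b : ℝ}, H2 K L X Y c a b →
      IsLUB S' (c * sSup S + b) ∧ IsGLB S' (c * sInf S + b) := by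
    intro c a b h
    have hc := h.1
    have hmem : ∀ β ∈ S, c * β + b ∈ S' := by
      rintro β ⟨α, hα⟩
      exact ⟨c * α + a, (h.2 α β).1 hα⟩
    have hmem' : ∀ β ∈ S', (β - b) / c ∈ S := by
      rintro β ⟨α, hα⟩
      refine ⟨(α - a) / c, (h.2 _ _).2 ?_⟩
      have e1 : c * ((α - a) / c) + a = α := by field_simp; ring
      have e2 : c * ((β - b) / c) + b = β := by field_simp; ring
      rw [e1, e2]
      exact hα
    constructor
    · constructor
      · intro β hβ
        have h1 := hM'.1 (hmem' β hβ)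
        rw [div_le_iff₀ hc] at h1
        linarith
      · intro u hu
        have h1 : (u - b) / c ∈ upperBounds S := by
          intro β hβ
          have := hu (hmem β hβ)
          rw [le_div_iff₀ hc]
          linarith
        have h2 := hM'.2 h1
        rw [le_div_iff₀ hc] at h2
        linarith
    · constructor
      · intro β hβ
        have h1 := hm'.1 (hmem' β hβ)
        rw [le_div_iff₀ hc] at h1
        linarith
      · intro u hu
        have h1 : (u - b) / c ∈ lowerBounds S := by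
          intro β hβ
          have := hu (hmem β hβ)
          rw [div_le_iff₀ hc]
          linarith
        have h2 := hm'.2 h1
        rw [div_le_iff₀ hc] at h2
        linarith
  obtain ⟨k1, k2⟩ := key h
  obtain ⟨k3, k4⟩ := key h'
  have e1 := k1.unique k3
  have e2 := k2.unique k4
  have hY : Y ≠ 0 := hXY.ne_right
  have hpos : 0 < sSup S := by
    have h1 : rad K Y ∈ S := ⟨0, by simpa using hK.rad_smul_mem hY⟩
    exact (hK.rad_pos hY).trans_le (hM'.1 h1)
  have hneg : sInf S < 0 := by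
    have hY' : -Y ≠ 0 := neg_ne_zero.2 hY
    have h1 : -rad K (-Y) ∈ S := ⟨0, by simpa using hK.rad_smul_mem hY'⟩
    have := hK.rad_pos hY'
    have h2 := hm'.1 h1
    linarith
  have hcc : c = c' := by
    have e3 : c * (sSup S - sInf S) = c' * (sSup S - sInf S) := by linarith
    exact mul_right_cancel₀ (by linarith) e3
  subst hcc
  exact ⟨rfl, by linarith⟩

end q1

variable {K L : Set W3} {C A B : ℝ × ℝ → ℝ × ℝ → ℝ}

theorem Ctr2.inv (h : Ctr2 K L C A B) :
    Ctr2 L K (fun z d => 1 / C z d) (fun z d => -A z d / C z d) (fun z d => -B z d / C z d) :=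
  ⟨fun z d hd => (h.hom z d hd).inv⟩

theorem Ctr2.neg (h : Ctr2 K L C A B) :
    Ctr2 (-K) (-L) C (fun z d => -A z d) (fun z d => -B z d) :=
  ⟨fun z d hd => (h.hom z d hd).neg⟩

theorem Ctr2.negd (hK : SB K) (hL : SB L) (h : Ctr2 K L C A B) {z d : ℝ × ℝ} (hd : d ≠ 0) :
    B z (-d) = -B z d := by
  have hd' : -d ≠ 0 := neg_ne_zero.2 hd
  have h1 := h.hom z (-d) hd'
  have h2 := (h.hom z d hd).neg_right
  have e : -((d, 0) : W3) = (-d, 0) := by
    rw [Prod.neg_mk, neg_zero]
  rw [e] at h2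
  exact (h1.unique97 hK (chart_ind z hd') h2).2

end Pool.Agent.Lib.MP_f7db8a.Q
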