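import Pool.Agent.Lib.MP_f7db8a.Q1a
import Pool.Agent.Lib.MP_f7db8a.Q1b

set_option autoImplicit false
set_option linter.unusedSectionVars false

/-!
# Part Q3a: signs and zero directions
-/

namespace Pool.Agent.Lib.MP_f7db8a.Q

open Module Set Filter Topology Metric
open scoped NNReal RealInnerProductSpace

variable {K L : Set W3} {C A B : ℝ × ℝ → ℝ × ℝ → ℝ}

theorem Ctr2.contB_line (hK : SB K) (hL : SB L) (h : Ctr2 K L C A B) {γ : ℝ → ℝ × ℝ}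
    (hγ : Continuous γ) (hγ0 : ∀ s, γ s ≠ 0) (z : ℝ × ℝ) : Continuous (fun s => B z (γ s)) := by
  rw [continuous_iff_continuousAt]
  intro s
  exact ContinuousAt.comp (f := fun s : ℝ => ((z, γ s) : (ℝ × ℝ) × (ℝ × ℝ))) (x := s)
    (g := fun p : (ℝ × ℝ) × (ℝ × ℝ) => B p.1 p.2) (h.contB hK hL (hγ0 s))
    (Continuous.continuousAt (by fun_prop))

/-- existence of zero directions -/
theorem exists_zero2 (hK : SB K) (hL : SB L) (h : Ctr2 K L C A B) {γ : ℝ → ℝ × ℝ}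
    (hγ : Continuous γ) (hγ0 : ∀ s, γ s ≠ 0) {z : ℝ × ℝ} (h0 : B z (γ 0) < 0)
    (h1 : 0 < B z (γ 1)) : ∃ s ∈ Icc (0 : ℝ) 1, B z (γ s) = 0 := by
  have hc := (h.contB_line hK hL hγ hγ0 z).continuousOn (s := Icc (0 : ℝ) 1)
  have := intermediate_value_Icc (zero_le_one) hc
  obtain ⟨s, hs, hs2⟩ := this (show (0 : ℝ) ∈ Icc (B z (γ 0)) (B z (γ 1)) from ⟨h0.le, h1.le⟩)
  exact ⟨s, hs, hs2⟩

theorem Sgn_eventually (hK : SB K) (hL : SB L) (h : Ctr2 K L C A B) {z : ℝ × ℝ}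
    (hs : Sgn B z) : ∀ᶠ w in 𝓝 z, Sgn B w := by
  have key : ∀ D : ℝ × ℝ, D ≠ 0 → 0 < B z D → ∀ᶠ w in 𝓝 z, 0 < B w D := by
    intro D hD hB
    have hc : ContinuousAt (fun w => B w D) z :=
      ContinuousAt.comp (f := fun w : ℝ × ℝ => ((w, D) : (ℝ × ℝ) × (ℝ × ℝ))) (x := z)
        (g := fun p : (ℝ × ℝ) × (ℝ × ℝ) => B p.1 p.2) (h.contB hK hL hD) (by fun_prop)
    exact continuousAt_const.eventually_lt hc hB
  exact (key _ d1_ne hs.1).and ((key _ d2_ne hs.2.1).and (key _ d3_ne hs.2.2))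

theorem Sgn_all (hK : SB K) (hL : SB L) (h : Ctr2 K L C A B) {z : ℝ × ℝ} (hs : Sgn B z) :
    (B z (γ1 0) < 0 ∧ 0 < B z (γ1 1)) ∧ (B z (γ2 0) < 0 ∧ 0 < B z (γ2 1)) ∧
      (B z (γ3 0) < 0 ∧ 0 < B z (γ3 1)) := by
  have n1 : B z (1, 0) < 0 := by
    have := h.negd hK hL (z := z) (d := (-1, 0)) d1_ne
    rw [show -((-1, 0) : ℝ × ℝ) = (1, 0) by simp] at this
    rw [this]; linarith [hs.1]
  have n2 : B z (0, 1) < 0 := by
    have := h.negd hK hL (z := z) (d := (0, -1)) d2_ne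
    rw [show -((0, -1) : ℝ × ℝ) = (0, 1) by simp] at this
    rw [this]; linarith [hs.2.1]
  have e0 : γ3 0 = (0, 1) := by simp [γ3]
  have e1 : γ3 1 = (-1, 0) := by simp [γ3]
  rw [e0, e1]
  exact ⟨⟨n1, hs.2.2⟩, ⟨n2, hs.2.2⟩, ⟨n2, hs.1⟩⟩

/-- uniform gap for the zero directions of the third class -/
theorem gap32 (hK : SB K) (hL : SB L) (h : Ctr2 K L C A B) (hs : Sgn B 0) :
    ∃ δ : ℝ, 0 < δ ∧ ∀ z ∈ ball (0 : ℝ × ℝ) δ, ∀ s ∈ Icc (0 : ℝ) 1, B z (γ3 s) = 0 →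
      δ ≤ s ∧ s ≤ 1 - δ := by
  have hc : ∀ s₀ : ℝ, ContinuousAt (fun p : (ℝ × ℝ) × ℝ => B p.1 (γ3 p.2)) (0, s₀) := by
    intro s₀
    have h1 : ContinuousAt (fun p : (ℝ × ℝ) × ℝ => ((p.1, γ3 p.2) : (ℝ × ℝ) × (ℝ × ℝ)))
        (0, s₀) := by
      apply Continuous.continuousAt
      exact continuous_fst.prodMk (γ3_cont.comp continuous_snd)
    exact ContinuousAt.comp (f := fun p : (ℝ × ℝ) × ℝ => ((p.1, γ3 p.2) : (ℝ × ℝ) × (ℝ × ℝ)))
      (x := ((0, s₀) : (ℝ × ℝ) × ℝ))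
      (g := fun p : (ℝ × ℝ) × (ℝ × ℝ) => B p.1 p.2) (h.contB hK hL (γ3_ne s₀)) h1
  have e0 : ∀ᶠ p : (ℝ × ℝ) × ℝ in 𝓝 (0, 0), B p.1 (γ3 p.2) < 0 :=
    (hc 0).eventually_lt continuousAt_const (Sgn_all hK hL h hs).2.2.1
  have e1 : ∀ᶠ p : (ℝ × ℝ) × ℝ in 𝓝 (0, 1), 0 < B p.1 (γ3 p.2) :=
    continuousAt_const.eventually_lt (hc 1) (Sgn_all hK hL h hs).2.2.2
  obtain ⟨δ0, hδ0, h0⟩ := Metric.eventually_nhds_iff.1 e0
  obtain ⟨δ1, hδ1, h1⟩ := Metric.eventually_nhds_iff.1 e1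
  refine ⟨min δ0 δ1, by positivity, ?_⟩
  intro z hz s hsI hB
  rw [mem_ball] at hz
  constructor
  · by_contra hcon
    rw [not_le] at hcon
    have := h0 (y := (z, s)) (by
      rw [Prod.dist_eq]
      apply max_lt (hz.trans_le (min_le_left _ _))
      change dist s 0 < δ0
      rw [Real.dist_eq, sub_zero, abs_of_nonneg hsI.1]
      exact hcon.trans_le (min_le_left _ _))
    exact this.ne hB
  · by_contra hcon
    rw [not_le] at hcon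
    have hlt : 1 - s < δ1 := by
      have := min_le_right δ0 δ1
      linarith
    have := h1 (y := (z, s)) (by
      rw [Prod.dist_eq]
      apply max_lt (hz.trans_le (min_le_right _ _))
      change dist s 1 < δ1
      rw [Real.dist_eq, abs_lt]
      constructor <;> linarith [hsI.2])
    exact this.ne' hB

end Pool.Agent.Lib.MP_f7db8a.Q
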