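import Pool.Agent.Lib.MP_f7db8a.QDefs
import Pool.Agent.Lib.MP_f7db8a.Q1a
import Pool.Agent.Lib.MP_f7db8a.Q1b

set_option autoImplicit false

/-!
# Two star bodies with homothetic plane sections: Lipschitz bounds in the chart
-/

namespace Pool.Agent.Lib.MP_f7db8a.Q

open Module Set Filter Topology Metric
open scoped NNReal

/-- the section of `L` is star-shaped about `a X + b Y` -/
theorem q2_star {E : Type*} [NormedAddCommGroup E] [NormedSpace ℝ E] {K L : Set E} (hK : SB K)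
    {X Y : E} {c a b : ℝ} (h : H2 K L X Y c a b) {α β r : ℝ} (h0 : 0 ≤ r) (h1 : r ≤ 1)
    (hm : α • X + β • Y ∈ L) : ((1 - r) * α + r * a) • X + ((1 - r) * β + r * b) • Y ∈ L := by
  obtain ⟨hc, hh⟩ := h
  have hcne := hc.ne'
  have e1 : c * ((α - a) / c) + a = α := by field_simp; ring
  have e2 : c * ((β - b) / c) + b = β := by field_simp; ring
  have h2 : ((α - a) / c) • X + ((β - b) / c) • Y ∈ K := by
    rw [hh, e1, e2]; exact hm
  have h3 : (1 - r) • (((α - a) / c) • X + ((β - b) / c) • Y) ∈ K :=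
    hK.smul_mem h2 (by linarith) (by linarith)
  have h4 : ((1 - r) * ((α - a) / c)) • X + ((1 - r) * ((β - b) / c)) • Y ∈ K := by
    convert h3 using 1
    module
  rw [hh] at h4
  have e3 : c * ((1 - r) * ((α - a) / c)) + a = (1 - r) * α + r * a := by field_simp; ring
  have e4 : c * ((1 - r) * ((β - b) / c)) + b = (1 - r) * β + r * b := by field_simp; ring
  rwa [e3, e4] at h4

variable {K L : Set W3} {C A B : ℝ × ℝ → ℝ × ℝ → ℝ}

/-- the basic one-sided estimate -/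
theorem q2_le (hK : SB K) (hL : SB L) {z d : ℝ × ℝ} {c a b : ℝ}
    (h : H2 K L (z, 1) (d, 0) c a b) (hb : 0 < b)
    {t G : ℝ} (ht : 0 ≤ t) (hG : 0 < G) (hGe : G = qf L z + t * (1 - a * qf L z) / b)
    (htG : t ≤ b * G) : qf L (z + t • d) ≤ G := by
  have hq := qf_pos hL z
  set r := t / (b * G) with hr
  have hr0 : 0 ≤ r := by positivity
  have hr1 : r ≤ 1 := by rw [hr, div_le_one (by positivity)]; exact htG
  have hP : (qf L z)⁻¹ • ((z, 1) : (ℝ × ℝ) × ℝ) + (0 : ℝ) • ((d, 0) : (ℝ × ℝ) × ℝ) ∈ L := by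
    rw [zero_smul, add_zero, mem_chart hL z (by positivity), inv_mul_cancel₀ hq.ne']
  have h1 := q2_star hK h hr0 hr1 hP
  have e1 : (1 - r) * (qf L z)⁻¹ + r * a = G⁻¹ := by
    rw [hr]
    field_simp
    have e3 : b * G = b * qf L z + t * (1 - a * qf L z) := by
      rw [hGe]; field_simp
    linear_combination e3
  have e2 : (1 - r) * 0 + r * b = G⁻¹ * t := by
    rw [hr]; field_simp; ring
  rw [e1, e2] at h1
  have e3 : G⁻¹ • ((z, 1) : (ℝ × ℝ) × ℝ) + (G⁻¹ * t) • ((d, 0) : (ℝ × ℝ) × ℝ) =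
      G⁻¹ • ((z + t • d, 1) : (ℝ × ℝ) × ℝ) := by
    simp only [Prod.smul_mk, Prod.mk_add_mk, smul_eq_mul, mul_zero, add_zero, smul_add, smul_smul]
  rw [e3, mem_chart hL _ (by positivity), inv_mul_le_iff₀ hG, mul_one] at h1
  exact h1

/-- locally uniform version -/
theorem q2_dir (hK : SB K) (hL : SB L) (h : Ctr2 K L C A B) {D : ℝ × ℝ} (hD : D ≠ 0)
    (hB : 0 < B 0 D) : ∃ ε : ℝ, 0 < ε ∧ ∃ t₀ : ℝ, 0 < t₀ ∧ ∃ M : ℝ, 0 ≤ M ∧
      ∀ z ∈ ball (0 : ℝ × ℝ) ε, ∀ t : ℝ, 0 ≤ t → t ≤ t₀ → qf L (z + t • D) ≤ qf L z + M * t := by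
  have hcurve : ContinuousAt (fun z : ℝ × ℝ => ((z, D) : (ℝ × ℝ) × (ℝ × ℝ))) 0 := by fun_prop
  have cA : ContinuousAt (fun z => A z D) 0 :=
    ContinuousAt.comp (f := fun z : ℝ × ℝ => ((z, D) : (ℝ × ℝ) × (ℝ × ℝ))) (x := 0)
      (g := fun p : (ℝ × ℝ) × (ℝ × ℝ) => A p.1 p.2) (h.contA hK hL hD) hcurve
  have cB : ContinuousAt (fun z => B z D) 0 :=
    ContinuousAt.comp (f := fun z : ℝ × ℝ => ((z, D) : (ℝ × ℝ) × (ℝ × ℝ))) (x := 0)
      (g := fun p : (ℝ × ℝ) × (ℝ × ℝ) => B p.1 p.2) (h.contB hK hL hD) hcurve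
  have cQ : ContinuousAt (qf L) 0 := (qf_continuous hL).continuousAt
  have hq0 := qf_pos hL 0
  set b₀ := B 0 D / 2 with hb₀
  set a₀ := |A 0 D| + 1 with ha₀
  set q₀ := qf L 0 / 2 with hq₀
  set q₁ := qf L 0 + 1 with hq₁
  have hb₀pos : 0 < b₀ := by positivity
  have ha₀pos : 0 < a₀ := by positivity
  have hq₀pos : 0 < q₀ := by positivity
  have hq₁pos : 0 < q₁ := by positivity
  have e1 : ∀ᶠ z in 𝓝 (0 : ℝ × ℝ), b₀ < B z D :=
    continuousAt_const.eventually_lt cB (by rw [hb₀]; linarith)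
  have e2 : ∀ᶠ z in 𝓝 (0 : ℝ × ℝ), |A z D| < a₀ :=
    cA.abs.eventually_lt continuousAt_const (by rw [ha₀]; linarith)
  have e3 : ∀ᶠ z in 𝓝 (0 : ℝ × ℝ), q₀ < qf L z :=
    continuousAt_const.eventually_lt cQ (by rw [hq₀]; linarith)
  have e4 : ∀ᶠ z in 𝓝 (0 : ℝ × ℝ), qf L z < q₁ :=
    cQ.eventually_lt continuousAt_const (by rw [hq₁]; linarith)
  obtain ⟨ε, hε, hball⟩ := Metric.eventually_nhds_iff_ball.1 (e1.and (e2.and (e3.and e4)))
  set M := (1 + a₀ * q₁) / b₀ with hM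
  have hMpos : 0 < M := by positivity
  refine ⟨ε, hε, min (q₀ / (2 * M)) (b₀ * q₀ / 2), by positivity, M, hMpos.le, ?_⟩
  intro z hz t ht ht₀
  obtain ⟨h1, h2, h3, h4⟩ := hball z hz
  have ht1 : t ≤ q₀ / (2 * M) := ht₀.trans (min_le_left _ _)
  have ht2 : t ≤ b₀ * q₀ / 2 := ht₀.trans (min_le_right _ _)
  have hBpos : 0 < B z D := hb₀pos.trans h1
  have hQpos := qf_pos hL z
  have hbound : |(1 - A z D * qf L z) / B z D| ≤ M := by
    rw [abs_div, abs_of_pos hBpos, hM]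
    apply div_le_div₀ (by positivity) _ (by positivity) h1.le
    have : |1 - A z D * qf L z| ≤ 1 + |A z D| * qf L z := by
      have h5 : |A z D * qf L z| = |A z D| * qf L z := by
        rw [abs_mul, abs_of_pos hQpos]
      calc |1 - A z D * qf L z| ≤ |(1 : ℝ)| + |A z D * qf L z| := abs_sub _ _
        _ = _ := by rw [h5, abs_one]
    refine this.trans ?_
    have : |A z D| * qf L z ≤ a₀ * q₁ := by
      apply mul_le_mul h2.le h4.le hQpos.le ha₀pos.le
    linarith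
  set G := qf L z + t * (1 - A z D * qf L z) / B z D with hG
  have hGe : G = qf L z + t * ((1 - A z D * qf L z) / B z D) := by
    rw [hG, mul_div_assoc]
  have habs := abs_le.1 hbound
  have htM : t * M ≤ q₀ / 2 := by
    have := mul_le_mul_of_nonneg_right ht1 hMpos.le
    calc t * M ≤ q₀ / (2 * M) * M := this
      _ = q₀ / 2 := by field_simp
  have hG1 : G ≤ qf L z + M * t := by
    rw [hGe]
    have := mul_le_mul_of_nonneg_left habs.2 ht
    linarith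
  have hG2 : q₀ / 2 ≤ G := by
    rw [hGe]
    have := mul_le_mul_of_nonneg_left habs.1 ht
    linarith
  have hGpos : 0 < G := by linarith
  refine (q2_le hK hL (h.hom z D hD) hBpos ht hGpos hG ?_).trans hG1
  have h6 : b₀ * (q₀ / 2) ≤ B z D * G := by
    apply mul_le_mul h1.le hG2 (by positivity) hBpos.le
  linarith

theorem q2_lipP (hK : SB K) (hL : SB L) (h : Ctr2 K L C A B)
    (h1 : 0 < B 0 (-1, 0)) (h2 : 0 < B 0 (0, -1)) (h3 : 0 < B 0 (1, 1)) :
    ∃ r : ℝ, 0 < r ∧ ∃ C : ℝ≥0, LipschitzOnWith C (qf L) (ball 0 r) := by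
  obtain ⟨ε1, hε1, t1, ht1, M1, hM1, b1⟩ := q2_dir hK hL h d1_ne h1
  obtain ⟨ε2, hε2, t2, ht2, M2, hM2, b2⟩ := q2_dir hK hL h d2_ne h2
  obtain ⟨ε3, hε3, t3, ht3, M3, hM3, b3⟩ := q2_dir hK hL h d3_ne h3
  apply lip_of_dirs (ε := min ε1 (min ε2 ε3)) (t₀ := min t1 (min t2 t3)) (M := max M1 (max M2 M3))
    (by positivity) (by positivity) (le_max_of_le_left hM1)
  · intro z hz t ht0 ht
    refine (b1 z (ball_subset_ball (min_le_left _ _) hz) t ht0 (ht.trans (min_le_left _ _))).trans ?_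
    gcongr
    exact le_max_left _ _
  · intro z hz t ht0 ht
    refine (b2 z (ball_subset_ball ((min_le_right _ _).trans (min_le_left _ _)) hz) t ht0
      (ht.trans ((min_le_right _ _).trans (min_le_left _ _)))).trans ?_
    gcongr
    exact (le_max_left _ _).trans (le_max_right _ _)
  · intro z hz t ht0 ht
    refine (b3 z (ball_subset_ball ((min_le_right _ _).trans (min_le_right _ _)) hz) t ht0
      (ht.trans ((min_le_right _ _).trans (min_le_right _ _)))).trans ?_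
    gcongr
    exact (le_max_right _ _).trans (le_max_right _ _)

theorem q2_lipN (hK : SB K) (hL : SB L) (h : Ctr2 K L C A B)
    (h1 : 0 < B 0 (-(-1, 0))) (h2 : 0 < B 0 (-(0, -1))) (h3 : 0 < B 0 (-(1, 1))) :
    ∃ r : ℝ, 0 < r ∧ ∃ C : ℝ≥0, LipschitzOnWith C (qf L) (ball 0 r) := by
  obtain ⟨ε1, hε1, t1, ht1, M1, hM1, b1⟩ := q2_dir hK hL h (neg_ne_zero.2 d1_ne) h1
  obtain ⟨ε2, hε2, t2, ht2, M2, hM2, b2⟩ := q2_dir hK hL h (neg_ne_zero.2 d2_ne) h2
  obtain ⟨ε3, hε3, t3, ht3, M3, hM3, b3⟩ := q2_dir hK hL h (neg_ne_zero.2 d3_ne) h3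
  have hLip : ∃ r : ℝ, 0 < r ∧ ∃ C : ℝ≥0, LipschitzOnWith C (fun z => qf L (-z)) (ball 0 r) := by
    apply lip_of_dirs (ε := min ε1 (min ε2 ε3)) (t₀ := min t1 (min t2 t3))
      (M := max M1 (max M2 M3)) (by positivity) (by positivity) (le_max_of_le_left hM1)
    · intro z hz t ht0 ht
      have hz' : -z ∈ ball (0 : ℝ × ℝ) (min ε1 (min ε2 ε3)) := by
        rw [mem_ball_zero_iff] at hz ⊢; rwa [norm_neg]
      have := b1 (-z) (ball_subset_ball (min_le_left _ _) hz') t ht0 (ht.trans (min_le_left _ _))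
      rw [show -z + t • -((-1, 0) : ℝ × ℝ) = -(z + t • (-1, 0)) by module] at this
      refine this.trans ?_
      gcongr
      exact le_max_left _ _
    · intro z hz t ht0 ht
      have hz' : -z ∈ ball (0 : ℝ × ℝ) (min ε1 (min ε2 ε3)) := by
        rw [mem_ball_zero_iff] at hz ⊢; rwa [norm_neg]
      have := b2 (-z) (ball_subset_ball ((min_le_right _ _).trans (min_le_left _ _)) hz') t ht0
        (ht.trans ((min_le_right _ _).trans (min_le_left _ _)))
      rw [show -z + t • -((0, -1) : ℝ × ℝ) = -(z + t • (0, -1)) by module] at this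
      refine this.trans ?_
      gcongr
      exact (le_max_left _ _).trans (le_max_right _ _)
    · intro z hz t ht0 ht
      have hz' : -z ∈ ball (0 : ℝ × ℝ) (min ε1 (min ε2 ε3)) := by
        rw [mem_ball_zero_iff] at hz ⊢; rwa [norm_neg]
      have := b3 (-z) (ball_subset_ball ((min_le_right _ _).trans (min_le_right _ _)) hz') t ht0
        (ht.trans ((min_le_right _ _).trans (min_le_right _ _)))
      rw [show -z + t • -((1, 1) : ℝ × ℝ) = -(z + t • (1, 1)) by module] at this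
      refine this.trans ?_
      gcongr
      exact (le_max_right _ _).trans (le_max_right _ _)
  obtain ⟨r, hr, C, hC⟩ := hLip
  refine ⟨r, hr, C, ?_⟩
  intro x hx y hy
  have hx' : -x ∈ ball (0 : ℝ × ℝ) r := by rw [mem_ball_zero_iff] at hx ⊢; rwa [norm_neg]
  have hy' : -y ∈ ball (0 : ℝ × ℝ) r := by rw [mem_ball_zero_iff] at hy ⊢; rwa [norm_neg]
  have := hC hx' hy'
  simp only [neg_neg] at this
  rwa [edist_neg_neg] at this

theorem exists_lip4 (hK : SB K) (hL : SB L) (h : Ctr2 K L C A B) (hs : Sgn B 0) :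
    ∃ r : ℝ, 0 < r ∧ ∃ k : ℝ≥0, LipschitzOnWith k (qf K) (ball 0 r) ∧
      LipschitzOnWith k (qf L) (ball 0 r) ∧ LipschitzOnWith k (qf (-K)) (ball 0 r) ∧
      LipschitzOnWith k (qf (-L)) (ball 0 r) := by
  obtain ⟨h1, h2, h3⟩ := hs
  have hC : ∀ {d : ℝ × ℝ}, d ≠ 0 → 0 < C 0 d := fun hd => (h.hom 0 _ hd).1
  -- `L`
  obtain ⟨rL, hrL, kL, hkL⟩ := q2_lipP hK hL h h1 h2 h3
  -- `-L`
  have n1 : ∀ {d : ℝ × ℝ}, d ≠ 0 → 0 < B 0 d → 0 < -B 0 (-d) := by
    intro d hd hB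
    rw [h.negd hK hL hd, neg_neg]; exact hB
  obtain ⟨rL', hrL', kL', hkL'⟩ := q2_lipN hK.neg hL.neg h.neg (n1 d1_ne h1) (n1 d2_ne h2)
    (n1 d3_ne h3)
  -- `K`
  have n2 : ∀ {d : ℝ × ℝ}, d ≠ 0 → 0 < B 0 d → 0 < -B 0 (-d) / C 0 (-d) := fun hd hB =>
    div_pos (n1 hd hB) (hC (neg_ne_zero.2 hd))
  obtain ⟨rK, hrK, kK, hkK⟩ := q2_lipN hL hK h.inv (n2 d1_ne h1) (n2 d2_ne h2) (n2 d3_ne h3)
  -- `-K`
  have n3 : ∀ {d : ℝ × ℝ}, d ≠ 0 → 0 < B 0 d → 0 < -(-B 0 d / C 0 d) := by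
    intro d hd hB
    rw [neg_div, neg_neg]
    exact div_pos hB (hC hd)
  obtain ⟨rK', hrK', kK', hkK'⟩ := q2_lipP hL.neg hK.neg h.inv.neg (n3 d1_ne h1) (n3 d2_ne h2)
    (n3 d3_ne h3)
  have mono : ∀ {f : ℝ × ℝ → ℝ} {k k' : ℝ≥0} {r r' : ℝ}, LipschitzOnWith k f (ball 0 r) →
      k ≤ k' → r' ≤ r → LipschitzOnWith k' f (ball 0 r') := by
    intro f k k' r r' hf hk hr
    exact (hf.mono (ball_subset_ball hr)).weaken hk
  refine ⟨min (min rK rL) (min rK' rL'), by positivity, max (max kK kL) (max kK' kL'),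
    mono hkK ?_ ?_, mono hkL ?_ ?_, mono hkK' ?_ ?_, mono hkL' ?_ ?_⟩
  · exact (le_max_left _ _).trans (le_max_left _ _)
  · exact (min_le_left _ _).trans (min_le_left _ _)
  · exact (le_max_right _ _).trans (le_max_left _ _)
  · exact (min_le_left _ _).trans (min_le_right _ _)
  · exact (le_max_left _ _).trans (le_max_right _ _)
  · exact (min_le_right _ _).trans (min_le_left _ _)
  · exact (le_max_right _ _).trans (le_max_right _ _)
  · exact (min_le_right _ _).trans (min_le_right _ _)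

end Pool.Agent.Lib.MP_f7db8a.Q
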