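import Pool.Agent.Lib.MP_f7db8a.QDefs

set_option autoImplicit false

/-!
# Chart form of a homothety of plane sections
-/

namespace Pool.Agent.Lib.MP_f7db8a.Q

open Module Set Filter Topology Metric
open scoped NNReal RealInnerProductSpace

variable {K L : Set W3} {C A B : ℝ × ℝ → ℝ × ℝ → ℝ}

theorem rel_aux (hK : SB K) (hL : SB L) {z d : ℝ × ℝ} {c a b : ℝ}
    (h : H2 K L (z, 1) (d, 0) c a b) (u : ℝ) (hpos : 0 < c + a * qf K (z + u • d)) :
    qf L (z + ((c * u + b * qf K (z + u • d)) / (c + a * qf K (z + u • d))) • d) =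
      qf K (z + u • d) / (c + a * qf K (z + u • d)) := by
  set q := qf K (z + u • d) with hq
  have hqpos : 0 < q := qf_pos hK _
  have hqne := hqpos.ne'
  have hpne := hpos.ne'
  set h₀ := (c + a * q) / q with hh₀
  have hh₀pos : 0 < h₀ := by positivity
  set u' := (c * u + b * q) / (c + a * q) with hu'
  have eX : ∀ s : ℝ, (s * q⁻¹) • ((z, 1) : (ℝ × ℝ) × ℝ) +
      (s * (q⁻¹ * u)) • ((d, 0) : (ℝ × ℝ) × ℝ) = s • (q⁻¹ • ((z + u • d, 1) : (ℝ × ℝ) × ℝ)) := by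
    intro s
    simp only [Prod.smul_mk, Prod.mk_add_mk, smul_eq_mul, mul_zero, add_zero, smul_add, smul_smul,
      mul_one]
  have eP : (c * (1 * q⁻¹) + a) • ((z, 1) : (ℝ × ℝ) × ℝ) +
      (c * (1 * (q⁻¹ * u)) + b) • ((d, 0) : (ℝ × ℝ) × ℝ) =
      h₀ • ((z + u' • d, 1) : (ℝ × ℝ) × ℝ) := by
    have e1 : c * (1 * q⁻¹) + a = h₀ := by rw [hh₀]; field_simp
    have e2 : c * (1 * (q⁻¹ * u)) + b = h₀ * u' := by
      have e3 : h₀ * u' = (c * u + b * q) / q := by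
        rw [hh₀, hu', div_mul_div_comm, mul_comm q, mul_div_mul_left _ _ hpne]
      rw [e3]; field_simp
    rw [e1, e2]
    simp only [Prod.smul_mk, Prod.mk_add_mk, smul_eq_mul, mul_zero, add_zero, smul_add, smul_smul,
      mul_one]
  have h1 : h₀ • ((z + u' • d, 1) : (ℝ × ℝ) × ℝ) ∈ L := by
    rw [← eP]
    apply (h.2 _ _).1
    rw [eX, one_smul, mem_chart hK _ (by positivity), inv_mul_cancel₀ hqne]
  rw [mem_chart hL _ hh₀pos.le] at h1
  have h3 : ¬ (h₀ * qf L (z + u' • d) < 1) := by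
    intro hlt
    have hint := interior_chart hL (z + u' • d) hh₀pos.le hlt
    rw [← eP] at hint
    have hcont : ContinuousAt (fun s : ℝ => (c * (s * q⁻¹) + a) • ((z, 1) : (ℝ × ℝ) × ℝ) +
        (c * (s * (q⁻¹ * u)) + b) • ((d, 0) : (ℝ × ℝ) × ℝ)) 1 := by fun_prop
    have hev : ∀ᶠ s in 𝓝 (1 : ℝ), (c * (s * q⁻¹) + a) • ((z, 1) : (ℝ × ℝ) × ℝ) +
        (c * (s * (q⁻¹ * u)) + b) • ((d, 0) : (ℝ × ℝ) × ℝ) ∈ interior L :=
      hcont (isOpen_interior.mem_nhds hint)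
    obtain ⟨ε, hε, hball⟩ := Metric.eventually_nhds_iff.1 hev
    have h4 := interior_subset (hball (y := 1 + ε / 2) (by
      rw [Real.dist_eq, add_sub_cancel_left, abs_of_pos (by positivity)]; linarith))
    have h5 := (h.2 _ _).2 h4
    rw [eX] at h5
    exact out_chart hK (z + u • d) (ε / 2) (by positivity) h5
  have h4 : h₀ * qf L (z + u' • d) = 1 := le_antisymm h1 (not_lt.1 h3)
  have h5 : qf L (z + u' • d) = h₀⁻¹ := eq_inv_of_mul_eq_one_right h4
  rw [h5, hh₀, inv_div]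

/-- general direction: `u' = (C u + B q) / (C + A q)`, `q = qf K (z + u d)` -/
theorem rel (hK : SB K) (hL : SB L) (h : Ctr2 K L C A B) {z d : ℝ × ℝ} (hd : d ≠ 0) (u : ℝ)
    (hpos : 0 < C z d + A z d * qf K (z + u • d)) :
    qf L (z + ((C z d * u + B z d * qf K (z + u • d)) / (C z d + A z d * qf K (z + u • d))) • d) =
      qf K (z + u • d) / (C z d + A z d * qf K (z + u • d)) :=
  rel_aux hK hL (h.hom z d hd) u hpos

/-- zero directions -/
theorem zero_dir (hK : SB K) (hL : SB L) (h : Ctr2 K L C A B) {z d : ℝ × ℝ} (hd : d ≠ 0)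
    (h0 : B z d = 0) : qf K z = (C z d + A z d * qf K z) * qf L z ∧
      qf (-K) z = (C z d - A z d * qf (-K) z) * qf (-L) z ∧ 0 < C z d + A z d * qf K z ∧
      0 < C z d - A z d * qf (-K) z := by
  have hh := h.hom z d hd
  rw [h0] at hh
  set c := C z d with hc
  set a := A z d with ha
  have hx := chart_ne z
  have hcpos : 0 < c := hh.1
  have hline : ∀ t : ℝ, (t • ((z, 1) : (ℝ × ℝ) × ℝ) ∈ K ↔
      (c * t + a) • ((z, 1) : (ℝ × ℝ) × ℝ) ∈ L) := by
    intro t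
    have := hh.2 t 0
    simpa using this
  have h' : ∀ t : ℝ, (-rad K (-(z, 1)) ≤ t ∧ t ≤ rad K (z, 1)) ↔
      (-rad L (-(z, 1)) ≤ c * t + a ∧ c * t + a ≤ rad L (z, 1)) := by
    intro t
    rw [← hK.line_mem_iff hx, ← hL.line_mem_iff hx]
    exact hline t
  have pK := hK.rad_pos hx
  have pK' := hK.rad_pos (neg_ne_zero.2 hx)
  have pL := hL.rad_pos hx
  have pL' := hL.rad_pos (neg_ne_zero.2 hx)
  have a1 := (h' (rad K (z, 1))).1 ⟨by linarith, le_rfl⟩
  have a2 := (h' (-rad K (-(z, 1)))).1 ⟨le_rfl, by linarith⟩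
  have e3 : c * ((rad L (z, 1) - a) / c) + a = rad L (z, 1) := by field_simp; ring
  have e4 : c * ((-rad L (-(z, 1)) - a) / c) + a = -rad L (-(z, 1)) := by field_simp; ring
  have a3 := (h' ((rad L (z, 1) - a) / c)).2 ⟨by rw [e3]; linarith, by rw [e3]⟩
  have a4 := (h' ((-rad L (-(z, 1)) - a) / c)).2 ⟨by rw [e4], by rw [e4]; linarith⟩
  have b3 : rad L (z, 1) - a ≤ rad K (z, 1) * c := (div_le_iff₀ hcpos).1 a3.2
  have b4 : -rad K (-(z, 1)) * c ≤ -rad L (-(z, 1)) - a := (le_div_iff₀ hcpos).1 a4.1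
  have hp : rad L (z, 1) = c * rad K (z, 1) + a := le_antisymm (by linarith) a1.2
  have hm : rad L (-(z, 1)) = c * rad K (-(z, 1)) - a := le_antisymm (by linarith [a2.1])
    (by linarith)
  have qK : qf K z = (rad K (z, 1))⁻¹ := rfl
  have qL : qf L z = (rad L (z, 1))⁻¹ := rfl
  have qK' : qf (-K) z = (rad K (-(z, 1)))⁻¹ := by unfold qf; rw [rad_neg]
  have qL' : qf (-L) z = (rad L (-(z, 1)))⁻¹ := by unfold qf; rw [rad_neg]
  have e5 : c + a * qf K z = rad L (z, 1) * qf K z := by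
    rw [hp, qK]; field_simp
  have e6 : c - a * qf (-K) z = rad L (-(z, 1)) * qf (-K) z := by
    rw [hm, qK']; field_simp
  have p1 := qf_pos hK z
  have p2 := qf_pos hK.neg z
  refine ⟨?_, ?_, ?_, ?_⟩
  · rw [e5, qL]; field_simp
  · rw [e6, qL']; field_simp
  · rw [e5]; positivity
  · rw [e6]; positivity

end Pool.Agent.Lib.MP_f7db8a.Q
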