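import Pool.Agent.Lib.MP_f7db8a.Q1b
import Pool.Agent.Lib.MP_f7db8a.Q2
import Pool.Agent.Lib.MP_f7db8a.Q3a
import Pool.Agent.Lib.MP_f7db8a.Q3b

set_option autoImplicit false

/-!
# The ratios of the radial functions are locally constant
-/

namespace Pool.Agent.Lib.MP_f7db8a.Q

open Module Set Filter Topology Metric MeasureTheory
open scoped NNReal

variable {K L : Set W3} {C A B : ℝ × ℝ → ℝ × ℝ → ℝ}

/-- The ratio of the radial functions has zero derivative in zero directions. -/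
theorem ratio_deriv2 (hK : SB K) (hL : SB L) (h : Ctr2 K L C A B) {z d : ℝ × ℝ} (hd : d ≠ 0)
    (h0 : B z d = 0) (h1 : DifferentiableAt ℝ (qf K) z) (h2 : DifferentiableAt ℝ (qf L) z) :
    fderiv ℝ (fun w => qf K w / qf L w) z d = 0 := by
  have hQ := qf_pos hK z
  have hQ' := qf_pos hL z
  have hline : HasDerivAt (fun t : ℝ => z + t • d) d 0 := by
    have := ((hasDerivAt_id (0 : ℝ)).smul_const d).const_add z
    simpa using this
  have z0 : z + (0 : ℝ) • d = z := by rw [zero_smul, add_zero]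
  set q := fderiv ℝ (qf K) z d with hq
  set q' := fderiv ℝ (qf L) z d with hq'
  have hφ : HasDerivAt (fun t : ℝ => qf K (z + t • d)) q 0 := by
    have h3 : HasFDerivAt (qf K) (fderiv ℝ (qf K) z) (z + (0 : ℝ) • d) := by
      rw [z0]; exact h1.hasFDerivAt
    exact h3.comp_hasDerivAt 0 hline
  have hψ : HasDerivAt (fun t : ℝ => qf L (z + t • d)) q' 0 := by
    have h3 : HasFDerivAt (qf L) (fderiv ℝ (qf L) z) (z + (0 : ℝ) • d) := by
      rw [z0]; exact h2.hasFDerivAt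
    exact h3.comp_hasDerivAt 0 hline
  obtain ⟨hax, -, hpos, -⟩ := zero_dir hK hL h hd h0
  have hC : 0 < C z d := (h.hom z d hd).1
  set m := C z d + A z d * qf K z with hm
  -- denominators
  have hden : HasDerivAt (fun t : ℝ => C z d + A z d * qf K (z + t • d)) (A z d * q) 0 := by
    have := (hφ.const_mul (A z d)).const_add (C z d)
    exact this
  have hnum : HasDerivAt (fun t : ℝ => C z d * t) (C z d) 0 := by
    have := (hasDerivAt_id (0 : ℝ)).const_mul (C z d)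
    simpa using this
  have hτ : HasDerivAt (fun t : ℝ => C z d * t / (C z d + A z d * qf K (z + t • d)))
      (C z d / m) 0 := by
    have h3 := hnum.fun_div hden (by simp only [z0]; exact hpos.ne')
    simp only [z0, ← hm] at h3
    have e : (C z d * m - C z d * 0 * (A z d * q)) / m ^ 2 = C z d / m := by field_simp; ring
    rw [e] at h3
    exact h3
  have hrhs : HasDerivAt (fun t : ℝ => qf K (z + t • d) / (C z d + A z d * qf K (z + t • d)))
      (C z d * q / m ^ 2) 0 := by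
    have h3 := hφ.fun_div hden (by simp only [z0]; exact hpos.ne')
    simp only [z0, ← hm] at h3
    have e : (q * m - qf K z * (A z d * q)) = C z d * q := by rw [hm]; ring
    rw [e] at h3
    exact h3
  have hlhs : HasDerivAt
      (fun t : ℝ => qf L (z + (C z d * t / (C z d + A z d * qf K (z + t • d))) • d))
      (q' * (C z d / m)) 0 := by
    have h3 : HasDerivAt (fun t : ℝ => qf L (z + t • d)) q'
        (C z d * (0 : ℝ) / (C z d + A z d * qf K (z + (0 : ℝ) • d))) := by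
      rw [mul_zero, zero_div]; exact hψ
    exact HasDerivAt.comp (0 : ℝ) (h₂ := fun t : ℝ => qf L (z + t • d)) h3 hτ
  have hev : (fun t : ℝ => qf L (z + (C z d * t / (C z d + A z d * qf K (z + t • d))) • d))
      =ᶠ[𝓝 0] (fun t : ℝ => qf K (z + t • d) / (C z d + A z d * qf K (z + t • d))) := by
    have h4 : ∀ᶠ t : ℝ in 𝓝 0, 0 < C z d + A z d * qf K (z + t • d) :=
      continuousAt_const.eventually_lt hden.continuousAt (by simp only [z0]; exact hpos)
    filter_upwards [h4] with t ht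
    have := rel hK hL h hd t ht
    rw [h0, zero_mul, add_zero] at this
    exact this
  have heq : q' * (C z d / m) = C z d * q / m ^ 2 :=
    (hlhs.congr_of_eventuallyEq hev.symm).unique hrhs
  have heq2 : q * qf L z = q' * qf K z := by
    have h5 : q' * m = q := by
      field_simp at heq
      linarith
    rw [← h5, hax]
    ring
  have hdiff : DifferentiableAt ℝ (fun w => qf K w / qf L w) z := by
    simp only [div_eq_mul_inv]
    exact h1.mul (h2.inv hQ'.ne')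
  have hΛ : HasDerivAt (fun t : ℝ => qf K (z + t • d) / qf L (z + t • d))
      (fderiv ℝ (fun w => qf K w / qf L w) z d) 0 := by
    have h3 : HasFDerivAt (fun w => qf K w / qf L w)
        (fderiv ℝ (fun w => qf K w / qf L w) z) (z + (0 : ℝ) • d) := by
      rw [z0]; exact hdiff.hasFDerivAt
    exact h3.comp_hasDerivAt 0 hline
  have hΛ2 := hφ.fun_div hψ (by simp only [z0]; exact hQ'.ne')
  rw [hΛ.unique hΛ2]
  simp only [z0]
  rw [heq2]
  simp [mul_comm]

/-- the derivative of the ratio vanishes at points of differentiability -/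
theorem ratio_fderiv2 (hK : SB K) (hL : SB L) (h : Ctr2 K L C A B) {z : ℝ × ℝ}
    (hx1 : ∃ s ∈ Icc (0 : ℝ) 1, s ≠ 1 ∧ B z (γ1 s) = 0)
    (hx2 : ∃ s ∈ Icc (0 : ℝ) 1, B z (γ2 s) = 0) (h1 : DifferentiableAt ℝ (qf K) z)
    (h2 : DifferentiableAt ℝ (qf L) z) :
    HasFDerivAt (fun w => qf K w / qf L w) (0 : ℝ × ℝ →L[ℝ] ℝ) z := by
  have hdiff : DifferentiableAt ℝ (fun w => qf K w / qf L w) z := by
    simp only [div_eq_mul_inv]
    exact h1.mul (h2.inv (qf_pos hL z).ne')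
  obtain ⟨s, hs1, hs1', hs2⟩ := hx1
  obtain ⟨s', hs'1, hs'2⟩ := hx2
  have k1 := ratio_deriv2 hK hL h (γ1_ne s) hs2 h1 h2
  have k2 := ratio_deriv2 hK hL h (γ2_ne s') hs'2 h1 h2
  set L' := fderiv ℝ (fun w => qf K w / qf L w) z with hL'
  have hne : s * s' < 1 := by
    have hlt : s < 1 := lt_of_le_of_ne hs1.2 hs1'
    have := hs'1.2
    have := hs'1.1
    have := hs1.1
    nlinarith
  have e1 : L' (γ1 s) = L' (1, 0) + s * L' (0, 1) := by
    have : γ1 s = (1, 0) + s • ((0, 1) : ℝ × ℝ) := by simp [γ1]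
    rw [this, map_add, map_smul, smul_eq_mul]
  have e2 : L' (γ2 s') = s' * L' (1, 0) + L' (0, 1) := by
    have : γ2 s' = s' • ((1, 0) : ℝ × ℝ) + (0, 1) := by simp [γ2]
    rw [this, map_add, map_smul, smul_eq_mul]
  rw [e1] at k1
  rw [e2] at k2
  have hb : L' (0, 1) = 0 := by
    have : (1 - s * s') * L' (0, 1) = 0 := by linear_combination k2 - s' * k1
    rcases mul_eq_zero.1 this with h | h
    · linarith
    · exact h
  have ha : L' (1, 0) = 0 := by rw [hb] at k1; linarith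
  have hL0 : L' = 0 := by
    ext
    · exact ha
    · exact hb
  rw [← hL0]
  exact hdiff.hasFDerivAt

/-- One ratio is locally constant. -/
theorem ratio_const_aux (hK : SB K) (hL : SB L) (h : Ctr2 K L C A B) {r1 : ℝ} (hr1 : 0 < r1)
    {k1 k2 : ℝ≥0} (L1 : LipschitzOnWith k1 (qf K) (ball 0 r1))
    (L2 : LipschitzOnWith k2 (qf L) (ball 0 r1))
    (hs : ∀ z ∈ ball (0 : ℝ × ℝ) r1, (∃ s ∈ Icc (0 : ℝ) 1, s ≠ 1 ∧ B z (γ1 s) = 0) ∧
      ∃ s ∈ Icc (0 : ℝ) 1, B z (γ2 s) = 0) :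
    ∃ r : ℝ, 0 < r ∧ r ≤ r1 ∧ ∃ l : ℝ, 0 < l ∧ ∀ z ∈ ball (0 : ℝ × ℝ) r,
      qf K z = l * qf L z := by
  have cQ : ContinuousAt (qf L) 0 := (qf_continuous hL).continuousAt
  have cQ' : ContinuousAt (qf K) 0 := (qf_continuous hK).continuousAt
  have hQ0 := qf_pos hL 0
  have hQ'0 := qf_pos hK 0
  have e1 : ∀ᶠ z in 𝓝 (0 : ℝ × ℝ), qf L 0 / 2 < qf L z :=
    continuousAt_const.eventually_lt cQ (by linarith)
  have e2 : ∀ᶠ z in 𝓝 (0 : ℝ × ℝ), qf K z < qf K 0 + 1 :=
    cQ'.eventually_lt continuousAt_const (by linarith)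
  obtain ⟨r4, hr4, hC4⟩ := Metric.eventually_nhds_iff_ball.1 (e1.and e2)
  set r := min r1 r4 with hr
  have hrpos : 0 < r := by rw [hr]; positivity
  have l1 : r ≤ r1 := min_le_left _ _
  have l4 : r ≤ r4 := min_le_right _ _
  have L1 := L1.mono (ball_subset_ball l1)
  have L2 := L2.mono (ball_subset_ball l1)
  obtain ⟨C', hC'⟩ := lip_div (q₀ := qf L 0 / 2) (M := qf K 0 + 1) (by positivity) L1 L2
    (fun x hx => (hC4 x (ball_subset_ball l4 hx)).1.le)
    (fun x hx => by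
      rw [abs_of_pos (qf_pos hK x)]
      exact (hC4 x (ball_subset_ball l4 hx)).2.le)
  refine ⟨r, hrpos, l1, qf K 0 / qf L 0, by positivity, ?_⟩
  intro z hz
  have hae : ∀ᵐ z : ℝ × ℝ, z ∈ ball (0 : ℝ × ℝ) r →
      HasFDerivAt (fun w => qf K w / qf L w) (0 : ℝ × ℝ →L[ℝ] ℝ) z := by
    filter_upwards [ae_diff L1, ae_diff L2] with w hw1 hw2 hwb
    obtain ⟨h1, h2⟩ := hs w (ball_subset_ball l1 hwb)
    exact ratio_fderiv2 hK hL h h1 h2 (hw1 hwb) (hw2 hwb)
  have := const_of_ae hC' hae hz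
  rw [← this, div_mul_cancel₀ _ (qf_pos hL z).ne']

theorem ratio_const2 (hK : SB K) (hL : SB L) (h : Ctr2 K L C A B) (hs : Sgn B 0) :
    ∃ r : ℝ, 0 < r ∧ ∃ k : ℝ≥0, LipschitzOnWith k (qf K) (ball 0 r) ∧
      LipschitzOnWith k (qf L) (ball 0 r) ∧ LipschitzOnWith k (qf (-K)) (ball 0 r) ∧
      ∃ lp lm : ℝ, 0 < lp ∧ 0 < lm ∧ ∀ z ∈ ball (0 : ℝ × ℝ) r, Sgn B z ∧
        qf K z = lp * qf L z ∧ qf (-K) z = lm * qf (-L) z := by
  obtain ⟨r1, hr1, k, L1, L2, L3, L4⟩ := exists_lip4 hK hL h hs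
  obtain ⟨r3, hr3, hC3⟩ := Metric.eventually_nhds_iff_ball.1 (Sgn_eventually hK hL h hs)
  set r2 := min r1 r3 with hr2
  have hr2pos : 0 < r2 := by rw [hr2]; positivity
  have l1 : r2 ≤ r1 := min_le_left _ _
  have l3 : r2 ≤ r3 := min_le_right _ _
  have hz : ∀ z ∈ ball (0 : ℝ × ℝ) r2, (∃ s ∈ Icc (0 : ℝ) 1, s ≠ 1 ∧ B z (γ1 s) = 0) ∧
      ∃ s ∈ Icc (0 : ℝ) 1, B z (γ2 s) = 0 := by
    intro z hz
    obtain ⟨⟨a1, a2⟩, ⟨b1, b2⟩, -⟩ := Sgn_all hK hL h (hC3 z (ball_subset_ball l3 hz))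
    obtain ⟨s, hs1, hs2⟩ := exists_zero2 hK hL h γ1_cont γ1_ne a1 a2
    refine ⟨⟨s, hs1, ?_, hs2⟩, exists_zero2 hK hL h γ2_cont γ2_ne b1 b2⟩
    rintro rfl
    exact a2.ne' hs2
  obtain ⟨r5, hr5, l5, lp, hlp, hp⟩ := ratio_const_aux hK hL h hr2pos
    (L1.mono (ball_subset_ball l1)) (L2.mono (ball_subset_ball l1)) hz
  obtain ⟨r6, hr6, l6, lm, hlm, hm⟩ := ratio_const_aux hK.neg hL.neg h.neg hr2pos
    (L3.mono (ball_subset_ball l1)) (L4.mono (ball_subset_ball l1)) (by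
      intro z hz'
      obtain ⟨⟨s, hs1, hs2, hs3⟩, s', hs'1, hs'2⟩ := hz z hz'
      refine ⟨⟨s, hs1, hs2, ?_⟩, s', hs'1, ?_⟩
      · show -B z (γ1 s) = 0
        rw [hs3, neg_zero]
      · show -B z (γ2 s') = 0
        rw [hs'2, neg_zero])
  have m5 : min r5 r6 ≤ r5 := min_le_left _ _
  have m6 : min r5 r6 ≤ r6 := min_le_right _ _
  refine ⟨min r5 r6, by positivity, k,
    L1.mono (ball_subset_ball (m5.trans (l5.trans l1))),
    L2.mono (ball_subset_ball (m5.trans (l5.trans l1))),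
    L3.mono (ball_subset_ball (m5.trans (l5.trans l1))), lp, lm, hlp, hlm, ?_⟩
  intro z hz'
  exact ⟨hC3 z (ball_subset_ball (m5.trans (l5.trans l3)) hz'), hp z (ball_subset_ball m5 hz'),
    hm z (ball_subset_ball m6 hz')⟩

end Pool.Agent.Lib.MP_f7db8a.Q
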