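import Pool.Agent.Lib.MP_f7db8a.Lambda
import Pool.Agent.Lib.MP_f7db8a.AnDefs

set_option autoImplicit false

/-!
# Two star bodies with homothetic plane sections: definitions for the general case
-/

namespace Pool.Agent.Lib.MP_f7db8a.Q

open Module Set Filter Topology Metric
open scoped NNReal

section gen

variable {E : Type*} [NormedAddCommGroup E] [NormedSpace ℝ E]

/-- `y ↦ c y + a X + b Y` maps the section of `K` by the plane of `X, Y` onto the one of `L`. -/
def H2 (K L : Set E) (X Y : E) (c a b : ℝ) : Prop :=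
  0 < c ∧ ∀ α β : ℝ, (α • X + β • Y ∈ K ↔ (c * α + a) • X + (c * β + b) • Y ∈ L)

/-- all plane sections are homothetic -/
def HH (K L : Set E) : Prop := ∀ X Y : E, Ind X Y → ∃ c a b : ℝ, H2 K L X Y c a b

/-- extent in the direction of the second coordinate -/
noncomputable def ext2 (K : Set E) (X Y : E) : ℝ :=
  sSup ((fun θ : ℝ => Real.sin θ * rad K (Real.cos θ • X + Real.sin θ • Y)) ''
    Icc 0 (2 * Real.pi))

/-- second coordinate of the translation vector -/
noncomputable def bb (K L : Set E) (X Y : E) : ℝ :=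
  (ext2 L X Y * ext2 K X (-Y) - ext2 K X Y * ext2 L X (-Y)) / (ext2 K X Y + ext2 K X (-Y))

/-- first coordinate of the translation vector -/
noncomputable def aa (K L : Set E) (X Y : E) : ℝ := bb K L Y X

/-- ratio -/
noncomputable def cc (K L : Set E) (X Y : E) : ℝ :=
  (ext2 L X Y + ext2 L X (-Y)) / (ext2 K X Y + ext2 K X (-Y))

end gen

/-- coordinate space -/
abbrev W3 := (ℝ × ℝ) × ℝ

/-- homothety data in the chart -/
structure Ctr2 (K L : Set W3) (C A B : ℝ × ℝ → ℝ × ℝ → ℝ) : Prop where
  hom : ∀ z d : ℝ × ℝ, d ≠ 0 → H2 K L (z, 1) (d, 0) (C z d) (A z d) (B z d)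

end Pool.Agent.Lib.MP_f7db8a.Q
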