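import Pool.Agent.Lib.MP_f7db8a.Lines
import Pool.Agent.Lib.MP_f7db8a.QDefs
import Pool.Agent.Lib.MP_f7db8a.Q1a
import Pool.Agent.Lib.MP_f7db8a.Q3b

set_option autoImplicit false
set_option linter.unusedSectionVars false

/-!
# Two bodies: segments, contraction case
-/

namespace Pool.Agent.Lib.MP_f7db8a.Q

open Module Set Filter Topology Metric MeasureTheory
open scoped NNReal

variable {K L : Set W3} {C A B : ℝ × ℝ → ℝ × ℝ → ℝ}

theorem lineA_diff2 (hK : SB K) (hL : SB L) (h : Ctr2 K L C A B) {r G lp lm : ℝ}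
    (hG : 0 < G) (hr : 0 < r) (hlt : lm < lp)
    (hp : ∀ z ∈ ball (0 : ℝ × ℝ) r, qf K z = lp * qf L z)
    (hm : ∀ z ∈ ball (0 : ℝ × ℝ) r, qf (-K) z = lm * qf (-L) z) {z d : ℝ × ℝ} (hd0 : d ≠ 0)
    (hz : z ∈ ball (0 : ℝ × ℝ) (r / 2)) (hd : ‖d‖ ≤ G) (hB : B z d = 0)
    (hdiff : DifferentiableAt ℝ (qf K) z) {t : ℝ} (ht : |t| ≤ r / (2 * G)) :
    qf K (z + t • d) = qf K z + t * fderiv ℝ (qf K) z d := by
  have hzr : z ∈ ball (0 : ℝ × ℝ) r := ball_subset_ball (by linarith) hz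
  obtain ⟨e1, e2, p1, p2⟩ := zero_dir hK hL h hd0 hB
  have hc : 0 < C z d := (h.hom z d hd0).1
  have hQ := qf_pos hK z
  have hQ' := qf_pos hK.neg z
  have hQL := qf_pos hL z
  have hQL' := qf_pos hL.neg z
  have hcp : C z d + A z d * qf K z = lp := by
    have h1 : (C z d + A z d * qf K z) * qf L z = lp * qf L z := by
      rw [← e1]; exact hp z hzr
    exact mul_right_cancel₀ hQL.ne' h1
  have hcm : C z d - A z d * qf (-K) z = lm := by
    have h1 : (C z d - A z d * qf (-K) z) * qf (-L) z = lm * qf (-L) z := by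
      rw [← e2]; exact hm z hzr
    exact mul_right_cancel₀ hQL'.ne' h1
  set c := C z d with hcdef
  set a := A z d with hadef
  have ha : 0 < a := by
    by_contra hcon
    have h1 : a * (qf K z + qf (-K) z) ≤ 0 :=
      mul_nonpos_of_nonpos_of_nonneg (not_lt.1 hcon) (by positivity)
    nlinarith
  set a' := -a / (2 * c) with ha'
  have ha'neg : a' < 0 := by rw [ha']; exact div_neg_of_neg_of_pos (by linarith) (by positivity)
  have hrel0 : ∀ x : ℝ, 1 - 2 * a' * x = (c + a * x) / c := by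
    intro x; rw [ha']; field_simp; ring
  have z0 : z + (0 : ℝ) • d = z := by rw [zero_smul, add_zero]
  have hline : HasDerivAt (fun t : ℝ => z + t • d) d 0 := by
    have := ((hasDerivAt_id (0 : ℝ)).smul_const d).const_add z
    simpa using this
  have hφ : HasDerivAt (fun t : ℝ => qf K (z + t • d)) (fderiv ℝ (qf K) z d) 0 := by
    have h3 : HasFDerivAt (qf K) (fderiv ℝ (qf K) z) (z + (0 : ℝ) • d) := by
      rw [z0]; exact hdiff.hasFDerivAt
    exact h3.comp_hasDerivAt 0 hline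
  have hcont : Continuous (fun t : ℝ => qf K (z + t • d)) :=
    (qf_continuous hK).comp (by fun_prop)
  have key := slope_const (φ := fun t : ℝ => qf K (z + t • d)) (t₀ := r / (2 * G)) ha'neg
    (by positivity) hcont (fun t => qf_pos hK _) hφ ?_ ht
  · simpa only [z0] using key
  intro u hu
  simp only [z0]
  set Qu := qf K (z + u • d) with hQu
  have hQupos : 0 < Qu := qf_pos hK _
  have hden : 0 < c + a * Qu := by positivity
  have hden1 : 1 < 1 - 2 * a' * Qu := by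
    rw [hrel0, lt_div_iff₀ hc]
    have : 0 < a * Qu := by positivity
    linarith
  have hu' : |u / (1 - 2 * a' * Qu)| ≤ r / (2 * G) := by
    rw [abs_div, abs_of_pos (show 0 < 1 - 2 * a' * Qu by linarith)]
    exact (div_le_self (abs_nonneg u) hden1.le).trans hu
  have hue : u / (1 - 2 * a' * Qu) = (c * u + 0 * Qu) / (c + a * Qu) := by
    rw [hrel0]; field_simp; ring
  have h1 := rel hK hL h hd0 u (by rw [← hQu, ← hcdef, ← hadef]; exact hden)
  rw [← hQu, ← hcdef, ← hadef, hB, ← hue] at h1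
  have h2 : qf K (z + (u / (1 - 2 * a' * Qu)) • d) = lp * (Qu / (c + a * Qu)) := by
    rw [hp _ (mem_ball_add hG hz hd hu'), h1]
  rw [h2, hrel0, ← hcp]
  field_simp
  ring

theorem lineA2 (hK : SB K) (hL : SB L) (h : Ctr2 K L C A B) {r lp lm : ℝ} {k : ℝ≥0} (hr : 0 < r)
    (hlp : 0 < lp) (hlm : 0 < lm) (hlt : lm < lp) (hLip : LipschitzOnWith k (qf K) (ball 0 r))
    (hp : ∀ z ∈ ball (0 : ℝ × ℝ) r, qf K z = lp * qf L z)
    (hm : ∀ z ∈ ball (0 : ℝ × ℝ) r, qf (-K) z = lm * qf (-L) z)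
    {γ : ℝ → ℝ × ℝ} (hγ : Continuous γ) (hγ0 : ∀ s, γ s ≠ 0)
    (hz : ∀ z ∈ ball (0 : ℝ × ℝ) r, ∃ s ∈ Icc (0 : ℝ) 1, B z (γ s) = 0) :
    ∃ t₀ : ℝ, 0 < t₀ ∧ ∀ z ∈ ball (0 : ℝ × ℝ) (r / 2), ∃ s ∈ Icc (0 : ℝ) 1, B z (γ s) = 0 ∧
      ∃ m : ℝ, ∀ t : ℝ, |t| ≤ t₀ → qf K (z + t • γ s) = qf K z + t * m := by
  obtain ⟨G, hG, hGb⟩ := norm_bound hγ
  set t₀ := r / (2 * G) with ht₀
  have ht₀pos : 0 < t₀ := by positivity
  refine ⟨t₀, ht₀pos, ?_⟩
  have hzero := hz
  intro z hz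
  -- dense set of differentiability points
  have hdense : Dense {w : ℝ × ℝ | w ∈ ball (0 : ℝ × ℝ) r → DifferentiableAt ℝ (qf K) w} :=
    Measure.dense_of_ae (ae_diff hLip)
  have hcl : z ∈ closure (ball (0 : ℝ × ℝ) (r / 2) ∩
      {w : ℝ × ℝ | w ∈ ball (0 : ℝ × ℝ) r → DifferentiableAt ℝ (qf K) w}) :=
    hdense.open_subset_closure_inter isOpen_ball hz
  obtain ⟨w, hw, hwz⟩ := mem_closure_iff_seq_limit.1 hcl
  have hsub : ball (0 : ℝ × ℝ) (r / 2) ⊆ ball 0 r := ball_subset_ball (by linarith)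
  have hex : ∀ n, ∃ s ∈ Icc (0 : ℝ) 1, B (w n) (γ s) = 0 := fun n => hzero _ (hsub (hw n).1)
  choose s hs hsB using hex
  have haff : ∀ n, ∀ t : ℝ, |t| ≤ t₀ →
      t₀ * (qf K (w n + t • γ (s n)) - qf K (w n)) =
        t * (qf K (w n + t₀ • γ (s n)) - qf K (w n)) := by
    intro n t ht
    have e1 := lineA_diff2 hK hL h hG hr hlt hp hm (hγ0 _) (hw n).1 (hGb _ (hs n)) (hsB n)
      ((hw n).2 (hsub (hw n).1)) ht
    have e2 := lineA_diff2 hK hL h hG hr hlt hp hm (hγ0 _) (hw n).1 (hGb _ (hs n)) (hsB n)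
      ((hw n).2 (hsub (hw n).1)) (t := t₀) (by rw [abs_of_pos ht₀pos])
    rw [e1, e2]; ring
  obtain ⟨sl, hsl, φ, hφ, hlim⟩ := isCompact_Icc.tendsto_subseq hs
  have hwφ : Tendsto (fun n => w (φ n)) atTop (𝓝 z) := hwz.comp hφ.tendsto_atTop
  have hγlim : Tendsto (fun n => γ (s (φ n))) atTop (𝓝 (γ sl)) := (hγ.tendsto sl).comp hlim
  refine ⟨sl, hsl, ?_, (qf K (z + t₀ • γ sl) - qf K z) / t₀, ?_⟩
  · have h1 : Tendsto (fun n => B (w (φ n)) (γ (s (φ n)))) atTop (𝓝 (B z (γ sl))) := by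
      have h2 := (h.contB hK hL (z := z) (hγ0 sl))
      exact Tendsto.comp (g := fun p : (ℝ × ℝ) × (ℝ × ℝ) => B p.1 p.2) h2
        (hwφ.prodMk_nhds hγlim)
    have h3 : (fun n => B (w (φ n)) (γ (s (φ n)))) = fun _ => 0 := by
      funext n; exact hsB _
    rw [h3] at h1
    exact (tendsto_nhds_unique tendsto_const_nhds h1).symm
  · intro t ht
    have hQc := qf_continuous hK
    have l1 : Tendsto (fun n => t₀ * (qf K (w (φ n) + t • γ (s (φ n))) - qf K (w (φ n)))) atTop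
        (𝓝 (t₀ * (qf K (z + t • γ sl) - qf K z))) :=
      (((hQc.tendsto _).comp (hwφ.add (hγlim.const_smul t))).sub
        ((hQc.tendsto _).comp hwφ)).const_mul t₀
    have l2 : Tendsto (fun n => t * (qf K (w (φ n) + t₀ • γ (s (φ n))) - qf K (w (φ n)))) atTop
        (𝓝 (t * (qf K (z + t₀ • γ sl) - qf K z))) :=
      (((hQc.tendsto _).comp (hwφ.add (hγlim.const_smul t₀))).sub
        ((hQc.tendsto _).comp hwφ)).const_mul t
    have l3 : (fun n => t₀ * (qf K (w (φ n) + t • γ (s (φ n))) - qf K (w (φ n)))) =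
        fun n => t * (qf K (w (φ n) + t₀ • γ (s (φ n))) - qf K (w (φ n))) := by
      funext n; exact haff _ t ht
    rw [l3] at l1
    have := tendsto_nhds_unique l1 l2
    field_simp
    linear_combination this

end Pool.Agent.Lib.MP_f7db8a.Q
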