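import Pool.Agent.Lib.MP_f7db8a.Q1a
import Pool.Agent.Lib.MP_f7db8a.Q1b
import Pool.Agent.Lib.MP_f7db8a.Q3b

set_option autoImplicit false

/-!
# Segments in the boundary, case of equal ratios
-/

namespace Pool.Agent.Lib.MP_f7db8a.Q

open Module Set Filter Topology Metric
open scoped NNReal

theorem orbit_pos {q : ℝ → ℝ} {r0 α0 μ a b C t1 : ℝ} (hα : 0 < α0) (hb : 0 < b)
    (hC : 0 ≤ C) (h1 : |μ - 1| ≤ C * b) (h2 : |a| ≤ C * b) (h0 : q 0 = 1 / α0)
    (hinv : ∀ α β : ℝ, 0 < α → |β| ≤ r0 * α → q (β / α) = 1 / α → 0 < μ * α + a →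
      |μ * β + b| ≤ r0 * (μ * α + a) → q ((μ * β + b) / (μ * α + a)) = 1 / (μ * α + a))
    (hr : 0 < r0) (ht1 : C * t1 ≤ 1 / 2) (ht2 : C * (α0 + 1) * t1 ≤ α0 / 2)
    (ht3 : t1 ≤ r0 * (α0 / 2)) {β : ℝ} (hβ0 : 0 ≤ β) (hβ1 : β ≤ t1) :
    ∃ β' : ℝ, 0 ≤ β' ∧ β' ≤ β ∧ β ≤ β' + 2 * b ∧
      q (β' / (α0 + ((μ - 1) * α0 + a) / b * β')) = 1 / (α0 + ((μ - 1) * α0 + a) / b * β') := by
  set σ := ((μ - 1) * α0 + a) / b with hσ
  have hσb : σ * b = (μ - 1) * α0 + a := div_mul_cancel₀ _ hb.ne'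
  have hσabs : |σ| ≤ C * (α0 + 1) := by
    rw [hσ, abs_div, abs_of_pos hb, div_le_iff₀ hb]
    calc |(μ - 1) * α0 + a| ≤ |(μ - 1) * α0| + |a| := abs_add_le _ _
      _ = |μ - 1| * α0 + |a| := by rw [abs_mul, abs_of_pos hα]
      _ ≤ C * b * α0 + C * b := by gcongr
      _ = C * (α0 + 1) * b := by ring
  have hpos : ∀ x : ℝ, 0 ≤ x → x ≤ t1 → α0 / 2 ≤ α0 + σ * x := by
    intro x hx0 hx1
    have h3 : |σ * x| ≤ C * (α0 + 1) * t1 := by
      rw [abs_mul, abs_of_nonneg hx0]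
      have : 0 ≤ C * (α0 + 1) := by positivity
      exact mul_le_mul hσabs hx1 hx0 this
    have := (abs_le.1 h3).1
    linarith
  have hstep : ∀ x : ℝ, 0 ≤ x → x ≤ t1 → x + b / 2 ≤ μ * x + b ∧ μ * x + b ≤ x + 3 * b / 2 := by
    intro x hx0 hx1
    have h3 : |(μ - 1) * x| ≤ b / 2 := by
      rw [abs_mul, abs_of_nonneg hx0]
      calc |μ - 1| * x ≤ C * b * x := by gcongr
        _ = (C * x) * b := by ring
        _ ≤ (C * t1) * b := by gcongr
        _ ≤ 1 / 2 * b := by gcongr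
        _ = b / 2 := by ring
    have h4 := abs_le.1 h3
    constructor <;> linarith [h4.1, h4.2]
  have hnext : ∀ x : ℝ, 0 ≤ x → x ≤ t1 → μ * x + b ≤ t1 →
      q (x / (α0 + σ * x)) = 1 / (α0 + σ * x) →
      q ((μ * x + b) / (α0 + σ * (μ * x + b))) = 1 / (α0 + σ * (μ * x + b)) := by
    intro x hx0 hx1 hx2 hq
    have e : μ * (α0 + σ * x) + a = α0 + σ * (μ * x + b) := by
      linear_combination -hσb
    have p1 := hpos x hx0 hx1
    have hs := hstep x hx0 hx1
    have hn0 : 0 ≤ μ * x + b := by linarith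
    have p2 := hpos _ hn0 hx2
    have := hinv (α0 + σ * x) x (by linarith) (by
      rw [abs_of_nonneg hx0]
      calc x ≤ t1 := hx1
        _ ≤ r0 * (α0 / 2) := ht3
        _ ≤ r0 * (α0 + σ * x) := by gcongr) hq (by rw [e]; linarith) (by
      rw [abs_of_nonneg hn0, e]
      calc μ * x + b ≤ t1 := hx2
        _ ≤ r0 * (α0 / 2) := ht3
        _ ≤ r0 * (α0 + σ * (μ * x + b)) := by gcongr)
    rw [e] at this
    exact this
  by_contra hcon
  push Not at hcon
  have hall : ∀ k : ℕ, ∃ x : ℝ, 0 ≤ x ∧ x ≤ β ∧ (k : ℝ) * (b / 2) ≤ x ∧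
      q (x / (α0 + σ * x)) = 1 / (α0 + σ * x) := by
    intro k
    induction k with
    | zero =>
      refine ⟨0, le_rfl, hβ0, by simp, ?_⟩
      rw [mul_zero, add_zero, zero_div]
      exact h0
    | succ k ih =>
      obtain ⟨x, hx0, hx1, hx2, hx3⟩ := ih
      have hs := hstep x hx0 (hx1.trans hβ1)
      have hlt : x + 2 * b < β := by
        by_contra h5
        push Not at h5
        exact hcon x hx0 hx1 h5 hx3
      have hn : μ * x + b ≤ β := by linarith
      refine ⟨μ * x + b, by linarith, hn, ?_, hnext x hx0 (hx1.trans hβ1) (hn.trans hβ1) hx3⟩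
      push_cast
      linarith
  obtain ⟨k, hk⟩ := exists_nat_gt (β / (b / 2))
  obtain ⟨x, hx0, hx1, hx2, hx3⟩ := hall k
  rw [div_lt_iff₀ (by positivity)] at hk
  linarith

variable {K L : Set W3} {C A B : ℝ × ℝ → ℝ × ℝ → ℝ}

/-- forward invariance of the boundary curve -/
theorem inv_fwd (hK : SB K) (hL : SB L) (h : Ctr2 K L C A B) {r l r0 : ℝ}
    (hl : 0 < l) (hp : ∀ z ∈ ball (0 : ℝ × ℝ) r, qf K z = l * qf L z) {z d : ℝ × ℝ}
    (hd : d ≠ 0) (hball : ∀ u : ℝ, |u| ≤ r0 → z + u • d ∈ ball (0 : ℝ × ℝ) r) (α β : ℝ)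
    (hα : 0 < α) (hq : qf K (z + (β / α) • d) = 1 / α)
    (hα' : 0 < C z d / l * α + A z d / l)
    (hβ' : |C z d / l * β + B z d / l| ≤ r0 * (C z d / l * α + A z d / l)) :
    qf K (z + ((C z d / l * β + B z d / l) / (C z d / l * α + A z d / l)) • d) =
      1 / (C z d / l * α + A z d / l) := by
  have e0 : C z d / l * α + A z d / l = (C z d * α + A z d) / l := by ring
  have e1 : C z d / l * β + B z d / l = (C z d * β + B z d) / l := by ring
  have hpos : 0 < C z d * α + A z d := by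
    rw [e0] at hα'
    exact (div_pos_iff_of_pos_right hl).1 hα'
  have e2 : C z d + A z d * (1 / α) = (C z d * α + A z d) / α := by
    field_simp
  have h1 := rel hK hL h hd (z := z) (β / α) (by
    rw [hq, e2]; exact div_pos hpos hα)
  rw [hq, e2] at h1
  have e3 : (C z d * (β / α) + B z d * (1 / α)) / ((C z d * α + A z d) / α) =
      (C z d / l * β + B z d / l) / (C z d / l * α + A z d / l) := by
    rw [e0, e1]
    field_simp
  rw [e3] at h1
  have hb : z + ((C z d / l * β + B z d / l) / (C z d / l * α + A z d / l)) • d ∈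
      ball (0 : ℝ × ℝ) r := by
    apply hball
    rw [abs_div, abs_of_pos hα', div_le_iff₀ hα']
    exact hβ'
  rw [hp _ hb, h1, e0]
  field_simp

/-- backward invariance of the boundary curve, mirrored -/
theorem inv_bwd (hK : SB K) (hL : SB L) (h : Ctr2 K L C A B) {r l r0 : ℝ}
    (hl : 0 < l) (hp : ∀ z ∈ ball (0 : ℝ × ℝ) r, qf K z = l * qf L z) {z d : ℝ × ℝ}
    (hd : d ≠ 0) (hball : ∀ u : ℝ, |u| ≤ r0 → z + u • d ∈ ball (0 : ℝ × ℝ) r) (α β : ℝ)
    (hα : 0 < α) (hβ : |β| ≤ r0 * α) (hq : qf K (z + (-(β / α)) • d) = 1 / α)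
    (hα' : 0 < l / C z d * α + (-(A z d) / C z d)) :
    qf K (z + (-((l / C z d * β + B z d / C z d) / (l / C z d * α + (-(A z d) / C z d)))) • d) =
      1 / (l / C z d * α + (-(A z d) / C z d)) := by
  have hC : 0 < C z d := (h.hom z d hd).1
  have e0 : l / C z d * α + (-(A z d) / C z d) = (l * α - A z d) / C z d := by ring
  have e1 : l / C z d * β + B z d / C z d = (l * β + B z d) / C z d := by ring
  have hpos : 0 < l * α - A z d := by
    rw [e0] at hα'
    exact (div_pos_iff_of_pos_right hC).1 hα'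
  have hb1 : z + (-(β / α)) • d ∈ ball (0 : ℝ × ℝ) r := by
    apply hball
    rw [abs_neg, abs_div, abs_of_pos hα, div_le_iff₀ hα]
    exact hβ
  have hqL : qf L (z + (-(β / α)) • d) = 1 / (l * α) := by
    have h3 := hp _ hb1
    rw [hq] at h3
    rw [eq_div_iff (by positivity)]
    rw [div_eq_iff hα.ne'] at h3
    linarith
  have h1 := rel hL hK h.inv hd (z := z) (-(β / α)) (by
    rw [hqL]
    have : 1 / C z d + -A z d / C z d * (1 / (l * α)) = (l * α - A z d) / (C z d * (l * α)) := by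
      field_simp
      ring
    rw [this]
    exact div_pos hpos (by positivity))
  rw [hqL] at h1
  have e2 : 1 / C z d + -A z d / C z d * (1 / (l * α)) = (l * α - A z d) / (C z d * (l * α)) := by
    field_simp
    ring
  rw [e2] at h1
  have e3 : (1 / C z d * -(β / α) + -B z d / C z d * (1 / (l * α))) /
      ((l * α - A z d) / (C z d * (l * α))) =
      -((l / C z d * β + B z d / C z d) / (l / C z d * α + (-(A z d) / C z d))) := by
    rw [e0, e1]
    field_simp
    ring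
  rw [e3] at h1
  rw [h1, e0]
  field_simp

/-- the parameters are close to those of the scaling -/
theorem near_param (hK : SB K) (hL : SB L) (h : Ctr2 K L C A B) {r l : ℝ} {k : ℝ≥0}
    (hLip : LipschitzOnWith k (qf K) (ball 0 r))
    (hp : ∀ z ∈ ball (0 : ℝ × ℝ) r, qf K z = l * qf L z) {z d : ℝ × ℝ} (hd : d ≠ 0)
    (hz : z ∈ ball (0 : ℝ × ℝ) r) (hpos : 0 < C z d + A z d * qf K z)
    (hb : z + (B z d * qf K z / (C z d + A z d * qf K z)) • d ∈ ball (0 : ℝ × ℝ) r) :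
    |C z d + A z d * qf K z - l| ≤ k * ‖d‖ * |B z d| := by
  have hq : 0 < qf K z := qf_pos hK z
  have h1 := rel hK hL h hd (z := z) 0 (by rw [zero_smul, add_zero]; exact hpos)
  rw [zero_smul, add_zero, mul_zero, zero_add] at h1
  have h2 := hp _ hb
  rw [h1] at h2
  have h3 := hLip.dist_le_mul _ hb _ hz
  rw [Real.dist_eq, h2, dist_eq_norm, add_sub_cancel_left, norm_smul, Real.norm_eq_abs, abs_div,
    abs_mul, abs_of_pos hq, abs_of_pos hpos] at h3
  have e : l * (qf K z / (C z d + A z d * qf K z)) - qf K z =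
      -(C z d + A z d * qf K z - l) * (qf K z / (C z d + A z d * qf K z)) := by
    have e' : ∀ T : ℝ, T ≠ 0 → l * (qf K z / T) - qf K z = -(T - l) * (qf K z / T) := by
      intro T hT
      field_simp
      ring
    exact e' _ hpos.ne'
  rw [e, abs_mul, abs_neg, abs_of_pos (div_pos hq hpos)] at h3
  have h4 : |C z d + A z d * qf K z - l| * (qf K z / (C z d + A z d * qf K z)) ≤
      (k * ‖d‖ * |B z d|) * (qf K z / (C z d + A z d * qf K z)) := by
    calc _ ≤ _ := h3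
      _ = _ := by ring
  exact le_of_mul_le_mul_right h4 (div_pos hq hpos)

theorem exists_seq {g : ℝ → ℝ} (hg : Continuous g) (h0 : g 0 < 0) (h1 : 0 < g 1) :
    ∃ s0 ∈ Icc (0 : ℝ) 1, g s0 = 0 ∧ ∃ sn : ℕ → ℝ, (∀ n, sn n ∈ Icc (0 : ℝ) 1 ∧ 0 < g (sn n)) ∧
      Tendsto sn atTop (𝓝 s0) := by
  set S : Set ℝ := Icc (0 : ℝ) 1 ∩ {s | g s ≤ 0} with hS
  have hcl : IsClosed {s | g s ≤ 0} := isClosed_le hg continuous_const
  have hcomp : IsCompact S := isCompact_Icc.inter_right hcl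
  have hne : S.Nonempty := ⟨0, ⟨le_rfl, zero_le_one⟩, h0.le⟩
  have hmem := hcomp.sSup_mem hne
  set s0 := sSup S with hs0
  have hpos : ∀ s : ℝ, s0 < s → s ≤ 1 → 0 < g s := by
    intro s hs hs1
    by_contra hcon
    push Not at hcon
    have : s ≤ s0 := le_csSup hcomp.bddAbove ⟨⟨hmem.1.1.trans hs.le, hs1⟩, hcon⟩
    linarith
  have hlt : s0 < 1 := by
    rcases hmem.1.2.eq_or_lt with h2 | h2
    · have := hmem.2
      rw [h2] at this
      exact absurd h1 (not_lt.2 this)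
    · exact h2
  set sn : ℕ → ℝ := fun n => s0 + (1 - s0) * (1 / ((n : ℝ) + 1)) with hsn
  have hlim : Tendsto sn atTop (𝓝 s0) := by
    have h3 := (tendsto_one_div_add_atTop_nhds_zero_nat (𝕜 := ℝ)).const_mul (1 - s0)
    have h4 := h3.const_add s0
    rw [mul_zero, add_zero] at h4
    exact h4
  have hsn1 : ∀ n, s0 < sn n ∧ sn n ≤ 1 := by
    intro n
    have hn : (0 : ℝ) < (n : ℝ) + 1 := by positivity
    have h3 : 0 < 1 / ((n : ℝ) + 1) := by positivity
    have h4 : 1 / ((n : ℝ) + 1) ≤ 1 := by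
      rw [div_le_one hn]
      have : (0 : ℝ) ≤ n := Nat.cast_nonneg n
      linarith
    constructor
    · simp only [hsn]; nlinarith
    · simp only [hsn]; nlinarith
  refine ⟨s0, hmem.1, le_antisymm hmem.2 ?_, sn, ?_, hlim⟩
  · exact ge_of_tendsto' ((hg.tendsto s0).comp hlim) fun n =>
      (hpos _ (hsn1 n).1 (hsn1 n).2).le
  · intro n
    exact ⟨⟨hmem.1.1.trans (hsn1 n).1.le, (hsn1 n).2⟩, hpos _ (hsn1 n).1 (hsn1 n).2⟩

/-- the limit argument for one point -/
theorem seg_point (hK : SB K) (hL : SB L) (h : Ctr2 K L C A B) {r l Cs r0 t1 : ℝ}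
    (hl : 0 < l) (hp : ∀ z ∈ ball (0 : ℝ × ℝ) r, qf K z = l * qf L z) {z D : ℝ × ℝ}
    {Dn : ℕ → ℝ × ℝ} (hDn : ∀ n, Dn n ≠ 0) (hlim : Tendsto Dn atTop (𝓝 D))
    (hball : ∀ n, ∀ u : ℝ, |u| ≤ r0 → z + u • Dn n ∈ ball (0 : ℝ × ℝ) r)
    (hr0 : 0 < r0) (hCs : 0 ≤ Cs)
    (hBn : ∀ n, 0 < B z (Dn n)) (hB0 : Tendsto (fun n => B z (Dn n)) atTop (𝓝 0))
    (hC : ∀ n, |C z (Dn n) - l| ≤ Cs * B z (Dn n)) (hA : ∀ n, |A z (Dn n)| ≤ Cs * B z (Dn n))
    (ht1 : Cs * t1 ≤ 1 / 2) (ht2 : Cs * (1 / qf K z + 1) * t1 ≤ 1 / qf K z / 2)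
    (ht3 : t1 ≤ r0 * (1 / qf K z / 2)) :
    ∃ σ : ℝ, |σ| ≤ Cs * (1 / qf K z + 1) ∧ ∀ β : ℝ, |β| ≤ t1 →
      qf K (z + (β / (1 / qf K z + σ * β)) • D) = 1 / (1 / qf K z + σ * β) := by
  have hq : 0 < qf K z := qf_pos hK z
  set α0 := 1 / qf K z with hα0
  have hα : 0 < α0 := by positivity
  have hCpos : ∀ n, 0 < C z (Dn n) := fun n => (h.hom z (Dn n) (hDn n)).1
  set σn : ℕ → ℝ := fun n => ((C z (Dn n) - l) * α0 + A z (Dn n)) / B z (Dn n) with hσn
  have hσb : ∀ n, |σn n| ≤ Cs * (α0 + 1) := by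
    intro n
    simp only [hσn]
    rw [abs_div, abs_of_pos (hBn n), div_le_iff₀ (hBn n)]
    calc |(C z (Dn n) - l) * α0 + A z (Dn n)| ≤ |(C z (Dn n) - l) * α0| + |A z (Dn n)| :=
          abs_add_le _ _
      _ = |C z (Dn n) - l| * α0 + |A z (Dn n)| := by rw [abs_mul, abs_of_pos hα]
      _ ≤ Cs * B z (Dn n) * α0 + Cs * B z (Dn n) := by
          have h1 := hC n
          have h2 := hA n
          gcongr
      _ = Cs * (α0 + 1) * B z (Dn n) := by ring
  -- forward and backward orbits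
  have hfwd : ∀ n, ∀ β : ℝ, 0 ≤ β → β ≤ t1 → ∃ β' : ℝ, |β' - β| ≤ 2 * (B z (Dn n) / l) ∧
      qf K (z + (β' / (α0 + σn n * β')) • Dn n) = 1 / (α0 + σn n * β') := by
    intro n β hβ0 hβ1
    have hb : 0 < B z (Dn n) / l := div_pos (hBn n) hl
    have h1 : |C z (Dn n) / l - 1| ≤ Cs * (B z (Dn n) / l) := by
      have : C z (Dn n) / l - 1 = (C z (Dn n) - l) / l := by field_simp
      rw [this, abs_div, abs_of_pos hl, div_le_iff₀ hl]
      calc _ ≤ _ := hC n
        _ = _ := by field_simp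
    have h2 : |A z (Dn n) / l| ≤ Cs * (B z (Dn n) / l) := by
      rw [abs_div, abs_of_pos hl, div_le_iff₀ hl]
      calc _ ≤ _ := hA n
        _ = _ := by field_simp
    obtain ⟨β', k1, k2, k3, k4⟩ := orbit_pos (q := fun u => qf K (z + u • Dn n)) (r0 := r0)
      (α0 := α0) (μ := C z (Dn n) / l) (a := A z (Dn n) / l) (b := B z (Dn n) / l) (C := Cs)
      (t1 := t1) hα hb hCs h1 h2 (by
        rw [zero_smul, add_zero, hα0, one_div_one_div])
      (fun α β hα1 _ hq1 hα2 hβ2 =>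
        inv_fwd hK hL h hl hp (hDn n) (hball n) α β hα1 hq1 hα2 hβ2)
      hr0 ht1 ht2 ht3 hβ0 hβ1
    have e : ((C z (Dn n) / l - 1) * α0 + A z (Dn n) / l) / (B z (Dn n) / l) = σn n := by
      simp only [hσn]
      have := (hBn n).ne'
      field_simp
    rw [e] at k4
    exact ⟨β', by rw [abs_le]; constructor <;> linarith, k4⟩
  have hbwd : ∀ n, ∀ β : ℝ, 0 ≤ β → β ≤ t1 → ∃ β' : ℝ,
      |β' - (-β)| ≤ 2 * (B z (Dn n) / C z (Dn n)) ∧
      qf K (z + (β' / (α0 + σn n * β')) • Dn n) = 1 / (α0 + σn n * β') := by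
    intro n β hβ0 hβ1
    have hCn := hCpos n
    have hb : 0 < B z (Dn n) / C z (Dn n) := div_pos (hBn n) hCn
    have h1 : |l / C z (Dn n) - 1| ≤ Cs * (B z (Dn n) / C z (Dn n)) := by
      have : l / C z (Dn n) - 1 = -(C z (Dn n) - l) / C z (Dn n) := by field_simp; ring
      rw [this, abs_div, abs_neg, abs_of_pos hCn, div_le_iff₀ hCn]
      calc _ ≤ _ := hC n
        _ = _ := by field_simp
    have h2 : |-(A z (Dn n)) / C z (Dn n)| ≤ Cs * (B z (Dn n) / C z (Dn n)) := by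
      rw [abs_div, abs_neg, abs_of_pos hCn, div_le_iff₀ hCn]
      calc _ ≤ _ := hA n
        _ = _ := by field_simp
    obtain ⟨β', k1, k2, k3, k4⟩ := orbit_pos (q := fun u => qf K (z + (-u) • Dn n)) (r0 := r0)
      (α0 := α0) (μ := l / C z (Dn n)) (a := -(A z (Dn n)) / C z (Dn n))
      (b := B z (Dn n) / C z (Dn n)) (C := Cs) (t1 := t1) hα hb hCs h1 h2 (by
        rw [neg_zero, zero_smul, add_zero, hα0, one_div_one_div])
      (fun α β hα1 hβ1 hq1 hα2 _ =>
        inv_bwd hK hL h hl hp (hDn n) (hball n) α β hα1 hβ1 hq1 hα2)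
      hr0 ht1 ht2 ht3 hβ0 hβ1
    have e : ((l / C z (Dn n) - 1) * α0 + -(A z (Dn n)) / C z (Dn n)) /
        (B z (Dn n) / C z (Dn n)) = -σn n := by
      simp only [hσn]
      have := (hBn n).ne'
      field_simp
      ring
    rw [e] at k4
    refine ⟨-β', by rw [abs_le]; constructor <;> linarith, ?_⟩
    have e1 : α0 + σn n * -β' = α0 + -σn n * β' := by ring
    rw [e1, neg_div]
    exact k4
  -- a convergent subsequence
  obtain ⟨σ, hσmem, φ, hφ, hφlim⟩ := (isCompact_Icc (a := -(Cs * (α0 + 1)))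
    (b := Cs * (α0 + 1))).tendsto_subseq (x := σn) (fun n => abs_le.1 (hσb n))
  have hσabs : |σ| ≤ Cs * (α0 + 1) := abs_le.2 hσmem
  have hCtend : Tendsto (fun n => C z (Dn n)) atTop (𝓝 l) := by
    rw [tendsto_iff_norm_sub_tendsto_zero]
    apply squeeze_zero (fun n => norm_nonneg _) (fun n => hC n)
    have := hB0.const_mul Cs
    rwa [mul_zero] at this
  have hden : ∀ β : ℝ, |β| ≤ t1 → 0 < α0 + σ * β := by
    intro β hβ
    have h3 : |σ * β| ≤ α0 / 2 := by
      rw [abs_mul]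
      calc |σ| * |β| ≤ Cs * (α0 + 1) * t1 := by gcongr
        _ ≤ α0 / 2 := ht2
    have := (abs_le.1 h3).1
    linarith
  have hfin : ∀ β : ℝ, |β| ≤ t1 → ∀ en : ℕ → ℝ, Tendsto en atTop (𝓝 0) →
      (∀ n, ∃ β' : ℝ, |β' - β| ≤ en n ∧
        qf K (z + (β' / (α0 + σn n * β')) • Dn n) = 1 / (α0 + σn n * β')) →
      qf K (z + (β / (α0 + σ * β)) • D) = 1 / (α0 + σ * β) := by
    intro β hβ en hen hex
    choose βn hβn1 hβn2 using hex
    have hβlim : Tendsto βn atTop (𝓝 β) := by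
      rw [tendsto_iff_norm_sub_tendsto_zero]
      exact squeeze_zero (fun n => norm_nonneg _) hβn1 hen
    have hβφ := hβlim.comp hφ.tendsto_atTop
    have hDφ := hlim.comp hφ.tendsto_atTop
    have hd1 : Tendsto (fun n => α0 + σn (φ n) * βn (φ n)) atTop (𝓝 (α0 + σ * β)) :=
      (hφlim.mul hβφ).const_add α0
    have hne := (hden β hβ).ne'
    have hu : Tendsto (fun n => βn (φ n) / (α0 + σn (φ n) * βn (φ n))) atTop
        (𝓝 (β / (α0 + σ * β))) := hβφ.div hd1 hne
    have harg : Tendsto (fun n => z + (βn (φ n) / (α0 + σn (φ n) * βn (φ n))) • Dn (φ n)) atTop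
        (𝓝 (z + (β / (α0 + σ * β)) • D)) := (hu.smul hDφ).const_add z
    have hcont := (qf_continuous hK).tendsto (z + (β / (α0 + σ * β)) • D)
    have hleft := hcont.comp harg
    have hright : Tendsto (fun n => 1 / (α0 + σn (φ n) * βn (φ n))) atTop
        (𝓝 (1 / (α0 + σ * β))) := tendsto_const_nhds.div hd1 hne
    refine tendsto_nhds_unique hleft ?_
    refine hright.congr fun n => ?_
    exact (hβn2 (φ n)).symm
  refine ⟨σ, hσabs, ?_⟩
  intro β hβ
  rcases le_total 0 β with hβ0 | hβ0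
  · refine hfin β hβ (fun n => 2 * (B z (Dn n) / l)) ?_ (fun n => hfwd n β hβ0
      (by rwa [abs_of_nonneg hβ0] at hβ))
    have := (hB0.div_const l).const_mul 2
    rwa [zero_div, mul_zero] at this
  · refine hfin β hβ (fun n => 2 * (B z (Dn n) / C z (Dn n))) ?_ (fun n => ?_)
    · have := (hB0.div hCtend hl.ne').const_mul 2
      rwa [zero_div, mul_zero] at this
    · have := hbwd n (-β) (by linarith) (by rwa [abs_of_nonpos hβ0] at hβ)
      rwa [neg_neg] at this


theorem lineB2 (hK : SB K) (hL : SB L) (h : Ctr2 K L C A B) {r l : ℝ} {k : ℝ≥0} (hr : 0 < r)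
    (hl : 0 < l) (hLip : LipschitzOnWith k (qf K) (ball 0 r))
    (hLip' : LipschitzOnWith k (qf (-K)) (ball 0 r))
    (hp : ∀ z ∈ ball (0 : ℝ × ℝ) r, qf K z = l * qf L z)
    (hm : ∀ z ∈ ball (0 : ℝ × ℝ) r, qf (-K) z = l * qf (-L) z)
    {γ : ℝ → ℝ × ℝ} (hγ : Continuous γ) (hγ0 : ∀ s, γ s ≠ 0)
    (hsgn : ∀ z ∈ ball (0 : ℝ × ℝ) r, B z (γ 0) < 0 ∧ 0 < B z (γ 1)) :
    ∃ t₀ : ℝ, 0 < t₀ ∧ ∀ z ∈ ball (0 : ℝ × ℝ) (r / 2), ∃ s ∈ Icc (0 : ℝ) 1, B z (γ s) = 0 ∧
      ∃ m : ℝ, ∀ t : ℝ, |t| ≤ t₀ → qf K (z + t • γ s) = qf K z + t * m := by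
  -- constants
  obtain ⟨Γ, hΓ⟩ := (isCompact_Icc (a := (0 : ℝ)) (b := 1)).exists_bound_of_continuousOn
    hγ.continuousOn
  have hΓ0 : 0 ≤ Γ := (norm_nonneg _).trans (hΓ 0 ⟨le_rfl, zero_le_one⟩)
  have hcb : IsCompact (closedBall (0 : ℝ × ℝ) (r / 2)) := isCompact_closedBall _ _
  have hneb : (closedBall (0 : ℝ × ℝ) (r / 2)).Nonempty :=
    ⟨0, mem_closedBall_self (by linarith)⟩
  obtain ⟨x1, -, hx1⟩ := hcb.exists_isMinOn hneb (qf_continuous hK).continuousOn
  obtain ⟨x2, -, hx2⟩ := hcb.exists_isMaxOn hneb (qf_continuous hK).continuousOn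
  obtain ⟨x3, -, hx3⟩ := hcb.exists_isMinOn hneb (qf_continuous hK.neg).continuousOn
  set m := min (qf K x1) (qf (-K) x3) with hmdef
  set M := qf K x2 with hMdef
  have hm0 : 0 < m := lt_min (qf_pos hK _) (qf_pos hK.neg _)
  have hM0 : 0 < M := qf_pos hK _
  set Cs := (k : ℝ) * Γ * (1 + M / m) + k * Γ / m with hCsdef
  have hk0 : (0 : ℝ) ≤ k := k.coe_nonneg
  have hCs : 0 ≤ Cs := by positivity
  set r0 := r / (2 * (Γ + 1)) with hr0def
  have hr0 : 0 < r0 := by positivity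
  set t1 := min (1 / (2 * (Cs + 1))) (min (1 / M / (2 * ((Cs + 1) * (1 / m + 1)))) (r0 * (1 / M / 2)))
    with ht1def
  have ht1pos : 0 < t1 := by
    refine lt_min (by positivity) (lt_min (by positivity) (by positivity))
  set Sg := Cs * (1 / m + 1) with hSg
  have hSg0 : 0 ≤ Sg := by positivity
  refine ⟨min (1 / (2 * (Sg + 1))) (t1 * m / 2), lt_min (by positivity) (by positivity), ?_⟩
  intro z hz
  have hzc : z ∈ closedBall (0 : ℝ × ℝ) (r / 2) := ball_subset_closedBall hz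
  have hzr : z ∈ ball (0 : ℝ × ℝ) r := ball_subset_ball (by linarith) hz
  have hq : 0 < qf K z := qf_pos hK z
  have hq' : 0 < qf (-K) z := qf_pos hK.neg z
  have hqm : m ≤ qf K z := (min_le_left _ _).trans (hx1 hzc)
  have hqM : qf K z ≤ M := hx2 hzc
  have hqm' : m ≤ qf (-K) z := (min_le_right _ _).trans (hx3 hzc)
  -- continuity along the curve
  have hcurve : ∀ s, ContinuousAt (fun s => ((z, γ s) : (ℝ × ℝ) × (ℝ × ℝ))) s := by
    intro s
    exact (continuous_const.prodMk hγ).continuousAt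
  have hgB : Continuous (fun s => B z (γ s)) := by
    rw [continuous_iff_continuousAt]
    intro s
    exact ContinuousAt.comp (f := fun s => ((z, γ s) : (ℝ × ℝ) × (ℝ × ℝ)))
      (g := fun p : (ℝ × ℝ) × (ℝ × ℝ) => B p.1 p.2) (h.contB hK hL (hγ0 s)) (hcurve s)
  have hgA : Continuous (fun s => A z (γ s)) := by
    rw [continuous_iff_continuousAt]
    intro s
    exact ContinuousAt.comp (f := fun s => ((z, γ s) : (ℝ × ℝ) × (ℝ × ℝ)))
      (g := fun p : (ℝ × ℝ) × (ℝ × ℝ) => A p.1 p.2) (h.contA hK hL (hγ0 s)) (hcurve s)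
  have hgC : Continuous (fun s => C z (γ s)) := by
    rw [continuous_iff_continuousAt]
    intro s
    exact ContinuousAt.comp (f := fun s => ((z, γ s) : (ℝ × ℝ) × (ℝ × ℝ)))
      (g := fun p : (ℝ × ℝ) × (ℝ × ℝ) => C p.1 p.2) (h.contC hK hL (hγ0 s)) (hcurve s)
  obtain ⟨s0, hs0, hs0B, sn, hsn, hsnlim⟩ := exists_seq hgB (hsgn z hzr).1 (hsgn z hzr).2
  refine ⟨s0, hs0, hs0B, ?_⟩
  -- the limit values
  obtain ⟨z1, z2, z3, z4⟩ := zero_dir hK hL h (hγ0 s0) hs0B
  have hlim1 : C z (γ s0) + A z (γ s0) * qf K z = l := by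
    have h1 := hp z hzr
    have hqL := qf_pos hL z
    rw [h1] at z1
    have : l = C z (γ s0) + A z (γ s0) * qf K z := by
      have h2 := mul_right_cancel₀ hqL.ne' z1
      rw [h1]; exact h2
    exact this.symm
  have hlim2 : C z (γ s0) - A z (γ s0) * qf (-K) z = l := by
    have h1 := hm z hzr
    have hqL := qf_pos hL.neg z
    rw [h1] at z2
    have : l = C z (γ s0) - A z (γ s0) * qf (-K) z := by
      have h2 := mul_right_cancel₀ hqL.ne' z2
      rw [h1]; exact h2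
    exact this.symm
  -- eventually everything is near
  have ev1 : ∀ᶠ n in atTop, 0 < C z (γ (sn n)) + A z (γ (sn n)) * qf K z := by
    have hc : Continuous (fun s => C z (γ s) + A z (γ s) * qf K z) :=
      hgC.add (hgA.mul continuous_const)
    have ht := (hc.tendsto s0).comp hsnlim
    rw [hlim1] at ht
    exact ht.eventually (lt_mem_nhds hl)
  have ev2 : ∀ᶠ n in atTop, 0 < C z (γ (sn n)) - A z (γ (sn n)) * qf (-K) z := by
    have hc : Continuous (fun s => C z (γ s) - A z (γ s) * qf (-K) z) :=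
      hgC.sub (hgA.mul continuous_const)
    have ht := (hc.tendsto s0).comp hsnlim
    rw [hlim2] at ht
    exact ht.eventually (lt_mem_nhds hl)
  have ev3 : ∀ᶠ n in atTop, z + (B z (γ (sn n)) * qf K z /
      (C z (γ (sn n)) + A z (γ (sn n)) * qf K z)) • γ (sn n) ∈ ball (0 : ℝ × ℝ) r := by
    have hc : ContinuousAt (fun s => z + (B z (γ s) * qf K z /
        (C z (γ s) + A z (γ s) * qf K z)) • γ s) s0 := by
      apply ContinuousAt.add continuousAt_const
      exact ContinuousAt.smul (((hgB.mul continuous_const).continuousAt).div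
        ((hgC.add (hgA.mul continuous_const)).continuousAt) (by
          show C z (γ s0) + A z (γ s0) * qf K z ≠ 0
          rw [hlim1]; exact hl.ne'))
        hγ.continuousAt
    have ht := hc.tendsto.comp hsnlim
    simp only [hs0B, zero_mul, zero_div, zero_smul, add_zero] at ht
    exact ht.eventually (isOpen_ball.mem_nhds hzr)
  have ev4 : ∀ᶠ n in atTop, z + (-B z (γ (sn n)) * qf (-K) z /
      (C z (γ (sn n)) + -A z (γ (sn n)) * qf (-K) z)) • γ (sn n) ∈ ball (0 : ℝ × ℝ) r := by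
    have hlim2' : C z (γ s0) + -A z (γ s0) * qf (-K) z = l := by
      rw [neg_mul, ← sub_eq_add_neg]; exact hlim2
    have hc : ContinuousAt (fun s => z + (-B z (γ s) * qf (-K) z /
        (C z (γ s) + -A z (γ s) * qf (-K) z)) • γ s) s0 := by
      apply ContinuousAt.add continuousAt_const
      exact ContinuousAt.smul (((hgB.neg.mul continuous_const).continuousAt).div
        ((hgC.add (hgA.neg.mul continuous_const)).continuousAt) (by
          show C z (γ s0) + -A z (γ s0) * qf (-K) z ≠ 0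
          rw [hlim2']; exact hl.ne'))
        hγ.continuousAt
    have ht := hc.tendsto.comp hsnlim
    simp only [hs0B, neg_zero, zero_mul, zero_div, zero_smul, add_zero] at ht
    exact ht.eventually (isOpen_ball.mem_nhds hzr)
  obtain ⟨N, hN⟩ := Filter.eventually_atTop.1 (ev1.and (ev2.and (ev3.and ev4)))
  -- the shifted sequence
  set Dn : ℕ → ℝ × ℝ := fun n => γ (sn (n + N)) with hDndef
  have hshift : Tendsto (fun n => sn (n + N)) atTop (𝓝 s0) :=
    hsnlim.comp (tendsto_add_atTop_nat N)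
  have hDn0 : ∀ n, Dn n ≠ 0 := fun n => hγ0 _
  have hDnlim : Tendsto Dn atTop (𝓝 (γ s0)) := (hγ.tendsto s0).comp hshift
  have hDnΓ : ∀ n, ‖Dn n‖ ≤ Γ := fun n => hΓ _ (hsn (n + N)).1
  have hBn : ∀ n, 0 < B z (Dn n) := fun n => (hsn (n + N)).2
  have hB0 : Tendsto (fun n => B z (Dn n)) atTop (𝓝 0) := by
    have := (hgB.tendsto s0).comp hshift
    rw [hs0B] at this
    exact this
  have hest : ∀ n, |C z (Dn n) - l| ≤ Cs * B z (Dn n) ∧ |A z (Dn n)| ≤ Cs * B z (Dn n) := by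
    intro n
    obtain ⟨f1, f2, f3, f4⟩ := hN (n + N) (by omega)
    have g1 := near_param hK hL h hLip hp (hDn0 n) hzr f1 f3
    have g2 := near_param hK.neg hL.neg h.neg hLip' hm (hDn0 n) hzr
      (by
        show 0 < C z (Dn n) + -A z (Dn n) * qf (-K) z
        rw [neg_mul, ← sub_eq_add_neg]; exact f2) f4
    have g2' : |C z (Dn n) + -A z (Dn n) * qf (-K) z - l| ≤ k * ‖Dn n‖ * |-B z (Dn n)| := g2
    rw [abs_neg] at g2'
    rw [abs_of_pos (hBn n)] at g1 g2'
    have hb := hBn n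
    have hkΓ : (k : ℝ) * ‖Dn n‖ * B z (Dn n) ≤ k * Γ * B z (Dn n) := by
      have := hDnΓ n
      gcongr
    have g3 := abs_le.1 (g1.trans hkΓ)
    have g4 := abs_le.1 (g2'.trans hkΓ)
    have hA' : |A z (Dn n)| * m ≤ k * Γ * B z (Dn n) := by
      have h5 : |A z (Dn n) * (qf K z + qf (-K) z)| ≤ 2 * (k * Γ * B z (Dn n)) := by
        rw [abs_le]
        constructor <;> nlinarith [g3.1, g3.2, g4.1, g4.2]
      rw [abs_mul, abs_of_pos (add_pos hq hq')] at h5
      have h6 : |A z (Dn n)| * (2 * m) ≤ |A z (Dn n)| * (qf K z + qf (-K) z) :=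
        mul_le_mul_of_nonneg_left (by linarith) (abs_nonneg _)
      linarith
    have hA'' : |A z (Dn n)| ≤ k * Γ / m * B z (Dn n) := by
      rw [div_mul_eq_mul_div, le_div_iff₀ hm0]
      exact hA'
    constructor
    · have h7 : |C z (Dn n) - l| ≤ k * Γ * B z (Dn n) + |A z (Dn n)| * M := by
        have h8 : |A z (Dn n) * qf K z| ≤ |A z (Dn n)| * M := by
          rw [abs_mul, abs_of_pos hq]
          exact mul_le_mul_of_nonneg_left hqM (abs_nonneg _)
        have h9 := abs_le.1 h8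
        rw [abs_le]
        constructor <;> linarith [g3.1, g3.2, h9.1, h9.2]
      have h10 : |A z (Dn n)| * M ≤ k * Γ / m * B z (Dn n) * M :=
        mul_le_mul_of_nonneg_right hA'' hM0.le
      have h11 : Cs * B z (Dn n) = k * Γ * B z (Dn n) + k * Γ / m * B z (Dn n) * M +
          k * Γ / m * B z (Dn n) := by
        rw [hCsdef]; ring
      have h12 : 0 ≤ k * Γ / m * B z (Dn n) := by positivity
      linarith
    · have h11 : Cs * B z (Dn n) = k * Γ * B z (Dn n) + k * Γ / m * B z (Dn n) * M +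
          k * Γ / m * B z (Dn n) := by
        rw [hCsdef]; ring
      have h12 : 0 ≤ k * Γ / m * B z (Dn n) * M := by positivity
      have h13 : 0 ≤ k * Γ * B z (Dn n) := by positivity
      linarith
  have hball : ∀ n, ∀ u : ℝ, |u| ≤ r0 → z + u • Dn n ∈ ball (0 : ℝ × ℝ) r := by
    intro n u hu
    rw [mem_ball_zero_iff] at hz ⊢
    calc ‖z + u • Dn n‖ ≤ ‖z‖ + ‖u • Dn n‖ := norm_add_le _ _
      _ = ‖z‖ + |u| * ‖Dn n‖ := by rw [norm_smul, Real.norm_eq_abs]
      _ ≤ ‖z‖ + r0 * Γ := by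
          have := hDnΓ n
          gcongr
      _ < r / 2 + r / 2 := by
          have : r0 * Γ ≤ r / 2 := by
            rw [hr0def, div_mul_eq_mul_div, div_le_div_iff₀ (by positivity) two_pos]
            nlinarith
          linarith
      _ = r := by ring
  have hαm : 1 / qf K z ≤ 1 / m := one_div_le_one_div_of_le hm0 hqm
  have hαM : 1 / M ≤ 1 / qf K z := one_div_le_one_div_of_le hq hqM
  have hα : 0 < 1 / qf K z := by positivity
  obtain ⟨σ, hσ, hseg⟩ := seg_point hK hL h (Cs := Cs) (r0 := r0) (t1 := t1) hl hp hDn0 hDnlim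
    hball hr0 hCs hBn hB0 (fun n => (hest n).1) (fun n => (hest n).2)
    (by
      have h1 : t1 ≤ 1 / (2 * (Cs + 1)) := min_le_left _ _
      calc Cs * t1 ≤ Cs * (1 / (2 * (Cs + 1))) := by gcongr
        _ ≤ 1 / 2 := by
            rw [mul_one_div, div_le_div_iff₀ (by positivity) two_pos]
            nlinarith)
    (by
      have h1 : t1 ≤ 1 / M / (2 * ((Cs + 1) * (1 / m + 1))) :=
        (min_le_right _ _).trans (min_le_left _ _)
      have h2 : 0 < (Cs + 1) * (1 / m + 1) := by positivity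
      calc Cs * (1 / qf K z + 1) * t1 ≤ (Cs + 1) * (1 / m + 1) * t1 := by
            gcongr
            linarith
        _ ≤ (Cs + 1) * (1 / m + 1) * (1 / M / (2 * ((Cs + 1) * (1 / m + 1)))) := by gcongr
        _ = 1 / M / 2 := by field_simp
        _ ≤ 1 / qf K z / 2 := by gcongr)
    (by
      have h1 : t1 ≤ r0 * (1 / M / 2) := (min_le_right _ _).trans (min_le_right _ _)
      calc t1 ≤ r0 * (1 / M / 2) := h1
        _ ≤ r0 * (1 / qf K z / 2) := by gcongr)
  refine ⟨-(σ * qf K z), ?_⟩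
  intro t ht
  have hσS : |σ| ≤ Sg := hσ.trans (by rw [hSg]; gcongr)
  have ht2 : |t| ≤ 1 / (2 * (Sg + 1)) := ht.trans (min_le_left _ _)
  have ht3 : |t| ≤ t1 * m / 2 := ht.trans (min_le_right _ _)
  have hσt : |σ * t| ≤ 1 / 2 := by
    rw [abs_mul]
    calc |σ| * |t| ≤ Sg * (1 / (2 * (Sg + 1))) := by gcongr
      _ ≤ 1 / 2 := by
          rw [mul_one_div, div_le_div_iff₀ (by positivity) two_pos]
          nlinarith
  have hden : 1 / 2 ≤ 1 - σ * t := by
    have := (abs_le.1 hσt).2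
    linarith
  have hden0 : 0 < 1 - σ * t := by linarith
  have hβ : |1 / qf K z * t / (1 - σ * t)| ≤ t1 := by
    rw [abs_div, abs_mul, abs_of_pos hα, abs_of_pos hden0, div_le_iff₀ hden0]
    calc 1 / qf K z * |t| ≤ 1 / m * (t1 * m / 2) := by gcongr
      _ = t1 * (1 / 2) := by field_simp
      _ ≤ t1 * (1 - σ * t) := by gcongr
  have hfin := hseg _ hβ
  have e1 : 1 / qf K z + σ * (1 / qf K z * t / (1 - σ * t)) = 1 / qf K z / (1 - σ * t) := by
    have e' : ∀ a w : ℝ, w ≠ 0 → w = 1 - σ * t → a + σ * (a * t / w) = a / w := by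
      intro a w hw hwe
      rw [eq_div_iff hw, add_mul, mul_assoc σ, div_mul_cancel₀ _ hw, hwe]
      ring
    exact e' _ _ hden0.ne' rfl
  rw [e1] at hfin
  have e2 : 1 / qf K z * t / (1 - σ * t) / (1 / qf K z / (1 - σ * t)) = t := by
    have e' : ∀ a w : ℝ, a ≠ 0 → w ≠ 0 → a * t / w / (a / w) = t := by
      intro a w ha hw
      rw [div_div_div_cancel_right₀ hw, mul_div_assoc, mul_div_cancel₀]
      exact ha
    exact e' _ _ hα.ne' hden0.ne'
  have e3 : 1 / (1 / qf K z / (1 - σ * t)) = qf K z + t * (-(σ * qf K z)) := by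
    rw [one_div_div, div_div_eq_mul_div, div_one]
    ring
  rw [e2, e3] at hfin
  exact hfin

end Pool.Agent.Lib.MP_f7db8a.Q
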