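import Pool.Agent.Lib.MP_f7db8a.Q1b
import Pool.Agent.Lib.MP_f7db8a.Q3a
import Pool.Agent.Lib.MP_f7db8a.Q3c
import Pool.Agent.Lib.MP_f7db8a.Q4
import Pool.Agent.Lib.MP_f7db8a.Q5

set_option autoImplicit false

/-!
# Two star bodies: local affinity of the chart function
-/

namespace Pool.Agent.Lib.MP_f7db8a.Q

open Module Set Filter Topology Metric
open scoped NNReal

variable {K L : Set W3} {C A B : ℝ × ℝ → ℝ × ℝ → ℝ}

/-- the case in which the ratio at the positive side is the smaller one, by symmetry -/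
theorem lines2 (hK : SB K) (hL : SB L) (h : Ctr2 K L C A B) {r lp lm : ℝ} {k : ℝ≥0} (hr : 0 < r)
    (hlp : 0 < lp) (hlm : 0 < lm) (hLip : LipschitzOnWith k (qf K) (ball 0 r))
    (hLipL : LipschitzOnWith k (qf L) (ball 0 r))
    (hLip' : LipschitzOnWith k (qf (-K)) (ball 0 r))
    (hp : ∀ z ∈ ball (0 : ℝ × ℝ) r, qf K z = lp * qf L z)
    (hm : ∀ z ∈ ball (0 : ℝ × ℝ) r, qf (-K) z = lm * qf (-L) z)
    {γ : ℝ → ℝ × ℝ} (hγ : Continuous γ) (hγ0 : ∀ s, γ s ≠ 0)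
    (hsgn : ∀ z ∈ ball (0 : ℝ × ℝ) r, B z (γ 0) < 0 ∧ 0 < B z (γ 1)) :
    ∃ t₀ : ℝ, 0 < t₀ ∧ ∀ z ∈ ball (0 : ℝ × ℝ) (r / 2), ∃ s ∈ Icc (0 : ℝ) 1, B z (γ s) = 0 ∧
      ∃ m : ℝ, ∀ t : ℝ, |t| ≤ t₀ → qf K (z + t • γ s) = qf K z + t * m := by
  have hz : ∀ z ∈ ball (0 : ℝ × ℝ) r, ∃ s ∈ Icc (0 : ℝ) 1, B z (γ s) = 0 := fun z hz =>
    exists_zero2 hK hL h hγ hγ0 (hsgn z hz).1 (hsgn z hz).2
  rcases lt_trichotomy lm lp with hlt | heq | hgt
  · exact lineA2 hK hL h hr hlp hlm hlt hLip hp hm hγ hγ0 hz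
  · subst heq
    exact lineB2 hK hL h hr hlm hLip hLip' hp hm hγ hγ0 hsgn
  · have hCpos : ∀ z d : ℝ × ℝ, d ≠ 0 → 0 < C z d := fun z d hd => (h.hom z d hd).1
    have hp' : ∀ z ∈ ball (0 : ℝ × ℝ) r, qf L z = lp⁻¹ * qf K z := by
      intro z hz'
      rw [hp z hz', ← mul_assoc, inv_mul_cancel₀ hlp.ne', one_mul]
    have hm' : ∀ z ∈ ball (0 : ℝ × ℝ) r, qf (-L) z = lm⁻¹ * qf (-K) z := by
      intro z hz'
      rw [hm z hz', ← mul_assoc, inv_mul_cancel₀ hlm.ne', one_mul]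
    have hz' : ∀ z ∈ ball (0 : ℝ × ℝ) r, ∃ s ∈ Icc (0 : ℝ) 1,
        (fun z d => -B z d / C z d) z (γ s) = 0 := by
      intro z hz1
      obtain ⟨s, hs, h0⟩ := hz z hz1
      exact ⟨s, hs, by simp only [h0, neg_zero, zero_div]⟩
    obtain ⟨t1, ht1, hl⟩ := lineA2 hL hK h.inv hr (inv_pos.2 hlp) (inv_pos.2 hlm)
      ((inv_lt_inv₀ hlm hlp).2 hgt) hLipL hp' hm' hγ hγ0 hz'
    obtain ⟨M, hM⟩ := (isCompact_Icc (a := (0 : ℝ)) (b := 1)).exists_bound_of_continuousOn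
      hγ.continuousOn
    have hM0 : 0 ≤ M := (norm_nonneg _).trans (hM 0 ⟨le_rfl, zero_le_one⟩)
    have hM1 : 0 < M + 1 := by linarith
    refine ⟨min t1 (r / (4 * (M + 1))), by positivity, ?_⟩
    intro z hz1
    obtain ⟨s, hs, hB, m, hmm⟩ := hl z hz1
    have hB0 : B z (γ s) = 0 := by
      have hc := (hCpos z (γ s) (hγ0 s)).ne'
      have hB' : -B z (γ s) / C z (γ s) = 0 := hB
      rw [div_eq_zero_iff] at hB'
      rcases hB' with h' | h'
      · linarith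
      · exact absurd h' hc
    refine ⟨s, hs, hB0, lp * m, ?_⟩
    intro t ht
    have hz0 : z ∈ ball (0 : ℝ × ℝ) r := ball_subset_ball (by linarith) hz1
    have hzt : z + t • γ s ∈ ball (0 : ℝ × ℝ) r := by
      rw [mem_ball_zero_iff] at hz1 ⊢
      have h1 : ‖t • γ s‖ ≤ r / (4 * (M + 1)) * M := by
        rw [norm_smul, Real.norm_eq_abs]
        exact mul_le_mul (ht.trans (min_le_right _ _)) (hM s hs) (norm_nonneg _) (by positivity)
      have h2 : r / (4 * (M + 1)) * M ≤ r / 4 := by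
        rw [div_mul_eq_mul_div, div_le_div_iff₀ (by positivity) (by norm_num)]
        nlinarith
      calc ‖z + t • γ s‖ ≤ ‖z‖ + ‖t • γ s‖ := norm_add_le _ _
        _ < r / 2 + r / 2 := by linarith
        _ = r := by ring
    rw [hp _ hzt, hp _ hz0, hmm t (ht.trans (min_le_left _ _))]
    ring

/-- **Local affinity.** -/
theorem exists_affine2 (hK : SB K) (hL : SB L) (h : Ctr2 K L C A B) (hs : Sgn B 0) :
    ∃ z₀ : ℝ × ℝ, ∃ ρ : ℝ, 0 < ρ ∧ ∃ p q : ℝ,
      ∀ z ∈ ball z₀ ρ, qf K z = qf K z₀ + (p * (z.1 - z₀.1) + q * (z.2 - z₀.2)) := by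
  obtain ⟨r, hr, k, hLK, hLL, hLK', lp, lm, hlp, hlm, hrat⟩ := ratio_const2 hK hL h hs
  have hp' : ∀ z ∈ ball (0 : ℝ × ℝ) r, qf K z = lp * qf L z := fun z hz => (hrat z hz).2.1
  have hm' : ∀ z ∈ ball (0 : ℝ × ℝ) r, qf (-K) z = lm * qf (-L) z := fun z hz => (hrat z hz).2.2
  obtain ⟨t1, ht1, l1⟩ := lines2 hK hL h hr hlp hlm hLK hLL hLK' hp' hm' γ1_cont γ1_ne
    (fun z hz => (Sgn_all hK hL h (hrat z hz).1).1)
  obtain ⟨t2, ht2, l2⟩ := lines2 hK hL h hr hlp hlm hLK hLL hLK' hp' hm' γ2_cont γ2_ne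
    (fun z hz => (Sgn_all hK hL h (hrat z hz).1).2.1)
  obtain ⟨t3, ht3, l3⟩ := lines2 hK hL h hr hlp hlm hLK hLL hLK' hp' hm' γ3_cont γ3_ne
    (fun z hz => (Sgn_all hK hL h (hrat z hz).1).2.2)
  obtain ⟨δ, hδ, hgap⟩ := gap32 hK hL h hs
  obtain ⟨s1, hs1, hB1, m1, hm1⟩ := l1 0 (mem_ball_self (by positivity))
  obtain ⟨s2, hs2, hB2, m2, hm2⟩ := l2 0 (mem_ball_self (by positivity))
  have hs1lt : s1 < 1 := by
    rcases hs1.2.lt_or_eq with h' | h'
    · exact h'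
    · subst h'
      exact absurd hB1 (Sgn_all hK hL h hs).1.2.ne'
  have hs2lt : s2 < 1 := by
    rcases hs2.2.lt_or_eq with h' | h'
    · exact h'
    · subst h'
      exact absurd hB2 (Sgn_all hK hL h hs).2.1.2.ne'
  have hD : 0 < 1 - s1 * s2 := by
    have := mul_le_mul_of_nonneg_left hs2lt.le hs1.1
    linarith
  set D := 1 - s1 * s2 with hDdef
  set p := (m1 - s1 * m2) / D with hp
  set q := (m2 - s2 * m1) / D with hq
  have hpq1 : p + q * s1 = m1 := by rw [hp, hq]; field_simp; rw [hDdef]; ring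
  have hpq2 : p * s2 + q = m2 := by rw [hp, hq]; field_simp; rw [hDdef]; ring
  set t₀ := min t1 (min t2 t3) with ht₀
  have ht₀pos : 0 < t₀ := by positivity
  have ht₀1 : t₀ ≤ t1 := min_le_left _ _
  have ht₀2 : t₀ ≤ t2 := (min_le_right _ _).trans (min_le_left _ _)
  have ht₀3 : t₀ ≤ t3 := (min_le_right _ _).trans (min_le_right _ _)
  set ε := min (δ * t₀ / 8) (min (r / 8) (δ / 4)) with hε
  have hεpos : 0 < ε := by positivity
  have hε1 : ε ≤ δ * t₀ / 8 := min_le_left _ _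
  have hε2 : ε ≤ r / 8 := (min_le_right _ _).trans (min_le_left _ _)
  have hε3 : ε ≤ δ / 4 := (min_le_right _ _).trans (min_le_right _ _)
  set ρ := ε * min (1 - s1) (1 - s2) / 4 with hρ
  have hmin : 0 < min (1 - s1) (1 - s2) := by
    apply lt_min <;> linarith
  have hρpos : 0 < ρ := by positivity
  have hρ1 : ρ ≤ ε * (1 - s1) / 4 := by
    rw [hρ]; gcongr; exact min_le_left _ _
  have hρ2 : ρ ≤ ε * (1 - s2) / 4 := by
    rw [hρ]; gcongr; exact min_le_right _ _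
  have hρε : ρ ≤ ε := by
    have := mul_nonneg hεpos.le hs1.1
    linarith
  -- points near `(ε, ε)`
  have hcoord : ∀ z ∈ ball ((ε, ε) : ℝ × ℝ) ρ, |z.1 - ε| < ρ ∧ |z.2 - ε| < ρ := by
    rintro ⟨x, y⟩ hz
    rw [mem_ball, Prod.dist_eq, max_lt_iff, Real.dist_eq, Real.dist_eq] at hz
    exact hz
  have hnear : ∀ z ∈ ball ((ε, ε) : ℝ × ℝ) ρ, z ∈ ball (0 : ℝ × ℝ) (r / 2) ∧
      z ∈ ball (0 : ℝ × ℝ) δ := by
    rintro ⟨x, y⟩ hz
    obtain ⟨h1, h2⟩ := hcoord _ hz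
    simp only at h1 h2
    rw [abs_lt] at h1 h2
    constructor
    · rw [mem_ball_prod, abs_lt, abs_lt]
      refine ⟨⟨?_, ?_⟩, ⟨?_, ?_⟩⟩ <;> linarith
    · rw [mem_ball_prod, abs_lt, abs_lt]
      refine ⟨⟨?_, ?_⟩, ⟨?_, ?_⟩⟩ <;> linarith
  have key : ∀ z ∈ ball ((ε, ε) : ℝ × ℝ) ρ, qf K z = qf K 0 + (p * z.1 + q * z.2) := by
    rintro ⟨x, y⟩ hz
    obtain ⟨h1, h2⟩ := hcoord _ hz
    obtain ⟨n1, n2⟩ := hnear _ hz
    simp only at h1 h2 ⊢
    rw [abs_lt] at h1 h2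
    obtain ⟨s, hsI, hBs, m, hm⟩ := l3 (x, y) n1
    obtain ⟨g1, g2⟩ := hgap _ n2 s hsI hBs
    have hx0 : 0 ≤ x := by linarith
    have hy0 : 0 ≤ y := by linarith
    have d1 : δ ≤ 1 - s + s1 * s := by
      have := mul_nonneg hs1.1 hsI.1
      linarith
    have d2 : δ ≤ s + s2 * (1 - s) := by
      have := mul_nonneg hs2.1 (sub_nonneg.2 hsI.2)
      linarith
    have d1pos : 0 < 1 - s + s1 * s := by linarith
    have d2pos : 0 < s + s2 * (1 - s) := by linarith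
    set T1 := (s1 * x - y) / (1 - s + s1 * s) with hT1
    set T2 := (x - s2 * y) / (s + s2 * (1 - s)) with hT2
    have hxy : x + y ≤ δ * t₀ / 2 := by linarith
    have n1neg : s1 * x - y < 0 := by
      have c1 := mul_le_mul_of_nonneg_left (show x ≤ ε + ρ by linarith) hs1.1
      have c2 := mul_le_mul_of_nonneg_right hs1lt.le hρpos.le
      have c3 := mul_pos hεpos (sub_pos.2 hs1lt)
      linarith
    have n2pos : 0 < x - s2 * y := by
      have c1 := mul_le_mul_of_nonneg_left (show y ≤ ε + ρ by linarith) hs2.1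
      have c2 := mul_le_mul_of_nonneg_right hs2lt.le hρpos.le
      have c3 := mul_pos hεpos (sub_pos.2 hs2lt)
      linarith
    have T1neg : T1 < 0 := div_neg_of_neg_of_pos n1neg d1pos
    have T2pos : 0 < T2 := div_pos n2pos d2pos
    have T1abs : -T1 ≤ (x + y) / δ := by
      rw [hT1, ← neg_div]
      apply div_le_div₀ (by positivity) _ hδ d1
      have := mul_nonneg hs1.1 hx0
      linarith
    have T2abs : T2 ≤ (x + y) / δ := by
      rw [hT2]
      apply div_le_div₀ (by positivity) _ hδ d2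
      have := mul_nonneg hs2.1 hy0
      linarith
    have hxyδ : (x + y) / δ ≤ t₀ / 2 := by
      rw [div_le_iff₀ hδ]; linarith
    have hxyt : x + y ≤ t₀ / 2 := by
      have hδ1 : δ ≤ 1 := by linarith
      have := mul_le_mul_of_nonneg_right hδ1 ht₀pos.le
      linarith
    have sle : s ≤ 1 := hsI.2
    have s0 : 0 ≤ s := hsI.1
    -- the two intersection points
    have a1 := hm T1 (by rw [abs_le]; constructor <;> linarith)
    have a2 := hm T2 (by rw [abs_le]; constructor <;> linarith)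
    have E1 : y + T1 * (1 - s) = s1 * (x - T1 * s) := by
      have : T1 * (1 - s + s1 * s) = s1 * x - y := div_mul_cancel₀ _ d1pos.ne'
      linarith
    have E2 : x - T2 * s = s2 * (y + T2 * (1 - s)) := by
      have : T2 * (s + s2 * (1 - s)) = x - s2 * y := div_mul_cancel₀ _ d2pos.ne'
      linarith
    have P1 : ((x, y) : ℝ × ℝ) + T1 • γ3 s = 0 + (x - T1 * s) • γ1 s1 := by
      simp only [γ3, γ1, Prod.smul_mk, Prod.mk_add_mk, smul_eq_mul, zero_add, mul_one]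
      ext
      · simp only; ring
      · simp only; linarith
    have P2 : ((x, y) : ℝ × ℝ) + T2 • γ3 s = 0 + (y + T2 * (1 - s)) • γ2 s2 := by
      simp only [γ3, γ2, Prod.smul_mk, Prod.mk_add_mk, smul_eq_mul, zero_add, mul_one]
      ext
      · simp only; linarith
      · simp only
    have X1 : |x - T1 * s| ≤ t1 := by
      have : 0 ≤ -T1 * s := mul_nonneg (by linarith) s0
      have : -T1 * s ≤ -T1 := mul_le_of_le_one_right (by linarith) sle
      rw [abs_le]; constructor <;> linarith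
    have X2 : |y + T2 * (1 - s)| ≤ t2 := by
      have : 0 ≤ T2 * (1 - s) := mul_nonneg T2pos.le (by linarith)
      have : T2 * (1 - s) ≤ T2 := mul_le_of_le_one_right T2pos.le (by linarith)
      rw [abs_le]; constructor <;> linarith
    rw [P1, hm1 _ X1] at a1
    rw [P2, hm2 _ X2] at a2
    -- conclude
    have u1 : qf K (x, y) - (qf K 0 + (p * x + q * y)) = T1 * (-(p * s) + q * (1 - s) - m) := by
      have e1 : (x - T1 * s) * m1 = p * (x - T1 * s) + q * (y + T1 * (1 - s)) := by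
        rw [E1, ← hpq1]; ring
      linear_combination (-1 : ℝ) * a1 + e1
    have u2 : qf K (x, y) - (qf K 0 + (p * x + q * y)) = T2 * (-(p * s) + q * (1 - s) - m) := by
      have e2 : (y + T2 * (1 - s)) * m2 = p * (x - T2 * s) + q * (y + T2 * (1 - s)) := by
        rw [E2, ← hpq2]; ring
      linear_combination (-1 : ℝ) * a2 + e2
    have hv : (T1 - T2) * (-(p * s) + q * (1 - s) - m) = 0 := by
      linear_combination u2 - u1
    have hv0 : -(p * s) + q * (1 - s) - m = 0 := by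
      rcases mul_eq_zero.1 hv with h' | h'
      · linarith
      · exact h'
    rw [hv0, mul_zero] at u1
    linarith
  have hz₀ : ((ε, ε) : ℝ × ℝ) ∈ ball ((ε, ε) : ℝ × ℝ) ρ := mem_ball_self hρpos
  refine ⟨(ε, ε), ρ, hρpos, p, q, ?_⟩
  intro z hz
  rw [key z hz, key _ hz₀]
  ring

end Pool.Agent.Lib.MP_f7db8a.Q
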