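import Pool.Agent.Lib.MP_f7db8a.QDefs
import Pool.Agent.Lib.MP_f7db8a.Q1a
import Pool.Agent.Lib.MP_f7db8a.Q1b
import Pool.Agent.Lib.MP_f7db8a.Q7
import Pool.Agent.Lib.MP_f7db8a.Plane

set_option autoImplicit false

/-!
# Passage to the chart
-/

namespace Pool.Agent.Lib.MP_f7db8a.Q

open Module Set Filter Topology Metric
open scoped NNReal RealInnerProductSpace
open An (V)

/-- transfer by an injective linear map -/
theorem H2.image {E E' : Type*} [NormedAddCommGroup E] [NormedSpace ℝ E]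
    [NormedAddCommGroup E'] [NormedSpace ℝ E'] {K L : Set E} (T : E →ₗ[ℝ] E')
    (hT : Function.Injective T) {X Y : E} {c a b : ℝ} :
    H2 (T '' K) (T '' L) (T X) (T Y) c a b ↔ H2 K L X Y c a b := by
  unfold H2
  simp only [← map_smul, ← map_add, hT.mem_set_image]

theorem flat_of_three {K L : Set V} (hK : SB K) (hL : SB L) (H : HH K L) {z d1 d2 d3 : V}
    (h1 : An.ON z d1) (h2 : An.ON z d2) (h3 : An.ON z d3) (b1 : 0 < bb K L z d1)
    (b2 : 0 < bb K L z d2) (b3 : 0 < bb K L z d3) (hind : Ind d1 d2) {s1 s2 s3 : ℝ}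
    (p1 : 0 < s1) (p2 : 0 < s2) (p3 : 0 < s3) (hsum : s1 • d1 + s2 • d2 + s3 • d3 = 0) :
    ∃ f : V →L[ℝ] ℝ, ∃ x0 : V, x0 ≠ 0 ∧ ∀ᶠ x in 𝓝 x0, f (rad K x • x) = 1 := by
  let M : W3 →ₗ[ℝ] V :=
    { toFun := fun p => p.2 • z + (-p.1.1) • (s1 • d1) + (-p.1.2) • (s2 • d2)
      map_add' := by intro p q; simp only [Prod.fst_add, Prod.snd_add]; module
      map_smul' := by
        intro r p; simp only [Prod.smul_fst, Prod.smul_snd, smul_eq_mul, RingHom.id_apply]; module }
  have hM : ∀ x y k : ℝ, M ((x, y), k) = k • z + (-x) • (s1 • d1) + (-y) • (s2 • d2) :=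
    fun _ _ _ => rfl
  have zz : ⟪z, z⟫ = 1 := by rw [real_inner_self_eq_norm_sq, h1.1]; norm_num
  have hMinj : Function.Injective M := by
    rw [injective_iff_map_eq_zero]
    rintro ⟨⟨x, y⟩, k⟩ hp
    rw [hM] at hp
    have hk : k = 0 := by
      have := congrArg (fun v : V => ⟪z, v⟫) hp
      simp only [inner_add_right, inner_smul_right, inner_zero_right, zz, h1.2.2, h2.2.2] at this
      linarith
    subst hk
    rw [zero_smul, zero_add, smul_smul, smul_smul] at hp
    obtain ⟨e1, e2⟩ := hind _ _ hp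
    have hx : x = 0 := by
      rcases mul_eq_zero.1 e1 with h | h
      · linarith
      · exact absurd h p1.ne'
    have hy : y = 0 := by
      rcases mul_eq_zero.1 e2 with h | h
      · linarith
      · exact absurd h p2.ne'
    rw [hx, hy]
    rfl
  have hMbij : Function.Bijective M := by
    refine ⟨hMinj, ?_⟩
    have hfin : finrank ℝ W3 = finrank ℝ V := by simp
    exact (LinearMap.injective_iff_surjective_of_finrank_eq_finrank hfin).1 hMinj
  let e : W3 ≃ₗ[ℝ] V := LinearEquiv.ofBijective M hMbij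
  let T : V →ₗ[ℝ] W3 := e.symm
  have hTb : Function.Bijective T := e.symm.bijective
  have hTM : ∀ p, T (M p) = p := fun p => e.symm_apply_apply p
  have hMT : ∀ x, M (T x) = x := fun x => e.apply_symm_apply x
  have t0 : T z = (0, 1) := by
    have h1 := hTM ((0, 0), 1)
    rw [hM] at h1
    have h2 : T z = ((0, 0), 1) := by simpa using h1
    exact h2
  have t1 : T (s1 • d1) = ((-1, 0), 0) := by
    have := hTM ((-1, 0), 0)
    rw [hM, zero_smul, neg_zero, zero_smul, neg_neg, one_smul, zero_add, add_zero] at this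
    exact this
  have t2 : T (s2 • d2) = ((0, -1), 0) := by
    have := hTM ((0, -1), 0)
    rw [hM, zero_smul, neg_zero, zero_smul, neg_neg, one_smul, zero_add, zero_add] at this
    exact this
  have t3 : T (s3 • d3) = ((1, 1), 0) := by
    have e3 : s3 • d3 = -(s1 • d1 + s2 • d2) := by
      rw [eq_neg_iff_add_eq_zero, add_comm]
      exact hsum
    rw [e3, map_neg, map_add, t1, t2]
    simp
  have hK' : SB (T '' K) := hK.image_lin T hTb.2
  have hL' : SB (T '' L) := hL.image_lin T hTb.2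
  -- homothety data in the chart
  have hex : ∀ w d : ℝ × ℝ, ∃ c a b : ℝ, d ≠ 0 → H2 (T '' K) (T '' L) (w, 1) (d, 0) c a b := by
    intro w d
    by_cases hd : d = 0
    · exact ⟨0, 0, 0, fun h => absurd hd h⟩
    have hI : Ind (M (w, 1)) (M (d, 0)) := by
      intro s t hst
      rw [← map_smul, ← map_smul, ← map_add] at hst
      exact chart_ind w hd s t (hMinj (hst.trans (map_zero M).symm))
    obtain ⟨c, a, b, h⟩ := H _ _ hI
    refine ⟨c, a, b, fun _ => ?_⟩
    rw [← hTM (w, 1), ← hTM (d, 0), H2.image T hTb.1]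
    exact h
  choose C A B hCAB using hex
  have hctr : Ctr2 (T '' K) (T '' L) C A B := ⟨fun w d hd => hCAB w d hd⟩
  -- positivity of `B` in the three directions
  have hpos : ∀ {d : V} {s : ℝ} {D : ℝ × ℝ}, An.ON z d → 0 < s → D ≠ 0 → T (s • d) = (D, 0) →
      0 < bb K L z d → 0 < B 0 D := by
    intro d s D hd hs hD hT hb
    have k1 := hctr.hom 0 D hD
    rw [← hT, ← t0, H2.image T hTb.1] at k1
    have k2 := k1.smul_right (inv_ne_zero hs.ne')
    rw [smul_smul, inv_mul_cancel₀ hs.ne', one_smul, div_inv_eq_mul] at k2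
    have hI : Ind z d := by
      intro α β hαβ
      have i1 := congrArg (fun v : V => ⟪z, v⟫) hαβ
      have i2 := congrArg (fun v : V => ⟪d, v⟫) hαβ
      have dd : ⟪d, d⟫ = 1 := by rw [real_inner_self_eq_norm_sq, hd.2.1]; norm_num
      have dz : ⟪d, z⟫ = 0 := by rw [real_inner_comm]; exact hd.2.2
      simp only [inner_add_right, inner_smul_right, inner_zero_right, zz, hd.2.2, dd, dz] at i1 i2
      constructor <;> linarith
    have k3 := (k2.vals hK hL hI).2.2
    rw [← k3] at hb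
    exact pos_of_mul_pos_left hb hs.le
  have hs : Sgn B 0 :=
    ⟨hpos h1 p1 d1_ne t1 b1, hpos h2 p2 d2_ne t2 b2, hpos h3 p3 d3_ne t3 b3⟩
  obtain ⟨z₀, ρ, hρ, p, q, haff⟩ := exists_affine2 hK' hL' hctr hs
  -- the functional
  let α : ℝ := qf (T '' K) z₀ - p * z₀.1 - q * z₀.2
  let g : W3 →ₗ[ℝ] ℝ :=
    { toFun := fun v => p * v.1.1 + q * v.1.2 + α * v.2
      map_add' := by intro v w; simp only [Prod.fst_add, Prod.snd_add]; ring
      map_smul' := by
        intro r v; simp only [Prod.smul_fst, Prod.smul_snd, smul_eq_mul, RingHom.id_apply]; ring }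
  have hg : ∀ w : ℝ × ℝ, w ∈ ball z₀ ρ → g (w, 1) = qf (T '' K) w := by
    intro w hw
    rw [haff w hw]
    show p * w.1 + q * w.2 + α * 1 = _
    simp only [α]
    ring
  have hTc : Continuous T := T.continuous_of_finiteDimensional
  refine ⟨LinearMap.toContinuousLinearMap (g ∘ₗ T), M (z₀, 1), ?_, ?_⟩
  · intro h0
    exact chart_ne z₀ (hMinj (h0.trans (map_zero M).symm))
  · have hT0 : T (M (z₀, 1)) = (z₀, 1) := hTM _
    have c2 : ContinuousAt (fun x : V => (T x).2) (M (z₀, 1)) :=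
      (continuous_snd.comp hTc).continuousAt
    have c1 : ContinuousAt (fun x : V => ((T x).2)⁻¹ • (T x).1) (M (z₀, 1)) := by
      have i1 : ContinuousAt (fun x : V => ((T x).2)⁻¹) (M (z₀, 1)) :=
        c2.inv₀ (by rw [hT0]; exact one_ne_zero)
      exact i1.smul (continuous_fst.comp hTc).continuousAt
    have ev1 : ∀ᶠ x in 𝓝 (M (z₀, 1)), 0 < (T x).2 :=
      continuousAt_const.eventually_lt c2 (by simp only [hT0]; exact one_pos)
    have ev2 : ∀ᶠ x in 𝓝 (M (z₀, 1)), ((T x).2)⁻¹ • (T x).1 ∈ ball z₀ ρ := by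
      apply c1
      simp only [hT0, inv_one, one_smul]
      exact ball_mem_nhds z₀ hρ
    filter_upwards [ev1, ev2] with x x1 x2
    have e1 : T x = (T x).2 • ((((T x).2)⁻¹ • (T x).1, 1) : W3) := by
      rw [Prod.smul_mk, smul_smul, mul_inv_cancel₀ x1.ne', one_smul, smul_eq_mul, mul_one]
    set w := ((T x).2)⁻¹ • (T x).1 with hw
    set t := (T x).2 with ht
    have hqp := qf_pos hK' w
    have e2 : rad K x = (qf (T '' K) w)⁻¹ / t := by
      rw [← rad_image T hTb.1 x, e1, hK'.rad_smul (chart_ne _) x1]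
      unfold qf
      rw [inv_inv]
    show g (T (rad K x • x)) = 1
    rw [map_smul, map_smul, e1, map_smul, hg w x2, e2, smul_eq_mul, smul_eq_mul]
    field_simp

end Pool.Agent.Lib.MP_f7db8a.Q
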