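import Pool.Agent.Lib.MP_f7db8a.QDefs
import Pool.Agent.Lib.MP_f7db8a.Q1a
import Pool.Agent.Lib.MP_f7db8a.Q1b

set_option autoImplicit false

/-! Part Q8a (helper86): flat pieces are mapped to flat pieces. -/

namespace Pool.Agent.Lib.MP_f7db8a.Q

open Module Set Filter Topology Metric
open scoped NNReal RealInnerProductSpace
open An (V)

theorem Q8a_rad_zero (L : Set V) (w : V) (h : rad L w = 1) : w ≠ 0 := by
  rintro rfl
  unfold rad at h
  by_cases h0 : (0 : V) ∈ L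
  · have hnb : ¬ BddAbove {t : ℝ | 0 ≤ t ∧ t • (0 : V) ∈ L} := by
      rintro ⟨M, hM⟩
      have h1 := hM (show (|M| + 1) ∈ {t : ℝ | 0 ≤ t ∧ t • (0 : V) ∈ L} from
        ⟨by positivity, by simpa using h0⟩)
      have := le_abs_self M
      linarith
    rw [Real.sSup_of_not_bddAbove hnb] at h
    exact zero_ne_one h
  · have : {t : ℝ | 0 ≤ t ∧ t • (0 : V) ∈ L} = ∅ := by
      ext t
      simp [h0]
    rw [this, Real.sSup_empty] at h
    exact zero_ne_one h

/-- the flat piece seen from the boundary point -/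
theorem Q8a_scale {K : Set V} (hK : SB K) (f : V →L[ℝ] ℝ) {s : ℝ} {x : V} (hx : x ≠ 0)
    (hf : ∀ᶠ y in 𝓝 x, f (rad K y • y) = s) :
    ∀ᶠ u in 𝓝 (rad K x • x), f (rad K u • u) = s := by
  have hρ : 0 < rad K x := hK.rad_pos hx
  have hne : rad K x • x ≠ 0 := smul_ne_zero hρ.ne' hx
  have h1 : Tendsto (fun u : V => (rad K x)⁻¹ • u) (𝓝 (rad K x • x)) (𝓝 x) := by
    have hc : Continuous fun u : V => (rad K x)⁻¹ • u := by fun_prop
    have := hc.tendsto (rad K x • x)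
    rwa [smul_smul, inv_mul_cancel₀ hρ.ne', one_smul] at this
  filter_upwards [h1.eventually hf, isOpen_ne.mem_nhds hne] with u hu hu0
  rw [hK.rad_smul hu0 (by positivity), smul_smul] at hu
  rwa [div_inv_eq_mul, mul_assoc, mul_inv_cancel₀ hρ.ne', mul_one] at hu

theorem flat_transfer {K L : Set V} (hK : SB K) (hL : SB L) (H : HH K L) (f : V →L[ℝ] ℝ) {s : ℝ}
    {x d : V} (hxd : Ind x d) (hf : ∀ᶠ y in 𝓝 x, f (rad K y • y) = s) {c a b : ℝ}
    (h : H2 K L x d c a b) {w : V} (hw : w = (c * rad K x + a) • x + b • d) :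
    ∀ᶠ y in 𝓝 w, f (rad L y • y) = f w := by
  have hx0 : x ≠ 0 := hxd.ne_left
  have hρ : 0 < rad K x := hK.rad_pos hx0
  set α₀ : ℝ := c * rad K x + a with hα₀
  -- `w` is a boundary point
  have hradw : rad L w = 1 := by
    have h1 := (h.bd hK hL hxd (rad K x) 0).1 (by
      rw [zero_smul, add_zero, hK.rad_smul hx0 hρ, div_self hρ.ne'])
    rw [hw]
    simpa [hα₀] using h1
  have hw0 : w ≠ 0 := Q8a_rad_zero L w hradw
  obtain ⟨hc1, ha1, hb1⟩ := h.vals hK hL hxd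
  have hcpos : 0 < c := h.1
  have hf' := Q8a_scale hK f hx0 hf
  -- continuity of everything
  set p₀ : (V × V) × (ℝ × ℝ) := ((x, d), (α₀, b)) with hp₀
  have hy : Continuous fun P : (V × V) × (ℝ × ℝ) => P.2.1 • P.1.1 + P.2.2 • P.1.2 := by fun_prop
  have hy0 : p₀.2.1 • p₀.1.1 + p₀.2.2 • p₀.1.2 = w := by rw [hw]
  have hΛ : ContinuousAt (fun P : (V × V) × (ℝ × ℝ) => rad L (P.2.1 • P.1.1 + P.2.2 • P.1.2)) p₀ :=
    ContinuousAt.comp (g := rad L) (f := fun P : (V × V) × (ℝ × ℝ) => P.2.1 • P.1.1 + P.2.2 • P.1.2)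
      (by rw [hy0]; exact hL.continuousAt_rad hw0) hy.continuousAt
  have hC : ContinuousAt (fun P : (V × V) × (ℝ × ℝ) => cc K L P.1.1 P.1.2) p₀ :=
    ContinuousAt.comp (g := fun p : V × V => cc K L p.1 p.2) (f := fun P : (V × V) × (ℝ × ℝ) => P.1)
      (cont_cc hK hL hxd) continuous_fst.continuousAt
  have hA : ContinuousAt (fun P : (V × V) × (ℝ × ℝ) => aa K L P.1.1 P.1.2) p₀ :=
    ContinuousAt.comp (g := fun p : V × V => aa K L p.1 p.2) (f := fun P : (V × V) × (ℝ × ℝ) => P.1)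
      (cont_aa hK hL hxd) continuous_fst.continuousAt
  have hB : ContinuousAt (fun P : (V × V) × (ℝ × ℝ) => bb K L P.1.1 P.1.2) p₀ :=
    ContinuousAt.comp (g := fun p : V × V => bb K L p.1 p.2) (f := fun P : (V × V) × (ℝ × ℝ) => P.1)
      (cont_bb hK hL hxd) continuous_fst.continuousAt
  have hX : ContinuousAt (fun P : (V × V) × (ℝ × ℝ) => P.1.1) p₀ :=
    (continuous_fst.comp continuous_fst).continuousAt
  have hY : ContinuousAt (fun P : (V × V) × (ℝ × ℝ) => P.1.2) p₀ :=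
    (continuous_snd.comp continuous_fst).continuousAt
  have hα : ContinuousAt (fun P : (V × V) × (ℝ × ℝ) => P.2.1) p₀ :=
    (continuous_fst.comp continuous_snd).continuousAt
  have hβ : ContinuousAt (fun P : (V × V) × (ℝ × ℝ) => P.2.2) p₀ :=
    (continuous_snd.comp continuous_snd).continuousAt
  have hC0 : cc K L p₀.1.1 p₀.1.2 ≠ 0 := by
    show cc K L x d ≠ 0
    rw [← hc1]; exact hcpos.ne'
  set u : (V × V) × (ℝ × ℝ) → V := fun P =>
    ((rad L (P.2.1 • P.1.1 + P.2.2 • P.1.2) * P.2.1 - aa K L P.1.1 P.1.2) / cc K L P.1.1 P.1.2) • P.1.1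
      + ((rad L (P.2.1 • P.1.1 + P.2.2 • P.1.2) * P.2.2 - bb K L P.1.1 P.1.2) /
        cc K L P.1.1 P.1.2) • P.1.2 with hu
  have hucont : ContinuousAt u p₀ :=
    ((((hΛ.mul hα).sub hA).div hC hC0).smul hX).add ((((hΛ.mul hβ).sub hB).div hC hC0).smul hY)
  have hu0 : u p₀ = rad K x • x := by
    simp only [hu]
    rw [hy0, hradw]
    simp only [hp₀]
    rw [← hc1, ← ha1, ← hb1, one_mul, one_mul, sub_self, zero_div, zero_smul, add_zero, hα₀,
      add_sub_cancel_right, mul_div_cancel_left₀ _ hcpos.ne']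
  -- the formula on nearby planes
  have claim : ∀ᶠ P : (V × V) × (ℝ × ℝ) in 𝓝 p₀,
      f (rad L (P.2.1 • P.1.1 + P.2.2 • P.1.2) • (P.2.1 • P.1.1 + P.2.2 • P.1.2)) =
        cc K L P.1.1 P.1.2 * s + (aa K L P.1.1 P.1.2 * f P.1.1 + bb K L P.1.1 P.1.2 * f P.1.2) := by
    have e1 : ∀ᶠ P : (V × V) × (ℝ × ℝ) in 𝓝 p₀, Ind P.1.1 P.1.2 := by
      have : Tendsto (fun P : (V × V) × (ℝ × ℝ) => P.1) (𝓝 p₀) (𝓝 (x, d)) :=
        continuous_fst.continuousAt
      exact this.eventually hxd.eventually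
    have e2 : ∀ᶠ P : (V × V) × (ℝ × ℝ) in 𝓝 p₀, P.2.1 • P.1.1 + P.2.2 • P.1.2 ≠ 0 := by
      have : Tendsto (fun P : (V × V) × (ℝ × ℝ) => P.2.1 • P.1.1 + P.2.2 • P.1.2) (𝓝 p₀) (𝓝 w) := by
        have := hy.tendsto p₀
        rwa [hy0] at this
      exact this.eventually (isOpen_ne.mem_nhds hw0)
    have e3 : ∀ᶠ P : (V × V) × (ℝ × ℝ) in 𝓝 p₀, f (rad K (u P) • u P) = s := by
      have : Tendsto u (𝓝 p₀) (𝓝 (rad K x • x)) := by
        have := hucont.tendsto
        rwa [hu0] at this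
      exact this.eventually hf'
    filter_upwards [e1, e2, e3] with P h1 h2 h3
    obtain ⟨c', a', b', hh⟩ := H P.1.1 P.1.2 h1
    obtain ⟨v1, v2, v3⟩ := hh.vals hK hL h1
    have hc' : 0 < c' := hh.1
    rw [v1, v2, v3] at hh
    rw [v1] at hc'
    set C := cc K L P.1.1 P.1.2 with hCd
    set A := aa K L P.1.1 P.1.2 with hAd
    set B := bb K L P.1.1 P.1.2 with hBd
    set y : V := P.2.1 • P.1.1 + P.2.2 • P.1.2 with hyd
    have hΛp : 0 < rad L y := hL.rad_pos h2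
    set Λ := rad L y with hΛd
    have k1 : C * ((Λ * P.2.1 - A) / C) + A = Λ * P.2.1 := by
      rw [mul_div_cancel₀ _ hc'.ne']; ring
    have k2 : C * ((Λ * P.2.2 - B) / C) + B = Λ * P.2.2 := by
      rw [mul_div_cancel₀ _ hc'.ne']; ring
    have hbd := hh.bd hK hL h1 ((Λ * P.2.1 - A) / C) ((Λ * P.2.2 - B) / C)
    rw [k1, k2] at hbd
    have hΛy : (Λ * P.2.1) • P.1.1 + (Λ * P.2.2) • P.1.2 = Λ • y := by
      rw [hyd, smul_add, smul_smul, smul_smul]
    rw [hΛy] at hbd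
    have hone : rad L (Λ • y) = 1 := by
      rw [hL.rad_smul h2 hΛp, div_self hΛp.ne']
    have hradu : rad K (u P) = 1 := hbd.2 hone
    rw [hradu, one_smul] at h3
    have hfin : Λ • y = C • u P + (A • P.1.1 + B • P.1.2) := by
      rw [← hΛy]
      have e : u P = ((Λ * P.2.1 - A) / C) • P.1.1 + ((Λ * P.2.2 - B) / C) • P.1.2 := rfl
      rw [e, smul_add, smul_smul, smul_smul, mul_div_cancel₀ _ hc'.ne',
        mul_div_cancel₀ _ hc'.ne']
      module
    rw [hfin, f.map_add (C • u P) (A • P.1.1 + B • P.1.2), f.map_smul C (u P), h3,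
      f.map_add (A • P.1.1) (B • P.1.2), f.map_smul A P.1.1, f.map_smul B P.1.2]
    simp only [smul_eq_mul]
  -- two points of nearby planes, one of them fixed
  have hN : 0 < α₀ ^ 2 + b ^ 2 := by
    by_contra hcon
    have h1 : α₀ = 0 := by nlinarith [sq_nonneg α₀, sq_nonneg b]
    have h2 : b = 0 := by nlinarith [sq_nonneg α₀, sq_nonneg b]
    apply hw0
    rw [hw, h1, h2]
    simp
  have hev := eventually_eventually_nhds.2 claim
  have ht : ∀ᶠ t : ℝ in 𝓝[>] 0, ∀ᶠ Q : (V × V) × (ℝ × ℝ) in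
      𝓝 (((x, d), (α₀ - t * b, b + t * α₀)) : (V × V) × (ℝ × ℝ)),
      f (rad L (Q.2.1 • Q.1.1 + Q.2.2 • Q.1.2) • (Q.2.1 • Q.1.1 + Q.2.2 • Q.1.2)) =
        cc K L Q.1.1 Q.1.2 * s + (aa K L Q.1.1 Q.1.2 * f Q.1.1 + bb K L Q.1.1 Q.1.2 * f Q.1.2) := by
    have hc : Continuous fun t : ℝ => (((x, d), (α₀ - t * b, b + t * α₀)) : (V × V) × (ℝ × ℝ)) := by
      fun_prop
    have h0 := hc.tendsto 0
    simp only [zero_mul, sub_zero, add_zero] at h0
    exact (h0.mono_left nhdsWithin_le_nhds).eventually hev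
  obtain ⟨t, ht1, ht0⟩ := (ht.and self_mem_nhdsWithin).exists
  have ht0' : 0 < t := ht0
  set α₃ := α₀ - t * b with hα₃
  set β₃ := b + t * α₀ with hβ₃
  set D := t * (α₀ ^ 2 + b ^ 2) with hD
  have hDpos : 0 < D := by positivity
  have hψ : Continuous fun y : V => ((x + (β₃ / D) • (y - w), d + (-α₃ / D) • (y - w)) : V × V) := by
    fun_prop
  have hψw : ((x + (β₃ / D) • (w - w), d + (-α₃ / D) • (w - w)) : V × V) = (x, d) := by simp
  have g1 : ∀ᶠ y : V in 𝓝 w, f (rad L y • y) =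
      cc K L (x + (β₃ / D) • (y - w)) (d + (-α₃ / D) • (y - w)) * s +
        (aa K L (x + (β₃ / D) • (y - w)) (d + (-α₃ / D) • (y - w)) * f (x + (β₃ / D) • (y - w)) +
        bb K L (x + (β₃ / D) • (y - w)) (d + (-α₃ / D) • (y - w)) * f (d + (-α₃ / D) • (y - w))) := by
    have hc : Continuous fun y : V =>
        (((x + (β₃ / D) • (y - w), d + (-α₃ / D) • (y - w)), (α₀, b)) : (V × V) × (ℝ × ℝ)) := by
      fun_prop
    have h0 := hc.tendsto w
    rw [hψw] at h0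
    filter_upwards [h0.eventually claim] with y hyy
    have e : α₀ • (x + (β₃ / D) • (y - w)) + b • (d + (-α₃ / D) • (y - w)) = y := by
      have e1 : α₀ * (β₃ / D) + b * (-α₃ / D) = 1 := by
        rw [← mul_div_assoc, ← mul_div_assoc, ← add_div, div_eq_one_iff_eq hDpos.ne', hD, hα₃, hβ₃]
        ring
      calc α₀ • (x + (β₃ / D) • (y - w)) + b • (d + (-α₃ / D) • (y - w))
          = (α₀ • x + b • d) + (α₀ * (β₃ / D) + b * (-α₃ / D)) • (y - w) := by module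
        _ = y := by rw [e1, one_smul, ← hw]; abel
    simp only [e] at hyy
    exact hyy
  have g2 : ∀ᶠ y : V in 𝓝 w, f (rad L (α₃ • x + β₃ • d) • (α₃ • x + β₃ • d)) =
      cc K L (x + (β₃ / D) • (y - w)) (d + (-α₃ / D) • (y - w)) * s +
        (aa K L (x + (β₃ / D) • (y - w)) (d + (-α₃ / D) • (y - w)) * f (x + (β₃ / D) • (y - w)) +
        bb K L (x + (β₃ / D) • (y - w)) (d + (-α₃ / D) • (y - w)) * f (d + (-α₃ / D) • (y - w))) := by
    have hc : Continuous fun y : V =>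
        (((x + (β₃ / D) • (y - w), d + (-α₃ / D) • (y - w)), (α₃, β₃)) : (V × V) × (ℝ × ℝ)) := by
      fun_prop
    have h0 := hc.tendsto w
    rw [hψw] at h0
    filter_upwards [h0.eventually ht1] with y hyy
    have e : α₃ • (x + (β₃ / D) • (y - w)) + β₃ • (d + (-α₃ / D) • (y - w)) =
        α₃ • x + β₃ • d := by
      have e1 : α₃ * (β₃ / D) + β₃ * (-α₃ / D) = 0 := by ring
      calc α₃ • (x + (β₃ / D) • (y - w)) + β₃ • (d + (-α₃ / D) • (y - w))
          = (α₃ • x + β₃ • d) + (α₃ * (β₃ / D) + β₃ * (-α₃ / D)) • (y - w) := by module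
        _ = α₃ • x + β₃ • d := by rw [e1, zero_smul, add_zero]
    simp only [e] at hyy
    exact hyy
  have g3 : ∀ᶠ y : V in 𝓝 w, f (rad L y • y) =
      f (rad L (α₃ • x + β₃ • d) • (α₃ • x + β₃ • d)) := by
    filter_upwards [g1, g2] with y h1 h2
    rw [h1, h2]
  have g4 := g3.self_of_nhds
  filter_upwards [g3] with y hyy
  rw [hyy, ← g4, hradw, one_smul]

end Pool.Agent.Lib.MP_f7db8a.Q
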