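import Pool.Agent.Lib.MP_f7db8a.QDefs
import Pool.Agent.Lib.MP_f7db8a.Q1a
import Pool.Agent.Lib.MP_f7db8a.Q1b
import Pool.Agent.Lib.MP_f7db8a.Q8a

set_option autoImplicit false

/-!
# The level of the image of a flat piece is the same for all planes (part Q8b, helper27)
-/

namespace Pool.Agent.Lib.MP_f7db8a.Q

open Module Set Filter Topology Metric
open scoped NNReal RealInnerProductSpace
open An (V)

theorem bb_neg_right {E : Type*} [NormedAddCommGroup E] [NormedSpace ℝ E] (K L : Set E)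
    (X Y : E) : bb K L X (-Y) = -bb K L X Y := by
  unfold bb
  rw [neg_neg, ← neg_div, neg_sub]
  congr 1
  · ring
  · ring

/-- a third direction -/
theorem exists_third {x d : V} (hxd : Ind x d) :
    ∃ e : V, ∀ α β γ : ℝ, α • x + β • d + γ • e = 0 → α = 0 ∧ β = 0 ∧ γ = 0 := by
  have hne : Submodule.span ℝ ({x, d} : Set V) ≠ ⊤ := by
    intro h
    have h1 : finrank ℝ (Submodule.span ℝ ({x, d} : Set V)) ≤ 2 := by
      classical
      have h2 := finrank_span_le_card (R := ℝ) ({x, d} : Set V)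
      refine h2.trans ?_
      rw [Set.toFinset_card]
      have := Finset.card_le_two (a := x) (b := d)
      simpa [Set.toFinset_insert, ← Set.toFinset_card] using this
    rw [h, finrank_top] at h1
    have h3 : finrank ℝ V = 3 := by simp [An.V]
    omega
  obtain ⟨e, he⟩ : ∃ e : V, e ∉ Submodule.span ℝ ({x, d} : Set V) := by
    by_contra hcon
    push Not at hcon
    exact hne (Submodule.eq_top_iff'.2 hcon)
  refine ⟨e, fun α β γ h => ?_⟩
  have hγ : γ = 0 := by
    by_contra hγ
    apply he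
    have h1 : e = (-(γ⁻¹ * α)) • x + (-(γ⁻¹ * β)) • d := by
      have h2 : γ • e = -(α • x + β • d) := by
        rw [eq_neg_iff_add_eq_zero, add_comm]; exact h
      have h3 : e = γ⁻¹ • (γ • e) := by rw [smul_smul, inv_mul_cancel₀ hγ, one_smul]
      rw [h3, h2]
      module
    rw [h1]
    exact Submodule.add_mem _
      (Submodule.smul_mem _ _ (Submodule.subset_span (by simp)))
      (Submodule.smul_mem _ _ (Submodule.subset_span (by simp)))
  rw [hγ, zero_smul, add_zero] at h
  exact ⟨(hxd _ _ h).1, (hxd _ _ h).2, hγ⟩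

theorem flat_level {K L : Set V} (hK : SB K) (hL : SB L) (H : HH K L) (f : V →L[ℝ] ℝ) {s : ℝ}
    {x d : V} (hxd : Ind x d) (hf : ∀ᶠ y in 𝓝 x, f (rad K y • y) = s) {c a b : ℝ}
    (h : H2 K L x d c a b) {w : V} (hw : w = (c * rad K x + a) • x + b • d) :
    f w = f (rad L x • x) ∧ ∀ᶠ y in 𝓝 x, f (rad L y • y) = f (rad L x • x) := by
  obtain ⟨e, he⟩ := exists_third hxd
  have hx0 : x ≠ 0 := hxd.ne_left
  obtain ⟨D, hD⟩ : ∃ D : ℝ → V, D = fun θ => Real.cos θ • d + Real.sin θ • e := ⟨_, rfl⟩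
  have hDc : Continuous D := by rw [hD]; fun_prop
  have hInd : ∀ θ, Ind x (D θ) := by
    intro θ s t hst
    rw [hD] at hst
    have h1 : s • x + (t * Real.cos θ) • d + (t * Real.sin θ) • e = 0 := by
      rw [← hst]; module
    obtain ⟨h2, h3, h4⟩ := he _ _ _ h1
    refine ⟨h2, ?_⟩
    have h5 := Real.sin_sq_add_cos_sq θ
    have h6 : t ^ 2 = (t * Real.sin θ) ^ 2 + (t * Real.cos θ) ^ 2 := by
      calc t ^ 2 = t ^ 2 * (Real.sin θ ^ 2 + Real.cos θ ^ 2) := by rw [h5, mul_one]
        _ = _ := by ring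
    rw [h3, h4] at h6
    simpa using h6
  have hH : ∀ θ, H2 K L x (D θ) (cc K L x (D θ)) (aa K L x (D θ)) (bb K L x (D θ)) := by
    intro θ
    obtain ⟨c', a', b', h'⟩ := H x (D θ) (hInd θ)
    obtain ⟨e1, e2, e3⟩ := H2.vals hK hL (hInd θ) h'
    rwa [e1, e2, e3] at h'
  have hpair : ∀ θ, ContinuousAt (fun t : ℝ => (x, D t)) θ := fun θ =>
    (continuous_const.prodMk hDc).continuousAt
  have hcC : Continuous fun θ => cc K L x (D θ) := continuous_iff_continuousAt.2 fun θ =>
    ContinuousAt.comp (f := fun t : ℝ => (x, D t)) (g := fun p : V × V => cc K L p.1 p.2)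
      (cont_cc hK hL (hInd θ)) (hpair θ)
  have hcA : Continuous fun θ => aa K L x (D θ) := continuous_iff_continuousAt.2 fun θ =>
    ContinuousAt.comp (f := fun t : ℝ => (x, D t)) (g := fun p : V × V => aa K L p.1 p.2)
      (cont_aa hK hL (hInd θ)) (hpair θ)
  have hcB : Continuous fun θ => bb K L x (D θ) := continuous_iff_continuousAt.2 fun θ =>
    ContinuousAt.comp (f := fun t : ℝ => (x, D t)) (g := fun p : V × V => bb K L p.1 p.2)
      (cont_bb hK hL (hInd θ)) (hpair θ)
  obtain ⟨W, hW⟩ : ∃ W : ℝ → V, W = fun θ =>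
    (cc K L x (D θ) * rad K x + aa K L x (D θ)) • x + bb K L x (D θ) • D θ := ⟨_, rfl⟩
  have hWc : Continuous W := by
    rw [hW]
    exact (((hcC.mul continuous_const).add hcA).smul continuous_const).add (hcB.smul hDc)
  have hrK := hK.rad_pos hx0
  have hrL := hL.rad_pos hx0
  have hW1 : ∀ θ, rad L (W θ) = 1 := by
    intro θ
    have h1 := (H2.bd hK hL (hInd θ) (hH θ) (rad K x) 0).1 (by
      rw [zero_smul, add_zero, hK.rad_smul hx0 hrK, div_self hrK.ne'])
    rw [hW]
    simpa using h1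
  have hT : ∀ θ, ∀ᶠ y in 𝓝 (W θ), f (rad L y • y) = f (W θ) := fun θ =>
    flat_transfer hK hL H f (hInd θ) hf (hH θ) (by rw [hW])
  have hloc : IsLocallyConstant fun θ => f (W θ) := by
    rw [IsLocallyConstant.iff_eventually_eq]
    intro θ
    filter_upwards [hWc.continuousAt.eventually (hT θ)] with t ht
    rwa [hW1 t, one_smul] at ht
  obtain ⟨θ₀, hθ₀⟩ : ∃ θ, bb K L x (D θ) = 0 := by
    have hpi : bb K L x (D Real.pi) = -bb K L x (D 0) := by
      have : D Real.pi = -D 0 := by rw [hD]; simp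
      rw [this, bb_neg_right]
    have hr : (0 : ℝ) ∈ range fun θ => bb K L x (D θ) := by
      rcases le_total (bb K L x (D 0)) 0 with h1 | h1
      · exact mem_range_of_exists_le_of_exists_ge hcB ⟨0, h1⟩
          ⟨Real.pi, by show 0 ≤ bb K L x (D Real.pi); rw [hpi]; linarith⟩
      · exact mem_range_of_exists_le_of_exists_ge hcB
          ⟨Real.pi, by show bb K L x (D Real.pi) ≤ 0; rw [hpi]; linarith⟩ ⟨0, h1⟩
    exact hr
  have hW0 : W θ₀ = rad L x • x := by
    obtain ⟨hc, hiff⟩ := hH θ₀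
    set C := cc K L x (D θ₀)
    set A := aa K L x (D θ₀)
    have h1 : ∀ α : ℝ, α • x ∈ K ↔ (C * α + A) • x ∈ L := by
      intro α
      have h2 := hiff α 0
      rw [hθ₀] at h2
      simpa using h2
    have h2 : C * rad K x + A ≤ rad L x := by
      have := (hL.line_mem_iff hx0 _).1 ((h1 _).1 (hK.rad_smul_mem hx0))
      exact this.2
    have h3 : rad L x ≤ C * rad K x + A := by
      have h4 : C * ((rad L x - A) / C) + A = rad L x := by
        rw [mul_div_cancel₀ _ hc.ne']; ring
      have h5 := (h1 ((rad L x - A) / C)).2 (by rw [h4]; exact hL.rad_smul_mem hx0)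
      have h6 := ((hK.line_mem_iff hx0 _).1 h5).2
      rw [div_le_iff₀ hc] at h6
      linarith
    have h7 : C * rad K x + A = rad L x := le_antisymm h2 h3
    rw [hW]
    show (C * rad K x + A) • x + bb K L x (D θ₀) • D θ₀ = _
    rw [hθ₀, h7, zero_smul, add_zero]
  constructor
  · have h0 : w = W 0 := by
      obtain ⟨e1, e2, e3⟩ := H2.vals hK hL hxd h
      have hD0 : D 0 = d := by rw [hD]; simp
      rw [hW]
      show w = (cc K L x (D 0) * rad K x + aa K L x (D 0)) • x + bb K L x (D 0) • D 0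
      rw [hD0, ← e1, ← e2, ← e3, hw]
    rw [h0, ← hW0]
    exact hloc.apply_eq_of_preconnectedSpace 0 θ₀
  · have h1 := hT θ₀
    rw [hW0] at h1
    have h2 : ContinuousAt (fun y : V => rad L x • y) x := by fun_prop
    have hne : ∀ᶠ y in 𝓝 x, y ≠ 0 := isOpen_ne.mem_nhds hx0
    filter_upwards [h2.eventually h1, hne] with y hy hy0
    rw [hL.rad_smul hy0 hrL, smul_smul, div_mul_cancel₀ _ hrL.ne'] at hy
    exact hy

end Pool.Agent.Lib.MP_f7db8a.Q
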