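import Pool.Agent.Lib.MP_f7db8a.QDefs
import Pool.Agent.Lib.MP_f7db8a.Q1a
import Pool.Agent.Lib.MP_f7db8a.Q1b
import Pool.Agent.Lib.MP_f7db8a.Q8a
import Pool.Agent.Lib.MP_f7db8a.Q8b
import Pool.Agent.Lib.MP_f7db8a.AnG

set_option autoImplicit false

/-!
# A flat piece makes the bodies homothetic (part Q8c)
-/

namespace Pool.Agent.Lib.MP_f7db8a.Q

open Module Set Filter Topology Metric
open scoped NNReal RealInnerProductSpace

open An (V)

theorem Q8c_swap {K L : Set V} {X Y : V} {c a b : ℝ} (h : H2 K L X Y c a b) :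
    H2 K L Y X c b a := by
  refine ⟨h.1, fun α β => ?_⟩
  have := h.2 β α
  rw [add_comm (β • X), add_comm ((c * β + a) • X)] at this
  exact this

theorem Q8c_frame {K L : Set V} {X Y w : V} {c a b p q : ℝ} (h : H2 K L X Y c a b)
    (hw : w = p • X + q • Y) (hp : p ≠ 0) : H2 K L w Y c (a / p) (b - a * q / p) := by
  refine ⟨h.1, fun α β => ?_⟩
  have := h.2 (α * p) (α * q + β)
  have e1 : (α * p) • X + (α * q + β) • Y = α • w + β • Y := by
    rw [hw]
    module
  have e2 : (c * (α * p) + a) • X + (c * (α * q + β) + b) • Y =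
      (c * α + a / p) • w + (c * β + (b - a * q / p)) • Y := by
    rw [hw, smul_add, smul_smul, smul_smul, add_assoc, ← add_smul]
    congr 2
    · field_simp
    · field_simp
      ring
  rw [e1, e2] at this
  exact this

theorem Q8c_ev_smul {K : Set V} (hK : SB K) {f : V →L[ℝ] ℝ} {x : V} (hx : x ≠ 0) {s : ℝ}
    (h : ∀ᶠ y in 𝓝 x, f (rad K y • y) = s) {t : ℝ} (ht : 0 < t) :
    ∀ᶠ y in 𝓝 (t • x), f (rad K y • y) = s := by
  have h1 : Tendsto (fun y : V => t⁻¹ • y) (𝓝 (t • x)) (𝓝 x) := by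
    have h2 : Continuous (fun y : V => t⁻¹ • y) := by fun_prop
    have h3 := h2.tendsto (t • x)
    simp only [smul_smul, inv_mul_cancel₀ ht.ne', one_smul] at h3
    exact h3
  have h4 : ∀ᶠ y in 𝓝 (t • x), y ≠ 0 := isOpen_ne.mem_nhds (smul_ne_zero ht.ne' hx)
  filter_upwards [h1.eventually h, h4] with y hy hy0
  rw [hK.rad_smul hy0 (inv_pos.2 ht), smul_smul, div_eq_mul_inv, inv_inv, mul_assoc,
    mul_inv_cancel₀ ht.ne', mul_one] at hy
  exact hy

/-- the main step: the image point is again a flat direction of both bodies -/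
theorem Q8c_step {K L : Set V} (hK : SB K) (hL : SB L) (H : HH K L) (f : V →L[ℝ] ℝ)
    {s1 s2 : ℝ} {x d : V} (hxd : Ind x d)
    (h1 : ∀ᶠ y in 𝓝 x, f (rad K y • y) = s1) (h2 : ∀ᶠ y in 𝓝 x, f (rad L y • y) = s2)
    {c a b : ℝ} (h : H2 K L x d c a b) {w : V} (hw : w = (c * rad K x + a) • x + b • d) :
    f w = s2 ∧ w ≠ 0 ∧ (∀ᶠ y in 𝓝 w, f (rad L y • y) = s2) ∧
      ∀ᶠ y in 𝓝 w, f (rad K y • y) = s1 := by
  have hx0 : x ≠ 0 := hxd.ne_left
  have hρ := hK.rad_pos hx0
  have e1 : f (rad K x • x) = s1 := h1.self_of_nhds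
  have e2 : f (rad L x • x) = s2 := h2.self_of_nhds
  have hlev := (flat_level hK hL H f hxd h1 h hw).1
  have htr := flat_transfer hK hL H f hxd h1 h hw
  rw [e2] at hlev
  rw [hlev] at htr
  -- `w` is on the boundary of `L`
  have hbd : rad L w = 1 := by
    have h3 : rad K (rad K x • x + (0 : ℝ) • d) = 1 := by
      rw [zero_smul, add_zero, hK.rad_smul hx0 hρ, div_self hρ.ne']
    have h4 := (h.bd hK hL hxd (rad K x) 0).1 h3
    rw [mul_zero, zero_add, ← hw] at h4
    exact h4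
  have hw0 : w ≠ 0 := by
    intro h0
    have h3 := hbd
    rw [h0] at h3
    -- `rad L 0 = sSup [0, ∞) = 0`
    have h5 : rad L (0 : V) = 0 := by
      unfold rad
      have h6 : {t : ℝ | 0 ≤ t ∧ t • (0 : V) ∈ L} = Set.Ici 0 := by
        ext t
        simp [hL.zero_mem]
      rw [h6]
      apply Real.sSup_of_not_bddAbove
      exact not_bddAbove_Ici 0
    rw [h5] at h3
    exact zero_ne_one h3
  refine ⟨hlev, hw0, htr, ?_⟩
  -- the inverse map
  have hinv : H2 L K x d (1 / c) (-a / c) (-b / c) := h.inv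
  have hc : 0 < c := h.1
  -- back to `x`
  have hback : ∀ {d' : V} {a' b' : ℝ}, Ind w d' → H2 L K w d' (1 / c) a' b' →
      a' • w + b' • d' = (-a / c) • x + (-b / c) • d →
      ∀ᶠ y in 𝓝 w, f (rad K y • y) = s1 := by
    intro d' a' b' hi hh he
    have h3 := flat_level hL hK H.symm f hi htr hh
      (w := ((1 / c) * rad L w + a') • w + b' • d') rfl
    have h4 : ((1 / c) * rad L w + a') • w + b' • d' = rad K x • x := by
      rw [hbd, mul_one, add_smul, add_assoc, he, hw]
      have : (1 / c) • ((c * rad K x + a) • x + b • d) + ((-a / c) • x + (-b / c) • d) =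
          ((1 / c) * (c * rad K x + a) + -a / c) • x + ((1 / c) * b + -b / c) • d := by
        module
      rw [this]
      have g1 : (1 / c) * (c * rad K x + a) + -a / c = rad K x := by
        field_simp
        ring
      have g2 : (1 / c) * b + -b / c = 0 := by
        field_simp
        ring
      rw [g1, g2, zero_smul, add_zero]
    rw [h4, e1] at h3
    rw [← h3.1] at h3
    exact h3.2
  by_cases hp : c * rad K x + a = 0
  · -- frame `(w, x)`
    have hb : b ≠ 0 := by
      intro hb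
      apply hw0
      rw [hw, hp, hb, zero_smul, zero_smul, add_zero]
    have hw' : w = b • d + (c * rad K x + a) • x := by rw [hw, add_comm]
    have hi : Ind w x := by
      intro s t hst
      rw [hw', hp, zero_smul, add_zero, smul_smul] at hst
      have := hxd.swap _ _ hst
      exact ⟨(mul_eq_zero.1 this.1).resolve_right hb, this.2⟩
    refine hback hi (Q8c_frame (Q8c_swap hinv) hw' hb) ?_
    rw [hw', smul_add, smul_smul, smul_smul, add_assoc, ← add_smul, add_comm ((-a / c) • x)]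
    congr 2
    · field_simp
    · field_simp
      ring
  · have hi : Ind w d := by
      intro s t hst
      have e : s • w + t • d = (s * (c * rad K x + a)) • x + (s * b + t) • d := by
        rw [hw]
        module
      rw [e] at hst
      have := hxd _ _ hst
      have hs0 := (mul_eq_zero.1 this.1).resolve_right hp
      refine ⟨hs0, ?_⟩
      have h5 := this.2
      rw [hs0, zero_mul, zero_add] at h5
      exact h5
    refine hback hi (Q8c_frame hinv hw hp) ?_
    rw [hw, smul_add, smul_smul, smul_smul, add_assoc, ← add_smul]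
    congr 2
    · field_simp
    · field_simp
      ring

/-- flat directions in the chart `f = 1` -/
def Q8c_G (f : V →L[ℝ] ℝ) (K L : Set V) (s : ℝ) : Set V :=
  {e | f e = 1 ∧ (∀ᶠ y in 𝓝 e, f (rad K y • y) = 1) ∧ ∀ᶠ y in 𝓝 e, f (rad L y • y) = s}

theorem Q8c_ne {f : V →L[ℝ] ℝ} {e : V} (h : f e = 1) : e ≠ 0 := by
  intro h0
  rw [h0, map_zero] at h
  exact zero_ne_one h

theorem Q8c_radK {f : V →L[ℝ] ℝ} {K L : Set V} {s : ℝ} {e : V} (h : e ∈ Q8c_G f K L s) :
    rad K e = 1 ∧ rad L e = s := by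
  have h1 := h.2.1.self_of_nhds
  have h2 := h.2.2.self_of_nhds
  rw [map_smul, h.1, smul_eq_mul, mul_one] at h1 h2
  exact ⟨h1, h2⟩

theorem Q8c_fwd {K L : Set V} (hK : SB K) (hL : SB L) (H : HH K L) (f : V →L[ℝ] ℝ) {s : ℝ}
    (hs : 0 < s) {e d : V} (he : e ∈ Q8c_G f K L s) (hed : Ind e d) {c a b : ℝ}
    (h : H2 K L e d c a b) : ((c + a) / s) • e + (b / s) • d ∈ Q8c_G f K L s := by
  obtain ⟨r1, r2⟩ := Q8c_radK he
  obtain ⟨h1, h2, h3, h4⟩ := Q8c_step hK hL H f hed he.2.1 he.2.2 h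
    (w := (c * rad K e + a) • e + b • d) rfl
  rw [r1, mul_one] at h1 h2 h3 h4
  have e1 : ((c + a) / s) • e + (b / s) • d = s⁻¹ • ((c + a) • e + b • d) := by
    simp only [div_eq_mul_inv]
    module
  rw [e1]
  refine ⟨?_, Q8c_ev_smul hK h2 h4 (inv_pos.2 hs), Q8c_ev_smul hL h2 h3 (inv_pos.2 hs)⟩
  rw [map_smul, h1, smul_eq_mul, inv_mul_cancel₀ hs.ne']

theorem Q8c_bwd {K L : Set V} (hK : SB K) (hL : SB L) (H : HH K L) (f : V →L[ℝ] ℝ) {s : ℝ}
    {e d : V} (he : e ∈ Q8c_G f K L s) (hed : Ind e d) {c a b : ℝ}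
    (h : H2 K L e d c a b) : ((s - a) / c) • e + (-b / c) • d ∈ Q8c_G f K L s := by
  obtain ⟨r1, r2⟩ := Q8c_radK he
  obtain ⟨h1, h2, h3, h4⟩ := Q8c_step hL hK H.symm f hed he.2.2 he.2.1 h.inv
    (w := ((1 / c) * rad L e + -a / c) • e + (-b / c) • d) rfl
  have hc : 0 < c := h.1
  have e1 : (1 / c) * rad L e + -a / c = (s - a) / c := by
    rw [r2]
    field_simp
    ring
  rw [e1] at h1 h2 h3 h4
  exact ⟨h1, h3, h4⟩

theorem Q8c_closure {f : V →L[ℝ] ℝ} {K L : Set V} (hK : SB K) (hL : SB L) {s : ℝ} {e : V}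
    (h : e ∈ closure (Q8c_G f K L s)) : f e = 1 ∧ rad K e = 1 ∧ rad L e = s := by
  rw [mem_closure_iff_nhdsWithin_neBot] at h
  have h1 : Tendsto f (𝓝[Q8c_G f K L s] e) (𝓝 (f e)) :=
    (f.continuous.tendsto e).mono_left nhdsWithin_le_nhds
  have e1 : f e = 1 := by
    refine tendsto_nhds_unique_of_eventuallyEq h1 tendsto_const_nhds ?_
    filter_upwards [self_mem_nhdsWithin] with x hx using hx.1
  have e0 := Q8c_ne e1
  have h2 : Tendsto (rad K) (𝓝[Q8c_G f K L s] e) (𝓝 (rad K e)) :=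
    (hK.continuousAt_rad e0).tendsto.mono_left nhdsWithin_le_nhds
  have h3 : Tendsto (rad L) (𝓝[Q8c_G f K L s] e) (𝓝 (rad L e)) :=
    (hL.continuousAt_rad e0).tendsto.mono_left nhdsWithin_le_nhds
  refine ⟨e1, ?_, ?_⟩
  · refine tendsto_nhds_unique_of_eventuallyEq h2 tendsto_const_nhds ?_
    filter_upwards [self_mem_nhdsWithin] with x hx using (Q8c_radK hx).1
  · refine tendsto_nhds_unique_of_eventuallyEq h3 tendsto_const_nhds ?_
    filter_upwards [self_mem_nhdsWithin] with x hx using (Q8c_radK hx).2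

/-- both neighbours of a point of the closure are in the closure -/
theorem Q8c_nbrs {K L : Set V} (hK : SB K) (hL : SB L) (H : HH K L) (f : V →L[ℝ] ℝ) {s : ℝ}
    (hs : 0 < s) {e d : V} (he : e ∈ closure (Q8c_G f K L s)) (hed : Ind e d) {c a b : ℝ}
    (h : H2 K L e d c a b) :
    ((c + a) / s) • e + (b / s) • d ∈ closure (Q8c_G f K L s) ∧
    ((s - a) / c) • e + (-b / c) • d ∈ closure (Q8c_G f K L s) := by
  have hne : (𝓝[Q8c_G f K L s] e).NeBot := mem_closure_iff_nhdsWithin_neBot.1 he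
  obtain ⟨hc, ha, hb⟩ := h.vals hK hL hed
  have hcpos : 0 < c := h.1
  have hcurve : Tendsto (fun x : V => (x, d)) (𝓝 e) (𝓝 (e, d)) := by
    have : Continuous (fun x : V => (x, d)) := by fun_prop
    exact this.tendsto e
  have hind : ∀ᶠ x in 𝓝 e, Ind x d := hcurve.eventually hed.eventually
  have tc : Tendsto (fun x => cc K L x d) (𝓝[Q8c_G f K L s] e) (𝓝 c) := by
    have := (cont_cc hK hL hed).tendsto.comp hcurve
    rw [← hc] at this
    exact this.mono_left nhdsWithin_le_nhds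
  have ta : Tendsto (fun x => aa K L x d) (𝓝[Q8c_G f K L s] e) (𝓝 a) := by
    have := (cont_aa hK hL hed).tendsto.comp hcurve
    rw [← ha] at this
    exact this.mono_left nhdsWithin_le_nhds
  have tb : Tendsto (fun x => bb K L x d) (𝓝[Q8c_G f K L s] e) (𝓝 b) := by
    have := (cont_bb hK hL hed).tendsto.comp hcurve
    rw [← hb] at this
    exact this.mono_left nhdsWithin_le_nhds
  have tx : Tendsto (fun x : V => x) (𝓝[Q8c_G f K L s] e) (𝓝 e) := nhdsWithin_le_nhds
  have hvals : ∀ᶠ x in 𝓝[Q8c_G f K L s] e, x ∈ Q8c_G f K L s ∧ Ind x d ∧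
      H2 K L x d (cc K L x d) (aa K L x d) (bb K L x d) := by
    filter_upwards [self_mem_nhdsWithin, nhdsWithin_le_nhds hind] with x hx hxd
    obtain ⟨c', a', b', h'⟩ := H x d hxd
    obtain ⟨h1, h2, h3⟩ := h'.vals hK hL hxd
    rw [h1, h2, h3] at h'
    refine ⟨hx, hxd, ?_⟩
    rw [← h1, ← h2, ← h3] at h' ⊢
    exact h'
  constructor
  · have t1 : Tendsto (fun x => ((cc K L x d + aa K L x d) / s) • x + (bb K L x d / s) • d)
        (𝓝[Q8c_G f K L s] e) (𝓝 (((c + a) / s) • e + (b / s) • d)) :=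
      (((tc.add ta).div_const s).smul tx).add ((tb.div_const s).smul tendsto_const_nhds)
    refine mem_closure_of_tendsto t1 ?_
    filter_upwards [hvals] with x hx
    exact Q8c_fwd hK hL H f hs hx.1 hx.2.1 hx.2.2
  · have t1 : Tendsto (fun x => ((s - aa K L x d) / cc K L x d) • x +
        (-bb K L x d / cc K L x d) • d)
        (𝓝[Q8c_G f K L s] e) (𝓝 (((s - a) / c) • e + (-b / c) • d)) :=
      (((tendsto_const_nhds.sub ta).div tc hcpos.ne').smul tx).add
        ((tb.neg.div tc hcpos.ne').smul tendsto_const_nhds)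
    refine mem_closure_of_tendsto t1 ?_
    filter_upwards [hvals] with x hx
    exact Q8c_bwd hK hL H f hx.1 hx.2.1 hx.2.2

theorem homothetic_of_flat {K L : Set V} (hK : SB K) (hL : SB L) (H : HH K L) (f : V →L[ℝ] ℝ)
    {x0 : V} (hx0 : x0 ≠ 0) (hf : ∀ᶠ x in 𝓝 x0, f (rad K x • x) = 1) :
    ∃ c : ℝ, 0 < c ∧ ∃ x : V, L = (fun y => c • y + x) '' K := by
  have hρ := hK.rad_pos hx0
  have hf0 : f (rad K x0 • x0) = 1 := hf.self_of_nhds
  have hindON : ∀ z d : V, An.ON z d → Ind z d := by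
    intro z d hzd s t hst
    have h1 : ⟪z, s • z + t • d⟫ = s := by
      rw [inner_add_right, real_inner_smul_right, real_inner_smul_right, hzd.2.2,
        real_inner_self_eq_norm_sq, hzd.1]
      ring
    have h2 : ⟪d, s • z + t • d⟫ = t := by
      have h3 : ⟪d, z⟫ = 0 := by rw [real_inner_comm]; exact hzd.2.2
      rw [inner_add_right, real_inner_smul_right, real_inner_smul_right, h3,
        real_inner_self_eq_norm_sq, hzd.2.1]
      ring
    rw [hst, inner_zero_right] at h1 h2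
    exact ⟨h1.symm, h2.symm⟩
  -- a second direction
  have hperp : ∀ e : V, e ≠ 0 → ∃ d, Ind e d := by
    intro e he
    have h1 : (ℝ ∙ e)ᗮ ≠ ⊥ := by
      intro h2
      have h3 := Submodule.finrank_add_finrank_orthogonal (ℝ ∙ e)
      rw [h2, finrank_bot, finrank_span_singleton he] at h3
      simp at h3
    obtain ⟨m, hm, hm0⟩ := Submodule.exists_mem_ne_zero_of_ne_bot h1
    have hem : ⟪e, m⟫ = 0 := Submodule.mem_orthogonal_singleton_iff_inner_right.1 hm
    refine ⟨m, ?_⟩
    intro s t hst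
    have h2 : ⟪e, s • e + t • m⟫ = s * ‖e‖ ^ 2 := by
      rw [inner_add_right, real_inner_smul_right, real_inner_smul_right, hem,
        real_inner_self_eq_norm_sq]
      ring
    rw [hst, inner_zero_right] at h2
    have hs : s = 0 := by
      have h4 : 0 < ‖e‖ ^ 2 := by positivity
      exact (mul_eq_zero.1 h2.symm).resolve_right h4.ne'
    rw [hs, zero_smul, zero_add, smul_eq_zero] at hst
    exact ⟨hs, hst.resolve_right hm0⟩
  -- the level of `L`
  obtain ⟨s, hsdef⟩ : ∃ s, s = f (rad L x0 • x0) := ⟨_, rfl⟩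
  have hfx : 0 < f x0 := by
    rw [map_smul, smul_eq_mul] at hf0
    by_contra hc
    push Not at hc
    nlinarith
  have hs : 0 < s := by
    rw [hsdef, map_smul, smul_eq_mul]
    exact mul_pos (hL.rad_pos hx0) hfx
  obtain ⟨d0, hd0⟩ := hperp x0 hx0
  obtain ⟨c0, a0, b0, h0⟩ := H x0 d0 hd0
  have hfL : ∀ᶠ x in 𝓝 x0, f (rad L x • x) = s := by
    rw [hsdef]
    exact (flat_level hK hL H f hd0 hf h0 rfl).2
  -- the set
  have hGne : (Q8c_G f K L s).Nonempty :=
    ⟨rad K x0 • x0, hf0, Q8c_ev_smul hK hx0 hf hρ, Q8c_ev_smul hL hx0 hfL hρ⟩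
  obtain ⟨R, hR⟩ := hK.compact.isBounded.exists_norm_le
  have hbdd : Bornology.IsBounded (Q8c_G f K L s) := by
    rw [isBounded_iff_forall_norm_le]
    refine ⟨R, fun e he => ?_⟩
    have h1 := hK.rad_smul_mem (Q8c_ne he.1)
    rw [(Q8c_radK he).1, one_smul] at h1
    exact hR _ h1
  have hcomp : IsCompact (closure (Q8c_G f K L s)) := hbdd.isCompact_closure
  obtain ⟨e, he, hmax⟩ := hcomp.exists_isMaxOn hGne.closure continuous_norm.continuousOn
  have hmax' : ∀ y ∈ closure (Q8c_G f K L s), ‖y‖ ≤ ‖e‖ := fun y hy => hmax hy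
  obtain ⟨fe, -, -⟩ := Q8c_closure hK hL he
  have he0 := Q8c_ne fe
  have hen : 0 < ‖e‖ := norm_pos_iff.2 he0
  have key : ∀ d c a b, Ind e d → H2 K L e d c a b → b = 0 := by
    intro d c a b hed h
    have hc : 0 < c := h.1
    obtain ⟨m1, m2⟩ := Q8c_nbrs hK hL H f hs he hed h
    set y1 : V := ((c + a) / s) • e + (b / s) • d with hy1
    set y2 : V := ((s - a) / c) • e + (-b / c) • d with hy2
    have n1 := hmax' _ m1
    have n2 := hmax' _ m2
    have hsum : y1 + (c / s) • y2 = (1 + c / s) • e := by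
      rw [hy1, hy2, smul_add, smul_smul, smul_smul]
      have g1 : c / s * ((s - a) / c) = (s - a) / s := by field_simp
      have g2 : c / s * (-b / c) = -(b / s) := by field_simp
      rw [g1, g2]
      have g3 : (1 : ℝ) + c / s = (c + a) / s + (s - a) / s := by
        field_simp
        ring
      rw [g3]
      module
    have hin : ⟪y1 + (c / s) • y2, e⟫ = ⟪(1 + c / s) • e, e⟫ := by rw [hsum]
    rw [inner_add_left, real_inner_smul_left, real_inner_smul_left,
      real_inner_self_eq_norm_sq] at hin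
    have i1 : ⟪y1, e⟫ ≤ ‖e‖ ^ 2 := by
      have := real_inner_le_norm y1 e
      nlinarith
    have i2 : ⟪y2, e⟫ ≤ ‖e‖ ^ 2 := by
      have := real_inner_le_norm y2 e
      nlinarith
    have hcs : 0 < c / s := div_pos hc hs
    have i3 : ⟪y1, e⟫ = ‖e‖ ^ 2 := by nlinarith
    have hzero : ‖y1 - e‖ ^ 2 ≤ 0 := by
      rw [@norm_sub_sq_real, i3]
      have : ‖y1‖ ^ 2 ≤ ‖e‖ ^ 2 := by
        have := norm_nonneg y1
        nlinarith
      linarith
    have hye : y1 = e := by
      have h1 : ‖y1 - e‖ = 0 := by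
        have := norm_nonneg (y1 - e)
        nlinarith
      exact sub_eq_zero.1 (norm_eq_zero.1 h1)
    have h2 : ((c + a) / s - 1) • e + (b / s) • d = 0 := by
      have h3 : ((c + a) / s - 1) • e + (b / s) • d = y1 - e := by
        rw [hy1]
        module
      rw [h3, hye, sub_self]
    have h4 := (hed _ _ h2).2
    rw [div_eq_zero_iff] at h4
    exact h4.resolve_right hs.ne'
  -- conclusion
  have Hm' : ∀ z d, An.ON z d → ∃ c a b, An.Hm K L z d c a b := fun z d hzd =>
    H z d (hindON z d hzd)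
  have hz : ‖(‖e‖⁻¹ • e : V)‖ = 1 := by
    rw [norm_smul, norm_inv, norm_norm, inv_mul_cancel₀ hen.ne']
  refine An.homothetic_of_good hK hL Hm' hz ?_
  intro d c a b hd hh
  have hed : Ind e d := by
    intro s1 t1 hst
    have h1 := hindON _ _ hd (s1 * ‖e‖) t1 (by
      rw [smul_smul, mul_assoc, mul_inv_cancel₀ hen.ne', mul_one]
      exact hst)
    exact ⟨(mul_eq_zero.1 h1.1).resolve_right hen.ne', h1.2⟩
  refine key d c (a / ‖e‖) b hed ⟨hh.1, fun α β => ?_⟩
  have h1 := hh.2 (α * ‖e‖) β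
  rw [smul_smul, smul_smul, mul_assoc, mul_inv_cancel₀ hen.ne', mul_one] at h1
  have h2 : (c * (α * ‖e‖) + a) * ‖e‖⁻¹ = c * α + a / ‖e‖ := by
    field_simp
  rw [h2] at h1
  exact h1

end Pool.Agent.Lib.MP_f7db8a.Q
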