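import Pool.Agent.Lib.MP_f7db8a.QDefs
import Pool.Agent.Lib.MP_f7db8a.AnD

set_option autoImplicit false

/-!
# Three positively spanning directions at a bad point
-/

namespace Pool.Agent.Lib.MP_f7db8a.Q

open Module Set Filter Topology Metric
open scoped NNReal RealInnerProductSpace
open An (V)

theorem on_neg {z d : V} (hd : An.ON z d) : An.ON z (-d) :=
  ⟨hd.1, by rw [norm_neg]; exact hd.2.1, by rw [inner_neg_right, hd.2.2, neg_zero]⟩

theorem pos_dir {b : V → V → ℝ} (h : An.Fld b) {z : V} (hb : An.Bad b z) {m : V} (hm : m ≠ 0)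
    (hzm : ⟪z, m⟫ = 0) : ∃ d, An.ON z d ∧ 0 < b z d ∧ ⟪d, m⟫ < 0 := by
  by_contra hno
  push Not at hno
  refine hb ⟨m, hm, hzm, fun d hd => ?_⟩
  rcases lt_trichotomy (b z d) 0 with h1 | h1 | h1
  · have h2 := hno (-d) (on_neg hd) (by rw [h.odd z d hd]; linarith)
    rw [inner_neg_left] at h2
    nlinarith
  · rw [h1, zero_mul]
  · exact mul_nonneg h1.le (hno d hd h1)

theorem three_dirs {b : V → V → ℝ} (h : An.Fld b) {z : V} (hz : ‖z‖ = 1) (hb : An.Bad b z) :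
    ∃ d1 d2 d3 : V, An.ON z d1 ∧ An.ON z d2 ∧ An.ON z d3 ∧ 0 < b z d1 ∧ 0 < b z d2 ∧
      0 < b z d3 ∧ Ind d1 d2 ∧ ∃ s1 s2 s3 : ℝ, 0 < s1 ∧ 0 < s2 ∧ 0 < s3 ∧
        s1 • d1 + s2 • d2 + s3 • d3 = 0 := by
  obtain ⟨e0, -, he0, -⟩ := An.two_zeros h hz hb
  have ne0 : ∀ {d : V}, An.ON z d → d ≠ 0 := by
    intro d hd h0
    have := hd.2.1
    rw [h0, norm_zero] at this
    exact zero_ne_one this
  obtain ⟨e, he, hbe, -⟩ := pos_dir h hb (ne0 he0) he0.2.2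
  obtain ⟨f, hf, hef, hfr⟩ := An.D_frame he
  have hee : ⟪e, e⟫ = 1 := by rw [real_inner_self_eq_norm_sq, he.2.1]; norm_num
  have hff : ⟪f, f⟫ = 1 := by rw [real_inner_self_eq_norm_sq, hf.2.1]; norm_num
  have hfe : ⟪f, e⟫ = 0 := by rw [real_inner_comm]; exact hef
  -- a lower and an upper positive direction
  obtain ⟨lo, hlo, blo, ylo⟩ := pos_dir h hb (ne0 hf) hf.2.2
  obtain ⟨up, hup, bup, yup⟩ := pos_dir h hb (neg_ne_zero.2 (ne0 hf))
    (by rw [inner_neg_right, hf.2.2, neg_zero])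
  rw [real_inner_comm] at ylo
  rw [inner_neg_right, real_inner_comm] at yup
  have yup' : 0 < ⟪f, up⟫ := by linarith
  by_cases hex : ∃ d2 d3 : V, An.ON z d2 ∧ An.ON z d3 ∧ 0 < b z d2 ∧ 0 < b z d3 ∧
      0 < ⟪f, d2⟫ ∧ ⟪f, d3⟫ < 0 ∧ 0 < ⟪e, d2⟫ * ⟪f, d3⟫ - ⟪f, d2⟫ * ⟪e, d3⟫
  · obtain ⟨d2, d3, h2, h3, b2, b3, y2, y3, hdet⟩ := hex
    refine ⟨e, d2, d3, he, h2, h3, hbe, b2, b3, ?_,
      ⟪e, d2⟫ * ⟪f, d3⟫ - ⟪f, d2⟫ * ⟪e, d3⟫, -⟪f, d3⟫, ⟪f, d2⟫, hdet, by linarith, y2, ?_⟩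
    · intro s t hst
      have h4 : t * ⟪f, d2⟫ = 0 := by
        have := congrArg (fun v => ⟪f, v⟫) hst
        simp only [inner_add_right, real_inner_smul_right, hfe, inner_zero_right] at this
        linarith
      have ht : t = 0 := by
        rcases mul_eq_zero.1 h4 with h5 | h5
        · exact h5
        · exact absurd h5 y2.ne'
      subst ht
      rw [zero_smul, add_zero, smul_eq_zero] at hst
      exact ⟨hst.resolve_right (ne0 he), rfl⟩
    · have e2 := hfr d2 h2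
      have e3 := hfr d3 h3
      set x2 := ⟪e, d2⟫
      set y2' := ⟪f, d2⟫
      set x3 := ⟪e, d3⟫
      set y3' := ⟪f, d3⟫
      rw [e2, e3]
      module
  · exfalso
    push Not at hex
    -- cotangents of the lower positive directions are bounded by the ones of the upper
    set Slo : Set ℝ := {κ | ∃ d, An.ON z d ∧ 0 < b z d ∧ ⟪f, d⟫ < 0 ∧ κ = ⟪e, d⟫ / ⟪f, d⟫}
      with hSlo
    have hne : Slo.Nonempty := ⟨_, lo, hlo, blo, ylo, rfl⟩
    have hle : ∀ d2, An.ON z d2 → 0 < b z d2 → 0 < ⟪f, d2⟫ → ∀ κ ∈ Slo, κ ≤ ⟪e, d2⟫ / ⟪f, d2⟫ := by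
      rintro d2 h2 b2 y2 κ ⟨d3, h3, b3, y3, rfl⟩
      have := hex d2 d3 h2 h3 b2 b3 y2 y3
      rw [div_le_iff_of_neg y3, div_mul_eq_mul_div, div_le_iff₀ y2]
      linarith
    have hbdd : BddAbove Slo := ⟨_, fun κ hκ => hle up hup bup yup' κ hκ⟩
    set κ := sSup Slo with hκ
    have hfe0 : e - κ • f ≠ 0 := by
      intro h0
      have := congrArg (fun v => ⟪e, v⟫) h0
      simp only [inner_sub_right, real_inner_smul_right, hee, hef, inner_zero_right] at this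
      linarith
    obtain ⟨d, hd, bd, hneg⟩ := pos_dir h hb hfe0
      (by rw [inner_sub_right, real_inner_smul_right, he.2.2, hf.2.2]; ring)
    rw [inner_sub_right, real_inner_smul_right, real_inner_comm, real_inner_comm f d] at hneg
    have hd' := hfr d hd
    rcases lt_trichotomy ⟪f, d⟫ 0 with h1 | h1 | h1
    · have h2 : ⟪e, d⟫ / ⟪f, d⟫ ≤ κ := le_csSup hbdd ⟨d, hd, bd, h1, rfl⟩
      rw [div_le_iff_of_neg h1] at h2
      linarith
    · rw [h1, zero_smul, add_zero] at hd'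
      rw [h1, mul_zero, sub_zero] at hneg
      have h2 : ‖d‖ = |⟪e, d⟫| := by
        conv_lhs => rw [hd']
        rw [norm_smul, he.2.1, mul_one, Real.norm_eq_abs]
      rw [hd.2.1, abs_of_neg hneg] at h2
      have h3 : ⟪e, d⟫ = -1 := by linarith
      rw [h3, neg_one_smul] at hd'
      rw [hd', h.odd z e he] at bd
      linarith
    · have h2 : κ ≤ ⟪e, d⟫ / ⟪f, d⟫ := csSup_le hne (hle d hd bd h1)
      rw [le_div_iff₀ h1] at h2
      linarith

end Pool.Agent.Lib.MP_f7db8a.Q
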