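import Pool.Agent.Lib.MP_f7db8a.AnC
import Pool.Agent.Lib.MP_f7db8a.AnG
import Pool.Agent.Lib.MP_f7db8a.AnA
import Pool.Agent.Lib.MP_f7db8a.Q8c
import Pool.Agent.Lib.MP_f7db8a.Q9
import Pool.Agent.Lib.MP_f7db8a.Q10

set_option autoImplicit false

/-!
# Question Q1 in the space of dimension three
-/

namespace Pool.Agent.Lib.MP_f7db8a.Q

open Module Set Filter Topology Metric
open scoped NNReal RealInnerProductSpace
open An (V)

theorem hh_of_sections {K L : Set V} (hK : SB K)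
    (h : ∀ S : Submodule ℝ V, finrank ℝ S = 2 → ∃ c : ℝ, 0 < c ∧ ∃ x : V,
      L ∩ (S : Set V) = (fun y => c • y + x) '' (K ∩ (S : Set V))) : HH K L := by
  intro z d hzd
  have hli : LinearIndependent ℝ ![z, d] := by
    rw [LinearIndependent.pair_iff]
    exact hzd
  have hfin : finrank ℝ (Submodule.span ℝ ({z, d} : Set V)) = 2 := by
    have h1 := finrank_span_eq_card hli
    have h2 : Set.range ![z, d] = {z, d} := by
      ext v; simp [Matrix.range_cons, or_comm]
    rw [h2] at h1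
    simpa using h1
  obtain ⟨c, hc, x, hx⟩ := h _ hfin
  have hxS : x ∈ Submodule.span ℝ ({z, d} : Set V) := by
    have h1 : c • (0 : V) + x ∈ L ∩ (Submodule.span ℝ ({z, d} : Set V) : Set V) := by
      rw [hx]
      exact ⟨0, ⟨hK.zero_mem, Submodule.zero_mem _⟩, rfl⟩
    rw [smul_zero, zero_add] at h1
    exact h1.2
  obtain ⟨a, b, hab⟩ := Submodule.mem_span_pair.1 hxS
  refine ⟨c, a, b, hc, ?_⟩
  intro α β
  have e : (c * α + a) • z + (c * β + b) • d = c • (α • z + β • d) + x := by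
    rw [← hab]; module
  rw [e]
  constructor
  · intro hm
    have h1 : c • (α • z + β • d) + x ∈ L ∩ (Submodule.span ℝ ({z, d} : Set V) : Set V) := by
      rw [hx]
      exact ⟨_, ⟨hm, Submodule.mem_span_pair.2 ⟨α, β, rfl⟩⟩, rfl⟩
    exact h1.1
  · intro hm
    have h1 : c • (α • z + β • d) + x ∈ L ∩ (Submodule.span ℝ ({z, d} : Set V) : Set V) :=
      ⟨hm, Submodule.add_mem _ (Submodule.smul_mem _ _ (Submodule.mem_span_pair.2 ⟨α, β, rfl⟩)) hxS⟩
    rw [hx] at h1
    obtain ⟨w, hw, hwe⟩ := h1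
    have e2 : c • w = c • (α • z + β • d) := add_right_cancel hwe
    have e3 : w = α • z + β • d := smul_right_injective _ hc.ne' e2
    rw [← e3]
    exact hw.1

theorem q1_three {K L : Set V} (hK : SB K) (hL : SB L)
    (h : ∀ S : Submodule ℝ V, finrank ℝ S = 2 → ∃ c : ℝ, 0 < c ∧ ∃ x : V,
      L ∩ (S : Set V) = (fun y => c • y + x) '' (K ∩ (S : Set V))) :
    ∃ c : ℝ, 0 < c ∧ ∃ x : V, L = (fun y => c • y + x) '' K := by
  have H := An.hm_of_sections hK h
  have HHK : HH K L := hh_of_sections hK h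
  have hf := An.fld hK hL H
  obtain ⟨z, hz, hg | hb⟩ := An.good_or_bad hf
  · exact An.homothetic_of_good hK hL H hz fun d c a b hd hh => by
      rw [An.B_eq hK hL hd hh]; exact hg d hd
  · obtain ⟨d1, d2, d3, o1, o2, o3, b1, b2, b3, hind, s1, s2, s3, p1, p2, p3, hsum⟩ :=
      three_dirs hf hz hb
    obtain ⟨f, x0, hx0, hff⟩ := flat_of_three hK hL HHK o1 o2 o3 b1 b2 b3 hind p1 p2 p3 hsum
    exact homothetic_of_flat hK hL HHK f hx0 hff

end Pool.Agent.Lib.MP_f7db8a.Q
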