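import Mathlib

set_option autoImplicit false

/-!
# Star bodies and their radial functions, abstractly

`SB K`: `K` is compact, nonempty, and `t • x ∈ interior K` for all `x ∈ K`, `0 ≤ t < 1`.
This is equivalent to being a star body with respect to the origin with positive continuous
radial function, and it is stable under surjective linear maps.
-/

namespace Pool.Agent.Lib.MP_f7db8a

open Module Set

section basics

variable {E : Type*} [NormedAddCommGroup E] [NormedSpace ℝ E]

/-- Star bodies with respect to the origin, in set-theoretic form. -/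
structure SB (K : Set E) : Prop where
  compact : IsCompact K
  nonempty : K.Nonempty
  inter : ∀ x ∈ K, ∀ t : ℝ, 0 ≤ t → t < 1 → t • x ∈ interior K

/-- Radial function (extended homogeneously of degree `-1`). -/
noncomputable def rad (K : Set E) (x : E) : ℝ := sSup {t : ℝ | 0 ≤ t ∧ t • x ∈ K}

theorem SB.zero_mem_interior {K : Set E} (hK : SB K) : (0 : E) ∈ interior K := by
  obtain ⟨x, hx⟩ := hK.nonempty
  simpa using hK.inter x hx 0 le_rfl one_pos

theorem SB.zero_mem {K : Set E} (hK : SB K) : (0 : E) ∈ K :=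
  interior_subset hK.zero_mem_interior

theorem SB.smul_mem {K : Set E} (hK : SB K) {x : E} (hx : x ∈ K) {t : ℝ} (h0 : 0 ≤ t)
    (h1 : t ≤ 1) : t • x ∈ K := by
  rcases h1.lt_or_eq with h | h
  · exact interior_subset (hK.inter x hx t h0 h)
  · subst h; simpa using hx

theorem rad_nonneg (K : Set E) (x : E) : 0 ≤ rad K x :=
  Real.sSup_nonneg fun _ ht => ht.1

theorem SB.bddAbove {K : Set E} (hK : SB K) {x : E} (hx : x ≠ 0) :
    BddAbove {t : ℝ | 0 ≤ t ∧ t • x ∈ K} := by
  obtain ⟨R, hR⟩ := hK.compact.isBounded.exists_norm_le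
  refine ⟨R / ‖x‖, ?_⟩
  rintro t ⟨h0, ht⟩
  have := hR _ ht
  rw [norm_smul, Real.norm_of_nonneg h0] at this
  rw [le_div_iff₀ (norm_pos_iff.2 hx)]
  exact this

theorem SB.rad_smul_mem {K : Set E} (hK : SB K) {x : E} (hx : x ≠ 0) : rad K x • x ∈ K := by
  have hcl : IsClosed {t : ℝ | 0 ≤ t ∧ t • x ∈ K} := by
    apply IsClosed.inter isClosed_Ici
    exact hK.compact.isClosed.preimage (by fun_prop)
  have hne : {t : ℝ | 0 ≤ t ∧ t • x ∈ K}.Nonempty := ⟨0, le_rfl, by simpa using hK.zero_mem⟩
  exact (hcl.csSup_mem hne (hK.bddAbove hx)).2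

theorem SB.smul_mem_iff {K : Set E} (hK : SB K) {x : E} (hx : x ≠ 0) {t : ℝ} (ht : 0 ≤ t) :
    t • x ∈ K ↔ t ≤ rad K x := by
  constructor
  · intro h
    exact le_csSup (hK.bddAbove hx) ⟨ht, h⟩
  · intro h
    rcases ht.eq_or_lt with h0 | h0
    · subst h0; simpa using hK.zero_mem
    · have hpos : 0 < rad K x := lt_of_lt_of_le h0 h
      have := hK.smul_mem (hK.rad_smul_mem hx) (t := t / rad K x) (by positivity)
        ((div_le_one hpos).2 h)
      rwa [smul_smul, div_mul_cancel₀ _ hpos.ne'] at this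

theorem SB.rad_pos {K : Set E} (hK : SB K) {x : E} (hx : x ≠ 0) : 0 < rad K x := by
  have h1 : ∀ᶠ t : ℝ in nhds 0, t • x ∈ interior K := by
    have hc : ContinuousAt (fun t : ℝ => t • x) 0 := by fun_prop
    apply hc
    simpa using isOpen_interior.mem_nhds hK.zero_mem_interior
  obtain ⟨ε, hε, h⟩ := Metric.eventually_nhds_iff.1 h1
  have h2 : (ε / 2) • x ∈ K := interior_subset (h (by
    rw [Real.dist_eq, sub_zero, abs_of_pos (by positivity)]; linarith))
  have := (hK.smul_mem_iff hx (by positivity)).1 h2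
  linarith

theorem SB.rad_smul {K : Set E} (hK : SB K) {x : E} (hx : x ≠ 0) {c : ℝ} (hc : 0 < c) :
    rad K (c • x) = rad K x / c := by
  have hcx : c • x ≠ 0 := smul_ne_zero hc.ne' hx
  apply le_antisymm
  · rw [le_div_iff₀ hc]
    rw [← hK.smul_mem_iff hx (by have := rad_nonneg K (c • x); positivity), ← smul_smul]
    exact hK.rad_smul_mem hcx
  · rw [← hK.smul_mem_iff hcx (by have := rad_nonneg K x; positivity), smul_smul,
      div_mul_cancel₀ _ hc.ne']
    exact hK.rad_smul_mem hx

theorem SB.continuousAt_rad {K : Set E} (hK : SB K) {x : E} (hx : x ≠ 0) :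
    ContinuousAt (rad K) x := by
  have hne : ∀ᶠ y in nhds x, y ≠ 0 := isOpen_ne.mem_nhds hx
  apply tendsto_order.2 ⟨?_, ?_⟩
  · intro a ha
    rcases lt_or_ge a 0 with h0 | h0
    · exact Filter.Eventually.of_forall fun y => lt_of_lt_of_le h0 (rad_nonneg K y)
    · obtain ⟨b, hab, hb⟩ := exists_between ha
      have hb0 : 0 ≤ b := h0.trans hab.le
      have hr : 0 < rad K x := lt_of_le_of_lt h0 ha
      have h1 : b • x ∈ interior K := by
        have := hK.inter _ (hK.rad_smul_mem hx) (b / rad K x) (by positivity)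
          ((div_lt_one hr).2 hb)
        rwa [smul_smul, div_mul_cancel₀ _ hr.ne'] at this
      have h2 : ∀ᶠ y in nhds x, b • y ∈ interior K := by
        have hc : ContinuousAt (fun y : E => b • y) x := by fun_prop
        exact hc (isOpen_interior.mem_nhds h1)
      filter_upwards [h2, hne] with y hy hy0
      exact lt_of_lt_of_le hab ((hK.smul_mem_iff hy0 hb0).1 (interior_subset hy))
  · intro a ha
    have h0 : 0 ≤ a := (rad_nonneg K x).trans ha.le
    have h1 : a • x ∉ K := fun h => absurd ((hK.smul_mem_iff hx h0).1 h) (not_le.2 ha)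
    have h2 : ∀ᶠ y in nhds x, a • y ∈ Kᶜ := by
      have hc : ContinuousAt (fun y : E => a • y) x := by fun_prop
      exact hc (hK.compact.isClosed.isOpen_compl.mem_nhds h1)
    filter_upwards [h2, hne] with y hy hy0
    by_contra hcon
    exact hy ((hK.smul_mem_iff hy0 h0).2 (not_lt.1 hcon))

theorem SB.line_mem_iff {K : Set E} (hK : SB K) {x : E} (hx : x ≠ 0) (t : ℝ) :
    t • x ∈ K ↔ -rad K (-x) ≤ t ∧ t ≤ rad K x := by
  have hx' : -x ≠ 0 := neg_ne_zero.2 hx
  rcases le_total 0 t with h0 | h0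
  · rw [hK.smul_mem_iff hx h0]
    constructor
    · intro h
      exact ⟨by have := rad_nonneg K (-x); linarith, h⟩
    · exact fun h => h.2
  · have : t • x = (-t) • (-x) := by simp
    rw [this, hK.smul_mem_iff hx' (by linarith)]
    constructor
    · intro h
      exact ⟨by linarith, by have := rad_nonneg K x; linarith⟩
    · intro h; linarith [h.1]

/-- If the line sections in direction `x` are translates by `c • x`, the radial functions
shift accordingly. -/
theorem rad_shift {X Y : Set E} (hX : SB X) (hY : SB Y) {x : E} (hx : x ≠ 0) {c : ℝ}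
    (h : ∀ t : ℝ, t • x ∈ Y ↔ (t - c) • x ∈ X) :
    rad Y x = rad X x + c ∧ rad Y (-x) = rad X (-x) - c := by
  have h' : ∀ t : ℝ, (-rad Y (-x) ≤ t ∧ t ≤ rad Y x) ↔
      (-rad X (-x) ≤ t - c ∧ t - c ≤ rad X x) := by
    intro t
    rw [← hY.line_mem_iff hx, ← hX.line_mem_iff hx]
    exact h t
  have hY1 := rad_nonneg Y x
  have hY2 := rad_nonneg Y (-x)
  have hX1 := rad_nonneg X x
  have hX2 := rad_nonneg X (-x)
  have a1 := (h' (rad Y x)).1 ⟨by linarith, le_rfl⟩
  have a2 := (h' (-rad Y (-x))).1 ⟨le_rfl, by linarith⟩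
  have a3 := (h' (rad X x + c)).2 ⟨by linarith, by linarith⟩
  have a4 := (h' (-rad X (-x) + c)).2 ⟨by linarith, by linarith⟩
  constructor <;> linarith [a1.1, a1.2, a2.1, a2.2, a3.1, a3.2, a4.1, a4.2]

theorem SB.image {E' : Type*} [NormedAddCommGroup E'] [NormedSpace ℝ E']
    [CompleteSpace E] [CompleteSpace E'] {K : Set E} (hK : SB K) (f : E →L[ℝ] E')
    (hf : Function.Surjective f) : SB (f '' K) where
  compact := hK.compact.image f.continuous
  nonempty := hK.nonempty.image _
  inter := by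
    rintro _ ⟨x, hx, rfl⟩ t h0 h1
    have hopen : IsOpenMap f := f.isOpenMap hf
    apply hopen.image_interior_subset K
    exact ⟨t • x, hK.inter x hx t h0 h1, by simp⟩

end basics

section step1

universe u

/-- `j`-dimensional central sections are translates of each other. -/
def Tr {E : Type u} [NormedAddCommGroup E] [InnerProductSpace ℝ E] (j : ℕ) (X Y : Set E) : Prop :=
  ∀ T : Submodule ℝ E, finrank ℝ T = j → ∃ y ∈ T, ∀ p ∈ T, (p ∈ Y ↔ p - y ∈ X)

/-- Through each line there is a `j`-section whose translation vector is along the line. -/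
def LineTr {E : Type u} [NormedAddCommGroup E] [InnerProductSpace ℝ E] (j : ℕ) (X Y : Set E) :
    Prop :=
  ∀ x : E, x ≠ 0 → ∃ T : Submodule ℝ E, finrank ℝ T = j ∧ x ∈ T ∧
    ∃ c : ℝ, ∀ p ∈ T, (p ∈ Y ↔ p - c • x ∈ X)

variable {E : Type u} [NormedAddCommGroup E] [InnerProductSpace ℝ E] [FiniteDimensional ℝ E]

theorem rad_of_lineTr {j : ℕ} {X Y : Set E} (hX : SB X) (hY : SB Y) (h : LineTr j X Y) {x : E}
    (hx : x ≠ 0) : ∃ T : Submodule ℝ E, finrank ℝ T = j ∧ x ∈ T ∧
    ∃ c : ℝ, (∀ p ∈ T, (p ∈ Y ↔ p - c • x ∈ X)) ∧ rad Y x = rad X x + c ∧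
      rad Y (-x) = rad X (-x) - c := by
  obtain ⟨T, hT, hxT, c, hc⟩ := h x hx
  refine ⟨T, hT, hxT, c, hc, rad_shift hX hY hx ?_⟩
  intro t
  rw [hc (t • x) (T.smul_mem t hxT), sub_smul]

theorem sum_rad_of_lineTr {j : ℕ} {X Y : Set E} (hX : SB X) (hY : SB Y) (h : LineTr j X Y)
    {x : E} (hx : x ≠ 0) : rad Y x + rad Y (-x) = rad X x + rad X (-x) := by
  obtain ⟨T, _, _, c, _, h1, h2⟩ := rad_of_lineTr hX hY h hx
  rw [h1, h2]; ring

theorem exists_eq_of_lineTr {j : ℕ} {X Y : Set E} (hX : SB X) (hY : SB Y) (h : LineTr j X Y)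
    (hdim : 1 < finrank ℝ E) : ∃ T : Submodule ℝ E, finrank ℝ T = j ∧ ∀ p ∈ T, (p ∈ Y ↔ p ∈ X) := by
  have hrank : 1 < Module.rank ℝ E := by
    rw [← Module.finrank_eq_rank]; exact_mod_cast hdim
  have hconn : IsPreconnected ({0}ᶜ : Set E) :=
    (isConnected_compl_singleton_of_one_lt_rank hrank 0).isPreconnected
  obtain ⟨x₀, hx₀⟩ := (isConnected_compl_singleton_of_one_lt_rank hrank (0 : E)).nonempty
  have hx0' : x₀ ≠ 0 := hx₀
  have hcont : ContinuousOn (fun x => rad Y x - rad X x) ({0}ᶜ : Set E) := by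
    intro x hx
    exact ((hY.continuousAt_rad hx).sub (hX.continuousAt_rad hx)).continuousWithinAt
  have hodd : ∀ x : E, x ≠ 0 → rad Y (-x) - rad X (-x) = -(rad Y x - rad X x) := by
    intro x hx
    have := sum_rad_of_lineTr hX hY h hx
    linarith
  have hzero : ∃ x : E, x ≠ 0 ∧ rad Y x - rad X x = 0 := by
    have key : ∀ a b : E, a ≠ 0 → b ≠ 0 → rad Y a - rad X a ≤ 0 → 0 ≤ rad Y b - rad X b →
        ∃ x : E, x ≠ 0 ∧ rad Y x - rad X x = 0 := by
      intro a b ha hb h1 h2
      obtain ⟨x, hx, hx2⟩ := hconn.intermediate_value (a := a) (b := b) ha hb hcont ⟨h1, h2⟩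
      exact ⟨x, hx, hx2⟩
    rcases le_total (rad Y x₀ - rad X x₀) 0 with h1 | h1
    · refine key x₀ (-x₀) hx0' (neg_ne_zero.2 hx0') h1 ?_
      rw [hodd x₀ hx0']; linarith
    · refine key (-x₀) x₀ (neg_ne_zero.2 hx0') hx0' ?_ h1
      rw [hodd x₀ hx0']; linarith
  obtain ⟨x, hx, hx2⟩ := hzero
  obtain ⟨T, hT, hxT, c, hc, h1, h2⟩ := rad_of_lineTr hX hY h hx
  have hc0 : c = 0 := by linarith
  refine ⟨T, hT, ?_⟩
  intro p hp
  rw [hc p hp, hc0, zero_smul, sub_zero]

theorem finrank_comap_of_ker {E' : Type*} [NormedAddCommGroup E'] [InnerProductSpace ℝ E']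
    [FiniteDimensional ℝ E'] (f : E →ₗ[ℝ] E') (hf : Function.Surjective f)
    (T' : Submodule ℝ E') :
    finrank ℝ (T'.comap f) = finrank ℝ T' + finrank ℝ (LinearMap.ker f) := by
  have h1 := (f.domRestrict (T'.comap f)).finrank_range_add_finrank_ker
  have h2 : LinearMap.range (f.domRestrict (T'.comap f)) = T' := by
    rw [LinearMap.range_domRestrict, Submodule.map_comap_eq, LinearMap.range_eq_top.2 hf,
      top_inf_eq]
  have h3 : finrank ℝ (LinearMap.ker (f.domRestrict (T'.comap f))) =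
      finrank ℝ (LinearMap.ker f) := by
    rw [LinearMap.ker_domRestrict]
    have hle : LinearMap.ker f ≤ T'.comap f := by
      intro x hx
      rw [Submodule.mem_comap, LinearMap.mem_ker.1 hx]
      exact T'.zero_mem
    exact LinearEquiv.finrank_eq (Submodule.comapSubtypeEquivOfLe hle)
  rw [h2, h3] at h1
  exact h1.symm

/-- A nonempty bounded set is not invariant under a nonzero translation. -/
theorem eq_zero_of_translate {X : Set E} (hb : Bornology.IsBounded X) {T : Submodule ℝ E}
    {p₀ y : E} (hy : y ∈ T) (hp₀ : p₀ ∈ X) (hp₀T : p₀ ∈ T)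
    (h : ∀ p ∈ T, (p ∈ X ↔ p - y ∈ X)) : y = 0 := by
  by_contra hy0
  have hall : ∀ n : ℕ, p₀ + n • y ∈ X := by
    intro n
    induction n with
    | zero => simpa using hp₀
    | succ n ih =>
      have hmem : p₀ + (n + 1) • y ∈ T := T.add_mem hp₀T (T.nsmul_mem hy _)
      rw [h _ hmem]
      have : p₀ + (n + 1) • y - y = p₀ + n • y := by rw [succ_nsmul]; abel
      rw [this]; exact ih
  obtain ⟨R, hR⟩ := hb.exists_norm_le
  obtain ⟨n, hn⟩ := exists_nat_gt ((R + ‖p₀‖) / ‖y‖)
  have h1 := hR _ (hall n)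
  have hypos : 0 < ‖y‖ := norm_pos_iff.2 hy0
  rw [div_lt_iff₀ hypos] at hn
  have h2 : ‖n • y‖ ≤ ‖p₀ + n • y‖ + ‖p₀‖ := by
    calc ‖n • y‖ = ‖(p₀ + n • y) - p₀‖ := by congr 1; abel
      _ ≤ _ := norm_sub_le _ _
  have h3 : ‖n • y‖ = n * ‖y‖ := by
    rw [← Nat.cast_smul_eq_nsmul ℝ, norm_smul]; simp
  linarith

/-- **Step 1.** If all `j`-sections are translates (`1 ≤ j < dim E`), then through each line there
is a `j`-section whose translation vector is along that line. -/
theorem lineTr_of_tr (j : ℕ) : ∀ {E : Type u} [NormedAddCommGroup E] [InnerProductSpace ℝ E]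
    [FiniteDimensional ℝ E] {X Y : Set E}, SB X → SB Y → 1 ≤ j → j < finrank ℝ E → Tr j X Y →
    LineTr j X Y := by
  induction j with
  | zero => intro E _ _ _ X Y _ _ h; omega
  | succ j ih =>
    intro E _ _ _ X Y hX hY _ hj h x hx
    rcases Nat.eq_zero_or_pos j with hj0 | hj0
    · subst hj0
      have hT : finrank ℝ (Submodule.span ℝ ({x} : Set E)) = 0 + 1 := by
        rw [finrank_span_singleton hx]
      obtain ⟨y, hy, hyY⟩ := h _ hT
      obtain ⟨c, rfl⟩ := Submodule.mem_span_singleton.1 hy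
      exact ⟨_, hT, Submodule.mem_span_singleton_self x, c, hyY⟩
    · set F : Submodule ℝ E := (Submodule.span ℝ ({x} : Set E))ᗮ with hF
      set f : E →L[ℝ] F := F.orthogonalProjectionOnto with hf
      have hker : LinearMap.ker (f : E →ₗ[ℝ] F) = Submodule.span ℝ ({x} : Set E) := by
        have h1 : LinearMap.ker (f : E →ₗ[ℝ] F) = Fᗮ := Submodule.ker_orthogonalProjectionOnto
        have h2 : Fᗮ = Submodule.span ℝ ({x} : Set E) := by
          rw [hF, Submodule.orthogonal_orthogonal]
        exact h1.trans h2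
      have hsurj : Function.Surjective f := by
        intro q
        exact ⟨(q : E), Submodule.orthogonalProjectionOnto_mem_subspace_eq_self q⟩
      have hfinF : finrank ℝ F + 1 = finrank ℝ E := by
        have := Submodule.finrank_add_finrank_orthogonal (Submodule.span ℝ ({x} : Set E))
        rw [finrank_span_singleton hx] at this
        rw [hF]; omega
      have hfk : finrank ℝ (LinearMap.ker (f : E →ₗ[ℝ] F)) = 1 := by
        rw [hker, finrank_span_singleton hx]
      have hcomap : ∀ T' : Submodule ℝ F, finrank ℝ T' = j →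
          finrank ℝ (T'.comap (f : E →ₗ[ℝ] F)) = j + 1 := by
        intro T' hT'
        rw [finrank_comap_of_ker (f : E →ₗ[ℝ] F) hsurj T', hfk, hT']
      have hTr : Tr j (f '' X) (f '' Y) := by
        intro T' hT'
        obtain ⟨y, hy, hyY⟩ := h _ (hcomap T' hT')
        refine ⟨f y, hy, ?_⟩
        intro p' hp'
        constructor
        · rintro ⟨p, hp, rfl⟩
          exact ⟨p - y, (hyY p hp').1 hp, by simp⟩
        · rintro ⟨q, hq, hq'⟩
          have hfp : f (q + y) = p' := by rw [map_add, hq']; abel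
          refine ⟨q + y, ?_, hfp⟩
          rw [hyY (q + y) (by rw [Submodule.mem_comap]; change f (q + y) ∈ T'; rw [hfp]; exact hp')]
          simpa using hq
      have hline := ih (hX.image f hsurj) (hY.image f hsurj) hj0 (by omega) hTr
      obtain ⟨T', hT', hT'2⟩ := exists_eq_of_lineTr (hX.image f hsurj) (hY.image f hsurj) hline
        (by omega)
      obtain ⟨y, hy, hyY⟩ := h _ (hcomap T' hT')
      have hfy : f y = 0 := by
        apply eq_zero_of_translate (hX.image f hsurj).compact.isBounded (T := T') (p₀ := 0) hy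
          (hX.image f hsurj).zero_mem T'.zero_mem
        intro p' hp'
        rw [← hT'2 p' hp']
        constructor
        · rintro ⟨p, hp, rfl⟩
          exact ⟨p - y, (hyY p hp').1 hp, by simp⟩
        · rintro ⟨q, hq, hq'⟩
          have hfp : f (q + y) = p' := by
            have hq'' : f q = p' - f y := hq'
            rw [map_add, hq'']; abel
          refine ⟨q + y, ?_, hfp⟩
          rw [hyY (q + y) (by rw [Submodule.mem_comap]; change f (q + y) ∈ T'; rw [hfp]; exact hp')]
          simpa using hq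
      have hyk : y ∈ LinearMap.ker (f : E →ₗ[ℝ] F) := hfy
      rw [hker] at hyk
      obtain ⟨c, rfl⟩ := Submodule.mem_span_singleton.1 hyk
      refine ⟨_, hcomap T' hT', ?_, c, hyY⟩
      rw [Submodule.mem_comap]
      have hxk : x ∈ LinearMap.ker (f : E →ₗ[ℝ] F) := by
        rw [hker]; exact Submodule.mem_span_singleton_self x
      rw [LinearMap.mem_ker.1 hxk]
      exact T'.zero_mem

/-- Chord lengths through the origin agree. -/
theorem sum_rad_eq {j : ℕ} {E : Type u} [NormedAddCommGroup E] [InnerProductSpace ℝ E]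
    [FiniteDimensional ℝ E] {X Y : Set E} (hX : SB X) (hY : SB Y) (h1 : 1 ≤ j)
    (h2 : j < finrank ℝ E) (h : Tr j X Y) {x : E} (hx : x ≠ 0) :
    rad Y x + rad Y (-x) = rad X x + rad X (-x) :=
  sum_rad_of_lineTr hX hY (lineTr_of_tr j hX hY h1 h2 h) hx

end step1

end Pool.Agent.Lib.MP_f7db8a
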