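import Pool.Agent.Lib.MP_f7db8a.Reduce

set_option autoImplicit false
set_option linter.unusedSectionVars false

/-!
# Bodies with strictly convex convex hull
-/

namespace Pool.Agent.Lib.MP_f7db8a

open Module Set
open scoped RealInnerProductSpace

universe u

variable {E : Type u} [NormedAddCommGroup E] [InnerProductSpace ℝ E] [FiniteDimensional ℝ E]

/-- The convex hull of a compact set in finite dimension is compact (Carathéodory). -/
theorem isCompact_convexHull_of_isCompact {K : Set E} (hK : IsCompact K) :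
    IsCompact (convexHull ℝ K) := by
  rcases K.eq_empty_or_nonempty with rfl | ⟨x0, hx0⟩
  · simp
  let N := finrank ℝ E + 1
  let Q : Set ((Fin N → ℝ) × (Fin N → E)) := stdSimplex ℝ (Fin N) ×ˢ Set.pi univ (fun _ => K)
  have hQ : IsCompact Q := (isCompact_stdSimplex ℝ (Fin N)).prod (isCompact_univ_pi fun _ => hK)
  let Φ : (Fin N → ℝ) × (Fin N → E) → E := fun q => ∑ i, q.1 i • q.2 i
  have hΦ : Continuous Φ := by
    apply continuous_finset_sum
    intro i _
    fun_prop
  have hEq : convexHull ℝ K = Φ '' Q := by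
    apply Subset.antisymm
    · intro x hx
      obtain ⟨ι, _, z, w, hz, hind, hwpos, hw1, hwx⟩ := eq_pos_convex_span_of_mem_convexHull hx
      have hcard : Fintype.card ι ≤ Fintype.card (Fin N) := by
        rw [Fintype.card_fin]
        refine hind.card_le_finrank_succ.trans ?_
        exact Nat.succ_le_succ (Submodule.finrank_le _)
      obtain ⟨g⟩ := Function.Embedding.nonempty_of_card_le hcard
      have e1 : ∀ i, Function.extend g w 0 (g i) = w i := fun i => g.injective.extend_apply _ _ i
      have e2 : ∀ i, Function.extend g z (fun _ => x0) (g i) = z i :=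
        fun i => g.injective.extend_apply _ _ i
      have e3 : ∀ j, j ∉ range g → Function.extend g w 0 j = 0 := by
        intro j hj
        rw [Function.extend_apply' _ _ _ (by simpa using hj)]
        rfl
      refine ⟨(Function.extend g w 0, Function.extend g z (fun _ => x0)), ⟨⟨?_, ?_⟩, ?_⟩, ?_⟩
      · intro j
        by_cases hj : j ∈ range g
        · obtain ⟨i, rfl⟩ := hj
          simp only
          rw [e1]; exact (hwpos i).le
        · simp only
          rw [e3 j hj]
      · simp only
        rw [← Fintype.sum_of_injective g g.injective w _ e3 (fun i => (e1 i).symm)]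
        exact hw1
      · intro j _
        by_cases hj : j ∈ range g
        · obtain ⟨i, rfl⟩ := hj
          simp only
          rw [e2]; exact hz ⟨i, rfl⟩
        · simp only
          rw [Function.extend_apply' _ _ _ (by simpa using hj)]
          exact hx0
      · change ∑ j, Function.extend g w 0 j • Function.extend g z (fun _ => x0) j = x
        rw [← Fintype.sum_of_injective g g.injective (fun i => w i • z i) _
          (fun j hj => by rw [e3 j hj, zero_smul]) (fun i => by rw [e1, e2])]
        exact hwx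
    · rintro _ ⟨⟨w, z⟩, ⟨⟨hw0, hw1⟩, hz⟩, rfl⟩
      apply (convex_convexHull ℝ K).sum_mem
      · intro i _; exact hw0 i
      · exact hw1
      · intro i _; exact subset_convexHull ℝ K (hz i (mem_univ i))
  rw [hEq]
  exact hQ.image hΦ

/-- If `f` has a unique maximum on `K` at `a` and a unique minimum on `K` at `b`, where `a, b` are
on a line through `0`, then symmetric sections force `K` to be symmetric. -/
theorem sym_of_chord {K : Set E} {k : ℕ} (hk : 2 ≤ k) (hkn : k ≤ finrank ℝ E)
    (hsec : SymSec k K) {a b : E} {r : ℝ} (hab : b = r • a) (f : E →L[ℝ] ℝ)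
    (haK : a ∈ K) (hbK : b ∈ K)
    (hmax : ∀ y ∈ K, f y ≤ f a) (hmin : ∀ y ∈ K, f b ≤ f y)
    (humax : ∀ y ∈ K, f y = f a → y = a) : ∃ c, SymAt K c := by
  classical
  refine ⟨(1 / 2 : ℝ) • (a + b), ?_⟩
  intro p hp
  have hN : finrank ℝ (Submodule.span ℝ ({p, a} : Set E)) ≤ k := by
    have h1 := finrank_span_finset_le_card (R := ℝ) ({p, a} : Finset E)
    have h2 : (({p, a} : Finset E) : Set E) = {p, a} := by push_cast; rfl
    rw [h2] at h1
    exact h1.trans (Finset.card_le_two.trans hk)
  obtain ⟨S, hNS, hS⟩ := exists_finrank_eq _ hN hkn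
  have hpS : p ∈ S := hNS (Submodule.subset_span (by simp))
  have haS : a ∈ S := hNS (Submodule.subset_span (by simp))
  have hbS : b ∈ S := by rw [hab]; exact S.smul_mem r haS
  obtain ⟨c, hc, hsym⟩ := hsec S hS
  have h1 := (hsym a ⟨haK, haS⟩).1
  have h2 := (hsym b ⟨hbK, hbS⟩).1
  have e1 := hmin _ h1
  have e2 := hmax _ h2
  rw [map_sub, map_smul, smul_eq_mul] at e1 e2
  have e3 : f ((2 : ℝ) • c - b) = f a := by
    rw [map_sub, map_smul, smul_eq_mul]; linarith
  have e4 := humax _ h2 e3
  have e5 : (2 : ℝ) • ((1 / 2 : ℝ) • (a + b)) - p = (2 : ℝ) • c - p := by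
    rw [smul_smul]
    norm_num
    rw [← e4]
    abel
  rw [e5]
  exact (hsym p ⟨hp, hpS⟩).1

theorem strict_sym {K : Set E} (hK : SB K) {k : ℕ} (hk : 2 ≤ k) (hkn : k ≤ finrank ℝ E)
    (hsec : SymSec k K) (hsc : StrictConvex ℝ (convexHull ℝ K)) : ∃ c, SymAt K c := by
  set C : Set E := convexHull ℝ K with hC
  have hKC : K ⊆ C := subset_convexHull ℝ K
  have hCconv : Convex ℝ C := convex_convexHull ℝ K
  have hCcomp : IsCompact C := isCompact_convexHull_of_isCompact hK.compact
  have h0 : (0 : E) ∈ interior C := interior_mono hKC hK.zero_mem_interior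
  -- `C` is a star body
  have hCS : SB C := by
    refine ⟨hCcomp, hK.nonempty.mono hKC, ?_⟩
    intro x hx t ht0 ht1
    have := hCconv.combo_interior_self_mem_interior h0 hx (a := 1 - t) (b := t) (by linarith)
      ht0 (by ring)
    simpa using this
  -- maximise `ρ(u)/ρ(-u)` on the unit sphere
  have hnt : ∃ w : E, w ≠ 0 := by
    have : 0 < finrank ℝ E := by omega
    exact Module.finrank_pos_iff_exists_ne_zero.1 this
  obtain ⟨w, hw⟩ := hnt
  have hsph0 : ∀ y : E, y ∈ Metric.sphere (0 : E) 1 → y ≠ 0 := by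
    rintro y hy rfl
    rw [mem_sphere_zero_iff_norm, norm_zero] at hy
    exact one_ne_zero hy.symm
  have hsphne : (Metric.sphere (0 : E) 1).Nonempty := by
    refine ⟨‖w‖⁻¹ • w, ?_⟩
    rw [mem_sphere_zero_iff_norm, norm_smul, norm_inv, norm_norm,
      inv_mul_cancel₀ (norm_ne_zero_iff.2 hw)]
  have hcont : ContinuousOn (fun u : E => rad C u / rad C (-u)) (Metric.sphere (0 : E) 1) := by
    intro u hu
    have hu0 := hsph0 u hu
    apply ContinuousAt.continuousWithinAt
    refine (hCS.continuousAt_rad hu0).div ?_ (hCS.rad_pos (neg_ne_zero.2 hu0)).ne'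
    exact ContinuousAt.comp (f := fun x : E => -x) (g := rad C)
      (hCS.continuousAt_rad (neg_ne_zero.2 hu0)) continuous_neg.continuousAt
  obtain ⟨u, hu, hmaxu⟩ := (isCompact_sphere (0 : E) 1).exists_isMaxOn hsphne hcont
  have hu0 := hsph0 u hu
  have hu0' : -u ≠ 0 := neg_ne_zero.2 hu0
  have hr1 := hCS.rad_pos hu0
  have hr2 := hCS.rad_pos hu0'
  set lam : ℝ := rad C u / rad C (-u) with hlam
  have hlampos : 0 < lam := div_pos hr1 hr2
  set b : E := rad C u • u with hb
  set a : E := rad C (-u) • (-u) with ha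
  have haC : a ∈ C := hCS.rad_smul_mem hu0'
  have hbC : b ∈ C := hCS.rad_smul_mem hu0
  have hab : b = (-lam) • a := by
    rw [hb, ha, smul_smul, smul_neg, hlam]
    rw [← neg_smul]
    congr 1
    field_simp
  -- `-y/lam ∈ C` for `y ∈ C`
  have hscale : ∀ y ∈ C, (-lam⁻¹) • y ∈ C := by
    intro y hy
    rcases eq_or_ne y 0 with rfl | hy0
    · rw [smul_zero]; exact hCS.zero_mem
    · have hypos : 0 < ‖y‖ := norm_pos_iff.2 hy0
      set v : E := ‖y‖⁻¹ • y with hv
      have hvs : v ∈ Metric.sphere (0 : E) 1 := by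
        rw [mem_sphere_zero_iff_norm, hv, norm_smul, norm_inv, norm_norm,
          inv_mul_cancel₀ hypos.ne']
      have hv0 := hsph0 v hvs
      have h1 : rad C v / rad C (-v) ≤ lam := hmaxu hvs
      have hrv := hCS.rad_pos (neg_ne_zero.2 hv0)
      rw [div_le_iff₀ hrv] at h1
      have hyv : y = ‖y‖ • v := by
        rw [hv, smul_smul, mul_inv_cancel₀ hypos.ne', one_smul]
      have h2 : ‖y‖ ≤ rad C v := by
        rw [← hCS.smul_mem_iff hv0 (norm_nonneg y), ← hyv]; exact hy
      have h3 : (-lam⁻¹) • y = (lam⁻¹ * ‖y‖) • (-v) := by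
        conv_lhs => rw [hyv]
        rw [smul_smul, smul_neg, ← neg_smul, neg_mul]
      rw [h3, hCS.smul_mem_iff (neg_ne_zero.2 hv0) (by positivity)]
      rw [inv_mul_le_iff₀ hlampos]
      exact h2.trans h1
  have hscale_int : ∀ y ∈ interior C, (-lam⁻¹) • y ∈ interior C := by
    intro y hy
    have hne : (-lam⁻¹) ≠ 0 := neg_ne_zero.2 (inv_ne_zero hlampos.ne')
    have hopen : IsOpen ((fun z : E => (-lam⁻¹) • z) '' interior C) :=
      (isOpenMap_smul₀ hne) _ isOpen_interior
    have hsub : (fun z : E => (-lam⁻¹) • z) '' interior C ⊆ C := by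
      rintro _ ⟨z, hz, rfl⟩
      exact hscale z (interior_subset hz)
    exact interior_maximal hsub hopen ⟨y, hy, rfl⟩
  -- `a` is not an interior point
  have haint : a ∉ interior C := by
    intro hint
    have h1 : ∀ᶠ t : ℝ in nhds 1, t • a ∈ interior C := by
      have hc : ContinuousAt (fun t : ℝ => t • a) 1 := by fun_prop
      apply hc
      simpa using isOpen_interior.mem_nhds hint
    obtain ⟨ε, hε, hball⟩ := Metric.eventually_nhds_iff.1 h1
    have h2 : (1 + ε / 2) • a ∈ C := interior_subset (hball (by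
      rw [Real.dist_eq]
      have : (1 + ε / 2) - 1 = ε / 2 := by ring
      rw [this, abs_of_pos (by positivity)]; linarith))
    rw [ha, smul_smul, hCS.smul_mem_iff hu0' (by positivity)] at h2
    nlinarith
  clear_value a b
  obtain ⟨f, hf⟩ := geometric_hahn_banach_open_point hCconv.interior isOpen_interior haint
  have hclos : ∀ y ∈ C, f y ≤ f a := by
    intro y hy
    have hyc : y ∈ closure (interior C) := by
      rw [hCconv.closure_interior_eq_closure_of_nonempty_interior ⟨0, h0⟩]
      exact subset_closure hy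
    have hcl : IsClosed {z : E | f z ≤ f a} := isClosed_le f.continuous continuous_const
    exact closure_minimal (fun z hz => (hf z hz).le) hcl hyc
  have hfb : f b = -lam * f a := by rw [hab, map_smul, smul_eq_mul]
  have hminC : ∀ y ∈ C, f b ≤ f y := by
    intro y hy
    have h1 := hclos _ (hscale y hy)
    rw [map_smul, smul_eq_mul] at h1
    rw [hfb]
    have h2 : lam * ((-lam⁻¹) * f y) ≤ lam * f a := mul_le_mul_of_nonneg_left h1 hlampos.le
    have h3 : lam * ((-lam⁻¹) * f y) = -f y := by field_simp
    linarith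
  have hminint : ∀ y ∈ interior C, f b < f y := by
    intro y hy
    have h1 := hf _ (hscale_int y hy)
    rw [map_smul, smul_eq_mul] at h1
    rw [hfb]
    have h2 : lam * ((-lam⁻¹) * f y) < lam * f a := mul_lt_mul_of_pos_left h1 hlampos
    have h3 : lam * ((-lam⁻¹) * f y) = -f y := by field_simp
    linarith
  -- uniqueness by strict convexity
  have humax : ∀ y ∈ C, f y = f a → y = a := by
    intro y hy hya
    by_contra hne
    have h1 := hsc hy haC hne (show (0 : ℝ) < 1 / 2 by norm_num) (show (0 : ℝ) < 1 / 2 by norm_num)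
      (by norm_num)
    have h2 := hf _ h1
    rw [map_add, map_smul, map_smul, smul_eq_mul, smul_eq_mul] at h2
    linarith
  have humin : ∀ y ∈ C, f y = f b → y = b := by
    intro y hy hyb
    by_contra hne
    have h1 := hsc hy hbC hne (show (0 : ℝ) < 1 / 2 by norm_num) (show (0 : ℝ) < 1 / 2 by norm_num)
      (by norm_num)
    have h2 := hminint _ h1
    rw [map_add, map_smul, map_smul, smul_eq_mul, smul_eq_mul] at h2
    linarith
  -- the extreme points `a`, `b` belong to `K`
  have haK : a ∈ K := by
    obtain ⟨y, hy, hymax⟩ := hK.compact.exists_isMaxOn hK.nonempty f.continuous.continuousOn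
    have h1 : C ⊆ {z : E | f z ≤ f y} := by
      apply convexHull_min
      · intro z hz; exact hymax hz
      · exact convex_halfSpace_le f.isLinear (f y)
    have h2 : f y = f a := le_antisymm (hclos y (hKC hy)) (h1 haC)
    rw [← humax y (hKC hy) h2]
    exact hy
  have hbK : b ∈ K := by
    obtain ⟨y, hy, hymin⟩ := hK.compact.exists_isMinOn hK.nonempty f.continuous.continuousOn
    have h1 : C ⊆ {z : E | f y ≤ f z} := by
      apply convexHull_min
      · intro z hz; exact hymin hz
      · exact convex_halfSpace_ge f.isLinear (f y)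
    have h2 : f y = f b := le_antisymm (h1 hbC) (hminC y (hKC hy))
    rw [← humin y (hKC hy) h2]
    exact hy
  exact sym_of_chord hk hkn hsec hab f haK hbK (fun y hy => hclos y (hKC hy))
    (fun y hy => hminC y (hKC hy)) (fun y hy => humax y (hKC hy))

/-- `Q2` when the convex hull of `K` is strictly convex. -/
theorem q2_of_strictConvex {n k : ℕ} (hk : 2 ≤ k) (hkn : k < n)
    {K L : Set (EuclideanSpace ℝ (Fin n))} (hK : IsStarBody K) (hL : IsStarBody L)
    (h : TranslateSections k K L) (hsc : StrictConvex ℝ (convexHull ℝ K)) : IsTranslate K L := by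
  have hn : 0 < n := by omega
  rcases dichotomy hk hkn hK hL h with h1 | ⟨h1, h2⟩
  · rw [h1]
    exact ⟨0, by simp⟩
  · obtain ⟨c, hc⟩ := strict_sym (hK.sb hn) hk (by simp; omega)
      (symSec_of_symmetricSections (hK.sb hn) h2) hsc
    refine ⟨-((2 : ℝ) • c), ?_⟩
    rw [h1]
    ext p
    constructor
    · intro hp
      have h3 := hc (-p) hp
      exact ⟨(2 : ℝ) • c - -p, h3, by simp⟩
    · rintro ⟨q, hq, rfl⟩
      have h3 := hc q hq
      change -(q + -((2 : ℝ) • c)) ∈ K
      have e : -(q + -((2 : ℝ) • c)) = (2 : ℝ) • c - q := by abel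
      rw [e]; exact h3

end Pool.Agent.Lib.MP_f7db8a
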