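import Pool.Agent.Lib.MP_f7db8a.Cen

set_option autoImplicit false
set_option linter.unusedSectionVars false

/-!
# Comparison of half-space volumes
-/

namespace Pool.Agent.Lib.MP_f7db8a

open Module Set Filter Topology MeasureTheory
open scoped ENNReal

instance instHaar3 : (volume : Measure ((ℝ × ℝ) × ℝ)).IsAddHaarMeasure := by
  rw [Measure.volume_eq_prod]
  infer_instance

theorem meas_A_pos : MeasurableSet {p : (ℝ × ℝ) × ℝ | 0 < p.1.1} :=
  (isOpen_lt (continuous_const) (by fun_prop)).measurableSet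

theorem meas_A_neg : MeasurableSet {p : (ℝ × ℝ) × ℝ | p.1.1 < 0} :=
  (isOpen_lt (by fun_prop) (continuous_const)).measurableSet

theorem meas_B_pos : MeasurableSet {p : (ℝ × ℝ) × ℝ | 0 < p.1.2} :=
  (isOpen_lt (continuous_const) (by fun_prop)).measurableSet

theorem meas_AB : MeasurableSet {p : ℝ × ℝ | p.1 < 0 ∧ 0 < p.2} := by
  have h : IsOpen ({p : ℝ × ℝ | p.1 < 0} ∩ {p : ℝ × ℝ | 0 < p.2}) :=
    (isOpen_lt continuous_fst continuous_const).inter (isOpen_lt continuous_const continuous_snd)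
  exact h.measurableSet

/-- length of the fibre over `(A, B)` -/
noncomputable def len (K : Set ((ℝ × ℝ) × ℝ)) (A B : ℝ) : ℝ≥0∞ :=
  volume {x : ℝ | ((A, B), x) ∈ K}

theorem measurable_len {K : Set ((ℝ × ℝ) × ℝ)} (hK : MeasurableSet K) :
    Measurable (fun p : ℝ × ℝ => len K p.1 p.2) :=
  measurable_measure_prodMk_left (ν := (volume : Measure ℝ)) hK

theorem lintegral_scale {a : ℝ} (ha : 0 < a) (h : ℝ → ℝ≥0∞) (hh : Measurable h) :
    ∫⁻ B in Ioi 0, h B = ENNReal.ofReal a * ∫⁻ s in Ioi 0, h (a * s) := by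
  have h1 : ∫⁻ B in Ioi 0, h B = ∫⁻ B, (Ioi (0 : ℝ)).indicator h B := by
    rw [lintegral_indicator measurableSet_Ioi]
  have h2 : ∫⁻ s in Ioi 0, h (a * s) = ∫⁻ s, (Ioi (0 : ℝ)).indicator h (a * s) := by
    rw [← lintegral_indicator measurableSet_Ioi]
    apply lintegral_congr
    intro s
    by_cases hs : 0 < s
    · rw [indicator_of_mem (show s ∈ Ioi (0 : ℝ) from hs),
        indicator_of_mem (show a * s ∈ Ioi (0 : ℝ) from mul_pos ha hs)]
    · rw [indicator_of_notMem (show s ∉ Ioi (0 : ℝ) from hs), indicator_of_notMem]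
      intro hcon
      exact hs ((mul_pos_iff_of_pos_left ha).1 hcon)
  rw [h1, h2]
  conv_lhs => rw [← Real.smul_map_volume_mul_left ha.ne']
  rw [lintegral_smul_measure, lintegral_map (hh.indicator measurableSet_Ioi) (by fun_prop),
    abs_of_pos ha]
  rfl

theorem volA {K : Set ((ℝ × ℝ) × ℝ)} (hK : MeasurableSet K) :
    volume (K ∩ {p | p.1.1 < 0 ∧ 0 < p.1.2}) =
      ∫⁻ s in Ioi (0 : ℝ), ∫⁻ A : ℝ, ENNReal.ofReal (-A) * len K A (-(s * A)) := by
  have hmeas : MeasurableSet (K ∩ {p : (ℝ × ℝ) × ℝ | p.1.1 < 0 ∧ 0 < p.1.2}) := by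
    exact hK.inter (meas_A_neg.inter meas_B_pos)
  have h1 : volume (K ∩ {p : (ℝ × ℝ) × ℝ | p.1.1 < 0 ∧ 0 < p.1.2}) =
      ∫⁻ p : ℝ × ℝ, (if p.1 < 0 ∧ 0 < p.2 then len K p.1 p.2 else 0) := by
    rw [Measure.volume_eq_prod, Measure.prod_apply hmeas]
    apply lintegral_congr
    intro p
    by_cases hp : p.1 < 0 ∧ 0 < p.2
    · rw [if_pos hp]
      unfold len
      congr 1
      ext x
      simp only [mem_preimage, mem_inter_iff, mem_ofPred_eq]
      exact ⟨fun h => h.1, fun h => ⟨h, hp⟩⟩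
    · rw [if_neg hp]
      have : (Prod.mk p ⁻¹' (K ∩ {p : (ℝ × ℝ) × ℝ | p.1.1 < 0 ∧ 0 < p.1.2})) = (∅ : Set ℝ) := by
        ext x
        simp only [mem_preimage, mem_inter_iff, mem_ofPred_eq, mem_empty_iff_false, iff_false]
        exact fun h => hp h.2
      rw [this, measure_empty]
  have hmeas2 : Measurable (fun p : ℝ × ℝ => (if p.1 < 0 ∧ 0 < p.2 then len K p.1 p.2 else 0)) := by
    exact Measurable.ite meas_AB (measurable_len hK) measurable_const
  rw [h1, Measure.volume_eq_prod, lintegral_prod _ hmeas2.aemeasurable]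
  have h2 : ∀ A : ℝ, ∫⁻ B : ℝ, (if (A, B).1 < 0 ∧ 0 < (A, B).2 then len K (A, B).1 (A, B).2 else 0)
      = ∫⁻ s in Ioi (0 : ℝ), ENNReal.ofReal (-A) * len K A (-(s * A)) := by
    intro A
    have hm : Measurable (fun B : ℝ => len K A B) :=
      (measurable_len hK).comp (by fun_prop : Measurable (fun B : ℝ => (A, B)))
    rcases lt_or_ge A 0 with hA | hA
    · have e1 : ∫⁻ B : ℝ, (if (A, B).1 < 0 ∧ 0 < (A, B).2 then len K (A, B).1 (A, B).2 else 0) =
          ∫⁻ B in Ioi (0 : ℝ), len K A B := by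
        rw [← lintegral_indicator measurableSet_Ioi]
        apply lintegral_congr
        intro B
        by_cases hB : 0 < B
        · rw [indicator_of_mem (show B ∈ Ioi (0 : ℝ) from hB), if_pos ⟨hA, hB⟩]
        · rw [indicator_of_notMem (show B ∉ Ioi (0 : ℝ) from hB), if_neg (fun h => hB h.2)]
      rw [e1, lintegral_scale (show 0 < -A by linarith) _ hm, ← lintegral_const_mul]
      · apply lintegral_congr
        intro s
        rw [show -A * s = -(s * A) by ring]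
      · exact hm.comp (by fun_prop)
    · have e1 : ENNReal.ofReal (-A) = 0 := ENNReal.ofReal_of_nonpos (by linarith)
      rw [e1]
      simp only [zero_mul, lintegral_zero]
      have e2 : ∀ B : ℝ, (if A < 0 ∧ 0 < B then len K A B else 0) = 0 := by
        intro B
        rw [if_neg (fun h => absurd h.1 (not_lt.2 hA))]
      simp only [e2, lintegral_zero]
  rw [lintegral_congr h2, lintegral_lintegral_swap]
  apply Measurable.aemeasurable
  unfold Function.uncurry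
  apply Measurable.mul
  · fun_prop
  · exact (measurable_len hK).comp (by fun_prop : Measurable (fun p : ℝ × ℝ => (p.1, -(p.2 * p.1))))

theorem len_neg (K : Set ((ℝ × ℝ) × ℝ)) (A B : ℝ) : len (-K) A B = len K (-A) (-B) := by
  unfold len
  have : {x : ℝ | ((A, B), x) ∈ -K} = -{x : ℝ | ((-A, -B), x) ∈ K} := by
    ext x
    simp only [mem_ofPred_eq, Set.mem_neg, Prod.neg_mk]
  rw [this, Measure.measure_neg]

theorem volB {K : Set ((ℝ × ℝ) × ℝ)} (hK : MeasurableSet K) :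
    volume (K ∩ {p | p.1.2 < 0 ∧ 0 < p.1.1}) =
      ∫⁻ s in Ioi (0 : ℝ), ∫⁻ A : ℝ, ENNReal.ofReal (-A) * len K (-A) (s * A) := by
  have h1 := volA (K := -K) hK.neg
  have h2 : (-K) ∩ {p : (ℝ × ℝ) × ℝ | p.1.1 < 0 ∧ 0 < p.1.2} =
      -(K ∩ {p | p.1.2 < 0 ∧ 0 < p.1.1}) := by
    ext p
    simp only [mem_inter_iff, Set.mem_neg, mem_ofPred_eq, Prod.fst_neg, Prod.snd_neg]
    constructor
    · rintro ⟨h1, h2, h3⟩; exact ⟨h1, by linarith, by linarith⟩
    · rintro ⟨h1, h2, h3⟩; exact ⟨h1, by linarith, by linarith⟩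
  rw [h2, Measure.measure_neg] at h1
  rw [h1]
  simp only [len_neg, neg_neg]

theorem len_sym {K : Set ((ℝ × ℝ) × ℝ)} {s a b : ℝ}
    (h : Cen K ((0, 0), 1) ((1, -s), 0) a b) (A : ℝ) :
    len K A (-(s * A)) = len K (2 * b - A) (-(s * (2 * b - A))) := by
  have hiff := h.iff
  simp only [Prod.smul_mk, smul_eq_mul, mul_zero, mul_one, Prod.mk_add_mk, zero_add, add_zero] at hiff
  unfold len
  have e : {x : ℝ | ((A, -(s * A)), x) ∈ K} =
      (fun x => 2 * a - x) ⁻¹' {x : ℝ | ((2 * b - A, -(s * (2 * b - A))), x) ∈ K} := by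
    ext x
    have := hiff x A
    simp only [mem_ofPred_eq, mem_preimage]
    rw [show -(s * A) = A * -s by ring, show -(s * (2 * b - A)) = (2 * b - A) * -s by ring]
    exact this
  rw [e]
  exact (Measure.measurePreserving_sub_left volume (2 * a)).measure_preimage_emb
    (MeasurableEquiv.subLeft (2 * a)).measurableEmbedding _

theorem inner_eq {K : Set ((ℝ × ℝ) × ℝ)} {s a b : ℝ}
    (h : Cen K ((0, 0), 1) ((1, -s), 0) a b) :
    ∫⁻ A : ℝ, ENNReal.ofReal (-A) * len K (-A) (s * A) =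
      ∫⁻ C : ℝ, ENNReal.ofReal (2 * b - C) * len K C (-(s * C)) := by
  have h1 : ∀ A : ℝ, ENNReal.ofReal (-A) * len K (-A) (s * A) =
      (fun C => ENNReal.ofReal (2 * b - C) * len K C (-(s * C))) (2 * b + A) := by
    intro A
    have h2 := len_sym h (-A)
    rw [show -(s * -A) = s * A by ring] at h2
    simp only
    rw [h2]
    congr 2
    · ring
    · ring
    · ring
  rw [lintegral_congr h1]
  exact lintegral_add_left_eq_self (μ := volume)
    (fun C : ℝ => ENNReal.ofReal (2 * b - C) * len K C (-(s * C))) (2 * b)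

theorem inner_le {K : Set ((ℝ × ℝ) × ℝ)} {s a b : ℝ}
    (h : Cen K ((0, 0), 1) ((1, -s), 0) a b) (hb : b ≤ 0) :
    ∫⁻ A : ℝ, ENNReal.ofReal (-A) * len K (-A) (s * A) ≤
      ∫⁻ A : ℝ, ENNReal.ofReal (-A) * len K A (-(s * A)) := by
  rw [inner_eq h]
  apply lintegral_mono
  intro C
  simp only
  gcongr
  linarith

theorem len_lt_top {K : Set ((ℝ × ℝ) × ℝ)} (hK : IsCompact K) (A B : ℝ) : len K A B < ∞ := by
  have hc : IsCompact (Prod.snd '' K) := hK.image continuous_snd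
  refine lt_of_le_of_lt (measure_mono ?_) hc.measure_lt_top
  intro x hx
  exact ⟨_, hx, rfl⟩

theorem len_pos {K : Set ((ℝ × ℝ) × ℝ)} (hK : (0 : (ℝ × ℝ) × ℝ) ∈ interior K) :
    ∃ ε : ℝ, 0 < ε ∧ ∀ A B : ℝ, |A| < ε → |B| < ε → 0 < len K A B := by
  rw [mem_interior_iff_mem_nhds, Metric.mem_nhds_iff] at hK
  obtain ⟨ε, hε, hball⟩ := hK
  refine ⟨ε, hε, ?_⟩
  intro A B hA hB
  have h1 : Ioo (-ε) ε ⊆ {x : ℝ | ((A, B), x) ∈ K} := by
    intro x hx
    apply hball
    rw [mem_ball_zero_iff, Prod.norm_def, Prod.norm_def]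
    simp only [Real.norm_eq_abs]
    rw [sup_lt_iff, sup_lt_iff]
    exact ⟨⟨hA, hB⟩, abs_lt.2 hx⟩
  refine lt_of_lt_of_le ?_ (measure_mono h1)
  rw [Real.volume_Ioo]
  simp only [ENNReal.ofReal_pos]
  linarith

theorem inner_lt {K : Set ((ℝ × ℝ) × ℝ)} (hK : IsCompact K) (h0 : (0 : (ℝ × ℝ) × ℝ) ∈ interior K)
    {s a b : ℝ} (hs : 0 < s)
    (h : Cen K ((0, 0), 1) ((1, -s), 0) a b) (hb : b < 0)
    (hfin : ∫⁻ A : ℝ, ENNReal.ofReal (-A) * len K (-A) (s * A) ≠ ∞) :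
    ∫⁻ A : ℝ, ENNReal.ofReal (-A) * len K (-A) (s * A) <
      ∫⁻ A : ℝ, ENNReal.ofReal (-A) * len K A (-(s * A)) := by
  rw [inner_eq h] at hfin ⊢
  obtain ⟨ε, hε, hpos⟩ := len_pos h0
  set δ := ε / (1 + s) with hδ
  have hδpos : 0 < δ := by positivity
  have hm : Measurable (fun A : ℝ => len K A (-(s * A))) :=
    (measurable_len hK.measurableSet).comp (by fun_prop : Measurable (fun A : ℝ => (A, -(s * A))))
  apply lintegral_strict_mono_of_ae_le_of_ae_lt_on (s := Ioo (-δ) 0)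
  · apply Measurable.aemeasurable
    apply Measurable.mul
    · fun_prop
    · exact hm
  · exact hfin
  · apply Filter.Eventually.of_forall
    intro C
    simp only
    gcongr
    linarith
  · rw [Real.volume_Ioo]
    simp only [ne_eq, ENNReal.ofReal_eq_zero, not_le]
    linarith
  · apply Filter.Eventually.of_forall
    rintro C ⟨hC1, hC2⟩
    have hCabs : |C| < δ := abs_lt.2 ⟨hC1, by linarith⟩
    have h1 : |C| < ε := lt_of_lt_of_le hCabs (by
      rw [hδ]; apply div_le_self hε.le; linarith)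
    have h2 : |-(s * C)| < ε := by
      rw [abs_neg, abs_mul, abs_of_pos hs]
      have : s * |C| ≤ s * δ := by gcongr
      have h3 : s * δ < ε := by
        rw [hδ, mul_div_assoc', div_lt_iff₀ (by positivity)]
        nlinarith
      linarith
    have h3 := hpos _ _ h1 h2
    apply (ENNReal.mul_lt_mul_iff_left h3.ne' (len_lt_top hK _ _).ne).2
    rw [ENNReal.ofReal_lt_ofReal_iff]
    · linarith
    · linarith

theorem null_snd : volume {p : (ℝ × ℝ) × ℝ | p.1.2 = 0} = 0 := by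
  let f : (ℝ × ℝ) × ℝ →ₗ[ℝ] ℝ :=
    (LinearMap.snd ℝ ℝ ℝ).comp (LinearMap.fst ℝ (ℝ × ℝ) ℝ)
  have h1 : {p : (ℝ × ℝ) × ℝ | p.1.2 = 0} = (LinearMap.ker f : Set ((ℝ × ℝ) × ℝ)) := by
    ext p; rfl
  rw [h1]
  apply Measure.addHaar_submodule
  intro htop
  have : ((0, 1), 0) ∈ LinearMap.ker f := by rw [htop]; trivial
  have h2 : f ((0, 1), 0) = 0 := this
  simp [f] at h2

/-- comparison of the two wedges gives a comparison of the half-spaces -/
theorem half_of_wedge {K : Set ((ℝ × ℝ) × ℝ)} (hK : IsCompact K) :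
    volume (K ∩ {p | 0 < p.1.1}) + volume (K ∩ {p | p.1.1 < 0 ∧ 0 < p.1.2}) ≤
      volume (K ∩ {p | p.1.2 < 0 ∧ 0 < p.1.1}) + volume (K ∩ {p | 0 < p.1.2}) := by
  have hm := hK.measurableSet
  have hA := meas_A_pos
  have hA' := meas_A_neg
  have hB := meas_B_pos
  have h1 : volume (K ∩ {p | 0 < p.1.1}) ≤ volume (K ∩ {p | p.1.2 < 0 ∧ 0 < p.1.1}) +
      volume (K ∩ {p | 0 < p.1.1 ∧ 0 < p.1.2}) := by
    have hsub : K ∩ {p : (ℝ × ℝ) × ℝ | 0 < p.1.1} ⊆ ((K ∩ {p | p.1.2 < 0 ∧ 0 < p.1.1}) ∪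
        (K ∩ {p | 0 < p.1.1 ∧ 0 < p.1.2})) ∪ {p | p.1.2 = 0} := by
      rintro p ⟨hpK, hp⟩
      rcases lt_trichotomy p.1.2 0 with h | h | h
      · exact Or.inl (Or.inl ⟨hpK, h, hp⟩)
      · exact Or.inr h
      · exact Or.inl (Or.inr ⟨hpK, hp, h⟩)
    refine (measure_mono hsub).trans ((measure_union_le _ _).trans ?_)
    rw [null_snd, add_zero]
    exact measure_union_le _ _
  have h2 : volume (K ∩ {p | p.1.1 < 0 ∧ 0 < p.1.2}) + volume (K ∩ {p | 0 < p.1.1 ∧ 0 < p.1.2}) ≤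
      volume (K ∩ {p | 0 < p.1.2}) := by
    rw [← measure_union]
    · apply measure_mono
      rintro p (⟨hpK, _, hp⟩ | ⟨hpK, _, hp⟩)
      · exact ⟨hpK, hp⟩
      · exact ⟨hpK, hp⟩
    · rw [Set.disjoint_left]
      rintro p ⟨_, h3, _⟩ ⟨_, h4, _⟩
      exact absurd (lt_trans h3 h4) (lt_irrefl _)
    · exact hm.inter (hA.inter hB)
  calc volume (K ∩ {p | 0 < p.1.1}) + volume (K ∩ {p | p.1.1 < 0 ∧ 0 < p.1.2})
      ≤ (volume (K ∩ {p | p.1.2 < 0 ∧ 0 < p.1.1}) +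
        volume (K ∩ {p | 0 < p.1.1 ∧ 0 < p.1.2})) +
          volume (K ∩ {p | p.1.1 < 0 ∧ 0 < p.1.2}) := by gcongr
    _ = volume (K ∩ {p | p.1.2 < 0 ∧ 0 < p.1.1}) +
        (volume (K ∩ {p | p.1.1 < 0 ∧ 0 < p.1.2}) +
          volume (K ∩ {p | 0 < p.1.1 ∧ 0 < p.1.2})) := by
        rw [add_assoc, add_comm (volume (K ∩ {p | 0 < p.1.1 ∧ 0 < p.1.2}))]
    _ ≤ _ := by gcongr

theorem half_le {K : Set ((ℝ × ℝ) × ℝ)} (hK : IsCompact K)
    (h : ∀ s : ℝ, 0 < s → ∃ a b : ℝ, b ≤ 0 ∧ Cen K ((0, 0), 1) ((1, -s), 0) a b) :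
    volume (K ∩ {p | 0 < p.1.1}) ≤ volume (K ∩ {p | 0 < p.1.2}) := by
  have h1 : volume (K ∩ {p : (ℝ × ℝ) × ℝ | p.1.2 < 0 ∧ 0 < p.1.1}) ≤
      volume (K ∩ {p | p.1.1 < 0 ∧ 0 < p.1.2}) := by
    rw [volA hK.measurableSet, volB hK.measurableSet]
    apply setLIntegral_mono' measurableSet_Ioi
    intro s hs
    obtain ⟨a, b, hb, hcen⟩ := h s hs
    exact inner_le hcen hb
  have h2 := half_of_wedge hK
  have hfin : volume (K ∩ {p : (ℝ × ℝ) × ℝ | p.1.1 < 0 ∧ 0 < p.1.2}) ≠ ∞ :=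
    ((measure_mono inter_subset_left).trans_lt hK.measure_lt_top).ne
  rw [← ENNReal.add_le_add_iff_right hfin]
  calc _ ≤ _ := h2
    _ ≤ _ := by rw [add_comm]; gcongr

theorem half_lt {K : Set ((ℝ × ℝ) × ℝ)} (hK : IsCompact K) (h0 : (0 : (ℝ × ℝ) × ℝ) ∈ interior K)
    (h : ∀ s : ℝ, 0 < s → ∃ a b : ℝ, b < 0 ∧ Cen K ((0, 0), 1) ((1, -s), 0) a b) :
    volume (K ∩ {p | 0 < p.1.1}) < volume (K ∩ {p | 0 < p.1.2}) := by
  have hfin : volume (K ∩ {p : (ℝ × ℝ) × ℝ | p.1.1 < 0 ∧ 0 < p.1.2}) ≠ ∞ :=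
    ((measure_mono inter_subset_left).trans_lt hK.measure_lt_top).ne
  have hfin2 : volume (K ∩ {p : (ℝ × ℝ) × ℝ | p.1.2 < 0 ∧ 0 < p.1.1}) ≠ ∞ :=
    ((measure_mono inter_subset_left).trans_lt hK.measure_lt_top).ne
  have hfin3 : volume (K ∩ {p : (ℝ × ℝ) × ℝ | 0 < p.1.2}) ≠ ∞ :=
    ((measure_mono inter_subset_left).trans_lt hK.measure_lt_top).ne
  have h1 : volume (K ∩ {p : (ℝ × ℝ) × ℝ | p.1.2 < 0 ∧ 0 < p.1.1}) <
      volume (K ∩ {p | p.1.1 < 0 ∧ 0 < p.1.2}) := by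
    rw [volB hK.measurableSet] at hfin2 ⊢
    rw [volA hK.measurableSet]
    have hm1 : Measurable (fun s : ℝ => ∫⁻ A : ℝ, ENNReal.ofReal (-A) * len K (-A) (s * A)) := by
      apply Measurable.lintegral_prod_right (f := fun s A : ℝ =>
        ENNReal.ofReal (-A) * len K (-A) (s * A))
      unfold Function.uncurry
      apply Measurable.mul
      · fun_prop
      · exact (measurable_len hK.measurableSet).comp
          (by fun_prop : Measurable (fun p : ℝ × ℝ => (-p.2, p.1 * p.2)))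
    have hm2 : Measurable (fun s : ℝ => ∫⁻ A : ℝ, ENNReal.ofReal (-A) * len K A (-(s * A))) := by
      apply Measurable.lintegral_prod_right (f := fun s A : ℝ =>
        ENNReal.ofReal (-A) * len K A (-(s * A)))
      unfold Function.uncurry
      apply Measurable.mul
      · fun_prop
      · exact (measurable_len hK.measurableSet).comp
          (by fun_prop : Measurable (fun p : ℝ × ℝ => (p.2, -(p.1 * p.2))))
    apply lintegral_strict_mono
    · rw [ne_eq, Measure.restrict_eq_zero, Real.volume_Ioi]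
      exact ENNReal.top_ne_zero
    · exact hm2.aemeasurable
    · exact hfin2
    · have hae := ae_lt_top hm1 hfin2
      filter_upwards [hae, ae_restrict_mem measurableSet_Ioi] with s h2 hs
      obtain ⟨a, b, hb, hcen⟩ := h s hs
      exact inner_lt hK h0 hs hcen hb h2.ne
  have h2 := half_of_wedge hK
  by_contra hcon
  rw [not_lt] at hcon
  have h3 : volume (K ∩ {p : (ℝ × ℝ) × ℝ | p.1.2 < 0 ∧ 0 < p.1.1}) + volume (K ∩ {p | 0 < p.1.2})
      < volume (K ∩ {p | 0 < p.1.1}) + volume (K ∩ {p | p.1.1 < 0 ∧ 0 < p.1.2}) := by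
    rw [add_comm]
    exact ENNReal.add_lt_add_of_le_of_lt hfin3 hcon h1
  exact absurd h2 (not_le.2 h3)

end Pool.Agent.Lib.MP_f7db8a
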